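import Pool.Agent.PLap.Defs

/-!
AeZero: abstract end of the argument.

Let chi_j(y) = a continuous compactly supported cutoff, 0 <= chi_j <= 1, chi_j increasing in j to 1 (e.g. max 0 (min 1 (j - |y|))). Put I_j = int chi_j(G) rho E0^2 (finite by hint).
h: I_j <= -Lam int chi_j(G) rho E0 <= |Lam| (I_j)^(1/2) (int rho)^(1/2) (Cauchy-Schwarz; chi_j rho E0 is integrable since |E0| <= 1 + E0^2), so I_j <= Lam^2 int rho.
Monotone convergence: rho E0^2 integrable, hence rho E0 integrable. Let j -> oo in h (dominated convergence): int rho E0^2 + Lam int rho E0 <= 0, and int rho E0 = 0 by hmean.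
So int rho E0^2 <= 0, rho E0^2 = 0 a.e., rho > 0 a.e.
-/

set_option autoImplicit false

open MeasureTheory Set Filter Topology
open scoped ENNReal NNReal ContDiff RealInnerProductSpace

namespace Pool.Agent.PLap

private noncomputable def AeZero_chi (j : ℕ) (y : E) : ℝ := max 0 (min 1 ((j : ℝ) - ‖y‖))

private theorem AeZero_cont (j : ℕ) : Continuous (AeZero_chi j) := by
  unfold AeZero_chi
  fun_prop

private theorem AeZero_nn (j : ℕ) (y : E) : 0 ≤ AeZero_chi j y := le_max_left _ _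

private theorem AeZero_le (j : ℕ) (y : E) : AeZero_chi j y ≤ 1 :=
  max_le zero_le_one (min_le_left _ _)

private theorem AeZero_cs (j : ℕ) : HasCompactSupport (AeZero_chi j) := by
  refine HasCompactSupport.intro (isCompact_closedBall (0 : E) j) fun y hy => ?_
  rw [Metric.mem_closedBall, dist_zero_right, not_le] at hy
  unfold AeZero_chi
  refine max_eq_left ((min_le_right _ _).trans ?_)
  linarith

private theorem AeZero_tend (y : E) : Tendsto (fun j => AeZero_chi j y) atTop (𝓝 1) := by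
  refine tendsto_const_nhds.congr' ?_
  filter_upwards [eventually_ge_atTop ⌈‖y‖ + 1⌉₊] with j hj
  have h1 : ‖y‖ + 1 ≤ j := (Nat.le_ceil _).trans (by exact_mod_cast hj)
  unfold AeZero_chi
  rw [min_eq_left (by linarith), max_eq_right zero_le_one]

theorem ae_zero {mu : Measure E} {rho E0 : E → ℝ} {G : E → E} {Lam : ℝ}
    (hrho : Integrable rho mu) (hpos : ∀ᵐ x ∂mu, 0 < rho x) (hE0 : AEStronglyMeasurable E0 mu)
    (hG : Measurable G)
    (hint : ∀ chi : E → ℝ, Continuous chi → (∀ y, 0 ≤ chi y) → HasCompactSupport chi →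
      Integrable (fun x => chi (G x) * (rho x * E0 x ^ 2)) mu)
    (h : ∀ chi : E → ℝ, Continuous chi → (∀ y, 0 ≤ chi y) → HasCompactSupport chi →
      ∫ x, chi (G x) * (E0 x + Lam) * (rho x * E0 x) ∂mu ≤ 0)
    (hmean : Integrable (fun x => rho x * E0 x) mu → ∫ x, rho x * E0 x ∂mu = 0) :
    ∀ᵐ x ∂mu, E0 x = 0 := by
  obtain ⟨F2, hF2⟩ : ∃ F2 : E → ℝ, F2 = fun x => rho x * E0 x ^ 2 := ⟨_, rfl⟩
  obtain ⟨F1, hF1⟩ : ∃ F1 : E → ℝ, F1 = fun x => rho x * E0 x := ⟨_, rfl⟩
  obtain ⟨c, hc⟩ : ∃ c : ℕ → E → ℝ, c = fun j x => AeZero_chi j (G x) := ⟨_, rfl⟩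
  have hc0 : ∀ j x, 0 ≤ c j x := fun j x => by rw [hc]; exact AeZero_nn _ _
  have hc1 : ∀ j x, c j x ≤ 1 := fun j x => by rw [hc]; exact AeZero_le _ _
  have hcm : ∀ j, Measurable (c j) := fun j => by
    rw [hc]; exact (AeZero_cont j).measurable.comp hG
  have hct : ∀ x, Tendsto (fun j => c j x) atTop (𝓝 1) := fun x => by
    rw [hc]; exact AeZero_tend _
  have hF1m : AEStronglyMeasurable F1 mu := by
    rw [hF1]; exact hrho.aestronglyMeasurable.mul hE0
  have hF2m : AEStronglyMeasurable F2 mu := by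
    rw [hF2]; exact hrho.aestronglyMeasurable.mul (hE0.pow 2)
  have hI2 : ∀ j, Integrable (fun x => c j x * F2 x) mu := fun j => by
    rw [hc, hF2]; exact hint (AeZero_chi j) (AeZero_cont j) (AeZero_nn j) (AeZero_cs j)
  have hIr : ∀ j, Integrable (fun x => c j x * rho x) mu := fun j => by
    refine hrho.mono ((hcm j).aestronglyMeasurable.mul hrho.aestronglyMeasurable)
      (ae_of_all _ fun x => ?_)
    rw [norm_mul, Real.norm_eq_abs (c j x), abs_of_nonneg (hc0 j x)]
    exact mul_le_of_le_one_left (norm_nonneg _) (hc1 j x)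
  have hI1 : ∀ j, Integrable (fun x => c j x * F1 x) mu := fun j => by
    refine ((hIr j).add (hI2 j)).mono ((hcm j).aestronglyMeasurable.mul hF1m) ?_
    filter_upwards [hpos] with x hx
    have h1 : 0 ≤ c j x := hc0 j x
    simp only [Pi.add_apply, hF1, hF2]
    rw [Real.norm_eq_abs, Real.norm_eq_abs, abs_mul, abs_mul, abs_of_nonneg h1, abs_of_pos hx]
    have h2 : 0 ≤ c j x * rho x + c j x * (rho x * E0 x ^ 2) := by positivity
    rw [abs_of_nonneg h2]
    have h3 : |E0 x| ≤ 1 + E0 x ^ 2 := by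
      have := sq_abs (E0 x)
      nlinarith [sq_nonneg (|E0 x| - 1 / 2), abs_nonneg (E0 x)]
    have h4 : 0 ≤ c j x * rho x := by positivity
    nlinarith [mul_le_mul_of_nonneg_left h3 h4]
  have hh : ∀ j, ∫ x, c j x * F2 x ∂mu + Lam * ∫ x, c j x * F1 x ∂mu ≤ 0 := fun j => by
    have h1 := h (AeZero_chi j) (AeZero_cont j) (AeZero_nn j) (AeZero_cs j)
    have h2 : ∫ x, AeZero_chi j (G x) * (E0 x + Lam) * (rho x * E0 x) ∂mu =
        ∫ x, (c j x * F2 x + Lam * (c j x * F1 x)) ∂mu := by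
      refine integral_congr_ae (ae_of_all _ fun x => ?_)
      simp only [hc, hF2, hF1]
      ring
    rw [h2, integral_add (hI2 j) ((hI1 j).const_mul Lam), integral_const_mul] at h1
    exact h1
  have hbound : ∀ j, ∫ x, c j x * F2 x ∂mu ≤ Lam ^ 2 * ∫ x, rho x ∂mu := fun j => by
    have h1 : ∫ x, -(Lam * (c j x * F1 x)) ∂mu ≤
        ∫ x, (1 / 2 * (c j x * F2 x) + Lam ^ 2 / 2 * rho x) ∂mu := by
      refine integral_mono_ae ((hI1 j).const_mul Lam).neg
        (((hI2 j).const_mul (1 / 2)).add (hrho.const_mul (Lam ^ 2 / 2))) ?_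
      filter_upwards [hpos] with x hx
      simp only [hF1, hF2]
      have h2 : 0 ≤ c j x * rho x := mul_nonneg (hc0 j x) hx.le
      have h3 : c j x * rho x ≤ rho x := mul_le_of_le_one_left hx.le (hc1 j x)
      have h4 : -(Lam * E0 x) ≤ 1 / 2 * E0 x ^ 2 + Lam ^ 2 / 2 := by
        nlinarith [sq_nonneg (E0 x + Lam)]
      have h5 := mul_le_mul_of_nonneg_left h4 h2
      have h6 : 0 ≤ Lam ^ 2 / 2 := by positivity
      have h7 := mul_le_mul_of_nonneg_left h3 h6
      nlinarith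
    rw [integral_neg, integral_const_mul,
      integral_add ((hI2 j).const_mul (1 / 2)) (hrho.const_mul (Lam ^ 2 / 2)),
      integral_const_mul, integral_const_mul] at h1
    have h2 := hh j
    linarith
  have hF20 : ∀ᵐ x ∂mu, 0 ≤ F2 x := by
    filter_upwards [hpos] with x hx
    rw [hF2]
    positivity
  have hInt2 : Integrable F2 mu := by
    refine ⟨hF2m, ?_⟩
    have h1 : ∫⁻ x, ‖F2 x‖ₑ ∂mu ≤ liminf (fun j => ∫⁻ x, ‖c j x * F2 x‖ₑ ∂mu) atTop := by
      have h2 : ∀ x, liminf (fun j => ‖c j x * F2 x‖ₑ) atTop = ‖F2 x‖ₑ := fun x => by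
        have h3 : Tendsto (fun j => c j x * F2 x) atTop (𝓝 (1 * F2 x)) :=
          (hct x).mul tendsto_const_nhds
        rw [one_mul] at h3
        exact h3.enorm.liminf_eq
      calc ∫⁻ x, ‖F2 x‖ₑ ∂mu = ∫⁻ x, liminf (fun j => ‖c j x * F2 x‖ₑ) atTop ∂mu := by
            simp only [h2]
        _ ≤ _ := lintegral_liminf_le' fun j => (hI2 j).aestronglyMeasurable.enorm
    have h2 : ∀ j, ∫⁻ x, ‖c j x * F2 x‖ₑ ∂mu ≤ ENNReal.ofReal (Lam ^ 2 * ∫ x, rho x ∂mu) :=
      fun j => by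
        have h3 : ∀ᵐ x ∂mu, 0 ≤ c j x * F2 x := by
          filter_upwards [hF20] with x hx
          exact mul_nonneg (hc0 j x) hx
        have h4 : ∫⁻ x, ‖c j x * F2 x‖ₑ ∂mu = ∫⁻ x, ENNReal.ofReal (c j x * F2 x) ∂mu := by
          refine lintegral_congr_ae ?_
          filter_upwards [h3] with x hx
          exact Real.enorm_of_nonneg hx
        rw [h4, ← ofReal_integral_eq_lintegral_ofReal (hI2 j) h3]
        exact ENNReal.ofReal_le_ofReal (hbound j)
    have h3 : liminf (fun j => ∫⁻ x, ‖c j x * F2 x‖ₑ ∂mu) atTop ≤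
        ENNReal.ofReal (Lam ^ 2 * ∫ x, rho x ∂mu) := by
      have h4 : liminf (fun j => ∫⁻ x, ‖c j x * F2 x‖ₑ ∂mu) atTop ≤
          liminf (fun _ : ℕ => ENNReal.ofReal (Lam ^ 2 * ∫ x, rho x ∂mu)) atTop :=
        liminf_le_liminf (Eventually.of_forall h2)
      rwa [liminf_const] at h4
    exact (h1.trans h3).trans_lt ENNReal.ofReal_lt_top
  have hInt1 : Integrable F1 mu := by
    refine (hrho.norm.add hInt2).mono hF1m ?_
    filter_upwards [hpos] with x hx
    simp only [Pi.add_apply, hF1, hF2]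
    rw [Real.norm_eq_abs, Real.norm_eq_abs, Real.norm_eq_abs, abs_mul, abs_of_pos hx]
    have h2 : 0 ≤ rho x + rho x * E0 x ^ 2 := by positivity
    rw [abs_of_nonneg h2]
    have h3 : |E0 x| ≤ 1 + E0 x ^ 2 := by
      have := sq_abs (E0 x)
      nlinarith [sq_nonneg (|E0 x| - 1 / 2), abs_nonneg (E0 x)]
    nlinarith [mul_le_mul_of_nonneg_left h3 hx.le]
  have hlim : ∀ F : E → ℝ, Integrable F mu →
      Tendsto (fun j => ∫ x, c j x * F x ∂mu) atTop (𝓝 (∫ x, F x ∂mu)) := by
    intro F hF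
    refine tendsto_integral_of_dominated_convergence (fun x => ‖F x‖)
      (fun j => (hcm j).aestronglyMeasurable.mul hF.aestronglyMeasurable) hF.norm
      (fun j => ae_of_all _ fun x => ?_) (ae_of_all _ fun x => ?_)
    · rw [norm_mul, Real.norm_eq_abs (c j x), abs_of_nonneg (hc0 j x)]
      exact mul_le_of_le_one_left (norm_nonneg _) (hc1 j x)
    · have h3 : Tendsto (fun j => c j x * F x) atTop (𝓝 (1 * F x)) :=
        (hct x).mul tendsto_const_nhds
      rwa [one_mul] at h3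
  have hm : ∫ x, F1 x ∂mu = 0 := by
    rw [hF1] at hInt1 ⊢
    exact hmean hInt1
  have hfin : ∫ x, F2 x ∂mu + Lam * ∫ x, F1 x ∂mu ≤ 0 :=
    le_of_tendsto ((hlim F2 hInt2).add ((hlim F1 hInt1).const_mul Lam))
      (Eventually.of_forall hh)
  rw [hm, mul_zero, add_zero] at hfin
  have hz : ∫ x, F2 x ∂mu = 0 := le_antisymm hfin (integral_nonneg_of_ae hF20)
  have hz2 := (integral_eq_zero_iff_of_nonneg_ae hF20 hInt2).1 hz
  filter_upwards [hz2, hpos] with x hx hx2
  rw [hF2] at hx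
  simp only [Pi.zero_apply, mul_eq_zero, hx2.ne', false_or] at hx
  exact pow_eq_zero_iff (by norm_num) |>.1 hx

end Pool.Agent.PLap
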