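import Pool.Agent.PLap.Defs

/-!
BDefs: the logarithmic barrier of a polygon.
-/

set_option autoImplicit false

open MeasureTheory Set Filter Topology
open scoped ENNReal NNReal ContDiff RealInnerProductSpace

namespace Pool.Agent.PLap

/-- data of a polygon -/
structure PolyData (n : ℕ) (nu : Fin n → E) (c : Fin n → ℝ) (P : Set E) : Prop where
  unit : ∀ i, ‖nu i‖ = 1
  eq : P = {x | ∀ i, ⟪nu i, x⟫ < c i}
  bounded : Bornology.IsBounded P
  nonempty : P.Nonempty

/-- logarithmic barrier -/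
noncomputable def Lb {n : ℕ} (nu : Fin n → E) (c : Fin n → ℝ) (x : E) : ℝ :=
  -∑ i, Real.log (c i - ⟪nu i, x⟫)

/-- sum of the inverse distances -/
noncomputable def SS {n : ℕ} (nu : Fin n → E) (c : Fin n → ℝ) (x : E) : ℝ :=
  ∑ i, 1 / (c i - ⟪nu i, x⟫)

end Pool.Agent.PLap
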