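import Pool.Agent.PLap.BDefs

/-!
BarA: elementary facts on the logarithmic barrier Lb = - sum log ell_i, ell_i = c_i - <nu_i, x> > 0 on P.

n > 0 since P is bounded (the plane is not). P is open and convex. gradient Lb = sum (1/ell_i) nu_i, the derivative of gradient Lb at x is v -> sum <nu_i,v>/ell_i^2 nu_i.
Lb is smooth on P and convex (-log convex, composed with affine). ell_i <= M0 on P (bounded), so Lb >= - n log M0 and Lb <= R forces every
-log ell_i <= R + n log (max M0 1), i.e. ell_i >= some positive number: sublevel sets are closed and bounded. Same for SS: SS <= R gives ell_i >= 1/R.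
|gradient Lb| <= SS (triangle inequality, unit vectors). With z0 in P, rho = min ell_i(z0) > 0:
<gradient Lb x, x - z0> = sum (ell_i(z0) - ell_i(x))/ell_i(x) >= rho SS - n, and |x - z0| <= dd.
trace of the Hessian = sum 1/ell_i^2 in [SS^2/n, SS^2] (Cauchy-Schwarz; all terms positive).
-/

set_option autoImplicit false

open MeasureTheory Set Filter Topology
open scoped ENNReal NNReal ContDiff RealInnerProductSpace

namespace Pool.Agent.PLap

variable {n : ℕ} {nu : Fin n → E} {c : Fin n → ℝ} {P : Set E}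

private theorem BarA_pos (h : PolyData n nu c P) {x : E} (hx : x ∈ P) (i : Fin n) :
    0 < c i - ⟪nu i, x⟫ := by
  rw [h.eq] at hx
  exact sub_pos.2 (hx i)

private theorem BarA_le (h : PolyData n nu c P) :
    ∃ M : ℝ, 1 ≤ M ∧ (∀ x ∈ P, ‖x‖ ≤ M) ∧ ∀ x ∈ P, ∀ i, c i - ⟪nu i, x⟫ ≤ M := by
  obtain ⟨M, hM⟩ := h.bounded.exists_norm_le
  refine ⟨∑ i, |c i| + |M| + 1, ?_, fun x hx => ?_, fun x hx i => ?_⟩
  · have : 0 ≤ ∑ i, |c i| := Finset.sum_nonneg fun i _ => abs_nonneg _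
    linarith [abs_nonneg M]
  · have : 0 ≤ ∑ i, |c i| := Finset.sum_nonneg fun i _ => abs_nonneg _
    linarith [hM x hx, le_abs_self M]
  · have h1 : |c i| ≤ ∑ i, |c i| :=
      Finset.single_le_sum (f := fun i => |c i|) (fun i _ => abs_nonneg _) (Finset.mem_univ i)
    have h2 : |⟪nu i, x⟫| ≤ ‖nu i‖ * ‖x‖ := abs_real_inner_le_norm _ _
    rw [h.unit i, one_mul] at h2
    have h3 := hM x hx
    have h4 := le_abs_self (c i)
    have h5 := neg_abs_le ⟪nu i, x⟫
    have h6 := le_abs_self M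
    linarith

private theorem BarA_compact (h : PolyData n nu c P) {f : E → ℝ} (hf : ContinuousOn f P) (R : ℝ)
    {del : ℝ} (hdel : 0 < del) (hR : ∀ x ∈ P, f x ≤ R → ∀ i, del ≤ c i - ⟪nu i, x⟫) :
    IsCompact {x | x ∈ P ∧ f x ≤ R} := by
  obtain ⟨M, -, hM, -⟩ := BarA_le h
  have hK : IsClosed (⋂ i, {x : E | del ≤ c i - ⟪nu i, x⟫}) :=
    isClosed_iInter fun i => isClosed_le continuous_const
      (continuous_const.sub (continuous_const.inner continuous_id))
  have hKP : (⋂ i, {x : E | del ≤ c i - ⟪nu i, x⟫}) ⊆ P := by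
    intro x hx
    rw [h.eq]
    intro i
    have h1 := mem_iInter.1 hx i
    have h2 : del ≤ c i - ⟪nu i, x⟫ := h1
    linarith
  have hS : {x | x ∈ P ∧ f x ≤ R} = (⋂ i, {x : E | del ≤ c i - ⟪nu i, x⟫}) ∩ f ⁻¹' (Iic R) := by
    ext x
    constructor
    · rintro ⟨h1, h2⟩
      exact ⟨mem_iInter.2 fun i => hR x h1 h2 i, h2⟩
    · rintro ⟨h1, h2⟩
      exact ⟨hKP h1, h2⟩
  have hcl : IsClosed {x | x ∈ P ∧ f x ≤ R} := by
    rw [hS]
    exact (hf.mono hKP).preimage_isClosed_of_isClosed hK isClosed_Iic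
  refine Metric.isCompact_of_isClosed_isBounded hcl ?_
  exact h.bounded.subset fun x hx => hx.1

private theorem BarA_fd (h : PolyData n nu c P) {x : E} (i : Fin n) :
    HasFDerivAt (fun y : E => c i - ⟪nu i, y⟫) (-(innerSL ℝ (nu i))) x :=
  (innerSL ℝ (nu i)).hasFDerivAt.const_sub (c i)

theorem PolyData.n_pos (h : PolyData n nu c P) : 0 < n := by
  rcases Nat.eq_zero_or_pos n with rfl | hn
  · exfalso
    have h1 : P = univ := by
      rw [h.eq]
      ext x
      simp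
    have h2 := h.bounded
    rw [h1] at h2
    exact NormedSpace.unbounded_univ ℝ E h2
  · exact hn

theorem PolyData.isOpen (h : PolyData n nu c P) : IsOpen P := by
  have h1 : P = ⋂ i, {x : E | ⟪nu i, x⟫ < c i} := by
    rw [h.eq]
    ext x
    simp
  rw [h1]
  exact isOpen_iInter_of_finite fun i => isOpen_lt (continuous_const.inner continuous_id)
    continuous_const

theorem PolyData.convex (h : PolyData n nu c P) : Convex ℝ P := by
  have h1 : P = ⋂ i, {x : E | innerSL ℝ (nu i) x < c i} := by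
    rw [h.eq]
    ext x
    simp
  rw [h1]
  exact convex_iInter fun i => convex_halfSpace_lt (innerSL ℝ (nu i)).toLinearMap.isLinear (c i)

theorem Lb_contDiffOn (h : PolyData n nu c P) : ContDiffOn ℝ 2 (Lb nu c) P := by
  unfold Lb
  refine ContDiffOn.neg (ContDiffOn.sum fun i _ => ?_)
  refine ContDiffOn.log ?_ fun x hx => (BarA_pos h hx i).ne'
  exact (contDiff_const.sub (contDiff_const.inner ℝ contDiff_id)).contDiffOn

theorem Lb_convex (h : PolyData n nu c P) : ConvexOn ℝ P (Lb nu c) := by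
  refine ⟨h.convex, fun x hx y hy a b ha hb hab => ?_⟩
  have h1 : ∀ i, a * Real.log (c i - ⟪nu i, x⟫) + b * Real.log (c i - ⟪nu i, y⟫) ≤
      Real.log (c i - ⟪nu i, a • x + b • y⟫) := by
    intro i
    have h2 := (strictConcaveOn_log_Ioi.concaveOn).2 (BarA_pos h hx i) (BarA_pos h hy i) ha hb hab
    rw [smul_eq_mul, smul_eq_mul, smul_eq_mul, smul_eq_mul] at h2
    refine h2.trans (le_of_eq ?_)
    congr 1
    rw [inner_add_right, inner_smul_right, inner_smul_right]
    linear_combination c i * hab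
  have h2 := Finset.sum_le_sum fun i (_ : i ∈ Finset.univ) => h1 i
  rw [Finset.sum_add_distrib, ← Finset.mul_sum, ← Finset.mul_sum] at h2
  unfold Lb
  rw [smul_eq_mul, smul_eq_mul]
  linarith

theorem Lb_gradient (h : PolyData n nu c P) {x : E} (hx : x ∈ P) :
    HasGradientAt (Lb nu c) (∑ i, (1 / (c i - ⟪nu i, x⟫)) • nu i) x := by
  rw [hasGradientAt_iff_hasFDerivAt]
  unfold Lb
  have h1 : HasFDerivAt (fun y : E => -∑ i, Real.log (c i - ⟪nu i, y⟫))
      (-∑ i, (c i - ⟪nu i, x⟫)⁻¹ • (-(innerSL ℝ (nu i)))) x :=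
    HasFDerivAt.neg (HasFDerivAt.fun_sum fun i _ => (BarA_fd h i).log (BarA_pos h hx i).ne')
  refine h1.congr_fderiv (ContinuousLinearMap.ext fun v => ?_)
  rw [InnerProductSpace.toDual_apply_apply, sum_inner]
  simp [inner_smul_left]

theorem Lb_hess (h : PolyData n nu c P) {x : E} (hx : x ∈ P) :
    HasFDerivAt (gradient (Lb nu c))
      (∑ i, (1 / (c i - ⟪nu i, x⟫) ^ 2) • (innerSL ℝ (nu i)).smulRight (nu i)) x := by
  have h1 : gradient (Lb nu c) =ᶠ[𝓝 x] fun y => ∑ i, (1 / (c i - ⟪nu i, y⟫)) • nu i := by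
    filter_upwards [h.isOpen.mem_nhds hx] with y hy
    exact (Lb_gradient h hy).gradient
  refine HasFDerivAt.congr_of_eventuallyEq ?_ h1
  refine HasFDerivAt.fun_sum fun i _ => ?_
  have hp := BarA_pos h hx i
  have h2 : HasFDerivAt (fun y : E => (1 / (c i - ⟪nu i, y⟫)))
      ((1 / (c i - ⟪nu i, x⟫) ^ 2) • innerSL ℝ (nu i)) x := by
    have h3 := (hasDerivAt_inv hp.ne').comp_hasFDerivAt x (BarA_fd h i)
    have h5 : HasFDerivAt (fun y : E => (c i - ⟪nu i, y⟫)⁻¹)
      ((1 / (c i - ⟪nu i, x⟫) ^ 2) • innerSL ℝ (nu i)) x := by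
      refine h3.congr_fderiv (ContinuousLinearMap.ext fun v => ?_)
      simp
    simpa only [one_div] using h5
  have h4 := h2.smul_const (nu i)
  refine h4.congr_fderiv (ContinuousLinearMap.ext fun v => ?_)
  simp [mul_smul]

theorem Lb_bdd_below (h : PolyData n nu c P) : ∃ m : ℝ, ∀ x ∈ P, m ≤ Lb nu c x := by
  obtain ⟨M, hM1, -, hM⟩ := BarA_le h
  refine ⟨-∑ _i : Fin n, Real.log M, fun x hx => ?_⟩
  unfold Lb
  exact neg_le_neg (Finset.sum_le_sum fun i _ => Real.log_le_log (BarA_pos h hx i) (hM x hx i))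

theorem Lb_proper (h : PolyData n nu c P) (R : ℝ) : IsCompact {x | x ∈ P ∧ Lb nu c x ≤ R} := by
  obtain ⟨M, hM1, -, hM⟩ := BarA_le h
  refine BarA_compact h (Lb_contDiffOn h).continuousOn R
    (Real.exp_pos (-(R + ∑ _i : Fin n, Real.log M))) fun x hx hR i => ?_
  have hp := BarA_pos h hx i
  rw [← Real.exp_log hp]
  apply Real.exp_le_exp.2
  have h1 : ∑ j ∈ Finset.univ.erase i, Real.log (c j - ⟪nu j, x⟫) ≤ ∑ _j : Fin n, Real.log M := by
    refine (Finset.sum_le_sum fun j _ => Real.log_le_log (BarA_pos h hx j) (hM x hx j)).trans ?_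
    exact Finset.sum_le_sum_of_subset_of_nonneg (Finset.erase_subset _ _)
      fun j _ _ => Real.log_nonneg hM1
  have h2 := Finset.add_sum_erase Finset.univ (fun j => Real.log (c j - ⟪nu j, x⟫))
    (Finset.mem_univ i)
  unfold Lb at hR
  linarith

theorem SS_proper (h : PolyData n nu c P) (R : ℝ) : IsCompact {x | x ∈ P ∧ SS nu c x ≤ R} := by
  have hc : ContinuousOn (SS nu c) P := by
    unfold SS
    refine continuousOn_finsetSum _ fun i _ => ?_
    refine ContinuousOn.div continuousOn_const ?_ fun x hx => (BarA_pos h hx i).ne'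
    exact (continuous_const.sub (continuous_const.inner continuous_id)).continuousOn
  refine BarA_compact h hc R (del := 1 / (|R| + 1)) (by positivity) fun x hx hR i => ?_
  have hp := BarA_pos h hx i
  have h1 : 1 / (c i - ⟪nu i, x⟫) ≤ SS nu c x := by
    unfold SS
    exact Finset.single_le_sum (f := fun i => 1 / (c i - ⟪nu i, x⟫))
      (fun i _ => (one_div_pos.2 (BarA_pos h hx i)).le) (Finset.mem_univ i)
  have h2 : 1 / (c i - ⟪nu i, x⟫) ≤ |R| + 1 := by linarith [le_abs_self R]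
  rw [div_le_iff₀ hp] at h2
  rw [div_le_iff₀ (by positivity)]
  linarith

theorem SS_pos (h : PolyData n nu c P) {x : E} (hx : x ∈ P) : 0 < SS nu c x := by
  unfold SS
  have : Nonempty (Fin n) := ⟨⟨0, h.n_pos⟩⟩
  exact Finset.sum_pos (fun i _ => one_div_pos.2 (BarA_pos h hx i)) Finset.univ_nonempty

theorem Lb_grad_le (h : PolyData n nu c P) {x : E} (hx : x ∈ P) :
    ‖gradient (Lb nu c) x‖ ≤ SS nu c x := by
  rw [(Lb_gradient h hx).gradient]
  unfold SS
  refine (norm_sum_le _ _).trans (Finset.sum_le_sum fun i _ => ?_)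
  rw [norm_smul, h.unit i, mul_one, Real.norm_of_nonneg (one_div_pos.2 (BarA_pos h hx i)).le]

theorem Lb_grad_ge (h : PolyData n nu c P) : ∃ rho C : ℝ, 0 < rho ∧ ∀ x ∈ P,
    rho * SS nu c x - C ≤ ‖gradient (Lb nu c) x‖ := by
  obtain ⟨z, hz⟩ := h.nonempty
  obtain ⟨M, hM1, hM, -⟩ := BarA_le h
  have : Nonempty (Fin n) := ⟨⟨0, h.n_pos⟩⟩
  obtain ⟨i0, -, hi0⟩ := Finset.exists_min_image Finset.univ (fun i => c i - ⟪nu i, z⟫)
    Finset.univ_nonempty
  have hr := BarA_pos h hz i0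
  have hM0 : 0 < 2 * M := by linarith
  refine ⟨(c i0 - ⟪nu i0, z⟫) / (2 * M), n / (2 * M), by positivity, fun x hx => ?_⟩
  have h1 : ⟪gradient (Lb nu c) x, x - z⟫ ≤ ‖gradient (Lb nu c) x‖ * (2 * M) := by
    refine (real_inner_le_norm _ _).trans ?_
    refine mul_le_mul_of_nonneg_left ?_ (norm_nonneg _)
    have h2 := norm_sub_le x z
    have h3 := hM x hx
    have h4 := hM z hz
    linarith
  have h2 : (c i0 - ⟪nu i0, z⟫) * SS nu c x - n ≤ ⟪gradient (Lb nu c) x, x - z⟫ := by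
    rw [(Lb_gradient h hx).gradient, sum_inner]
    have h3 : (c i0 - ⟪nu i0, z⟫) * SS nu c x - n =
        ∑ i, ((c i0 - ⟪nu i0, z⟫) * (1 / (c i - ⟪nu i, x⟫)) - 1) := by
      rw [Finset.sum_sub_distrib, ← Finset.mul_sum]
      simp [SS]
    rw [h3]
    refine Finset.sum_le_sum fun i _ => ?_
    have hp := BarA_pos h hx i
    have h4 := hi0 i (Finset.mem_univ i)
    rw [inner_smul_left, inner_sub_right]
    simp only [conj_trivial]
    have h5 : 1 / (c i - ⟪nu i, x⟫) * (⟪nu i, x⟫ - ⟪nu i, z⟫) =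
        (c i - ⟪nu i, z⟫) * (1 / (c i - ⟪nu i, x⟫)) - 1 := by
      field_simp
      ring
    rw [h5]
    have h6 := mul_le_mul_of_nonneg_right h4 (one_div_pos.2 hp).le
    linarith
  have h3 := h2.trans h1
  rw [← div_le_iff₀ hM0] at h3
  refine le_trans (le_of_eq ?_) h3
  ring

theorem Lb_trace (h : PolyData n nu c P) {x : E} (hx : x ∈ P) :
    SS nu c x ^ 2 / n ≤ ∑ i, (1 / (c i - ⟪nu i, x⟫) ^ 2) ∧
      ∑ i, (1 / (c i - ⟪nu i, x⟫) ^ 2) ≤ SS nu c x ^ 2 := by
  have hn : (0 : ℝ) < n := by exact_mod_cast h.n_pos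
  have hS := SS_pos h hx
  have h0 : ∀ i, 0 < 1 / (c i - ⟪nu i, x⟫) := fun i => one_div_pos.2 (BarA_pos h hx i)
  have e : ∀ i, 1 / (c i - ⟪nu i, x⟫) ^ 2 = (1 / (c i - ⟪nu i, x⟫)) ^ 2 := by
    intro i
    rw [div_pow, one_pow]
  simp only [e]
  constructor
  · rw [div_le_iff₀ hn]
    have h1 := sq_sum_le_card_mul_sum_sq (s := (Finset.univ : Finset (Fin n)))
      (f := fun i => 1 / (c i - ⟪nu i, x⟫))
    rw [Finset.card_univ, Fintype.card_fin] at h1
    unfold SS
    linarith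
  · have h1 : ∀ i ∈ (Finset.univ : Finset (Fin n)), (1 / (c i - ⟪nu i, x⟫)) ^ 2 ≤
        (1 / (c i - ⟪nu i, x⟫)) * SS nu c x := by
      intro i hi
      rw [sq]
      refine mul_le_mul_of_nonneg_left ?_ (h0 i).le
      unfold SS
      exact Finset.single_le_sum (f := fun i => 1 / (c i - ⟪nu i, x⟫))
        (fun i _ => (h0 i).le) hi
    refine (Finset.sum_le_sum h1).trans (le_of_eq ?_)
    rw [← Finset.sum_mul, sq]
    rfl

/-- energy of the barrier: exp(-Lb) |gradient Lb| is bounded on P: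
prod ell_i * sum 1/ell_j = sum_j prod_{i != j} ell_i. -/
theorem Lb_energy (h : PolyData n nu c P) : ∃ C : ℝ, ∀ x ∈ P,
    Real.exp (-(Lb nu c x)) * ‖gradient (Lb nu c) x‖ ≤ C := by
  obtain ⟨M, hM1, -, hM⟩ := BarA_le h
  refine ⟨∑ _j : Fin n, M ^ (n - 1), fun x hx => ?_⟩
  have hp := BarA_pos h hx
  have h1 : Real.exp (-(Lb nu c x)) = ∏ i, (c i - ⟪nu i, x⟫) := by
    unfold Lb
    rw [neg_neg, Real.exp_sum]
    exact Finset.prod_congr rfl fun i _ => Real.exp_log (hp i)
  rw [h1]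
  have h2 : 0 ≤ ∏ i, (c i - ⟪nu i, x⟫) := Finset.prod_nonneg fun i _ => (hp i).le
  refine (mul_le_mul_of_nonneg_left (Lb_grad_le h hx) h2).trans ?_
  unfold SS
  rw [Finset.mul_sum]
  refine Finset.sum_le_sum fun j _ => ?_
  rw [← Finset.mul_prod_erase Finset.univ _ (Finset.mem_univ j)]
  have h3 : (c j - ⟪nu j, x⟫) * (∏ i ∈ Finset.univ.erase j, (c i - ⟪nu i, x⟫)) *
      (1 / (c j - ⟪nu j, x⟫)) = ∏ i ∈ Finset.univ.erase j, (c i - ⟪nu i, x⟫) := by
    have := (hp j).ne'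
    field_simp
  rw [h3]
  refine (Finset.prod_le_prod (fun i _ => (hp i).le) fun i _ => hM x hx i).trans (le_of_eq ?_)
  rw [Finset.prod_const, Finset.card_erase_of_mem (Finset.mem_univ j), Finset.card_univ,
    Fintype.card_fin]

end Pool.Agent.PLap
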