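import Pool.Agent.PLap.OM2

/-!
OM3: lower bound of GG, uniform in del.

|y| >= del: om |y|^2 = |y|^p, |VV| = |y|^(p-1), |VV|^(p/(p-1)) = |y|^p and
GG = p|y|^p - |y|^p - (p/2) int_0^{del^2} om >= (p-1)|y|^p - (p/2) e del^p.
|y| < del: GG >= -FF >= -del^p - (p/2) e del^p, and (p-1)|VV|^(p/(p-1)) <= (p-1) (e del^(p-1))^(p/(p-1)) = (p-1) e^(p/(p-1)) del^p.
So C = 1 + p e / 2 + (p-1) e^(p/(p-1)) works in both cases.
GG_far: for |y| >= del, GG = (p-1)|y|^p - (p/2) int_0^{del^2} om exactly.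
rad_mono: g -> om(g^2) g is nondecreasing on [0, oo) (derivative om (1+(p-2)g^2/max(g^2,del^2)) > 0).
-/

set_option autoImplicit false

open MeasureTheory Set Filter Topology
open scoped ENNReal NNReal ContDiff RealInnerProductSpace

namespace Pool.Agent.PLap

private theorem om_le_near {p del s : ℝ} (hp : 1 < p) (hdel : 0 < del) (hs0 : 0 ≤ s)
    (hs : s ≤ del ^ 2) : om p del s ≤ Real.exp 1 * del ^ (p - 2) := by
  have hd : 0 < del ^ (p - 2) := Real.rpow_pos_of_pos hdel _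
  rcases hs.lt_or_eq with h | h
  · unfold om
    rw [if_pos h, mul_comm]
    gcongr
    have h1 : 0 ≤ s / del ^ 2 := by positivity
    have h2 : s / del ^ 2 ≤ 1 := by
      rw [div_le_one (by positivity)]
      exact hs
    nlinarith
  · rw [h, om_sq hdel le_rfl]
    have : (1 : ℝ) ≤ Real.exp 1 := Real.one_le_exp (by norm_num)
    nlinarith

private theorem int_near_le {p del t : ℝ} (hp : 1 < p) (hdel : 0 < del) (ht0 : 0 ≤ t)
    (ht : t ≤ del ^ 2) : ∫ s in (0 : ℝ)..t, om p del s ≤ Real.exp 1 * del ^ p := by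
  have h1 : ∫ s in (0 : ℝ)..t, om p del s ≤ ∫ _ in (0 : ℝ)..t, Real.exp 1 * del ^ (p - 2) := by
    apply intervalIntegral.integral_mono_on ht0
    · exact (om_continuous hdel).intervalIntegrable _ _
    · exact intervalIntegrable_const
    · intro s hs
      exact om_le_near hp hdel hs.1 (hs.2.trans ht)
  rw [intervalIntegral.integral_const, sub_zero, smul_eq_mul] at h1
  have h2 : del ^ p = del ^ (p - 2) * del ^ 2 := by
    rw [← Real.rpow_natCast, ← Real.rpow_add hdel]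
    congr 1
    push_cast
    ring
  have hd : 0 < del ^ (p - 2) := Real.rpow_pos_of_pos hdel _
  refine h1.trans ?_
  rw [h2]
  have : t * (Real.exp 1 * del ^ (p - 2)) ≤ del ^ 2 * (Real.exp 1 * del ^ (p - 2)) := by
    gcongr
  linarith

private theorem int_near_nonneg {p del t : ℝ} (hdel : 0 < del) (ht0 : 0 ≤ t) :
    0 ≤ ∫ s in (0 : ℝ)..t, om p del s :=
  intervalIntegral.integral_nonneg ht0 fun s _ => (om_pos hdel s).le

private theorem FF_far {p del : ℝ} (hp : 1 < p) (hdel : 0 < del) {y : E} (hy : del ≤ ‖y‖) :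
    FF p del y = ‖y‖ ^ p + p / 2 * ∫ s in (0 : ℝ)..(del ^ 2), om p del s := by
  have hint : ∀ a b, IntervalIntegrable (om p del) volume a b := fun a b =>
    (om_continuous hdel).intervalIntegrable a b
  have hle : del ^ 2 ≤ ‖y‖ ^ 2 := pow_le_pow_left₀ hdel.le hy 2
  have h1 : ∫ s in (del ^ 2)..(‖y‖ ^ 2), om p del s =
      ∫ s in (del ^ 2)..(‖y‖ ^ 2), s ^ ((p - 2) / 2) := by
    apply intervalIntegral.integral_congr
    intro s hs
    rw [uIcc_of_le hle] at hs
    exact om_eq hs.1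
  have h2 : ∫ s in (del ^ 2)..(‖y‖ ^ 2), s ^ ((p - 2) / 2) =
      ((‖y‖ ^ 2) ^ ((p - 2) / 2 + 1) - (del ^ 2) ^ ((p - 2) / 2 + 1)) / ((p - 2) / 2 + 1) :=
    integral_rpow (Or.inl (by linarith))
  have hpow : ∀ x : ℝ, 0 ≤ x → (x ^ 2) ^ ((p - 2) / 2 + 1) = x ^ p := by
    intro x hx
    rw [← Real.rpow_natCast, ← Real.rpow_mul hx]
    congr 1
    push_cast
    ring
  rw [hpow _ (norm_nonneg _), hpow _ hdel.le] at h2
  unfold FF
  rw [← intervalIntegral.integral_add_adjacent_intervals (hint 0 (del ^ 2)) (hint _ (‖y‖ ^ 2)),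
    h1, h2]
  have : (p - 2) / 2 + 1 = p / 2 := by ring
  rw [this]
  have hp0 : p ≠ 0 := by linarith
  field_simp
  ring

private theorem om_norm_sq {p del : ℝ} (hdel : 0 < del) {y : E} (hy : del ≤ ‖y‖) :
    om p del (‖y‖ ^ 2) * ‖y‖ ^ 2 = ‖y‖ ^ p := by
  have hy0 : 0 < ‖y‖ := hdel.trans_le hy
  rw [om_sq hdel hy, ← Real.rpow_natCast, ← Real.rpow_add hy0]
  congr 1
  push_cast
  ring

private theorem GG_far' {p del : ℝ} (hp : 1 < p) (hdel : 0 < del) {y : E} (hy : del ≤ ‖y‖) :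
    GG p del y = (p - 1) * ‖y‖ ^ p - p / 2 * ∫ s in (0 : ℝ)..(del ^ 2), om p del s := by
  unfold GG
  rw [om_norm_sq hdel hy, FF_far hp hdel hy]
  ring

theorem GG_ge {p : ℝ} (hp : 1 < p) : ∃ C : ℝ, 0 ≤ C ∧ ∀ del : ℝ, 0 < del → ∀ y : E,
    (p - 1) * ‖VV p del y‖ ^ (p / (p - 1)) - C * del ^ p ≤ GG p del y := by
  have hp1 : 0 < p - 1 := by linarith
  have hp1' : p - 1 ≠ 0 := hp1.ne'
  refine ⟨1 + p * Real.exp 1 / 2 + (p - 1) * Real.exp 1 ^ (p / (p - 1)), by positivity, ?_⟩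
  intro del hdel y
  have hdp : 0 < del ^ p := Real.rpow_pos_of_pos hdel _
  have hep : 0 < Real.exp 1 ^ (p / (p - 1)) := Real.rpow_pos_of_pos (Real.exp_pos 1) _
  rw [norm_VV hdel]
  by_cases hy : del ≤ ‖y‖
  · have hy0 : 0 < ‖y‖ := hdel.trans_le hy
    have h1 : om p del (‖y‖ ^ 2) * ‖y‖ = ‖y‖ ^ (p - 1) := by
      rw [om_sq hdel hy]
      nth_rewrite 2 [← Real.rpow_one ‖y‖]
      rw [← Real.rpow_add hy0]
      congr 1
      ring
    have h2 : (‖y‖ ^ (p - 1)) ^ (p / (p - 1)) = ‖y‖ ^ p := by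
      rw [← Real.rpow_mul hy0.le, mul_div_cancel₀ _ hp1']
    rw [h1, h2, GG_far' hp hdel hy]
    have h3 := int_near_le hp hdel (sq_nonneg del) le_rfl
    have h4 : p / 2 * ∫ s in (0 : ℝ)..(del ^ 2), om p del s ≤ p / 2 * (Real.exp 1 * del ^ p) := by
      gcongr
    have h5 : 0 < (p - 1) * Real.exp 1 ^ (p / (p - 1)) * del ^ p := by positivity
    nlinarith
  · push Not at hy
    have hsq : ‖y‖ ^ 2 ≤ del ^ 2 := pow_le_pow_left₀ (norm_nonneg _) hy.le 2
    have h1 : om p del (‖y‖ ^ 2) * ‖y‖ ≤ Real.exp 1 * del ^ (p - 1) := by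
      have h1a := om_le_near hp hdel (sq_nonneg ‖y‖) hsq
      calc om p del (‖y‖ ^ 2) * ‖y‖ ≤ (Real.exp 1 * del ^ (p - 2)) * del := by
            gcongr
        _ = Real.exp 1 * del ^ (p - 1) := by
            rw [mul_assoc]
            congr 1
            nth_rewrite 2 [← Real.rpow_one del]
            rw [← Real.rpow_add hdel]
            congr 1
            ring
    have h2 : (om p del (‖y‖ ^ 2) * ‖y‖) ^ (p / (p - 1)) ≤
        Real.exp 1 ^ (p / (p - 1)) * del ^ p := by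
      have h2a : (om p del (‖y‖ ^ 2) * ‖y‖) ^ (p / (p - 1)) ≤
          (Real.exp 1 * del ^ (p - 1)) ^ (p / (p - 1)) := by
        apply Real.rpow_le_rpow _ h1 (by positivity)
        exact mul_nonneg (om_pos hdel _).le (norm_nonneg _)
      rw [Real.mul_rpow (Real.exp_pos 1).le (Real.rpow_nonneg hdel.le _),
        ← Real.rpow_mul hdel.le, mul_div_cancel₀ _ hp1'] at h2a
      exact h2a
    have h3 := int_near_le hp hdel (sq_nonneg ‖y‖) hsq
    have h4 : p / 2 * ∫ s in (0 : ℝ)..(‖y‖ ^ 2), om p del s ≤ p / 2 * (Real.exp 1 * del ^ p) := by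
      gcongr
    have h5 : 0 ≤ p * (om p del (‖y‖ ^ 2) * ‖y‖ ^ 2) := by
      have := (om_pos (p := p) hdel (‖y‖ ^ 2)).le
      positivity
    have h6 : (p - 1) * (om p del (‖y‖ ^ 2) * ‖y‖) ^ (p / (p - 1)) ≤
        (p - 1) * (Real.exp 1 ^ (p / (p - 1)) * del ^ p) := by gcongr
    unfold GG FF
    nlinarith

theorem GG_far {p del : ℝ} (hp : 1 < p) (hdel : 0 < del) : ∃ C : ℝ, 0 ≤ C ∧ ∀ y : E, del ≤ ‖y‖ →
    GG p del y = (p - 1) * ‖y‖ ^ p - C := by
  refine ⟨p / 2 * ∫ s in (0 : ℝ)..(del ^ 2), om p del s, ?_, fun y hy => GG_far' hp hdel hy⟩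
  exact mul_nonneg (by linarith) (int_near_nonneg hdel (sq_nonneg _))

theorem rad_mono {p del : ℝ} (hp : 1 < p) (hdel : 0 < del) {g g' : ℝ} (hg : 0 ≤ g) (h : g ≤ g') :
    om p del (g ^ 2) * g ≤ om p del (g' ^ 2) * g' := by
  have hder : ∀ x : ℝ, HasDerivAt (fun x : ℝ => om p del (x ^ 2) * x)
      (om p del (x ^ 2) * (1 + (p - 2) * (x ^ 2 / max (x ^ 2) (del ^ 2)))) x := by
    intro x
    have h1 : HasDerivAt (fun x : ℝ => x ^ 2) (2 * x) x := by
      simpa using hasDerivAt_pow 2 x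
    have h2 := (om_hasDerivAt (p := p) hdel (x ^ 2)).comp x h1
    have h3 : HasDerivAt (fun x : ℝ => om p del (x ^ 2) * x)
        ((p - 2) / 2 * om p del (x ^ 2) / max (x ^ 2) (del ^ 2) * (2 * x) * x +
          om p del (x ^ 2) * 1) x := h2.mul (hasDerivAt_id x)
    exact h3.congr_deriv (by ring)
  have hmono : Monotone (fun x : ℝ => om p del (x ^ 2) * x) := by
    apply monotone_of_deriv_nonneg
    · intro x
      exact (hder x).differentiableAt
    · intro x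
      rw [(hder x).deriv]
      apply mul_nonneg (om_pos hdel _).le
      have hmax : 0 < max (x ^ 2) (del ^ 2) := lt_max_of_lt_right (by positivity)
      have h1 : 0 ≤ x ^ 2 / max (x ^ 2) (del ^ 2) := by positivity
      have h2 : x ^ 2 / max (x ^ 2) (del ^ 2) ≤ 1 := by
        rw [div_le_one hmax]
        exact le_max_left _ _
      nlinarith
  exact hmono h

end Pool.Agent.PLap
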