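import Pool.Agent.PLap.BarA
import Pool.Agent.PLap.OM3

/-!
BarB: the operator sd on multiples of the barrier.

For f = k Lb (k > 0) and x in P, y = grad f x = k grad Lb x, sd f x = dv(VV o grad f)(x) - GG y. The derivative of grad f is k M, M = sum (1/ell_i^2) nu_i (x) nu_i,
and dv(VV o grad f)(x) = sum_j <AA(y)(k M bb_j), bb_j> = k sum_i (1/ell_i^2) <AA(y) nu_i, nu_i> (linearity; sum_j <nu_i,bb_j> <AA nu_i, bb_j> = <AA nu_i, nu_i>), so with T = sum 1/ell_i^2 and
om = om(|y|^2): k min(1,p-1) om T <= dv <= k max(1,p-1) om T (AA_lower, AA_upper, unit vectors).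
By Lb_grad_ge there are rho' = rho/2 > 0 and R1 with rho' SS <= |grad Lb| <= SS when SS >= R1; if moreover k rho' SS >= del then |y| >= del, om = |y|^(p-2), GG y = (p-1)|y|^p - C (GG_far), C >= 0.
Upper: sd f <= k max(1,p-1) |y|^(p-2) SS^2 - (p-1)|y|^p + C = |y|^(p-2) (k max(1,p-1) SS^2 - (p-1) k^2 |grad Lb|^2) + C
<= |y|^(p-2) SS^2 k (max(1,p-1) - (p-1) k rho'^2) + C. For k = kap large the bracket is <= -1, and |y|^(p-2) SS^2 >= |y|^(p-2) |y|^2 / k^2 = |y|^p / k^2 -> oo as SS -> oo.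
Lower: sd f >= |y|^(p-2) (k min(1,p-1) SS^2/n - (p-1) k^2 SS^2) = |y|^(p-2) SS^2 k (min(1,p-1)/n - (p-1)k), bracket >= positive for k small, same divergence. (kap > 1 and 0 < kap' < 1 can be arranged.)
-/

set_option autoImplicit false

open MeasureTheory Set Filter Topology
open scoped ENNReal NNReal ContDiff RealInnerProductSpace

namespace Pool.Agent.PLap

variable {n : ℕ} {nu : Fin n → E} {c : Fin n → ℝ} {P : Set E}

/-- gradient of a multiple of the barrier -/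
private theorem barB_grad (h : PolyData n nu c P) (k : ℝ) {x : E} (hx : x ∈ P) :
    gradient (fun z => k * Lb nu c z) x = k • gradient (Lb nu c) x := by
  have h1 := Lb_gradient h hx
  have h2 : HasGradientAt (fun z => k * Lb nu c z)
      (k • ∑ i, (1 / (c i - ⟪nu i, x⟫)) • nu i) x := by
    rw [hasGradientAt_iff_hasFDerivAt] at h1 ⊢
    rw [map_smul]
    exact h1.const_mul k
  rw [h2.gradient, h1.gradient]

/-- inner product in coordinates -/
private theorem barB_inner (u v : E) : ∑ j, u j * v j = ⟪u, v⟫ := by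
  rw [real_inner_comm, PiLp.inner_apply]
  rfl

/-- the divergence term -/
private theorem barB_dv {p del : ℝ} (hdel : 0 < del) (h : PolyData n nu c P) (k : ℝ)
    {x : E} (hx : x ∈ P) :
    dv (fun z => VV p del (gradient (fun z => k * Lb nu c z) z)) x =
      k * ∑ i, (1 / (c i - ⟪nu i, x⟫) ^ 2) *
        ⟪AA p del (k • gradient (Lb nu c) x) (nu i), nu i⟫ := by
  have h1 := Lb_hess h hx
  have h2 := (VV_hasFDerivAt (p := p) hdel (k • gradient (Lb nu c) x)).comp x (h1.const_smul k)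
  have h3 : (fun z => VV p del (gradient (fun z => k * Lb nu c z) z)) =ᶠ[𝓝 x]
      (VV p del ∘ fun z => k • gradient (Lb nu c) z) := by
    filter_upwards [h.isOpen.mem_nhds hx] with z hz
    show VV p del (gradient (fun z => k * Lb nu c z) z) = VV p del (k • gradient (Lb nu c) z)
    rw [barB_grad h k hz]
  have h4 := (h2.congr_of_eventuallyEq h3).fderiv
  unfold dv
  rw [h4]
  have h5 : ∀ j : Fin 2, (((AA p del (k • gradient (Lb nu c) x)).comp
      (k • ∑ i, (1 / (c i - ⟪nu i, x⟫) ^ 2) • (innerSL ℝ (nu i)).smulRight (nu i))) (bb j)) j =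
      k * ∑ i, (1 / (c i - ⟪nu i, x⟫) ^ 2) *
        ((AA p del (k • gradient (Lb nu c) x) (nu i)) j * nu i j) := by
    intro j
    rw [ContinuousLinearMap.comp_apply, smul_apply, sum_apply, map_smul, map_sum, PiLp.smul_apply, smul_eq_mul]
    congr 1
    rw [WithLp.ofLp_sum, Finset.sum_apply]
    refine Finset.sum_congr rfl fun i _ => ?_
    rw [smul_apply, ContinuousLinearMap.smulRight_apply,
      innerSL_apply_apply, map_smul, map_smul, PiLp.smul_apply, PiLp.smul_apply, smul_eq_mul,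
      smul_eq_mul]
    have h6 : ⟪nu i, bb j⟫ = nu i j := by
      unfold bb
      rw [EuclideanSpace.inner_single_right]
      simp
    rw [h6]
    ring
  rw [Finset.sum_congr rfl fun j _ => h5 j, ← Finset.mul_sum]
  congr 1
  rw [Finset.sum_comm]
  refine Finset.sum_congr rfl fun i _ => ?_
  rw [← Finset.mul_sum, barB_inner]

/-- bounds for the divergence term -/
private theorem barB_bds {p del : ℝ} (hp : 1 < p) (hdel : 0 < del) (h : PolyData n nu c P)
    {k : ℝ} (hk : 0 < k) {x : E} (hx : x ∈ P) :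
    k * (min 1 (p - 1) * om p del (‖k • gradient (Lb nu c) x‖ ^ 2) * (SS nu c x ^ 2 / n)) ≤
      dv (fun z => VV p del (gradient (fun z => k * Lb nu c z) z)) x ∧
    dv (fun z => VV p del (gradient (fun z => k * Lb nu c z) z)) x ≤
      k * (max 1 (p - 1) * om p del (‖k • gradient (Lb nu c) x‖ ^ 2) * SS nu c x ^ 2) := by
  rw [barB_dv hdel h k hx]
  obtain ⟨t1, t2⟩ := Lb_trace h hx
  have hm : 0 < min 1 (p - 1) := lt_min zero_lt_one (by linarith)
  have hM : 0 < max 1 (p - 1) := lt_max_of_lt_left zero_lt_one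
  have ho := om_pos (p := p) hdel (‖k • gradient (Lb nu c) x‖ ^ 2)
  constructor
  · refine mul_le_mul_of_nonneg_left ?_ hk.le
    refine (mul_le_mul_of_nonneg_left t1 (mul_pos hm ho).le).trans ?_
    rw [Finset.mul_sum]
    refine Finset.sum_le_sum fun i _ => ?_
    have h1 := AA_lower hp hdel (k • gradient (Lb nu c) x) (nu i)
    rw [h.unit i, one_pow, mul_one] at h1
    rw [mul_comm]
    exact mul_le_mul_of_nonneg_left h1 (by positivity)
  · refine mul_le_mul_of_nonneg_left ?_ hk.le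
    refine le_trans ?_ (mul_le_mul_of_nonneg_left t2 (mul_pos hM ho).le)
    rw [Finset.mul_sum]
    refine Finset.sum_le_sum fun i _ => ?_
    have h1 := AA_upper hp hdel (k • gradient (Lb nu c) x) (nu i)
    rw [h.unit i, one_pow, mul_one] at h1
    rw [mul_comm (max 1 (p - 1) * om p del (‖k • gradient (Lb nu c) x‖ ^ 2))]
    exact mul_le_mul_of_nonneg_left h1 (by positivity)

/-- the gradient is comparable to SS -/
private theorem barB_far (h : PolyData n nu c P) : ∃ rho R1 : ℝ, 0 < rho ∧ ∀ x ∈ P,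
    R1 ≤ SS nu c x → rho * SS nu c x ≤ ‖gradient (Lb nu c) x‖ := by
  obtain ⟨rho, C, hrho, H⟩ := Lb_grad_ge h
  refine ⟨rho / 2, 2 * C / rho, by positivity, fun x hx hR => ?_⟩
  have h1 := H x hx
  rw [div_le_iff₀ hrho] at hR
  linarith

private theorem barB_pow {p y : ℝ} (hy : 0 < y) : y ^ p = y ^ (p - 2) * y ^ 2 := by
  rw [← Real.rpow_natCast y 2, ← Real.rpow_add hy]
  norm_num

private theorem barB_one {p y : ℝ} (hp : 1 < p) (hy : 1 ≤ y) : y ≤ y ^ p := by
  have := Real.rpow_le_rpow_of_exponent_le hy hp.le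
  rwa [Real.rpow_one] at this

theorem sd_upper {p del : ℝ} (hp : 1 < p) (hdel : 0 < del) (h : PolyData n nu c P) :
    ∃ k : ℝ, 1 < k ∧ ∀ C : ℝ, ∃ R : ℝ, ∀ x ∈ P, R ≤ SS nu c x →
      sd p del (fun z => k * Lb nu c z) x ≤ -C := by
  obtain ⟨rho, R1, hrho, H⟩ := barB_far h
  obtain ⟨C2, hC2, HG⟩ := GG_far hp hdel
  have hp1 : 0 < p - 1 := by linarith
  set M := max 1 (p - 1) with hM
  have hMp : 0 < M := lt_max_of_lt_left zero_lt_one
  obtain ⟨k, hk⟩ : ∃ k : ℝ, k = (M + 1) / ((p - 1) * rho ^ 2) + 2 := ⟨_, rfl⟩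
  have hq : 0 < (M + 1) / ((p - 1) * rho ^ 2) := by positivity
  have hk1 : 1 < k := by linarith
  have hk0 : 0 < k := by linarith
  have hkM : M + 1 ≤ (p - 1) * rho ^ 2 * k := by
    have h1 : (p - 1) * rho ^ 2 * ((M + 1) / ((p - 1) * rho ^ 2)) = M + 1 := by
      field_simp
    have h2 : 0 < (p - 1) * rho ^ 2 := by positivity
    rw [hk, mul_add, h1]
    linarith
  refine ⟨k, hk1, fun C => ?_⟩
  refine ⟨max R1 ((max del (max 1 (k * (C + C2)))) / (k * rho)), fun x hx hR => ?_⟩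
  have hR1 : R1 ≤ SS nu c x := (le_max_left _ _).trans hR
  have hR2 := (le_max_right _ _).trans hR
  have hkr : 0 < k * rho := by positivity
  rw [div_le_iff₀ hkr] at hR2
  have hG1 := H x hx hR1
  have hG2 := Lb_grad_le h hx
  have hSS := SS_pos h hx
  have hy : ‖k • gradient (Lb nu c) x‖ = k * ‖gradient (Lb nu c) x‖ := by
    rw [norm_smul, Real.norm_eq_abs, abs_of_pos hk0]
  obtain ⟨Y, hY⟩ : ∃ Y : ℝ, Y = ‖k • gradient (Lb nu c) x‖ := ⟨_, rfl⟩
  have hYG : Y = k * ‖gradient (Lb nu c) x‖ := by rw [hY, hy]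
  have hYbig : max del (max 1 (k * (C + C2))) ≤ Y := by
    have h1 : k * (rho * SS nu c x) ≤ k * ‖gradient (Lb nu c) x‖ :=
      mul_le_mul_of_nonneg_left hG1 hk0.le
    rw [hYG]
    linarith
  have hYdel : del ≤ Y := (le_max_left _ _).trans hYbig
  have hY1 : 1 ≤ Y := (le_max_left _ _).trans ((le_max_right _ _).trans hYbig)
  have hYC : k * (C + C2) ≤ Y := (le_max_right _ _).trans ((le_max_right _ _).trans hYbig)
  have hY0 : 0 < Y := by linarith
  obtain ⟨-, hup⟩ := barB_bds hp hdel h hk0 hx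
  rw [← hY, om_sq hdel hYdel] at hup
  have hGG : GG p del (k • gradient (Lb nu c) x) = (p - 1) * Y ^ p - C2 := by
    rw [hY]
    exact HG _ (by rw [← hY]; exact hYdel)
  unfold sd
  rw [barB_grad h k hx, hGG]
  have hw : 0 < Y ^ (p - 2) := Real.rpow_pos_of_pos hY0 _
  have hYp : Y ^ p = Y ^ (p - 2) * Y ^ 2 := barB_pow hY0
  have hY2a : (k * (rho * SS nu c x)) ^ 2 ≤ Y ^ 2 := by
    refine pow_le_pow_left₀ (by positivity) ?_ 2
    rw [hYG]
    exact mul_le_mul_of_nonneg_left hG1 hk0.le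
  have hY2b : Y ^ 2 ≤ (k * SS nu c x) ^ 2 := by
    refine pow_le_pow_left₀ hY0.le ?_ 2
    rw [hYG]
    exact mul_le_mul_of_nonneg_left hG2 hk0.le
  have e1 : k * (M * Y ^ (p - 2) * SS nu c x ^ 2) - (p - 1) * Y ^ p ≤
      -(Y ^ (p - 2) * (SS nu c x ^ 2 * k)) := by
    have h1 : (p - 1) * (k * (rho * SS nu c x)) ^ 2 ≤ (p - 1) * Y ^ 2 :=
      mul_le_mul_of_nonneg_left hY2a hp1.le
    have h2 : SS nu c x ^ 2 * k * (M + 1) ≤ SS nu c x ^ 2 * k * ((p - 1) * rho ^ 2 * k) :=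
      mul_le_mul_of_nonneg_left hkM (by positivity)
    have h3 : Y ^ (p - 2) * (SS nu c x ^ 2 * k * (M + 1)) ≤ Y ^ (p - 2) * ((p - 1) * Y ^ 2) :=
      mul_le_mul_of_nonneg_left (by nlinarith only [h1, h2]) hw.le
    rw [hYp]
    nlinarith only [h3]
  have e2 : Y ^ p ≤ k * (Y ^ (p - 2) * (SS nu c x ^ 2 * k)) := by
    rw [hYp]
    have h1 : Y ^ (p - 2) * Y ^ 2 ≤ Y ^ (p - 2) * (k * SS nu c x) ^ 2 :=
      mul_le_mul_of_nonneg_left hY2b hw.le
    nlinarith only [h1]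
  have e3 : Y ≤ Y ^ p := barB_one hp hY1
  have e4 : C + C2 ≤ Y ^ (p - 2) * (SS nu c x ^ 2 * k) := by
    refine le_of_mul_le_mul_left ?_ hk0
    linarith only [hYC, e2, e3]
  linarith only [hup, e1, e4]

theorem sd_lower {p del : ℝ} (hp : 1 < p) (hdel : 0 < del) (h : PolyData n nu c P) :
    ∃ k : ℝ, 0 < k ∧ k < 1 ∧ ∀ C : ℝ, ∃ R : ℝ, ∀ x ∈ P, R ≤ SS nu c x →
      C ≤ sd p del (fun z => k * Lb nu c z) x := by
  obtain ⟨rho, R1, hrho, H⟩ := barB_far h
  obtain ⟨C2, hC2, HG⟩ := GG_far hp hdel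
  have hp1 : 0 < p - 1 := by linarith
  have hn : (0 : ℝ) < n := by exact_mod_cast h.n_pos
  set m := min 1 (p - 1) with hm
  have hmp : 0 < m := lt_min zero_lt_one hp1
  obtain ⟨k, hk⟩ : ∃ k : ℝ, k = min (1 / 2) (m / n / (2 * (p - 1))) := ⟨_, rfl⟩
  have hk0 : 0 < k := by
    rw [hk]
    exact lt_min (by norm_num) (by positivity)
  have hk1 : k < 1 := by
    have : k ≤ 1 / 2 := by
      rw [hk]
      exact min_le_left _ _
    linarith
  have hkm : (p - 1) * k ≤ m / n / 2 := by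
    have h1 : k ≤ m / n / (2 * (p - 1)) := by
      rw [hk]
      exact min_le_right _ _
    rw [le_div_iff₀ (by positivity)] at h1
    linarith
  refine ⟨k, hk0, hk1, fun C => ?_⟩
  obtain ⟨D, hD⟩ : ∃ D : ℝ, D = m / n / 2 := ⟨_, rfl⟩
  have hD0 : 0 < D := by
    rw [hD]
    positivity
  refine ⟨max R1 ((max del (max 1 (k * C / D))) / (k * rho)), fun x hx hR => ?_⟩
  have hR1 : R1 ≤ SS nu c x := (le_max_left _ _).trans hR
  have hR2 := (le_max_right _ _).trans hR
  have hkr : 0 < k * rho := by positivity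
  rw [div_le_iff₀ hkr] at hR2
  have hG1 := H x hx hR1
  have hG2 := Lb_grad_le h hx
  have hSS := SS_pos h hx
  have hy : ‖k • gradient (Lb nu c) x‖ = k * ‖gradient (Lb nu c) x‖ := by
    rw [norm_smul, Real.norm_eq_abs, abs_of_pos hk0]
  obtain ⟨Y, hY⟩ : ∃ Y : ℝ, Y = ‖k • gradient (Lb nu c) x‖ := ⟨_, rfl⟩
  have hYG : Y = k * ‖gradient (Lb nu c) x‖ := by rw [hY, hy]
  have hYbig : max del (max 1 (k * C / D)) ≤ Y := by
    have h1 : k * (rho * SS nu c x) ≤ k * ‖gradient (Lb nu c) x‖ :=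
      mul_le_mul_of_nonneg_left hG1 hk0.le
    rw [hYG]
    linarith
  have hYdel : del ≤ Y := (le_max_left _ _).trans hYbig
  have hY1 : 1 ≤ Y := (le_max_left _ _).trans ((le_max_right _ _).trans hYbig)
  have hYC : k * C / D ≤ Y := (le_max_right _ _).trans ((le_max_right _ _).trans hYbig)
  have hY0 : 0 < Y := by linarith
  obtain ⟨hlo, -⟩ := barB_bds hp hdel h hk0 hx
  rw [← hY, om_sq hdel hYdel] at hlo
  have hGG : GG p del (k • gradient (Lb nu c) x) = (p - 1) * Y ^ p - C2 := by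
    rw [hY]
    exact HG _ (by rw [← hY]; exact hYdel)
  unfold sd
  rw [barB_grad h k hx, hGG]
  have hw : 0 < Y ^ (p - 2) := Real.rpow_pos_of_pos hY0 _
  have hYp : Y ^ p = Y ^ (p - 2) * Y ^ 2 := barB_pow hY0
  have hY2b : Y ^ 2 ≤ (k * SS nu c x) ^ 2 := by
    refine pow_le_pow_left₀ hY0.le ?_ 2
    rw [hYG]
    exact mul_le_mul_of_nonneg_left hG2 hk0.le
  have hmn : m * Y ^ (p - 2) * (SS nu c x ^ 2 / n) =
      Y ^ (p - 2) * (SS nu c x ^ 2 * (D + D)) := by
    rw [hD]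
    field_simp
    ring
  rw [hmn] at hlo
  have e1 : Y ^ (p - 2) * (SS nu c x ^ 2 * (k * D)) ≤
      k * (Y ^ (p - 2) * (SS nu c x ^ 2 * (D + D))) - (p - 1) * Y ^ p := by
    have h1 : (p - 1) * Y ^ 2 ≤ (p - 1) * (k * SS nu c x) ^ 2 :=
      mul_le_mul_of_nonneg_left hY2b hp1.le
    have h2 : SS nu c x ^ 2 * k * ((p - 1) * k) ≤ SS nu c x ^ 2 * k * D := by
      rw [hD]
      exact mul_le_mul_of_nonneg_left hkm (by positivity)
    have h3 : Y ^ (p - 2) * ((p - 1) * Y ^ 2) ≤ Y ^ (p - 2) * (SS nu c x ^ 2 * k * D) :=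
      mul_le_mul_of_nonneg_left (by nlinarith only [h1, h2]) hw.le
    rw [hYp]
    nlinarith only [h3]
  have e2 : D * Y ^ p ≤ k * (Y ^ (p - 2) * (SS nu c x ^ 2 * (k * D))) := by
    rw [hYp]
    have h1 : D * (Y ^ (p - 2) * Y ^ 2) ≤ D * (Y ^ (p - 2) * (k * SS nu c x) ^ 2) :=
      mul_le_mul_of_nonneg_left (mul_le_mul_of_nonneg_left hY2b hw.le) hD0.le
    nlinarith only [h1]
  have e3 : Y ≤ Y ^ p := barB_one hp hY1
  have e4 : C ≤ Y ^ (p - 2) * (SS nu c x ^ 2 * (k * D)) := by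
    refine le_of_mul_le_mul_left ?_ hk0
    rw [div_le_iff₀ hD0] at hYC
    have h1 : D * Y ≤ D * Y ^ p := mul_le_mul_of_nonneg_left e3 hD0.le
    linarith only [hYC, e2, h1]
  linarith only [hlo, e1, e4, hC2]

end Pool.Agent.PLap
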