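import Pool.Agent.PLap.OM1

/-!
OM2: derivatives of FF and VV, elementary bounds.

grad FF = p VV (chain rule, primitive of om), derivative of VV is AA (product rule with om_hasDerivAt and AA_eq).
FF_ge: if |y| < del then FF >= del^p >= |y|^p.  If |y| >= del split the integral at del^2:
(p/2) int_{del^2}^{|y|^2} s^((p-2)/2) ds = |y|^p - del^p, so FF = |y|^p + (p/2) int_0^{del^2} om >= |y|^p.
On [0, del^2] one has 0 < om <= e del^(p-2) (p > 1: for p >= 2 even <= del^(p-2); for p < 2 the exponential is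
at most exp((2-p)/2) <= e). Hence FF <= |y|^p + C for all y, with C = del^p + (p/2) e del^p.
inner_le: <VV y, y> = om |y|^2; for |y| >= del it is |y|^p <= FF; for |y| < del it is <= e del^p <= e FF.
VV_mono: VV is C^1 with <AA v, v> >= min(1,p-1) om |v|^2; on the ball of radius R om(|.|^2) has a positive minimum;
integrate along the segment (mean value theorem for t -> <VV(z+t(y-z)), y-z>).
-/

set_option autoImplicit false

open MeasureTheory Set Filter Topology
open scoped ENNReal NNReal ContDiff RealInnerProductSpace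

namespace Pool.Agent.PLap

private theorem om2_prim {p del : ℝ} (hdel : 0 < del) (t : ℝ) :
    HasDerivAt (fun t : ℝ => ∫ s in (0 : ℝ)..t, om p del s) (om p del t) t :=
  intervalIntegral.integral_hasDerivAt_right ((om_continuous hdel).intervalIntegrable _ _)
    (om_continuous hdel).aestronglyMeasurable.stronglyMeasurableAtFilter
    (om_continuous hdel).continuousAt

theorem FF_hasFDerivAt {p del : ℝ} (hdel : 0 < del) (y : E) :
    HasFDerivAt (FF p del) (p • innerSL ℝ (VV p del y)) y := by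
  have h1 : HasFDerivAt (fun y : E => ‖y‖ ^ 2) (2 • innerSL ℝ y) y :=
    (hasStrictFDerivAt_norm_sq y).hasFDerivAt
  have h2 := (om2_prim (p := p) hdel (‖y‖ ^ 2)).comp_hasFDerivAt y h1
  have h3 := (h2.const_mul (p / 2)).const_add (del ^ p)
  refine h3.congr_fderiv ?_
  ext v
  simp only [VV, ContinuousLinearMap.smul_apply, innerSL_apply_apply, inner_smul_left, smul_eq_mul,
    nsmul_eq_mul]
  simp
  ring

theorem VV_hasFDerivAt {p del : ℝ} (hdel : 0 < del) (y : E) :
    HasFDerivAt (VV p del) (AA p del y) y := by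
  have h1 : HasFDerivAt (fun y : E => ‖y‖ ^ 2) (2 • innerSL ℝ y) y :=
    (hasStrictFDerivAt_norm_sq y).hasFDerivAt
  have h2 := (om_hasDerivAt (p := p) hdel (‖y‖ ^ 2)).comp_hasFDerivAt y h1
  have h3 := h2.smul (hasFDerivAt_id y)
  refine h3.congr_fderiv ?_
  ext1 v
  rw [AA_eq hdel]
  simp only [Function.comp, ContinuousLinearMap.add_apply, ContinuousLinearMap.smul_apply,
    ContinuousLinearMap.smulRight_apply, ContinuousLinearMap.id_apply, id, innerSL_apply_apply,
    smul_eq_mul, nsmul_eq_mul, smul_add, smul_smul]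
  congr 2
  push_cast
  ring

theorem VV_contDiff {p del : ℝ} (hdel : 0 < del) : ContDiff ℝ 1 (VV p del) := by
  rw [contDiff_one_iff_fderiv]
  refine ⟨fun y => (VV_hasFDerivAt hdel y).differentiableAt, ?_⟩
  have : fderiv ℝ (VV p del) = AA p del := funext fun y => (VV_hasFDerivAt hdel y).fderiv
  rw [this]
  exact AA_continuous hdel

theorem FF_continuous {p del : ℝ} (hdel : 0 < del) : Continuous (FF p del) :=
  continuous_iff_continuousAt.2 fun y => (FF_hasFDerivAt hdel y).continuousAt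

theorem VV_continuous {p del : ℝ} (hdel : 0 < del) : Continuous (VV p del) :=
  (VV_contDiff hdel).continuous

theorem GG_continuous {p del : ℝ} (hdel : 0 < del) : Continuous (GG p del) := by
  have h1 := om_continuous (p := p) hdel
  have h2 := FF_continuous (p := p) hdel
  unfold GG
  fun_prop

theorem norm_VV {p del : ℝ} (hdel : 0 < del) (y : E) :
    ‖VV p del y‖ = om p del (‖y‖ ^ 2) * ‖y‖ := by
  unfold VV
  rw [norm_smul, Real.norm_eq_abs, abs_of_pos (om_pos hdel _)]

private theorem om2_int_nonneg {p del : ℝ} (hdel : 0 < del) {a b : ℝ} (h : a ≤ b) :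
    0 ≤ ∫ s in a..b, om p del s :=
  intervalIntegral.integral_nonneg h fun s _ => (om_pos hdel s).le

private theorem om2_FF {p del : ℝ} (hp : 1 < p) (hdel : 0 < del) {y : E} (hy : del ≤ ‖y‖) :
    FF p del y = ‖y‖ ^ p + p / 2 * ∫ s in (0 : ℝ)..(del ^ 2), om p del s := by
  have hc := om_continuous (p := p) hdel
  have hy2 : del ^ 2 ≤ ‖y‖ ^ 2 := by gcongr
  have hsplit : ∫ s in (0 : ℝ)..(‖y‖ ^ 2), om p del s =
      (∫ s in (0 : ℝ)..(del ^ 2), om p del s) + ∫ s in (del ^ 2)..(‖y‖ ^ 2), om p del s :=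
    (intervalIntegral.integral_add_adjacent_intervals (hc.intervalIntegrable _ _)
      (hc.intervalIntegrable _ _)).symm
  have hint : ∫ s in (del ^ 2)..(‖y‖ ^ 2), om p del s = (‖y‖ ^ p - del ^ p) / (p / 2) := by
    have h1 : ∫ s in (del ^ 2)..(‖y‖ ^ 2), om p del s =
        ∫ s in (del ^ 2)..(‖y‖ ^ 2), s ^ ((p - 2) / 2) := by
      apply intervalIntegral.integral_congr
      intro s hs
      rw [uIcc_of_le hy2] at hs
      exact om_eq hs.1
    rw [h1, integral_rpow (Or.inl (by linarith))]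
    have e : (p - 2) / 2 + 1 = p / 2 := by ring
    have h2 : ∀ x : ℝ, 0 ≤ x → (x ^ 2) ^ (p / 2) = x ^ p := by
      intro x hx
      rw [← Real.rpow_natCast, ← Real.rpow_mul hx]
      congr 1
      push_cast
      ring
    rw [e, h2 _ (norm_nonneg y), h2 _ hdel.le]
  unfold FF
  rw [hsplit, hint]
  have : p ≠ 0 := by linarith
  field_simp
  ring

theorem FF_ge' {p del : ℝ} (hp : 1 < p) (hdel : 0 < del) (y : E) : del ^ p ≤ FF p del y := by
  have h := om2_int_nonneg (p := p) hdel (sq_nonneg ‖y‖)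
  have : 0 ≤ p / 2 * ∫ s in (0 : ℝ)..(‖y‖ ^ 2), om p del s := mul_nonneg (by linarith) h
  unfold FF
  linarith

theorem FF_ge {p del : ℝ} (hp : 1 < p) (hdel : 0 < del) (y : E) : ‖y‖ ^ p ≤ FF p del y := by
  by_cases hy : del ≤ ‖y‖
  · rw [om2_FF hp hdel hy]
    have h := om2_int_nonneg (p := p) hdel (sq_nonneg del)
    have : 0 ≤ p / 2 * ∫ s in (0 : ℝ)..(del ^ 2), om p del s := mul_nonneg (by linarith) h
    linarith
  · exact (Real.rpow_le_rpow (norm_nonneg y) (not_le.1 hy).le (by linarith)).trans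
      (FF_ge' hp hdel y)

theorem FF_le {p del : ℝ} (hp : 1 < p) (hdel : 0 < del) :
    ∃ C : ℝ, ∀ y : E, FF p del y ≤ C + ‖y‖ ^ p := by
  refine ⟨del ^ p + p / 2 * ∫ s in (0 : ℝ)..(del ^ 2), om p del s, fun y => ?_⟩
  have hd : 0 < del ^ p := Real.rpow_pos_of_pos hdel p
  have hn : 0 ≤ ‖y‖ ^ p := Real.rpow_nonneg (norm_nonneg y) p
  by_cases hy : del ≤ ‖y‖
  · rw [om2_FF hp hdel hy]
    linarith
  · have hc := om_continuous (p := p) hdel
    have hy2 : ‖y‖ ^ 2 ≤ del ^ 2 := by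
      have := (not_le.1 hy).le
      gcongr
    have hsplit : (∫ s in (0 : ℝ)..(del ^ 2), om p del s) =
        (∫ s in (0 : ℝ)..(‖y‖ ^ 2), om p del s) + ∫ s in (‖y‖ ^ 2)..(del ^ 2), om p del s :=
      (intervalIntegral.integral_add_adjacent_intervals (hc.intervalIntegrable _ _)
        (hc.intervalIntegrable _ _)).symm
    have h0 := om2_int_nonneg (p := p) hdel hy2
    have h1 : 0 ≤ p / 2 * ∫ s in (‖y‖ ^ 2)..(del ^ 2), om p del s := mul_nonneg (by linarith) h0
    unfold FF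
    rw [hsplit, mul_add]
    linarith

private theorem om2_inner {p del : ℝ} (y : E) :
    ⟪VV p del y, y⟫ = om p del (‖y‖ ^ 2) * ‖y‖ ^ 2 := by
  unfold VV
  rw [real_inner_smul_left, real_inner_self_eq_norm_sq]

theorem inner_VV_le {p del : ℝ} (hp : 1 < p) (hdel : 0 < del) :
    ∃ C : ℝ, 0 ≤ C ∧ ∀ y : E, ⟪VV p del y, y⟫ ≤ C * FF p del y := by
  obtain ⟨s0, -, hs0⟩ := (isCompact_Icc (a := (0 : ℝ)) (b := del ^ 2)).exists_isMaxOn
    ⟨0, left_mem_Icc.2 (sq_nonneg del)⟩ (om_continuous (p := p) hdel).continuousOn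
  set M := om p del s0 with hM
  have hM0 : 0 < M := om_pos hdel s0
  have hd : 0 < del ^ p := Real.rpow_pos_of_pos hdel p
  refine ⟨max 1 (M * del ^ 2 / del ^ p), le_max_of_le_left zero_le_one, fun y => ?_⟩
  rw [om2_inner]
  have hF : 0 ≤ FF p del y := hd.le.trans (FF_ge' hp hdel y)
  by_cases hy : del ≤ ‖y‖
  · rw [om_sq hdel hy]
    have hy0 : 0 < ‖y‖ := hdel.trans_le hy
    have e : ‖y‖ ^ (p - 2) * ‖y‖ ^ 2 = ‖y‖ ^ p := by
      rw [← Real.rpow_natCast ‖y‖ 2, ← Real.rpow_add hy0]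
      congr 1
      push_cast
      ring
    rw [e]
    calc ‖y‖ ^ p ≤ FF p del y := FF_ge hp hdel y
      _ = 1 * FF p del y := (one_mul _).symm
      _ ≤ _ := mul_le_mul_of_nonneg_right (le_max_left _ _) hF
  · have hy2 : ‖y‖ ^ 2 ≤ del ^ 2 := by
      have := (not_le.1 hy).le
      gcongr
    have h1 : om p del (‖y‖ ^ 2) ≤ M := hs0 ⟨sq_nonneg _, hy2⟩
    calc om p del (‖y‖ ^ 2) * ‖y‖ ^ 2 ≤ M * del ^ 2 :=
          mul_le_mul h1 hy2 (sq_nonneg _) hM0.le
      _ = M * del ^ 2 / del ^ p * del ^ p := by field_simp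
      _ ≤ M * del ^ 2 / del ^ p * FF p del y :=
          mul_le_mul_of_nonneg_left (FF_ge' hp hdel y) (by positivity)
      _ ≤ _ := mul_le_mul_of_nonneg_right (le_max_right _ _) hF

theorem inner_VV_nonneg {p del : ℝ} (hdel : 0 < del) (y : E) : 0 ≤ ⟪VV p del y, y⟫ := by
  rw [om2_inner]
  exact mul_nonneg (om_pos hdel _).le (sq_nonneg _)

theorem VV_mono {p del : ℝ} (hp : 1 < p) (hdel : 0 < del) (R : ℝ) :
    ∃ c : ℝ, 0 < c ∧ ∀ y z : E, ‖y‖ ≤ R → ‖z‖ ≤ R →
      c * ‖y - z‖ ^ 2 ≤ ⟪VV p del y - VV p del z, y - z⟫ := by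
  obtain ⟨s0, -, hs0⟩ := (isCompact_Icc (a := (0 : ℝ)) (b := R ^ 2)).exists_isMinOn
    ⟨0, left_mem_Icc.2 (sq_nonneg R)⟩ (om_continuous (p := p) hdel).continuousOn
  set m := om p del s0 with hm
  have hm0 : 0 < m := om_pos hdel s0
  have hp1 : 0 < min 1 (p - 1) := lt_min zero_lt_one (by linarith)
  refine ⟨min 1 (p - 1) * m, by positivity, fun y z hy hz => ?_⟩
  set g : ℝ → ℝ := fun t => ⟪VV p del (z + t • (y - z)), y - z⟫ with hg
  have hder : ∀ t, HasDerivAt g ⟪AA p del (z + t • (y - z)) (y - z), y - z⟫ t := by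
    intro t
    have h1 : HasDerivAt (fun t : ℝ => z + t • (y - z)) (y - z) t := by
      simpa using ((hasDerivAt_id t).smul_const (y - z)).const_add z
    have h2 := (VV_hasFDerivAt (p := p) hdel (z + t • (y - z))).comp_hasDerivAt t h1
    simpa using h2.inner ℝ (hasDerivAt_const t (y - z))
  obtain ⟨t, ht, hgt⟩ := exists_hasDerivAt_eq_slope g
    (fun t => ⟪AA p del (z + t • (y - z)) (y - z), y - z⟫) zero_lt_one
    (fun t _ => (hder t).continuousAt.continuousWithinAt) (fun t _ => hder t)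
  have h1 : g 1 - g 0 = ⟪VV p del y - VV p del z, y - z⟫ := by
    simp only [hg, one_smul, zero_smul, add_zero, inner_sub_left]
    congr 3
    abel
  have h2 : ‖z + t • (y - z)‖ ≤ R := by
    have e : z + t • (y - z) = (1 - t) • z + t • y := by
      rw [smul_sub, sub_smul, one_smul]
      abel
    rw [e]
    calc ‖(1 - t) • z + t • y‖ ≤ ‖(1 - t) • z‖ + ‖t • y‖ := norm_add_le _ _
      _ = (1 - t) * ‖z‖ + t * ‖y‖ := by
          rw [norm_smul, norm_smul, Real.norm_eq_abs, Real.norm_eq_abs,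
            abs_of_pos (by linarith [ht.2]), abs_of_pos ht.1]
      _ ≤ (1 - t) * R + t * R := by
          have := mul_le_mul_of_nonneg_left hz (by linarith [ht.2] : 0 ≤ 1 - t)
          have := mul_le_mul_of_nonneg_left hy ht.1.le
          linarith
      _ = R := by ring
  have h3 : m ≤ om p del (‖z + t • (y - z)‖ ^ 2) := by
    refine hs0 ⟨sq_nonneg _, ?_⟩
    have := norm_nonneg (z + t • (y - z))
    gcongr
  have h4 := AA_lower hp hdel (z + t • (y - z)) (y - z)
  rw [hgt, h1] at h4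
  have h5 : min 1 (p - 1) * m * ‖y - z‖ ^ 2 ≤
      min 1 (p - 1) * om p del (‖z + t • (y - z)‖ ^ 2) * ‖y - z‖ ^ 2 := by
    gcongr
  linarith

end Pool.Agent.PLap
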