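import Pool.Agent.PLap.ExMin
import Pool.Agent.PLap.OM2

/-!
Foc: first-order condition.

From NN w = ofReal (l DD w) < oo: exp(-pw) FF(grad w) is integrable on P and int_P exp(-pw)(FF(grad w) - l) = 0.
Let v in Adm with v = w off the compact K inside P. For s in [0,1] v_s = w + s (v - w) = (1-s) w + s v is in Adm (convex combination).
gradient v_s = (1-s) grad w + s grad v at every point where both are differentiable (a.e.), and v_s = w on P minus K, which is open, so the gradients
agree there. Since NN v_s >= ofReal (l DD v_s) and NN v_s < oo (differs from NN w on K only, where everything is bounded):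
0 <= int_P [exp(-p v_s)(FF(grad v_s) - l)] = int_K [exp(-p v_s)(FF(grad v_s) - l) - exp(-pw)(FF(grad w) - l)] + 0.
Divide by s and let s -> 0+: on K all functions w, v, grad w, grad v are bounded, the integrand divided by s is bounded (FF is C^1) and
converges a.e. to exp(-pw)( -p (v-w)(FF(grad w) - l) + p <VV(grad w), grad v - grad w> ). Divide by p.
-/

set_option autoImplicit false

open MeasureTheory Set Filter Topology
open scoped ENNReal NNReal ContDiff RealInnerProductSpace

namespace Pool.Agent.PLap

private theorem foc_wmeas {P : Set E} (ho : IsOpen P) {w : E → ℝ} (hw : ConvexOn ℝ P w) :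
    AEStronglyMeasurable w (volume.restrict P) :=
  (locLip_continuousOn (convex_locLip ho hw)).aestronglyMeasurable ho.measurableSet

/-- the value of the integrand on the segment between two functions -/
private noncomputable def focH (p del l : ℝ) (w v : E → ℝ) (s : ℝ) (x : E) : ℝ :=
  Real.exp (-p * (w x + s * (v x - w x))) *
    (FF p del (gradient w x + s • (gradient v x - gradient w x)) - l)

/-- its derivative in `s` -/
private noncomputable def focH' (p del l : ℝ) (w v : E → ℝ) (s : ℝ) (x : E) : ℝ :=
  p * (Real.exp (-p * (w x + s * (v x - w x))) *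
    (⟪VV p del (gradient w x + s • (gradient v x - gradient w x)), gradient v x - gradient w x⟫ -
      (FF p del (gradient w x + s • (gradient v x - gradient w x)) - l) * (v x - w x)))

private theorem focH_hasDerivAt {p del l : ℝ} (hdel : 0 < del) (w v : E → ℝ) (s : ℝ) (x : E) :
    HasDerivAt (fun s => focH p del l w v s x) (focH' p del l w v s x) s := by
  unfold focH focH'
  have h1 : HasDerivAt (fun s : ℝ => -p * (w x + s * (v x - w x))) (-p * (v x - w x)) s := by
    have := (((hasDerivAt_id s).mul_const (v x - w x)).const_add (w x)).const_mul (-p)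
    simpa using this
  have h2 : HasDerivAt (fun s : ℝ => gradient w x + s • (gradient v x - gradient w x))
      (gradient v x - gradient w x) s := by
    have := ((hasDerivAt_id s).smul_const (gradient v x - gradient w x)).const_add (gradient w x)
    simpa using this
  have h3 : HasDerivAt (fun s : ℝ => FF p del (gradient w x + s • (gradient v x - gradient w x)) - l)
      (p * ⟪VV p del (gradient w x + s • (gradient v x - gradient w x)),
        gradient v x - gradient w x⟫) s := by
    have := ((FF_hasFDerivAt (p := p) hdel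
      (gradient w x + s • (gradient v x - gradient w x))).comp_hasDerivAt s h2).sub_const l
    simpa using this
  refine (h1.exp.mul h3).congr_deriv ?_
  ring

private theorem foc_grad_off {P : Set E} (ho : IsOpen P) {v w : E → ℝ} {K : Set E}
    (hK : IsCompact K) (h : ∀ x ∈ P \ K, v x = w x) {x : E} (hx : x ∈ P \ K) :
    gradient v x = gradient w x := by
  have hn : v =ᶠ[𝓝 x] w := by
    filter_upwards [(ho.sdiff hK.isClosed).mem_nhds hx] with y hy
    exact h y hy
  unfold gradient
  rw [hn.fderiv_eq]

private theorem foc_grad_seg {v w : E → ℝ} {x : E} (s : ℝ) (hv : DifferentiableAt ℝ v x)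
    (hw : DifferentiableAt ℝ w x) :
    gradient (fun y => w y + s * (v y - w y)) x =
      gradient w x + s • (gradient v x - gradient w x) := by
  refine ext_inner_right ℝ (fun y => ?_)
  rw [inner_add_left, real_inner_smul_left, inner_sub_left, sub_grad_apply, sub_grad_apply,
    sub_grad_apply]
  have h1 : HasFDerivAt (fun y => w y + s * (v y - w y))
      (fderiv ℝ w x + s • (fderiv ℝ v x - fderiv ℝ w x)) x :=
    hw.hasFDerivAt.add ((hv.hasFDerivAt.sub hw.hasFDerivAt).const_mul s)
  rw [h1.fderiv]
  simp

private theorem foc_adm {P : Set E} {a B v w : E → ℝ} (hv : Adm P a B v) (hw : Adm P a B w)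
    {s : ℝ} (h0 : 0 ≤ s) (h1 : s ≤ 1) : Adm P a B (fun y => w y + s * (v y - w y)) := by
  have e : (fun y => w y + s * (v y - w y)) = (fun y => (1 - s) • w y) + (fun y => s • v y) := by
    funext y
    simp only [Pi.add_apply, smul_eq_mul]
    ring
  refine ⟨?_, ?_, ?_⟩
  · rw [e]
    exact (hw.conv.smul (sub_nonneg.2 h1)).add (hv.conv.smul h0)
  · intro x hx
    have h2 := hw.lb x hx
    have h3 := hv.lb x hx
    nlinarith
  · intro x hx
    have h2 := hw.ub x hx
    have h3 := hv.ub x hx
    nlinarith

private theorem foc_intF {p del : ℝ} {P : Set E} {a B : E → ℝ} {lmax : ℝ}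
    (S : Setup p del P a B lmax) {w : E → ℝ} (hw : Adm P a B w) (hN : NN p del P w ≠ ⊤) :
    IntegrableOn (fun x => Real.exp (-p * w x) * FF p del (gradient w x)) P ∧
      ∫ x in P, Real.exp (-p * w x) * FF p del (gradient w x) = (NN p del P w).toReal := by
  have hwm := foc_wmeas S.isOpen hw.conv
  have hm : AEStronglyMeasurable (fun x => Real.exp (-p * w x) * FF p del (gradient w x))
      (volume.restrict P) := by
    refine AEStronglyMeasurable.mul ?_ ?_
    · exact Real.continuous_exp.comp_aestronglyMeasurable (hwm.const_mul (-p))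
    · exact ((FF_continuous S.hdel).measurable.comp (measurable_gradient w)).aestronglyMeasurable
  have h0 : ∀ x, 0 ≤ Real.exp (-p * w x) * FF p del (gradient w x) := fun x =>
    mul_nonneg (Real.exp_pos _).le
      ((Real.rpow_pos_of_pos S.hdel p).le.trans (FF_ge' S.hp S.hdel _))
  refine ⟨⟨hm, ?_⟩, ?_⟩
  · rw [hasFiniteIntegral_iff_ofReal (ae_of_all _ h0)]
    exact lt_top_iff_ne_top.2 hN
  · rw [integral_eq_lintegral_of_nonneg_ae (ae_of_all _ h0) hm]
    rfl

theorem foc_integrable {p del : ℝ} {P : Set E} {a B : E → ℝ} {lmax : ℝ}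
    (S : Setup p del P a B lmax) {w : E → ℝ} {l : ℝ} (hw : Adm P a B w) (hl : 0 ≤ l)
    (hN : NN p del P w = ENNReal.ofReal (l * DD p P w)) :
    IntegrableOn (fun x => Real.exp (-p * w x) * FF p del (gradient w x)) P ∧
      ∫ x in P, Real.exp (-p * w x) * (FF p del (gradient w x) - l) = 0 := by
  obtain ⟨h1, h2⟩ := foc_intF S hw (by rw [hN]; exact ENNReal.ofReal_ne_top)
  refine ⟨h1, ?_⟩
  have h3 := S.integrable_exp hw
  simp_rw [mul_sub]
  rw [integral_sub h1 (h3.mul_const l), h2, hN,
    ENNReal.toReal_ofReal (mul_nonneg hl (S.DD_pos hw).le), integral_mul_const]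
  unfold DD
  ring

theorem foc {p del : ℝ} {P : Set E} {a B : E → ℝ} {lmax : ℝ}
    (S : Setup p del P a B lmax) {w : E → ℝ} {l : ℝ} (hw : Adm P a B w) (hl : 0 ≤ l)
    (hN : NN p del P w = ENNReal.ofReal (l * DD p P w))
    (hmin : ∀ v, Adm P a B v → ENNReal.ofReal (l * DD p P v) ≤ NN p del P v) :
    FOC p del l P a B w := by
  intro v hv hvw
  obtain ⟨K, hK, hKP, hKe⟩ := hvw
  have hp0 : 0 < p := by linarith [S.hp]
  have ho := S.isOpen
  have hmeasP : MeasurableSet P := ho.measurableSet
  have : IsFiniteMeasure (volume.restrict P) :=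
    ⟨by rw [Measure.restrict_apply_univ]; exact S.bounded.measure_lt_top⟩
  obtain ⟨hint, hzero⟩ := foc_integrable S hw hl hN
  have hwm := foc_wmeas ho hw.conv
  have hvm := foc_wmeas ho hv.conv
  have hexp := S.integrable_exp hw
  -- measurability
  have hgm : ∀ s : ℝ, Measurable
      (fun x => gradient w x + s • (gradient v x - gradient w x)) := fun s =>
    (measurable_gradient w).add (((measurable_gradient v).sub (measurable_gradient w)).const_smul s)
  have hem : ∀ s : ℝ, AEStronglyMeasurable
      (fun x => Real.exp (-p * (w x + s * (v x - w x)))) (volume.restrict P) := fun s =>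
    Real.continuous_exp.comp_aestronglyMeasurable
      ((hwm.add ((hvm.sub hwm).const_mul s)).const_mul (-p))
  have hHm : ∀ s : ℝ, AEStronglyMeasurable (focH p del l w v s) (volume.restrict P) := fun s =>
    (hem s).mul (((FF_continuous S.hdel).measurable.comp (hgm s)).sub_const l).aestronglyMeasurable
  have hH'm : AEStronglyMeasurable (focH' p del l w v 0) (volume.restrict P) := by
    refine AEStronglyMeasurable.const_mul ((hem 0).mul (AEStronglyMeasurable.sub ?_ ?_)) p
    · exact (((VV_continuous S.hdel).measurable.comp (hgm 0)).inner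
        ((measurable_gradient v).sub (measurable_gradient w))).aestronglyMeasurable
    · exact (((FF_continuous S.hdel).measurable.comp (hgm 0)).sub_const l).aestronglyMeasurable.mul
        (hvm.sub hwm)
  -- off `K` the two functions agree
  have hHoff : ∀ s : ℝ, ∀ x ∈ P \ K, focH p del l w v s x = focH p del l w v 0 x := by
    intro s x hx
    unfold focH
    rw [hKe x hx, foc_grad_off ho hK hKe hx]
    simp
  have hH'off : ∀ s : ℝ, ∀ x ∈ P \ K, focH' p del l w v s x = 0 := by
    intro s x hx
    unfold focH'
    rw [hKe x hx, foc_grad_off ho hK hKe hx]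
    simp
  have hH0 : ∀ x, focH p del l w v 0 x = Real.exp (-p * w x) * (FF p del (gradient w x) - l) := by
    intro x
    simp [focH]
  have hH0int : Integrable (focH p del l w v 0) (volume.restrict P) := by
    have h1 : Integrable (fun x => Real.exp (-p * w x) * FF p del (gradient w x) -
        Real.exp (-p * w x) * l) (volume.restrict P) := hint.sub (hexp.mul_const l)
    refine h1.congr (ae_of_all _ fun x => ?_)
    simp only [hH0]
    ring
  -- bounds on `K`
  obtain ⟨Mw, hMw⟩ := hK.exists_bound_of_continuousOn
    ((locLip_continuousOn (convex_locLip ho hw.conv)).mono hKP)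
  obtain ⟨Mv, hMv⟩ := hK.exists_bound_of_continuousOn
    ((locLip_continuousOn (convex_locLip ho hv.conv)).mono hKP)
  obtain ⟨Rw, hRw0, hRw⟩ := gradient_bound ho (convex_locLip ho hw.conv) hK hKP
  obtain ⟨Rv, hRv0, hRv⟩ := gradient_bound ho (convex_locLip ho hv.conv) hK hKP
  set M : ℝ := max 0 (max Mw Mv) with hM
  set R : ℝ := max Rw Rv with hR
  have hM0 : 0 ≤ M := le_max_left _ _
  have hR0 : 0 ≤ R := hRw0.trans (le_max_left _ _)
  have hMw' : ∀ x ∈ K, |w x| ≤ M := fun x hx => by
    have := hMw x hx
    rw [Real.norm_eq_abs] at this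
    exact this.trans ((le_max_left _ _).trans (le_max_right _ _))
  have hMv' : ∀ x ∈ K, |v x| ≤ M := fun x hx => by
    have := hMv x hx
    rw [Real.norm_eq_abs] at this
    exact this.trans ((le_max_right _ _).trans (le_max_right _ _))
  have hRw' : ∀ x ∈ K, ‖gradient w x‖ ≤ R := fun x hx => (hRw x hx).trans (le_max_left _ _)
  have hRv' : ∀ x ∈ K, ‖gradient v x‖ ≤ R := fun x hx => (hRv x hx).trans (le_max_right _ _)
  obtain ⟨CF, hCF⟩ := (isCompact_closedBall (0 : E) (3 * R)).exists_bound_of_continuousOn
    (FF_continuous (p := p) S.hdel).continuousOn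
  obtain ⟨CV, hCV⟩ := (isCompact_closedBall (0 : E) (3 * R)).exists_bound_of_continuousOn
    (VV_continuous (p := p) S.hdel).continuousOn
  have hz0 : (0 : E) ∈ Metric.closedBall (0 : E) (3 * R) := by
    rw [Metric.mem_closedBall, dist_self]
    linarith
  have hCF0 : 0 ≤ CF := (norm_nonneg _).trans (hCF 0 hz0)
  have hCV0 : 0 ≤ CV := (norm_nonneg _).trans (hCV 0 hz0)
  have hseg : ∀ s ∈ Metric.ball (0 : ℝ) 1, |s| ≤ 1 := by
    intro s hs
    rw [Metric.mem_ball, dist_zero_right, Real.norm_eq_abs] at hs
    exact hs.le
  have hyb : ∀ s : ℝ, |s| ≤ 1 → ∀ x ∈ K,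
      gradient w x + s • (gradient v x - gradient w x) ∈ Metric.closedBall (0 : E) (3 * R) := by
    intro s hs x hx
    rw [Metric.mem_closedBall, dist_zero_right]
    have h1 : ‖gradient w x + s • (gradient v x - gradient w x)‖ ≤
        ‖gradient w x‖ + |s| * (‖gradient v x‖ + ‖gradient w x‖) := by
      refine (norm_add_le _ _).trans ?_
      rw [norm_smul, Real.norm_eq_abs]
      have := norm_sub_le (gradient v x) (gradient w x)
      gcongr
    have h2 := hRw' x hx
    have h3 := hRv' x hx
    have h4 : |s| * (‖gradient v x‖ + ‖gradient w x‖) ≤ 1 * (R + R) := by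
      gcongr
    linarith
  have heb : ∀ s : ℝ, |s| ≤ 1 → ∀ x ∈ K,
      Real.exp (-p * (w x + s * (v x - w x))) ≤ Real.exp (p * (3 * M)) := by
    intro s hs x hx
    refine Real.exp_le_exp.2 ?_
    have h1 : |w x + s * (v x - w x)| ≤ 3 * M := by
      have h2 := hMw' x hx
      have h3 := hMv' x hx
      have h4 : |s * (v x - w x)| ≤ 1 * (M + M) := by
        rw [abs_mul]
        have := abs_sub (v x) (w x)
        gcongr
        linarith
      have h5 := abs_add_le (w x) (s * (v x - w x))
      linarith
    have h2 := (abs_le.1 h1).1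
    nlinarith
  set bd : ℝ := p * (Real.exp (p * (3 * M)) * (CV * (2 * R) + (CF + |l|) * (2 * M))) with hbd
  have hbd0 : 0 ≤ bd := by positivity
  have hbound : ∀ x ∈ P, ∀ s ∈ Metric.ball (0 : ℝ) 1, ‖focH' p del l w v s x‖ ≤ bd := by
    intro x hxP s hs
    by_cases hxK : x ∈ K
    · have hs1 := hseg s hs
      have h1 := hyb s hs1 x hxK
      have h2 := hCF _ h1
      have h3 := hCV _ h1
      have h4 := heb s hs1 x hxK
      have hg : ‖gradient v x - gradient w x‖ ≤ 2 * R := by
        have := norm_sub_le (gradient v x) (gradient w x)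
        have h6 := hRw' x hxK
        have h7 := hRv' x hxK
        linarith
      have hvw : |v x - w x| ≤ 2 * M := by
        have := abs_sub (v x) (w x)
        have h6 := hMw' x hxK
        have h7 := hMv' x hxK
        linarith
      unfold focH'
      rw [norm_mul, norm_mul, Real.norm_eq_abs, abs_of_pos hp0, Real.norm_eq_abs,
        abs_of_pos (Real.exp_pos _)]
      refine mul_le_mul_of_nonneg_left ?_ hp0.le
      refine mul_le_mul h4 ?_ (norm_nonneg _) (Real.exp_pos _).le
      refine (norm_sub_le _ _).trans ?_
      refine add_le_add ?_ ?_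
      · refine (norm_inner_le_norm _ _).trans ?_
        exact mul_le_mul h3 hg (norm_nonneg _) hCV0
      · rw [norm_mul]
        refine mul_le_mul ?_ (by rw [Real.norm_eq_abs]; exact hvw) (norm_nonneg _) (by positivity)
        refine (norm_sub_le _ _).trans ?_
        rw [Real.norm_eq_abs l]
        linarith
    · rw [hH'off s x ⟨hxP, hxK⟩, norm_zero]
      exact hbd0
  -- the derivative of the integral
  obtain ⟨hI1, hI2⟩ := hasDerivAt_integral_of_dominated_loc_of_deriv_le
    (μ := volume.restrict P) (F := focH p del l w v) (F' := focH' p del l w v) (x₀ := (0 : ℝ))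
    (s := Metric.ball (0 : ℝ) 1) (bound := fun _ => bd) (Metric.ball_mem_nhds _ one_pos)
    (Eventually.of_forall hHm) hH0int hH'm
    ((ae_restrict_iff' hmeasP).2 (ae_of_all _ hbound)) (integrable_const _)
    (ae_of_all _ fun x s _ => focH_hasDerivAt S.hdel w v s x)
  -- value at `0`
  have hJ0 : ∫ x in P, focH p del l w v 0 x = 0 := by
    refine Eq.trans (integral_congr_ae (ae_of_all _ fun x => ?_)) hzero
    simp only [hH0]
  -- nonnegativity
  have hJs : ∀ s : ℝ, 0 ≤ s → s ≤ 1 → 0 ≤ ∫ x in P, focH p del l w v s x := by
    intro s hs0 hs1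
    have hs1' : |s| ≤ 1 := by rw [abs_of_nonneg hs0]; exact hs1
    have hadm := foc_adm hv hw hs0 hs1
    have hexps := S.integrable_exp hadm
    have hae : ∀ᵐ x ∂(volume.restrict P),
        Real.exp (-p * (w x + s * (v x - w x))) * (FF p del
          (gradient (fun y => w y + s * (v y - w y)) x) - l) = focH p del l w v s x := by
      filter_upwards [convex_ae_diff ho hw.conv, convex_ae_diff ho hv.conv] with x h1 h2
      unfold focH
      rw [foc_grad_seg s h2 h1]
    -- integrability
    have hHs : Integrable (focH p del l w v s) (volume.restrict P) := by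
      have h1 : Integrable (fun x => focH p del l w v s x - focH p del l w v 0 x)
          (volume.restrict P) := by
        refine Integrable.mono' (integrable_const
          (Real.exp (p * (3 * M)) * (CF + |l|) + Real.exp (p * (3 * M)) * (CF + |l|)))
          ((hHm s).sub (hHm 0)) ?_
        rw [ae_restrict_iff' hmeasP]
        refine ae_of_all _ fun x hxP => ?_
        by_cases hxK : x ∈ K
        · have hb : ∀ t : ℝ, |t| ≤ 1 → ‖focH p del l w v t x‖ ≤
              Real.exp (p * (3 * M)) * (CF + |l|) := by
            intro t ht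
            unfold focH
            rw [norm_mul, Real.norm_eq_abs, abs_of_pos (Real.exp_pos _)]
            refine mul_le_mul (heb t ht x hxK) ?_ (norm_nonneg _) (Real.exp_pos _).le
            refine (norm_sub_le _ _).trans ?_
            rw [Real.norm_eq_abs l]
            have := hCF _ (hyb t ht x hxK)
            linarith
          refine (norm_sub_le _ _).trans (add_le_add (hb s hs1') (hb 0 (by simp)))
        · rw [hHoff s x ⟨hxP, hxK⟩, sub_self, norm_zero]
          positivity
      refine (h1.add hH0int).congr (ae_of_all _ fun x => ?_)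
      simp
    have hFint : Integrable (fun x => Real.exp (-p * (w x + s * (v x - w x))) * FF p del
          (gradient (fun y => w y + s * (v y - w y)) x)) (volume.restrict P) := by
      have h1 := hHs.add (hexps.mul_const l)
      refine h1.congr ?_
      filter_upwards [hae] with x hx
      simp only [Pi.add_apply]
      rw [← hx]
      ring
    have hNN : NN p del P (fun y => w y + s * (v y - w y)) =
        ENNReal.ofReal (∫ x in P, Real.exp (-p * (w x + s * (v x - w x))) * FF p del
          (gradient (fun y => w y + s * (v y - w y)) x)) := by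
      rw [ofReal_integral_eq_lintegral_ofReal hFint (ae_of_all _ fun x =>
        mul_nonneg (Real.exp_pos _).le
          ((Real.rpow_pos_of_pos S.hdel p).le.trans (FF_ge' S.hp S.hdel _)))]
      rfl
    have h1 := hmin _ hadm
    rw [hNN] at h1
    have h2 : 0 ≤ ∫ x in P, Real.exp (-p * (w x + s * (v x - w x))) * FF p del
          (gradient (fun y => w y + s * (v y - w y)) x) :=
      integral_nonneg fun x => mul_nonneg (Real.exp_pos _).le
          ((Real.rpow_pos_of_pos S.hdel p).le.trans (FF_ge' S.hp S.hdel _))
    have h3 := (ENNReal.ofReal_le_ofReal_iff h2).1 h1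
    have h4 : ∫ x in P, focH p del l w v s x =
        (∫ x in P, Real.exp (-p * (w x + s * (v x - w x))) * FF p del
          (gradient (fun y => w y + s * (v y - w y)) x)) -
        l * DD p P (fun y => w y + s * (v y - w y)) := by
      unfold DD
      rw [← integral_const_mul, ← integral_sub hFint (hexps.const_mul l)]
      refine integral_congr_ae ?_
      filter_upwards [hae] with x hx
      rw [← hx]
      ring
    rw [h4]
    linarith
  -- conclusion
  have hder : 0 ≤ ∫ x in P, focH' p del l w v 0 x := by
    have h1 := hI2.tendsto_slope_zero_right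
    refine ge_of_tendsto h1 ?_
    filter_upwards [Ioo_mem_nhdsGT (one_pos : (0 : ℝ) < 1)] with t ht
    rw [zero_add, hJ0, sub_zero, smul_eq_mul]
    exact mul_nonneg (inv_nonneg.2 ht.1.le) (hJs t ht.1.le ht.2.le)
  have hfin : ∫ x in P, focH' p del l w v 0 x =
      p * ∫ x in P, Real.exp (-p * w x) * (⟪VV p del (gradient w x), gradient v x - gradient w x⟫ -
      (FF p del (gradient w x) - l) * (v x - w x)) := by
    rw [← integral_const_mul]
    refine integral_congr_ae (ae_of_all _ fun x => ?_)
    simp [focH']
  rw [hfin] at hder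
  exact (mul_nonneg_iff_of_pos_left hp0).1 hder

end Pool.Agent.PLap
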