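import Pool.Agent.PLap.Defs

/-!
Rad: locally Lipschitz functions on an open set of the plane.

Cover P by countably many balls (or use that compact exhaustion) on which f is Lipschitz; on a ball use
`LipschitzOnWith.ae_differentiableWithinAt` (target finite-dimensional real space) and openness.
bound: on a compact K inside P the function is Lipschitz near every point with some constant; finitely many neighbourhoods
cover K, so the norm of fderiv (0 where f is not differentiable) is bounded on K (`norm_fderiv_le_of_lipschitzOn` type lemma).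
ext_zero: if f is locally Lipschitz on P and vanishes on P minus a compact K inside P, then the function equal to f on P and
0 elsewhere is globally Lipschitz with compact support inside P (it is locally Lipschitz on the whole plane and compactly
supported: take a compact neighbourhood of K in P, on it f is Lipschitz; or: the gradient is bounded a.e.;
simplest: LocallyLipschitz + HasCompactSupport gives Lipschitz, prove via `LocallyLipschitzOn` on compact convex closed ball containing
the support: a locally Lipschitz function on a compact set is Lipschitz, by contradiction with sequences).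
-/

set_option autoImplicit false

open MeasureTheory Set Filter Topology
open scoped ENNReal NNReal ContDiff RealInnerProductSpace

namespace Pool.Agent.PLap

/-- a ball inside `P` on which `f` is Lipschitz -/
theorem Rad_ball {F : Type*} [NormedAddCommGroup F] [NormedSpace ℝ F]
    {P : Set E} (ho : IsOpen P) {f : E → F} (hf : LocallyLipschitzOn P f) {x : E} (hx : x ∈ P) :
    ∃ (C : ℝ≥0) (r : ℝ), 0 < r ∧ Metric.ball x r ⊆ P ∧ LipschitzOnWith C f (Metric.ball x r) := by
  obtain ⟨C, t, ht, hC⟩ := hf hx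
  rw [ho.nhdsWithin_eq hx] at ht
  obtain ⟨r1, hr1, h1⟩ := Metric.mem_nhds_iff.1 ht
  obtain ⟨r2, hr2, h2⟩ := Metric.isOpen_iff.1 ho x hx
  refine ⟨C, min r1 r2, lt_min hr1 hr2, (Metric.ball_subset_ball (min_le_right _ _)).trans h2, ?_⟩
  exact hC.mono ((Metric.ball_subset_ball (min_le_left _ _)).trans h1)

theorem rademacher {F : Type*} [NormedAddCommGroup F] [NormedSpace ℝ F] [FiniteDimensional ℝ F]
    {P : Set E} (ho : IsOpen P) {f : E → F} (hf : LocallyLipschitzOn P f) :
    ∀ᵐ x ∂(volume.restrict P), DifferentiableAt ℝ f x := by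
  rw [ae_restrict_iff' ho.measurableSet]
  have hnull : volume {x | x ∈ P ∧ ¬ DifferentiableAt ℝ f x} = 0 := by
    apply measure_null_of_locally_null
    rintro x ⟨hx, _⟩
    obtain ⟨C, r, hr, hsub, hC⟩ := Rad_ball ho hf hx
    refine ⟨{y | y ∈ Metric.ball x r ∧ ¬ DifferentiableAt ℝ f y}, ?_, ?_⟩
    · have h1 : Metric.ball x r ∈ 𝓝[{x | x ∈ P ∧ ¬ DifferentiableAt ℝ f x}] x :=
        mem_nhdsWithin_of_mem_nhds (Metric.ball_mem_nhds x hr)
      have h2 : {x | x ∈ P ∧ ¬ DifferentiableAt ℝ f x} ∈
          𝓝[{x | x ∈ P ∧ ¬ DifferentiableAt ℝ f x}] x := self_mem_nhdsWithin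
      filter_upwards [h1, h2] with y hy1 hy2
      exact ⟨hy1, hy2.2⟩
    · have h3 := hC.ae_differentiableWithinAt (μ := (volume : Measure E)) Metric.isOpen_ball.measurableSet
      rw [ae_restrict_iff' Metric.isOpen_ball.measurableSet, ae_iff] at h3
      refine measure_mono_null ?_ h3
      rintro y ⟨hy1, hy2⟩
      simp only [mem_ofPred_eq, Classical.not_imp]
      refine ⟨hy1, fun h => hy2 (h.differentiableAt (Metric.isOpen_ball.mem_nhds hy1))⟩
  rw [ae_iff]
  refine measure_mono_null ?_ hnull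
  intro x hx
  simp only [mem_ofPred_eq, Classical.not_imp] at hx
  exact hx

theorem fderiv_bound {F : Type*} [NormedAddCommGroup F] [NormedSpace ℝ F]
    {P : Set E} (ho : IsOpen P) {f : E → F} (hf : LocallyLipschitzOn P f)
    {K : Set E} (hK : IsCompact K) (hKP : K ⊆ P) : ∃ C : ℝ, 0 ≤ C ∧ ∀ x ∈ K, ‖fderiv ℝ f x‖ ≤ C := by
  refine hK.induction_on (p := fun s => ∃ C : ℝ, 0 ≤ C ∧ ∀ x ∈ s, ‖fderiv ℝ f x‖ ≤ C) ?_ ?_ ?_ ?_
  · exact ⟨0, le_rfl, fun x hx => absurd hx (notMem_empty x)⟩
  · rintro s t hst ⟨C, hC0, hC⟩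
    exact ⟨C, hC0, fun x hx => hC x (hst hx)⟩
  · rintro s t ⟨C, hC0, hC⟩ ⟨C', hC0', hC'⟩
    refine ⟨max C C', hC0.trans (le_max_left _ _), fun x hx => ?_⟩
    rcases hx with hx | hx
    · exact (hC x hx).trans (le_max_left _ _)
    · exact (hC' x hx).trans (le_max_right _ _)
  · intro x hx
    obtain ⟨C, r, hr, hsub, hC⟩ := Rad_ball ho hf (hKP hx)
    refine ⟨Metric.ball x r, mem_nhdsWithin_of_mem_nhds (Metric.ball_mem_nhds x hr), C,
      C.coe_nonneg, fun y hy => ?_⟩
    exact norm_fderiv_le_of_lipschitzOn ℝ (Metric.isOpen_ball.mem_nhds hy) hC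

theorem gradient_bound {P : Set E} (ho : IsOpen P) {f : E → ℝ} (hf : LocallyLipschitzOn P f)
    {K : Set E} (hK : IsCompact K) (hKP : K ⊆ P) : ∃ C : ℝ, 0 ≤ C ∧ ∀ x ∈ K, ‖gradient f x‖ ≤ C := by
  obtain ⟨C, hC0, hC⟩ := fderiv_bound ho hf hK hKP
  refine ⟨C, hC0, fun x hx => ?_⟩
  unfold gradient
  rw [LinearIsometryEquiv.norm_map]
  exact hC x hx

/-- uniform local Lipschitz bound near a compact set -/
theorem Rad_unif {F : Type*} [NormedAddCommGroup F] [NormedSpace ℝ F]
    {P : Set E} (ho : IsOpen P) {f : E → F} (hf : LocallyLipschitzOn P f)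
    {K : Set E} (hK : IsCompact K) (hKP : K ⊆ P) :
    ∃ C e : ℝ, 0 ≤ C ∧ 0 < e ∧ ∀ x ∈ K, ∀ y, dist x y < e →
      y ∈ P ∧ dist (f x) (f y) ≤ C * dist x y := by
  refine hK.induction_on (p := fun s => ∃ C e : ℝ, 0 ≤ C ∧ 0 < e ∧ ∀ x ∈ s, ∀ y, dist x y < e →
      y ∈ P ∧ dist (f x) (f y) ≤ C * dist x y) ?_ ?_ ?_ ?_
  · exact ⟨0, 1, le_rfl, one_pos, fun x hx => absurd hx (notMem_empty x)⟩
  · rintro s t hst ⟨C, e, hC0, he, hC⟩
    exact ⟨C, e, hC0, he, fun x hx => hC x (hst hx)⟩
  · rintro s t ⟨C, e, hC0, he, hC⟩ ⟨C', e', hC0', he', hC'⟩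
    refine ⟨max C C', min e e', hC0.trans (le_max_left _ _), lt_min he he', fun x hx y hy => ?_⟩
    rcases hx with hx | hx
    · obtain ⟨h1, h2⟩ := hC x hx y (lt_of_lt_of_le hy (min_le_left _ _))
      exact ⟨h1, h2.trans (mul_le_mul_of_nonneg_right (le_max_left _ _) dist_nonneg)⟩
    · obtain ⟨h1, h2⟩ := hC' x hx y (lt_of_lt_of_le hy (min_le_right _ _))
      exact ⟨h1, h2.trans (mul_le_mul_of_nonneg_right (le_max_right _ _) dist_nonneg)⟩
  · intro x hx
    obtain ⟨C, r, hr, hsub, hC⟩ := Rad_ball ho hf (hKP hx)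
    refine ⟨Metric.ball x (r / 2), mem_nhdsWithin_of_mem_nhds (Metric.ball_mem_nhds x (by linarith)),
      C, r / 2, C.coe_nonneg, by linarith, fun y hy z hyz => ?_⟩
    rw [Metric.mem_ball] at hy
    have hz : z ∈ Metric.ball x r := by
      rw [Metric.mem_ball]
      have := dist_triangle z y x
      rw [dist_comm z y] at this
      linarith
    have hy' : y ∈ Metric.ball x r := by
      rw [Metric.mem_ball]
      linarith
    exact ⟨hsub hz, hC.dist_le_mul y hy' z hz⟩

theorem locLip_continuousOn {F : Type*} [NormedAddCommGroup F] [NormedSpace ℝ F]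
    {P : Set E} {f : E → F} (hf : LocallyLipschitzOn P f) : ContinuousOn f P :=
  hf.continuousOn

theorem ext_zero {F : Type*} [NormedAddCommGroup F] [NormedSpace ℝ F]
    {P : Set E} (ho : IsOpen P) {f : E → F} (hf : LocallyLipschitzOn P f)
    {K : Set E} (hK : IsCompact K) (hKP : K ⊆ P) (h0 : ∀ x ∈ P \ K, f x = 0) :
    ∃ C : ℝ≥0, LipschitzWith C (P.indicator f) ∧ HasCompactSupport (P.indicator f) ∧
      tsupport (P.indicator f) ⊆ P := by
  have hz : ∀ x, x ∉ K → P.indicator f x = 0 := by
    intro x hx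
    by_cases hxP : x ∈ P
    · rw [indicator_of_mem hxP]
      exact h0 x ⟨hxP, hx⟩
    · exact indicator_of_notMem hxP f
  have hsupp : Function.support (P.indicator f) ⊆ K := by
    intro x hx
    by_contra h
    exact hx (hz x h)
  have hts : tsupport (P.indicator f) ⊆ K := closure_minimal hsupp hK.isClosed
  obtain ⟨C, e, hC0, he, hC⟩ := Rad_unif ho hf hK hKP
  obtain ⟨M, hM⟩ := hK.exists_bound_of_continuousOn (hf.continuousOn.mono hKP)
  have hMb : ∀ x, ‖P.indicator f x‖ ≤ |M| := by
    intro x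
    by_cases hx : x ∈ K
    · rw [indicator_of_mem (hKP hx)]
      exact (hM x hx).trans (le_abs_self M)
    · rw [hz x hx, norm_zero]
      exact abs_nonneg M
  have hL0 : 0 ≤ C + 2 * |M| / e := by positivity
  have key : ∀ x ∈ K, ∀ y, dist (P.indicator f x) (P.indicator f y) ≤
      (C + 2 * |M| / e) * dist x y := by
    intro x hx y
    by_cases hd : dist x y < e
    · obtain ⟨hy, h1⟩ := hC x hx y hd
      rw [indicator_of_mem (hKP hx), indicator_of_mem hy]
      have h2 : 0 ≤ 2 * |M| / e * dist x y := by positivity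
      linarith
    · push Not at hd
      have h1 : dist (P.indicator f x) (P.indicator f y) ≤ 2 * |M| := by
        rw [dist_eq_norm]
        have := norm_sub_le (P.indicator f x) (P.indicator f y)
        linarith [hMb x, hMb y]
      have h2 : 2 * |M| ≤ 2 * |M| / e * dist x y := by
        rw [div_mul_eq_mul_div, le_div_iff₀ he]
        exact mul_le_mul_of_nonneg_left hd (by positivity)
      have h3 : 0 ≤ C * dist x y := by positivity
      linarith
  refine ⟨Real.toNNReal (C + 2 * |M| / e), ?_, HasCompactSupport.of_support_subset_isCompact hK hsupp,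
    hts.trans hKP⟩
  apply LipschitzWith.of_dist_le_mul
  intro x y
  rw [Real.coe_toNNReal _ hL0]
  by_cases hx : x ∈ K
  · exact key x hx y
  · by_cases hy : y ∈ K
    · rw [dist_comm, dist_comm x y]
      exact key y hy x
    · rw [hz x hx, hz y hy, dist_self]
      positivity

theorem locLip_lipschitzOn_compact_convex {F : Type*} [NormedAddCommGroup F] [NormedSpace ℝ F]
    {P : Set E} {f : E → F} (hf : LocallyLipschitzOn P f)
    {K : Set E} (hK : IsCompact K) (hKP : K ⊆ P) (hc : Convex ℝ K) : ∃ C : ℝ≥0, LipschitzOnWith C f K := by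
  have hfK : LocallyLipschitzOn K f := hf.mono hKP
  obtain ⟨M, hM⟩ := hK.exists_bound_of_continuousOn (hfK.continuousOn)
  obtain ⟨C, e, hC0, he, hC⟩ : ∃ C e : ℝ, 0 ≤ C ∧ 0 < e ∧ ∀ x ∈ K, ∀ y ∈ K, dist x y < e →
      dist (f x) (f y) ≤ C * dist x y := by
    refine hK.induction_on (p := fun s => ∃ C e : ℝ, 0 ≤ C ∧ 0 < e ∧ ∀ x ∈ s, ∀ y ∈ K,
      dist x y < e → dist (f x) (f y) ≤ C * dist x y) ?_ ?_ ?_ ?_
    · exact ⟨0, 1, le_rfl, one_pos, fun x hx => absurd hx (notMem_empty x)⟩
    · rintro s t hst ⟨C, e, hC0, he, hC⟩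
      exact ⟨C, e, hC0, he, fun x hx => hC x (hst hx)⟩
    · rintro s t ⟨C, e, hC0, he, hC⟩ ⟨C', e', hC0', he', hC'⟩
      refine ⟨max C C', min e e', hC0.trans (le_max_left _ _), lt_min he he',
        fun x hx y hyK hy => ?_⟩
      rcases hx with hx | hx
      · have h2 := hC x hx y hyK (lt_of_lt_of_le hy (min_le_left _ _))
        exact h2.trans (mul_le_mul_of_nonneg_right (le_max_left _ _) dist_nonneg)
      · have h2 := hC' x hx y hyK (lt_of_lt_of_le hy (min_le_right _ _))
        exact h2.trans (mul_le_mul_of_nonneg_right (le_max_right _ _) dist_nonneg)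
    · intro x hx
      obtain ⟨C, t, ht, hC⟩ := hfK hx
      obtain ⟨r, hr, hrt⟩ := Metric.mem_nhdsWithin_iff.1 ht
      refine ⟨Metric.ball x (r / 2) ∩ K, inter_mem
        (mem_nhdsWithin_of_mem_nhds (Metric.ball_mem_nhds x (by linarith))) self_mem_nhdsWithin,
        C, r / 2, C.coe_nonneg, by linarith, ?_⟩
      rintro y ⟨hy, hyK⟩ z hzK hyz
      rw [Metric.mem_ball] at hy
      have hz : z ∈ Metric.ball x r := by
        rw [Metric.mem_ball]
        have := dist_triangle z y x
        rw [dist_comm z y] at this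
        linarith
      have hy' : y ∈ Metric.ball x r := by
        rw [Metric.mem_ball]
        linarith
      exact hC.dist_le_mul y (hrt ⟨hy', hyK⟩) z (hrt ⟨hz, hzK⟩)
  have hL0 : 0 ≤ C + 2 * |M| / e := by positivity
  refine ⟨Real.toNNReal (C + 2 * |M| / e), ?_⟩
  apply LipschitzOnWith.of_dist_le_mul
  intro x hx y hy
  rw [Real.coe_toNNReal _ hL0]
  by_cases hd : dist x y < e
  · have h1 := hC x hx y hy hd
    have h2 : 0 ≤ 2 * |M| / e * dist x y := by positivity
    linarith
  · push Not at hd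
    have h1 : dist (f x) (f y) ≤ 2 * |M| := by
      rw [dist_eq_norm]
      have := norm_sub_le (f x) (f y)
      have h2 := (hM x hx).trans (le_abs_self M)
      have h3 := (hM y hy).trans (le_abs_self M)
      linarith
    have h2 : 2 * |M| ≤ 2 * |M| / e * dist x y := by
      rw [div_mul_eq_mul_div, le_div_iff₀ he]
      exact mul_le_mul_of_nonneg_left hd (by positivity)
    have h3 : 0 ≤ C * dist x y := by positivity
    linarith

end Pool.Agent.PLap
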