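import Pool.Agent.PLap.Sub
import Pool.Agent.PLap.Rad

/-!
SecD: second differences of C^{1,1} functions; C^2 functions are C^{1,1}; a convex function with locally Lipschitz subgradients is C^{1,1}.

c11_of_C2: on the open set P the gradient of a C^2 function is C^1, hence locally Lipschitz.
second_diff: a compact K inside the open P has a closed d0-neighbourhood K' inside P; cover: the gradient is Lipschitz with some constant C on K' in the sense
|grad f(z) - grad f(z')| <= C|z-z'| for z, z' in K' with |z - z'| small, or on every ball around points of K of a uniform radius (Lebesgue number).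
For x in K, |v| <= d0: f(x+v)+f(x-v)-2f(x) = int_0^1 <grad f(x+sv) - grad f(x-sv), v> ds (or mean value theorem for s -> f(x+sv)+f(x-sv)), bounded by C'|v|^2.
c11_of_sub: existence of subgradients (subgradient), uniqueness (x1 = x0 in the hypothesis with K = {x0}); a convex function with a unique subgradient y at x is
differentiable there: 0 <= w(z) - w(x) - <y, z-x> <= <y_z - y, z - x> <= C|z-x|^2 where y_z is a subgradient at z (K a closed ball around x). So gradient w x = y and the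
gradient is Lipschitz on closed balls inside P.
-/

set_option autoImplicit false

open MeasureTheory Set Filter Topology
open scoped ENNReal NNReal ContDiff RealInnerProductSpace

namespace Pool.Agent.PLap

private theorem SecD_norm (f g : E → ℝ) (x y : E) :
    ‖gradient f x - gradient g y‖ = ‖fderiv ℝ f x - fderiv ℝ g y‖ := by
  unfold gradient
  rw [← map_sub, LinearIsometryEquiv.norm_map]

theorem c11_of_C2 {P : Set E} (ho : IsOpen P) {f : E → ℝ} (hf : ContDiffOn ℝ 2 f P) : C11 P f := by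
  refine ⟨fun x hx => (hf.differentiableOn (by norm_num)).differentiableAt (ho.mem_nhds hx), ?_⟩
  intro x hx
  have h1 : ContDiffOn ℝ 1 (fderiv ℝ f) P := hf.fderiv_of_isOpen ho (by norm_num)
  have h2 : ContDiffAt ℝ 1 (fderiv ℝ f) x := h1.contDiffAt (ho.mem_nhds hx)
  obtain ⟨K, t, ht, hK⟩ := h2.exists_lipschitzOnWith
  refine ⟨K, t, mem_nhdsWithin_of_mem_nhds ht, ?_⟩
  refine LipschitzOnWith.of_dist_le_mul fun y hy z hz => ?_
  rw [dist_eq_norm, SecD_norm, ← dist_eq_norm]
  exact hK.dist_le_mul y hy z hz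

theorem second_diff {P : Set E} (ho : IsOpen P) {f : E → ℝ} (hf : C11 P f)
    {K : Set E} (hK : IsCompact K) (hKP : K ⊆ P) :
    ∃ C d0 : ℝ, 0 < C ∧ 0 < d0 ∧ ∀ x ∈ K, ∀ v : E, ‖v‖ ≤ d0 → x + v ∈ P ∧ x - v ∈ P ∧
      |f (x + v) + f (x - v) - 2 * f x| ≤ C * ‖v‖ ^ 2 := by
  obtain ⟨C, e, hC0, he, hC⟩ := Rad_unif ho hf.lip hK hKP
  refine ⟨2 * C + 1, e / 2, by positivity, by positivity, fun x hx v hv => ?_⟩
  have hd1 : dist x (x + v) < e := by
    rw [dist_eq_norm]
    have : x - (x + v) = -v := by abel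
    rw [this, norm_neg]
    linarith
  have hd2 : dist x (x - v) < e := by
    rw [dist_eq_norm]
    have : x - (x - v) = v := by abel
    rw [this]
    linarith
  have key : ∀ u : E, ‖u‖ ≤ e / 2 → |f (x + u) - f x - fderiv ℝ f x u| ≤ C * ‖u‖ ^ 2 := by
    intro u hu
    have hmem : ∀ z ∈ Metric.closedBall x ‖u‖, z ∈ P ∧ ‖fderiv ℝ f z - fderiv ℝ f x‖ ≤ C * ‖u‖ := by
      intro z hz
      rw [Metric.mem_closedBall] at hz
      have h1 : dist x z < e := by
        rw [dist_comm]
        linarith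
      obtain ⟨h2, h3⟩ := hC x hx z h1
      refine ⟨h2, ?_⟩
      rw [← SecD_norm, ← dist_eq_norm, dist_comm]
      refine h3.trans ?_
      rw [dist_comm]
      exact mul_le_mul_of_nonneg_left hz hC0
    have h4 := (convex_closedBall x ‖u‖).norm_image_sub_le_of_norm_fderiv_le' (𝕜 := ℝ) (f := f)
      (φ := fderiv ℝ f x) (C := C * ‖u‖) (x := x) (y := x + u)
      (fun z hz => hf.diff z (hmem z hz).1) (fun z hz => (hmem z hz).2)
      (Metric.mem_closedBall_self (norm_nonneg _)) (by
        rw [Metric.mem_closedBall, dist_eq_norm, add_sub_cancel_left])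
    rw [add_sub_cancel_left, Real.norm_eq_abs] at h4
    refine h4.trans (le_of_eq ?_)
    ring
  refine ⟨(hC x hx _ hd1).1, (hC x hx _ hd2).1, ?_⟩
  have h1 := key v hv
  have h2 := key (-v) (by rwa [norm_neg])
  rw [norm_neg, map_neg, ← sub_eq_add_neg] at h2
  have h3 : f (x + v) + f (x - v) - 2 * f x =
      (f (x + v) - f x - fderiv ℝ f x v) + (f (x - v) - f x - -fderiv ℝ f x v) := by ring
  rw [h3]
  refine (abs_add_le _ _).trans ?_
  have h4 : 0 ≤ ‖v‖ ^ 2 := by positivity
  linarith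

theorem c11_of_sub {P : Set E} (ho : IsOpen P) {w : E → ℝ} (hw : ConvexOn ℝ P w)
    (h : ∀ K : Set E, IsCompact K → K ⊆ P → ∃ C : ℝ, ∀ x0 ∈ K, ∀ x1 ∈ K, ∀ y0 y1 : E,
      (∀ z ∈ P, w x0 + ⟪y0, z - x0⟫ ≤ w z) → (∀ z ∈ P, w x1 + ⟪y1, z - x1⟫ ≤ w z) →
      ‖y1 - y0‖ ≤ C * ‖x1 - x0‖) : C11 P w := by
  have hball : ∀ x ∈ P, ∃ r : ℝ, 0 < r ∧ Metric.closedBall x r ⊆ P := by
    intro x hx
    exact Metric.nhds_basis_closedBall.mem_iff.1 (ho.mem_nhds hx)
  have hdiff : ∀ x ∈ P, DifferentiableAt ℝ w x := by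
    intro x hx
    obtain ⟨r, hr, hrP⟩ := hball x hx
    obtain ⟨C, hC⟩ := h _ (isCompact_closedBall x r) hrP
    obtain ⟨y, hy⟩ := subgradient ho hw hx
    have hbig : (fun z => w z - w x - ⟪y, z - x⟫) =O[𝓝 x] fun z => ‖z - x‖ ^ 2 := by
      refine Asymptotics.IsBigO.of_bound |C| ?_
      filter_upwards [Metric.closedBall_mem_nhds x hr] with z hz
      obtain ⟨yz, hyz⟩ := subgradient ho hw (hrP hz)
      have h1 := hC x (Metric.mem_closedBall_self hr.le) z hz y yz hy hyz
      have h2 := hy z (hrP hz)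
      have h3 := hyz x hx
      have h4 : ⟪yz, x - z⟫ = -⟪yz, z - x⟫ := by rw [← inner_neg_right, neg_sub]
      have h5 : ⟪yz - y, z - x⟫ ≤ ‖yz - y‖ * ‖z - x‖ := real_inner_le_norm _ _
      rw [inner_sub_left] at h5
      have h6 : ‖yz - y‖ * ‖z - x‖ ≤ |C| * ‖z - x‖ * ‖z - x‖ := by
        refine mul_le_mul_of_nonneg_right (h1.trans ?_) (norm_nonneg _)
        exact mul_le_mul_of_nonneg_right (le_abs_self _) (norm_nonneg _)
      have h7 : (0 : ℝ) ≤ ‖z - x‖ ^ 2 := by positivity
      have h8 : 0 ≤ w z - w x - ⟪y, z - x⟫ := by linarith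
      rw [Real.norm_of_nonneg h8, Real.norm_of_nonneg h7]
      nlinarith
    have h1 : HasFDerivAt (fun z => w z - w x - ⟪y, z - x⟫) (0 : E →L[ℝ] ℝ) x :=
      hbig.hasFDerivAt (by norm_num)
    have h2 : HasFDerivAt (fun z : E => w x + ⟪y, z - x⟫) (innerSL ℝ y) x := by
      have h3 : HasFDerivAt (fun z : E => innerSL ℝ y (z - x)) (innerSL ℝ y) x := by
        have h6 : HasFDerivAt (fun z : E => z - x) (ContinuousLinearMap.id ℝ E) x :=
          (hasFDerivAt_id x).sub_const x
        exact ((innerSL ℝ y).hasFDerivAt (x := x - x)).comp (f := fun z : E => z - x) x h6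
      exact h3.const_add (w x)
    have h4 := h1.add h2
    have h5 : ((fun z => w z - w x - ⟪y, z - x⟫) + fun z : E => w x + ⟪y, z - x⟫) = w := by
      funext z
      simp only [Pi.add_apply]
      ring
    rw [h5] at h4
    exact h4.differentiableAt
  refine ⟨hdiff, fun x hx => ?_⟩
  obtain ⟨r, hr, hrP⟩ := hball x hx
  obtain ⟨C, hC⟩ := h _ (isCompact_closedBall x r) hrP
  refine ⟨Real.toNNReal |C|, Metric.closedBall x r,
    mem_nhdsWithin_of_mem_nhds (Metric.closedBall_mem_nhds x hr), ?_⟩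
  refine LipschitzOnWith.of_dist_le_mul fun y hy z hz => ?_
  rw [Real.coe_toNNReal _ (abs_nonneg _), dist_comm, dist_comm y z, dist_eq_norm, dist_eq_norm]
  refine (hC y hy z hz _ _ (fun u hu => grad_le ho hw (hrP hy) (hdiff y (hrP hy)) hu)
    (fun u hu => grad_le ho hw (hrP hz) (hdiff z (hrP hz)) hu)).trans ?_
  exact mul_le_mul_of_nonneg_right (le_abs_self _) (norm_nonneg _)

end Pool.Agent.PLap
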