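import Pool.Agent.PLap.ExMin
import Pool.Agent.PLap.Foc
import Pool.Agent.PLap.SecD

/-!
El: integration by parts in the first-order condition, for a C^{1,1} minimiser.

X = VV(grad w) is locally Lipschitz on P (VV is C^1, grad w is locally Lipschitz). Let v in Adm, v = w off a compact; f = (v - w) exp(-pw) is locally Lipschitz on P
(v convex) and vanishes off the compact. ibp: int f dv X = - int <grad f, X>, a.e. grad f = exp(-pw)(grad v - grad w) - p (v-w) exp(-pw) grad w. Hence
int exp(-pw) <X, grad v - grad w> = - int (v-w) exp(-pw) dv X + p int (v-w) exp(-pw) <X, grad w>, and FOC becomes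
0 <= - int (v-w) exp(-pw) ( dv X - p <X, grad w> + FF(grad w) - l ) = - int (v-w) exp(-pw)(sd w - l), since GG(y) = p <VV y, y> - FF(y).
All integrands are bounded with support in a compact subset of P.
sd_locally: sd w is measurable and bounded on compact subsets of P.
-/

set_option autoImplicit false

open MeasureTheory Set Filter Topology
open scoped ENNReal NNReal ContDiff RealInnerProductSpace

namespace Pool.Agent.PLap

private theorem El_comp {F1 F2 : Type*} [PseudoEMetricSpace F1] [PseudoEMetricSpace F2]
    {P : Set E} {G : F1 → F2} (hG : LocallyLipschitz G) {h : E → F1}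
    (hh : LocallyLipschitzOn P h) : LocallyLipschitzOn P (fun x => G (h x)) := by
  rw [locallyLipschitzOn_iff_restrict] at *
  exact hG.comp hh

private theorem El_prod {F1 F2 : Type*} [PseudoEMetricSpace F1] [PseudoEMetricSpace F2]
    {P : Set E} {f : E → F1} {g : E → F2} (hf : LocallyLipschitzOn P f)
    (hg : LocallyLipschitzOn P g) : LocallyLipschitzOn P (fun x => (f x, g x)) := by
  rw [locallyLipschitzOn_iff_restrict] at *
  exact hf.prodMk hg

theorem sd_measurable (p : ℝ) {del : ℝ} (hdel : 0 < del) (w : E → ℝ) : Measurable (sd p del w) := by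
  have h1 : Measurable (dv (fun z => VV p del (gradient w z))) := measurable_dv _
  have h2 : Measurable (fun x => GG p del (gradient w x)) :=
    (GG_continuous hdel).measurable.comp (measurable_gradient w)
  exact h1.sub h2

theorem VV_grad_locLip {p del : ℝ} (hdel : 0 < del) {P : Set E} (ho : IsOpen P) {w : E → ℝ}
    (hC : C11 P w) : LocallyLipschitzOn P (fun z => VV p del (gradient w z)) :=
  El_comp (VV_contDiff hdel).locallyLipschitz hC.lip

theorem sd_bound {p del : ℝ} (hdel : 0 < del) {P : Set E} (ho : IsOpen P) {w : E → ℝ}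
    (hC : C11 P w) {K : Set E} (hK : IsCompact K) (hKP : K ⊆ P) :
    ∃ C : ℝ, 0 ≤ C ∧ ∀ x ∈ K, |sd p del w x| ≤ C := by
  obtain ⟨C1, hC1, h1⟩ := dv_bound ho (VV_grad_locLip (p := p) hdel ho hC) hK hKP
  have hgc : ContinuousOn (fun x => GG p del (gradient w x)) K :=
    (GG_continuous hdel).comp_continuousOn ((locLip_continuousOn hC.lip).mono hKP)
  obtain ⟨C2, h2⟩ := hK.exists_bound_of_continuousOn hgc
  refine ⟨C1 + |C2|, by positivity, fun x hx => ?_⟩
  have h3 := h2 x hx
  rw [Real.norm_eq_abs] at h3
  unfold sd
  refine (abs_sub _ _).trans ?_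
  exact add_le_add (h1 x hx) (h3.trans (le_abs_self _))

private theorem El_grad (f : E → ℝ) (x u : E) : ⟪gradient f x, u⟫ = fderiv ℝ f x u := by
  unfold gradient
  exact InnerProductSpace.toDual_symm_apply

theorem el_of_foc {p del : ℝ} {P : Set E} {a B : E → ℝ} {lmax : ℝ}
    (S : Setup p del P a B lmax) {w : E → ℝ} {l : ℝ} (hw : Adm P a B w)
    (hC : C11 P w) (hF : FOC p del l P a B w) : ELI p del l P a B w := by
  intro v hv hvw
  have ho := S.isOpen
  have hfoc := hF v hv hvw
  obtain ⟨K, hK, hKP, hK0⟩ := hvw
  have hvL := convex_locLip ho hv.conv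
  have hwL := convex_locLip ho hw.conv
  set X : E → E := fun z => VV p del (gradient w z) with hX
  have hXL : LocallyLipschitzOn P X := VV_grad_locLip S.hdel ho hC
  set f : E → ℝ := fun x => (v x - w x) * Real.exp (-p * w x) with hf
  have hfL : LocallyLipschitzOn P f := by
    have hG : LocallyLipschitz (fun q : ℝ × ℝ => (q.1 - q.2) * Real.exp (-p * q.2)) := by
      have h : ContDiff ℝ 1 (fun q : ℝ × ℝ => (q.1 - q.2) * Real.exp (-p * q.2)) := by
        fun_prop
      exact h.locallyLipschitz
    exact El_comp hG (El_prod hvL hwL)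
  have hf0 : ∀ x ∈ P \ K, f x = 0 := by
    intro x hx
    rw [hf]
    simp only
    rw [hK0 x hx, sub_self, zero_mul]
  obtain ⟨hi1, hi2, hibp⟩ := ibp ho hXL hfL ⟨K, hK, hKP, hf0⟩
  -- the remaining term
  have hcont : ContinuousOn (fun x => f x * (GG p del (gradient w x) + l)) P := by
    apply (locLip_continuousOn hfL).mul
    exact ((GG_continuous S.hdel).comp_continuousOn (locLip_continuousOn hC.lip)).add
      continuousOn_const
  have hi3 : IntegrableOn (fun x => f x * (GG p del (gradient w x) + l)) P := by
    have h1 : IntegrableOn (fun x => f x * (GG p del (gradient w x) + l)) K :=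
      (hcont.mono hKP).integrableOn_compact hK
    have h2 : IntegrableOn (fun x => f x * (GG p del (gradient w x) + l)) (P \ K) := by
      have h4 : IntegrableOn (fun _ : E => (0 : ℝ)) (P \ K) := integrableOn_zero
      refine h4.congr_fun (fun x hx => ?_) (ho.measurableSet.diff hK.isClosed.measurableSet)
      simp only
      rw [hf0 x hx, zero_mul]
    have h3 := h1.union h2
    rwa [Set.union_sdiff_cancel hKP] at h3
  have hae : ∀ᵐ x ∂(volume.restrict P), Real.exp (-p * w x) *
      (⟪VV p del (gradient w x), gradient v x - gradient w x⟫ -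
      (FF p del (gradient w x) - l) * (v x - w x)) =
      ⟪gradient f x, X x⟫ + f x * (GG p del (gradient w x) + l) := by
    filter_upwards [convex_ae_diff ho hv.conv, ae_restrict_mem ho.measurableSet] with x hvd hxP
    have hwd := hC.diff x hxP
    have h1 : HasFDerivAt f ((v x - w x) • (Real.exp (-p * w x) • ((-p) • fderiv ℝ w x)) +
        Real.exp (-p * w x) • (fderiv ℝ v x - fderiv ℝ w x)) x := by
      have h2 : HasFDerivAt (fun z => v z - w z) (fderiv ℝ v x - fderiv ℝ w x) x :=
        hvd.hasFDerivAt.sub hwd.hasFDerivAt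
      have h3 : HasFDerivAt (fun z => Real.exp (-p * w z))
          (Real.exp (-p * w x) • ((-p) • fderiv ℝ w x)) x :=
        (hwd.hasFDerivAt.const_mul (-p)).exp
      exact h2.mul h3
    have h4 : ⟪gradient f x, X x⟫ = (v x - w x) * (Real.exp (-p * w x) * (-p * ⟪gradient w x, X x⟫)) +
        Real.exp (-p * w x) * (⟪gradient v x, X x⟫ - ⟪gradient w x, X x⟫) := by
      rw [El_grad, El_grad, El_grad, h1.fderiv]
      simp only [add_apply, smul_apply, sub_apply, smul_eq_mul]
    have h5 : ⟪VV p del (gradient w x), gradient v x - gradient w x⟫ =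
        ⟪gradient v x, X x⟫ - ⟪gradient w x, X x⟫ := by
      rw [inner_sub_right, real_inner_comm, real_inner_comm (gradient w x)]
    have h6 : ⟪gradient w x, X x⟫ =
        om p del (‖gradient w x‖ ^ 2) * ‖gradient w x‖ ^ 2 := by
      rw [hX]
      simp only [VV]
      rw [inner_smul_right, real_inner_self_eq_norm_sq]
    rw [h4, h5]
    unfold GG
    rw [← h6, hf]
    ring
  rw [integral_congr_ae hae, integral_add hi2 hi3] at hfoc
  have hfin : ∫ x in P, (v x - w x) * (Real.exp (-p * w x) * (sd p del w x - l)) =
      (∫ x in P, f x * dv X x) - ∫ x in P, f x * (GG p del (gradient w x) + l) := by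
    rw [← integral_sub hi1 hi3]
    congr 1
    ext x
    unfold sd
    rw [hf, hX]
    ring
  rw [hfin, hibp]
  linarith

end Pool.Agent.PLap
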