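import Pool.Agent.PLap.Rad

/-!
Div: divergence theorem and integration by parts.

div_thm: for X Lipschitz with compact support, int dv X = 0. Coordinatewise: X_i is Lipschitz with compact support and
`LipschitzWith.integral_lineDeriv_mul_eq` (Mathlib: int (lineDeriv f v) * g = int (lineDeriv g (-v)) * f for f Lipschitz, g Lipschitz with
compact support) with g = X_i, f = 1 gives int d_i X_i = 0; a.e. fderiv ℝ X x (bb i) i = lineDeriv of X_i.
ibp: let Y = P.indicator (f • X) (it is Lipschitz with compact support inside P by ext_zero applied to f • X, which is locally Lipschitz as a product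
of locally Lipschitz locally bounded functions) and a.e. on P: dv Y = f dv X + <grad f, X> (product rule at points where both are differentiable).
Off P: Y vanishes on the open complement of its support. The integrands are bounded (fderiv_bound) with compact support
(on P minus K the function f vanishes; P minus K is open, so grad f = 0 there) and measurable
(measurable_fderiv; continuity of f and X on P).
-/

set_option linter.all false

set_option autoImplicit false

open MeasureTheory Set Filter Topology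
open scoped ENNReal NNReal ContDiff RealInnerProductSpace

namespace Pool.Agent.PLap

private theorem Div_coord (z : E) (i : Fin 2) : |z i| ≤ ‖z‖ := by
  have := PiLp.norm_apply_le z i
  rwa [Real.norm_eq_abs] at this

private theorem Div_bb (i : Fin 2) : ‖bb i‖ = 1 := by
  unfold bb; simp

private theorem Div_sum (z : E) : z = ∑ i, z i • bb i := by
  ext j
  fin_cases j <;> simp [bb, Fin.sum_univ_two]

private theorem Div_dv_le (X : E → E) (x : E) : |dv X x| ≤ 2 * ‖fderiv ℝ X x‖ := by
  unfold dv
  refine (Finset.abs_sum_le_sum_abs _ _).trans ?_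
  have h : ∀ i : Fin 2, |(fderiv ℝ X x (bb i)) i| ≤ ‖fderiv ℝ X x‖ := by
    intro i
    refine (Div_coord _ i).trans ?_
    have := (fderiv ℝ X x).le_opNorm (bb i)
    rwa [Div_bb, mul_one] at this
  rw [Fin.sum_univ_two]
  linarith [h 0, h 1]

private theorem Div_integrable {g : E → ℝ} (hm : Measurable g) {C : ℝ} (hC : ∀ x, |g x| ≤ C)
    {K : Set E} (hK : IsCompact K) (h0 : ∀ x, x ∉ K → g x = 0) : Integrable g := by
  have h1 : IntegrableOn g K :=
    IntegrableOn.of_bound hK.measure_lt_top hm.aestronglyMeasurable C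
      (ae_of_all _ fun x => by rw [Real.norm_eq_abs]; exact hC x)
  refine (integrableOn_iff_integrable_of_support_subset ?_).1 h1
  intro x hx
  by_contra h
  exact hx (h0 x h)

theorem div_thm {X : E → E} {C : ℝ≥0} (hX : LipschitzWith C X) (hc : HasCompactSupport X) :
    ∫ x, dv X x = 0 := by
  have hXi : ∀ i : Fin 2, LipschitzWith C (fun x => X x i) := by
    intro i
    refine LipschitzWith.of_dist_le_mul fun x y => ?_
    rw [Real.dist_eq]
    have h1 := Div_coord (X x - X y) i
    have h2 := hX.dist_le_mul x y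
    rw [dist_eq_norm] at h2
    have h3 : (X x - X y) i = X x i - X y i := rfl
    rw [h3] at h1
    exact h1.trans h2
  have hci : ∀ i : Fin 2, HasCompactSupport (fun x => X x i) := by
    intro i
    exact hc.comp_left (g := fun z : E => z i) rfl
  have hzero : ∀ i : Fin 2, ∫ x, lineDeriv ℝ (fun x => X x i) x (bb i) = 0 := by
    intro i
    have h := LipschitzWith.integral_lineDeriv_mul_eq (μ := (volume : Measure E))
      (LipschitzWith.const (1 : ℝ) : LipschitzWith 0 fun _ : E => (1 : ℝ)) (hXi i) (hci i) (-bb i)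
    rw [neg_neg] at h
    simp only [mul_one] at h
    rw [← h]
    have h2 : ∀ x : E, lineDeriv ℝ (fun _ : E => (1 : ℝ)) x (-bb i) = 0 := by
      intro x
      simp [lineDeriv]
    simp only [h2, zero_mul, integral_zero]
  have hint : ∀ i : Fin 2, Integrable (fun x => lineDeriv ℝ (fun x => X x i) x (bb i)) := by
    intro i
    refine Div_integrable (measurable_lineDeriv (hXi i).continuous) (C := C * ‖bb i‖)
      (fun x => ?_) (hci i) (fun x hx => ?_)
    · have := norm_lineDeriv_le_of_lipschitz (x₀ := x) (v := bb i) ℝ (hXi i)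
      rwa [Real.norm_eq_abs] at this
    · have he : (fun x => X x i) =ᶠ[𝓝 x] fun _ => (0 : ℝ) :=
        notMem_tsupport_iff_eventuallyEq.1 hx
      rw [he.lineDeriv_eq]
      simp [lineDeriv]
  have hae : ∀ᵐ x, dv X x = ∑ i, lineDeriv ℝ (fun x => X x i) x (bb i) := by
    filter_upwards [hX.ae_differentiableAt (μ := (volume : Measure E))] with x hx
    unfold dv
    refine Finset.sum_congr rfl fun i _ => ?_
    have h1 : HasFDerivAt (fun x => X x i)
        ((EuclideanSpace.proj i : E →L[ℝ] ℝ).comp (fderiv ℝ X x)) x :=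
      ((EuclideanSpace.proj i : E →L[ℝ] ℝ).hasFDerivAt).comp x hx.hasFDerivAt
    rw [h1.differentiableAt.lineDeriv_eq_fderiv, h1.fderiv]
    rfl
  rw [integral_congr_ae hae, integral_finset_sum _ fun i _ => hint i]
  exact Finset.sum_eq_zero fun i _ => hzero i

theorem dv_smul {f : E → ℝ} {X : E → E} {x : E} (hf : DifferentiableAt ℝ f x)
    (hX : DifferentiableAt ℝ X x) :
    dv (fun z => f z • X z) x = f x * dv X x + ⟪gradient f x, X x⟫ := by
  unfold dv
  have h1 : ⟪gradient f x, X x⟫ = fderiv ℝ f x (X x) := by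
    unfold gradient
    exact InnerProductSpace.toDual_symm_apply
  rw [h1, fderiv_fun_smul hf hX]
  conv_rhs => rw [Div_sum (X x)]
  rw [map_sum, Finset.mul_sum, ← Finset.sum_add_distrib]
  refine Finset.sum_congr rfl fun i _ => ?_
  rw [map_smul]
  simp only [ContinuousLinearMap.add_apply, ContinuousLinearMap.smul_apply,
    ContinuousLinearMap.smulRight_apply, PiLp.add_apply, PiLp.smul_apply, smul_eq_mul]
  ring

theorem measurable_dv (X : E → E) : Measurable (dv X) := by
  unfold dv
  refine Finset.measurable_fun_sum _ fun i _ => ?_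
  exact (EuclideanSpace.proj i : E →L[ℝ] ℝ).continuous.measurable.comp
    (measurable_fderiv_apply_const ℝ X (bb i))

theorem measurable_gradient (f : E → ℝ) : Measurable (gradient f) := by
  unfold gradient
  exact (InnerProductSpace.toDual ℝ E).symm.continuous.measurable.comp (measurable_fderiv ℝ f)

theorem dv_bound {P : Set E} (ho : IsOpen P) {X : E → E} (hX : LocallyLipschitzOn P X)
    {K : Set E} (hK : IsCompact K) (hKP : K ⊆ P) : ∃ C : ℝ, 0 ≤ C ∧ ∀ x ∈ K, |dv X x| ≤ C := by
  obtain ⟨C, hC0, hC⟩ := fderiv_bound ho hX hK hKP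
  refine ⟨2 * C, by positivity, fun x hx => (Div_dv_le X x).trans ?_⟩
  linarith [hC x hx]

private theorem Div_locLip_smul {P : Set E} (ho : IsOpen P) {X : E → E}
    (hX : LocallyLipschitzOn P X) {f : E → ℝ} (hf : LocallyLipschitzOn P f) :
    LocallyLipschitzOn P (fun z => f z • X z) := by
  intro x hx
  obtain ⟨C1, r1, hr1, hs1, h1⟩ := Rad_ball ho hf hx
  obtain ⟨C2, r2, hr2, hs2, h2⟩ := Rad_ball ho hX hx
  obtain ⟨r, hr⟩ : ∃ r, r = min r1 r2 := ⟨_, rfl⟩
  have hr0 : 0 < r := by rw [hr]; exact lt_min hr1 hr2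
  have hb1 : ∀ y ∈ Metric.ball x r, y ∈ Metric.ball x r1 := fun y hy =>
    Metric.ball_subset_ball (by rw [hr]; exact min_le_left _ _) hy
  have hb2 : ∀ y ∈ Metric.ball x r, y ∈ Metric.ball x r2 := fun y hy =>
    Metric.ball_subset_ball (by rw [hr]; exact min_le_right _ _) hy
  have hF : ∀ y ∈ Metric.ball x r, |f y| ≤ |f x| + C1 * r := by
    intro y hy
    have h3 := h1.dist_le_mul y (hb1 y hy) x (Metric.mem_ball_self hr1)
    rw [Real.dist_eq] at h3
    have h4 : (C1 : ℝ) * dist y x ≤ C1 * r :=
      mul_le_mul_of_nonneg_left (le_of_lt (Metric.mem_ball.1 hy)) C1.coe_nonneg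
    have h5 := abs_sub_abs_le_abs_sub (f y) (f x)
    linarith
  have hG : ∀ y ∈ Metric.ball x r, ‖X y‖ ≤ ‖X x‖ + C2 * r := by
    intro y hy
    have h3 := h2.dist_le_mul y (hb2 y hy) x (Metric.mem_ball_self hr2)
    rw [dist_eq_norm] at h3
    have h4 : (C2 : ℝ) * dist y x ≤ C2 * r :=
      mul_le_mul_of_nonneg_left (le_of_lt (Metric.mem_ball.1 hy)) C2.coe_nonneg
    have h5 := norm_sub_norm_le (X y) (X x)
    linarith
  have hF0 : 0 ≤ |f x| + C1 * r := by positivity
  have hG0 : 0 ≤ ‖X x‖ + C2 * r := by positivity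
  refine ⟨Real.toNNReal ((|f x| + C1 * r) * C2 + C1 * (‖X x‖ + C2 * r)), Metric.ball x r,
    mem_nhdsWithin_of_mem_nhds (Metric.ball_mem_nhds x hr0), ?_⟩
  refine LipschitzOnWith.of_dist_le_mul fun y hy z hz => ?_
  rw [Real.coe_toNNReal _ (by positivity), dist_eq_norm]
  have e : f y • X y - f z • X z = f y • (X y - X z) + (f y - f z) • X z := by
    rw [smul_sub, sub_smul]; abel
  rw [e]
  refine (norm_add_le _ _).trans ?_
  rw [norm_smul, norm_smul, Real.norm_eq_abs, Real.norm_eq_abs]
  have h3 := h1.dist_le_mul y (hb1 y hy) z (hb1 z hz)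
  have h4 := h2.dist_le_mul y (hb2 y hy) z (hb2 z hz)
  rw [Real.dist_eq] at h3
  rw [dist_eq_norm (X y)] at h4
  have h5 : |f y| * ‖X y - X z‖ ≤ (|f x| + C1 * r) * (C2 * dist y z) :=
    mul_le_mul (hF y hy) h4 (norm_nonneg _) hF0
  have h6 : |f y - f z| * ‖X z‖ ≤ (C1 * dist y z) * (‖X x‖ + C2 * r) :=
    mul_le_mul h3 (hG z hz) (norm_nonneg _) (by positivity)
  calc _ ≤ (|f x| + C1 * r) * (C2 * dist y z) + (C1 * dist y z) * (‖X x‖ + C2 * r) :=
        add_le_add h5 h6
    _ = _ := by ring

private theorem Div_intOn {P : Set E} (ho : IsOpen P) {g : E → ℝ} {K : Set E}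
    (hm : AEStronglyMeasurable g (volume.restrict P)) (hK : IsCompact K) (hKP : K ⊆ P) {C : ℝ}
    (hC : ∀ x ∈ K, |g x| ≤ C) (h0 : ∀ x ∈ P \ K, g x = 0) : IntegrableOn g P := by
  have h1 : IntegrableOn g K :=
    IntegrableOn.of_bound hK.measure_lt_top (hm.mono_measure (Measure.restrict_mono hKP le_rfl)) C
      ((ae_restrict_iff' hK.isClosed.measurableSet).2 (ae_of_all _ fun x hx => by
        rw [Real.norm_eq_abs]; exact hC x hx))
  have h2 : IntegrableOn g (P \ K) := by
    have h4 : IntegrableOn (fun _ : E => (0 : ℝ)) (P \ K) := integrableOn_zero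
    exact h4.congr_fun (fun x hx => (h0 x hx).symm)
      (ho.measurableSet.diff hK.isClosed.measurableSet)
  have h3 := h1.union h2
  rwa [Set.union_diff_cancel hKP] at h3

theorem ibp {P : Set E} (ho : IsOpen P) {X : E → E} (hX : LocallyLipschitzOn P X) {f : E → ℝ}
    (hf : LocallyLipschitzOn P f) (h0 : EqOff P f (fun _ => 0)) :
    IntegrableOn (fun x => f x * dv X x) P ∧ IntegrableOn (fun x => ⟪gradient f x, X x⟫) P ∧
      ∫ x in P, f x * dv X x = -∫ x in P, ⟪gradient f x, X x⟫ := by
  obtain ⟨K, hK, hKP, hK0⟩ := h0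
  have hfc := locLip_continuousOn hf
  have hXc := locLip_continuousOn hX
  obtain ⟨M1, hM1⟩ := hK.exists_bound_of_continuousOn (hfc.mono hKP)
  obtain ⟨M2, hM2⟩ := hK.exists_bound_of_continuousOn (hXc.mono hKP)
  obtain ⟨D1, hD10, hD1⟩ := dv_bound ho hX hK hKP
  obtain ⟨D2, hD20, hD2⟩ := gradient_bound ho hf hK hKP
  have hI1 : IntegrableOn (fun x => f x * dv X x) P := by
    refine Div_intOn ho ?_ hK hKP (C := |M1| * D1) (fun x hx => ?_) (fun x hx => ?_)
    · exact (hfc.aestronglyMeasurable ho.measurableSet).mul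
        (measurable_dv X).aestronglyMeasurable
    · rw [abs_mul]
      have h1 := hM1 x hx
      rw [Real.norm_eq_abs] at h1
      exact mul_le_mul (h1.trans (le_abs_self _)) (hD1 x hx) (abs_nonneg _) (abs_nonneg _)
    · rw [hK0 x hx, zero_mul]
  have hI2 : IntegrableOn (fun x => ⟪gradient f x, X x⟫) P := by
    refine Div_intOn ho ?_ hK hKP (C := D2 * |M2|) (fun x hx => ?_) (fun x hx => ?_)
    · exact ((measurable_gradient f).aestronglyMeasurable).inner
        (hXc.aestronglyMeasurable ho.measurableSet)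
    · exact (abs_real_inner_le_norm _ _).trans
        (mul_le_mul (hD2 x hx) ((hM2 x hx).trans (le_abs_self _)) (norm_nonneg _) hD20)
    · have he : f =ᶠ[𝓝 x] fun _ => (0 : ℝ) := by
        have ho2 : IsOpen (P \ K) := ho.sdiff hK.isClosed
        filter_upwards [ho2.mem_nhds hx] with y hy
        exact hK0 y hy
      have h2 : gradient f x = 0 := by
        unfold gradient
        rw [he.fderiv_eq]
        simp
      rw [h2, inner_zero_left]
  refine ⟨hI1, hI2, ?_⟩
  have hZ := Div_locLip_smul ho hX hf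
  obtain ⟨C, hL, hcs, hts⟩ := ext_zero ho hZ hK hKP (fun x hx => by rw [hK0 x hx, zero_smul])
  have hdiv := div_thm hL hcs
  have hoff : ∀ x, x ∉ P → dv (P.indicator fun z => f z • X z) x = 0 := by
    intro x hx
    have hx' : x ∉ tsupport (P.indicator fun z => f z • X z) := fun h => hx (hts h)
    have he := notMem_tsupport_iff_eventuallyEq.1 hx'
    unfold dv
    rw [he.fderiv_eq]
    simp
  rw [← setIntegral_eq_integral_of_forall_compl_eq_zero hoff] at hdiv
  have hae : ∀ᵐ x ∂(volume.restrict P), dv (P.indicator fun z => f z • X z) x =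
      f x * dv X x + ⟪gradient f x, X x⟫ := by
    have hmem : ∀ᵐ x ∂(volume.restrict P), x ∈ P := ae_restrict_mem ho.measurableSet
    filter_upwards [rademacher ho hf, rademacher ho hX, hmem] with x h1 h2 h3
    rw [← dv_smul h1 h2]
    have he : (P.indicator fun z => f z • X z) =ᶠ[𝓝 x] fun z => f z • X z := by
      filter_upwards [ho.mem_nhds h3] with y hy
      exact indicator_of_mem hy _
    unfold dv
    rw [he.fderiv_eq]
  rw [integral_congr_ae hae, integral_add hI1 hI2] at hdiv
  linarith

end Pool.Agent.PLap
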