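import Pool.Agent.PLap.Cpt
import Pool.Agent.PLap.Div
import Pool.Agent.PLap.OM2

/-!
ExMin: the minimiser in the class Adm P a B.

Facts (extra lemmas below, used by other modules):
a_bdd: a is bounded below on P (a is continuous and {a <= R} is compact and nonempty for R = a(x0));
so exp(-p v) <= exp(-p min a) on P, P has finite positive measure, DD v is positive and finite for v in Adm (v is continuous on P as a convex function).
exists_min: let q(v) = NN v / ofReal (DD v) in [0,oo] and l' its infimum over Adm; l' <= ofReal lmax < oo by S.start.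
Take w_n with q(w_n) -> l'. By adm_compact a subsequence converges pointwise on P to w in Adm. DD(w_n) -> DD(w) (dominated by the constant),
gradient w_n -> gradient w a.e. on P (convex_ae_diff, grad_tendsto), FF is continuous, so by Fatou (lintegral_liminf_le; measurable since
gradient is measurable and w_n is continuous on P) NN w <= liminf NN w_n = l' DD(w). So l = l'.toReal; NN w = ofReal (l DD w).
NN w0 > 0 because FF >= del^p > 0, so lmax > 0.
-/

set_option autoImplicit false

open MeasureTheory Set Filter Topology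
open scoped ENNReal NNReal ContDiff RealInnerProductSpace

namespace Pool.Agent.PLap

theorem Setup.a_bdd {p del : ℝ} {P : Set E} {a B : E → ℝ} {lmax : ℝ} (S : Setup p del P a B lmax) :
    ∃ m : ℝ, ∀ x ∈ P, m ≤ a x := by
  obtain ⟨x0, hx0⟩ := S.nonempty
  have hK := S.proper (a x0)
  have hKne : ({x | x ∈ P ∧ a x ≤ a x0} : Set E).Nonempty := ⟨x0, hx0, le_rfl⟩
  have hcont : ContinuousOn a {x | x ∈ P ∧ a x ≤ a x0} :=
    S.a2.continuousOn.mono fun x hx => hx.1
  obtain ⟨z, hz, hmin⟩ := hK.exists_isMinOn hKne hcont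
  refine ⟨a z, fun x hx => ?_⟩
  by_cases h : a x ≤ a x0
  · exact hmin ⟨hx, h⟩
  · exact hz.2.trans (not_le.1 h).le

private theorem ExMin_cont {P : Set E} (ho : IsOpen P) {a B w : E → ℝ} (hw : Adm P a B w) :
    ContinuousOn w P := hw.conv.continuousOn ho

private theorem ExMin_vol_lt {P : Set E} (hb : Bornology.IsBounded P) :
    (volume : Measure E) P < ⊤ := hb.measure_lt_top

private theorem ExMin_meas {p : ℝ} {P : Set E} (ho : IsOpen P) {a B w : E → ℝ} (hw : Adm P a B w) :
    AEMeasurable (fun x => Real.exp (-p * w x)) ((volume : Measure E).restrict P) := by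
  have h : ContinuousOn (fun x => Real.exp (-p * w x)) P :=
    Real.continuous_exp.comp_continuousOn ((ExMin_cont ho hw).const_smul (-p))
  exact h.aemeasurable ho.measurableSet

theorem Setup.integrable_exp {p del : ℝ} {P : Set E} {a B : E → ℝ} {lmax : ℝ}
    (S : Setup p del P a B lmax) {w : E → ℝ} (hw : Adm P a B w) :
    IntegrableOn (fun x => Real.exp (-p * w x)) P := by
  obtain ⟨m, hm⟩ := S.a_bdd
  have hp := S.hp
  have : IsFiniteMeasure ((volume : Measure E).restrict P) :=
    ⟨by rw [Measure.restrict_apply_univ]; exact ExMin_vol_lt S.bounded⟩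
  refine Integrable.mono' (integrable_const (Real.exp (-p * m)))
    (ExMin_meas S.isOpen hw).aestronglyMeasurable ?_
  rw [ae_restrict_iff' S.isOpen.measurableSet]
  refine Eventually.of_forall fun x hx => ?_
  rw [Real.norm_eq_abs, abs_of_pos (Real.exp_pos _)]
  refine Real.exp_le_exp.2 ?_
  have h1 := (hm x hx).trans (hw.lb x hx)
  nlinarith

theorem Setup.DD_pos {p del : ℝ} {P : Set E} {a B : E → ℝ} {lmax : ℝ}
    (S : Setup p del P a B lmax) {w : E → ℝ} (hw : Adm P a B w) : 0 < DD p P w := by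
  unfold DD
  rw [setIntegral_pos_iff_support_of_nonneg_ae]
  · have h1 : Function.support (fun x => Real.exp (-p * w x)) = univ := by
      ext x
      simp [(Real.exp_pos _).ne']
    rw [h1, univ_inter]
    exact S.isOpen.measure_pos _ S.nonempty
  · exact Eventually.of_forall fun x => (Real.exp_pos _).le
  · exact S.integrable_exp hw

private theorem ExMin_meas2 {p del : ℝ} (hdel : 0 < del) {P : Set E} (ho : IsOpen P)
    {a B w : E → ℝ} (hw : Adm P a B w) :
    AEMeasurable (fun x => ENNReal.ofReal (Real.exp (-p * w x) * FF p del (gradient w x)))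
      ((volume : Measure E).restrict P) := by
  refine ENNReal.measurable_ofReal.comp_aemeasurable ?_
  refine (ExMin_meas ho hw).mul ?_
  exact ((FF_continuous hdel).measurable.comp (measurable_gradient w)).aemeasurable

private theorem ExMin_NN_pos {p del : ℝ} {P : Set E} {a B : E → ℝ} {lmax : ℝ}
    (S : Setup p del P a B lmax) {w : E → ℝ} (hw : Adm P a B w) : NN p del P w ≠ 0 := by
  unfold NN
  intro h
  rw [lintegral_eq_zero_iff' (ExMin_meas2 S.hdel S.isOpen hw)] at h
  rw [EventuallyEq, ae_restrict_iff' S.isOpen.measurableSet] at h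
  have hpos : ∀ x, 0 < Real.exp (-p * w x) * FF p del (gradient w x) := fun x =>
    mul_pos (Real.exp_pos _) ((Real.rpow_pos_of_pos S.hdel p).trans_le (FF_ge' S.hp S.hdel _))
  have h2 : ∀ᵐ x ∂(volume : Measure E), x ∉ P := by
    filter_upwards [h] with x hx hxP
    have h3 := hx hxP
    rw [Pi.zero_apply, ENNReal.ofReal_eq_zero] at h3
    exact absurd (hpos x) (not_lt.2 h3)
  have h4 : (volume : Measure E) P = 0 := by
    rw [ae_iff] at h2
    simpa using h2
  exact (S.isOpen.measure_pos (volume : Measure E) S.nonempty).ne' h4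

private theorem ExMin_DD_tendsto {p del : ℝ} {P : Set E} {a B : E → ℝ} {lmax : ℝ}
    (S : Setup p del P a B lmax) {w : ℕ → E → ℝ} {w0 : E → ℝ} (hw : ∀ n, Adm P a B (w n))
    (hlim : ∀ x ∈ P, Tendsto (fun n => w n x) atTop (𝓝 (w0 x))) :
    Tendsto (fun n => DD p P (w n)) atTop (𝓝 (DD p P w0)) := by
  obtain ⟨m, hm⟩ := S.a_bdd
  have hp := S.hp
  unfold DD
  refine tendsto_integral_of_dominated_convergence (fun _ => Real.exp (-p * m))
    (fun n => (ExMin_meas S.isOpen (hw n)).aestronglyMeasurable) ?_ ?_ ?_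
  · have : IsFiniteMeasure ((volume : Measure E).restrict P) :=
      ⟨by rw [Measure.restrict_apply_univ]; exact ExMin_vol_lt S.bounded⟩
    exact integrable_const _
  · intro n
    rw [ae_restrict_iff' S.isOpen.measurableSet]
    refine Eventually.of_forall fun x hx => ?_
    rw [Real.norm_eq_abs, abs_of_pos (Real.exp_pos _)]
    refine Real.exp_le_exp.2 ?_
    have h1 := (hm x hx).trans ((hw n).lb x hx)
    nlinarith
  · rw [ae_restrict_iff' S.isOpen.measurableSet]
    refine Eventually.of_forall fun x hx => ?_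
    exact (Real.continuous_exp.tendsto _).comp ((hlim x hx).const_mul (-p))

private theorem ExMin_fatou {p del : ℝ} {P : Set E} {a B : E → ℝ} {lmax : ℝ}
    (S : Setup p del P a B lmax) {w : ℕ → E → ℝ} {w0 : E → ℝ} (hw : ∀ n, Adm P a B (w n))
    (hw0 : Adm P a B w0)
    (hlim : ∀ x ∈ P, Tendsto (fun n => w n x) atTop (𝓝 (w0 x))) :
    NN p del P w0 ≤ liminf (fun n => NN p del P (w n)) atTop := by
  unfold NN
  refine le_trans ?_ (lintegral_liminf_le' fun n => ExMin_meas2 S.hdel S.isOpen (hw n))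
  refine lintegral_mono_ae ?_
  have hd : ∀ᵐ x ∂((volume : Measure E).restrict P), ∀ n, DifferentiableAt ℝ (w n) x :=
    ae_all_iff.2 fun n => convex_ae_diff S.isOpen (hw n).conv
  have hP : ∀ᵐ x ∂((volume : Measure E).restrict P), x ∈ P :=
    ae_restrict_mem S.isOpen.measurableSet
  filter_upwards [hd, convex_ae_diff S.isOpen hw0.conv, hP] with x h1 h2 hx
  have hg := grad_tendsto S.isOpen S.convex (fun n => (hw n).conv) hw0.conv hlim hx h1 h2
  have hF : Tendsto (fun n => FF p del (gradient (w n) x)) atTop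
      (𝓝 (FF p del (gradient w0 x))) := ((FF_continuous S.hdel).tendsto _).comp hg
  have hE : Tendsto (fun n => Real.exp (-p * w n x)) atTop (𝓝 (Real.exp (-p * w0 x))) :=
    (Real.continuous_exp.tendsto _).comp ((hlim x hx).const_mul (-p))
  have hT := ENNReal.tendsto_ofReal (hE.mul hF)
  exact hT.liminf_eq.ge

theorem exists_min {p del : ℝ} {P : Set E} {a B : E → ℝ} {lmax : ℝ}
    (S : Setup p del P a B lmax) : ∃ (w : E → ℝ) (l : ℝ), Adm P a B w ∧ l ∈ Icc 0 lmax ∧
      NN p del P w = ENNReal.ofReal (l * DD p P w) ∧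
      ∀ v, Adm P a B v → ENNReal.ofReal (l * DD p P v) ≤ NN p del P v := by
  obtain ⟨w0, hw0, hw0N⟩ := S.start
  have hD0 := S.DD_pos hw0
  have hlmax : 0 < lmax := by
    by_contra h
    have h1 : lmax * DD p P w0 ≤ 0 := mul_nonpos_of_nonpos_of_nonneg (not_lt.1 h) hD0.le
    rw [ENNReal.ofReal_of_nonpos h1] at hw0N
    exact ExMin_NN_pos S hw0 (le_antisymm hw0N bot_le)
  set T : Set ℝ≥0∞ := {t | ∃ v, Adm P a B v ∧ t = NN p del P v / ENNReal.ofReal (DD p P v)} with hT
  have hTne : T.Nonempty := ⟨_, w0, hw0, rfl⟩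
  obtain ⟨u, -, hu, huT⟩ := exists_seq_tendsto_sInf hTne (OrderBot.bddBelow T)
  choose w hwA hwu using huT
  obtain ⟨w1, ph, hph, hw1, hlim⟩ := adm_compact S.isOpen S.convex S.a2.continuousOn
    S.B2.continuousOn hwA
  have hne0 : ∀ v, Adm P a B v → ENNReal.ofReal (DD p P v) ≠ 0 := fun v hv =>
    (ENNReal.ofReal_pos.2 (S.DD_pos hv)).ne'
  have hle : sInf T ≤ ENNReal.ofReal lmax := by
    have h0 : NN p del P w0 / ENNReal.ofReal (DD p P w0) ∈ T := ⟨w0, hw0, rfl⟩
    refine (sInf_le h0).trans ?_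
    refine ENNReal.div_le_of_le_mul ?_
    rw [← ENNReal.ofReal_mul' hD0.le]
    exact hw0N
  have hfin : sInf T ≠ ⊤ := (hle.trans_lt ENNReal.ofReal_lt_top).ne
  have hofl : ENNReal.ofReal (sInf T).toReal = sInf T := ENNReal.ofReal_toReal hfin
  have hlow : ∀ v, Adm P a B v → ENNReal.ofReal ((sInf T).toReal * DD p P v) ≤ NN p del P v := by
    intro v hv
    rw [ENNReal.ofReal_mul' (S.DD_pos hv).le, hofl]
    have h0 : NN p del P v / ENNReal.ofReal (DD p P v) ∈ T := ⟨v, hv, rfl⟩
    exact ENNReal.mul_le_of_le_div (sInf_le h0)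
  refine ⟨w1, (sInf T).toReal, hw1, ⟨ENNReal.toReal_nonneg, ?_⟩, le_antisymm ?_ (hlow w1 hw1), hlow⟩
  · have := ENNReal.toReal_mono ENNReal.ofReal_ne_top hle
    rwa [ENNReal.toReal_ofReal hlmax.le] at this
  · rw [ENNReal.ofReal_mul' (S.DD_pos hw1).le, hofl]
    refine (ExMin_fatou S (fun n => hwA (ph n)) hw1 hlim).trans ?_
    have h1 : Tendsto (fun n => u (ph n) * ENNReal.ofReal (DD p P (w (ph n)))) atTop
        (𝓝 (sInf T * ENNReal.ofReal (DD p P w1))) := by
      refine ENNReal.Tendsto.mul (hu.comp hph.tendsto_atTop) (Or.inr ENNReal.ofReal_ne_top)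
        (ENNReal.tendsto_ofReal (ExMin_DD_tendsto S (fun n => hwA (ph n)) hlim)) (Or.inr hfin)
    have h2 : (fun n => NN p del P (w (ph n))) =
        fun n => u (ph n) * ENNReal.ofReal (DD p P (w (ph n))) := by
      funext n
      rw [hwu (ph n), ENNReal.div_mul_cancel (hne0 _ (hwA (ph n))) ENNReal.ofReal_ne_top]
    rw [h2, h1.liminf_eq]

end Pool.Agent.PLap
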