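import Pool.Agent.PLap.BarB
import Pool.Agent.PLap.ExMin
import Pool.Agent.PLap.El

/-!
BarC: the setup for a polygon.

Let k1 < 1 < k2 be the constants of sd_lower and sd_upper, Lb >= -b0 on P (b0 >= 0). a = k1 Lb, w0 = Lb + c0 with c0 = (1-k1) b0, so a <= w0. B = k2 Lb + N with N >= c0 + (k2-1) b0 large (below), so w0 <= B.
proper: Lb_proper. w0 is convex, gradient w0 = gradient Lb, and exp(-p w0) FF(grad w0) <= exp(-p c0) exp(-p Lb)(C + |grad Lb|^p) is bounded on P (Lb_energy, FF_le, Lb bounded below), P bounded: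
NN w0 < oo, lmax = NN w0 / DD w0. (lmax >= 0.)
sd B = sd (k2 Lb) (the gradients agree). sd a is continuous on P (C^2; dv(VV o grad a) is continuous on P) or simply bounded on compact sets (sd_bound with c11_of_C2), and >= 0 for SS >= R: so sd a >= sa on P for some constant sa.
Similarly sd B <= sB on P, sB independent of N.
A1: choose R with SS >= R => sd a >= sB + 1, and A1 > max of a on the compact set {SS <= R}: then a x >= A1 implies sd a x >= sB + 1.
N: choose R2 with SS >= R2 => sd (k2 Lb) <= sa - 1; on the compact set {SS <= R2} the function k2 |grad Lb| dd - k2 Lb is <= C' (dd = diameter bound of P). Take N > C' + A1 (and the bound above).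
cc: let w in Adm, l in [0,lmax]. Case 1: there is x in P with w x = a x < A1. Lam = l - sa + 1/2. Contacts with a: sd a - l + Lam >= 1/2. Contact x' with B: w x' = B x', w <= B, w convex, B differentiable: a subgradient y of w at x'
satisfies B z >= w z >= B x' + <y, z - x'>, so y = grad B x' (touch or sub_unique argument), and w x >= w x' + <grad B x', x - x'>, so |grad B x'| dd >= B x' - a x > k2 Lb x' + N - A1 > k2 Lb x' + C'. Hence SS x' > R2 and
sd B x' - l + Lam <= sa - 1 - sa + 1/2 = -1/2. Case 2: all contacts with a have a x >= A1. Lam = l - sB - 1/2: contacts with a: >= sB + 1 - sB - 1/2 = 1/2; contacts with B: <= sB - sB - 1/2.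
-/

set_option autoImplicit false

open MeasureTheory Set Filter Topology
open scoped ENNReal NNReal ContDiff RealInnerProductSpace

namespace Pool.Agent.PLap

private theorem barc_grad_add (f : E → ℝ) (c : ℝ) : gradient (fun z => f z + c) = gradient f := by
  funext x
  unfold gradient
  rw [fderiv_add_const]

private theorem barc_sd_add (p del : ℝ) (f : E → ℝ) (c : ℝ) (x : E) :
    sd p del (fun z => f z + c) x = sd p del f x := by
  unfold sd
  rw [barc_grad_add]

private theorem barc_bound {K : Set E} (hK : IsCompact K) {f : E → ℝ} (hf : ContinuousOn f K) :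
    ∃ C : ℝ, ∀ x ∈ K, f x ≤ C := by
  obtain ⟨C, hC⟩ := hK.exists_bound_of_continuousOn hf
  exact ⟨C, fun x hx => (le_abs_self _).trans (hC x hx)⟩

/-- finiteness of the numerator and positivity of the denominator -/
private theorem barc_start {p del : ℝ} (hp : 1 < p) (hdel : 0 < del) {n : ℕ} {nu : Fin n → E}
    {c : Fin n → ℝ} {P : Set E} (h : PolyData n nu c P) {b0 c0 : ℝ} (hc0 : 0 ≤ c0)
    (hb : ∀ x ∈ P, -b0 ≤ Lb nu c x) :
    NN p del P (fun z => Lb nu c z + c0) < (⊤ : ℝ≥0∞) ∧ 0 < DD p P (fun z => Lb nu c z + c0) := by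
  have hvol : volume P < (⊤ : ℝ≥0∞) := h.bounded.measure_lt_top
  have hPm : MeasurableSet P := h.isOpen.measurableSet
  have hp0 : 0 < p := by linarith
  obtain ⟨C1, hC1⟩ := FF_le hp hdel
  obtain ⟨C2, hC2⟩ := Lb_energy h
  constructor
  · unfold NN
    rw [barc_grad_add]
    have hbd : ∀ x ∈ P, Real.exp (-p * (Lb nu c x + c0)) * FF p del (gradient (Lb nu c) x) ≤
        Real.exp (p * b0) * |C1| + |C2| ^ p := by
      intro x hx
      have hL := hb x hx
      have e0 : 0 < Real.exp (-p * (Lb nu c x + c0)) := Real.exp_pos _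
      have e1 : Real.exp (-p * (Lb nu c x + c0)) ≤ Real.exp (p * b0) := by
        apply Real.exp_le_exp.mpr
        nlinarith
      have e2 : Real.exp (-p * (Lb nu c x + c0)) ≤ Real.exp (-(Lb nu c x)) ^ p := by
        rw [← Real.exp_mul]
        apply Real.exp_le_exp.mpr
        nlinarith
      have e3 : Real.exp (-(Lb nu c x)) ^ p * ‖gradient (Lb nu c) x‖ ^ p ≤ |C2| ^ p := by
        rw [← Real.mul_rpow (Real.exp_pos _).le (norm_nonneg _)]
        apply Real.rpow_le_rpow (by positivity) _ hp0.le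
        exact (hC2 x hx).trans (le_abs_self _)
      have e4 : 0 ≤ ‖gradient (Lb nu c) x‖ ^ p := Real.rpow_nonneg (norm_nonneg _) _
      calc Real.exp (-p * (Lb nu c x + c0)) * FF p del (gradient (Lb nu c) x)
          ≤ Real.exp (-p * (Lb nu c x + c0)) * (|C1| + ‖gradient (Lb nu c) x‖ ^ p) := by
            apply mul_le_mul_of_nonneg_left _ e0.le
            have := hC1 (gradient (Lb nu c) x)
            have := le_abs_self C1
            linarith
        _ = Real.exp (-p * (Lb nu c x + c0)) * |C1| +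
            Real.exp (-p * (Lb nu c x + c0)) * ‖gradient (Lb nu c) x‖ ^ p := by ring
        _ ≤ Real.exp (p * b0) * |C1| +
            Real.exp (-(Lb nu c x)) ^ p * ‖gradient (Lb nu c) x‖ ^ p := by
            apply add_le_add
            · exact mul_le_mul_of_nonneg_right e1 (abs_nonneg _)
            · exact mul_le_mul_of_nonneg_right e2 e4
        _ ≤ _ := by linarith
    refine lt_of_le_of_lt (setLIntegral_mono' hPm fun x hx =>
      ENNReal.ofReal_le_ofReal (hbd x hx)) ?_
    rw [setLIntegral_const]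
    exact ENNReal.mul_lt_top ENNReal.ofReal_lt_top hvol
  · unfold DD
    have hcont : ContinuousOn (fun x => Real.exp (-p * (Lb nu c x + c0))) P := by
      have h1 : ContinuousOn (Lb nu c) P := (Lb_contDiffOn h).continuousOn
      exact Real.continuous_exp.comp_continuousOn
        (continuousOn_const.mul (h1.add continuousOn_const))
    have hint : IntegrableOn (fun x => Real.exp (-p * (Lb nu c x + c0))) P := by
      have hconst : IntegrableOn (fun _ : E => Real.exp (p * b0)) P := integrableOn_const hvol.ne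
      refine Integrable.mono' hconst (hcont.aestronglyMeasurable hPm) ?_
      rw [ae_restrict_iff' hPm]
      refine Eventually.of_forall fun x hx => ?_
      have hL := hb x hx
      rw [Real.norm_of_nonneg (Real.exp_pos _).le]
      apply Real.exp_le_exp.mpr
      nlinarith
    rw [setIntegral_pos_iff_support_of_nonneg_ae _ hint]
    · have hsupp : Function.support (fun x => Real.exp (-p * (Lb nu c x + c0))) ∩ P = P := by
        apply inter_eq_right.mpr
        intro x _
        exact (Real.exp_pos _).ne'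
      rw [hsupp]
      exact h.isOpen.measure_pos volume h.nonempty
    · exact Eventually.of_forall fun x => (Real.exp_pos _).le

/-- the slope of a convex function touching `B` from below -/
private theorem barc_touch {P : Set E} (ho : IsOpen P) {w B : E → ℝ} (hw : ConvexOn ℝ P w)
    (hwB : ∀ x ∈ P, w x ≤ B x) {x' : E} (hx' : x' ∈ P) (heq : w x' = B x')
    (hd : DifferentiableAt ℝ B x') {x : E} (hx : x ∈ P) :
    B x' - ‖gradient B x'‖ * ‖x - x'‖ ≤ w x := by
  obtain ⟨y, hy⟩ := subgradient ho hw hx'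
  have hyB : y = gradient B x' := by
    apply sub_unique ho hx' hd
    intro z hz
    have h1 := hy z hz
    have h2 := hwB z hz
    rw [← heq]
    linarith
  have h3 := hy x hx
  rw [hyB, heq] at h3
  have h4 := abs_real_inner_le_norm (gradient B x') (x - x')
  have h5 := neg_abs_le ⟪gradient B x', x - x'⟫
  linarith

theorem barrier {p del : ℝ} (hp : 1 < p) (hdel : 0 < del) {P : Set E} (hP : IsPoly P) :
    ∃ (a B : E → ℝ) (lmax : ℝ), Setup p del P a B lmax := by
  obtain ⟨n, nu, c, hu, hPe, hPb, hPn⟩ := hP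
  have h : PolyData n nu c P := ⟨hu, hPe, hPb, hPn⟩
  have ho := h.isOpen
  obtain ⟨m, hm⟩ := Lb_bdd_below h
  obtain ⟨b0, hb00, hb0⟩ : ∃ b0 : ℝ, 0 ≤ b0 ∧ ∀ x ∈ P, -b0 ≤ Lb nu c x := by
    refine ⟨max 0 (-m), le_max_left _ _, fun x hx => ?_⟩
    have h1 := hm x hx
    have h2 := le_max_right 0 (-m)
    linarith
  obtain ⟨k2, hk2, hup⟩ := sd_upper hp hdel h
  obtain ⟨k1, hk10, hk1, hlow⟩ := sd_lower hp hdel h
  have hL2 : ContDiffOn ℝ 2 (Lb nu c) P := Lb_contDiffOn h
  have ha2 : ContDiffOn ℝ 2 (fun z => k1 * Lb nu c z) P := contDiffOn_const.mul hL2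
  have hb2 : ContDiffOn ℝ 2 (fun z => k2 * Lb nu c z) P := contDiffOn_const.mul hL2
  have hca := c11_of_C2 ho ha2
  have hcb := c11_of_C2 ho hb2
  have hsub : ∀ R : ℝ, {x | x ∈ P ∧ SS nu c x ≤ R} ⊆ P := fun R x hx => hx.1
  obtain ⟨c0, hc0⟩ : ∃ c0, c0 = (1 - k1) * b0 := ⟨_, rfl⟩
  have hc00 : 0 ≤ c0 := by
    rw [hc0]
    exact mul_nonneg (by linarith) hb00
  -- lower bound of `sd a`
  obtain ⟨sa, hsa⟩ : ∃ sa : ℝ, ∀ x ∈ P, sa ≤ sd p del (fun z => k1 * Lb nu c z) x := by
    obtain ⟨R, hR⟩ := hlow 0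
    obtain ⟨C, hC0, hC⟩ := sd_bound (p := p) hdel ho hca (SS_proper h R) (hsub R)
    refine ⟨-C, fun x hx => ?_⟩
    rcases le_total R (SS nu c x) with h1 | h1
    · have := hR x hx h1
      linarith
    · exact (abs_le.mp (hC x ⟨hx, h1⟩)).1
  -- upper bound of `sd B`
  obtain ⟨sB, hsB⟩ : ∃ sB : ℝ, ∀ x ∈ P, sd p del (fun z => k2 * Lb nu c z) x ≤ sB := by
    obtain ⟨R, hR⟩ := hup 0
    obtain ⟨C, hC0, hC⟩ := sd_bound (p := p) hdel ho hcb (SS_proper h R) (hsub R)
    refine ⟨C, fun x hx => ?_⟩
    rcases le_total R (SS nu c x) with h1 | h1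
    · have := hR x hx h1
      linarith
    · exact (abs_le.mp (hC x ⟨hx, h1⟩)).2
  -- the level `A1`
  obtain ⟨A1, hA1⟩ : ∃ A1 : ℝ, ∀ x ∈ P, A1 ≤ k1 * Lb nu c x →
      sB + 1 ≤ sd p del (fun z => k1 * Lb nu c z) x := by
    obtain ⟨R, hR⟩ := hlow (sB + 1)
    obtain ⟨C, hC⟩ := barc_bound (SS_proper h R) (ha2.continuousOn.mono (hsub R))
    refine ⟨C + 1, fun x hx hax => ?_⟩
    rcases le_total R (SS nu c x) with h1 | h1
    · exact hR x hx h1
    · have := hC x ⟨hx, h1⟩
      have h2 : k1 * Lb nu c x ≤ C := this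
      linarith
  -- the diameter bound
  obtain ⟨dd, hdd⟩ : ∃ dd : ℝ, ∀ x ∈ P, ∀ x' ∈ P, ‖x - x'‖ ≤ dd := by
    obtain ⟨C, hC⟩ := Metric.isBounded_iff.mp hPb
    refine ⟨C, fun x hx x' hx' => ?_⟩
    rw [← dist_eq_norm]
    exact hC hx hx'
  obtain ⟨C', hC'⟩ : ∃ C' : ℝ, ∀ x ∈ P, C' < ‖gradient (fun z => k2 * Lb nu c z) x‖ * dd -
      k2 * Lb nu c x → sd p del (fun z => k2 * Lb nu c z) x ≤ sa - 1 := by
    obtain ⟨R, hR⟩ := hup (1 - sa)
    have hg : ContinuousOn (gradient (fun z => k2 * Lb nu c z)) P := hcb.lip.continuousOn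
    have hcont : ContinuousOn (fun x => ‖gradient (fun z => k2 * Lb nu c z) x‖ * dd -
        k2 * Lb nu c x) P := (hg.norm.mul continuousOn_const).sub hb2.continuousOn
    obtain ⟨C, hC⟩ := barc_bound (SS_proper h R) (hcont.mono (hsub R))
    refine ⟨C, fun x hx hlt => ?_⟩
    rcases le_total R (SS nu c x) with h1 | h1
    · have := hR x hx h1
      linarith
    · have h2 : ‖gradient (fun z => k2 * Lb nu c z) x‖ * dd - k2 * Lb nu c x ≤ C := hC x ⟨hx, h1⟩
      linarith
  obtain ⟨N, hN1, hN2⟩ : ∃ N : ℝ, c0 + (k2 - 1) * b0 ≤ N ∧ C' + A1 ≤ N :=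
    ⟨max (c0 + (k2 - 1) * b0) (C' + A1), le_max_left _ _, le_max_right _ _⟩
  obtain ⟨hNN, hDD⟩ := barc_start hp hdel h hc00 hb0
  have hB2 : ContDiffOn ℝ 2 (fun z => k2 * Lb nu c z + N) P := hb2.add contDiffOn_const
  refine ⟨fun z => k1 * Lb nu c z, fun z => k2 * Lb nu c z + N,
    (NN p del P (fun z => Lb nu c z + c0)).toReal / DD p P (fun z => Lb nu c z + c0),
    { hp := hp
      hdel := hdel
      isOpen := ho
      convex := h.convex
      bounded := hPb
      nonempty := hPn
      a2 := ha2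
      B2 := hB2
      proper := ?_
      start := ?_
      cc := ?_ }⟩
  · intro R
    have e : {x | x ∈ P ∧ k1 * Lb nu c x ≤ R} = {x | x ∈ P ∧ Lb nu c x ≤ R / k1} := by
      ext x
      constructor
      · rintro ⟨h1, h2⟩
        refine ⟨h1, ?_⟩
        rw [le_div_iff₀ hk10, mul_comm]
        exact h2
      · rintro ⟨h1, h2⟩
        refine ⟨h1, ?_⟩
        rw [le_div_iff₀ hk10, mul_comm] at h2
        exact h2
    change IsCompact {x | x ∈ P ∧ k1 * Lb nu c x ≤ R}
    rw [e]
    exact Lb_proper h _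
  · refine ⟨fun z => Lb nu c z + c0, ⟨?_, ?_, ?_⟩, ?_⟩
    · exact (Lb_convex h).add_const c0
    · intro x hx
      have h1 := hb0 x hx
      have h2 : 0 ≤ (1 - k1) * (Lb nu c x + b0) := mul_nonneg (by linarith) (by linarith)
      rw [hc0]
      linarith
    · intro x hx
      have h1 := hb0 x hx
      have h2 : 0 ≤ (k2 - 1) * (Lb nu c x + b0) := mul_nonneg (by linarith) (by linarith)
      linarith
    · rw [div_mul_cancel₀ _ hDD.ne', ENNReal.ofReal_toReal hNN.ne]
  · intro w hw l hl
    by_cases hcase : ∃ x ∈ P, w x = k1 * Lb nu c x ∧ k1 * Lb nu c x < A1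
    · obtain ⟨x, hx, hwx, hxA⟩ := hcase
      refine ⟨l - sa + 1 / 2, ?_, ?_⟩
      · intro x1 hx1 _
        have := hsa x1 hx1
        linarith
      · intro x' hx' hwx'
        rw [barc_sd_add]
        have hd : DifferentiableAt ℝ (fun z => k2 * Lb nu c z + N) x' :=
          (hB2.differentiableOn (by norm_num)).differentiableAt (ho.mem_nhds hx')
        have h1 := barc_touch ho hw.conv hw.ub hx' hwx' hd hx
        rw [barc_grad_add] at h1
        have h2 := hdd x hx x' hx'
        have h3 : ‖gradient (fun z => k2 * Lb nu c z) x'‖ * ‖x - x'‖ ≤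
            ‖gradient (fun z => k2 * Lb nu c z) x'‖ * dd :=
          mul_le_mul_of_nonneg_left h2 (norm_nonneg _)
        have h4 : C' < ‖gradient (fun z => k2 * Lb nu c z) x'‖ * dd - k2 * Lb nu c x' := by
          linarith
        have h5 := hC' x' hx' h4
        linarith
    · refine ⟨l - sB - 1 / 2, ?_, ?_⟩
      · intro x hx hwx
        have h1 : A1 ≤ k1 * Lb nu c x := by
          by_contra hcon
          push Not at hcon
          exact hcase ⟨x, hx, hwx, hcon⟩
        have h2 := hA1 x hx h1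
        linarith
      · intro x hx _
        rw [barc_sd_add]
        have := hsB x hx
        linarith

end Pool.Agent.PLap
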