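import Pool.Agent.PLap.LamE

/-!
Blaschke: part (a) from a bounded minimising sequence.

Let Om_k in KK, volume 1, diameters <= D0. Translate so that a point of Om_k is 0: Om_k in the closed ball B(0,D0). The closures K_k are nonempty compact subsets of the compact metric space
closedBall 0 D0; `TopologicalSpace.NonemptyCompacts` of a compact space is compact metrizable (Hausdorff distance), so a subsequence converges to a nonempty compact K in Hausdorff distance. K is convex (limits of convex sets: points of K are limits of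
points of K_k). volume K >= 1: for every eps, K_k is contained in the closed eps-thickening of K for large k, volume (cthickening eps K) -> volume K as eps -> 0 (tendsto_measure_cthickening_of_isCompact).
So interior K is nonempty (a convex set with empty interior has measure zero: Convex.addHaar_frontier, volume (frontier K) = 0) and Om = interior K is in KK. Translate again so that 0 is in interior K, ball(0,rho) in K.
For 0 < s < 1 and large k: (1-s) interior K ⊆ Om_k ⊆ (1+s) interior K up to the translation: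
 upper: K_k in eps-neighbourhood of K ⊆ K + (eps/rho) K ⊆ (1+ eps/rho) K; lower: K in eps-neighbourhood of K_k, if ball(0,rho) ⊆ K then for eps < rho small (1 - eps/rho) K ⊆ K_k by the separation argument
 (if z in K, (1-eps/rho) z not in K_k, separate by a unit functional nu: <nu, (1-eps/rho) z> > sup_{K_k} <nu,.> >= h_K(nu) - eps, while h_K(nu) >= rho, h_K(nu) >= <nu,z>: (1-eps/rho)<nu,z> <= h_K(nu) - eps if <nu,z> >= 0.. contradiction).
lam_anti and lam_smul: (1+s)^(-p) lam p Om <= lam p Om_k <= (1-s)^(-p) lam p Om; the same for q, so RR p q Om_k -> RR p q Om (all lam positive by hypothesis hpos).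
Statement: if RR p q (Om_k) -> I then some Om in KK has RR p q Om = I. (RR_vadd, RR_smul available in LamE.)
-/

set_option autoImplicit false

open MeasureTheory Set Filter Topology
open scoped ENNReal NNReal ContDiff RealInnerProductSpace Pointwise

namespace Pool.Agent.PLap

private theorem conv_limit {K : Set E} (hK : IsCompact K) {A : ℕ → Set E}
    (hA : ∀ k, Convex ℝ (A k))
    (h : ∀ ε : ℝ, 0 < ε → ∀ᶠ k in atTop, A k ⊆ Metric.thickening ε K ∧
      K ⊆ Metric.thickening ε (A k)) : Convex ℝ K := by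
  intro x hx y hy a b ha hb hab
  rw [← hK.isClosed.closure_eq, Metric.closure_eq_iInter_thickening]
  simp only [mem_iInter]
  intro δ hδ
  obtain ⟨k, h1, h2⟩ := (h (δ / 2) (by positivity)).exists
  have h3 : a • x + b • y ∈ Metric.thickening (δ / 2) (A k) :=
    ((hA k).thickening _) (h2 hx) (h2 hy) ha hb hab
  have h4 := Metric.thickening_subset_of_subset (δ / 2) h1 h3
  have h5 := Metric.thickening_thickening_subset (δ / 2) (δ / 2) K h4
  rwa [add_halves] at h5

private theorem vol_limit {K : Set E} (hK : IsCompact K) {A : ℕ → Set E}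
    (hA : ∀ k, volume (A k) = 1)
    (h : ∀ ε : ℝ, 0 < ε → ∀ᶠ k in atTop, A k ⊆ Metric.thickening ε K ∧
      K ⊆ Metric.thickening ε (A k)) : 1 ≤ volume K := by
  have h1 := tendsto_measure_cthickening_of_isCompact (μ := (volume : Measure E)) hK
  have h2 := h1.mono_left (nhdsWithin_le_nhds (s := Ioi 0))
  refine ge_of_tendsto h2 ?_
  filter_upwards [self_mem_nhdsWithin] with δ hδ
  obtain ⟨k, h3, -⟩ := (h δ hδ).exists
  rw [← hA k]
  exact measure_mono (h3.trans (Metric.thickening_subset_cthickening δ K))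

private theorem int_nonempty {K : Set E} (hK : Convex ℝ K) (hv : 1 ≤ volume K) :
    (interior K).Nonempty := by
  rw [nonempty_iff_ne_empty]
  intro h0
  have h1 : K ⊆ frontier K := by
    rw [frontier, h0, sdiff_empty]
    exact subset_closure
  have h2 := measure_mono (μ := (volume : Measure E)) h1
  rw [hK.addHaar_frontier volume] at h2
  exact absurd (hv.trans h2) (by simp)

private theorem sandwich {A B : Set E} {ρ ε : ℝ} (hA : Convex ℝ A) (hAo : IsOpen A)
    (hAn : A.Nonempty) (hB : Convex ℝ B) (hBo : IsOpen B) (hBb : Bornology.IsBounded B)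
    (hρ : 0 < ρ) (hball : Metric.ball 0 ρ ⊆ B) (hε : 0 < ε) (hερ : ε < ρ)
    (h1 : A ⊆ Metric.thickening ε B) (h2 : B ⊆ Metric.thickening ε A) :
    A ⊆ (1 + ε / ρ) • B ∧ (1 - ε / ρ) • B ⊆ A := by
  have hs : 0 < ε / ρ := by positivity
  have hs1 : ε / ρ < 1 := by rwa [div_lt_one hρ]
  have key : ∀ v : E, ‖v‖ < ε → ∃ b ∈ B, v = (ε / ρ) • b := by
    intro v hv
    refine ⟨(ρ / ε) • v, hball ?_, ?_⟩
    · rw [Metric.mem_ball, dist_zero_right, norm_smul, Real.norm_of_nonneg (by positivity)]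
      calc ρ / ε * ‖v‖ < ρ / ε * ε := by
            exact mul_lt_mul_of_pos_left hv (by positivity)
        _ = ρ := by field_simp
    · rw [smul_smul]
      have : ε / ρ * (ρ / ε) = 1 := by field_simp
      rw [this, one_smul]
  constructor
  · intro a ha
    obtain ⟨b, hb, hab⟩ := Metric.mem_thickening_iff.1 (h1 ha)
    obtain ⟨c, hc, hc'⟩ := key (a - b) (by rwa [← dist_eq_norm])
    rw [hB.add_smul zero_le_one hs.le, one_smul]
    refine ⟨b, hb, (ε / ρ) • c, ⟨c, hc, rfl⟩, ?_⟩
    show b + (ε / ρ) • c = a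
    rw [← hc']
    abel
  · have h3 : (1 - ε / ρ) • B ⊆ closure A := by
      rintro _ ⟨b, hb, rfl⟩
      by_contra hz
      obtain ⟨f, u, hf1, hf2⟩ := geometric_hahn_banach_closed_point hA.closure isClosed_closure hz
      have hfb : BddAbove (f '' B) := by
        obtain ⟨R, hR⟩ := (hBb.image f).bddAbove
        exact ⟨R, hR⟩
      have hle : ∀ x ∈ B, f x ≤ sSup (f '' B) := fun x hx => le_csSup hfb ⟨x, hx, rfl⟩
      have hsup : sSup (f '' B) ≤ u + ε / ρ * sSup (f '' B) := by
        refine csSup_le ⟨_, b, hb, rfl⟩ ?_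
        rintro _ ⟨x, hx, rfl⟩
        obtain ⟨a, ha, hxa⟩ := Metric.mem_thickening_iff.1 (h2 hx)
        obtain ⟨c, hc, hc'⟩ := key (x - a) (by rwa [← dist_eq_norm])
        have e1 : x = a + (ε / ρ) • c := by rw [← hc']; abel
        have e2 : f x = f a + ε / ρ * f c := by
          conv_lhs => rw [e1]
          rw [map_add, map_smul, smul_eq_mul]
        rw [e2]
        have e3 := hf1 a (subset_closure ha)
        have e4 := mul_le_mul_of_nonneg_left (hle c hc) hs.le
        linarith
      have e5 : f ((fun x => (1 - ε / ρ) • x) b) = (1 - ε / ρ) * f b := by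
        simp only [map_smul, smul_eq_mul]
      rw [e5] at hf2
      have e6 := mul_le_mul_of_nonneg_left (hle b hb) (sub_nonneg.2 hs1.le)
      linarith
    have h4 : IsOpen ((1 - ε / ρ) • B) := hBo.smul₀ (by linarith)
    have h5 := h4.subset_interior_iff.2 h3
    have h6 : (interior A).Nonempty := by rwa [hAo.interior_eq]
    rwa [hA.interior_closure_eq_interior_of_nonempty_interior h6, hAo.interior_eq] at h5

/-- Blaschke selection. -/
private theorem selection {D0 : ℝ} {A : ℕ → Set E} (hne : ∀ k, (A k).Nonempty)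
    (hA : ∀ k, A k ⊆ Metric.closedBall 0 D0) :
    ∃ (K : Set E) (φ : ℕ → ℕ), IsCompact K ∧ K.Nonempty ∧ StrictMono φ ∧
      ∀ ε : ℝ, 0 < ε → ∀ᶠ k in atTop, A (φ k) ⊆ Metric.thickening ε K ∧
        K ⊆ Metric.thickening ε (A (φ k)) := by
  have hcl : ∀ k, closure (A k) ⊆ Metric.closedBall 0 D0 := fun k =>
    closure_minimal (hA k) Metric.isClosed_closedBall
  have hX : CompactSpace (Metric.closedBall (0 : E) D0) :=
    isCompact_iff_compactSpace.1 (isCompact_closedBall 0 D0)
  let S : ℕ → TopologicalSpace.NonemptyCompacts (Metric.closedBall (0 : E) D0) := fun k =>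
    ⟨⟨Subtype.val ⁻¹' (closure (A k)), (isClosed_closure.preimage continuous_subtype_val).isCompact⟩, by
      obtain ⟨x, hx⟩ := hne k
      exact ⟨⟨x, hA k hx⟩, subset_closure hx⟩⟩
  obtain ⟨T, φ, hφ, hT⟩ := CompactSpace.tendsto_subseq S
  refine ⟨Subtype.val '' (T : Set (Metric.closedBall (0 : E) D0)), φ,
    T.isCompact.image continuous_subtype_val, T.nonempty.image _, hφ, ?_⟩
  intro ε hε
  have h1 : ∀ᶠ k in atTop, edist (S (φ k)) T < ENNReal.ofReal ε :=
    (EMetric.tendsto_nhds.1 hT) _ (ENNReal.ofReal_pos.2 hε)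
  filter_upwards [h1] with k hk
  have hk' : Metric.hausdorffEDist (S (φ k) : Set (Metric.closedBall (0 : E) D0))
      (T : Set (Metric.closedBall (0 : E) D0)) < ENNReal.ofReal ε := hk
  constructor
  · intro a ha
    have ha' : (⟨a, hA _ ha⟩ : Metric.closedBall (0 : E) D0) ∈ (S (φ k) : Set _) :=
      subset_closure ha
    obtain ⟨y, hy, hay⟩ := Metric.exists_edist_lt_of_hausdorffEDist_lt ha' hk'
    rw [Metric.mem_thickening_iff]
    refine ⟨y.1, ⟨y, hy, rfl⟩, ?_⟩
    rw [edist_dist, ENNReal.ofReal_lt_ofReal_iff hε] at hay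
    exact hay
  · rintro _ ⟨y, hy, rfl⟩
    rw [Metric.hausdorffEDist_comm] at hk'
    obtain ⟨x, hx, hxy⟩ := Metric.exists_edist_lt_of_hausdorffEDist_lt hy hk'
    have hx' : x.1 ∈ closure (A (φ k)) := hx
    rw [← Metric.thickening_closure, Metric.mem_thickening_iff]
    refine ⟨x.1, hx', ?_⟩
    rw [edist_dist, ENNReal.ofReal_lt_ofReal_iff hε] at hxy
    exact hxy


private theorem lam_limit {p : ℝ} (hp : 1 < p) {B : Set E} (hBo : IsOpen B) (hBn : B.Nonempty)
    {A : ℕ → Set E} (hAo : ∀ k, IsOpen (A k)) (hAn : ∀ k, (A k).Nonempty)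
    (h : ∀ s : ℝ, 0 < s → s < 1 → ∀ᶠ k in atTop, A k ⊆ (1 + s) • B ∧ (1 - s) • B ⊆ A k) :
    Tendsto (fun k => lam p (A k)) atTop (𝓝 (lam p B)) := by
  have c1 : ContinuousAt (fun s : ℝ => (1 + s) ^ (-p) * lam p B) 0 := by
    refine ContinuousAt.mul (ContinuousAt.rpow_const (by fun_prop) (Or.inl (by norm_num)))
      continuousAt_const
  have c2 : ContinuousAt (fun s : ℝ => (1 - s) ^ (-p) * lam p B) 0 := by
    refine ContinuousAt.mul (ContinuousAt.rpow_const (by fun_prop) (Or.inl (by norm_num)))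
      continuousAt_const
  have v1 : (1 + (0 : ℝ)) ^ (-p) * lam p B = lam p B := by
    rw [add_zero, Real.one_rpow, one_mul]
  have v2 : (1 - (0 : ℝ)) ^ (-p) * lam p B = lam p B := by
    rw [sub_zero, Real.one_rpow, one_mul]
  have hI : ∀ᶠ s : ℝ in 𝓝[>] 0, 0 < s ∧ s < 1 := by
    have := Ioo_mem_nhdsGT (show (0 : ℝ) < 1 by norm_num)
    filter_upwards [this] with s hs using hs
  rw [tendsto_order]
  constructor
  · intro a ha
    rw [← v1] at ha
    have e1 : ∀ᶠ s : ℝ in 𝓝[>] 0, a < (1 + s) ^ (-p) * lam p B :=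
      (c1.eventually_const_lt ha).filter_mono nhdsWithin_le_nhds
    obtain ⟨s, hs, ⟨hs0, hs1⟩⟩ := (e1.and hI).exists
    filter_upwards [h s hs0 hs1] with k hk
    refine hs.trans_le ?_
    rw [← lam_smul hp (by linarith) B]
    exact lam_anti hp (hAo k) (hAn k) hk.1
  · intro a ha
    rw [← v2] at ha
    have e1 : ∀ᶠ s : ℝ in 𝓝[>] 0, (1 - s) ^ (-p) * lam p B < a :=
      (c2.eventually_lt_const ha).filter_mono nhdsWithin_le_nhds
    obtain ⟨s, hs, ⟨hs0, hs1⟩⟩ := (e1.and hI).exists
    filter_upwards [h s hs0 hs1] with k hk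
    refine lt_of_le_of_lt ?_ hs
    rw [← lam_smul hp (by linarith) B]
    exact lam_anti hp (hBo.smul₀ (by linarith)) (hBn.smul_set) hk.2

theorem blaschke {p q : ℝ} (hq : 1 < q) (hp : 1 < p)
    (hpos : ∀ r : ℝ, 1 < r → ∀ Om ∈ KK, 0 < lam r Om)
    {Om : ℕ → Set E} (hOm : ∀ k, Om k ∈ KK) (hvol : ∀ k, volume (Om k) = 1) {D0 : ℝ}
    (hdiam : ∀ k, Metric.diam (Om k) ≤ D0) {I : ℝ}
    (hlim : Tendsto (fun k => RR p q (Om k)) atTop (𝓝 I)) :
    ∃ Om0 ∈ KK, RR p q Om0 = I := by
  choose x hx using fun k => (hOm k).2.2.2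
  -- first translation
  set A : ℕ → Set E := fun k => (-(x k)) +ᵥ Om k with hA
  have hAo : ∀ k, IsOpen (A k) := fun k => (hOm k).1.vadd _
  have hAc : ∀ k, Convex ℝ (A k) := fun k => (hOm k).2.1.vadd _
  have hAn : ∀ k, (A k).Nonempty := fun k => (hOm k).2.2.2.vadd_set
  have hAv : ∀ k, volume (A k) = 1 := fun k => by rw [hA, measure_vadd, hvol k]
  have hAb : ∀ k, A k ⊆ Metric.closedBall 0 D0 := by
    rintro k _ ⟨y, hy, rfl⟩
    rw [mem_closedBall_zero_iff]
    show ‖-x k + y‖ ≤ D0
    rw [neg_add_eq_sub, ← dist_eq_norm]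
    exact (Metric.dist_le_diam_of_mem (hOm k).2.2.1 hy (hx k)).trans (hdiam k)
  obtain ⟨K, φ, hKc, hKn, hφ, hK⟩ := selection hAn hAb
  have hKconv : Convex ℝ K := conv_limit hKc (fun k => hAc (φ k)) hK
  have hKvol : 1 ≤ volume K := vol_limit hKc (fun k => hAv (φ k)) hK
  obtain ⟨c, hc⟩ := int_nonempty hKconv hKvol
  -- second translation
  set B : Set E := -c +ᵥ interior K with hB
  have hBo : IsOpen B := isOpen_interior.vadd _
  have hBc : Convex ℝ B := hKconv.interior.vadd _
  have hB0 : (0 : E) ∈ B := ⟨c, hc, by show -c + c = 0; exact neg_add_cancel c⟩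
  have hBb : Bornology.IsBounded B := (hKc.isBounded.subset interior_subset).vadd _
  obtain ⟨ρ, hρ, hball⟩ := Metric.isOpen_iff.1 hBo 0 hB0
  have hth : ∀ ε : ℝ, Metric.thickening ε K = Metric.thickening ε (interior K) := by
    intro ε
    rw [← Metric.thickening_closure (s := interior K),
      hKconv.closure_interior_eq_closure_of_nonempty_interior ⟨c, hc⟩, Metric.thickening_closure]
  have hsand : ∀ s : ℝ, 0 < s → s < 1 → ∀ᶠ k in atTop,
      (-c +ᵥ A (φ k)) ⊆ (1 + s) • B ∧ (1 - s) • B ⊆ (-c +ᵥ A (φ k)) := by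
    intro s hs0 hs1
    filter_upwards [hK (s * ρ) (by positivity)] with k hk
    have e : s = s * ρ / ρ := by field_simp
    rw [e]
    refine sandwich ((hAc _).vadd _) ((hAo _).vadd _) ((hAn _).vadd_set) hBc hBo hBb hρ hball
      (by positivity) (by nlinarith) ?_ ?_
    · rintro _ ⟨y, hy, rfl⟩
      have h1 := hk.1 hy
      rw [hth, Metric.mem_thickening_iff] at h1
      obtain ⟨z, hz, hyz⟩ := h1
      rw [Metric.mem_thickening_iff]
      refine ⟨-c +ᵥ z, ⟨z, hz, rfl⟩, ?_⟩
      simpa using hyz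
    · rintro _ ⟨y, hy, rfl⟩
      have h1 := hk.2 (interior_subset hy)
      rw [Metric.mem_thickening_iff] at h1
      obtain ⟨z, hz, hyz⟩ := h1
      rw [Metric.mem_thickening_iff]
      refine ⟨-c +ᵥ z, ⟨z, hz, rfl⟩, ?_⟩
      simpa using hyz
  have hBKK : B ∈ KK := ⟨hBo, hBc, hBb, ⟨0, hB0⟩⟩
  have hl : ∀ r : ℝ, 1 < r → Tendsto (fun k => lam r (Om (φ k))) atTop (𝓝 (lam r B)) := by
    intro r hr
    have h1 := lam_limit hr hBo ⟨0, hB0⟩ (A := fun k => -c +ᵥ A (φ k))
      (fun k => (hAo _).vadd _) (fun k => (hAn _).vadd_set) hsand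
    refine h1.congr fun k => ?_
    rw [lam_vadd, hA, lam_vadd]
  refine ⟨B, hBKK, ?_⟩
  have hlp := (hl p hp).rpow_const (p := 1 / p) (Or.inr (by positivity))
  have hlq := (hl q hq).rpow_const (p := 1 / q) (Or.inr (by positivity))
  have hne : lam q B ^ (1 / q) ≠ 0 := (Real.rpow_pos_of_pos (hpos q hq B hBKK) _).ne'
  have hlim2 := hlp.div hlq hne
  exact tendsto_nhds_unique hlim2 (hlim.comp hφ.tendsto_atTop)

end Pool.Agent.PLap
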