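import Pool.Agent.PLap.Cpt
import Pool.Agent.PLap.Rad

/-!
Brk: the competitor v_t. This is the heart of the existence proof.

Write y_z = gradient w z, tg w z x = w z + <y_z, x - z>, Br(x,z) = n0 x y_z - cc y_z * tg w z x, D(x,z) = chi(y_z) * Br(x,z) and
v_t(x) = sup over z in P of tg w z x + t D(x,z), 0 < t <= 1.
(1) K1 = {z in P : |y_z| <= R} is compact (grad_proper). D(x,z) = 0 for z in P minus K1. D is continuous on E x K1 (grad continuous on P), so
|D| <= C on P x K1 (closure of P is compact), also |tg w z x| <= C' there. Hence the supremum is finite.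
(2) v_t is convex on P: for each z, x -> tg w z x + t D(x,z) is convex (n0(.,y) convex, chi >= 0, tg affine in x), and a finite supremum of convex functions is convex.
(3) v_t(x) >= w(x) + t D(x,x) (take z = x: tg w x x = w x). For z in P minus K1 the term is tg w z x <= w x. So
w(x) + t D(x,x) <= v_t(x) <= max(w x, sup_{z in K1}(tg w z x + t D(x,z))) <= max (w x, ...) and |v_t - w| <= C t on P
(if K1 is empty v_t = w: note sup over z of tg w z x = w x, and then D = 0 everywhere and the claim is 0 <= 0).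
(4) K2 = {x in P : a x <= C + C'} is compact and v_t = w on P minus K2: there w >= a > C' + C >= every term with z in K1, t <= 1; and v_t(x) >= tg w x x + t D(x,x) where x itself is not in K1
if w(x) > C'... (enlarge K2 to contain K1: K2 = {a <= C+C'} union K1; for x not in K1 D(x,x) = 0 so v_t(x) >= w(x)).
(5) v_t -> derivative: for each x in P, (v_t(x) - w(x))/t -> D(x,x) as t -> 0+. Lower bound from (3). Upper bound: otherwise there are eps > 0, t_n -> 0, z_n in K1 with
tg w z_n x + t_n D(x,z_n) >= w x + t_n (D(x,x) + eps); z_n -> z* (subsequence), in the limit tg w z* x >= w x, so = w x, so z -> tg w z* . is a supporting plane at x, y_{z*} = y_x (sub_unique), and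
D(x,z*) = chi(y_x)(n0 x y_x - cc y_x w x) = D(x,x). But tg w z_n x <= w x gives D(x,z_n) >= D(x,x) + eps: contradiction in the limit. (Case max with w x: needs D(x,x) >= 0 or handle the terms with z not in K1:
there D(x,z) = 0 and tg w z x <= w x; if x in K1... if D(x,x) < 0 then such terms could be larger than w + t D(x,x): take z_n in P minus K1, with tg w z_n x > w x + t_n(D(x,x)+eps); z_n stays in a compact subset of P since
tg w z x <= w x - something for z near the boundary [w(x) - tg w z x = w(x) - w(z) - <y_z, x - z>; as z -> boundary with x fixed: for the fixed ball B(x,r) in P, w(x + r u) >= w z + <y_z, x + r u - z> with u = y_z/|y_z|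
gives tg w z x <= C - r |y_z| -> -oo since |y_z| -> oo by grad_proper]; the limit z* has y_{z*} = y_x, |y_x| = lim |y_{z_n}| >= R so chi(y_x) = 0 by continuity (chi vanishes outside the closed ball of radius R, hence also on the sphere by continuity), so D(x,x) = 0: contradiction with eps.)
To avoid this case distinction one may take the supremum over z in P with the joint function D, which is continuous on P x P (chi(y_z) is continuous in z), bounded on P x P
(D(x,z) = 0 off K1): maximising sequences z_n in P for t_n -> 0 satisfy tg w z_n x -> w x, hence stay in a compact subset of P by the remark in brackets, limit z* has y_{z*} = y_x.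
(6) v_t in Adm for small t. Lower bound v_t >= a: v_t(x) >= w(x) + t D(x,x). The set {x in K1 : Br(x,x) <= 0} is compact and by hlow contains no contact point, so w - a >= c > 0 there; |D| <= C so t <= c/C is fine;
for other x in K1 D(x,x) >= 0; for x in P minus K1 D(x,x) = 0.
Upper bound v_t <= B for small t: suppose not: t_n -> 0, x_n in K2, z_n in K1 (terms with z not in K1 are <= w <= B) with tg w z_n x_n + t_n D(x_n,z_n) > B x_n >= w x_n >= tg w z_n x_n; so D(x_n,z_n) > 0, hence Br(x_n,z_n) > 0.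
Subsequence x_n -> x*, z_n -> z*: B x* = w x* = tg w z* x*, so y_{z*} = y_{x*} (so |y_{x*}| <= R) and Br(x*,z*) = Br(x*,x*) >= 0, contradicting hup.
(7) hEL with v = v_t, divide by t, let t -> 0: (v_t - w)/t is bounded by C, supported in K2, converges pointwise to D(x,x); gg is integrable on K2: dominated convergence gives the claim
(D(x,x) = chi(y_x)(n0 x y_x - cc y_x w x)).
-/

set_option autoImplicit false

open MeasureTheory Set Filter Topology
open scoped ENNReal NNReal ContDiff RealInnerProductSpace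

namespace Pool.Agent.PLap

theorem grad_proper {P : Set E} (ho : IsOpen P) (hc : Convex ℝ P) (hb : Bornology.IsBounded P)
    {a w : E → ℝ} (hprop : ∀ R : ℝ, IsCompact {x | x ∈ P ∧ a x ≤ R})
    (hw : ConvexOn ℝ P w) (haw : ∀ x ∈ P, a x ≤ w x) (hd : ∀ x ∈ P, DifferentiableAt ℝ w x)
    (R : ℝ) : IsCompact {x | x ∈ P ∧ ‖gradient w x‖ ≤ R} := by
  rcases P.eq_empty_or_nonempty with h | ⟨x0, hx0⟩
  · have : {x | x ∈ P ∧ ‖gradient w x‖ ≤ R} = ∅ := by
      ext x
      simp [h]
    rw [this]
    exact isCompact_empty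
  obtain ⟨C, hC⟩ := Metric.isBounded_iff.1 hb
  have hK := hprop (w x0 + |R| * C)
  have hg := grad_continuousOn ho hw hd
  have hcl : IsClosed ({x | x ∈ P ∧ a x ≤ w x0 + |R| * C} ∩
      gradient w ⁻¹' Metric.closedBall 0 R) :=
    (hg.mono (fun x hx => hx.1)).preimage_isClosed_of_isClosed hK.isClosed Metric.isClosed_closedBall
  have heq : {x | x ∈ P ∧ ‖gradient w x‖ ≤ R} = {x | x ∈ P ∧ a x ≤ w x0 + |R| * C} ∩
      gradient w ⁻¹' Metric.closedBall 0 R := by
    ext x
    constructor
    · rintro ⟨hx, hx2⟩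
      refine ⟨⟨hx, ?_⟩, ?_⟩
      · have h1 := grad_le ho hw hx (hd x hx) hx0
        have h2 : |⟪gradient w x, x0 - x⟫| ≤ ‖gradient w x‖ * ‖x0 - x‖ := abs_real_inner_le_norm _ _
        have h3 : ‖x0 - x‖ ≤ C := by
          rw [← dist_eq_norm]
          exact hC hx0 hx
        have h4 : ‖gradient w x‖ * ‖x0 - x‖ ≤ |R| * C :=
          mul_le_mul (hx2.trans (le_abs_self R)) h3 (norm_nonneg _) (abs_nonneg R)
        have h5 := (abs_le.1 (h2.trans h4)).1
        have h6 := haw x hx
        linarith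
      · rw [mem_preimage, mem_closedBall_zero_iff]
        exact hx2
    · rintro ⟨⟨hx, _⟩, hx2⟩
      rw [mem_preimage, mem_closedBall_zero_iff] at hx2
      exact ⟨hx, hx2⟩
  rw [heq]
  exact hK.of_isClosed_subset hcl inter_subset_left

/-- the bracket at `x`, in terms of the tangent plane at `z` -/
noncomputable def brk (w : E → ℝ) (n0 : E → E → ℝ) (cc : E → ℝ) (x z : E) : ℝ :=
  n0 x (gradient w z) - cc (gradient w z) * tg w z x

/-- the competitor: supremum of the tilted tangent planes -/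
noncomputable def vt (P : Set E) (w : E → ℝ) (D : E → E → ℝ) (t : ℝ) (x : E) : ℝ :=
  sSup ((fun z => tg w z x + t * D x z) '' P)

theorem Brk_tg_self (w : E → ℝ) (x : E) : tg w x x = w x := by
  unfold tg
  rw [sub_self, inner_zero_right, add_zero]

theorem Brk_tg_cont {P : Set E} {w : E → ℝ} (hwc : ContinuousOn w P)
    (hg : ContinuousOn (gradient w) P) :
    ContinuousOn (fun q : E × E => tg w q.2 q.1) (univ ×ˢ P) := by
  have h0 : MapsTo (fun q : E × E => q.2) (univ ×ˢ P) P := fun q hq => hq.2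
  have h1 : ContinuousOn (fun q : E × E => w q.2) (univ ×ˢ P) :=
    hwc.comp continuous_snd.continuousOn h0
  have h2 : ContinuousOn (fun q : E × E => gradient w q.2) (univ ×ˢ P) :=
    hg.comp continuous_snd.continuousOn h0
  have h3 : ContinuousOn (fun q : E × E => q.1 - q.2) (univ ×ˢ P) :=
    (continuous_fst.sub continuous_snd).continuousOn
  exact h1.add (h2.inner (𝕜 := ℝ) h3)

theorem Brk_brk_cont {P : Set E} {w : E → ℝ} (hwc : ContinuousOn w P)
    (hg : ContinuousOn (gradient w) P) {n0 : E → E → ℝ}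
    (hn0 : Continuous (fun z : E × E => n0 z.1 z.2)) {cc : E → ℝ} (hcc : Continuous cc) :
    ContinuousOn (fun q : E × E => brk w n0 cc q.1 q.2) (univ ×ˢ P) := by
  have h0 : MapsTo (fun q : E × E => q.2) (univ ×ˢ P) P := fun q hq => hq.2
  have h2 : ContinuousOn (fun q : E × E => gradient w q.2) (univ ×ˢ P) :=
    hg.comp continuous_snd.continuousOn h0
  have h4 : ContinuousOn (fun q : E × E => n0 q.1 (gradient w q.2)) (univ ×ˢ P) :=
    hn0.comp_continuousOn (continuous_fst.continuousOn.prodMk h2)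
  exact h4.sub ((hcc.comp_continuousOn h2).mul (Brk_tg_cont hwc hg))

/-- equality in the tangent plane inequality forces equal gradients -/
theorem Brk_eq_grad {P : Set E} (ho : IsOpen P) {w : E → ℝ} (hw : ConvexOn ℝ P w)
    (hd : ∀ x ∈ P, DifferentiableAt ℝ w x) {x z : E} (hx : x ∈ P) (hz : z ∈ P)
    (h : tg w z x = w x) : gradient w z = gradient w x := by
  refine sub_unique ho hx (hd x hx) fun y hy => ?_
  have h1 := grad_le ho hw hz (hd z hz) hy
  unfold tg at h
  have h2 : ⟪gradient w z, y - z⟫ = ⟪gradient w z, x - z⟫ + ⟪gradient w z, y - x⟫ := by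
    rw [← inner_add_right]
    congr 1
    abel
  linarith

/-- far away slopes: the tangent planes at points with a large gradient are far below `w x` -/
theorem Brk_far {P : Set E} (ho : IsOpen P) {w : E → ℝ} (hw : ConvexOn ℝ P w)
    (hd : ∀ x ∈ P, DifferentiableAt ℝ w x) {x : E} (hx : x ∈ P) :
    ∃ R' : ℝ, ∀ z ∈ P, R' < ‖gradient w z‖ → tg w z x ≤ w x - 1 := by
  obtain ⟨r, hr, hrP⟩ := Metric.isOpen_iff.1 ho x hx
  have hcb : Metric.closedBall x (r / 2) ⊆ P :=
    (Metric.closedBall_subset_ball (by linarith)).trans hrP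
  have hwc : ContinuousOn w (Metric.closedBall x (r / 2)) := fun y hy =>
    (hd y (hcb hy)).continuousAt.continuousWithinAt
  obtain ⟨M, hM⟩ := (isCompact_closedBall x (r / 2)).exists_bound_of_continuousOn hwc
  refine ⟨max 0 ((M - w x + 1) / (r / 2)), fun z hz hz2 => ?_⟩
  have hg0 : 0 < ‖gradient w z‖ := (le_max_left _ _).trans_lt hz2
  have hg1 : (M - w x + 1) / (r / 2) < ‖gradient w z‖ := (le_max_right _ _).trans_lt hz2
  rw [div_lt_iff₀ (by linarith)] at hg1
  have hy : x + ((r / 2) * ‖gradient w z‖⁻¹) • gradient w z ∈ Metric.closedBall x (r / 2) := by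
    rw [Metric.mem_closedBall, dist_self_add_left, norm_smul, Real.norm_eq_abs,
      abs_of_nonneg (by positivity), mul_assoc, inv_mul_cancel₀ hg0.ne', mul_one]
  have h1 := grad_le ho hw hz (hd z hz) (hcb hy)
  have h2 := hM _ hy
  rw [Real.norm_eq_abs] at h2
  have h3 := (abs_le.1 h2).2
  have h4 : x + ((r / 2) * ‖gradient w z‖⁻¹) • gradient w z - z =
      (x - z) + ((r / 2) * ‖gradient w z‖⁻¹) • gradient w z := by abel
  rw [h4, inner_add_right, inner_smul_right, real_inner_self_eq_norm_sq] at h1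
  have h5 : r / 2 * ‖gradient w z‖⁻¹ * ‖gradient w z‖ ^ 2 = r / 2 * ‖gradient w z‖ := by
    field_simp
  rw [h5] at h1
  unfold tg
  nlinarith

section
variable {P : Set E} {w : E → ℝ} {D : E → E → ℝ} {C0 : ℝ}

theorem Brk_bdd (ho : IsOpen P) (hw : ConvexOn ℝ P w)
    (hd : ∀ x ∈ P, DifferentiableAt ℝ w x) (hD : ∀ x ∈ P, ∀ z ∈ P, |D x z| ≤ C0)
    {t : ℝ} (ht : 0 ≤ t) {x : E} (hx : x ∈ P) {z : E} (hz : z ∈ P) :
    tg w z x + t * D x z ≤ w x + t * C0 := by
  have h1 : tg w z x ≤ w x := grad_le ho hw hz (hd z hz) hx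
  have h2 : t * D x z ≤ t * C0 := mul_le_mul_of_nonneg_left (abs_le.1 (hD x hx z hz)).2 ht
  linarith

theorem Brk_le_vt (ho : IsOpen P) (hw : ConvexOn ℝ P w)
    (hd : ∀ x ∈ P, DifferentiableAt ℝ w x) (hD : ∀ x ∈ P, ∀ z ∈ P, |D x z| ≤ C0)
    {t : ℝ} (ht : 0 ≤ t) {x : E} (hx : x ∈ P) {z : E} (hz : z ∈ P) :
    tg w z x + t * D x z ≤ vt P w D t x := by
  refine le_csSup ⟨w x + t * C0, ?_⟩ ⟨z, hz, rfl⟩
  rintro _ ⟨y, hy, rfl⟩
  exact Brk_bdd ho hw hd hD ht hx hy

theorem Brk_vt_le {t : ℝ} {x : E} (hx : x ∈ P) {c : ℝ}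
    (h : ∀ z ∈ P, tg w z x + t * D x z ≤ c) : vt P w D t x ≤ c := by
  refine csSup_le ⟨_, x, hx, rfl⟩ ?_
  rintro _ ⟨z, hz, rfl⟩
  exact h z hz

theorem Brk_vt_convex (ho : IsOpen P) (hc : Convex ℝ P) (hw : ConvexOn ℝ P w)
    (hd : ∀ x ∈ P, DifferentiableAt ℝ w x) (hD : ∀ x ∈ P, ∀ z ∈ P, |D x z| ≤ C0)
    {t : ℝ} (ht : 0 ≤ t) (hcv : ∀ z ∈ P, ConvexOn ℝ P (fun x => tg w z x + t * D x z)) :
    ConvexOn ℝ P (vt P w D t) := by
  refine ⟨hc, fun x hx y hy α β hα hβ hαβ => ?_⟩
  refine Brk_vt_le (hc hx hy hα hβ hαβ) fun z hz => ?_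
  refine ((hcv z hz).2 hx hy hα hβ hαβ).trans ?_
  have h1 := Brk_le_vt ho hw hd hD ht hx hz
  have h2 := Brk_le_vt ho hw hd hD ht hy hz
  exact add_le_add (smul_le_smul_of_nonneg_left h1 hα) (smul_le_smul_of_nonneg_left h2 hβ)

theorem Brk_vt_abs (ho : IsOpen P) (hw : ConvexOn ℝ P w)
    (hd : ∀ x ∈ P, DifferentiableAt ℝ w x) (hD : ∀ x ∈ P, ∀ z ∈ P, |D x z| ≤ C0)
    {t : ℝ} (ht : 0 ≤ t) {x : E} (hx : x ∈ P) : |vt P w D t x - w x| ≤ t * C0 := by
  have h1 := Brk_le_vt ho hw hd hD ht hx hx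
  have h2 : vt P w D t x ≤ w x + t * C0 := Brk_vt_le hx fun z hz => Brk_bdd ho hw hd hD ht hx hz
  rw [Brk_tg_self] at h1
  have h3 : t * (-C0) ≤ t * D x x := mul_le_mul_of_nonneg_left (abs_le.1 (hD x hx x hx)).1 ht
  rw [abs_le]
  constructor <;> linarith

/-- the pointwise derivative at `t = 0` -/
theorem Brk_limit (ho : IsOpen P) (hw : ConvexOn ℝ P w)
    (hd : ∀ x ∈ P, DifferentiableAt ℝ w x) (hD : ∀ x ∈ P, ∀ z ∈ P, |D x z| ≤ C0)
    (hcpt : ∀ R : ℝ, IsCompact {x | x ∈ P ∧ ‖gradient w x‖ ≤ R})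
    {x : E} (hx : x ∈ P) (hDc : ContinuousOn (fun z => D x z) P)
    (hDe : ∀ z ∈ P, tg w z x = w x → gradient w z = gradient w x → D x z = D x x) :
    Tendsto (fun t : ℝ => (vt P w D t x - w x) / t) (𝓝[>] 0) (𝓝 (D x x)) := by
  have hwc : ContinuousOn w P := fun y hy => (hd y hy).continuousAt.continuousWithinAt
  have hg := grad_continuousOn ho hw hd
  have hlow : ∀ t : ℝ, 0 < t → D x x ≤ (vt P w D t x - w x) / t := by
    intro t ht
    have h1 := Brk_le_vt ho hw hd hD ht.le hx hx
    rw [Brk_tg_self] at h1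
    rw [le_div_iff₀ ht]
    linarith
  have hup : ∀ ep : ℝ, 0 < ep → ∃ t0 > 0, ∀ t : ℝ, 0 < t → t < t0 →
      (vt P w D t x - w x) / t ≤ D x x + ep := by
    intro ep hep
    obtain ⟨R', hR'⟩ := Brk_far ho hw hd hx
    have hK := hcpt R'
    set K := {z | z ∈ P ∧ ‖gradient w z‖ ≤ R'} with hKdef
    have hKP : K ⊆ P := fun z hz => hz.1
    have hZc : IsCompact (K ∩ (fun z => D x z) ⁻¹' Ici (D x x + ep)) :=
      hK.of_isClosed_subset ((hDc.mono hKP).preimage_isClosed_of_isClosed hK.isClosed isClosed_Ici)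
        inter_subset_left
    have htgc : ContinuousOn (fun z => w x - tg w z x) P := by
      have h1 : ContinuousOn (fun z : E => ((x, z) : E × E)) P :=
        (continuous_const.prodMk continuous_id).continuousOn
      have h2 := (Brk_tg_cont hwc hg).comp h1 (fun z hz => ⟨mem_univ _, hz⟩)
      exact continuousOn_const.sub h2
    obtain ⟨c, hc0, hc1⟩ : ∃ c > 0, ∀ z ∈ K ∩ (fun z => D x z) ⁻¹' Ici (D x x + ep),
        c ≤ w x - tg w z x := by
      rcases (K ∩ (fun z => D x z) ⁻¹' Ici (D x x + ep)).eq_empty_or_nonempty with h | h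
      · refine ⟨1, one_pos, fun z hz => ?_⟩
        rw [h] at hz
        exact absurd hz (notMem_empty z)
      · obtain ⟨z0, hz0, hmin⟩ := hZc.exists_isMinOn h (htgc.mono (inter_subset_left.trans hKP))
        refine ⟨w x - tg w z0 x, ?_, fun z hz => hmin hz⟩
        have hz0P : z0 ∈ P := hKP hz0.1
        have h1 : tg w z0 x ≤ w x := grad_le ho hw hz0P (hd z0 hz0P) hx
        rcases h1.lt_or_eq with h2 | h2
        · linarith
        · exfalso
          have h3 := hDe z0 hz0P h2 (Brk_eq_grad ho hw hd hx hz0P h2)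
          have h4 : D x x + ep ≤ D x z0 := hz0.2
          linarith
    have hC0 : 0 ≤ C0 := (abs_nonneg _).trans (hD x hx x hx)
    have hDx := abs_le.1 (hD x hx x hx)
    refine ⟨min c 1 / (2 * C0 + 1), by positivity, fun t ht ht0 => ?_⟩
    rw [lt_div_iff₀ (by linarith)] at ht0
    have hm1 : min c 1 ≤ c := min_le_left _ _
    have hm2 : min c 1 ≤ 1 := min_le_right _ _
    rw [div_le_iff₀ ht]
    have h0 : vt P w D t x ≤ w x + (D x x + ep) * t := by
      refine Brk_vt_le hx fun z hz => ?_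
      have h1 : tg w z x ≤ w x := grad_le ho hw hz (hd z hz) hx
      have h2 := abs_le.1 (hD x hx z hz)
      by_cases hzD : D x x + ep ≤ D x z
      · have h3 : tg w z x ≤ w x - min c 1 := by
          by_cases hzK : ‖gradient w z‖ ≤ R'
          · have := hc1 z ⟨⟨hz, hzK⟩, hzD⟩
            linarith
          · have := hR' z hz (not_le.1 hzK)
            linarith
        have h4 : t * D x z ≤ t * C0 := mul_le_mul_of_nonneg_left h2.2 ht.le
        have h5 : t * (-C0) ≤ t * (D x x + ep) := mul_le_mul_of_nonneg_left (by linarith) ht.le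
        nlinarith
      · have h3 : t * D x z ≤ t * (D x x + ep) :=
          mul_le_mul_of_nonneg_left (not_le.1 hzD).le ht.le
        linarith
    linarith
  rw [Metric.tendsto_nhdsWithin_nhds]
  intro ep hep
  obtain ⟨t0, ht0, h⟩ := hup (ep / 2) (by linarith)
  refine ⟨t0, ht0, fun {t} ht htd => ?_⟩
  have ht1 : 0 < t := ht
  rw [Real.dist_eq, sub_zero, abs_of_pos ht1] at htd
  have h1 := hlow t ht1
  have h2 := h t ht1 htd
  rw [Real.dist_eq, abs_of_nonneg (by linarith)]
  linarith

end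

theorem bracket {P : Set E} (ho : IsOpen P) (hc : Convex ℝ P) (hb : Bornology.IsBounded P)
    {a B w gg : E → ℝ} (ha : ContinuousOn a P) (hB : ContinuousOn B P)
    (hprop : ∀ R : ℝ, IsCompact {x | x ∈ P ∧ a x ≤ R})
    (hw : Adm P a B w) (hd : ∀ x ∈ P, DifferentiableAt ℝ w x)
    (hgg : ∀ K : Set E, IsCompact K → K ⊆ P → IntegrableOn gg K)
    (hEL : ∀ v, Adm P a B v → EqOff P v w → ∫ x in P, (v x - w x) * gg x ≤ 0)
    {chi : E → ℝ} (hchi : Continuous chi) (hchi0 : ∀ y, 0 ≤ chi y) {R : ℝ}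
    (hR : ∀ y, R < ‖y‖ → chi y = 0)
    {n0 : E → E → ℝ} (hn0 : Continuous (fun z : E × E => n0 z.1 z.2))
    (hn0c : ∀ y, ConvexOn ℝ univ (fun x => n0 x y)) {cc : E → ℝ} (hcc : Continuous cc)
    (hlow : ∀ x ∈ P, ‖gradient w x‖ ≤ R → w x = a x →
      0 < n0 x (gradient w x) - cc (gradient w x) * w x)
    (hup : ∀ x ∈ P, ‖gradient w x‖ ≤ R → w x = B x →
      n0 x (gradient w x) - cc (gradient w x) * w x < 0) :
    ∫ x in P, (chi (gradient w x) * (n0 x (gradient w x) - cc (gradient w x) * w x)) * gg x ≤ 0 := by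
  have hwc : ContinuousOn w P := fun y hy => (hd y hy).continuousAt.continuousWithinAt
  have hg := grad_continuousOn ho hw.conv hd
  have hcpt : ∀ R : ℝ, IsCompact {x | x ∈ P ∧ ‖gradient w x‖ ≤ R} := fun R =>
    grad_proper ho hc hb hprop hw.conv hw.lb hd R
  set K1 := {x | x ∈ P ∧ ‖gradient w x‖ ≤ R} with hK1def
  have hK1 : IsCompact K1 := hcpt R
  have hK1P : K1 ⊆ P := fun x hx => hx.1
  set D : E → E → ℝ := fun x z => chi (gradient w z) * brk w n0 cc x z with hDdef
  have hbc := Brk_brk_cont hwc hg hn0 hcc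
  have htc := Brk_tg_cont hwc hg
  have hDc : ContinuousOn (fun q : E × E => D q.1 q.2) (univ ×ˢ P) := by
    have h0 : MapsTo (fun q : E × E => q.2) (univ ×ˢ P) P := fun q hq => hq.2
    have h2 : ContinuousOn (fun q : E × E => gradient w q.2) (univ ×ˢ P) :=
      hg.comp continuous_snd.continuousOn h0
    exact (hchi.comp_continuousOn h2).mul hbc
  have hDz : ∀ x, ∀ z ∈ P, z ∉ K1 → D x z = 0 := by
    intro x z hz hz1
    have : R < ‖gradient w z‖ := by
      by_contra h
      exact hz1 ⟨hz, not_lt.1 h⟩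
    simp only [hDdef]
    rw [hR _ this, zero_mul]
  have hcP : IsCompact (closure P) := hb.isCompact_closure
  have hQ : IsCompact (closure P ×ˢ K1) := hcP.prod hK1
  have hQs : closure P ×ˢ K1 ⊆ (univ : Set E) ×ˢ P := prod_mono (subset_univ _) hK1P
  obtain ⟨M1, hM1⟩ := hQ.exists_bound_of_continuousOn (hDc.mono hQs)
  obtain ⟨M2, hM2⟩ := hQ.exists_bound_of_continuousOn (htc.mono hQs)
  set C0 := |M1| with hC0def
  have hC0 : 0 ≤ C0 := abs_nonneg _
  have hD : ∀ x ∈ P, ∀ z ∈ P, |D x z| ≤ C0 := by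
    intro x hx z hz
    by_cases hz1 : z ∈ K1
    · have := hM1 (x, z) ⟨subset_closure hx, hz1⟩
      rw [Real.norm_eq_abs] at this
      exact this.trans (le_abs_self _)
    · rw [hDz x z hz hz1, abs_zero]
      exact hC0
  have hT : ∀ x ∈ P, ∀ z ∈ K1, tg w z x ≤ |M2| := by
    intro x hx z hz
    have := hM2 (x, z) ⟨subset_closure hx, hz⟩
    rw [Real.norm_eq_abs] at this
    exact (le_abs_self _).trans (this.trans (le_abs_self _))
  have htgle : ∀ x ∈ P, ∀ z ∈ P, tg w z x ≤ w x := fun x hx z hz =>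
    grad_le ho hw.conv hz (hd z hz) hx
  -- convexity of the tilted tangent planes
  have hcv : ∀ t : ℝ, 0 ≤ t → ∀ z ∈ P, ConvexOn ℝ P (fun x => tg w z x + t * D x z) := by
    intro t ht z hz
    refine ⟨hc, fun x hx y hy α β hα hβ hαβ => ?_⟩
    have htg : tg w z (α • x + β • y) = α * tg w z x + β * tg w z y := by
      unfold tg
      have e1 : α • x + β • y - z = α • (x - z) + β • (y - z) := by
        have : z = (α + β) • z := by rw [hαβ, one_smul]
        rw [smul_sub, smul_sub]
        nth_rewrite 1 [this]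
        rw [add_smul]
        abel
      rw [e1, inner_add_right, inner_smul_right, inner_smul_right]
      have : w z = (α + β) * w z := by rw [hαβ, one_mul]
      nth_rewrite 1 [this]
      ring
    have hn := (hn0c (gradient w z)).2 (mem_univ x) (mem_univ y) hα hβ hαβ
    simp only [smul_eq_mul] at hn ⊢
    simp only [hDdef, brk]
    rw [htg]
    have h1 := mul_le_mul_of_nonneg_left hn (mul_nonneg ht (hchi0 (gradient w z)))
    nlinarith
  have hadm_conv : ∀ t : ℝ, 0 ≤ t → ConvexOn ℝ P (vt P w D t) := fun t ht =>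
    Brk_vt_convex ho hc hw.conv hd hD ht (hcv t ht)
  -- the compact set off which nothing changes
  set K2 := {x | x ∈ P ∧ a x ≤ |M2| + C0} ∪ K1 with hK2def
  have hK2 : IsCompact K2 := (hprop _).union hK1
  have hK2P : K2 ⊆ P := by
    rintro x (hx | hx)
    · exact hx.1
    · exact hK1P hx
  have hoff : ∀ t : ℝ, 0 ≤ t → t ≤ 1 → ∀ x ∈ P \ K2, vt P w D t x = w x := by
    rintro t ht ht1 x ⟨hx, hx2⟩
    have hxa : |M2| + C0 < a x := by
      by_contra h
      exact hx2 (Or.inl ⟨hx, not_lt.1 h⟩)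
    have hx1 : x ∉ K1 := fun h => hx2 (Or.inr h)
    apply le_antisymm
    · refine Brk_vt_le hx fun z hz => ?_
      by_cases hz1 : z ∈ K1
      · have h1 := hT x hx z hz1
        have h2 : t * D x z ≤ 1 * C0 :=
          mul_le_mul_of_nonneg ht1 (abs_le.1 (hD x hx z hz)).2 ht hC0
        have h3 := hw.lb x hx
        linarith
      · rw [hDz x z hz hz1, mul_zero, add_zero]
        exact htgle x hx z hz
    · have h1 := Brk_le_vt ho hw.conv hd hD ht hx hx
      rw [Brk_tg_self, hDz x x hx hx1, mul_zero, add_zero] at h1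
      exact h1
  -- lower barrier
  have hbx : ContinuousOn (fun x => brk w n0 cc x x) P := by
    have h1 : ContinuousOn (fun x : E => ((x, x) : E × E)) P :=
      (continuous_id.prodMk continuous_id).continuousOn
    exact hbc.comp h1 (fun x hx => ⟨mem_univ _, hx⟩)
  obtain ⟨c1, hc1, hlo⟩ : ∃ c > 0, ∀ x ∈ K1, brk w n0 cc x x ≤ 0 → c ≤ w x - a x := by
    have hZ : IsCompact (K1 ∩ (fun x => brk w n0 cc x x) ⁻¹' Iic 0) :=
      hK1.of_isClosed_subset ((hbx.mono hK1P).preimage_isClosed_of_isClosed hK1.isClosed isClosed_Iic)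
        inter_subset_left
    rcases (K1 ∩ (fun x => brk w n0 cc x x) ⁻¹' Iic 0).eq_empty_or_nonempty with h | h
    · refine ⟨1, one_pos, fun x hx hx2 => ?_⟩
      have : x ∈ (∅ : Set E) := by
        rw [← h]
        exact ⟨hx, hx2⟩
      exact absurd this (notMem_empty x)
    · obtain ⟨z0, hz0, hmin⟩ := hZ.exists_isMinOn h
        ((hwc.sub ha).mono (inter_subset_left.trans hK1P))
      refine ⟨w z0 - a z0, ?_, fun x hx hx2 => hmin ⟨hx, hx2⟩⟩
      have h1 := hw.lb z0 (hK1P hz0.1)
      rcases h1.lt_or_eq with h2 | h2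
      · linarith
      · exfalso
        have h3 := hlow z0 (hK1P hz0.1) hz0.1.2 h2.symm
        have h4 : brk w n0 cc z0 z0 ≤ 0 := hz0.2
        unfold brk at h4
        rw [Brk_tg_self] at h4
        linarith
  -- upper barrier
  set K3 := {x | x ∈ P ∧ a x ≤ |M2| + C0} with hK3def
  have hK3 : IsCompact K3 := hprop _
  have hK3P : K3 ⊆ P := fun x hx => hx.1
  obtain ⟨c2, hc2, hhi⟩ : ∃ c > 0, ∀ x ∈ K3, ∀ z ∈ K1, 0 ≤ brk w n0 cc x z → c ≤ B x - tg w z x := by
    have hS : IsCompact (K3 ×ˢ K1) := hK3.prod hK1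
    have hSs : K3 ×ˢ K1 ⊆ (univ : Set E) ×ˢ P := prod_mono (subset_univ _) hK1P
    have hZ : IsCompact (K3 ×ˢ K1 ∩ (fun q : E × E => brk w n0 cc q.1 q.2) ⁻¹' Ici 0) :=
      hS.of_isClosed_subset ((hbc.mono hSs).preimage_isClosed_of_isClosed hS.isClosed isClosed_Ici)
        inter_subset_left
    have hcB : ContinuousOn (fun q : E × E => B q.1 - tg w q.2 q.1)
        (K3 ×ˢ K1 ∩ (fun q : E × E => brk w n0 cc q.1 q.2) ⁻¹' Ici 0) := by
      refine ContinuousOn.sub ?_ (htc.mono (inter_subset_left.trans hSs))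
      exact hB.comp continuous_fst.continuousOn (fun q hq => hK3P hq.1.1)
    rcases (K3 ×ˢ K1 ∩ (fun q : E × E => brk w n0 cc q.1 q.2) ⁻¹' Ici 0).eq_empty_or_nonempty
      with h | h
    · refine ⟨1, one_pos, fun x hx z hz hxz => ?_⟩
      have : (x, z) ∈ (∅ : Set (E × E)) := by
        rw [← h]
        exact ⟨⟨hx, hz⟩, hxz⟩
      exact absurd this (notMem_empty _)
    · obtain ⟨q0, hq0, hmin⟩ := hZ.exists_isMinOn h hcB
      refine ⟨B q0.1 - tg w q0.2 q0.1, ?_, fun x hx z hz hxz => ?_⟩
      · have hx0 : q0.1 ∈ P := hK3P hq0.1.1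
        have hz0 : q0.2 ∈ P := hK1P hq0.1.2
        have h1 := htgle q0.1 hx0 q0.2 hz0
        have h2 := hw.ub q0.1 hx0
        rcases (h1.trans h2).lt_or_eq with h3 | h3
        · linarith
        · exfalso
          have h4 : tg w q0.2 q0.1 = w q0.1 := le_antisymm h1 (by linarith)
          have h5 := Brk_eq_grad ho hw.conv hd hx0 hz0 h4
          have h6 : 0 ≤ brk w n0 cc q0.1 q0.2 := hq0.2
          have h7 := hup q0.1 hx0 (by
            rw [← h5]
            exact hq0.1.2.2) (by linarith)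
          unfold brk at h6
          rw [h4, h5] at h6
          linarith
      · have : (x, z) ∈ K3 ×ˢ K1 ∩ (fun q : E × E => brk w n0 cc q.1 q.2) ⁻¹' Ici 0 :=
          ⟨⟨hx, hz⟩, hxz⟩
        exact hmin this
  -- admissibility for small t
  obtain ⟨t0, ht0, ht01, ht0c1, ht0c2⟩ : ∃ t0 : ℝ, 0 < t0 ∧ t0 ≤ 1 ∧ t0 * C0 ≤ c1 ∧ t0 * C0 ≤ c2 := by
    refine ⟨min 1 (min c1 c2 / (C0 + 1)), by positivity, min_le_left _ _, ?_, ?_⟩
    · have h1 : min 1 (min c1 c2 / (C0 + 1)) * C0 ≤ min c1 c2 / (C0 + 1) * C0 :=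
        mul_le_mul_of_nonneg_right (min_le_right _ _) hC0
      have h2 : min c1 c2 / (C0 + 1) * C0 ≤ c1 := by
        rw [div_mul_eq_mul_div, div_le_iff₀ (by linarith)]
        have := min_le_left c1 c2
        nlinarith
      linarith
    · have h1 : min 1 (min c1 c2 / (C0 + 1)) * C0 ≤ min c1 c2 / (C0 + 1) * C0 :=
        mul_le_mul_of_nonneg_right (min_le_right _ _) hC0
      have h2 : min c1 c2 / (C0 + 1) * C0 ≤ c2 := by
        rw [div_mul_eq_mul_div, div_le_iff₀ (by linarith)]
        have := min_le_right c1 c2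
        nlinarith
      linarith
  have hadm : ∀ t : ℝ, 0 < t → t < t0 → Adm P a B (vt P w D t) := by
    intro t ht htt
    have htC1 : t * C0 ≤ c1 := (mul_le_mul_of_nonneg_right htt.le hC0).trans ht0c1
    have htC2 : t * C0 ≤ c2 := (mul_le_mul_of_nonneg_right htt.le hC0).trans ht0c2
    refine ⟨hadm_conv t ht.le, fun x hx => ?_, fun x hx => ?_⟩
    · have h1 := Brk_le_vt ho hw.conv hd hD ht.le hx hx
      rw [Brk_tg_self] at h1
      refine le_trans ?_ h1
      by_cases hx1 : x ∈ K1
      · by_cases hbr : brk w n0 cc x x ≤ 0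
        · have h2 := hlo x hx1 hbr
          have h3 : t * (-C0) ≤ t * D x x :=
            mul_le_mul_of_nonneg_left (abs_le.1 (hD x hx x hx)).1 ht.le
          linarith
        · have h2 : 0 ≤ D x x := mul_nonneg (hchi0 _) (not_le.1 hbr).le
          have h3 := hw.lb x hx
          have h4 : 0 ≤ t * D x x := mul_nonneg ht.le h2
          linarith
      · rw [hDz x x hx hx1, mul_zero, add_zero]
        exact hw.lb x hx
    · refine Brk_vt_le hx fun z hz => ?_
      have h1 := htgle x hx z hz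
      have h2 := hw.ub x hx
      by_cases hz1 : z ∈ K1
      · have h3 : t * D x z ≤ t * C0 :=
          mul_le_mul_of_nonneg_left (abs_le.1 (hD x hx z hz)).2 ht.le
        by_cases hx3 : x ∈ K3
        · by_cases hbr : 0 ≤ brk w n0 cc x z
          · have h4 := hhi x hx3 z hz1 hbr
            linarith
          · have h4 : D x z ≤ 0 := mul_nonpos_of_nonneg_of_nonpos (hchi0 _) (not_le.1 hbr).le
            have h5 : t * D x z ≤ 0 := mul_nonpos_of_nonneg_of_nonpos ht.le h4
            linarith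
        · have h4 : |M2| + C0 < a x := by
            by_contra h
            exact hx3 ⟨hx, not_lt.1 h⟩
          have h5 := hT x hx z hz1
          have h6 := hw.lb x hx
          have h7 : t * C0 ≤ 1 * C0 := mul_le_mul_of_nonneg_right (htt.le.trans ht01) hC0
          linarith
      · rw [hDz x z hz hz1, mul_zero, add_zero]
        linarith
  have hint : ∀ t : ℝ, 0 < t → t < t0 →
      ∫ x in K2, ((vt P w D t x - w x) / t) * gg x ≤ 0 := by
    intro t ht htt
    have h1 := hEL (vt P w D t) (hadm t ht htt)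
      ⟨K2, hK2, hK2P, fun x hx => hoff t ht.le (htt.le.trans ht01) x hx⟩
    have h2 : ∫ x in P, (vt P w D t x - w x) * gg x = ∫ x in K2, (vt P w D t x - w x) * gg x := by
      refine setIntegral_eq_of_subset_of_forall_diff_eq_zero ho.measurableSet hK2P fun x hx => ?_
      rw [hoff t ht.le (htt.le.trans ht01) x hx, sub_self, zero_mul]
    rw [h2] at h1
    have h3 : ∫ x in K2, ((vt P w D t x - w x) / t) * gg x =
        t⁻¹ * ∫ x in K2, (vt P w D t x - w x) * gg x := by
      rw [← integral_const_mul]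
      refine integral_congr_ae (Eventually.of_forall fun x => ?_)
      simp only []
      ring
    rw [h3]
    exact mul_nonpos_of_nonneg_of_nonpos (inv_nonneg.2 ht.le) h1
  have hlim : ∀ x ∈ P, Tendsto (fun t : ℝ => (vt P w D t x - w x) / t) (𝓝[>] 0) (𝓝 (D x x)) := by
    intro x hx
    refine Brk_limit ho hw.conv hd hD hcpt hx ?_ ?_
    · have h1 : ContinuousOn (fun z : E => ((x, z) : E × E)) P :=
        (continuous_const.prodMk continuous_id).continuousOn
      exact hDc.comp h1 (fun z hz => ⟨mem_univ _, hz⟩)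
    · intro z hz h1 h2
      simp only [hDdef, brk]
      rw [h1, h2, Brk_tg_self]
  have hgK2 := hgg K2 hK2 hK2P
  have hDCT : Tendsto (fun t : ℝ => ∫ x in K2, ((vt P w D t x - w x) / t) * gg x) (𝓝[>] 0)
      (𝓝 (∫ x in K2, D x x * gg x)) := by
    refine tendsto_integral_filter_of_dominated_convergence (fun x => C0 * |gg x|) ?_ ?_ ?_ ?_
    · have hev : ∀ᶠ t : ℝ in 𝓝[>] 0, 0 < t := self_mem_nhdsWithin
      filter_upwards [hev] with t ht
      refine AEStronglyMeasurable.mul ?_ hgK2.aestronglyMeasurable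
      have h1 : ContinuousOn (vt P w D t) P :=
        locLip_continuousOn (convex_locLip ho (hadm_conv t ht.le))
      have h2 : ContinuousOn (fun x => (vt P w D t x - w x) / t) K2 :=
        ((h1.sub hwc).div_const t).mono hK2P
      exact h2.aestronglyMeasurable hK2.measurableSet
    · have hev : ∀ᶠ t : ℝ in 𝓝[>] 0, 0 < t := self_mem_nhdsWithin
      filter_upwards [hev] with t ht
      rw [ae_restrict_iff' hK2.measurableSet]
      refine Eventually.of_forall fun x hx => ?_
      rw [norm_mul, Real.norm_eq_abs, Real.norm_eq_abs]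
      refine mul_le_mul_of_nonneg_right ?_ (abs_nonneg _)
      rw [abs_div, abs_of_pos ht, div_le_iff₀ ht]
      have := Brk_vt_abs ho hw.conv hd hD ht.le (hK2P hx)
      linarith
    · exact hgK2.abs.const_mul C0
    · rw [ae_restrict_iff' hK2.measurableSet]
      refine Eventually.of_forall fun x hx => ?_
      exact (hlim x (hK2P hx)).mul_const _
  have hfin : ∫ x in K2, D x x * gg x ≤ 0 := by
    refine le_of_tendsto hDCT ?_
    have h1 : ∀ᶠ t : ℝ in 𝓝[>] 0, t < t0 := nhdsWithin_le_nhds (eventually_lt_nhds ht0)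
    have h2 : ∀ᶠ t : ℝ in 𝓝[>] 0, 0 < t := self_mem_nhdsWithin
    filter_upwards [h1, h2] with t ht1 ht2
    exact hint t ht2 ht1
  have heq : ∫ x in P, (chi (gradient w x) *
      (n0 x (gradient w x) - cc (gradient w x) * w x)) * gg x = ∫ x in K2, D x x * gg x := by
    have h1 : ∀ x, D x x = chi (gradient w x) * (n0 x (gradient w x) - cc (gradient w x) * w x) := by
      intro x
      simp only [hDdef, brk]
      rw [Brk_tg_self]
    have h2 : ∫ x in P, (chi (gradient w x) *
      (n0 x (gradient w x) - cc (gradient w x) * w x)) * gg x = ∫ x in P, D x x * gg x := by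
      refine integral_congr_ae (Eventually.of_forall fun x => ?_)
      simp only []
      rw [h1]
    rw [h2]
    refine setIntegral_eq_of_subset_of_forall_diff_eq_zero ho.measurableSet hK2P fun x hx => ?_
    rw [hDz x x hx.1 (fun h => hx.2 (Or.inr h)), zero_mul]
  rw [heq]
  exact hfin

end Pool.Agent.PLap
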