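import Pool.Agent.PLap.Theta

/-!
# The one dimensional inequality (MP_d18ab3_an, module H1)

For `f` of class `C^1` with compact support in `(a,b)`:
`(2 Tp p 1 / (b-a))^p * int |f|^p <= int |f'|^p`.
-/

namespace Pool.Agent.PLap

open MeasureTheory Set Filter Topology

variable {p : ℝ}

/-- Young's inequality in the form used with a field `V`:
`p a^{p-1} b v <= b^p + (p-1) a^p v^{p'}`. -/
theorem young_field (hp : 1 < p) {a b v : ℝ} (ha : 0 ≤ a) (hb : 0 ≤ b) (hv : 0 ≤ v) :
    p * a ^ (p - 1) * b * v ≤ b ^ p + (p - 1) * (a ^ p * v ^ (p / (p - 1))) := by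
  have hc : p.HolderConjugate (Real.conjExponent p) := Real.HolderConjugate.conjExponent hp
  have hB : 0 ≤ a ^ (p - 1) * v := mul_nonneg (Real.rpow_nonneg ha _) hv
  have h := Real.young_inequality_of_nonneg hb hB hc
  have hp1 : p - 1 ≠ 0 := by linarith
  have hp0 : 0 < p := by linarith
  have e1 : Real.conjExponent p = p / (p - 1) := rfl
  rw [e1] at h
  have e2 : (a ^ (p - 1) * v) ^ (p / (p - 1)) = a ^ p * v ^ (p / (p - 1)) := by
    rw [Real.mul_rpow (Real.rpow_nonneg ha _) hv, ← Real.rpow_mul ha]
    congr 2; field_simp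
  rw [e2] at h
  have h2 := mul_le_mul_of_nonneg_left h hp0.le
  have e3 : p * (b ^ p / p + a ^ p * v ^ (p / (p - 1)) / (p / (p - 1)))
      = b ^ p + (p - 1) * (a ^ p * v ^ (p / (p - 1))) := by
    field_simp
  rw [e3] at h2
  calc p * a ^ (p - 1) * b * v = p * (b * (a ^ (p - 1) * v)) := by ring
    _ ≤ _ := h2

theorem abs_rpow_mul (hp : 1 < p) (y : ℝ) : |(|y| ^ (p - 2) * y)| = |y| ^ (p - 1) := by
  rw [abs_mul, abs_of_nonneg (Real.rpow_nonneg (abs_nonneg y) _)]
  rcases eq_or_ne y 0 with h | h
  · subst h
    rw [abs_zero, mul_zero, Real.zero_rpow (by linarith)]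
  · have h1 : 0 < |y| := abs_pos.2 h
    nth_rewrite 2 [← Real.rpow_one |y|]
    rw [← Real.rpow_add h1]; congr 1; ring

theorem interval_lower (hp : 1 < p) {a b : ℝ} (hab : a < b) {f : ℝ → ℝ} (hf : ContDiff ℝ 1 f)
    (hs : tsupport f ⊆ Ioo a b) :
    (2 * Tp p 1 / (b - a)) ^ p * ∫ x, |f x| ^ p ≤ ∫ x, |deriv f x| ^ p := by
  have hp0 : 0 < p := by linarith
  have hT : 0 < (b - a) / 2 := by linarith
  set L : ℝ := (Tp p 1 / ((b - a) / 2)) ^ p with hLdef
  have hL : 0 < L := Real.rpow_pos_of_pos (div_pos (Tp_pos hp one_pos) hT) _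
  have hLT : Tp p L = (b - a) / 2 := exists_Tp_eq hp hT
  have hLeq : (2 * Tp p 1 / (b - a)) ^ p = L := by
    rw [hLdef]; congr 1
    have : b - a ≠ 0 := by linarith
    field_simp
  rw [hLeq]
  set c : ℝ := (a + b) / 2 with hc
  have hmem : ∀ x ∈ Ioo a b, x - c ∈ Ioo (-Tp p L) (Tp p L) := by
    intro x hx
    rw [hLT]
    constructor
    · have := hx.1; rw [hc]; linarith
    · have := hx.2; rw [hc]; linarith
  have hcs : HasCompactSupport f := by
    have h1 : IsCompact (Icc a b) := isCompact_Icc
    exact h1.of_isClosed_subset (isClosed_tsupport f) (hs.trans Ioo_subset_Icc_self)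
  set V : ℝ → ℝ := fun x => Ainv p L (x - c) with hV
  have hVd : ∀ x ∈ Ioo a b, HasDerivAt V (Dn p L (V x)) x := by
    intro x hx
    have h1 : HasDerivAt (fun x : ℝ => x - c) 1 x := (hasDerivAt_id' x).sub_const c
    have h2 : HasDerivAt (Ainv p L) (Dn p L (Ainv p L (x - c))) (x - c) :=
      hasDerivAt_Ainv hp hL (hmem x hx)
    have h3 := h2.comp x h1
    rw [mul_one] at h3
    exact h3
  have hfd : ∀ x, HasDerivAt f (deriv f x) x := fun x =>
    (hf.differentiable (by norm_num)).differentiableAt.hasDerivAt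
  have hfc : Continuous f := hf.continuous
  have hfdc : Continuous (deriv f) := hf.continuous_deriv (by norm_num)
  have hz : ∀ x, x ∉ tsupport f → f x = 0 := fun x hx => by
    by_contra h; exact hx (subset_tsupport f h)
  have hzd : ∀ x, x ∉ tsupport f → deriv f x = 0 := fun x hx => by
    by_contra h; exact hx (support_deriv_subset h)
  -- |f|^p V and its derivative
  set F : ℝ → ℝ := fun x => |f x| ^ p * V x with hF
  set G : ℝ → ℝ := fun x => p * (|f x| ^ (p - 2) * f x) * deriv f x * V x + |f x| ^ p * Dn p L (V x)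
    with hG
  have hop : ∀ x, x ∉ tsupport f → ∀ᶠ y in 𝓝 x, y ∉ tsupport f := fun x hx =>
    (isClosed_tsupport f).isOpen_compl.mem_nhds hx
  have hFG : ∀ x, HasDerivAt F (G x) x := by
    intro x
    by_cases hx : x ∈ tsupport f
    · have h1 : HasDerivAt (fun x => |f x| ^ p) (p * |f x| ^ (p - 2) * f x * deriv f x) x :=
        (hasDerivAt_abs_rpow (f x) hp).comp x (hfd x)
      have h2 := h1.mul (hVd x (hs hx))
      have e : G x = p * |f x| ^ (p - 2) * f x * deriv f x * V x + |f x| ^ p * Dn p L (V x) := by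
        simp only [hG]; ring
      rw [e]; exact h2
    · have h1 : G x = 0 := by
        simp only [hG]
        rw [hz x hx, hzd x hx, abs_zero, Real.zero_rpow hp0.ne']; ring
      rw [h1]
      refine (hasDerivAt_const x (0:ℝ)).congr_of_eventuallyEq ?_
      filter_upwards [hop x hx] with y hy
      simp only [hF]
      rw [hz y hy, abs_zero, Real.zero_rpow hp0.ne', zero_mul]
  have hcont_w : Continuous fun x => |f x| ^ (p - 2) * f x := by
    have h1 : Continuous fun y : ℝ => |y| ^ (p - 2) * y := by
      rw [continuous_iff_continuousAt]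
      intro y
      rcases eq_or_ne y 0 with h | h
      · subst h
        have h2 : Tendsto (fun y : ℝ => |y| ^ (p - 1)) (𝓝 0) (𝓝 0) := by
          have h3 : Continuous fun y : ℝ => |y| ^ (p - 1) :=
            continuous_abs.rpow_const (fun _ => Or.inr (by linarith))
          have h4 := h3.tendsto 0
          rwa [abs_zero, Real.zero_rpow (by linarith)] at h4
        have h5 : Tendsto (fun y : ℝ => |y| ^ (p - 2) * y) (𝓝 0) (𝓝 0) := by
          rw [tendsto_zero_iff_abs_tendsto_zero]
          refine h2.congr fun y => ?_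
          exact (abs_rpow_mul hp y).symm
        have h6 : (fun y : ℝ => |y| ^ (p - 2) * y) 0 = 0 := by simp
        unfold ContinuousAt
        rw [h6]; exact h5
      · exact ((continuous_abs.continuousAt.rpow_const (Or.inl (abs_ne_zero.2 h)))).mul
          continuousAt_id
    exact h1.comp hfc
  have hGc : Continuous G := by
    rw [continuous_iff_continuousAt]
    intro x
    by_cases hx : x ∈ tsupport f
    · have hVc : ContinuousAt V x := (hVd x (hs hx)).continuousAt
      have h1 : ContinuousAt (fun x => |f x| ^ p) x :=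
        ((hfc.abs).rpow_const (fun _ => Or.inr hp0.le)).continuousAt
      have h2 : ContinuousAt (fun x => Dn p L (V x)) x :=
        (continuous_Dn hp L).continuousAt.comp hVc
      exact (((continuousAt_const.mul hcont_w.continuousAt).mul hfdc.continuousAt).mul hVc).add
        (h1.mul h2)
    · have h1 : G =ᶠ[𝓝 x] fun _ => 0 := by
        filter_upwards [hop x hx] with y hy
        simp only [hG]
        rw [hz y hy, hzd y hy, abs_zero, Real.zero_rpow hp0.ne']; ring
      exact continuousAt_const.congr h1.symm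
  have hGs : HasCompactSupport G := by
    apply HasCompactSupport.intro hcs.isCompact
    intro x hx
    simp only [hG]
    rw [hz x hx, hzd x hx, abs_zero, Real.zero_rpow hp0.ne']; ring
  have hFs : HasCompactSupport F := by
    apply HasCompactSupport.intro hcs.isCompact
    intro x hx
    simp only [hF]
    rw [hz x hx, abs_zero, Real.zero_rpow hp0.ne']; ring
  have hFc : Continuous F := continuous_iff_continuousAt.2 fun x => (hFG x).continuousAt
  have h0 : ∫ x, G x = 0 := integral_eq_zero_of_hasDerivAt_of_integrable hFG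
    (hGc.integrable_of_hasCompactSupport hGs) (hFc.integrable_of_hasCompactSupport hFs)
  have hfi : Integrable fun x => |f x| ^ p := by
    apply ((hfc.abs).rpow_const (fun _ => Or.inr hp0.le)).integrable_of_hasCompactSupport
    apply HasCompactSupport.intro hcs.isCompact
    intro x hx; rw [hz x hx, abs_zero, Real.zero_rpow hp0.ne']
  have hfdi : Integrable fun x => |deriv f x| ^ p := by
    apply ((hfdc.abs).rpow_const (fun _ => Or.inr hp0.le)).integrable_of_hasCompactSupport
    apply HasCompactSupport.intro hcs.isCompact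
    intro x hx; rw [hzd x hx, abs_zero, Real.zero_rpow hp0.ne']
  have hpt : ∀ x, L * |f x| ^ p - |deriv f x| ^ p ≤ G x := by
    intro x
    have h1 := young_field hp (abs_nonneg (f x)) (abs_nonneg (deriv f x)) (abs_nonneg (V x))
    have h2 : |p * (|f x| ^ (p - 2) * f x) * deriv f x * V x|
        = p * |f x| ^ (p - 1) * |deriv f x| * |V x| := by
      rw [abs_mul, abs_mul, abs_mul, abs_rpow_mul hp, abs_of_pos hp0]
    have h3 := neg_abs_le (p * (|f x| ^ (p - 2) * f x) * deriv f x * V x)
    rw [h2] at h3
    have h4 : |f x| ^ p * Dn p L (V x)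
        = L * |f x| ^ p + (p - 1) * (|f x| ^ p * |V x| ^ (p / (p - 1))) := by
      unfold Dn; ring
    simp only [hG]
    rw [h4]; linarith
  have h5 : ∫ x, (L * |f x| ^ p - |deriv f x| ^ p) ≤ ∫ x, G x :=
    integral_mono ((hfi.const_mul L).sub hfdi) (hGc.integrable_of_hasCompactSupport hGs) hpt
  rw [h0, integral_sub (hfi.const_mul L) hfdi, integral_const_mul] at h5
  linarith

end Pool.Agent.PLap
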