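import Mathlib

/-!
# Mollification of Lipschitz functions with compact support (MP_d18ab3_an)
-/

namespace Pool.Agent.PLap

open MeasureTheory Set Filter Topology Metric
open scoped Convolution ContDiff NNReal Pointwise

variable {E : Type*} [NormedAddCommGroup E] [NormedSpace ℝ E] [FiniteDimensional ℝ E]
  [MeasurableSpace E] [BorelSpace E] (μ : Measure E) [μ.IsAddHaarMeasure]

/-- the derivative of the convolution of a normed bump with a Lipschitz function -/
theorem hasFDerivAt_conv (φ : ContDiffBump (0 : E)) {f : E → ℝ} {K : ℝ≥0}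
    (hf : LipschitzWith K f) (x₀ : E) :
    HasFDerivAt (φ.normed μ ⋆[ContinuousLinearMap.lsmul ℝ ℝ, μ] f)
      ((φ.normed μ ⋆[ContinuousLinearMap.lsmul ℝ ℝ, μ] fderiv ℝ f) x₀) x₀ := by
  have hφi : Integrable (φ.normed μ) μ := φ.integrable_normed
  have hφc : Continuous (φ.normed μ) := φ.continuous_normed
  have hφs : HasCompactSupport (φ.normed μ) := φ.hasCompactSupport_normed
  have hfd : Measurable (fderiv ℝ f) := measurable_fderiv ℝ f
  have hsub : Continuous fun t : E => x₀ - t := continuous_const.sub continuous_id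
  have h := hasFDerivAt_integral_of_dominated_loc_of_lip (μ := μ) (𝕜 := ℝ)
    (F := fun (x : E) (t : E) => φ.normed μ t • f (x - t))
    (F' := fun t : E => φ.normed μ t • fderiv ℝ f (x₀ - t)) (x₀ := x₀) (s := univ)
    (bound := fun t => (K : ℝ) * φ.normed μ t) univ_mem ?_ ?_ ?_ ?_ ?_ ?_
  · exact h.2
  · refine Eventually.of_forall fun x => ?_
    exact (hφc.smul (hf.continuous.comp (continuous_const.sub continuous_id))).aestronglyMeasurable
  · exact (hφc.smul (hf.continuous.comp hsub)).integrable_of_hasCompactSupport hφs.smul_right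
  · exact hφc.aestronglyMeasurable.smul (hfd.comp hsub.measurable).aestronglyMeasurable
  · refine Eventually.of_forall fun t => ?_
    apply LipschitzOnWith.of_dist_le_mul
    intro x _ y _
    have h0 : 0 ≤ φ.normed μ t := φ.nonneg_normed t
    have h1 : dist (f (x - t)) (f (y - t)) ≤ K * dist (x - t) (y - t) := hf.dist_le_mul _ _
    rw [dist_sub_right] at h1
    rw [dist_smul₀, Real.norm_of_nonneg h0, Real.coe_nnabs, abs_of_nonneg (mul_nonneg (NNReal.coe_nonneg K) h0)]
    calc φ.normed μ t * dist (f (x - t)) (f (y - t)) ≤ φ.normed μ t * (K * dist x y) :=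
          mul_le_mul_of_nonneg_left h1 h0
      _ = K * φ.normed μ t * dist x y := by ring
  · exact hφi.const_mul _
  · have hae : ∀ᵐ t ∂μ, DifferentiableAt ℝ f (x₀ - t) :=
      (Measure.measurePreserving_sub_left μ x₀).quasiMeasurePreserving.ae hf.ae_differentiableAt
    filter_upwards [hae] with t ht
    have h2 : HasFDerivAt (fun x : E => f (x - t)) (fderiv ℝ f (x₀ - t)) x₀ := by
      have h3 : HasFDerivAt (fun x : E => x - t) (ContinuousLinearMap.id ℝ E) x₀ :=
        (hasFDerivAt_id x₀).sub_const t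
      have h4 := ht.hasFDerivAt.comp x₀ h3
      rw [ContinuousLinearMap.comp_id] at h4
      exact h4
    have h5 : HasFDerivAt (fun x : E => φ.normed μ t • f (x - t))
        (φ.normed μ t • fderiv ℝ f (x₀ - t)) x₀ := h2.const_smul (φ.normed μ t)
    exact h5

/-- Mollification: a Lipschitz function with compact support in `Ω` is a limit of smooth functions
with compact support in `Ω`, with uniformly bounded gradients converging a.e. -/
theorem exists_mollify {f : E → ℝ} {K : ℝ≥0} (hf : LipschitzWith K f) (hc : HasCompactSupport f)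
    {Ω : Set E} (hΩ : IsOpen Ω) (hs : tsupport f ⊆ Ω) :
    ∃ (g : ℕ → E → ℝ) (S : Set E), IsCompact S ∧ S ⊆ Ω ∧ (∀ n, ContDiff ℝ ∞ (g n)) ∧
      (∀ n, tsupport (g n) ⊆ S) ∧
      (∀ x, Tendsto (fun n => g n x) atTop (𝓝 (f x))) ∧
      (∃ C : ℝ, ∀ n x, |g n x| ≤ C) ∧ (∀ n x, ‖fderiv ℝ (g n) x‖ ≤ K) ∧
      (∀ᵐ x ∂μ, Tendsto (fun n => fderiv ℝ (g n) x) atTop (𝓝 (fderiv ℝ f x))) := by
  obtain ⟨δ, hδ0, hδ⟩ := hc.isCompact.exists_cthickening_subset_open hΩ hs
  have hr : ∀ n : ℕ, 0 < δ / (2 * ((n : ℝ) + 1)) := fun n => by positivity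
  have hr2 : ∀ n : ℕ, δ / (2 * ((n : ℝ) + 1)) < δ / ((n : ℝ) + 1) := by
    intro n
    have h1 : (0:ℝ) < (n : ℝ) + 1 := by positivity
    apply div_lt_div_of_pos_left hδ0 h1; linarith
  set φ : ℕ → ContDiffBump (0 : E) := fun n => ⟨δ / (2 * ((n : ℝ) + 1)), δ / ((n : ℝ) + 1), hr n, hr2 n⟩
    with hφ
  have hrOut : ∀ n, (φ n).rOut = δ / ((n : ℝ) + 1) := fun n => rfl
  have hrIn : ∀ n, (φ n).rIn = δ / (2 * ((n : ℝ) + 1)) := fun n => rfl
  have hlim : Tendsto (fun n => (φ n).rOut) atTop (𝓝 0) := by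
    simp only [hrOut]
    have h1 := (tendsto_one_div_add_atTop_nhds_zero_nat (𝕜 := ℝ)).const_mul δ
    rw [mul_zero] at h1
    refine h1.congr fun n => ?_
    ring
  have hfl : LocallyIntegrable f μ := hf.continuous.locallyIntegrable
  have hfdb : ∀ x, ‖fderiv ℝ f x‖ ≤ K := fun x => norm_fderiv_le_of_lipschitz ℝ hf
  have hfdl : LocallyIntegrable (fderiv ℝ f) μ := by
    have hcst : LocallyIntegrable (fun _ : E => (K : ℝ)) μ := continuous_const.locallyIntegrable
    refine hcst.mono (measurable_fderiv ℝ f).aestronglyMeasurable ?_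
    refine Eventually.of_forall fun x => ?_
    rw [Real.norm_of_nonneg (NNReal.coe_nonneg K)]; exact hfdb x
  set g : ℕ → E → ℝ := fun n => (φ n).normed μ ⋆[ContinuousLinearMap.lsmul ℝ ℝ, μ] f with hg
  have hder : ∀ n x, HasFDerivAt (g n)
      (((φ n).normed μ ⋆[ContinuousLinearMap.lsmul ℝ ℝ, μ] fderiv ℝ f) x) x :=
    fun n x => hasFDerivAt_conv μ (φ n) hf x
  obtain ⟨M, hM⟩ : ∃ M : ℝ, ∀ x, ‖f x‖ ≤ M := hc.exists_bound_of_continuous hf.continuous
  refine ⟨g, cthickening δ (tsupport f), hc.isCompact.cthickening, hδ, ?_, ?_, ?_, ⟨M, ?_⟩, ?_, ?_⟩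
  · intro n
    exact (φ n).hasCompactSupport_normed.contDiff_convolution_left _ (φ n).contDiff_normed hfl
  · intro n
    apply closure_minimal _ isClosed_cthickening
    refine (support_convolution_subset (ContinuousLinearMap.lsmul ℝ ℝ)).trans ?_
    rintro _ ⟨a, ha, b, hb, rfl⟩
    rw [(φ n).support_normed_eq] at ha
    have h1 : dist (a + b) b ≤ δ := by
      rw [dist_eq_norm, add_sub_cancel_right]
      have h2 : ‖a‖ < (φ n).rOut := by simpa using ha
      rw [hrOut] at h2
      have h3 : δ / ((n : ℝ) + 1) ≤ δ := by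
        apply div_le_self hδ0.le
        have : (0:ℝ) ≤ n := Nat.cast_nonneg n
        linarith
      linarith
    exact mem_cthickening_of_dist_le (a + b) b δ _ (subset_tsupport f hb) h1
  · intro x
    exact ContDiffBump.convolution_tendsto_right_of_continuous hlim hf.continuous x
  · intro n x
    have h1 : g n x = ∫ t, (φ n).normed μ t • f (x - t) ∂μ := rfl
    rw [h1, ← Real.norm_eq_abs]
    calc ‖∫ t, (φ n).normed μ t • f (x - t) ∂μ‖ ≤ ∫ t, (φ n).normed μ t * M ∂μ := by
          apply norm_integral_le_of_norm_le ((φ n).integrable_normed.mul_const _)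
          refine Eventually.of_forall fun t => ?_
          rw [norm_smul, Real.norm_of_nonneg ((φ n).nonneg_normed t)]
          exact mul_le_mul_of_nonneg_left (hM _) ((φ n).nonneg_normed t)
      _ = M := by rw [integral_mul_const, (φ n).integral_normed, one_mul]
  · intro n x
    rw [(hder n x).fderiv]
    have h1 : ((φ n).normed μ ⋆[ContinuousLinearMap.lsmul ℝ ℝ, μ] fderiv ℝ f) x
        = ∫ t, (φ n).normed μ t • fderiv ℝ f (x - t) ∂μ := rfl
    rw [h1]
    calc ‖∫ t, (φ n).normed μ t • fderiv ℝ f (x - t) ∂μ‖ ≤ ∫ t, (φ n).normed μ t * K ∂μ := by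
          apply norm_integral_le_of_norm_le ((φ n).integrable_normed.mul_const _)
          refine Eventually.of_forall fun t => ?_
          rw [norm_smul, Real.norm_of_nonneg ((φ n).nonneg_normed t)]
          exact mul_le_mul_of_nonneg_left (hfdb _) ((φ n).nonneg_normed t)
      _ = K := by rw [integral_mul_const, (φ n).integral_normed, one_mul]
  · have h := ContDiffBump.ae_convolution_tendsto_right_of_locallyIntegrable (μ := μ) (φ := φ)
      (K := 2) hlim ?_ hfdl
    · filter_upwards [h] with x hx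
      refine hx.congr fun n => ?_
      rw [(hder n x).fderiv]
    · refine Eventually.of_forall fun n => ?_
      rw [hrOut, hrIn]
      apply le_of_eq; field_simp

/-- convergence of the energies -/
theorem exists_mollify_integral {f : E → ℝ} {K : ℝ≥0} (hf : LipschitzWith K f)
    (hc : HasCompactSupport f) {Ω : Set E} (hΩ : IsOpen Ω) (hs : tsupport f ⊆ Ω) {p : ℝ}
    (hp : 0 < p) :
    ∃ g : ℕ → E → ℝ, (∀ n, ContDiff ℝ ∞ (g n) ∧ HasCompactSupport (g n) ∧ tsupport (g n) ⊆ Ω) ∧
      Tendsto (fun n => ∫ x, |g n x| ^ p ∂μ) atTop (𝓝 (∫ x, |f x| ^ p ∂μ)) ∧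
      Tendsto (fun n => ∫ x, ‖fderiv ℝ (g n) x‖ ^ p ∂μ) atTop (𝓝 (∫ x, ‖fderiv ℝ f x‖ ^ p ∂μ)) := by
  obtain ⟨g, S, hSc, hSΩ, hsm, hsup, hlim, ⟨C, hC⟩, hK, hae⟩ := exists_mollify μ hf hc hΩ hs
  have hSfin : μ S < ⊤ := hSc.measure_lt_top
  have hzero : ∀ n x, x ∉ S → g n x = 0 := fun n x hx => by
    by_contra h
    exact hx (hsup n (subset_tsupport _ h))
  have hzero' : ∀ n x, x ∉ S → fderiv ℝ (g n) x = 0 := fun n x hx => by
    by_contra h
    exact hx (hsup n ((support_fderiv_subset ℝ) h))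
  have hcs : ∀ n, HasCompactSupport (g n) := fun n =>
    HasCompactSupport.intro hSc (hzero n)
  have hind : ∀ c : ℝ, Integrable (S.indicator fun _ => c) μ := fun c =>
    (integrable_indicator_iff hSc.measurableSet).2 (integrableOn_const hSfin.ne)
  refine ⟨g, fun n => ⟨hsm n, hcs n, (hsup n).trans hSΩ⟩, ?_, ?_⟩
  · refine tendsto_integral_of_dominated_convergence (S.indicator fun _ => (|C|) ^ p) ?_ (hind _)
      ?_ ?_
    · intro n
      exact (((hsm n).continuous.abs).rpow_const (fun _ => Or.inr hp.le)).aestronglyMeasurable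
    · intro n
      refine Eventually.of_forall fun x => ?_
      by_cases hx : x ∈ S
      · rw [indicator_of_mem hx, Real.norm_of_nonneg (Real.rpow_nonneg (abs_nonneg _) _)]
        exact Real.rpow_le_rpow (abs_nonneg _) ((hC n x).trans (le_abs_self C)) hp.le
      · rw [indicator_of_notMem hx, hzero n x hx, abs_zero, Real.zero_rpow hp.ne', norm_zero]
    · refine Eventually.of_forall fun x => ?_
      exact ((hlim x).abs).rpow_const (Or.inr hp.le)
  · refine tendsto_integral_of_dominated_convergence (S.indicator fun _ => (K : ℝ) ^ p) ?_ (hind _)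
      ?_ ?_
    · intro n
      have h1 : Continuous (fderiv ℝ (g n)) := (hsm n).continuous_fderiv (by simp)
      exact ((h1.norm).rpow_const (fun _ => Or.inr hp.le)).aestronglyMeasurable
    · intro n
      refine Eventually.of_forall fun x => ?_
      by_cases hx : x ∈ S
      · rw [indicator_of_mem hx, Real.norm_of_nonneg (Real.rpow_nonneg (norm_nonneg _) _)]
        exact Real.rpow_le_rpow (norm_nonneg _) (hK n x) hp.le
      · rw [indicator_of_notMem hx, hzero' n x hx, norm_zero, Real.zero_rpow hp.ne', norm_zero]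
    · filter_upwards [hae] with x hx
      exact (hx.norm).rpow_const (Or.inr hp.le)

end Pool.Agent.PLap
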