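import Pool.Agent.PLap.Theta
import Pool.Agent.PLap.Moll

/-!
# Almost optimal test functions on an interval (MP_d18ab3_an, module H2)
-/

namespace Pool.Agent.PLap

open MeasureTheory Set Filter Topology
open scoped ContDiff NNReal

variable {p L : ℝ}

/-- derivative of `Dn` at every point -/
theorem hasDerivAt_Dn' (hp : 1 < p) (y : ℝ) :
    HasDerivAt (Dn p L) ((p - 1) * (p / (p - 1) * |y| ^ (p / (p - 1) - 2) * y)) y := by
  have h := ((hasDerivAt_abs_rpow y (one_lt_pp hp)).const_mul (p - 1)).const_add L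
  exact h

/-- the (unnormalised) first eigenfunction of `(-T, T)` -/
noncomputable def uf (p L x : ℝ) : ℝ := (Dn p L (Ainv p L x)) ^ (-(1 / p))

theorem uf_pos (hp : 1 < p) (hL : 0 < L) (x : ℝ) : 0 < uf p L x :=
  Real.rpow_pos_of_pos (Dn_pos hp hL _) _

theorem uf_rpow (hp : 1 < p) (hL : 0 < L) (x : ℝ) : (uf p L x) ^ p = (Dn p L (Ainv p L x))⁻¹ := by
  unfold uf
  rw [← Real.rpow_mul (Dn_pos hp hL _).le]
  have : p ≠ 0 := by linarith
  rw [show -(1 / p) * p = -1 by field_simp, Real.rpow_neg_one]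

/-- derivative of the eigenfunction -/
noncomputable def ud (p L x : ℝ) : ℝ :=
  -((Dn p L (Ainv p L x)) ^ (-(1 / p)) * (|Ainv p L x| ^ (p / (p - 1) - 2) * Ainv p L x))

theorem hasDerivAt_uf (hp : 1 < p) (hL : 0 < L) {x : ℝ} (hx : x ∈ Ioo (-Tp p L) (Tp p L)) :
    HasDerivAt (uf p L) (ud p L x) x := by
  have h1 := hasDerivAt_Ainv hp hL hx
  have h2 : HasDerivAt (fun x => Dn p L (Ainv p L x))
      ((p - 1) * (p / (p - 1) * |Ainv p L x| ^ (p / (p - 1) - 2) * Ainv p L x)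
        * Dn p L (Ainv p L x)) x := (hasDerivAt_Dn' hp (Ainv p L x)).comp x h1
  have hD := Dn_pos hp hL (Ainv p L x)
  have h3 : HasDerivAt (fun x => (Dn p L (Ainv p L x)) ^ (-(1 / p)))
      ((p - 1) * (p / (p - 1) * |Ainv p L x| ^ (p / (p - 1) - 2) * Ainv p L x)
        * Dn p L (Ainv p L x) * (-(1 / p)) * (Dn p L (Ainv p L x)) ^ (-(1 / p) - 1)) x :=
    h2.rpow_const (Or.inl hD.ne')
  have hp0 : p ≠ 0 := by linarith
  have hp1 : p - 1 ≠ 0 := by linarith
  have e : ud p L x = (p - 1) * (p / (p - 1) * |Ainv p L x| ^ (p / (p - 1) - 2) * Ainv p L x)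
        * Dn p L (Ainv p L x) * (-(1 / p)) * (Dn p L (Ainv p L x)) ^ (-(1 / p) - 1) := by
    have e1 : (Dn p L (Ainv p L x)) ^ (-(1 / p))
        = Dn p L (Ainv p L x) * (Dn p L (Ainv p L x)) ^ (-(1 / p) - 1) := by
      nth_rewrite 2 [← Real.rpow_one (Dn p L (Ainv p L x))]
      rw [← Real.rpow_add hD]; congr 1; ring
    unfold ud
    rw [e1]; field_simp
  rw [e]; exact h3

theorem abs_ud_rpow (hp : 1 < p) (hL : 0 < L) (x : ℝ) :
    |ud p L x| ^ p = |Ainv p L x| ^ (p / (p - 1)) * (Dn p L (Ainv p L x))⁻¹ := by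
  have hD := Dn_pos hp hL (Ainv p L x)
  have hp1 : p - 1 ≠ 0 := by linarith
  have hp1' : 0 < p - 1 := by linarith
  have hp0 : p ≠ 0 := by linarith
  have e1 : |(|Ainv p L x| ^ (p / (p - 1) - 2) * Ainv p L x)|
      = |Ainv p L x| ^ (p / (p - 1) - 1) := by
    rw [abs_mul, abs_of_nonneg (Real.rpow_nonneg (abs_nonneg _) _)]
    rcases eq_or_ne (Ainv p L x) 0 with h | h
    · rw [h, abs_zero, mul_zero, Real.zero_rpow]
      have := one_lt_pp hp
      linarith
    · have h1 : 0 < |Ainv p L x| := abs_pos.2 h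
      nth_rewrite 2 [← Real.rpow_one |Ainv p L x|]
      rw [← Real.rpow_add h1]; congr 1; ring
  unfold ud
  rw [abs_neg, abs_mul, e1, abs_of_pos (Real.rpow_pos_of_pos hD _),
    Real.mul_rpow (Real.rpow_pos_of_pos hD _).le (Real.rpow_nonneg (abs_nonneg _) _),
    ← Real.rpow_mul hD.le, ← Real.rpow_mul (abs_nonneg _)]
  rw [show -(1 / p) * p = -1 by field_simp, Real.rpow_neg_one]
  rw [show (p / (p - 1) - 1) * p = p / (p - 1) by field_simp; ring]
  ring

theorem abs_ud_le (hp : 1 < p) (hL : 0 < L) (x : ℝ) : |ud p L x| ≤ ((p - 1)⁻¹) ^ (1 / p) := by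
  have hD := Dn_pos hp hL (Ainv p L x)
  have hp0 : 0 < p := by linarith
  have hp1 : 0 < p - 1 := by linarith
  have h1 : |ud p L x| ^ p ≤ (p - 1)⁻¹ := by
    rw [abs_ud_rpow hp hL, ← div_eq_mul_inv, div_le_iff₀ hD, ← div_eq_inv_mul, le_div_iff₀ hp1]
    unfold Dn; linarith
  have h2 := Real.rpow_le_rpow (Real.rpow_nonneg (abs_nonneg _) _) h1
    (show 0 ≤ 1 / p by positivity)
  rwa [← Real.rpow_mul (abs_nonneg _), show p * (1 / p) = 1 by field_simp, Real.rpow_one] at h2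

theorem lipschitzOn_uf (hp : 1 < p) (hL : 0 < L) :
    LipschitzOnWith (Real.toNNReal (((p - 1)⁻¹) ^ (1 / p))) (uf p L)
      (Ioo (-Tp p L) (Tp p L)) := by
  apply (convex_Ioo _ _).lipschitzOnWith_of_nnnorm_hasDerivWithin_le
    (f' := ud p L)
  · intro x hx
    exact (hasDerivAt_uf hp hL hx).hasDerivWithinAt
  · intro x hx
    rw [← NNReal.coe_le_coe, Real.coe_toNNReal _ (Real.rpow_nonneg (inv_nonneg.2 (by linarith)) _)]
    simpa using abs_ud_le hp hL x

/-- clamp to `[-t, t]` -/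
noncomputable def clampT (t x : ℝ) : ℝ := max (-t) (min t x)

theorem clampT_mem {t : ℝ} (ht : 0 ≤ t) (x : ℝ) : clampT t x ∈ Icc (-t) t := by
  unfold clampT
  exact ⟨le_max_left _ _, max_le (by linarith) (min_le_left _ _)⟩

theorem clampT_of_mem {t x : ℝ} (hx : x ∈ Icc (-t) t) : clampT t x = x := by
  unfold clampT
  rw [min_eq_right hx.2, max_eq_right hx.1]

theorem lipschitz_clampT (t : ℝ) : LipschitzWith 1 (clampT t) := by
  unfold clampT
  exact (LipschitzWith.id.const_min t).const_max (-t)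

/-- truncated eigenfunction -/
noncomputable def Uf (p L M x : ℝ) : ℝ := uf p L (clampT (Ap p L M) x) - uf p L (Ap p L M)

theorem Ap_pos (hp : 1 < p) (hL : 0 < L) {M : ℝ} (hM : 0 < M) : 0 < Ap p L M := by
  have := strictMono_Ap hp hL hM
  rwa [Ap_zero] at this

theorem uf_even (hp : 1 < p) (hL : 0 < L) {x : ℝ} (hx : x ∈ Ioo (-Tp p L) (Tp p L)) :
    uf p L (-x) = uf p L x := by
  unfold uf; rw [Ainv_neg hp hL hx, Dn_neg]

theorem Icc_subset_T (hp : 1 < p) (hL : 0 < L) (M : ℝ) :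
    Icc (-Ap p L M) (Ap p L M) ⊆ Ioo (-Tp p L) (Tp p L) := by
  intro x hx
  have h1 := Ap_lt_Tp hp hL M
  exact ⟨by linarith [hx.1], by linarith [hx.2]⟩

theorem Uf_zero_of (hp : 1 < p) (hL : 0 < L) {M : ℝ} (hM : 0 < M) {x : ℝ}
    (hx : x ∉ Ioo (-Ap p L M) (Ap p L M)) : Uf p L M x = 0 := by
  have h0 := Ap_pos hp hL hM
  have hmem : Ap p L M ∈ Ioo (-Tp p L) (Tp p L) := ⟨neg_Tp_lt_Ap hp hL M, Ap_lt_Tp hp hL M⟩
  rw [mem_Ioo, not_and_or, not_lt, not_lt] at hx
  unfold Uf clampT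
  rcases hx with hx | hx
  · rw [min_eq_right (by linarith), max_eq_left hx, uf_even hp hL hmem, sub_self]
  · rw [min_eq_left hx, max_eq_right (by linarith), sub_self]

theorem lipschitz_Uf (hp : 1 < p) (hL : 0 < L) {M : ℝ} (hM : 0 < M) :
    LipschitzWith (Real.toNNReal (((p - 1)⁻¹) ^ (1 / p))) (Uf p L M) := by
  have h0 := Ap_pos hp hL hM
  apply LipschitzWith.of_dist_le_mul
  intro x y
  have h1 := (lipschitzOn_uf hp hL).dist_le_mul _ (Icc_subset_T hp hL M (clampT_mem h0.le x)) _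
    (Icc_subset_T hp hL M (clampT_mem h0.le y))
  have h2 := (lipschitz_clampT (Ap p L M)).dist_le_mul x y
  unfold Uf
  rw [dist_sub_right]
  refine h1.trans ?_
  apply mul_le_mul_of_nonneg_left _ (NNReal.coe_nonneg _)
  simpa using h2

theorem hasDerivAt_Uf (hp : 1 < p) (hL : 0 < L) {M : ℝ} {x : ℝ}
    (hx : x ∈ Ioo (-Ap p L M) (Ap p L M)) : HasDerivAt (Uf p L M) (ud p L x) x := by
  have h1 := (hasDerivAt_uf hp hL (Icc_subset_T hp hL M (Ioo_subset_Icc_self hx))).sub_const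
    (uf p L (Ap p L M))
  refine h1.congr_of_eventuallyEq ?_
  filter_upwards [isOpen_Ioo.mem_nhds hx] with y hy
  unfold Uf
  rw [clampT_of_mem (Ioo_subset_Icc_self hy)]

theorem deriv_Uf_out (hp : 1 < p) (hL : 0 < L) {M : ℝ} (hM : 0 < M) {x : ℝ}
    (hx : x ∉ Icc (-Ap p L M) (Ap p L M)) : deriv (Uf p L M) x = 0 := by
  have h1 : Uf p L M =ᶠ[𝓝 x] fun _ => 0 := by
    filter_upwards [isClosed_Icc.isOpen_compl.mem_nhds hx] with y hy
    exact Uf_zero_of hp hL hM (fun h => hy (Ioo_subset_Icc_self h))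
  rw [h1.deriv_eq, deriv_const]

theorem Ainv_Ap_neg (hp : 1 < p) (hL : 0 < L) (M : ℝ) : Ainv p L (-Ap p L M) = -M := by
  rw [← Ap_neg, Ainv_Ap hp hL]

theorem continuousOn_Ainv (hp : 1 < p) (hL : 0 < L) (M : ℝ) :
    ContinuousOn (Ainv p L) (Icc (-Ap p L M) (Ap p L M)) := fun _ hx =>
  (continuousAt_Ainv hp hL (Icc_subset_T hp hL M hx)).continuousWithinAt

theorem continuousOn_invD (hp : 1 < p) (hL : 0 < L) (M : ℝ) :
    ContinuousOn (fun x => (Dn p L (Ainv p L x))⁻¹) (Icc (-Ap p L M) (Ap p L M)) :=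
  (continuous_Dn_inv hp hL).comp_continuousOn (continuousOn_Ainv hp hL M)

theorem continuousOn_udp (hp : 1 < p) (hL : 0 < L) (M : ℝ) :
    ContinuousOn (fun x => |Ainv p L x| ^ (p / (p - 1)) * (Dn p L (Ainv p L x))⁻¹)
      (Icc (-Ap p L M) (Ap p L M)) := by
  have h1 : Continuous fun y : ℝ => |y| ^ (p / (p - 1)) :=
    continuous_abs.rpow_const (fun _ => Or.inr (pp_pos hp).le)
  exact (h1.comp_continuousOn (continuousOn_Ainv hp hL M)).mul (continuousOn_invD hp hL M)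

/-- the energy identity, as an inequality -/
theorem energy_le (hp : 1 < p) (hL : 0 < L) {M : ℝ} (hM : 0 < M) :
    ∫ x in Icc (-Ap p L M) (Ap p L M), |Ainv p L x| ^ (p / (p - 1)) * (Dn p L (Ainv p L x))⁻¹
      ≤ L * ∫ x in Icc (-Ap p L M) (Ap p L M), (Dn p L (Ainv p L x))⁻¹ := by
  have h0 := Ap_pos hp hL hM
  have hle : -Ap p L M ≤ Ap p L M := by linarith
  rw [integral_Icc_eq_integral_Ioc, integral_Icc_eq_integral_Ioc,
    ← intervalIntegral.integral_of_le hle, ← intervalIntegral.integral_of_le hle]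
  have hi1 : IntervalIntegrable (fun x => (Dn p L (Ainv p L x))⁻¹) volume (-Ap p L M) (Ap p L M) :=
    (continuousOn_invD hp hL M).intervalIntegrable_of_Icc hle
  have hi2 : IntervalIntegrable
      (fun x => |Ainv p L x| ^ (p / (p - 1)) * (Dn p L (Ainv p L x))⁻¹) volume
      (-Ap p L M) (Ap p L M) :=
    (continuousOn_udp hp hL M).intervalIntegrable_of_Icc hle
  have hder : ∀ x ∈ uIcc (-Ap p L M) (Ap p L M),
      HasDerivAt (fun x => Ainv p L x / Dn p L (Ainv p L x))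
        (L * (Dn p L (Ainv p L x))⁻¹
          - |Ainv p L x| ^ (p / (p - 1)) * (Dn p L (Ainv p L x))⁻¹) x := by
    intro x hx
    rw [uIcc_of_le hle] at hx
    have hxT := Icc_subset_T hp hL M hx
    have h1 := hasDerivAt_Ainv hp hL hxT
    have h2 : HasDerivAt (fun x => Dn p L (Ainv p L x))
        ((p - 1) * (p / (p - 1) * |Ainv p L x| ^ (p / (p - 1) - 2) * Ainv p L x)
          * Dn p L (Ainv p L x)) x := (hasDerivAt_Dn' hp (Ainv p L x)).comp x h1
    have hD := Dn_pos hp hL (Ainv p L x)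
    have h3 : HasDerivAt (fun x => Ainv p L x / Dn p L (Ainv p L x)) _ x := h1.div h2 hD.ne'
    have hp1 : p - 1 ≠ 0 := by linarith
    have e1 : Ainv p L x * (|Ainv p L x| ^ (p / (p - 1) - 2) * Ainv p L x)
        = |Ainv p L x| ^ (p / (p - 1)) := by
      rcases eq_or_ne (Ainv p L x) 0 with h | h
      · rw [h, abs_zero, zero_mul, Real.zero_rpow (pp_pos hp).ne']
      · have h4 : 0 < |Ainv p L x| := abs_pos.2 h
        have h5 : Ainv p L x * (|Ainv p L x| ^ (p / (p - 1) - 2) * Ainv p L x)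
            = |Ainv p L x| ^ (p / (p - 1) - 2) * |Ainv p L x| ^ (2:ℝ) := by
          rw [Real.rpow_two, sq_abs]; ring
        rw [h5, ← Real.rpow_add h4]; congr 1; ring
    have e2 : L * (Dn p L (Ainv p L x))⁻¹
          - |Ainv p L x| ^ (p / (p - 1)) * (Dn p L (Ainv p L x))⁻¹
        = (Dn p L (Ainv p L x) * Dn p L (Ainv p L x) - Ainv p L x *
          ((p - 1) * (p / (p - 1) * |Ainv p L x| ^ (p / (p - 1) - 2) * Ainv p L x)
          * Dn p L (Ainv p L x))) / Dn p L (Ainv p L x) ^ 2 := by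
      have e3 : Ainv p L x *
          ((p - 1) * (p / (p - 1) * |Ainv p L x| ^ (p / (p - 1) - 2) * Ainv p L x)
          * Dn p L (Ainv p L x))
          = p * (Ainv p L x * (|Ainv p L x| ^ (p / (p - 1) - 2) * Ainv p L x))
            * Dn p L (Ainv p L x) := by
        field_simp
      rw [e3, e1]
      have e4 : Dn p L (Ainv p L x) * Dn p L (Ainv p L x)
          - p * |Ainv p L x| ^ (p / (p - 1)) * Dn p L (Ainv p L x)
          = (L - |Ainv p L x| ^ (p / (p - 1))) * Dn p L (Ainv p L x) := by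
        have : Dn p L (Ainv p L x) = L + (p - 1) * |Ainv p L x| ^ (p / (p - 1)) := rfl
        nth_rewrite 1 [this]; ring
      rw [e4]; field_simp
    rw [e2]; exact h3
  have hFTC := intervalIntegral.integral_eq_sub_of_hasDerivAt hder ((hi1.const_mul L).sub hi2)
  rw [intervalIntegral.integral_sub (hi1.const_mul L) hi2, intervalIntegral.integral_const_mul,
    Ainv_Ap hp hL, Ainv_Ap_neg hp hL, Dn_neg] at hFTC
  have h1 : 0 ≤ M / Dn p L M - -M / Dn p L M := by
    have := Dn_pos hp hL M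
    have h2 : 0 < M / Dn p L M := div_pos hM this
    have h3 : -M / Dn p L M = -(M / Dn p L M) := neg_div _ _
    rw [h3]; linarith
  linarith

theorem integral_deriv_Uf (hp : 1 < p) (hL : 0 < L) {M : ℝ} (hM : 0 < M) :
    ∫ x, |deriv (Uf p L M) x| ^ p
      = ∫ x in Icc (-Ap p L M) (Ap p L M),
        |Ainv p L x| ^ (p / (p - 1)) * (Dn p L (Ainv p L x))⁻¹ := by
  have hp0 : 0 < p := by linarith
  have h1 : ∫ x, |deriv (Uf p L M) x| ^ p
      = ∫ x in Icc (-Ap p L M) (Ap p L M), |deriv (Uf p L M) x| ^ p := by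
    symm
    apply setIntegral_eq_integral_of_forall_compl_eq_zero
    intro x hx
    rw [deriv_Uf_out hp hL hM hx, abs_zero, Real.zero_rpow hp0.ne']
  rw [h1, integral_Icc_eq_integral_Ioo, integral_Icc_eq_integral_Ioo]
  apply setIntegral_congr_fun measurableSet_Ioo
  intro x hx
  simp only
  rw [(hasDerivAt_Uf hp hL hx).deriv, abs_ud_rpow hp hL]

theorem invD_le (hp : 1 < p) (hL : 0 < L) (x : ℝ) : (Dn p L (Ainv p L x))⁻¹ ≤ L⁻¹ :=
  inv_anti₀ hL (le_Dn hp _)

/-- total mass of the eigenfunction -/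
noncomputable def Sm (p L : ℝ) : ℝ := ∫ x in Ioo (-Tp p L) (Tp p L), (Dn p L (Ainv p L x))⁻¹

theorem integrableOn_invD (hp : 1 < p) (hL : 0 < L) :
    IntegrableOn (fun x => (Dn p L (Ainv p L x))⁻¹) (Ioo (-Tp p L) (Tp p L)) := by
  have hc : ContinuousOn (fun x => (Dn p L (Ainv p L x))⁻¹) (Ioo (-Tp p L) (Tp p L)) := fun x hx =>
    ((continuous_Dn_inv hp hL).continuousAt.comp (continuousAt_Ainv hp hL hx)).continuousWithinAt
  have hfin : IntegrableOn (fun _ : ℝ => L⁻¹) (Ioo (-Tp p L) (Tp p L)) :=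
    integrableOn_const (by simp)
  refine Integrable.mono' hfin (hc.aestronglyMeasurable measurableSet_Ioo) ?_
  refine Eventually.of_forall fun x => ?_
  rw [Real.norm_of_nonneg (inv_nonneg.2 (Dn_pos hp hL _).le)]
  exact invD_le hp hL x

theorem Sm_pos (hp : 1 < p) (hL : 0 < L) : 0 < Sm p L := by
  unfold Sm
  rw [setIntegral_pos_iff_support_of_nonneg_ae]
  · have h1 : (Function.support fun x => (Dn p L (Ainv p L x))⁻¹) = univ := by
      apply eq_univ_of_forall
      intro x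
      exact (inv_pos.2 (Dn_pos hp hL _)).ne'
    rw [h1, univ_inter, Real.volume_Ioo]
    have := Tp_pos hp hL
    simp only [ENNReal.ofReal_pos]; linarith
  · exact Eventually.of_forall fun x => (inv_pos.2 (Dn_pos hp hL _)).le
  · exact integrableOn_invD hp hL

theorem integral_Uf_tendsto (hp : 1 < p) (hL : 0 < L) :
    Tendsto (fun n : ℕ => ∫ x, |Uf p L ((n : ℝ) + 1) x| ^ p) atTop (𝓝 (Sm p L)) := by
  have hp0 : 0 < p := by linarith
  have hMn : ∀ n : ℕ, (0:ℝ) < (n : ℝ) + 1 := fun n => by positivity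
  have hS : Sm p L = ∫ x, (Ioo (-Tp p L) (Tp p L)).indicator
      (fun x => (Dn p L (Ainv p L x))⁻¹) x := by
    unfold Sm; rw [integral_indicator measurableSet_Ioo]
  rw [hS]
  have hbd : Integrable ((Ioo (-Tp p L) (Tp p L)).indicator fun _ : ℝ => L⁻¹) :=
    (integrable_indicator_iff measurableSet_Ioo).2 (integrableOn_const (by simp))
  have hAT : ∀ n : ℕ, Ioo (-Ap p L ((n : ℝ) + 1)) (Ap p L ((n : ℝ) + 1))
      ⊆ Ioo (-Tp p L) (Tp p L) := fun n =>
    Ioo_subset_Icc_self.trans (Icc_subset_T hp hL _)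
  -- values
  have hmono : ∀ n : ℕ, ∀ x ∈ Ioo (-Ap p L ((n : ℝ) + 1)) (Ap p L ((n : ℝ) + 1)),
      0 ≤ Uf p L ((n : ℝ) + 1) x ∧ Uf p L ((n : ℝ) + 1) x ≤ uf p L x := by
    intro n x hx
    have e : Uf p L ((n : ℝ) + 1) x = uf p L x - uf p L (Ap p L ((n : ℝ) + 1)) := by
      unfold Uf; rw [clampT_of_mem (Ioo_subset_Icc_self hx)]
    rw [e]
    refine ⟨?_, by have := uf_pos hp hL (Ap p L ((n : ℝ) + 1)); linarith⟩
    have h1 : |Ainv p L x| ≤ (n : ℝ) + 1 := by
      rw [abs_le]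
      have hxT := hAT n hx
      have hA : Ap p L ((n : ℝ) + 1) ∈ Ioo (-Tp p L) (Tp p L) :=
        ⟨neg_Tp_lt_Ap hp hL _, Ap_lt_Tp hp hL _⟩
      have hA' : -Ap p L ((n : ℝ) + 1) ∈ Ioo (-Tp p L) (Tp p L) :=
        ⟨by linarith [hA.2], by linarith [hA.1]⟩
      constructor
      · have := (strictMonoOn_Ainv hp hL).monotoneOn hA' hxT hx.1.le
        rwa [Ainv_Ap_neg hp hL] at this
      · have := (strictMonoOn_Ainv hp hL).monotoneOn hxT hA hx.2.le
        rwa [Ainv_Ap hp hL] at this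
    have h2 : Dn p L (Ainv p L x) ≤ Dn p L ((n : ℝ) + 1) := by
      unfold Dn
      rw [abs_of_pos (hMn n)]
      have h3 : |Ainv p L x| ^ (p / (p - 1)) ≤ ((n : ℝ) + 1) ^ (p / (p - 1)) :=
        Real.rpow_le_rpow (abs_nonneg _) h1 (pp_pos hp).le
      have h4 : (p - 1) * |Ainv p L x| ^ (p / (p - 1)) ≤ (p - 1) * ((n : ℝ) + 1) ^ (p / (p - 1)) :=
        mul_le_mul_of_nonneg_left h3 (by linarith)
      linarith
    have h3 : uf p L (Ap p L ((n : ℝ) + 1)) ≤ uf p L x := by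
      unfold uf
      rw [Ainv_Ap hp hL]
      apply Real.rpow_le_rpow_of_nonpos (Dn_pos hp hL _) h2
      have : 0 < 1 / p := by positivity
      linarith
    linarith
  refine tendsto_integral_of_dominated_convergence
    ((Ioo (-Tp p L) (Tp p L)).indicator fun _ : ℝ => L⁻¹) ?_ hbd ?_ ?_
  · intro n
    exact (((lipschitz_Uf hp hL (hMn n)).continuous.abs).rpow_const
      (fun _ => Or.inr hp0.le)).aestronglyMeasurable
  · intro n
    refine Eventually.of_forall fun x => ?_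
    rw [Real.norm_of_nonneg (Real.rpow_nonneg (abs_nonneg _) _)]
    by_cases hx : x ∈ Ioo (-Ap p L ((n : ℝ) + 1)) (Ap p L ((n : ℝ) + 1))
    · rw [indicator_of_mem (hAT n hx)]
      obtain ⟨h1, h2⟩ := hmono n x hx
      rw [abs_of_nonneg h1]
      calc (Uf p L ((n : ℝ) + 1) x) ^ p ≤ (uf p L x) ^ p := Real.rpow_le_rpow h1 h2 hp0.le
        _ = (Dn p L (Ainv p L x))⁻¹ := uf_rpow hp hL x
        _ ≤ L⁻¹ := invD_le hp hL x
    · rw [Uf_zero_of hp hL (hMn n) hx, abs_zero, Real.zero_rpow hp0.ne']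
      exact indicator_nonneg (fun _ _ => (inv_pos.2 hL).le) x
  · refine Eventually.of_forall fun x => ?_
    by_cases hx : x ∈ Ioo (-Tp p L) (Tp p L)
    · rw [indicator_of_mem hx, ← uf_rpow hp hL]
      have hAn : Tendsto (fun n : ℕ => Ap p L ((n : ℝ) + 1)) atTop (𝓝 (Tp p L)) :=
        (tendsto_Ap_atTop hp hL).comp
          (tendsto_atTop_add_const_right _ _ tendsto_natCast_atTop_atTop)
      have hev : ∀ᶠ n : ℕ in atTop, x ∈ Ioo (-Ap p L ((n : ℝ) + 1)) (Ap p L ((n : ℝ) + 1)) := by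
        have h1 : |x| < Tp p L := abs_lt.2 hx
        filter_upwards [hAn.eventually (lt_mem_nhds h1)] with n hn
        exact abs_lt.1 hn
      have hDlim : Tendsto (fun n : ℕ => uf p L (Ap p L ((n : ℝ) + 1))) atTop (𝓝 0) := by
        have h1 : Tendsto (fun n : ℕ => Dn p L ((n : ℝ) + 1)) atTop atTop := by
          have h2 : Tendsto (fun n : ℕ => ((n : ℝ) + 1) ^ (p / (p - 1))) atTop atTop :=
            (tendsto_rpow_atTop (pp_pos hp)).comp
              (tendsto_atTop_add_const_right _ _ tendsto_natCast_atTop_atTop)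
          have h3 : Tendsto (fun n : ℕ => L + (p - 1) * ((n : ℝ) + 1) ^ (p / (p - 1))) atTop atTop :=
            tendsto_atTop_add_const_left _ _ (h2.const_mul_atTop (by linarith))
          refine h3.congr fun n => ?_
          rw [Dn_of_nonneg (hMn n).le]
        have h4 : Tendsto (fun n : ℕ => (Dn p L ((n : ℝ) + 1)) ^ (-(1 / p))) atTop (𝓝 0) :=
          (tendsto_rpow_neg_atTop (show 0 < 1 / p by positivity)).comp h1
        refine h4.congr fun n => ?_
        unfold uf; rw [Ainv_Ap hp hL]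
      have hlim : Tendsto (fun n : ℕ => Uf p L ((n : ℝ) + 1) x) atTop (𝓝 (uf p L x)) := by
        have h1 : Tendsto (fun n : ℕ => uf p L x - uf p L (Ap p L ((n : ℝ) + 1))) atTop
            (𝓝 (uf p L x - 0)) := tendsto_const_nhds.sub hDlim
        rw [sub_zero] at h1
        refine h1.congr' ?_
        filter_upwards [hev] with n hn
        unfold Uf; rw [clampT_of_mem (Ioo_subset_Icc_self hn)]
      have h5 := (hlim.abs).rpow_const (p := p) (Or.inr hp0.le)
      rwa [abs_of_pos (uf_pos hp hL x)] at h5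
    · rw [indicator_of_notMem hx]
      refine tendsto_const_nhds.congr fun n => ?_
      rw [Uf_zero_of hp hL (hMn n) (fun h => hx (hAT n h)), abs_zero, Real.zero_rpow hp0.ne']

theorem energy_Uf_le (hp : 1 < p) (hL : 0 < L) {M : ℝ} (hM : 0 < M) :
    ∫ x, |deriv (Uf p L M) x| ^ p ≤ L * Sm p L := by
  rw [integral_deriv_Uf hp hL hM]
  refine (energy_le hp hL hM).trans ?_
  apply mul_le_mul_of_nonneg_left _ hL.le
  unfold Sm
  apply setIntegral_mono_set (integrableOn_invD hp hL)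
  · exact Eventually.of_forall fun x => (inv_pos.2 (Dn_pos hp hL _)).le
  · exact (Icc_subset_T hp hL M).eventuallyLE

/-- almost optimal smooth test functions on an interval -/
theorem interval_upper (hp : 1 < p) {a b : ℝ} (hab : a < b) {ε : ℝ} (hε : 0 < ε) :
    ∃ f : ℝ → ℝ, ContDiff ℝ ∞ f ∧ HasCompactSupport f ∧ tsupport f ⊆ Ioo a b ∧
      0 < ∫ x, |f x| ^ p ∧
      ∫ x, |deriv f x| ^ p ≤ ((2 * Tp p 1 / (b - a)) ^ p + ε) * ∫ x, |f x| ^ p := by
  have hp0 : 0 < p := by linarith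
  have hT : 0 < (b - a) / 2 := by linarith
  set L : ℝ := (Tp p 1 / ((b - a) / 2)) ^ p with hLdef
  have hL : 0 < L := Real.rpow_pos_of_pos (div_pos (Tp_pos hp one_pos) hT) _
  have hLT : Tp p L = (b - a) / 2 := exists_Tp_eq hp hT
  have hLeq : (2 * Tp p 1 / (b - a)) ^ p = L := by
    rw [hLdef]; congr 1
    have : b - a ≠ 0 := by linarith
    field_simp
  rw [hLeq]
  set c : ℝ := (a + b) / 2 with hc
  have hS := Sm_pos hp hL
  -- choose M
  have h1 : Tendsto (fun n : ℕ => (L + ε / 2) * ∫ x, |Uf p L ((n : ℝ) + 1) x| ^ p) atTop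
      (𝓝 ((L + ε / 2) * Sm p L)) := (integral_Uf_tendsto hp hL).const_mul _
  have h2 : L * Sm p L < (L + ε / 2) * Sm p L :=
    mul_lt_mul_of_pos_right (by linarith) hS
  obtain ⟨n, hn1, hn2⟩ := ((h1.eventually (lt_mem_nhds h2)).and
    ((integral_Uf_tendsto hp hL).eventually (lt_mem_nhds hS))).exists
  set M : ℝ := (n : ℝ) + 1 with hM
  have hM0 : 0 < M := by rw [hM]; positivity
  have hAT := Icc_subset_T hp hL M
  set f : ℝ → ℝ := fun x => Uf p L M (x - c) with hf
  have hflip : LipschitzWith (Real.toNNReal (((p - 1)⁻¹) ^ (1 / p))) f := by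
    apply LipschitzWith.of_dist_le_mul
    intro x y
    have h3 := (lipschitz_Uf hp hL hM0).dist_le_mul (x - c) (y - c)
    rwa [dist_sub_right] at h3
  have hts : tsupport f ⊆ Icc (c - Ap p L M) (c + Ap p L M) := by
    apply closure_minimal _ isClosed_Icc
    intro x hx
    by_contra h
    apply hx
    simp only [hf]
    apply Uf_zero_of hp hL hM0
    intro h'
    exact h ⟨by linarith [h'.1], by linarith [h'.2]⟩
  have hA := Ap_lt_Tp hp hL M
  rw [hLT] at hA
  have hsub : Icc (c - Ap p L M) (c + Ap p L M) ⊆ Ioo a b := by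
    intro x hx
    constructor
    · have := hx.1; rw [hc] at this; linarith
    · have := hx.2; rw [hc] at this; linarith
  have hcs : HasCompactSupport f :=
    isCompact_Icc.of_isClosed_subset (isClosed_tsupport f) hts
  obtain ⟨g, hg, hlim1, hlim2⟩ := exists_mollify_integral (volume : Measure ℝ) hflip hcs isOpen_Ioo
    (hts.trans hsub) hp0
  have e1 : ∫ x, |f x| ^ p = ∫ x, |Uf p L M x| ^ p :=
    integral_sub_right_eq_self (fun x => |Uf p L M x| ^ p) c
  have e2 : ∫ x, ‖fderiv ℝ f x‖ ^ p = ∫ x, |deriv (Uf p L M) x| ^ p := by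
    have h3 : ∀ x, ‖fderiv ℝ f x‖ ^ p = |deriv (Uf p L M) (x - c)| ^ p := by
      intro x
      rw [← norm_deriv_eq_norm_fderiv, Real.norm_eq_abs]
      congr 2
      simp only [hf]
      exact deriv_comp_sub_const (f := Uf p L M) c x
    simp_rw [h3]
    exact integral_sub_right_eq_self (fun x => |deriv (Uf p L M) x| ^ p) c
  rw [e1] at hlim1
  rw [e2] at hlim2
  have h5 : ∫ x, |deriv (Uf p L M) x| ^ p < (L + ε) * ∫ x, |Uf p L M x| ^ p := by
    have h6 := energy_Uf_le hp hL hM0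
    have h7 : (L + ε / 2) * ∫ x, |Uf p L M x| ^ p < (L + ε) * ∫ x, |Uf p L M x| ^ p :=
      mul_lt_mul_of_pos_right (by linarith) hn2
    linarith
  have h8 : Tendsto (fun k => (L + ε) * ∫ x, |g k x| ^ p) atTop
      (𝓝 ((L + ε) * ∫ x, |Uf p L M x| ^ p)) := hlim1.const_mul _
  obtain ⟨k, hk1, hk2⟩ := ((hlim2.eventually_lt h8 h5).and
    (hlim1.eventually (lt_mem_nhds hn2))).exists
  refine ⟨g k, (hg k).1, (hg k).2.1, (hg k).2.2, hk2, ?_⟩
  have e3 : ∫ x, |deriv (g k) x| ^ p = ∫ x, ‖fderiv ℝ (g k) x‖ ^ p := by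
    congr 1; ext x
    rw [← norm_deriv_eq_norm_fderiv, Real.norm_eq_abs]
  rw [e3]
  exact hk1.le

end Pool.Agent.PLap
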