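import Pool.Agent.PLap.Lam
import Pool.Agent.PLap.IntLow
import Pool.Agent.PLap.IntUp

/-!
Interval: the first eigenvalue of an interval in terms of the half period `Tp`.
-/

set_option autoImplicit false

open MeasureTheory Set Filter Topology
open scoped ENNReal NNReal ContDiff RealInnerProductSpace

namespace Pool.Agent.PLap

theorem norm_fderiv_rpow_eq (u : ℝ → ℝ) (p x : ℝ) : ‖fderiv ℝ u x‖ ^ p = |deriv u x| ^ p := by
  rw [← norm_deriv_eq_norm_fderiv, Real.norm_eq_abs]

theorem lam_interval {p a b : ℝ} (hp : 1 < p) (hab : a < b) :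
    lam p (Ioo a b) = (2 * Tp p 1 / (b - a)) ^ p := by
  apply le_antisymm
  · apply le_of_forall_pos_le_add
    intro ε hε
    obtain ⟨f, h1, h2, h3, h4, h5⟩ := interval_upper hp hab hε
    have h6 := lam_mul_le hp (Om := Ioo a b) (u := f) ⟨h1, h2, h3⟩
    simp_rw [norm_fderiv_rpow_eq] at h6
    exact le_of_mul_le_mul_right (h6.trans h5) h4
  · apply le_lam hp isOpen_Ioo (nonempty_Ioo.2 hab)
    intro u hu
    have h := interval_lower hp hab (hu.1.of_le (by simp)) hu.2.2
    simp_rw [norm_fderiv_rpow_eq]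
    exact h

theorem lam_interval_rpow {p a b : ℝ} (hp : 1 < p) (hab : a < b) :
    lam p (Ioo a b) ^ (1 / p) = 2 * Tp p 1 / (b - a) := by
  have h1 : 0 < 2 * Tp p 1 / (b - a) := by
    have := Tp_pos hp one_pos
    apply div_pos (by linarith) (by linarith)
  rw [lam_interval hp hab, ← Real.rpow_mul h1.le, show p * (1 / p) = 1 by field_simp, Real.rpow_one]

theorem CC_eq {p q : ℝ} (hq : 1 < q) (hp : 1 < p) : CC p q = Tp p 1 / Tp q 1 := by
  unfold CC
  rw [lam_interval_rpow hp one_pos, lam_interval_rpow hq one_pos]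
  have h1 := Tp_pos hp one_pos
  have h2 := Tp_pos hq one_pos
  field_simp

theorem CC_pos {p q : ℝ} (hq : 1 < q) (hp : 1 < p) : 0 < CC p q := by
  rw [CC_eq hq hp]
  exact div_pos (Tp_pos hp one_pos) (Tp_pos hq one_pos)

end Pool.Agent.PLap
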