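import Pool.Agent.PLap.Coord
import Pool.Agent.PLap.Interval

/-!
Chord: lower bound of `lam` by the longest chord in a coordinate direction (Fubini).
-/

set_option autoImplicit false

open MeasureTheory Set Filter Topology
open scoped ENNReal NNReal ContDiff RealInnerProductSpace

namespace Pool.Agent.PLap

theorem hasDerivAt_slice {u : E → ℝ} (hu : ContDiff ℝ ∞ u) (s t : ℝ) :
    HasDerivAt (fun t => u (pl s t)) (fderiv ℝ u (pl s t) (bb 1)) t := by
  have h1 : HasFDerivAt u (fderiv ℝ u (pl s t)) (pl s t) :=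
    (hu.differentiable (by simp)).differentiableAt.hasFDerivAt
  exact h1.comp_hasDerivAt t (hasDerivAt_pl_right s t)

theorem integrable_rpow_test {Om : Set E} {u : E → ℝ} (hu : IsTest Om u) {p : ℝ} (hp : 1 < p) :
    Integrable (fun x => |u x| ^ p) := by
  have hp0 : 0 < p := by linarith
  apply ((hu.1.continuous.abs).rpow_const (fun _ => Or.inr hp0.le)).integrable_of_hasCompactSupport
  apply HasCompactSupport.intro hu.2.1.isCompact
  intro x hx
  have : u x = 0 := by
    by_contra h; exact hx (subset_tsupport u h)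
  rw [this, abs_zero, Real.zero_rpow hp0.ne']

theorem integrable_fderiv_rpow_test {Om : Set E} {u : E → ℝ} (hu : IsTest Om u) {p : ℝ}
    (hp : 1 < p) : Integrable (fun x => ‖fderiv ℝ u x‖ ^ p) := by
  have hp0 : 0 < p := by linarith
  have hc : Continuous (fderiv ℝ u) := hu.1.continuous_fderiv (by simp)
  apply ((hc.norm).rpow_const (fun _ => Or.inr hp0.le)).integrable_of_hasCompactSupport
  apply HasCompactSupport.intro hu.2.1.isCompact
  intro x hx
  have : fderiv ℝ u x = 0 := by
    by_contra h; exact hx ((support_fderiv_subset ℝ) h)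
  rw [this, norm_zero, Real.zero_rpow hp0.ne']

theorem chord_bound {p : ℝ} (hp : 1 < p) {Om : Set E} (ho : IsOpen Om) (hne : Om.Nonempty) {h : ℝ}
    (hh : 0 < h) (hch : ∀ x ∈ Om, ∀ x' ∈ Om, x 0 = x' 0 → |x 1 - x' 1| ≤ h) :
    (2 * Tp p 1 / h) ^ p ≤ lam p Om := by
  have hp0 : 0 < p := by linarith
  have hT := Tp_pos hp one_pos
  apply le_lam hp ho hne
  intro u hu
  have hi1 := integrable_rpow_test hu hp
  have hi2 := integrable_fderiv_rpow_test hu hp
  rw [integral_pl hi1, integral_pl hi2, ← integral_const_mul]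
  have hs2 : ∀ᵐ s : ℝ, Integrable (fun t => ‖fderiv ℝ u (pl s t)‖ ^ p) :=
    (integrable_pl_iff.2 hi2).prod_right_ae
  refine integral_mono_ae ((integrable_slice hi1).const_mul _) (integrable_slice hi2) ?_
  filter_upwards [hs2] with s hs2
  -- the slice
  set v : ℝ → ℝ := fun t => u (pl s t) with hv
  have hvd : ∀ t, HasDerivAt v (fderiv ℝ u (pl s t) (bb 1)) t := fun t => hasDerivAt_slice hu.1 s t
  have hvc : ContDiff ℝ 1 v := (hu.1.comp (contDiff_pl_right s)).of_le (by simp)
  have hle : ∫ t, |deriv v t| ^ p ≤ ∫ t, ‖fderiv ℝ u (pl s t)‖ ^ p := by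
    apply integral_mono_of_nonneg
    · exact Eventually.of_forall fun t => Real.rpow_nonneg (abs_nonneg _) _
    · exact hs2
    · refine Eventually.of_forall fun t => ?_
      simp only
      apply Real.rpow_le_rpow (abs_nonneg _) _ hp0.le
      rw [(hvd t).deriv, ← Real.norm_eq_abs]
      have h1 := (fderiv ℝ u (pl s t)).le_opNorm (bb 1)
      rwa [norm_bb, mul_one] at h1
  refine le_trans ?_ hle
  -- compact slice of the support
  set K : Set ℝ := {t | pl s t ∈ tsupport u} with hK
  have hKc : IsClosed K := (isClosed_tsupport u).preimage (continuous_pl_right s)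
  have hKb : Bornology.IsBounded K := by
    obtain ⟨R, hR⟩ := hu.2.1.isCompact.isBounded.exists_norm_le
    rw [isBounded_iff_forall_norm_le]
    refine ⟨R, fun t ht => ?_⟩
    have h1 := hR _ ht
    have h2 : t ^ 2 ≤ ‖pl s t‖ ^ 2 := by rw [norm_sq_pl]; nlinarith
    have h3 : |t| ≤ ‖pl s t‖ := by
      have := sq_le_sq.1 h2
      rwa [abs_of_nonneg (norm_nonneg _)] at this
    exact h3.trans h1
  have hKcomp : IsCompact K := Metric.isCompact_of_isClosed_isBounded hKc hKb
  have hsuppK : tsupport v ⊆ K := by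
    apply closure_minimal _ hKc
    intro t ht
    exact subset_tsupport u ht
  rcases K.eq_empty_or_nonempty with hKe | hKne
  · have hv0 : ∀ t, v t = 0 := by
      intro t
      by_contra h0
      have : t ∈ K := hsuppK (subset_tsupport v h0)
      rw [hKe] at this; exact this
    have h1 : ∀ t, |v t| ^ p = 0 := fun t => by
      rw [hv0 t, abs_zero, Real.zero_rpow hp0.ne']
    have h2 : ∫ t, |v t| ^ p = 0 := by simp_rw [h1]; simp
    rw [h2, mul_zero]
    exact integral_nonneg fun t => Real.rpow_nonneg (abs_nonneg _) _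
  · obtain ⟨t1, ht1, hmin⟩ := hKcomp.exists_isLeast hKne
    obtain ⟨t2, ht2, hmax⟩ := hKcomp.exists_isGreatest hKne
    have hop : IsOpen {t | pl s t ∈ Om} := ho.preimage (continuous_pl_right s)
    have hO1 : t1 ∈ {t | pl s t ∈ Om} := hu.2.2 ht1
    have hO2 : t2 ∈ {t | pl s t ∈ Om} := hu.2.2 ht2
    obtain ⟨d1, hd1, hb1⟩ := Metric.isOpen_iff.1 hop t1 hO1
    obtain ⟨d2, hd2, hb2⟩ := Metric.isOpen_iff.1 hop t2 hO2
    set d := min d1 d2 / 2 with hd
    have hd0 : 0 < d := by have := lt_min hd1 hd2; positivity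
    have hdd1 : d < d1 := by
      have := min_le_left d1 d2; have := lt_min hd1 hd2; rw [hd]; linarith
    have hdd2 : d < d2 := by
      have := min_le_right d1 d2; have := lt_min hd1 hd2; rw [hd]; linarith
    have h12 : t1 ≤ t2 := hmin ht2
    have hA : pl s (t1 - d) ∈ Om := by
      apply hb1
      rw [Metric.mem_ball, Real.dist_eq]
      have : t1 - d - t1 = -d := by ring
      rw [this, abs_neg, abs_of_pos hd0]; exact hdd1
    have hB : pl s (t2 + d) ∈ Om := by
      apply hb2
      rw [Metric.mem_ball, Real.dist_eq]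
      have : t2 + d - t2 = d := by ring
      rw [this, abs_of_pos hd0]; exact hdd2
    have hlen := hch _ hB _ hA rfl
    simp only [pl_one'] at hlen
    have hlen2 : (t2 + d) - (t1 - d) ≤ h := (le_abs_self _).trans hlen
    have hab : t1 - d < t2 + d := by linarith
    have h3 := interval_lower hp hab hvc (hsuppK.trans fun t ht =>
      ⟨by have := hmin ht; linarith, by have := hmax ht; linarith⟩)
    refine le_trans ?_ h3
    apply mul_le_mul_of_nonneg_right _ (integral_nonneg fun t => Real.rpow_nonneg (abs_nonneg _) _)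
    apply Real.rpow_le_rpow (by positivity) _ hp0.le
    apply div_le_div_of_nonneg_left (by positivity) (by linarith) hlen2

theorem lam_pos {p : ℝ} (hp : 1 < p) {Om : Set E} (hOm : Om ∈ KK) : 0 < lam p Om := by
  obtain ⟨ho, -, hb, hne⟩ := hOm
  obtain ⟨R, hR⟩ := hb.exists_norm_le
  have hch : ∀ x ∈ Om, ∀ x' ∈ Om, x 0 = x' 0 → |x 1 - x' 1| ≤ 2 * (|R| + 1) := by
    intro x hx x' hx' _
    have h1 : ∀ y ∈ Om, |y 1| ≤ |R| := by
      intro y hy
      have h2 : (y 1) ^ 2 ≤ ‖y‖ ^ 2 := by rw [norm_sq_E]; nlinarith [sq_nonneg (y 0)]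
      have h3 := sq_le_sq.1 h2
      rw [abs_of_nonneg (norm_nonneg _)] at h3
      exact h3.trans ((hR y hy).trans (le_abs_self R))
    have h4 := h1 x hx
    have h5 := h1 x' hx'
    have h6 := abs_sub (x 1) (x' 1)
    linarith
  have hT := Tp_pos hp one_pos
  have hR0 : 0 < 2 * (|R| + 1) := by positivity
  exact lt_of_lt_of_le (Real.rpow_pos_of_pos (by positivity) p) (chord_bound hp ho hne hR0 hch)

end Pool.Agent.PLap
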