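import Pool.Agent.PLap.Defs

/-!
Coord: Cartesian coordinates of the plane `E`; Fubini.
-/

set_option autoImplicit false

open MeasureTheory Set Filter Topology
open scoped ENNReal NNReal ContDiff RealInnerProductSpace

namespace Pool.Agent.PLap

/-- the point with coordinates `s, t` -/
noncomputable def pl (s t : ℝ) : E := !₂[s, t]

@[simp] theorem pl_zero' (s t : ℝ) : pl s t 0 = s := rfl
@[simp] theorem pl_one' (s t : ℝ) : pl s t 1 = t := rfl

theorem pl_eta (x : E) : pl (x 0) (x 1) = x := by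
  ext i; fin_cases i <;> rfl

theorem pl_ext {x y : E} (h0 : x 0 = y 0) (h1 : x 1 = y 1) : x = y := by
  rw [← pl_eta x, ← pl_eta y, h0, h1]

theorem pl_eq (s t : ℝ) : pl s t = s • bb 0 + t • bb 1 := by
  apply pl_ext <;> simp [bb]

theorem norm_bb (i : Fin 2) : ‖bb i‖ = 1 := by simp [bb]

theorem norm_sq_E (x : E) : ‖x‖ ^ 2 = x 0 ^ 2 + x 1 ^ 2 := by
  rw [EuclideanSpace.norm_sq_eq, Fin.sum_univ_two]; simp

theorem norm_sq_pl (s t : ℝ) : ‖pl s t‖ ^ 2 = s ^ 2 + t ^ 2 := by
  rw [norm_sq_E]; simp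

theorem contDiff_pl : ContDiff ℝ ∞ (fun z : ℝ × ℝ => pl z.1 z.2) := by
  have : (fun z : ℝ × ℝ => pl z.1 z.2) = fun z : ℝ × ℝ => z.1 • bb 0 + z.2 • bb 1 := by
    funext z; exact pl_eq _ _
  rw [this]
  exact (contDiff_fst.smul contDiff_const).add (contDiff_snd.smul contDiff_const)

theorem continuous_pl : Continuous (fun z : ℝ × ℝ => pl z.1 z.2) := contDiff_pl.continuous

theorem contDiff_pl_right (s : ℝ) : ContDiff ℝ ∞ (pl s) :=
  contDiff_pl.comp (contDiff_const.prodMk contDiff_id)

theorem contDiff_pl_left (t : ℝ) : ContDiff ℝ ∞ (fun s => pl s t) :=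
  contDiff_pl.comp (contDiff_id.prodMk contDiff_const)

theorem continuous_pl_right (s : ℝ) : Continuous (pl s) := (contDiff_pl_right s).continuous

theorem hasDerivAt_pl_right (s t : ℝ) : HasDerivAt (pl s) (bb 1) t := by
  have h1 : HasDerivAt (fun t : ℝ => s • bb 0 + t • bb 1) (bb 1) t := by
    have h2 := ((hasDerivAt_id t).smul_const (bb 1)).const_add (s • bb 0)
    simpa using h2
  have h3 : pl s = fun t : ℝ => s • bb 0 + t • bb 1 := by funext t; exact pl_eq s t
  rw [h3]; exact h1

theorem hasDerivAt_pl_left (s t : ℝ) : HasDerivAt (fun s => pl s t) (bb 0) s := by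
  have h1 : HasDerivAt (fun s : ℝ => s • bb 0 + t • bb 1) (bb 0) s := by
    have h2 := ((hasDerivAt_id s).smul_const (bb 0)).add_const (t • bb 1)
    simpa using h2
  have h3 : (fun s => pl s t) = fun s : ℝ => s • bb 0 + t • bb 1 := by funext s; exact pl_eq s t
  rw [h3]; exact h1

/-- coordinates as a measurable equivalence -/
noncomputable def plM : ℝ × ℝ ≃ᵐ E :=
  MeasurableEquiv.finTwoArrow.symm.trans (MeasurableEquiv.toLp 2 (Fin 2 → ℝ))

theorem plM_apply (z : ℝ × ℝ) : plM z = pl z.1 z.2 := rfl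

theorem measurePreserving_plM : MeasurePreserving plM :=
  (volume_preserving_finTwoArrow ℝ).symm.trans
    (EuclideanSpace.volume_preserving_symm_measurableEquiv_toLp (Fin 2)).symm

theorem integrable_pl_iff {G : Type*} [NormedAddCommGroup G] {g : E → G} :
    Integrable (fun z : ℝ × ℝ => g (pl z.1 z.2)) ↔ Integrable g := by
  have h := measurePreserving_plM.integrable_comp_emb plM.measurableEmbedding (g := g)
  exact h

theorem integral_pl {g : E → ℝ} (hg : Integrable g) :
    ∫ x, g x = ∫ s, ∫ t, g (pl s t) := by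
  have h1 : ∫ x, g x = ∫ z : ℝ × ℝ, g (pl z.1 z.2) := by
    rw [← measurePreserving_plM.integral_comp plM.measurableEmbedding g]
    rfl
  rw [h1]
  exact integral_prod _ (integrable_pl_iff.2 hg)

theorem integrable_slice {g : E → ℝ} (hg : Integrable g) :
    Integrable (fun s => ∫ t, g (pl s t)) :=
  (integrable_pl_iff.2 hg).integral_prod_left

end Pool.Agent.PLap
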