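import Pool.Agent.PLap.Sub

/-!
Cpt: compactness of the class of convex functions between two barriers, convergence of gradients.

compactness: a, B continuous on P, so |w_n| <= M on every compact subset, hence (Mathlib `ConvexOn.lipschitzOnWith_of_abs_le`) the w_n are
uniformly Lipschitz on small balls. Choose a countable dense subset D of P and a subsequence converging on D (the product over D of the compact
intervals [a d, B d] is compact and metrizable, so sequentially compact); the uniform local Lipschitz bound makes w_n(x) Cauchy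
for every x in P. Limits of convex functions are convex and the bounds pass to the limit (outside P put w = 0).
gradients: if w_n -> w pointwise on P (all convex) and all w_n and w are differentiable at x, then gradient w_n x -> gradient w x:
<g_n, v> <= (w_n(x + h v) - w_n(x)) / h for small h > 0, let n go to infinity and then h to 0; the same for - v.
a.e. statement: Rademacher, locally.
-/

set_option autoImplicit false

open MeasureTheory Set Filter Topology
open scoped ENNReal NNReal ContDiff RealInnerProductSpace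

namespace Pool.Agent.PLap

theorem convex_ae_diff {P : Set E} (ho : IsOpen P) {w : E → ℝ} (hw : ConvexOn ℝ P w) :
    ∀ᵐ x ∂(volume.restrict P), DifferentiableAt ℝ w x := by
  rw [ae_restrict_iff' ho.measurableSet, ae_iff]
  refine measure_null_of_locally_null _ fun x hx => ?_
  have hxP : x ∈ P := by
    by_contra h
    exact hx (fun h2 => absurd h2 h)
  obtain ⟨K, t, ht, hK⟩ := convex_locLip ho hw hxP
  rw [ho.nhdsWithin_eq hxP] at ht
  obtain ⟨r, hr, hrt⟩ := Metric.mem_nhds_iff.1 ht
  have hK2 : LipschitzOnWith K w (Metric.ball x r) := hK.mono hrt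
  have hae := hK2.ae_differentiableWithinAt_of_mem (μ := (volume : Measure E))
  rw [ae_iff] at hae
  refine ⟨Metric.ball x r ∩ {y | ¬(y ∈ P → DifferentiableAt ℝ w y)}, ?_, ?_⟩
  · exact Filter.inter_mem (mem_nhdsWithin_of_mem_nhds (Metric.ball_mem_nhds x hr))
      self_mem_nhdsWithin
  · refine measure_mono_null (fun y hy => ?_) hae
    intro h
    have h1 : DifferentiableAt ℝ w y :=
      (h hy.1).differentiableAt (Metric.isOpen_ball.mem_nhds hy.1)
    exact hy.2 fun _ => h1

theorem cpt_lip {P : Set E} (ho : IsOpen P) {a B : E → ℝ}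
    (ha : ContinuousOn a P) (hB : ContinuousOn B P) {x : E} (hx : x ∈ P) :
    ∃ r > 0, ∃ C : ℝ≥0, Metric.ball x r ⊆ P ∧
      ∀ w : E → ℝ, Adm P a B w → LipschitzOnWith C w (Metric.ball x r) := by
  obtain ⟨R, hR, hRP⟩ := Metric.isOpen_iff.1 ho x hx
  obtain ⟨r, hr0, hrR⟩ : ∃ r : ℝ, 0 < r ∧ r + r < R := ⟨R / 4, by positivity, by linarith⟩
  have hcb : Metric.closedBall x (r + r) ⊆ P :=
    (Metric.closedBall_subset_ball hrR).trans hRP
  have hcomp : IsCompact (Metric.closedBall x (r + r)) := isCompact_closedBall x (r + r)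
  obtain ⟨M1, hM1⟩ := hcomp.exists_bound_of_continuousOn (ha.mono hcb)
  obtain ⟨M2, hM2⟩ := hcomp.exists_bound_of_continuousOn (hB.mono hcb)
  refine ⟨r, hr0, (2 * (max M1 M2) / r).toNNReal, ?_, fun w hw => ?_⟩
  · exact fun y hy => hcb (Metric.ball_subset_closedBall (Metric.ball_subset_ball (by linarith) hy))
  · have hconv : ConvexOn ℝ (Metric.ball x (r + r)) w :=
      hw.conv.subset (Metric.ball_subset_closedBall.trans hcb) (convex_ball x (r + r))
    have h := hconv.lipschitzOnWith_of_abs_le (ε := r) (M := max M1 M2) hr0 (fun y hy => by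
      have hy2 : y ∈ Metric.closedBall x (r + r) := Metric.mem_closedBall.2 hy.le
      have h1 := hM1 y hy2
      have h2 := hM2 y hy2
      rw [Real.norm_eq_abs] at h1 h2
      have h3 := hw.lb y (hcb hy2)
      have h4 := hw.ub y (hcb hy2)
      rw [abs_le] at h1 h2 ⊢
      constructor
      · have := le_max_left M1 M2
        linarith [h1.1]
      · have := le_max_right M1 M2
        linarith [h2.2])
    have e : r + r - r = r := by ring
    rwa [e] at h

theorem adm_compact {P : Set E} (ho : IsOpen P) (hc : Convex ℝ P) {a B : E → ℝ}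
    (ha : ContinuousOn a P) (hB : ContinuousOn B P) {w : ℕ → E → ℝ} (hw : ∀ n, Adm P a B (w n)) :
    ∃ (w0 : E → ℝ) (ph : ℕ → ℕ), StrictMono ph ∧ Adm P a B w0 ∧
      ∀ x ∈ P, Tendsto (fun n => w (ph n) x) atTop (𝓝 (w0 x)) := by
  obtain ⟨D, hDc, hDd⟩ := TopologicalSpace.exists_countable_dense (↥P)
  have : Countable D := hDc.to_subtype
  have hK : IsCompact (Set.pi univ (fun d : D => Icc (a d.1.1) (B d.1.1))) :=
    isCompact_univ_pi fun d => isCompact_Icc
  obtain ⟨l, _, ph, hph, hl⟩ := hK.tendsto_subseq (x := fun n (d : D) => w n d.1.1)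
    (fun n d _ => ⟨(hw n).lb _ d.1.2, (hw n).ub _ d.1.2⟩)
  have hl2 : ∀ d : D, Tendsto (fun n => w (ph n) d.1.1) atTop (𝓝 (l d)) := fun d =>
    (tendsto_pi_nhds.1 hl) d
  have hlim : ∀ x ∈ P, ∃ v : ℝ, Tendsto (fun n => w (ph n) x) atTop (𝓝 v) := by
    intro x hx
    refine cauchySeq_tendsto_of_complete ?_
    obtain ⟨r, hr, C, hrP, hC⟩ := cpt_lip ho ha hB hx
    rw [Metric.cauchySeq_iff']
    intro eps heps
    obtain ⟨s, hs, hs2, hs3⟩ : ∃ s : ℝ, 0 < s ∧ s ≤ r ∧ C * s ≤ eps / 4 := by
      refine ⟨min r (eps / 4 / (C + 1)), by positivity, min_le_left _ _, ?_⟩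
      have h1 : (C : ℝ) * min r (eps / 4 / (C + 1)) ≤ C * (eps / 4 / (C + 1)) :=
        mul_le_mul_of_nonneg_left (min_le_right _ _) C.2
      have h2 : (C : ℝ) * (eps / 4 / (C + 1)) ≤ eps / 4 := by
        have h3 : (0 : ℝ) < C + 1 := by positivity
        rw [mul_div_assoc', div_le_iff₀ h3]
        nlinarith [C.2]
      exact h1.trans h2
    obtain ⟨d, hd, hdD⟩ : ∃ d ∈ D, dist (d : E) x < s := by
      have h4 : ({y : P | dist (y : E) x < s}).Nonempty := ⟨⟨x, hx⟩, by
        show dist x x < s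
        rw [dist_self]
        exact hs⟩
      have h5 : IsOpen {y : P | dist (y : E) x < s} :=
        isOpen_lt (continuous_subtype_val.dist continuous_const) continuous_const
      obtain ⟨y, hy1, hy2⟩ := hDd.inter_open_nonempty _ h5 h4
      exact ⟨y, hy2, hy1⟩
    have h6 := (hl2 ⟨d, hd⟩).cauchySeq
    rw [Metric.cauchySeq_iff'] at h6
    obtain ⟨N, hN⟩ := h6 (eps / 4) (by positivity)
    refine ⟨N, fun n hn => ?_⟩
    have h7 : ∀ m : ℕ, dist (w m x) (w m d) ≤ eps / 4 := by
      intro m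
      have h8 := (hC (w m) (hw m)).dist_le_mul x (Metric.mem_ball_self hr) d
        (Metric.mem_ball.2 (hdD.trans_le hs2))
      refine h8.trans ?_
      have h9 : (C : ℝ) * dist x (d : E) ≤ C * s := by
        rw [dist_comm]
        exact mul_le_mul_of_nonneg_left hdD.le C.2
      exact h9.trans hs3
    have h10 : dist (w (ph n) d) (w (ph N) d) < eps / 4 := hN n hn
    calc dist (w (ph n) x) (w (ph N) x)
        ≤ dist (w (ph n) x) (w (ph n) d) + dist (w (ph n) d) (w (ph N) d) +
          dist (w (ph N) d) (w (ph N) x) := dist_triangle4 _ _ _ _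
      _ < eps := by
        have h11 := h7 (ph n)
        have h12 := h7 (ph N)
        rw [dist_comm] at h12
        linarith
  choose! w0 hw0 using hlim
  refine ⟨w0, ph, hph, ⟨⟨hc, ?_⟩, ?_, ?_⟩, hw0⟩
  · intro x hx y hy s t hs ht hst
    have hz : s • x + t • y ∈ P := hc hx hy hs ht hst
    refine le_of_tendsto_of_tendsto' (hw0 _ hz)
      (((hw0 x hx).const_smul s).add ((hw0 y hy).const_smul t)) fun n => ?_
    exact (hw (ph n)).conv.2 hx hy hs ht hst
  · intro x hx
    exact ge_of_tendsto' (hw0 x hx) fun n => (hw (ph n)).lb x hx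
  · intro x hx
    exact le_of_tendsto' (hw0 x hx) fun n => (hw (ph n)).ub x hx

theorem cpt_upper {P : Set E} (ho : IsOpen P) {w : ℕ → E → ℝ} {w0 : E → ℝ}
    (hw : ∀ n, ConvexOn ℝ P (w n))
    (hlim : ∀ x ∈ P, Tendsto (fun n => w n x) atTop (𝓝 (w0 x))) {x : E} (hx : x ∈ P)
    (hd : ∀ n, DifferentiableAt ℝ (w n) x) (hd0 : DifferentiableAt ℝ w0 x) (v : E)
    {c : ℝ} (hc : ⟪gradient w0 x, v⟫ < c) : ∀ᶠ n in atTop, ⟪gradient (w n) x, v⟫ < c := by
  have h1 : HasDerivAt (fun t : ℝ => w0 (x + t • v)) ⟪gradient w0 x, v⟫ 0 := by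
    have h2 : HasDerivAt (fun t : ℝ => x + t • v) v 0 := by
      have h3 : HasDerivAt (fun t : ℝ => t • v) ((1 : ℝ) • v) 0 :=
        (hasDerivAt_id (0 : ℝ)).smul_const v
      rw [one_smul] at h3
      exact h3.const_add x
    have h4 : HasFDerivAt w0 (InnerProductSpace.toDual ℝ E (gradient w0 x)) (x + (0 : ℝ) • v) := by
      rw [zero_smul, add_zero]
      exact hd0.hasGradientAt.hasFDerivAt
    have h5 := h4.comp_hasDerivAt (0 : ℝ) h2
    rwa [InnerProductSpace.toDual_apply_apply] at h5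
  have h6 := h1.tendsto_slope_zero_right
  have h7 : ∀ᶠ t : ℝ in 𝓝[>] 0, t⁻¹ • (w0 (x + (0 + t) • v) - w0 (x + (0 : ℝ) • v)) < c :=
    h6.eventually_lt_const hc
  have h8 : ∀ᶠ t : ℝ in 𝓝[>] 0, x + t • v ∈ P := by
    have h9 : ContinuousAt (fun t : ℝ => x + t • v) 0 := by fun_prop
    have h10 : P ∈ 𝓝 (x + (0 : ℝ) • v) := by
      rw [zero_smul, add_zero]
      exact ho.mem_nhds hx
    exact nhdsWithin_le_nhds (h9.preimage_mem_nhds h10)
  obtain ⟨t, ht1, ht2, ht3⟩ := (h7.and (h8.and self_mem_nhdsWithin)).exists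
  have ht0 : 0 < t := ht3
  rw [zero_add, zero_smul, add_zero, smul_eq_mul, inv_mul_lt_iff₀ ht0] at ht1
  have h11 : Tendsto (fun n => w n (x + t • v) - w n x) atTop (𝓝 (w0 (x + t • v) - w0 x)) :=
    (hlim _ ht2).sub (hlim x hx)
  filter_upwards [h11.eventually_lt_const ht1] with n hn
  have h12 := grad_le ho (hw n) hx (hd n) ht2
  rw [add_sub_cancel_left, inner_smul_right] at h12
  have h13 : t * ⟪gradient (w n) x, v⟫ < t * c := by linarith
  exact lt_of_mul_lt_mul_left h13 ht0.le

theorem grad_tendsto {P : Set E} (ho : IsOpen P) (hc : Convex ℝ P) {w : ℕ → E → ℝ} {w0 : E → ℝ}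
    (hw : ∀ n, ConvexOn ℝ P (w n)) (hw0 : ConvexOn ℝ P w0)
    (hlim : ∀ x ∈ P, Tendsto (fun n => w n x) atTop (𝓝 (w0 x))) {x : E} (hx : x ∈ P)
    (hd : ∀ n, DifferentiableAt ℝ (w n) x) (hd0 : DifferentiableAt ℝ w0 x) :
    Tendsto (fun n => gradient (w n) x) atTop (𝓝 (gradient w0 x)) := by
  have hv : ∀ v : E, Tendsto (fun n => ⟪gradient (w n) x, v⟫) atTop
      (𝓝 ⟪gradient w0 x, v⟫) := by
    intro v
    rw [tendsto_order]
    constructor
    · intro c hc
      have h1 : ⟪gradient w0 x, -v⟫ < -c := by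
        rw [inner_neg_right]
        linarith
      filter_upwards [cpt_upper ho hw hlim hx hd hd0 (-v) h1] with n hn
      rw [inner_neg_right] at hn
      linarith
    · intro c hc
      exact cpt_upper ho hw hlim hx hd hd0 v hc
  have hrep : ∀ g : E, g = ∑ i, ⟪g, EuclideanSpace.basisFun (Fin 2) ℝ i⟫ •
      (EuclideanSpace.basisFun (Fin 2) ℝ i : E) := by
    intro g
    conv_lhs => rw [← (EuclideanSpace.basisFun (Fin 2) ℝ).sum_repr' g]
    refine Finset.sum_congr rfl fun i _ => ?_
    rw [real_inner_comm]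
  have h2 : Tendsto (fun n => ∑ i, ⟪gradient (w n) x, EuclideanSpace.basisFun (Fin 2) ℝ i⟫ •
      (EuclideanSpace.basisFun (Fin 2) ℝ i : E)) atTop
      (𝓝 (∑ i, ⟪gradient w0 x, EuclideanSpace.basisFun (Fin 2) ℝ i⟫ •
      (EuclideanSpace.basisFun (Fin 2) ℝ i : E))) :=
    tendsto_finsetSum _ fun i _ => (hv _).smul_const _
  rw [← hrep] at h2
  refine h2.congr fun n => ?_
  exact (hrep _).symm

end Pool.Agent.PLap
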