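import Mathlib

/-!
Definitions for MP_d18ab3_an (ratios of first eigenvalues of the p-Laplacian).
Paper proof of everything: /team-store/MP_d18ab3_PLap.md (and the headers of the modules).

* `E` the Euclidean plane; `IsTest Om u`: u is smooth, compactly supported, support inside Om;
* `lam p Om` first Dirichlet eigenvalue = infimum of the Rayleigh quotients over nonzero test functions;
* `KK` bounded nonempty open convex sets, `RR p q Om` the ratio, `CC p q` its value on the unit interval;
* `Tp p L` (in module Tp, by helper84) = int_0^oo dr / (L + (p-1) r^(p/(p-1)));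
* `om, VV, FF, GG` the regularised energy density: FF is the energy, grad FF = p VV, GG = p <VV y, y> - FF;
* `al, be, ze, AA`: the derivative of VV is AA = al * id + be * ze tensor ze;
* `dv` divergence of a planar field;
* `Adm P a B w`: w is convex on P and a <= w <= B there; `NN / DD` the Rayleigh quotient of exp(-w).
-/

set_option autoImplicit false

open MeasureTheory Set Filter Topology
open scoped ENNReal NNReal ContDiff RealInnerProductSpace

namespace Pool.Agent.PLap

/-- The Euclidean plane. -/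
abbrev E := EuclideanSpace ℝ (Fin 2)

/-- Test functions: smooth with compact support contained in `Om`. -/
def IsTest {F : Type*} [NormedAddCommGroup F] [NormedSpace ℝ F] (Om : Set F) (u : F → ℝ) : Prop :=
  ContDiff ℝ ∞ u ∧ HasCompactSupport u ∧ tsupport u ⊆ Om

/-- First Dirichlet eigenvalue of the p-Laplacian: infimum of the Rayleigh quotients. -/
noncomputable def lam {F : Type*} [NormedAddCommGroup F] [NormedSpace ℝ F] [MeasureSpace F]
    (p : ℝ) (Om : Set F) : ℝ :=
  sInf {t : ℝ | ∃ u : F → ℝ, IsTest Om u ∧ u ≠ 0 ∧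
    t = (∫ x, ‖fderiv ℝ u x‖ ^ p) / ∫ x, |u x| ^ p}

/-- Bounded nonempty open convex subsets of the plane. -/
def KK : Set (Set E) := {Om | IsOpen Om ∧ Convex ℝ Om ∧ Bornology.IsBounded Om ∧ Om.Nonempty}

/-- The ratio `lam p Om ^ (1/p) / lam q Om ^ (1/q)`. -/
noncomputable def RR (p q : ℝ) (Om : Set E) : ℝ := lam p Om ^ (1 / p) / lam q Om ^ (1 / q)

/-- The ratio for the interval `(0, 1)`. -/
noncomputable def CC (p q : ℝ) : ℝ :=
  lam p (Ioo (0 : ℝ) 1) ^ (1 / p) / lam q (Ioo (0 : ℝ) 1) ^ (1 / q)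

/-- standard basis of the plane -/
noncomputable def bb (i : Fin 2) : E := EuclideanSpace.single i 1

/-- rotation by a right angle -/
noncomputable def rot (y : E) : E := !₂[-(y 1), y 0]

/-- divergence -/
noncomputable def dv (X : E → E) (x : E) : ℝ := ∑ i, (fderiv ℝ X x (bb i)) i

/-- weight `s^((p-2)/2)`, made positive and C^1 for `s < del^2` -/
noncomputable def om (p del s : ℝ) : ℝ :=
  if s < del ^ 2 then del ^ (p - 2) * Real.exp ((p - 2) / 2 * (s / del ^ 2 - 1))
  else s ^ ((p - 2) / 2)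

noncomputable def VV (p del : ℝ) (y : E) : E := om p del (‖y‖ ^ 2) • y

noncomputable def FF (p del : ℝ) (y : E) : ℝ :=
  del ^ p + p / 2 * ∫ s in (0 : ℝ)..(‖y‖ ^ 2), om p del s

noncomputable def GG (p del : ℝ) (y : E) : ℝ :=
  p * (om p del (‖y‖ ^ 2) * ‖y‖ ^ 2) - FF p del y

noncomputable def al (p del : ℝ) (y : E) : ℝ :=
  if 2 ≤ p then om p del (‖y‖ ^ 2)
  else om p del (‖y‖ ^ 2) * (1 + (p - 2) * ‖y‖ ^ 2 / max (‖y‖ ^ 2) (del ^ 2))

noncomputable def be (p del : ℝ) (y : E) : ℝ :=
  |p - 2| * om p del (‖y‖ ^ 2) / max (‖y‖ ^ 2) (del ^ 2)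

noncomputable def ze (p : ℝ) (y : E) : E := if 2 ≤ p then y else rot y

/-- derivative of `VV` -/
noncomputable def AA (p del : ℝ) (y : E) : E →L[ℝ] E :=
  al p del y • ContinuousLinearMap.id ℝ E +
    be p del y • (innerSL ℝ (ze p y)).smulRight (ze p y)

/-- convex functions on `P` between `a` and `B` -/
structure Adm (P : Set E) (a B w : E → ℝ) : Prop where
  conv : ConvexOn ℝ P w
  lb : ∀ x ∈ P, a x ≤ w x
  ub : ∀ x ∈ P, w x ≤ B x

/-- numerator of the Rayleigh quotient of `exp (-w)` -/
noncomputable def NN (p del : ℝ) (P : Set E) (w : E → ℝ) : ℝ≥0∞ :=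
  ∫⁻ x in P, ENNReal.ofReal (Real.exp (-p * w x) * FF p del (gradient w x))

/-- denominator of the Rayleigh quotient of `exp (-w)` -/
noncomputable def DD (p : ℝ) (P : Set E) (w : E → ℝ) : ℝ := ∫ x in P, Real.exp (-p * w x)

/-- `div VV(grad f) - GG(grad f)` -/
noncomputable def sd (p del : ℝ) (f : E → ℝ) (x : E) : ℝ :=
  dv (fun z => VV p del (gradient f z)) x - GG p del (gradient f x)

/-- `v = w` off a compact subset of `P` -/
def EqOff (P : Set E) (v w : E → ℝ) : Prop :=
  ∃ K : Set E, IsCompact K ∧ K ⊆ P ∧ ∀ x ∈ P \ K, v x = w x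

/-- The standing assumptions on the polygon `P`, the barriers `a <= B` and the bound `lmax`. -/
structure Setup (p del : ℝ) (P : Set E) (a B : E → ℝ) (lmax : ℝ) : Prop where
  hp : 1 < p
  hdel : 0 < del
  isOpen : IsOpen P
  convex : Convex ℝ P
  bounded : Bornology.IsBounded P
  nonempty : P.Nonempty
  a2 : ContDiffOn ℝ 2 a P
  B2 : ContDiffOn ℝ 2 B P
  proper : ∀ R : ℝ, IsCompact {x | x ∈ P ∧ a x ≤ R}
  start : ∃ w0, Adm P a B w0 ∧ NN p del P w0 ≤ ENNReal.ofReal (lmax * DD p P w0)
  cc : ∀ w, Adm P a B w → ∀ l ∈ Icc 0 lmax, ∃ Lam : ℝ,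
    (∀ x ∈ P, w x = a x → 1 / 2 ≤ sd p del a x - l + Lam) ∧
    (∀ x ∈ P, w x = B x → sd p del B x - l + Lam ≤ -(1 / 2))

/-- tangent plane of `w` at `z`, evaluated at `x` -/
noncomputable def tg (w : E → ℝ) (z x : E) : ℝ := w z + ⟪gradient w z, x - z⟫

/-- second difference quotient of `W` at `x` in the directions prescribed by `y`
(without the subtraction of the values at `x`) -/
noncomputable def sh (p del h : ℝ) (W : E → ℝ) (x y : E) : ℝ :=
  (al p del y * ∑ i, (W (x + h • bb i) + W (x - h • bb i)) +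
    be p del y * (W (x + h • ze p y) + W (x - h • ze p y))) / h ^ 2

/-- the coefficient subtracted: `sh h W x y - ch h y * W x` is a second difference -/
noncomputable def ch (p del h : ℝ) (y : E) : ℝ := (4 * al p del y + 2 * be p del y) / h ^ 2

/-- first-order condition for the minimiser `w` -/
def FOC (p del l : ℝ) (P : Set E) (a B w : E → ℝ) : Prop :=
  ∀ v, Adm P a B v → EqOff P v w →
    0 ≤ ∫ x in P, Real.exp (-p * w x) * (⟪VV p del (gradient w x), gradient v x - gradient w x⟫ -
      (FF p del (gradient w x) - l) * (v x - w x))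

/-- first-order condition after integration by parts -/
def ELI (p del l : ℝ) (P : Set E) (a B w : E → ℝ) : Prop :=
  ∀ v, Adm P a B v → EqOff P v w →
    ∫ x in P, (v x - w x) * (Real.exp (-p * w x) * (sd p del w x - l)) ≤ 0

/-- `w` is differentiable with locally Lipschitz gradient on `P` -/
structure C11 (P : Set E) (w : E → ℝ) : Prop where
  diff : ∀ x ∈ P, DifferentiableAt ℝ w x
  lip : LocallyLipschitzOn P (gradient w)

/-- The one-dimensional comparison function. -/
structure CompFn (p q L m : ℝ) (Th : ℝ → ℝ) : Prop where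
  zero : Th 0 = 0
  pos : ∀ r, 0 < r → 0 < Th r
  deriv : ∀ r, 0 < r → HasDerivAt Th
    ((m + (q - 1) * Th r ^ (q / (q - 1))) / (L + (p - 1) * r ^ (p / (p - 1)))) r
  deriv0 : HasDerivWithinAt Th (m / L) (Ici 0) 0
  top : Tendsto Th atTop atTop

/-- nonempty bounded open polygon -/
def IsPoly (P : Set E) : Prop :=
  ∃ (n : ℕ) (nu : Fin n → E) (c : Fin n → ℝ), (∀ i, ‖nu i‖ = 1) ∧
    P = {x | ∀ i, ⟪nu i, x⟫ < c i} ∧ Bornology.IsBounded P ∧ P.Nonempty

end Pool.Agent.PLap
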