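import Pool.Agent.PLap.Sub
import Pool.Agent.PLap.Div
import Pool.Agent.PLap.OM2

/-!
DivF: the divergence of the modified field.

At x let y = grad w x, M the derivative of grad w at x (symmetric), g = |y| > 0, e = y/g, f = rot e, a = <Me,e>, b = <Mf,f>, cc = <Me,f>, s = <x,e>, t = <x,f>,
o = om(g^2), r = |VV y| = o g, a1 = o (1 + (p-2) g^2/max(g^2,del^2)).
VV' = AA(y) has AA e = a1 e, AA f = o f (AA_eq), so dv(VV o grad w)(x) = tr(AA M) = a1 a + o b (trace in the orthonormal basis e, f; M symmetric).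
|VV(grad w z)| is differentiable at x with gradient a1 M e: indeed d/dg (om(g^2) g) = a1 and grad |grad w| = M e. So
dv(kk(|V|) V) = kk(r) dv V + kd(r) <a1 M e, V> = kk D + kd r a1 a = kk D + kd r (D - o b).
W(z) = |grad w z| z - (<z, grad w z>/|grad w z|) grad w z. dv W = 2g + <Me,x> - <grad<z,grad w>, e> - <x,y> dv(e) = 2g + <Me,x> - (g + <Mx,e>) - s b = g - s b
(grad_z <z, grad w z> = y + M x, dv(grad w/|grad w|) = tr M/g - <Me,e>/g = b/g).
dv(et(|grad w|) W) = et dv W + et'(g) <Me, W>, W(x) = g(x - s e) = g t f, <Me,W> = g t cc.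
Norm: kk V + et W = kk r e + et g t f, e orthogonal to f unit vectors.
zero case: if y = 0 and et vanishes near 0 then near x (grad w continuous at x) the second part vanishes, kk(|V|)V has derivative kk(0) DV at x (kk is right continuous at 0, |kk(|V z|) V z - kk(0) V z| = o(|z-x|)
because V x = 0 and V is differentiable at x), so dv = kk 0 * dv V.
The formulas a, b >= 0 and cc^2 <= a b: from hess_nonneg and Cauchy-Schwarz for the semidefinite form (separate lemma cs_psd).
-/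

set_option autoImplicit false

open MeasureTheory Set Filter Topology
open scoped ENNReal NNReal ContDiff RealInnerProductSpace

namespace Pool.Agent.PLap

/-- the modified field -/
noncomputable def Fld (p del : ℝ) (kk et : ℝ → ℝ) (w : E → ℝ) (z : E) : E :=
  kk ‖VV p del (gradient w z)‖ • VV p del (gradient w z) +
    et ‖gradient w z‖ • (‖gradient w z‖ • z -
      (⟪z, gradient w z⟫ / ‖gradient w z‖) • gradient w z)

private theorem DivF_inner (u v : E) : ⟪u, v⟫ = u 0 * v 0 + u 1 * v 1 := by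
  rw [PiLp.inner_apply, Fin.sum_univ_two]
  simp only [RCLike.inner_apply, conj_trivial]
  ring

private theorem DivF_norm (u : E) : ‖u‖ ^ 2 = u 0 ^ 2 + u 1 ^ 2 := by
  rw [← real_inner_self_eq_norm_sq, DivF_inner]
  ring

private theorem DivF_rot0 (e : E) : rot e 0 = -(e 1) := by
  simp [rot]

private theorem DivF_rot1 (e : E) : rot e 1 = e 0 := by
  simp [rot]

/-- the trace in an orthonormal frame -/
private theorem DivF_tr (A : E →L[ℝ] E) {e : E} (he : ‖e‖ = 1) :
    ∑ i, (A (bb i)) i = ⟪A e, e⟫ + ⟪A (rot e), rot e⟫ := by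
  have h0 : e 0 ^ 2 + e 1 ^ 2 = 1 := by
    rw [← DivF_norm, he]; norm_num
  have h1 : e = e 0 • bb 0 + e 1 • bb 1 := by
    ext j
    fin_cases j <;> simp [bb]
  have h2 : rot e = (-(e 1)) • bb 0 + e 0 • bb 1 := by
    ext j
    fin_cases j <;> simp [bb, rot]
  have h3 : A e = e 0 • A (bb 0) + e 1 • A (bb 1) := by
    conv_lhs => rw [h1]
    rw [map_add, map_smul, map_smul]
  have h4 : A (rot e) = (-(e 1)) • A (bb 0) + e 0 • A (bb 1) := by
    conv_lhs => rw [h2]
    rw [map_add, map_smul, map_smul]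
  rw [DivF_inner, DivF_inner, h3, h4, DivF_rot0, DivF_rot1, Fin.sum_univ_two]
  simp only [PiLp.add_apply, PiLp.smul_apply, smul_eq_mul]
  have h5 : (e 0 * (A (bb 0)) 0 + e 1 * (A (bb 1)) 0) * e 0 +
      (e 0 * (A (bb 0)) 1 + e 1 * (A (bb 1)) 1) * e 1 +
      ((-(e 1) * (A (bb 0)) 0 + e 0 * (A (bb 1)) 0) * (-(e 1)) +
      (-(e 1) * (A (bb 0)) 1 + e 0 * (A (bb 1)) 1) * e 0) =
      (e 0 ^ 2 + e 1 ^ 2) * ((A (bb 0)) 0 + (A (bb 1)) 1) := by ring
  rw [h5, h0, one_mul]

/-- derivative of the norm of a field -/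
private theorem DivF_nrm {f : E → E} {f' : E →L[ℝ] E} {x e : E} (hf : HasFDerivAt f f' x)
    (h0 : f x ≠ 0) (he : f x = ‖f x‖ • e) :
    HasFDerivAt (fun z => ‖f z‖) ((innerSL ℝ e).comp f') x := by
  have hn : 0 < ‖f x‖ := norm_pos_iff.2 h0
  have h1 := (hf.norm_sq).sqrt (by positivity)
  have h2 : (fun z => √(‖f z‖ ^ 2)) = fun z => ‖f z‖ := by
    funext z
    exact Real.sqrt_sq (norm_nonneg _)
  rw [h2] at h1
  refine h1.congr_fderiv ?_
  ext v
  have h3 : ⟪f x, f' v⟫ = ‖f x‖ * ⟪e, f' v⟫ := by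
    conv_lhs => rw [he]
    rw [real_inner_smul_left]
  simp only [smul_apply, ContinuousLinearMap.comp_apply, innerSL_apply_apply,
    smul_eq_mul, nsmul_eq_mul]
  rw [h3, Real.sqrt_sq (norm_nonneg _)]
  push_cast
  field_simp

theorem cs_psd {M : E →L[ℝ] E} (hs : ∀ u v, ⟪M u, v⟫ = ⟪u, M v⟫) (hn : ∀ v, 0 ≤ ⟪M v, v⟫) (u v : E) :
    ⟪M u, v⟫ ^ 2 ≤ ⟪M u, u⟫ * ⟪M v, v⟫ := by
  have h1 : ∀ t : ℝ, 0 ≤ ⟪M v, v⟫ * (t * t) + (2 * ⟪M u, v⟫) * t + ⟪M u, u⟫ := by
    intro t
    have h2 := hn (u + t • v)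
    have h3 : ⟪M v, u⟫ = ⟪M u, v⟫ := by
      rw [hs v u, real_inner_comm]
    rw [map_add, map_smul, inner_add_left, inner_add_right, inner_add_right,
      real_inner_smul_left, real_inner_smul_left, real_inner_smul_right,
      real_inner_smul_right, h3] at h2
    nlinarith
  have h4 := discrim_le_zero h1
  unfold discrim at h4
  nlinarith

private theorem DivF_VV {p del : ℝ} (hdel : 0 < del) {w : E → ℝ} {x : E} {M : E →L[ℝ] E}
    (hM : HasFDerivAt (gradient w) M x) :
    HasFDerivAt (fun z => VV p del (gradient w z)) ((AA p del (gradient w x)).comp M) x :=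
  (VV_hasFDerivAt hdel (gradient w x)).comp x hM

private theorem DivF_AAe {p del : ℝ} (hdel : 0 < del) {y e : E} (he : ‖e‖ = 1)
    (hy : y = ‖y‖ • e) (v : E) :
    ⟪AA p del y v, e⟫ = om p del (‖y‖ ^ 2) * (1 + (p - 2) * ‖y‖ ^ 2 / max (‖y‖ ^ 2) (del ^ 2)) *
      ⟪v, e⟫ := by
  have h1 : ⟪y, v⟫ = ‖y‖ * ⟪v, e⟫ := by
    conv_lhs => rw [hy]
    rw [real_inner_smul_left, real_inner_comm]
  have h2 : ⟪y, e⟫ = ‖y‖ := by
    conv_lhs => rw [hy]
    rw [real_inner_smul_left, real_inner_self_eq_norm_sq, he]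
    ring
  rw [AA_eq hdel, real_inner_smul_left, inner_add_left, real_inner_smul_left, h2, h1]
  ring

theorem dv_V_frame {p del : ℝ} (hdel : 0 < del) {w : E → ℝ} {x : E} {M : E →L[ℝ] E}
    (hM : HasFDerivAt (gradient w) M x) (hs : ∀ u v, ⟪M u, v⟫ = ⟪u, M v⟫) {e : E}
    (he : ‖e‖ = 1) (hy : gradient w x = ‖gradient w x‖ • e) (hy0 : gradient w x ≠ 0) :
    dv (fun z => VV p del (gradient w z)) x =
      om p del (‖gradient w x‖ ^ 2) *
          (1 + (p - 2) * ‖gradient w x‖ ^ 2 / max (‖gradient w x‖ ^ 2) (del ^ 2)) * ⟪M e, e⟫ +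
        om p del (‖gradient w x‖ ^ 2) * ⟪M (rot e), rot e⟫ := by
  unfold dv
  rw [(DivF_VV hdel hM).fderiv, DivF_tr _ he]
  simp only [ContinuousLinearMap.comp_apply]
  rw [DivF_AAe hdel he hy]
  congr 1
  have h1 : ⟪gradient w x, rot e⟫ = 0 := by
    rw [hy, real_inner_smul_left, inner_rot_self, mul_zero]
  rw [AA_eq hdel, real_inner_smul_left, inner_add_left, real_inner_smul_left, h1, mul_zero,
    add_zero]

private theorem DivF_dv_add {X Y : E → E} {x : E} (hX : DifferentiableAt ℝ X x)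
    (hY : DifferentiableAt ℝ Y x) : dv (fun z => X z + Y z) x = dv X x + dv Y x := by
  unfold dv
  rw [fderiv_fun_add hX hY, ← Finset.sum_add_distrib]
  rfl

private theorem DivF_dv_sub {X Y : E → E} {x : E} (hX : DifferentiableAt ℝ X x)
    (hY : DifferentiableAt ℝ Y x) : dv (fun z => X z - Y z) x = dv X x - dv Y x := by
  unfold dv
  rw [fderiv_fun_sub hX hY, ← Finset.sum_sub_distrib]
  rfl

private theorem DivF_dv_id (x : E) : dv (fun z => z) x = 2 := by
  unfold dv
  rw [fderiv_fun_id, Fin.sum_univ_two]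
  simp [bb]
  norm_num

/-- divergence of `f • X`, with the derivative of `f` given -/
private theorem DivF_dv_smul {f : E → ℝ} {f' : E →L[ℝ] ℝ} {X : E → E} {x : E}
    (hf : HasFDerivAt f f' x) (hX : DifferentiableAt ℝ X x) :
    dv (fun z => f z • X z) x = f x * dv X x + f' (X x) := by
  rw [dv_smul hf.differentiableAt hX, sub_grad_apply, hf.fderiv]

private theorem DivF_frame {x e : E} (he : ‖e‖ = 1) : x = ⟪x, e⟫ • e + ⟪x, rot e⟫ • rot e := by
  have h := plane_decomp e x
  rw [he, one_pow, one_smul, real_inner_comm x e, real_inner_comm x (rot e)] at h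
  exact h

/-- the rotational part of the modified field -/
private theorem DivF_W {w : E → ℝ} {x e : E} (he : ‖e‖ = 1)
    (hy : gradient w x = ‖gradient w x‖ • e) (hy0 : gradient w x ≠ 0) :
    ‖gradient w x‖ • x - (⟪x, gradient w x⟫ / ‖gradient w x‖) • gradient w x =
      (‖gradient w x‖ * ⟪x, rot e⟫) • rot e := by
  have hn : 0 < ‖gradient w x‖ := norm_pos_iff.2 hy0
  have h1 : ⟪x, gradient w x⟫ = ‖gradient w x‖ * ⟪x, e⟫ := by
    conv_lhs => rw [hy]
    rw [real_inner_smul_right]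
  have h2 : (⟪x, gradient w x⟫ / ‖gradient w x‖) • gradient w x =
      (‖gradient w x‖ * ⟪x, e⟫) • e := by
    rw [h1, mul_div_cancel_left₀ _ hn.ne']
    conv_lhs => rw [hy]
    rw [smul_smul, mul_comm]
  have h5 := congrArg (fun u => ‖gradient w x‖ • u) (DivF_frame (x := x) he)
  simp only [smul_add, smul_smul] at h5
  rw [h2, h5]
  abel

theorem dv_Fld {p del : ℝ} (hdel : 0 < del) {kk kd et : ℝ → ℝ} {w : E → ℝ} {x : E}
    {M : E →L[ℝ] E} (hM : HasFDerivAt (gradient w) M x) (hs : ∀ u v, ⟪M u, v⟫ = ⟪u, M v⟫) {e : E}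
    (he : ‖e‖ = 1) (hy : gradient w x = ‖gradient w x‖ • e) (hy0 : gradient w x ≠ 0)
    (hkk : ∀ r, 0 < r → HasDerivAt kk (kd r) r) (het : ContDiff ℝ 1 et) {r o g D : ℝ}
    (hr : r = ‖VV p del (gradient w x)‖) (ho : o = om p del (‖gradient w x‖ ^ 2))
    (hg : g = ‖gradient w x‖) (hD : D = dv (fun z => VV p del (gradient w z)) x) :
    dv (Fld p del kk et w) x =
      (kk r + r * kd r) * D - kd r * r * (o * ⟪M (rot e), rot e⟫) +
        (et g * g - et g * (⟪x, e⟫ * ⟪M (rot e), rot e⟫) +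
          g * (deriv et g * (⟪x, rot e⟫ * ⟪M e, rot e⟫))) := by
  have hn : 0 < ‖gradient w x‖ := norm_pos_iff.2 hy0
  have hgp : 0 < g := by rw [hg]; exact hn
  have hop : 0 < o := by rw [ho]; exact om_pos hdel _
  have hr2 : r = o * g := by rw [hr, ho, hg]; exact norm_VV hdel _
  have hrp : 0 < r := by rw [hr2]; positivity
  have hV := DivF_VV (p := p) hdel hM
  have hVx : VV p del (gradient w x) = r • e := by
    unfold VV
    rw [hr2, ← ho]
    conv_lhs => rw [hy]
    rw [smul_smul, ← hg]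
  have hV0 : VV p del (gradient w x) ≠ 0 := by
    rw [← norm_pos_iff, ← hr]
    exact hrp
  have hVe : VV p del (gradient w x) = ‖VV p del (gradient w x)‖ • e := by
    rw [← hr]; exact hVx
  have hR := DivF_nrm hV hV0 hVe
  have hN := DivF_nrm hM hy0 hy
  have hkR : HasFDerivAt (fun z => kk ‖VV p del (gradient w z)‖)
      (kd r • ((innerSL ℝ e).comp ((AA p del (gradient w x)).comp M))) x := by
    have h1 : HasDerivAt kk (kd r) ‖VV p del (gradient w x)‖ := by
      rw [← hr]; exact hkk r hrp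
    exact h1.comp_hasFDerivAt x hR
  have heN : HasFDerivAt (fun z => et ‖gradient w z‖)
      (deriv et g • ((innerSL ℝ e).comp M)) x := by
    have h1 : HasDerivAt et (deriv et g) ‖gradient w x‖ := by
      rw [← hg]
      exact (het.differentiable one_ne_zero g).hasDerivAt
    exact h1.comp_hasFDerivAt x hN
  have hinner : HasFDerivAt (fun z => ⟪z, gradient w z⟫)
      (innerSL ℝ (gradient w x) + (innerSL ℝ x).comp M) x := by
    have h1 := (hasFDerivAt_id x).inner ℝ hM
    refine h1.congr_fderiv ?_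
    ext v
    simp only [ContinuousLinearMap.comp_apply, ContinuousLinearMap.prod_apply,
      add_apply, innerSL_apply_apply, fderivInnerCLM_apply,
      ContinuousLinearMap.id_apply, id]
    rw [real_inner_comm v]
    ring
  have hinv : HasFDerivAt (fun z => ‖gradient w z‖⁻¹)
      ((-(‖gradient w x‖ ^ 2)⁻¹) • ((innerSL ℝ e).comp M)) x :=
    (hasDerivAt_inv hn.ne').comp_hasFDerivAt x hN
  have hh := hinner.fun_mul hinv
  have hMd : DifferentiableAt ℝ (gradient w) x := hM.differentiableAt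
  have hid : DifferentiableAt ℝ (fun z : E => z) x := differentiableAt_id
  have hWd1 : DifferentiableAt ℝ (fun z => ‖gradient w z‖ • z) x :=
    hN.differentiableAt.fun_smul hid
  have hWd2 : DifferentiableAt ℝ
      (fun z => (⟪z, gradient w z⟫ * ‖gradient w z‖⁻¹) • gradient w z) x :=
    hh.differentiableAt.fun_smul hMd
  have hFld : Fld p del kk et w = fun z => kk ‖VV p del (gradient w z)‖ • VV p del (gradient w z) +
      et ‖gradient w z‖ • (‖gradient w z‖ • z -
        (⟪z, gradient w z⟫ * ‖gradient w z‖⁻¹) • gradient w z) := by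
    funext z
    unfold Fld
    rw [div_eq_mul_inv]
  have hMe : ∀ v, ⟪e, M v⟫ = ⟪M e, v⟫ := fun v => (hs e v).symm
  have hyg : gradient w x = g • e := by rw [hg]; exact hy
  have hxy : ⟪x, gradient w x⟫ = g * ⟪x, e⟫ := by
    rw [hyg, real_inner_smul_right]
  have hdvy : dv (gradient w) x = ⟪M e, e⟫ + ⟪M (rot e), rot e⟫ := by
    unfold dv
    rw [hM.fderiv, DivF_tr M he]
  have hdvW : dv (fun z => ‖gradient w z‖ • z -
      (⟪z, gradient w z⟫ * ‖gradient w z‖⁻¹) • gradient w z) x =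
      g - ⟪x, e⟫ * ⟪M (rot e), rot e⟫ := by
    rw [DivF_dv_sub hWd1 hWd2, DivF_dv_smul hN hid, DivF_dv_smul hh hMd, DivF_dv_id, hdvy]
    simp only [ContinuousLinearMap.comp_apply, add_apply, smul_apply,
      innerSL_apply_apply, smul_eq_mul]
    rw [← hg, hxy, hMe, real_inner_self_eq_norm_sq, ← hg]
    have h1 : ⟪e, M (gradient w x)⟫ = g * ⟪M e, e⟫ := by
      rw [hMe, hyg, real_inner_smul_right]
    have h2 : ⟪x, M (gradient w x)⟫ = g * ⟪M e, x⟫ := by
      rw [hyg, map_smul, real_inner_smul_right, real_inner_comm]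
    rw [h1, h2]
    field_simp
    ring
  have hWx : ‖gradient w x‖ • x - (⟪x, gradient w x⟫ * ‖gradient w x‖⁻¹) • gradient w x =
      (g * ⟪x, rot e⟫) • rot e := by
    rw [← div_eq_mul_inv, DivF_W he hy hy0, ← hg]
  have hDD : D = o * (1 + (p - 2) * g ^ 2 / max (g ^ 2) (del ^ 2)) * ⟪M e, e⟫ +
      o * ⟪M (rot e), rot e⟫ := by
    rw [hD, dv_V_frame hdel hM hs he hy hy0, ← hg, ho, ← hg]
  rw [hFld, DivF_dv_add (hkR.differentiableAt.fun_smul hV.differentiableAt)
    (heN.differentiableAt.fun_smul (hWd1.fun_sub hWd2)), DivF_dv_smul hkR hV.differentiableAt,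
    DivF_dv_smul heN (hWd1.fun_sub hWd2), hdvW, ← hD, hWx]
  simp only [ContinuousLinearMap.comp_apply, smul_apply,
      innerSL_apply_apply, smul_eq_mul]
  have h1 : ⟪e, AA p del (gradient w x) (M (VV p del (gradient w x)))⟫ =
      r * (D - o * ⟪M (rot e), rot e⟫) := by
    rw [real_inner_comm, DivF_AAe hdel he hy, hVx, map_smul, real_inner_smul_left, hDD, ← ho, ← hg]
    ring
  have h2 : ⟪e, M ((g * ⟪x, rot e⟫) • rot e)⟫ = g * ⟪x, rot e⟫ * ⟪M e, rot e⟫ := by
    rw [hMe, real_inner_smul_right]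
  rw [h1, h2, ← hg, ← hr]
  ring

theorem norm_Fld {p del : ℝ} (hdel : 0 < del) {kk et : ℝ → ℝ} {w : E → ℝ} {x : E} {e : E}
    (he : ‖e‖ = 1) (hy : gradient w x = ‖gradient w x‖ • e) (hy0 : gradient w x ≠ 0) :
    ‖Fld p del kk et w x‖ ^ 2 = (kk ‖VV p del (gradient w x)‖ * ‖VV p del (gradient w x)‖) ^ 2 +
      (et ‖gradient w x‖ * (‖gradient w x‖ * ⟪x, rot e⟫)) ^ 2 := by
  have hVx : VV p del (gradient w x) = ‖VV p del (gradient w x)‖ • e := by
    rw [norm_VV hdel]
    unfold VV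
    conv_lhs => rw [hy]
    rw [smul_smul, norm_smul, norm_norm, he, mul_one]
  have hef : ⟪e, rot e⟫ = 0 := inner_rot_self e
  have hf : ‖rot e‖ = 1 := by rw [norm_rot, he]
  unfold Fld
  rw [DivF_W he hy hy0]
  generalize hA : kk ‖VV p del (gradient w x)‖ = A
  generalize hB : et ‖gradient w x‖ = B
  generalize hr : ‖VV p del (gradient w x)‖ = r at hVx
  rw [hVx, smul_smul, smul_smul, norm_add_sq_real, norm_smul, norm_smul, real_inner_smul_left,
    real_inner_smul_right, hef, he, hf, Real.norm_eq_abs, Real.norm_eq_abs, mul_one, mul_one,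
    sq_abs, sq_abs]
  ring

theorem dv_Fld_zero {p del : ℝ} (hdel : 0 < del) {kk et : ℝ → ℝ} {w : E → ℝ} {x : E} {d0 : ℝ}
    (hd0 : 0 < d0) (h2 : DifferentiableAt ℝ (gradient w) x) (hy0 : gradient w x = 0)
    (hkk : ContinuousOn kk (Ici 0)) (het : ∀ g, g ≤ d0 → et g = 0) :
    dv (Fld p del kk et w) x = kk 0 * dv (fun z => VV p del (gradient w z)) x ∧
      Fld p del kk et w x = 0 := by
  have hV := DivF_VV (p := p) hdel h2.hasFDerivAt
  have hVx : VV p del (gradient w x) = 0 := by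
    unfold VV
    rw [hy0, smul_zero]
  set V : E → E := fun z => VV p del (gradient w z) with hVdef
  have hVx' : V x = 0 := hVx
  set V' : E →L[ℝ] E := (AA p del (gradient w x)).comp (fderiv ℝ (gradient w) x) with hV'
  have hnear : ∀ᶠ z in 𝓝 x, ‖gradient w z‖ < d0 := by
    have h3 : Tendsto (fun z => ‖gradient w z‖) (𝓝 x) (𝓝 ‖gradient w x‖) :=
      h2.continuousAt.norm
    rw [hy0, norm_zero] at h3
    exact h3.eventually (eventually_lt_nhds hd0)
  have heq : Fld p del kk et w =ᶠ[𝓝 x] fun z => kk ‖V z‖ • V z := by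
    filter_upwards [hnear] with z hz
    unfold Fld
    rw [het _ hz.le, zero_smul, add_zero]
  have hk : Tendsto (fun z => kk ‖V z‖ - kk 0) (𝓝 x) (𝓝 0) := by
    have h3 : Tendsto (fun z => ‖V z‖) (𝓝 x) (𝓝[Ici 0] 0) := by
      refine tendsto_nhdsWithin_iff.2 ⟨?_, Eventually.of_forall fun z => norm_nonneg _⟩
      have h4 : Tendsto (fun z => ‖V z‖) (𝓝 x) (𝓝 ‖V x‖) := hV.continuousAt.norm
      rwa [hVx', norm_zero] at h4
    have h5 : Tendsto kk (𝓝[Ici 0] 0) (𝓝 (kk 0)) := hkk 0 self_mem_Ici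
    have h6 := (h5.comp h3).sub_const (kk 0)
    rw [sub_self] at h6
    exact h6
  have hder : HasFDerivAt (fun z => kk ‖V z‖ • V z) (kk 0 • V') x := by
    rw [hasFDerivAt_iff_isLittleO]
    have h3 : (fun z => V z - V x - V' (z - x)) =o[𝓝 x] fun z => z - x :=
      hasFDerivAt_iff_isLittleO.1 hV
    have h4 : (fun z => V z - V x) =O[𝓝 x] fun z => z - x := hV.isBigO_sub
    have h5 : (fun z => (kk ‖V z‖ - kk 0) • (V z - V x)) =o[𝓝 x] fun z => z - x := by
      have h6 : (fun z => kk ‖V z‖ - kk 0) =o[𝓝 x] fun _ => (1 : ℝ) :=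
        (Asymptotics.isLittleO_one_iff ℝ).2 hk
      have h7 := h6.smul_isBigO h4
      simpa using h7
    have h8 : (fun z => kk 0 • (V z - V x - V' (z - x))) =o[𝓝 x] fun z => z - x :=
      h3.const_smul_left (kk 0)
    have h9 := h5.add h8
    refine h9.congr_left fun z => ?_
    rw [hVx', smul_zero, sub_zero, sub_zero, smul_apply, smul_sub, sub_smul]
    abel
  constructor
  · have h3 : fderiv ℝ (Fld p del kk et w) x = kk 0 • V' := by
      rw [heq.fderiv_eq]
      exact hder.fderiv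
    unfold dv
    rw [h3, hV.fderiv, Finset.mul_sum]
    refine Finset.sum_congr rfl fun i _ => ?_
    rw [smul_apply, PiLp.smul_apply, smul_eq_mul]
  · have h3 : Fld p del kk et w x = kk ‖V x‖ • V x := heq.eq_of_nhds
    rw [h3, hVx', smul_zero]

end Pool.Agent.PLap
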