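import Pool.Agent.PLap.Lam
import Pool.Agent.PLap.Rad

/-!
LamLip: the Rayleigh inequality lam p Om int|u|^p <= int |grad u|^p extends from test functions to Lipschitz functions with
compact support in the open set Om (mollification).

Take phi_n a sequence of bumps (ContDiffBump with radii -> 0) normalised, u_n = phi_n * u (convolution). u_n is smooth with compact
support in the closed eps_n-neighbourhood of tsupport u, inside Om for large n. u_n -> u uniformly, so int|u_n|^p -> int|u|^p
(supports in a fixed compact set). For every direction v: (u_n(x+tv)-u_n(x))/t = int phi_n(z) (u(x-z+tv)-u(x-z))/t dz, dominated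
convergence (u Lipschitz, a.e. differentiable by Rademacher) gives fderiv u_n x v = int phi_n(z) fderiv u (x-z) v dz, so
|fderiv u_n x| <= int phi_n(z) |fderiv u (x-z)| dz, and by Jensen (phi_n dz is a probability measure, t -> t^p convex; or Hoelder)
|fderiv u_n x|^p <= int phi_n(z)|fderiv u (x-z)|^p dz. Integrate in x (Fubini, translation invariance):
int |fderiv u_n|^p <= int |fderiv u|^p. Conclude with lam_mul_le for u_n and n -> oo.
The second statement: apply the first to the extension by zero (ext_zero); for the plane.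
-/

set_option autoImplicit false

open MeasureTheory Set Filter Topology
open scoped ENNReal NNReal ContDiff RealInnerProductSpace

namespace Pool.Agent.PLap

private theorem LamLip_tangent {p : ℝ} (hp : 1 < p) {m t : ℝ} (hm : 0 < m) (ht : 0 ≤ t) :
    m ^ p * (1 + p * (t / m - 1)) ≤ t ^ p := by
  have h1 : -1 ≤ t / m - 1 := by
    have : 0 ≤ t / m := by positivity
    linarith
  have h2 := one_add_mul_self_le_rpow_one_add h1 hp.le
  have h3 : 1 + (t / m - 1) = t / m := by ring
  rw [h3] at h2
  have h4 : m ^ p * (t / m) ^ p = t ^ p := by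
    rw [← Real.mul_rpow hm.le (by positivity)]
    congr 1
    field_simp
  rw [← h4]
  exact mul_le_mul_of_nonneg_left h2 (Real.rpow_nonneg hm.le _)

private theorem LamLip_jensen {G : Type*} [MeasurableSpace G] {μ : Measure G} {p : ℝ} (hp : 1 < p)
    {ψ h : G → ℝ} (hψ0 : ∀ x, 0 ≤ ψ x) (hψ : Integrable ψ μ) (hψ1 : ∫ x, ψ x ∂μ = 1)
    (hh0 : ∀ x, 0 ≤ h x) (h1 : Integrable (fun x => ψ x * h x) μ)
    (h2 : Integrable (fun x => ψ x * h x ^ p) μ) :
    (∫ x, ψ x * h x ∂μ) ^ p ≤ ∫ x, ψ x * h x ^ p ∂μ := by
  have hm0 : 0 ≤ ∫ x, ψ x * h x ∂μ := integral_nonneg fun x => mul_nonneg (hψ0 x) (hh0 x)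
  rcases hm0.eq_or_lt with hm | hm
  · rw [← hm, Real.zero_rpow (by linarith)]
    exact integral_nonneg fun x => mul_nonneg (hψ0 x) (Real.rpow_nonneg (hh0 x) _)
  · generalize hmd : ∫ x, ψ x * h x ∂μ = m at *
    have e1 : (fun x => ψ x * (m ^ p * (1 + p * (h x / m - 1)))) =
        fun x => (m ^ p * (1 - p)) * ψ x + (m ^ p * p / m) * (ψ x * h x) := by
      funext x
      field_simp
      ring
    have hint : Integrable (fun x => ψ x * (m ^ p * (1 + p * (h x / m - 1)))) μ := by
      rw [e1]
      exact (hψ.const_mul _).add (h1.const_mul _)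
    have key : ∫ x, ψ x * (m ^ p * (1 + p * (h x / m - 1))) ∂μ = m ^ p := by
      rw [e1, integral_add (hψ.const_mul _) (h1.const_mul _), integral_const_mul,
        integral_const_mul, hψ1, hmd]
      field_simp
      ring
    rw [← key]
    exact integral_mono hint h2 fun x =>
      mul_le_mul_of_nonneg_left (LamLip_tangent hp hm (hh0 x)) (hψ0 x)

open scoped Convolution in
private theorem LamLip_moll {F : Type*} [NormedAddCommGroup F] [InnerProductSpace ℝ F]
    [FiniteDimensional ℝ F] [MeasureSpace F] [BorelSpace F] [(volume : Measure F).IsAddHaarMeasure]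
    {p : ℝ} (hp : 1 < p) {u : F → ℝ} {C : ℝ≥0}
    (hu : LipschitzWith C u) (hc : HasCompactSupport u) {ε : ℝ} (hε : 0 < ε) :
    ∃ v : F → ℝ, ContDiff ℝ ∞ v ∧ (∀ x, |v x - u x| ≤ C * ε) ∧
      (∀ x, x ∉ Metric.cthickening ε (tsupport u) → v x = 0) ∧
      ∫ x, ‖fderiv ℝ v x‖ ^ p ≤ ∫ x, ‖fderiv ℝ u x‖ ^ p := by
  let φ : ContDiffBump (0 : F) := ⟨ε / 2, ε, half_pos hε, half_lt_self hε⟩
  have hrO : φ.rOut = ε := rfl
  have hψ0 : ∀ x, 0 ≤ φ.normed volume x := φ.nonneg_normed
  have hψ1 : ∫ x, φ.normed volume x = 1 := φ.integral_normed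
  have hψc : Continuous (φ.normed volume) := (φ.contDiff_normed (n := 0)).continuous
  have hψs : HasCompactSupport (φ.normed volume) := φ.hasCompactSupport_normed
  have hψi : Integrable (φ.normed volume) := φ.integrable_normed
  have hψsupp : Function.support (φ.normed volume) = Metric.ball 0 ε := φ.support_normed_eq
  have hsm : ContDiff ℝ ∞ (φ.normed volume ⋆[ContinuousLinearMap.lsmul ℝ ℝ, volume] u) :=
    hψs.contDiff_convolution_left _ φ.contDiff_normed hu.continuous.locallyIntegrable
  have hdist : ∀ x, dist ((φ.normed volume ⋆[ContinuousLinearMap.lsmul ℝ ℝ, volume] u) x) (u x) ≤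
      C * ε := by
    intro x
    refine φ.dist_normed_convolution_le hu.continuous.aestronglyMeasurable fun y hy => ?_
    refine (hu.dist_le_mul y x).trans (mul_le_mul_of_nonneg_left ?_ C.2)
    rw [hrO, Metric.mem_ball] at hy
    exact hy.le
  generalize φ.normed volume = ψ at *
  have hfm : Measurable (fderiv ℝ u) := measurable_fderiv ℝ u
  have hfC : ∀ x, ‖fderiv ℝ u x‖ ≤ C := fun x => norm_fderiv_le_of_lipschitz ℝ hu
  have hdiff : ∀ x, HasFDerivAt (fun x => ∫ z, ψ z • u (x - z))
      (∫ z, ψ z • fderiv ℝ u (x - z)) x := by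
    intro x
    refine (hasFDerivAt_integral_of_dominated_loc_of_lip (s := univ)
      (bound := fun z => ψ z * C) univ_mem ?_ ?_ ?_ ?_ ?_ ?_).2
    · exact Eventually.of_forall fun y => (hψc.smul
        (hu.continuous.comp (continuous_const.sub continuous_id))).aestronglyMeasurable
    · exact (hψc.smul (hu.continuous.comp
        (continuous_const.sub continuous_id))).integrable_of_hasCompactSupport hψs.smul_right
    · exact hψc.aestronglyMeasurable.smul
        (hfm.comp (measurable_const.sub measurable_id)).aestronglyMeasurable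
    · refine Eventually.of_forall fun z => ?_
      rw [lipschitzOnWith_univ]
      refine LipschitzWith.of_dist_le_mul fun a b => ?_
      rw [Real.coe_nnabs, dist_eq_norm, ← smul_sub, norm_smul, abs_mul, Real.norm_eq_abs, mul_assoc,
        NNReal.abs_eq]
      refine mul_le_mul_of_nonneg_left ?_ (abs_nonneg _)
      rw [← dist_eq_norm]
      refine (hu.dist_le_mul _ _).trans_eq ?_
      rw [dist_sub_right]
    · exact hψi.mul_const _
    · have h1 := (Measure.measurePreserving_sub_left (volume : Measure F) x).quasiMeasurePreserving.ae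
        (hu.ae_differentiableAt (μ := volume))
      filter_upwards [h1] with z hz
      have h2 := hz.hasFDerivAt.comp x ((hasFDerivAt_id x).sub_const z)
      exact (h2.const_smul (ψ z))
  have hconv : (fun x => ∫ z, ψ z • u (x - z)) =
      (ψ ⋆[ContinuousLinearMap.lsmul ℝ ℝ, volume] u) := rfl
  rw [hconv] at hdiff
  have hHm : Measurable fun x => ‖fderiv ℝ u x‖ ^ p := hfm.norm.pow_const p
  have hH0 : ∀ x, 0 ≤ ‖fderiv ℝ u x‖ ^ p := fun x => Real.rpow_nonneg (norm_nonneg _) _
  have hHC : ∀ x, ‖fderiv ℝ u x‖ ^ p ≤ (C : ℝ) ^ p := fun x =>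
    Real.rpow_le_rpow (norm_nonneg _) (hfC x) (by linarith)
  have hHi : Integrable fun x => ‖fderiv ℝ u x‖ ^ p := by
    have h1 : Integrable ((tsupport u).indicator fun _ : F => (C : ℝ) ^ p) := by
      rw [integrable_indicator_iff (isClosed_tsupport u).measurableSet]
      exact integrableOn_const (IsCompact.measure_lt_top hc).ne
    refine h1.mono' hHm.aestronglyMeasurable (Eventually.of_forall fun x => ?_)
    rw [Real.norm_of_nonneg (hH0 x)]
    by_cases hx : x ∈ tsupport u
    · rw [indicator_of_mem hx]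
      exact hHC x
    · rw [indicator_of_notMem hx]
      have h2 : fderiv ℝ u x = 0 := by
        by_contra h3
        exact hx (support_fderiv_subset ℝ h3)
      rw [h2, norm_zero, Real.zero_rpow (by linarith)]
  refine ⟨ψ ⋆[ContinuousLinearMap.lsmul ℝ ℝ, volume] u, hsm, fun x => ?_, fun x hx => ?_, ?_⟩
  · rw [← Real.dist_eq]
    exact hdist x
  · have h1 : ∀ z, ψ z • u (x - z) = 0 := by
      intro z
      by_contra hz
      rw [smul_eq_mul] at hz
      have h2 : ψ z ≠ 0 := left_ne_zero_of_mul hz
      have h3 : u (x - z) ≠ 0 := right_ne_zero_of_mul hz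
      have h4 : z ∈ Metric.ball (0 : F) ε := by
        rw [← hψsupp]
        exact h2
      refine hx (Metric.mem_cthickening_of_dist_le x (x - z) ε _ (subset_tsupport u h3) ?_)
      rw [dist_eq_norm, sub_sub_cancel]
      rw [mem_ball_zero_iff] at h4
      exact h4.le
    change ∫ z, ψ z • u (x - z) = 0
    simp only [h1, integral_zero]
  · have hpt : ∀ x, ‖fderiv ℝ (ψ ⋆[ContinuousLinearMap.lsmul ℝ ℝ, volume] u) x‖ ^ p ≤
        (ψ ⋆[ContinuousLinearMap.lsmul ℝ ℝ, volume] fun x => ‖fderiv ℝ u x‖ ^ p) x := by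
      intro x
      rw [(hdiff x).fderiv]
      have h1 : ‖∫ z, ψ z • fderiv ℝ u (x - z)‖ ≤ ∫ z, ψ z * ‖fderiv ℝ u (x - z)‖ := by
        refine (norm_integral_le_integral_norm _).trans_eq ?_
        refine integral_congr_ae (Eventually.of_forall fun z => ?_)
        change ‖ψ z • fderiv ℝ u (x - z)‖ = ψ z * ‖fderiv ℝ u (x - z)‖
        rw [norm_smul, Real.norm_of_nonneg (hψ0 z)]
      have hcm : Measurable fun z => ‖fderiv ℝ u (x - z)‖ :=
        (hfm.comp (measurable_const.sub measurable_id)).norm
      refine (Real.rpow_le_rpow (norm_nonneg _) h1 (by linarith)).trans ?_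
      refine LamLip_jensen hp hψ0 hψi hψ1 (fun z => norm_nonneg _) ?_ ?_
      · refine (hψi.mul_const (C : ℝ)).mono' (hψc.aestronglyMeasurable.mul
          hcm.aestronglyMeasurable) (Eventually.of_forall fun z => ?_)
        rw [Real.norm_of_nonneg (mul_nonneg (hψ0 z) (norm_nonneg _))]
        exact mul_le_mul_of_nonneg_left (hfC _) (hψ0 z)
      · refine (hψi.mul_const ((C : ℝ) ^ p)).mono' (hψc.aestronglyMeasurable.mul
          (hcm.pow_const p).aestronglyMeasurable) (Eventually.of_forall fun z => ?_)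
        rw [Real.norm_of_nonneg (mul_nonneg (hψ0 z) (hH0 _))]
        exact mul_le_mul_of_nonneg_left (hHC _) (hψ0 z)
    have hci := hψi.integrable_convolution (ContinuousLinearMap.lsmul ℝ ℝ) hHi
    refine (integral_mono_of_nonneg
      (Eventually.of_forall fun x => Real.rpow_nonneg (norm_nonneg _) _) hci
      (Eventually.of_forall hpt)).trans_eq ?_
    rw [integral_convolution _ hψi hHi, hψ1]
    simp

theorem lam_le_lip {F : Type*} [NormedAddCommGroup F] [InnerProductSpace ℝ F]
    [FiniteDimensional ℝ F] [MeasureSpace F] [BorelSpace F] [(volume : Measure F).IsAddHaarMeasure]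
    {p : ℝ} (hp : 1 < p) {Om : Set F} (ho : IsOpen Om) {u : F → ℝ} {C : ℝ≥0}
    (hu : LipschitzWith C u) (hc : HasCompactSupport u) (hs : tsupport u ⊆ Om) :
    lam p Om * ∫ x, |u x| ^ p ≤ ∫ x, ‖fderiv ℝ u x‖ ^ p := by
  obtain ⟨ε₀, hε₀, hsub⟩ := IsCompact.exists_cthickening_subset_open hc ho hs
  have hεn : ∀ n : ℕ, 0 < ε₀ / ((n : ℝ) + 1) := fun n => by positivity
  have hεle : ∀ n : ℕ, ε₀ / ((n : ℝ) + 1) ≤ ε₀ := fun n => by
    refine div_le_self hε₀.le ?_
    have : (0 : ℝ) ≤ n := Nat.cast_nonneg n
    linarith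
  have hv := fun n : ℕ => LamLip_moll hp hu hc (hεn n)
  choose v hv1 hv2 hv3 hv4 using hv
  have hK : IsCompact (Metric.cthickening ε₀ (tsupport u)) := IsCompact.cthickening hc
  have hsuppn : ∀ n x, x ∉ Metric.cthickening ε₀ (tsupport u) → v n x = 0 := fun n x hx =>
    hv3 n x (fun h => hx (Metric.cthickening_mono (hεle n) _ h))
  have htest : ∀ n, IsTest Om (v n) := fun n =>
    ⟨hv1 n, HasCompactSupport.intro hK (hsuppn n), (closure_minimal (fun x hx => by
      by_contra h
      exact hx (hsuppn n x h)) hK.isClosed).trans hsub⟩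
  have hle : ∀ n, lam p Om * ∫ x, |v n x| ^ p ≤ ∫ x, ‖fderiv ℝ u x‖ ^ p := fun n =>
    (lam_mul_le hp (htest n)).trans (hv4 n)
  have hp0 : 0 ≤ p := by linarith
  have hlim : Tendsto (fun n => ∫ x, |v n x| ^ p) atTop (𝓝 (∫ x, |u x| ^ p)) := by
    obtain ⟨M, hM⟩ := hc.exists_bound_of_continuous hu.continuous
    refine tendsto_integral_of_dominated_convergence
      ((Metric.cthickening ε₀ (tsupport u)).indicator (fun _ => (M + C * ε₀) ^ p)) ?_ ?_ ?_ ?_
    · exact fun n =>
        ((hv1 n).continuous.abs.rpow_const (fun _ => Or.inr hp0)).aestronglyMeasurable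
    · rw [integrable_indicator_iff hK.isClosed.measurableSet]
      exact integrableOn_const hK.measure_lt_top.ne
    · refine fun n => Eventually.of_forall fun x => ?_
      rw [Real.norm_of_nonneg (Real.rpow_nonneg (abs_nonneg _) _)]
      by_cases hx : x ∈ Metric.cthickening ε₀ (tsupport u)
      · rw [indicator_of_mem hx]
        refine Real.rpow_le_rpow (abs_nonneg _) ?_ hp0
        have h1 := hv2 n x
        have h2 := hM x
        rw [Real.norm_eq_abs] at h2
        have h3 := mul_le_mul_of_nonneg_left (hεle n) C.2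
        have h4 : |v n x| ≤ |v n x - u x| + |u x| := by
          have := abs_add_le (v n x - u x) (u x)
          rwa [sub_add_cancel] at this
        have h5 : (C : ℝ) * (ε₀ / ((n : ℝ) + 1)) ≤ C * ε₀ := h3
        linarith
      · rw [indicator_of_notMem hx, hsuppn n x hx, abs_zero, Real.zero_rpow (by linarith)]
    · refine Eventually.of_forall fun x => ?_
      have h1 : Tendsto (fun n => v n x) atTop (𝓝 (u x)) := by
        rw [tendsto_iff_dist_tendsto_zero]
        have h2 : Tendsto (fun n : ℕ => (C : ℝ) * (ε₀ / ((n : ℝ) + 1))) atTop (𝓝 0) := by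
          have h3 := (tendsto_const_div_atTop_nhds_zero_nat (𝕜 := ℝ) ε₀).comp (tendsto_add_atTop_nat 1)
          have h4 := h3.const_mul (C : ℝ)
          rw [mul_zero] at h4
          refine h4.congr fun n => ?_
          simp
        refine squeeze_zero (fun n => dist_nonneg) (fun n => ?_) h2
        rw [Real.dist_eq]
        exact hv2 n x
      exact h1.abs.rpow_const (Or.inr hp0)
  exact le_of_tendsto (hlim.const_mul _) (Eventually.of_forall hle)

theorem lam_le_locLip {p : ℝ} (hp : 1 < p) {P : Set E} (ho : IsOpen P) {u : E → ℝ}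
    (hu : LocallyLipschitzOn P u) (h0 : EqOff P u (fun _ => 0)) :
    lam p P * ∫ x in P, |u x| ^ p ≤ ∫ x in P, ‖gradient u x‖ ^ p := by
  obtain ⟨K, hK, hKP, h0'⟩ := h0
  obtain ⟨C, hL, hcs, hts⟩ := ext_zero ho hu hK hKP h0'
  have h1 := lam_le_lip hp ho hL hcs hts
  have hp0 : p ≠ 0 := by linarith
  have e1 : (fun x => |P.indicator u x| ^ p) = P.indicator fun x => |u x| ^ p := by
    funext x
    by_cases hx : x ∈ P
    · rw [indicator_of_mem hx, indicator_of_mem hx]
    · rw [indicator_of_notMem hx, indicator_of_notMem hx, abs_zero, Real.zero_rpow hp0]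
  have e2 : (fun x => ‖fderiv ℝ (P.indicator u) x‖ ^ p) = P.indicator fun x => ‖gradient u x‖ ^ p := by
    funext x
    by_cases hx : x ∈ P
    · rw [indicator_of_mem hx]
      have h2 : P.indicator u =ᶠ[𝓝 x] u := by
        filter_upwards [ho.mem_nhds hx] with y hy
        exact indicator_of_mem hy u
      rw [h2.fderiv_eq]
      unfold gradient
      rw [LinearIsometryEquiv.norm_map]
    · rw [indicator_of_notMem hx]
      have h2 : fderiv ℝ (P.indicator u) x = 0 := by
        by_contra h3
        exact hx (hts (support_fderiv_subset ℝ h3))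
      rw [h2, norm_zero, Real.zero_rpow hp0]
  rw [e1, e2, integral_indicator ho.measurableSet, integral_indicator ho.measurableSet] at h1
  exact h1

end Pool.Agent.PLap
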