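import Pool.Agent.PLap.ExMin
import Pool.Agent.PLap.LamLip
import Pool.Agent.PLap.OM2

/-!
LamLe: lam p P <= l for the minimiser.

For e > 0 let u_e = max (exp(-w) - e) 0. It is locally Lipschitz on P (w is, by convexity) and vanishes off the compact set
{x in P : a x <= log (1/e)}. At every point of P where w and u_e are differentiable |grad u_e| <= exp(-w) |grad w|
(u_e = 0 at x and differentiable there: gradient 0 since it is a minimum; otherwise chain rule). So by lam_le_locLip and FF_ge
lam p P * int_P |u_e|^p <= int_P exp(-p w)|grad w|^p <= int_P exp(-pw) FF(grad w) = l DD(w).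
As e -> 0, int_P |u_e|^p -> DD(w) (dominated convergence, 0 <= u_e <= exp(-w), exp(-pw) integrable). Divide by DD(w) > 0.
-/

set_option autoImplicit false

open MeasureTheory Set Filter Topology
open scoped ENNReal NNReal ContDiff RealInnerProductSpace

namespace Pool.Agent.PLap

private theorem LamLe_comp {P : Set E} {f : E → ℝ} (hf : LocallyLipschitzOn P f) {g : ℝ → ℝ}
    (hg : LocallyLipschitz g) : LocallyLipschitzOn P (fun x => g (f x)) := by
  intro x hx
  obtain ⟨K1, t1, ht1, h1⟩ := hf hx
  obtain ⟨K2, t2, ht2, h2⟩ := hg (f x)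
  have h3 : f ⁻¹' t2 ∈ 𝓝[P] x := (hf.continuousOn x hx) ht2
  exact ⟨K2 * K1, t1 ∩ f ⁻¹' t2, Filter.inter_mem ht1 h3,
    h2.comp (h1.mono inter_subset_left) fun y hy => hy.2⟩

private theorem LamLe_g (e : ℝ) : LocallyLipschitz fun t : ℝ => max (Real.exp (-t) - e) 0 := by
  have h1 : ContDiff ℝ 1 fun t : ℝ => Real.exp (-t) - e :=
    (Real.contDiff_exp.comp contDiff_neg).sub contDiff_const
  exact h1.locallyLipschitz.max_const 0

private theorem LamLe_grad {w : E → ℝ} {x : E} (hd : DifferentiableAt ℝ w x) (e : ℝ) :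
    ‖gradient (fun z => max (Real.exp (-w z) - e) 0) x‖ ≤ Real.exp (-w x) * ‖gradient w x‖ := by
  rcases le_or_gt (Real.exp (-w x) - e) 0 with h | h
  · have hmin : IsLocalMin (fun z => max (Real.exp (-w z) - e) 0) x := by
      refine Eventually.of_forall fun z => ?_
      change max (Real.exp (-w x) - e) 0 ≤ max (Real.exp (-w z) - e) 0
      rw [max_eq_right h]
      exact le_max_right _ _
    have h1 : gradient (fun z => max (Real.exp (-w z) - e) 0) x = 0 := by
      unfold gradient
      rw [hmin.fderiv_eq_zero, map_zero]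
    rw [h1, norm_zero]
    positivity
  · have hc : ContinuousAt (fun z => Real.exp (-w z) - e) x :=
      (Real.continuous_exp.continuousAt.comp hd.continuousAt.neg).sub continuousAt_const
    have h1 : (fun z => max (Real.exp (-w z) - e) 0) =ᶠ[𝓝 x] fun z => Real.exp (-w z) - e := by
      filter_upwards [hc.eventually (lt_mem_nhds h)] with z hz
      exact max_eq_left hz.le
    have h2 : HasFDerivAt (fun z => Real.exp (-w z) - e) (Real.exp (-w x) • -fderiv ℝ w x) x :=
      (hd.hasFDerivAt.neg.exp).sub_const e
    have h3 : gradient (fun z => max (Real.exp (-w z) - e) 0) x = -(Real.exp (-w x) • gradient w x) := by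
      unfold gradient
      rw [h1.fderiv_eq, h2.fderiv, map_smul, map_neg, smul_neg]
    rw [h3, norm_neg, norm_smul, Real.norm_of_nonneg (Real.exp_pos _).le]

theorem lam_le_min {p del : ℝ} {P : Set E} {a B : E → ℝ} {lmax : ℝ}
    (S : Setup p del P a B lmax) {w : E → ℝ} {l : ℝ} (hw : Adm P a B w) (hl : 0 ≤ l)
    (hN : NN p del P w = ENNReal.ofReal (l * DD p P w)) : lam p P ≤ l := by
  have hp := S.hp
  have hp0 : 0 ≤ p := by linarith
  have hD := S.DD_pos hw
  have hwL := convex_locLip S.isOpen hw.conv
  have hmP := S.isOpen.measurableSet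
  have hexp : ∀ x, Real.exp (-w x) ^ p = Real.exp (-p * w x) := by
    intro x
    rw [← Real.exp_mul]
    congr 1
    ring
  have hle : ∀ e : ℝ, 0 < e →
      lam p P * ∫ x in P, |max (Real.exp (-w x) - e) 0| ^ p ≤ l * DD p P w := by
    intro e he
    have hu : LocallyLipschitzOn P fun x => max (Real.exp (-w x) - e) 0 :=
      LamLe_comp hwL (LamLe_g e)
    have h0 : EqOff P (fun x => max (Real.exp (-w x) - e) 0) (fun _ => 0) := by
      refine ⟨{x | x ∈ P ∧ a x ≤ -Real.log e}, S.proper _, fun x hx => hx.1, fun x hx => ?_⟩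
      have h1 : -Real.log e < a x := by
        by_contra h2
        exact hx.2 ⟨hx.1, not_lt.1 h2⟩
      have h2 := hw.lb x hx.1
      have h3 : Real.exp (-w x) ≤ e := by
        rw [← Real.exp_log he]
        exact Real.exp_le_exp.2 (by linarith)
      exact max_eq_right (by linarith)
    refine (lam_le_locLip hp S.isOpen hu h0).trans ?_
    have hmg : Measurable fun x => ‖gradient (fun z => max (Real.exp (-w z) - e) 0) x‖ ^ p :=
      (measurable_gradient _).norm.pow_const p
    rw [integral_eq_lintegral_of_nonneg_ae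
      (Eventually.of_forall fun x => Real.rpow_nonneg (norm_nonneg _) _) hmg.aestronglyMeasurable]
    have h4 : ∫⁻ x in P, ENNReal.ofReal (‖gradient (fun z => max (Real.exp (-w z) - e) 0) x‖ ^ p) ≤
        NN p del P w := by
      unfold NN
      refine lintegral_mono_ae ?_
      filter_upwards [convex_ae_diff S.isOpen hw.conv] with x hx
      refine ENNReal.ofReal_le_ofReal ?_
      refine (Real.rpow_le_rpow (norm_nonneg _) (LamLe_grad hx e) hp0).trans ?_
      rw [Real.mul_rpow (Real.exp_pos _).le (norm_nonneg _), hexp]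
      exact mul_le_mul_of_nonneg_left (FF_ge hp S.hdel _) (Real.exp_pos _).le
    rw [hN] at h4
    have h5 := ENNReal.toReal_mono ENNReal.ofReal_ne_top h4
    rwa [ENNReal.toReal_ofReal (mul_nonneg hl hD.le)] at h5
  have hlim : Tendsto (fun n : ℕ => ∫ x in P, |max (Real.exp (-w x) - 1 / ((n : ℝ) + 1)) 0| ^ p) atTop
      (𝓝 (∫ x in P, Real.exp (-p * w x))) := by
    refine tendsto_integral_of_dominated_convergence (fun x => Real.exp (-p * w x)) ?_
      (S.integrable_exp hw) ?_ ?_
    · intro n
      have h1 : ContinuousOn (fun x => max (Real.exp (-w x) - 1 / ((n : ℝ) + 1)) 0) P :=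
        (LamLe_comp hwL (LamLe_g _)).continuousOn
      exact (h1.abs.rpow_const fun _ _ => Or.inr hp0).aestronglyMeasurable hmP
    · refine fun n => Eventually.of_forall fun x => ?_
      rw [Real.norm_of_nonneg (Real.rpow_nonneg (abs_nonneg _) _), abs_of_nonneg (le_max_right _ _),
        ← hexp]
      refine Real.rpow_le_rpow (le_max_right _ _) (max_le ?_ (Real.exp_pos _).le) hp0
      have : 0 ≤ 1 / ((n : ℝ) + 1) := by positivity
      linarith
    · refine Eventually.of_forall fun x => ?_
      rw [← hexp]
      refine Tendsto.rpow_const ?_ (Or.inr hp0)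
      have h1 : Tendsto (fun n : ℕ => Real.exp (-w x) - 1 / ((n : ℝ) + 1)) atTop
          (𝓝 (Real.exp (-w x) - 0)) := tendsto_const_nhds.sub tendsto_one_div_add_atTop_nhds_zero_nat
      rw [sub_zero] at h1
      have h2 := (h1.max (tendsto_const_nhds (x := (0 : ℝ)))).abs
      rw [max_eq_left (Real.exp_pos _).le, abs_of_pos (Real.exp_pos _)] at h2
      exact h2
  have h6 : lam p P * DD p P w ≤ l * DD p P w :=
    le_of_tendsto (hlim.const_mul _) (Eventually.of_forall fun n => hle _ (by positivity))
  exact le_of_mul_le_mul_right h6 hD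

end Pool.Agent.PLap
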