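import Pool.Agent.PLap.El
import Pool.Agent.PLap.ExMin

/-!
Mean: the weighted mean of sd w - l vanishes.

Let zt : R -> [0,1] be Lipschitz, zt = 1 on (-oo,1], zt = 0 on [2,oo) (e.g. max 0 (min 1 (2 - t))), f_j = zt(w/j), j >= 1 large. f_j is locally Lipschitz on P and vanishes off the compact set {x in P : a x <= 2j}.
ibp with f = f_j exp(-pw) and X = VV(grad w): int f_j exp(-pw) dv X = - int exp(-pw) <grad f_j, X> + p int f_j exp(-pw) <grad w, X>. Since GG(y) = p<VV y,y> - FF(y):
int f_j exp(-pw)(sd w - l) = - int exp(-pw) <grad f_j, VV(grad w)> + int f_j exp(-pw)(FF(grad w) - l).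
|<grad f_j, VV(grad w)>| <= (1/j) <grad w, VV(grad w)> <= (C/j) FF(grad w) a.e. (inner_VV_le, inner_VV_nonneg), so the first term is O(1/j) because exp(-pw) FF(grad w) is integrable.
The second tends to int exp(-pw)(FF - l) = 0 by dominated convergence (f_j -> 1 pointwise, 0 <= f_j <= 1). The left side tends to int exp(-pw)(sd w - l) by hE.
-/

set_option autoImplicit false

open MeasureTheory Set Filter Topology
open scoped ENNReal NNReal ContDiff RealInnerProductSpace

namespace Pool.Agent.PLap

/-- smooth cutoff: 1 on `(-oo,1]`, 0 on `[2,oo)` -/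
private noncomputable def Mean_z (t : ℝ) : ℝ := Real.smoothTransition (2 - t)

private theorem Mean_z_le (t : ℝ) : Mean_z t ≤ 1 := Real.smoothTransition.le_one _

private theorem Mean_z_nonneg (t : ℝ) : 0 ≤ Mean_z t := Real.smoothTransition.nonneg _

private theorem Mean_z_one {t : ℝ} (ht : t ≤ 1) : Mean_z t = 1 :=
  Real.smoothTransition.one_of_one_le (by linarith)

private theorem Mean_z_zero {t : ℝ} (ht : 2 ≤ t) : Mean_z t = 0 :=
  Real.smoothTransition.zero_of_nonpos (by linarith)

private theorem Mean_z_cd : ContDiff ℝ ∞ Mean_z :=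
  Real.smoothTransition.contDiff.comp (contDiff_const.sub contDiff_id)

private theorem Mean_z_deriv : ∃ M : ℝ, 0 ≤ M ∧ ∀ t, |deriv Mean_z t| ≤ M := by
  have hc : Continuous (deriv Mean_z) := Mean_z_cd.continuous_deriv (by simp)
  obtain ⟨M, hM⟩ := (isCompact_Icc (a := (0 : ℝ)) (b := 3)).exists_bound_of_continuousOn
    hc.continuousOn
  refine ⟨|M|, abs_nonneg _, fun t => ?_⟩
  by_cases ht : t ∈ Icc (0 : ℝ) 3
  · have := hM t ht
    rw [Real.norm_eq_abs] at this
    exact this.trans (le_abs_self _)
  · have h0 : deriv Mean_z t = 0 := by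
      rcases lt_or_ge t 0 with h | h
      · have he : Mean_z =ᶠ[𝓝 t] fun _ => (1 : ℝ) := by
          filter_upwards [Iio_mem_nhds h] with s hs
          exact Mean_z_one (by linarith [mem_Iio.1 hs])
        rw [he.deriv_eq]
        simp
      · have h3 : 3 < t := by
          by_contra h4
          exact ht ⟨h, not_lt.1 h4⟩
        have he : Mean_z =ᶠ[𝓝 t] fun _ => (0 : ℝ) := by
          filter_upwards [Ioi_mem_nhds h3] with s hs
          exact Mean_z_zero (by linarith [mem_Ioi.1 hs])
        rw [he.deriv_eq]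
        simp
    rw [h0, abs_zero]
    exact abs_nonneg _

private theorem Mean_lim {P : Set E} (ho : IsOpen P) {w : E → ℝ} (hwc : ContinuousOn w P)
    {g : E → ℝ} (hg : IntegrableOn g P) :
    (∀ n : ℕ, IntegrableOn (fun x => Mean_z (w x / (n + 1)) * g x) P) ∧
      Tendsto (fun n : ℕ => ∫ x in P, Mean_z (w x / (n + 1)) * g x) atTop (𝓝 (∫ x in P, g x)) := by
  have hm : ∀ n : ℕ, AEStronglyMeasurable (fun x => Mean_z (w x / (n + 1)) * g x)
      (volume.restrict P) := by
    intro n
    have h1 : ContinuousOn (fun x => Mean_z (w x / (n + 1))) P :=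
      Mean_z_cd.continuous.comp_continuousOn (hwc.div_const _)
    exact (h1.aestronglyMeasurable ho.measurableSet).mul hg.aestronglyMeasurable
  have hb : ∀ n : ℕ, ∀ᵐ x ∂(volume.restrict P), ‖Mean_z (w x / (n + 1)) * g x‖ ≤ ‖g x‖ := by
    intro n
    refine ae_of_all _ fun x => ?_
    rw [norm_mul, Real.norm_of_nonneg (Mean_z_nonneg _)]
    exact mul_le_of_le_one_left (norm_nonneg _) (Mean_z_le _)
  refine ⟨fun n => hg.norm.mono' (hm n) (hb n), ?_⟩
  refine tendsto_integral_of_dominated_convergence (fun x => ‖g x‖) hm hg.norm hb ?_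
  refine ae_of_all _ fun x => ?_
  refine tendsto_const_nhds.congr' ?_
  obtain ⟨N, hN⟩ := exists_nat_ge (w x)
  filter_upwards [eventually_ge_atTop N] with n hn
  have h1 : w x / ((n : ℝ) + 1) ≤ 1 := by
    rw [div_le_one (by positivity)]
    have : (N : ℝ) ≤ n := by exact_mod_cast hn
    linarith
  rw [Mean_z_one h1, one_mul]

theorem mean_zero {p del : ℝ} {P : Set E} {a B : E → ℝ} {lmax : ℝ}
    (S : Setup p del P a B lmax) {w : E → ℝ} {l : ℝ} (hw : Adm P a B w) (hC : C11 P w)
    (hint : IntegrableOn (fun x => Real.exp (-p * w x) * FF p del (gradient w x)) P)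
    (h0 : ∫ x in P, Real.exp (-p * w x) * (FF p del (gradient w x) - l) = 0)
    (hE : IntegrableOn (fun x => Real.exp (-p * w x) * (sd p del w x - l)) P) :
    ∫ x in P, Real.exp (-p * w x) * (sd p del w x - l) = 0 := by
  have ho := S.isOpen
  have hwL : LocallyLipschitzOn P w := convex_locLip ho hw.conv
  have hwc : ContinuousOn w P := hwL.continuousOn
  have hX := VV_grad_locLip (p := p) S.hdel ho hC
  obtain ⟨M, hM0, hM⟩ := Mean_z_deriv
  obtain ⟨C, hC0, hCC⟩ := inner_VV_le (p := p) S.hp S.hdel
  have hexp := S.integrable_exp hw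
  have hF : IntegrableOn (fun x => Real.exp (-p * w x) * (FF p del (gradient w x) - l)) P := by
    have h1 := hint.sub (hexp.mul_const l)
    refine h1.congr_fun (fun x _ => ?_) ho.measurableSet
    simp only [Pi.sub_apply]
    ring
  obtain ⟨hI1, hL1⟩ := Mean_lim ho hwc hE
  obtain ⟨hI2, hL2⟩ := Mean_lim ho hwc hF
  rw [h0] at hL2
  -- the key identity
  have key : ∀ n : ℕ, |(∫ x in P, Mean_z (w x / (n + 1)) *
      (Real.exp (-p * w x) * (sd p del w x - l))) - ∫ x in P, Mean_z (w x / (n + 1)) *
      (Real.exp (-p * w x) * (FF p del (gradient w x) - l))| ≤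
      (M * C * ∫ x in P, Real.exp (-p * w x) * FF p del (gradient w x)) * (1 / (n + 1)) := by
    intro n
    have hn : (0 : ℝ) < n + 1 := by positivity
    have hpsi : ContDiff ℝ ∞ (fun t : ℝ => Mean_z (t / (n + 1)) * Real.exp (-p * t)) :=
      (Mean_z_cd.comp (contDiff_id.div_const _)).mul
        (Real.contDiff_exp.comp (contDiff_const.mul contDiff_id))
    have hder : ∀ t : ℝ, HasDerivAt (fun t : ℝ => Mean_z (t / (n + 1)) * Real.exp (-p * t))
        (deriv Mean_z (t / (n + 1)) / (n + 1) * Real.exp (-p * t) +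
          Mean_z (t / (n + 1)) * (-p * Real.exp (-p * t))) t := by
      intro t
      have h1 : HasDerivAt (fun t : ℝ => Mean_z (t / (n + 1)))
          (deriv Mean_z (t / (n + 1)) / (n + 1)) t := by
        have h2 : HasDerivAt Mean_z (deriv Mean_z (t / (n + 1))) (t / (n + 1)) :=
          (Mean_z_cd.differentiable (by simp)).differentiableAt.hasDerivAt
        have h3 : HasDerivAt (fun t : ℝ => t / ((n : ℝ) + 1)) (1 / (n + 1)) t :=
          (hasDerivAt_id t).div_const _
        have h4 := h2.comp t h3
        rw [mul_one_div] at h4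
        exact h4
      have h5 : HasDerivAt (fun t : ℝ => Real.exp (-p * t)) (-p * Real.exp (-p * t)) t := by
        have h6 : HasDerivAt (fun t : ℝ => -p * t) (-p) t := by
          simpa using (hasDerivAt_id t).const_mul (-p)
        have h7 := h6.exp
        rw [mul_comm] at h7
        exact h7
      exact h1.mul h5
    set f : E → ℝ := fun x => Mean_z (w x / (n + 1)) * Real.exp (-p * w x) with hf
    have hfL : LocallyLipschitzOn P f := by
      intro x hx
      obtain ⟨K1, t1, ht1, hK1⟩ := hwL hx
      obtain ⟨K2, t2, ht2, hK2⟩ :=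
        ((hpsi.contDiffAt (x := w x)).of_le (m := 1) (by norm_cast)).exists_lipschitzOnWith
      refine ⟨K2 * K1, t1 ∩ w ⁻¹' t2, inter_mem ht1 ((hwc x hx) ht2), ?_⟩
      exact hK2.comp (hK1.mono inter_subset_left) (fun y hy => hy.2)
    have hoff : EqOff P f (fun _ => 0) := by
      refine ⟨{x | x ∈ P ∧ a x ≤ 2 * (n + 1)}, S.proper _, fun x hx => hx.1, fun x hx => ?_⟩
      have h1 : 2 * ((n : ℝ) + 1) < a x := by
        by_contra h2
        exact hx.2 ⟨hx.1, not_lt.1 h2⟩
      have h2 := hw.lb x hx.1
      have h3 : 2 ≤ w x / ((n : ℝ) + 1) := by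
        rw [le_div_iff₀ hn]
        linarith
      simp only [hf]
      rw [Mean_z_zero h3, zero_mul]
    obtain ⟨hJ1, hJ2, hJ⟩ := ibp ho hX hfL hoff
    have hgr : ∀ x ∈ P, ⟪gradient f x, VV p del (gradient w x)⟫ =
        (deriv Mean_z (w x / (n + 1)) / (n + 1) * Real.exp (-p * w x) +
          Mean_z (w x / (n + 1)) * (-p * Real.exp (-p * w x))) *
          ⟪VV p del (gradient w x), gradient w x⟫ := by
      intro x hx
      have h1 : HasFDerivAt f _ x :=
        (hder (w x)).comp_hasFDerivAt x (hC.diff x hx).hasFDerivAt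
      rw [sub_grad_apply, h1.fderiv]
      simp only [smul_apply, smul_eq_mul]
      rw [← sub_grad_apply, real_inner_comm]
    have hVV : ∀ y : E, ⟪VV p del y, y⟫ = om p del (‖y‖ ^ 2) * ‖y‖ ^ 2 := by
      intro y
      unfold VV
      rw [inner_smul_left, real_inner_self_eq_norm_sq]
      simp
    have hpt : ∀ x ∈ P, deriv Mean_z (w x / (n + 1)) / (n + 1) * Real.exp (-p * w x) *
        ⟪VV p del (gradient w x), gradient w x⟫ =
        (f x * dv (fun z => VV p del (gradient w z)) x +
          ⟪gradient f x, VV p del (gradient w x)⟫) -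
        (Mean_z (w x / (n + 1)) * (Real.exp (-p * w x) * (sd p del w x - l)) -
          Mean_z (w x / (n + 1)) * (Real.exp (-p * w x) * (FF p del (gradient w x) - l))) := by
      intro x hx
      rw [hgr x hx]
      unfold sd GG
      rw [← hVV]
      simp only [hf]
      ring
    have hI3 : IntegrableOn (fun x => deriv Mean_z (w x / (n + 1)) / (n + 1) *
        Real.exp (-p * w x) * ⟪VV p del (gradient w x), gradient w x⟫) P := by
      have h1 := (hJ1.add hJ2).sub ((hI1 n).sub (hI2 n))
      exact h1.congr_fun (fun x hx => (hpt x hx).symm) ho.measurableSet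
    have h3 : ∫ x in P, deriv Mean_z (w x / (n + 1)) / (n + 1) *
        Real.exp (-p * w x) * ⟪VV p del (gradient w x), gradient w x⟫ =
        -((∫ x in P, Mean_z (w x / (n + 1)) *
      (Real.exp (-p * w x) * (sd p del w x - l))) - ∫ x in P, Mean_z (w x / (n + 1)) *
      (Real.exp (-p * w x) * (FF p del (gradient w x) - l))) := by
      rw [setIntegral_congr_fun ho.measurableSet hpt]
      have e1 := integral_sub (hJ1.add hJ2) ((hI1 n).sub (hI2 n))
      have e2 := integral_add hJ1 hJ2
      have e3 := integral_sub (hI1 n) (hI2 n)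
      simp only [Pi.add_apply, Pi.sub_apply] at e1 e2 e3
      rw [e1, e2, e3, hJ]
      ring
    rw [← abs_neg, ← h3]
    have h4 : |∫ x in P, deriv Mean_z (w x / (n + 1)) / (n + 1) *
        Real.exp (-p * w x) * ⟪VV p del (gradient w x), gradient w x⟫| ≤
        ∫ x in P, (M * C * (1 / (n + 1))) * (Real.exp (-p * w x) * FF p del (gradient w x)) := by
      rw [← Real.norm_eq_abs]
      refine norm_integral_le_of_norm_le (hint.const_mul _) (ae_of_all _ fun x => ?_)
      have h5 := hCC (gradient w x)
      have h6 := inner_VV_nonneg (p := p) S.hdel (gradient w x)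
      have h7 := hM (w x / (n + 1))
      have h8 := Real.exp_pos (-p * w x)
      rw [norm_mul, norm_mul, norm_div, Real.norm_of_nonneg h6, Real.norm_of_nonneg h8.le,
        Real.norm_of_nonneg hn.le, Real.norm_eq_abs]
      have h9 : |deriv Mean_z (w x / (n + 1))| / (n + 1) ≤ M * (1 / (n + 1)) := by
        rw [mul_one_div]
        exact div_le_div_of_nonneg_right h7 hn.le
      calc |deriv Mean_z (w x / (n + 1))| / (n + 1) * Real.exp (-p * w x) *
            ⟪VV p del (gradient w x), gradient w x⟫
          ≤ (M * (1 / (n + 1))) * Real.exp (-p * w x) * (C * FF p del (gradient w x)) := by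
            refine mul_le_mul (mul_le_mul_of_nonneg_right h9 h8.le) h5 h6 ?_
            positivity
        _ = _ := by ring
    rw [integral_const_mul] at h4
    refine h4.trans (le_of_eq ?_)
    ring
  have hlim : Tendsto (fun n : ℕ => (∫ x in P, Mean_z (w x / (n + 1)) *
      (Real.exp (-p * w x) * (sd p del w x - l))) - ∫ x in P, Mean_z (w x / (n + 1)) *
      (Real.exp (-p * w x) * (FF p del (gradient w x) - l))) atTop (𝓝 0) := by
    refine squeeze_zero_norm (a := fun n : ℕ => (M * C * ∫ x in P, Real.exp (-p * w x) *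
      FF p del (gradient w x)) * (1 / ((n : ℝ) + 1))) (fun n => ?_) ?_
    · rw [Real.norm_eq_abs]
      exact key n
    have h1 := (tendsto_one_div_add_atTop_nhds_zero_nat (𝕜 := ℝ)).const_mul
      (M * C * ∫ x in P, Real.exp (-p * w x) * FF p del (gradient w x))
    rw [mul_zero] at h1
    exact h1
  have h1 := tendsto_nhds_unique (hL1.sub hL2) hlim
  linarith

end Pool.Agent.PLap
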