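import Pool.Agent.PLap.Div

/-!
Slab: Poincare inequality in a slab, and a lower bound for concave functions.

slab: apply `ibp` with the field X(x) = (<nu,x> - c) nu (dv X = |nu|^2 = 1) and f = psi^2:
int psi^2 = - int 2 psi <grad psi, nu> (<nu,x> - c) <= 2 eta int |psi| |grad psi| <= 2 eta (int psi^2)^(1/2) (int |grad psi|^2)^(1/2).
(All integrands are bounded with compact support. If int psi^2 = 0 nothing to prove; else divide. Or use 2 eta s t <= s^2/2 + 2 eta^2 t^2.)
conc_bound: S' = image of S under x -> (x0+x)/2 is contained in S, has measure |S|/4 (dimension 2), and psi >= psi(x0)/2 on S' by concavity and psi >= 0.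
-/

set_option autoImplicit false

open MeasureTheory Set Filter Topology
open scoped ENNReal NNReal ContDiff RealInnerProductSpace

namespace Pool.Agent.PLap

private theorem Slab_intOn {P : Set E} (ho : IsOpen P) {g : E → ℝ} {K : Set E}
    (hm : AEStronglyMeasurable g (volume.restrict P)) (hK : IsCompact K) (hKP : K ⊆ P) {C : ℝ}
    (hC : ∀ x ∈ K, |g x| ≤ C) (h0 : ∀ x ∈ P \ K, g x = 0) : IntegrableOn g P := by
  have h1 : IntegrableOn g K :=
    IntegrableOn.of_bound hK.measure_lt_top (hm.mono_measure (Measure.restrict_mono hKP le_rfl)) C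
      ((ae_restrict_iff' hK.isClosed.measurableSet).2 (ae_of_all _ fun x hx => by
        rw [Real.norm_eq_abs]; exact hC x hx))
  have h2 : IntegrableOn g (P \ K) := by
    have h4 : IntegrableOn (fun _ : E => (0 : ℝ)) (P \ K) := integrableOn_zero
    exact h4.congr_fun (fun x hx => (h0 x hx).symm)
      (ho.measurableSet.diff hK.isClosed.measurableSet)
  have h3 := h1.union h2
  rwa [Set.union_diff_cancel hKP] at h3

private theorem Slab_sq {P : Set E} (ho : IsOpen P) {f : E → ℝ} (hf : LocallyLipschitzOn P f) :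
    LocallyLipschitzOn P (fun z => f z ^ 2) := by
  intro x hx
  obtain ⟨C, r, hr, hs, h⟩ := Rad_ball ho hf hx
  have hF : ∀ y ∈ Metric.ball x r, |f y| ≤ |f x| + C * r := by
    intro y hy
    have h3 := h.dist_le_mul y hy x (Metric.mem_ball_self hr)
    rw [Real.dist_eq] at h3
    have h4 : (C : ℝ) * dist y x ≤ C * r :=
      mul_le_mul_of_nonneg_left (le_of_lt (Metric.mem_ball.1 hy)) C.coe_nonneg
    have h5 := abs_sub_abs_le_abs_sub (f y) (f x)
    linarith
  have hF0 : 0 ≤ |f x| + C * r := by positivity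
  refine ⟨Real.toNNReal (2 * (|f x| + C * r) * C), Metric.ball x r,
    mem_nhdsWithin_of_mem_nhds (Metric.ball_mem_nhds x hr), ?_⟩
  refine LipschitzOnWith.of_dist_le_mul fun y hy z hz => ?_
  rw [Real.coe_toNNReal _ (by positivity), Real.dist_eq]
  have e : f y ^ 2 - f z ^ 2 = (f y + f z) * (f y - f z) := by ring
  rw [e, abs_mul]
  have h3 := h.dist_le_mul y hy z hz
  rw [Real.dist_eq] at h3
  have h4 : |f y + f z| ≤ 2 * (|f x| + C * r) := by
    have := abs_add_le (f y) (f z)
    linarith [hF y hy, hF z hz]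
  calc |f y + f z| * |f y - f z| ≤ (2 * (|f x| + C * r)) * (C * dist y z) :=
        mul_le_mul h4 h3 (abs_nonneg _) (by positivity)
    _ = _ := by ring

private theorem Slab_dv (nu : E) (hnu : ‖nu‖ = 1) (c : ℝ) (x : E) :
    dv (fun z : E => (⟪nu, z⟫ - c) • nu) x = 1 := by
  have h1 : HasFDerivAt (fun z : E => (⟪nu, z⟫ - c) • nu)
      ((innerSL ℝ nu).smulRight nu) x := by
    have h2 : HasFDerivAt (fun z : E => ⟪nu, z⟫ - c) (innerSL ℝ nu) x := by
      have h3 : HasFDerivAt (fun z : E => (innerSL ℝ nu) z) (innerSL ℝ nu) x :=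
        (innerSL ℝ nu).hasFDerivAt
      exact h3.sub_const c
    exact h2.smul_const nu
  unfold dv
  rw [h1.fderiv]
  have h4 : ‖nu‖ ^ 2 = nu 0 ^ 2 + nu 1 ^ 2 := by
    rw [EuclideanSpace.norm_sq_eq]
    simp [Fin.sum_univ_two]
  rw [hnu] at h4
  simp only [ContinuousLinearMap.smulRight_apply, innerSL_apply_apply, PiLp.smul_apply, smul_eq_mul,
    Fin.sum_univ_two, bb]
  rw [EuclideanSpace.inner_single_right, EuclideanSpace.inner_single_right]
  simp
  nlinarith [h4]

theorem slab {P : Set E} (ho : IsOpen P) {psi : E → ℝ} (hpsi : LocallyLipschitzOn P psi)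
    (h0 : EqOff P psi (fun _ => 0)) {nu : E} (hnu : ‖nu‖ = 1) {c eta : ℝ} (heta : 0 ≤ eta)
    (hs : ∀ x ∈ P, psi x ≠ 0 → |⟪nu, x⟫ - c| ≤ eta) :
    ∫ x in P, psi x ^ 2 ≤ 4 * eta ^ 2 * ∫ x in P, ‖gradient psi x‖ ^ 2 := by
  have hX : LocallyLipschitzOn P (fun z : E => (⟪nu, z⟫ - c) • nu) := by
    have h1 : LipschitzWith 1 (fun z : E => (⟪nu, z⟫ - c) • nu) := by
      refine LipschitzWith.of_dist_le_mul fun y z => ?_
      rw [dist_eq_norm, ← sub_smul, norm_smul, hnu, mul_one]
      have e : (⟪nu, y⟫ - c) - (⟪nu, z⟫ - c) = ⟪nu, y - z⟫ := by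
        rw [inner_sub_right]; ring
      rw [e, Real.norm_eq_abs, dist_eq_norm]
      have h2 := abs_real_inner_le_norm nu (y - z)
      rw [hnu] at h2
      simpa using h2
    exact (h1.locallyLipschitz).locallyLipschitzOn
  have hf := Slab_sq ho hpsi
  have h0' : EqOff P (fun z => psi z ^ 2) (fun _ => 0) := by
    obtain ⟨K, hK, hKP, hK0⟩ := h0
    refine ⟨K, hK, hKP, fun x hx => ?_⟩
    simp only [hK0 x hx]
    norm_num
  obtain ⟨hI1, hI2, hE⟩ := ibp ho hX hf h0'
  simp only [Slab_dv nu hnu c, mul_one] at hI1 hE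
  obtain ⟨K, hK, hKP, hK0⟩ := h0
  obtain ⟨D, hD0, hD⟩ := gradient_bound ho hpsi hK hKP
  have hI3 : IntegrableOn (fun x => ‖gradient psi x‖ ^ 2) P := by
    refine Slab_intOn ho ?_ hK hKP (C := D ^ 2) (fun x hx => ?_) (fun x hx => ?_)
    · exact ((measurable_gradient psi).norm.pow_const 2).aestronglyMeasurable
    · rw [abs_of_nonneg (by positivity)]
      exact pow_le_pow_left₀ (norm_nonneg _) (hD x hx) 2
    · have he : psi =ᶠ[𝓝 x] fun _ => (0 : ℝ) := by
        have ho2 : IsOpen (P \ K) := ho.sdiff hK.isClosed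
        filter_upwards [ho2.mem_nhds hx] with y hy
        exact hK0 y hy
      have h2 : gradient psi x = 0 := by
        unfold gradient
        rw [he.fderiv_eq]
        simp
      rw [h2, norm_zero]
      norm_num
  have hle : ∫ x in P, -⟪gradient (fun z => psi z ^ 2) x, (⟪nu, x⟫ - c) • nu⟫ ≤
      ∫ x in P, (1 / 2 * psi x ^ 2 + 2 * eta ^ 2 * ‖gradient psi x‖ ^ 2) := by
    refine integral_mono_ae hI2.neg ((hI1.const_mul (1 / 2)).add (hI3.const_mul (2 * eta ^ 2))) ?_
    have hmem : ∀ᵐ x ∂(volume.restrict P), x ∈ P := ae_restrict_mem ho.measurableSet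
    filter_upwards [rademacher ho hpsi, hmem] with x h1 h2
    have h3 : gradient (fun z => psi z ^ 2) x = (2 * psi x) • gradient psi x := by
      unfold gradient
      have h4 : HasFDerivAt (fun z => psi z ^ 2) ((2 * psi x) • fderiv ℝ psi x) x := by
        have := h1.hasFDerivAt.pow 2
        simpa using this
      rw [h4.fderiv, map_smul]
    rw [h3, inner_smul_left, inner_smul_right]
    simp only [conj_trivial]
    have h5 := abs_real_inner_le_norm (gradient psi x) nu
    rw [hnu, mul_one] at h5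
    have h6 := abs_le.1 h5
    by_cases hz : psi x = 0
    · rw [hz]
      have : 0 ≤ 2 * eta ^ 2 * ‖gradient psi x‖ ^ 2 := by positivity
      simp only [mul_zero, zero_mul, neg_zero]
      linarith
    · have h7 := hs x h2 hz
      have h8 : |psi x * ((⟪nu, x⟫ - c) * ⟪gradient psi x, nu⟫)| ≤
          |psi x| * (eta * ‖gradient psi x‖) := by
        rw [abs_mul, abs_mul]
        exact mul_le_mul_of_nonneg_left (mul_le_mul h7 h5 (abs_nonneg _) heta) (abs_nonneg _)
      have h9 := neg_le_of_abs_le h8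
      have h10 : |psi x| * (eta * ‖gradient psi x‖) ≤
          1 / 4 * psi x ^ 2 + eta ^ 2 * ‖gradient psi x‖ ^ 2 := by
        have h11 := sq_nonneg (1 / 2 * |psi x| - eta * ‖gradient psi x‖)
        have h12 : |psi x| ^ 2 = psi x ^ 2 := sq_abs _
        nlinarith
      nlinarith
  rw [integral_neg, ← hE, integral_add (hI1.const_mul (1 / 2)) (hI3.const_mul (2 * eta ^ 2)),
    integral_const_mul, integral_const_mul] at hle
  linarith

theorem conc_bound {S : Set E} (ho : IsOpen S) (hb : Bornology.IsBounded S)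
    {psi : E → ℝ} (hc : ConcaveOn ℝ S psi) (hpos : ∀ x ∈ S, 0 ≤ psi x)
    (hint : IntegrableOn (fun x => psi x ^ 2) S) {x0 : E} (hx0 : x0 ∈ S) :
    psi x0 ^ 2 * (volume S).toReal ≤ 16 * ∫ x in S, psi x ^ 2 := by
  have hvol := Measure.addHaar_image_homothety (volume : Measure E) x0 (1 / 2 : ℝ) S
  have hfin : (volume S) ≠ ⊤ := hb.measure_lt_top.ne
  have hmap : ∀ x, AffineMap.homothety x0 (1 / 2 : ℝ) x = (1 / 2 : ℝ) • x0 + (1 / 2 : ℝ) • x := by
    intro x
    rw [AffineMap.homothety_apply]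
    simp only [vsub_eq_sub, vadd_eq_add, smul_sub]
    have : x0 = (1 / 2 : ℝ) • x0 + (1 / 2 : ℝ) • x0 := by
      rw [← add_smul]; norm_num
    nth_rewrite 2 [this]
    abel
  have hsub : (AffineMap.homothety x0 (1 / 2 : ℝ)) '' S ⊆ S := by
    rintro _ ⟨x, hx, rfl⟩
    rw [hmap]
    exact hc.1 hx0 hx (by norm_num) (by norm_num) (by norm_num)
  have hopen : IsOpen ((AffineMap.homothety x0 (1 / 2 : ℝ)) '' S) :=
    AffineMap.homothety_isOpenMap x0 (1 / 2) (by norm_num) _ ho
  have hlow : ∀ z ∈ (AffineMap.homothety x0 (1 / 2 : ℝ)) '' S, psi x0 / 2 ≤ psi z := by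
    rintro _ ⟨x, hx, rfl⟩
    rw [hmap]
    have h1 := hc.2 hx0 hx (by norm_num : (0 : ℝ) ≤ 1 / 2) (by norm_num : (0 : ℝ) ≤ 1 / 2)
      (by norm_num)
    simp only [smul_eq_mul] at h1
    linarith [hpos x hx]
  have h1 : ∫ z in (AffineMap.homothety x0 (1 / 2 : ℝ)) '' S, (psi x0 / 2) ^ 2 ≤
      ∫ z in (AffineMap.homothety x0 (1 / 2 : ℝ)) '' S, psi z ^ 2 := by
    refine setIntegral_mono_on ?_ (hint.mono_set hsub) hopen.measurableSet fun z hz => ?_
    · refine integrableOn_const ?_
      exact ((measure_mono hsub).trans_lt hb.measure_lt_top).ne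
    · exact pow_le_pow_left₀ (by linarith [hpos x0 hx0]) (hlow z hz) 2
  have h2 : ∫ z in (AffineMap.homothety x0 (1 / 2 : ℝ)) '' S, psi z ^ 2 ≤ ∫ z in S, psi z ^ 2 := by
    refine setIntegral_mono_set hint (ae_of_all _ fun x => by positivity) ?_
    exact HasSubset.Subset.eventuallyLE hsub
  rw [setIntegral_const, Measure.real, hvol] at h1
  have h3 : (ENNReal.ofReal |(1 / 2 : ℝ) ^ Module.finrank ℝ E| * volume S).toReal =
      1 / 4 * (volume S).toReal := by
    rw [ENNReal.toReal_mul]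
    congr 1
    rw [ENNReal.toReal_ofReal (abs_nonneg _)]
    rw [show Module.finrank ℝ E = 2 from by simp [E]]
    norm_num
  rw [h3, smul_eq_mul] at h1
  nlinarith

end Pool.Agent.PLap
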