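import Pool.Agent.PLap.SecB
import Pool.Agent.PLap.Slab
import Pool.Agent.PLap.SecD
import Pool.Agent.PLap.ExMin

/-!
SubLip: the subgradients of the minimiser are locally Lipschitz.

Let K be compact in P. (1) R >= 1 bounds all subgradients of w at points of K (sub_bounded). For x0, x1 in K with subgradients y0, y1 let
ell_i(x) = w(x_i) + <y_i, x - x_i> <= w, s = |y1 - y0| (assume s > 0), nu = (y1 - y0)/s, and for a constant c in (0,1]
ell = (ell_0 + ell_1)/2 + c s^2. On P: ell <= M2 with M2 depending on K, R, diam P only (s <= 2R).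
K2 = {x in P : a x <= M2} is compact; off K2: ell <= M2 < a <= w <= B.
(2) {w < ell} is contained in K2 and in {max(ell_0,ell_1) < ell} = {|ell_1 - ell_0|/2 < c s^2}, i.e. |<nu,x> - k| < 2 c s for some constant k.
(3) ell <= B on P: off K2 ok. On K2 use second_diff for B: constants C_B >= 1, d0 with B(x+v)+B(x-v)-2B(x) <= C_B |v|^2, x+-v in P for |v| <= d0, x in K2;
enlarge C_B so that R/C_B <= d0. If |ell_1 - ell_0|(x)/2 >= c s^2 then B >= max(ell_0, ell_1) = (ell_0+ell_1)/2 + |ell_1-ell_0|/2 >= ell. In any case with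
t = s/(2 C_B) <= d0: B(x+t nu) + B(x - t nu) >= ell_1(x + t nu) + ell_0(x - t nu) = ell_0(x)+ell_1(x) + t s, so
B(x) >= (ell_0+ell_1)(x)/2 + t s/2 - C_B t^2/2 = (ell_0+ell_1)(x)/2 + s^2/(8 C_B) >= ell(x) if c <= 1/(8 C_B).
(4) section_bound (compact K2, radius R: |e| = |(y0+y1)/2| <= R) gives C2 with int |grad psi|^2 <= C2 int psi, psi = max(ell - w, 0).
With S = {x in P : psi > 0} (open, convex since w - ell is convex, bounded), slab with eta = 2 c s, Cauchy-Schwarz int psi <= (int psi^2)^(1/2) |S|^(1/2):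
int psi^2 <= 4 eta^2 C2 (int psi^2)^(1/2) |S|^(1/2), so int psi^2 <= 16 eta^4 C2^2 |S|, and by conc_bound (if x0 in S) psi(x0)^2 |S| <= 16 int psi^2,
so psi(x0) <= 16 eta^2 C2 = 64 c^2 s^2 C2 (|S| > 0 since S is open and nonempty).
(5) psi(x0) >= ell(x0) - w(x0) = (ell_1(x0) - w(x0))/2 + c s^2 >= c s^2 - s|x1-x0|/2, because ell_1(x0) = w(x1) + <y1, x0-x1> >= w(x0) + <y0, x1-x0> + <y1, x0-x1>.
If |x1-x0| < c s then psi(x0) >= c s^2/2 > 0, so x0 in S and c s^2/2 <= 64 C2 c^2 s^2, i.e. 1 <= 128 C2 c: false for c = min(1, 1/(8 C_B), 1/(256 C2)).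
Hence |x1-x0| >= c s, i.e. |y1-y0| <= |x1-x0|/c.
-/

set_option autoImplicit false

open MeasureTheory Set Filter Topology
open scoped ENNReal NNReal ContDiff RealInnerProductSpace

namespace Pool.Agent.PLap

/-- subgradients on compact sets are bounded -/
theorem sub_bounded {P : Set E} (ho : IsOpen P) {w : E → ℝ} (hw : ConvexOn ℝ P w)
    {K : Set E} (hK : IsCompact K) (hKP : K ⊆ P) :
    ∃ R : ℝ, 1 ≤ R ∧ ∀ x ∈ K, ∀ y : E, (∀ z ∈ P, w x + ⟪y, z - x⟫ ≤ w z) → ‖y‖ ≤ R := by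
  obtain ⟨r, hr, hrP⟩ := hK.exists_cthickening_subset_open ho hKP
  have hcpt : IsCompact (Metric.cthickening r K) := hK.cthickening
  have hwc : ContinuousOn w (Metric.cthickening r K) := (hw.continuousOn ho).mono hrP
  obtain ⟨M, hM⟩ := hcpt.exists_bound_of_continuousOn hwc
  refine ⟨max 1 (2 * M / r), le_max_left _ _, ?_⟩
  intro x hx y hy
  by_cases hy0 : y = 0
  · rw [hy0, norm_zero]; exact le_trans zero_le_one (le_max_left _ _)
  · have hyn : 0 < ‖y‖ := norm_pos_iff.mpr hy0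
    apply le_trans _ (le_max_right _ _)
    rw [le_div_iff₀ hr]
    have hz : x + (r / ‖y‖) • y ∈ Metric.cthickening r K := by
      apply Metric.mem_cthickening_of_dist_le _ x _ _ hx
      rw [dist_eq_norm, add_sub_cancel_left, norm_smul, Real.norm_eq_abs,
        abs_of_pos (div_pos hr hyn), div_mul_cancel₀ _ hyn.ne']
    have h1 := hy _ (hrP hz)
    rw [add_sub_cancel_left, inner_smul_right, real_inner_self_eq_norm_sq] at h1
    have h2 := hM _ hz
    have h3 := hM x (Metric.self_subset_cthickening K hx)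
    rw [Real.norm_eq_abs, abs_le] at h2 h3
    have h4 : r / ‖y‖ * ‖y‖ ^ 2 = ‖y‖ * r := by field_simp
    rw [h4] at h1
    linarith [h2.2, h3.1]

/-- `max (c + <e, x> - w x) 0` is locally Lipschitz -/
theorem psi_locLip {P : Set E} (ho : IsOpen P) {w : E → ℝ} (hw : ConvexOn ℝ P w) (c : ℝ) (e : E) :
    LocallyLipschitzOn P (fun z => max (c + ⟪e, z⟫ - w z) 0) := by
  intro x hx
  obtain ⟨K, t, ht, hKt⟩ := convex_locLip ho hw hx
  refine ⟨‖e‖₊ + K, t, ht, ?_⟩
  apply LipschitzOnWith.of_dist_le_mul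
  intro u hu v hv
  have h1 := hKt.dist_le_mul u hu v hv
  rw [Real.dist_eq] at h1 ⊢
  have h2 : |max (c + ⟪e, u⟫ - w u) 0 - max (c + ⟪e, v⟫ - w v) 0| ≤
      |(c + ⟪e, u⟫ - w u) - (c + ⟪e, v⟫ - w v)| := abs_max_sub_max_le_abs _ _ _
  apply h2.trans
  have h3 : (c + ⟪e, u⟫ - w u) - (c + ⟪e, v⟫ - w v) = ⟪e, u - v⟫ - (w u - w v) := by
    rw [inner_sub_right]; ring
  rw [h3]
  have h4 : |⟪e, u - v⟫| ≤ ‖e‖ * ‖u - v‖ := abs_real_inner_le_norm _ _
  have h5 : |⟪e, u - v⟫ - (w u - w v)| ≤ |⟪e, u - v⟫| + |w u - w v| := abs_sub _ _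
  rw [dist_eq_norm] at h1
  rw [dist_eq_norm, NNReal.coe_add, coe_nnnorm, add_mul]
  linarith

/-- the analytic core: a bound for `psi = max (c + <e, x> - w x) 0` in a slab -/
theorem psi_bound {P : Set E} (ho : IsOpen P) (hb : Bornology.IsBounded P) {w : E → ℝ}
    (hw : ConvexOn ℝ P w) {K : Set E} (hK : IsCompact K) (hKP : K ⊆ P) (c : ℝ) (e : E)
    (hcK : ∀ x ∈ P, w x < c + ⟪e, x⟫ → x ∈ K) {C : ℝ} (hC : 0 < C)
    (hsec : ∫ x in P, ‖gradient (fun z => max (c + ⟪e, z⟫ - w z) 0) x‖ ^ 2 ≤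
        C * ∫ x in P, max (c + ⟪e, x⟫ - w x) 0)
    {nu : E} (hnu : ‖nu‖ = 1) {k eta : ℝ} (heta : 0 < eta)
    (hs : ∀ x ∈ P, w x < c + ⟪e, x⟫ → |⟪nu, x⟫ - k| ≤ eta)
    {x0 : E} (hx0 : x0 ∈ P) (hx0' : w x0 < c + ⟪e, x0⟫) :
    c + ⟪e, x0⟫ - w x0 ≤ 16 * eta ^ 2 * C := by
  set psi : E → ℝ := fun z => max (c + ⟪e, z⟫ - w z) 0 with hpsi
  have hpsi0 : ∀ x, 0 ≤ psi x := fun x => le_max_right _ _
  have hwc : ContinuousOn w P := hw.continuousOn ho
  have hlc : ContinuousOn (fun z => c + ⟪e, z⟫ - w z) P := by fun_prop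
  have hpc : ContinuousOn psi P := by
    have : ContinuousOn (fun z => max (c + ⟪e, z⟫ - w z) (0 : ℝ)) P :=
      ContinuousOn.sup hlc continuousOn_const
    exact this
  have hpl : LocallyLipschitzOn P psi := psi_locLip ho hw c e
  have hoff : ∀ x ∈ P \ K, psi x = 0 := by
    intro x hx
    have : ¬ (w x < c + ⟪e, x⟫) := fun h => hx.2 (hcK x hx.1 h)
    exact max_eq_right (by linarith)
  have hEq : EqOff P psi (fun _ => 0) := ⟨K, hK, hKP, hoff⟩
  have hne : ∀ x, psi x ≠ 0 → w x < c + ⟪e, x⟫ := by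
    intro x hx
    by_contra h
    exact hx (max_eq_right (by linarith))
  have hslab := slab ho hpl hEq hnu heta.le (fun x hx h => hs x hx (hne x h))
  -- bound on psi
  obtain ⟨M, hM⟩ := hK.exists_bound_of_continuousOn (hpc.mono hKP)
  have hM0 : ∀ x ∈ P, ‖psi x‖ ≤ max M 0 := by
    intro x hx
    by_cases hxK : x ∈ K
    · exact (hM x hxK).trans (le_max_left _ _)
    · rw [hoff x ⟨hx, hxK⟩, norm_zero]; exact le_max_right _ _
  have hPfin : volume P ≠ ⊤ := hb.measure_lt_top.ne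
  have hPm : MeasurableSet P := ho.measurableSet
  have : IsFiniteMeasure (volume.restrict P) := isFiniteMeasure_restrict.mpr hPfin
  have hI1 : IntegrableOn psi P := by
    apply Integrable.of_bound (hpc.aestronglyMeasurable hPm) (max M 0)
    filter_upwards [ae_restrict_mem hPm] with x hx using hM0 x hx
  have hI2 : IntegrableOn (fun x => psi x ^ 2) P := by
    apply Integrable.of_bound ((hpc.pow 2).aestronglyMeasurable hPm) ((max M 0) ^ 2)
    filter_upwards [ae_restrict_mem hPm] with x hx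
    rw [Pi.pow_apply, norm_pow]
    exact pow_le_pow_left₀ (norm_nonneg _) (hM0 x hx) 2
  -- the set S
  set S : Set E := {x | x ∈ P ∧ w x < c + ⟪e, x⟫} with hS
  have hSo : IsOpen S := by
    have : S = P ∩ (fun z => c + ⟪e, z⟫ - w z) ⁻¹' (Ioi 0) := by
      ext x
      simp only [hS, mem_ofPred_eq, mem_inter_iff, mem_preimage, mem_Ioi, sub_pos]
    rw [this]
    exact hlc.isOpen_inter_preimage ho isOpen_Ioi
  have hSP : S ⊆ P := fun x hx => hx.1
  have hSb : Bornology.IsBounded S := hb.subset hSP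
  have hSm : MeasurableSet S := hSo.measurableSet
  have hSfin : volume S ≠ ⊤ := hSb.measure_lt_top.ne
  have hconv : ConcaveOn ℝ P (fun z => c + ⟪e, z⟫ - w z) := by
    have h1 : ConcaveOn ℝ P (fun z => c + ⟪e, z⟫) := by
      refine ⟨hw.1, ?_⟩
      intro x hx y hy a b ha hb hab
      simp only [smul_eq_mul, inner_add_right, inner_smul_right]
      have : c = a * c + b * c := by rw [← add_mul, hab, one_mul]
      nlinarith
    exact h1.sub hw
  have hSc : Convex ℝ S := by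
    have := hconv.convex_gt 0
    have h2 : S = {x | x ∈ P ∧ (0 : ℝ) < c + ⟪e, x⟫ - w x} := by
      ext x
      simp only [hS, mem_ofPred_eq, sub_pos]
    rw [h2]
    exact this
  have hpsiS : ∀ x ∈ S, psi x = c + ⟪e, x⟫ - w x := fun x hx =>
    max_eq_left (by linarith [hx.2])
  have hconcS : ConcaveOn ℝ S psi := by
    refine ⟨hSc, ?_⟩
    intro x hx y hy a b ha hb hab
    rw [hpsiS x hx, hpsiS y hy, hpsiS _ (hSc hx hy ha hb hab)]
    exact hconv.2 hx.1 hy.1 ha hb hab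
  have hx0S : x0 ∈ S := ⟨hx0, hx0'⟩
  have hcb := conc_bound hSo hSb hconcS (fun x _ => hpsi0 x) (hI2.mono_set hSP) hx0S
  -- integrals over S and P agree
  have hzero : ∀ x ∈ P \ S, psi x = 0 := by
    intro x hx
    have : ¬ (w x < c + ⟪e, x⟫) := fun h => hx.2 ⟨hx.1, h⟩
    exact max_eq_right (by linarith)
  have e1 : ∫ x in P, psi x = ∫ x in S, psi x := by
    apply setIntegral_eq_of_subset_of_forall_sdiff_eq_zero hPm hSP
    intro x hx; exact hzero x hx
  have e2 : ∫ x in P, psi x ^ 2 = ∫ x in S, psi x ^ 2 := by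
    apply setIntegral_eq_of_subset_of_forall_sdiff_eq_zero hPm hSP
    intro x hx; rw [hzero x hx]; norm_num
  -- measure of S
  have hSpos : 0 < (volume S).toReal :=
    ENNReal.toReal_pos (hSo.measure_pos volume ⟨x0, hx0S⟩).ne' hSfin
  set I1 := ∫ x in P, psi x with hI1d
  set I2 := ∫ x in P, psi x ^ 2 with hI2d
  set V := (volume S).toReal with hV
  set L := 4 * eta ^ 2 * C with hL
  have hLpos : 0 < L := by positivity
  have h1 : I2 ≤ L * I1 := by
    calc I2 ≤ 4 * eta ^ 2 * ∫ x in P, ‖gradient psi x‖ ^ 2 := hslab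
      _ ≤ 4 * eta ^ 2 * (C * I1) := by
        apply mul_le_mul_of_nonneg_left hsec (by positivity)
      _ = L * I1 := by rw [hL]; ring
  have h2 : 2 * L * I1 ≤ I2 + L ^ 2 * V := by
    have hi : ∫ x in S, 2 * L * psi x ≤ ∫ x in S, (psi x ^ 2 + L ^ 2) := by
      apply integral_mono
      · exact (hI1.mono_set hSP).const_mul _
      · exact (hI2.mono_set hSP).add (integrableOn_const hSfin)
      · intro x
        show 2 * L * psi x ≤ psi x ^ 2 + L ^ 2
        nlinarith [sq_nonneg (psi x - L)]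
    rw [integral_const_mul, integral_add (hI2.mono_set hSP) (integrableOn_const hSfin),
      setIntegral_const, ← e1, ← e2] at hi
    have hr : volume.real S = V := rfl
    rw [hr, smul_eq_mul] at hi
    linarith
  have h3 : I2 ≤ L ^ 2 * V := by linarith
  rw [← e2] at hcb
  have h4 : psi x0 ^ 2 * V ≤ (4 * L) ^ 2 * V := by
    calc psi x0 ^ 2 * V ≤ 16 * I2 := hcb
      _ ≤ 16 * (L ^ 2 * V) := by linarith
      _ = (4 * L) ^ 2 * V := by ring
  have h5 : psi x0 ^ 2 ≤ (4 * L) ^ 2 := le_of_mul_le_mul_right h4 hSpos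
  have h6 : psi x0 ≤ 4 * L := abs_le_of_sq_le_sq' h5 (by positivity) |>.2
  rw [hpsiS x0 hx0S] at h6
  calc c + ⟪e, x0⟫ - w x0 ≤ 4 * L := h6
    _ = 16 * eta ^ 2 * C := by rw [hL]; ring

theorem sub_lip {p del : ℝ} {P : Set E} {a B : E → ℝ} {lmax : ℝ}
    (S : Setup p del P a B lmax) {w : E → ℝ} {l : ℝ} (hw : Adm P a B w)
    (hF : FOC p del l P a B w) {K : Set E} (hK : IsCompact K) (hKP : K ⊆ P) :
    ∃ C : ℝ, ∀ x0 ∈ K, ∀ x1 ∈ K, ∀ y0 y1 : E, (∀ z ∈ P, w x0 + ⟪y0, z - x0⟫ ≤ w z) →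
      (∀ z ∈ P, w x1 + ⟪y1, z - x1⟫ ≤ w z) → ‖y1 - y0‖ ≤ C * ‖x1 - x0‖ := by
  obtain ⟨R, hR1, hR⟩ := sub_bounded S.isOpen hw.conv hK hKP
  have hwc : ContinuousOn w P := hw.conv.continuousOn S.isOpen
  obtain ⟨M, hM⟩ := hK.exists_bound_of_continuousOn (hwc.mono hKP)
  obtain ⟨D, hD⟩ : ∃ D : ℝ, ∀ x ∈ P, ∀ z ∈ P, ‖x - z‖ ≤ D := by
    obtain ⟨D, hD⟩ := Metric.isBounded_iff.mp S.bounded
    exact ⟨D, fun x hx z hz => by rw [← dist_eq_norm]; exact hD hx hz⟩
  set M2 : ℝ := M + R * D + 4 * R ^ 2 with hM2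
  set K2 : Set E := {x | x ∈ P ∧ a x ≤ M2} with hK2d
  have hK2 : IsCompact K2 := S.proper M2
  have hK2P : K2 ⊆ P := fun x hx => hx.1
  obtain ⟨CB0, d0, hCB0, hd0, hsd⟩ := second_diff S.isOpen (c11_of_C2 S.isOpen S.B2) hK2 hK2P
  set CB : ℝ := max CB0 (R / d0) with hCB
  have hCBpos : 0 < CB := lt_of_lt_of_le hCB0 (le_max_left _ _)
  obtain ⟨C2, hC2, hsec⟩ := section_bound S hw hF hK2 hK2P R
  set c : ℝ := min 1 (min (1 / (8 * CB)) (1 / (256 * C2))) with hc
  have hcpos : 0 < c := by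
    apply lt_min one_pos (lt_min (by positivity) (by positivity))
  have hc1 : c ≤ 1 := min_le_left _ _
  have hc2 : c ≤ 1 / (8 * CB) := (min_le_right _ _).trans (min_le_left _ _)
  have hc3 : c ≤ 1 / (256 * C2) := (min_le_right _ _).trans (min_le_right _ _)
  refine ⟨1 / c, ?_⟩
  intro x0 hx0 x1 hx1 y0 y1 hy0 hy1
  by_contra hcon
  push Not at hcon
  have hx0P := hKP hx0
  have hx1P := hKP hx1
  set s : ℝ := ‖y1 - y0‖ with hs
  have hspos : 0 < s := lt_of_le_of_lt (by positivity) hcon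
  have hdist : ‖x1 - x0‖ < c * s := by
    rw [div_mul_eq_mul_div, one_mul, div_lt_iff₀ hcpos] at hcon
    linarith
  have hy0R := hR x0 hx0 y0 hy0
  have hy1R := hR x1 hx1 y1 hy1
  have hs2R : s ≤ 2 * R := by
    calc s ≤ ‖y1‖ + ‖y0‖ := norm_sub_le _ _
      _ ≤ 2 * R := by linarith
  set nu : E := (1 / s) • (y1 - y0) with hnu
  have hnu1 : ‖nu‖ = 1 := by
    rw [hnu, norm_smul, Real.norm_eq_abs, abs_of_pos (by positivity), ← hs]
    field_simp
  have hsnu : s • nu = y1 - y0 := by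
    rw [hnu, smul_smul, mul_one_div_cancel hspos.ne', one_smul]
  have hinnu : ⟪y1 - y0, nu⟫ = s := by
    rw [hnu, inner_smul_right, real_inner_self_eq_norm_sq, ← hs]
    field_simp
  set e : E := (1 / 2 : ℝ) • (y0 + y1) with he
  have heR : ‖e‖ ≤ R := by
    rw [he, norm_smul, Real.norm_eq_abs, abs_of_pos (by norm_num)]
    have := norm_add_le y0 y1
    linarith
  set c0 : ℝ := ((w x0 - ⟪y0, x0⟫) + (w x1 - ⟪y1, x1⟫)) / 2 + c * s ^ 2 with hc0
  have hell : ∀ x, c0 + ⟪e, x⟫ =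
      ((w x0 + ⟪y0, x - x0⟫) + (w x1 + ⟪y1, x - x1⟫)) / 2 + c * s ^ 2 := by
    intro x
    rw [hc0, he, inner_smul_left, inner_add_left, inner_sub_right, inner_sub_right]
    simp only [conj_trivial]
    ring
  have hcs : c * s ^ 2 ≤ 4 * R ^ 2 := by
    have : s ^ 2 ≤ (2 * R) ^ 2 := pow_le_pow_left₀ hspos.le hs2R 2
    nlinarith [sq_nonneg s]
  have hin : ∀ (y x z : E), ‖y‖ ≤ R → x ∈ P → z ∈ P → ⟪y, x - z⟫ ≤ R * D := by
    intro y x z hy hx hz
    calc ⟪y, x - z⟫ ≤ ‖y‖ * ‖x - z‖ := real_inner_le_norm _ _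
      _ ≤ R * D := mul_le_mul hy (hD x hx z hz) (norm_nonneg _) (by linarith)
  have hellM : ∀ x ∈ P, c0 + ⟪e, x⟫ ≤ M2 := by
    intro x hx
    rw [hell x]
    have h1 := hin y0 x x0 hy0R hx hx0P
    have h2 := hin y1 x x1 hy1R hx hx1P
    have h3 := le_trans (le_abs_self _) (hM x0 hx0)
    have h4 := le_trans (le_abs_self _) (hM x1 hx1)
    rw [hM2]
    linarith
  have hellB : ∀ x ∈ P, c0 + ⟪e, x⟫ ≤ B x := by
    intro x hx
    by_cases hxK : x ∈ K2
    · set t : ℝ := s / (2 * CB) with ht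
      have htpos : 0 < t := by positivity
      have htd : t ≤ d0 := by
        have h1 : R / d0 ≤ CB := le_max_right _ _
        rw [div_le_iff₀ hd0] at h1
        rw [ht, div_le_iff₀ (by positivity)]
        linarith
      have hvn : ‖t • nu‖ = t := by
        rw [norm_smul, hnu1, Real.norm_eq_abs, abs_of_pos htpos, mul_one]
      obtain ⟨hp, hm, hB2⟩ := hsd x hxK (t • nu) (by rw [hvn]; exact htd)
      rw [hvn] at hB2
      have hB3 := (abs_le.mp hB2).2
      have hCBt : CB0 * t ^ 2 ≤ CB * t ^ 2 :=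
        mul_le_mul_of_nonneg_right (le_max_left _ _) (sq_nonneg t)
      have h1 := (hy1 _ hp).trans (hw.ub _ hp)
      have h0 := (hy0 _ hm).trans (hw.ub _ hm)
      have e1 : ⟪y1, x + t • nu - x1⟫ = ⟪y1, x - x1⟫ + t * ⟪y1, nu⟫ := by
        rw [show x + t • nu - x1 = (x - x1) + t • nu by abel, inner_add_right, inner_smul_right]
      have e0 : ⟪y0, x - t • nu - x0⟫ = ⟪y0, x - x0⟫ - t * ⟪y0, nu⟫ := by
        rw [show x - t • nu - x0 = (x - x0) - t • nu by abel, inner_sub_right, inner_smul_right]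
      rw [e1] at h1
      rw [e0] at h0
      have hd : ⟪y1, nu⟫ - ⟪y0, nu⟫ = s := by rw [← inner_sub_left]; exact hinnu
      have hts : t * ⟪y1, nu⟫ - t * ⟪y0, nu⟫ = t * s := by rw [← mul_sub, hd]
      have hq1 : t * s = s ^ 2 / (2 * CB) := by rw [ht]; ring
      have hq2 : CB * t ^ 2 = s ^ 2 / (4 * CB) := by rw [ht]; field_simp; ring
      have hq3 : c * s ^ 2 ≤ s ^ 2 / (8 * CB) := by
        calc c * s ^ 2 ≤ 1 / (8 * CB) * s ^ 2 := mul_le_mul_of_nonneg_right hc2 (sq_nonneg s)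
          _ = s ^ 2 / (8 * CB) := by ring
      have hq4 : s ^ 2 / (2 * CB) - s ^ 2 / (4 * CB) = 2 * (s ^ 2 / (8 * CB)) := by
        field_simp; norm_num
      rw [hell x]
      linarith
    · have h1 : ¬ (a x ≤ M2) := fun h => hxK ⟨hx, h⟩
      push Not at h1
      linarith [hellM x hx, hw.lb x hx, hw.ub x hx]
  have hwK2 : ∀ x ∈ P, w x < c0 + ⟪e, x⟫ → x ∈ K2 := by
    intro x hx h
    exact ⟨hx, by linarith [hellM x hx, hw.lb x hx]⟩
  have hsec' := hsec e c0 heR hellB hwK2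
  -- slab
  set k : ℝ := -((w x1 - ⟪y1, x1⟫) - (w x0 - ⟪y0, x0⟫)) / s with hk
  have hslab : ∀ x ∈ P, w x < c0 + ⟪e, x⟫ → |⟪nu, x⟫ - k| ≤ 2 * c * s := by
    intro x hx h
    rw [hell x] at h
    have h0 := hy0 x hx
    have h1 := hy1 x hx
    have hd : (w x1 + ⟪y1, x - x1⟫) - (w x0 + ⟪y0, x - x0⟫) = s * (⟪nu, x⟫ - k) := by
      have hnx : s * ⟪nu, x⟫ = ⟪y1, x⟫ - ⟪y0, x⟫ := by
        have h7 : ⟪s • nu, x⟫ = s * ⟪nu, x⟫ := by rw [inner_smul_left]; simp
        rw [← h7, hsnu, inner_sub_left]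
      have hks : s * k = -((w x1 - ⟪y1, x1⟫) - (w x0 - ⟪y0, x0⟫)) := by
        rw [hk]; field_simp
      rw [mul_sub, hnx, hks, inner_sub_right, inner_sub_right]
      ring
    have hab : |s * (⟪nu, x⟫ - k)| ≤ s * (2 * c * s) := by
      rw [← hd, abs_le]
      constructor <;> nlinarith
    rw [abs_mul, abs_of_pos hspos] at hab
    exact le_of_mul_le_mul_left hab hspos
  -- lower bound at x0
  have hlow : c * s ^ 2 / 2 < c0 + ⟪e, x0⟫ - w x0 := by
    rw [hell x0, sub_self, inner_zero_right]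
    have h1 := hy0 x1 hx1P
    have h2 : ⟪y0, x1 - x0⟫ + ⟪y1, x0 - x1⟫ = -⟪y1 - y0, x1 - x0⟫ := by
      simp only [inner_sub_left, inner_sub_right]
      ring
    have h3 : ⟪y1 - y0, x1 - x0⟫ ≤ s * ‖x1 - x0‖ := real_inner_le_norm _ _
    have h4 : s * ‖x1 - x0‖ < s * (c * s) := mul_lt_mul_of_pos_left hdist hspos
    nlinarith
  have hx0S : w x0 < c0 + ⟪e, x0⟫ := by
    have : 0 < c * s ^ 2 / 2 := by positivity
    linarith
  have hfin := psi_bound S.isOpen S.bounded hw.conv hK2 hK2P c0 e hwK2 hC2 hsec' hnu1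
    (k := k) (eta := 2 * c * s) (by positivity) hslab hx0P hx0S
  have h9 : c * s ^ 2 / 2 < 16 * (2 * c * s) ^ 2 * C2 := lt_of_lt_of_le hlow hfin
  have h10 : c * (256 * C2) ≤ 1 := by
    rw [le_div_iff₀ (by positivity)] at hc3
    exact hc3
  have h11 : 16 * (2 * c * s) ^ 2 * C2 = (c * s ^ 2 / 4) * (c * (256 * C2)) := by ring
  rw [h11] at h9
  have h12 : (c * s ^ 2 / 4) * (c * (256 * C2)) ≤ (c * s ^ 2 / 4) * 1 :=
    mul_le_mul_of_nonneg_left h10 (by positivity)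
  have h13 : 0 < c * s ^ 2 := by positivity
  linarith

end Pool.Agent.PLap
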