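import Pool.Agent.PLap.Key
import Pool.Agent.PLap.Mean
import Pool.Agent.PLap.AeZero
import Pool.Agent.PLap.SubLip
import Pool.Agent.PLap.LamLe
import Pool.Agent.PLap.BarC

/-!
Fin: assembly of the existence theorem: on a polygon there is a convex C^{1,1} function w with
div VV(grad w) = GG(grad w) + l a.e. and l >= lam p P.
-/

set_option autoImplicit false

open MeasureTheory Set Filter Topology
open scoped ENNReal NNReal ContDiff RealInnerProductSpace

namespace Pool.Agent.PLap

theorem minimiser_eq {p del : ℝ} {P : Set E} {a B : E → ℝ} {lmax : ℝ}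
    (S : Setup p del P a B lmax) :
    ∃ (w : E → ℝ) (l : ℝ), lam p P ≤ l ∧ ConvexOn ℝ P w ∧ C11 P w ∧
      ∀ᵐ x ∂(volume.restrict P), sd p del w x = l := by
  obtain ⟨w, l, hw, hl, hN, hmin⟩ := exists_min S
  have hF := foc S hw hl.1 hN hmin
  have hC : C11 P w := c11_of_sub S.isOpen hw.conv (fun K hK hKP => sub_lip S hw hF hK hKP)
  have hEL := el_of_foc S hw hC hF
  obtain ⟨Lam, hkey⟩ := key_ineq S hl hw hC hEL
  obtain ⟨hint, h0⟩ := foc_integrable S hw hl.1 hN
  refine ⟨w, l, lam_le_min S hw hl.1 hN, hw.conv, hC, ?_⟩
  have hmeasw : AEStronglyMeasurable w (volume.restrict P) :=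
    (convex_locLip S.isOpen hw.conv).continuousOn.aestronglyMeasurable S.isOpen.measurableSet
  have hsdm : AEStronglyMeasurable (fun x => sd p del w x - l) (volume.restrict P) :=
    ((sd_measurable p S.hdel w).sub_const l).aestronglyMeasurable
  have hexpm : AEStronglyMeasurable (fun x => Real.exp (-p * w x)) (volume.restrict P) :=
    Real.continuous_exp.comp_aestronglyMeasurable (hmeasw.const_mul (-p))
  have hmain := ae_zero (mu := volume.restrict P) (rho := fun x => Real.exp (-p * w x))
    (E0 := fun x => sd p del w x - l) (G := gradient w) (Lam := Lam)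
    (S.integrable_exp hw) (Eventually.of_forall fun x => Real.exp_pos _) hsdm
    (measurable_gradient w) ?_ ?_ ?_
  · filter_upwards [hmain] with x hx
    linarith
  · intro chi hchi hchi0 hchis
    obtain ⟨R, hR⟩ := hchis.isCompact.isBounded.subset_closedBall (0 : E)
    have hK := grad_proper S.isOpen S.convex S.bounded S.proper hw.conv hw.lb hC.diff R
    set K := {x | x ∈ P ∧ ‖gradient w x‖ ≤ R} with hKdef
    have hKP : K ⊆ P := fun x hx => hx.1
    have hzero : ∀ x ∈ P \ K, chi (gradient w x) = 0 := by
      intro x hx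
      by_contra hne
      have h1 : gradient w x ∈ tsupport chi := subset_tsupport _ hne
      have h2 := hR h1
      rw [mem_closedBall_zero_iff] at h2
      exact hx.2 ⟨hx.1, h2⟩
    obtain ⟨C1, hC1, hb1⟩ := sd_bound S.hdel S.isOpen hC hK hKP (p := p)
    obtain ⟨C2, hb2⟩ := hK.exists_bound_of_continuousOn
      ((convex_locLip S.isOpen hw.conv).continuousOn.mono hKP)
    obtain ⟨C3, hb3⟩ := (hchis.isCompact).exists_bound_of_continuousOn hchi.continuousOn
    have hC3 : ∀ y, ‖chi y‖ ≤ max C3 0 := by
      intro y
      by_cases hy : y ∈ tsupport chi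
      · exact (hb3 y hy).trans (le_max_left _ _)
      · rw [image_eq_zero_of_notMem_tsupport hy, norm_zero]; exact le_max_right _ _
    have hKm : MeasurableSet K := hK.measurableSet
    have hmeas : AEStronglyMeasurable
        (fun x => chi (gradient w x) * (Real.exp (-p * w x) * (sd p del w x - l) ^ 2))
        (volume.restrict P) := by
      refine AEStronglyMeasurable.mul ?_ (hexpm.mul (hsdm.pow 2))
      exact (hchi.measurable.comp (measurable_gradient w)).aestronglyMeasurable
    have hind : (fun x => chi (gradient w x) * (Real.exp (-p * w x) * (sd p del w x - l) ^ 2))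
        =ᵐ[volume.restrict P] K.indicator
          (fun x => chi (gradient w x) * (Real.exp (-p * w x) * (sd p del w x - l) ^ 2)) := by
      filter_upwards [ae_restrict_mem S.isOpen.measurableSet] with x hx
      by_cases hxK : x ∈ K
      · rw [indicator_of_mem hxK]
      · rw [indicator_of_notMem hxK, hzero x ⟨hx, hxK⟩, zero_mul]
    show Integrable _ _
    rw [integrable_congr hind]
    have : IntegrableOn
        (fun x => chi (gradient w x) * (Real.exp (-p * w x) * (sd p del w x - l) ^ 2)) K
        (volume.restrict P) := by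
      refine Measure.integrableOn_of_bounded (M := max C3 0 * (Real.exp (|p| * C2) *
        (C1 + |l|) ^ 2)) ?_ hmeas ?_
      · exact ((Measure.restrict_apply_le _ _).trans_lt hK.measure_lt_top).ne
      · filter_upwards [ae_restrict_mem hKm] with x hx
        rw [norm_mul, norm_mul]
        refine mul_le_mul (hC3 _) (mul_le_mul ?_ ?_ (norm_nonneg _) (Real.exp_pos _).le)
          (by positivity) (le_max_right _ _)
        · rw [Real.norm_eq_abs, abs_of_pos (Real.exp_pos _), Real.exp_le_exp]
          calc -p * w x ≤ |-p * w x| := le_abs_self _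
            _ = |p| * |w x| := by rw [abs_mul, abs_neg]
            _ ≤ |p| * C2 := mul_le_mul_of_nonneg_left (hb2 x hx) (abs_nonneg _)
        · rw [norm_pow, Real.norm_eq_abs]
          have h1 : |sd p del w x - l| ≤ C1 + |l| := (abs_sub _ _).trans (add_le_add (hb1 x hx) le_rfl)
          exact pow_le_pow_left₀ (abs_nonneg _) h1 2
    exact this.integrable_indicator hKm
  · intro chi hchi hchi0 hchis
    exact hkey chi hchi hchi0 hchis
  · intro hE
    exact mean_zero S hw hC hint h0 hE

/-- On every polygon there is a convex solution. -/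
theorem thmA {p del : ℝ} (hp : 1 < p) (hdel : 0 < del) {P : Set E} (hP : IsPoly P) :
    ∃ (w : E → ℝ) (l : ℝ), lam p P ≤ l ∧ ConvexOn ℝ P w ∧ C11 P w ∧
      ∀ᵐ x ∂(volume.restrict P), sd p del w x = l := by
  obtain ⟨a, B, lmax, S⟩ := barrier hp hdel hP
  exact minimiser_eq S

end Pool.Agent.PLap
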