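import Pool.Agent.PLap.Defs

/-!
Geo: planar convex geometry for part (c).

Om in KK, x, y in closure Om with y = x + D bb 0, D = diam Om > 0. K = closure Om compact convex, all points of K have first coordinate between x 0 and y 0 (otherwise a pair at distance > D).
h := max over pairs z, z' in K with z 0 = z' 0 of |z 1 - z' 1| (maximum of a continuous function on a compact set), attained at [z, z'], z' 1 >= z 1, h = z' 1 - z 1; h > 0 since Om is open.
One of |z 0 - x 0|, |y 0 - z 0| is >= D/2; say T = y 0 - z 0 >= D/2 (other case symmetric). The triangle with vertices z, z', y is contained in K. For 0 < tau < 1/3, with y = (z 0 + T, y 1):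
at first coordinate z 0 + sigma T (0 <= sigma <= tau) the triangle section is the interval from z 1 + sigma (y 1 - z 1) to z' 1 + sigma (y 1 - z' 1), of length (1-sigma) h, and |y 1 - z 1| : here we need |y 1 - z 1| bounded by h:
 the vertical position of y relative to the segment [z,z']: x and y have the same second coordinate, and the segment [x,y] is contained in K and crosses the vertical line through z at the height y 1, so z 1 <= y 1 <= z' 1 by maximality
 (K intersected with that vertical line is the segment [z,z'] since its length is at most h and it contains it). So 0 <= y 1 - z 1 <= h and 0 <= z' 1 - y 1 <= h.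
 Therefore the open rectangle (z 0, z 0 + tau T) x (z 1 + tau h, z' 1 - tau h) (height (1-2 tau) h >= (1-3 tau) h) is contained in K; an open set contained in the closure of the open convex set Om is contained in Om
 (interior of closure of a convex open set is the set).
area: the triangles z z' x and z z' y are in K and have disjoint interiors, total area h D/2; so h D <= 2 volume <= 4 volume. (Or: a cheaper bound: the open rectangle with tau = 1/6: tau D/2 * (1-3tau) h = h D/24 <= volume. The statement only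
asks for h * D <= 24 * volume.)
With T >= D/2 shrink the rectangle to first side tau D/2.
-/

set_option autoImplicit false

open MeasureTheory Set Filter Topology
open scoped ENNReal NNReal ContDiff RealInnerProductSpace

namespace Pool.Agent.PLap

private theorem Geo_dist (z w : E) : dist z w ^ 2 = (z 0 - w 0) ^ 2 + (z 1 - w 1) ^ 2 := by
  rw [EuclideanSpace.dist_eq, Real.sq_sqrt (by positivity), Fin.sum_univ_two, Real.dist_eq,
    Real.dist_eq, sq_abs, sq_abs]

private theorem Geo_sum {K : Set E} (hK : Convex ℝ K) {p q : E} (hp : p ∈ K) (hq : q ∈ K) {s : ℝ}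
    (hs0 : 0 ≤ s) (hs1 : s ≤ 1) {w : E} (h0 : w 0 = (1 - s) * p 0 + s * q 0)
    (h1 : w 1 = (1 - s) * p 1 + s * q 1) : w ∈ K := by
  have h : w = (1 - s) • p + s • q := by
    ext i
    fin_cases i
    · simpa using h0
    · simpa using h1
  rw [h]
  exact hK hp hq (by linarith) hs0 (by ring)

/-- vertical interpolation -/
private theorem Geo_vert {K : Set E} (hK : Convex ℝ K) {p q w : E} (hp : p ∈ K) (hq : q ∈ K)
    (hpw : w 0 = p 0) (hqw : w 0 = q 0) (h1 : p 1 ≤ w 1) (h2 : w 1 ≤ q 1) : w ∈ K := by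
  rcases eq_or_lt_of_le (h1.trans h2) with h | h
  · have e1 : w 1 = p 1 := by linarith
    refine Geo_sum hK hp hp (s := 0) le_rfl zero_le_one ?_ ?_ <;> linarith
  · have hd : 0 < q 1 - p 1 := by linarith
    refine Geo_sum hK hp hq (s := (w 1 - p 1) / (q 1 - p 1)) (by
      apply div_nonneg <;> linarith) ((div_le_one hd).2 (by linarith)) ?_ ?_
    · rw [← hpw, ← hqw]
      ring
    · field_simp
      ring

/-- the triangle -/
private theorem Geo_tri {K : Set E} (hK : Convex ℝ K) {z z' q w : E} (hz : z ∈ K) (hz' : z' ∈ K)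
    (hq : q ∈ K) (hzz : z 0 = z' 0) {h s tau : ℝ} (hh : z' 1 - z 1 = h) (hq1 : z 1 ≤ q 1)
    (hq2 : q 1 ≤ z' 1) (hs0 : 0 ≤ s) (hst : s ≤ tau) (htau : tau < 1 / 3)
    (hw0 : w 0 = (1 - s) * z 0 + s * q 0) (hw1 : z 1 + tau * h ≤ w 1)
    (hw2 : w 1 ≤ z' 1 - tau * h) : w ∈ K := by
  have hL : (!₂[w 0, (1 - s) * z 1 + s * q 1] : E) ∈ K :=
    Geo_sum hK hz hq hs0 (by linarith) (by simpa using hw0) (by simp)
  have hU : (!₂[w 0, (1 - s) * z' 1 + s * q 1] : E) ∈ K :=
    Geo_sum hK hz' hq hs0 (by linarith) (by simpa [← hzz] using hw0) (by simp)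
  have h0 : 0 ≤ h := by linarith
  have e1 : s * (q 1 - z 1) ≤ tau * h := mul_le_mul hst (by linarith) (by linarith) (by linarith)
  have e2 : s * (z' 1 - q 1) ≤ tau * h := mul_le_mul hst (by linarith) (by linarith) (by linarith)
  refine Geo_vert hK hL hU (by simp) (by simp) ?_ ?_
  · simp only [Matrix.cons_val_one, Matrix.cons_val_fin_one]
    nlinarith
  · simp only [Matrix.cons_val_one, Matrix.cons_val_fin_one]
    nlinarith

private theorem Geo_vol (s0 s1 t0 t1 : ℝ) (hs : s0 ≤ s1) (ht : t0 ≤ t1) :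
    (volume {z : E | s0 < z 0 ∧ z 0 < s1 ∧ t0 < z 1 ∧ z 1 < t1}).toReal =
      (s1 - s0) * (t1 - t0) := by
  have h1 : {z : E | s0 < z 0 ∧ z 0 < s1 ∧ t0 < z 1 ∧ z 1 < t1} =
      (@WithLp.ofLp 2 (Fin 2 → ℝ)) ⁻¹' (Set.pi univ fun i => Ioo (![s0, t0] i) (![s1, t1] i)) := by
    ext z
    constructor
    · rintro ⟨h1, h2, h3, h4⟩ i _
      fin_cases i
      · exact ⟨h1, h2⟩
      · exact ⟨h3, h4⟩
    · intro h
      exact ⟨(h 0 (mem_univ _)).1, (h 0 (mem_univ _)).2, (h 1 (mem_univ _)).1, (h 1 (mem_univ _)).2⟩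
  rw [h1, (PiLp.volume_preserving_ofLp (Fin 2)).measure_preimage
    (MeasurableSet.univ_pi fun i => measurableSet_Ioo).nullMeasurableSet,
    Real.volume_pi_Ioo_toReal (by
      intro i
      fin_cases i
      · exact hs
      · exact ht), Fin.prod_univ_two]
  simp

theorem geo {Om : Set E} (hOm : Om ∈ KK) {x y : E} (hx : x ∈ closure Om) (hy : y ∈ closure Om)
    {D : ℝ} (hD : 0 < D) (hdiam : Metric.diam Om = D) (hxy : y = x + D • bb 0) :
    ∃ h : ℝ, 0 < h ∧ (∀ z ∈ Om, ∀ z' ∈ Om, z 0 = z' 0 → |z 1 - z' 1| ≤ h) ∧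
      h * D ≤ 24 * (volume Om).toReal ∧
      ∀ tau : ℝ, 0 < tau → tau < 1 / 3 → ∃ s0 t0 : ℝ,
        {z : E | s0 < z 0 ∧ z 0 < s0 + tau * (D / 2) ∧ t0 < z 1 ∧ z 1 < t0 + (1 - 3 * tau) * h} ⊆ Om := by
  obtain ⟨hO, hC, hB, p0, hp0⟩ := hOm
  have hKc : IsCompact (closure Om) :=
    Metric.isCompact_of_isClosed_isBounded isClosed_closure hB.closure
  have hKconv : Convex ℝ (closure Om) := hC.closure
  have hy0 : y 0 = x 0 + D := by
    rw [hxy]
    simp [bb]
  have hy1 : y 1 = x 1 := by
    rw [hxy]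
    simp [bb]
  have hdist : ∀ z ∈ closure Om, ∀ w ∈ closure Om, (z 0 - w 0) ^ 2 ≤ D ^ 2 := by
    intro z hz w hw
    have h1 : dist z w ≤ D := by
      rw [← hdiam, ← Metric.diam_closure]
      exact Metric.dist_le_diam_of_mem hB.closure hz hw
    have h2 := Geo_dist z w
    have h3 : dist z w ^ 2 ≤ D ^ 2 := by
      have := dist_nonneg (x := z) (y := w)
      nlinarith
    nlinarith [sq_nonneg (z 1 - w 1)]
  have hrange : ∀ z ∈ closure Om, x 0 ≤ z 0 ∧ z 0 ≤ y 0 := by
    intro z hz
    have h1 := abs_le_of_sq_le_sq' (hdist z hz x hx) hD.le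
    have h2 := abs_le_of_sq_le_sq' (hdist y hy z hz) hD.le
    constructor <;> linarith [h1.1, h1.2, h2.1, h2.2]
  -- maximal vertical chord
  have hCc : IsCompact ((closure Om ×ˢ closure Om) ∩ {u : E × E | u.1 0 = u.2 0}) := by
    apply (hKc.prod hKc).inter_right
    exact isClosed_eq (by fun_prop) (by fun_prop)
  obtain ⟨u, hu, humax⟩ := hCc.exists_isMaxOn (f := fun u : E × E => u.2 1 - u.1 1)
    ⟨(x, x), ⟨hx, hx⟩, rfl⟩ (by fun_prop)
  obtain ⟨z, z'⟩ := u
  obtain ⟨⟨hz, hz'⟩, hzz⟩ := hu
  have hz : z ∈ closure Om := hz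
  have hz' : z' ∈ closure Om := hz'
  have hzz : z 0 = z' 0 := hzz
  have hmax : ∀ a ∈ closure Om, ∀ b ∈ closure Om, a 0 = b 0 → b 1 - a 1 ≤ z' 1 - z 1 := by
    intro a ha b hb hab
    have hab' : ((a, b) : E × E) ∈ (closure Om ×ˢ closure Om) ∩ {u : E × E | u.1 0 = u.2 0} :=
      ⟨⟨ha, hb⟩, hab⟩
    have h1 := isMaxOn_iff.1 humax (a, b) hab'
    dsimp only at h1
    exact h1
  obtain ⟨h, hh⟩ : ∃ h, z' 1 - z 1 = h := ⟨_, rfl⟩
  rw [hh] at hmax
  have hpos : 0 < h := by
    obtain ⟨e, he, hball⟩ := Metric.isOpen_iff.1 hO p0 hp0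
    have hq : p0 + (e / 2) • bb 1 ∈ Om := by
      apply hball
      rw [Metric.mem_ball, dist_eq_norm, add_sub_cancel_left, norm_smul]
      simp only [bb, EuclideanSpace.single, PiLp.norm_single, norm_one, mul_one, Real.norm_eq_abs,
        abs_of_pos (half_pos he)]
      exact half_lt_self he
    have := hmax p0 (subset_closure hp0) _ (subset_closure hq) (by simp [bb])
    simp [bb] at this
    linarith
  -- the height of y
  have hyz : z 1 ≤ y 1 ∧ y 1 ≤ z' 1 := by
    have hm : (!₂[z 0, y 1] : E) ∈ closure Om := by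
      have hzr := hrange z hz
      refine Geo_sum hKconv hx hy (s := (z 0 - x 0) / D) (div_nonneg (by linarith) hD.le)
        ((div_le_one hD).2 (by linarith)) ?_ ?_
      · simp only [Matrix.cons_val_zero]
        rw [hy0]
        field_simp
        ring
      · simp only [Matrix.cons_val_one, Matrix.cons_val_fin_one]
        rw [hy1]
        ring
    have h1 := hmax _ hm z' hz' (by simpa using hzz)
    have h2 := hmax z hz _ hm (by simp)
    simp only [Matrix.cons_val_one, Matrix.cons_val_fin_one] at h1 h2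
    constructor <;> linarith
  have hint : interior (closure Om) = Om := by
    rw [hC.interior_closure_eq_interior_of_nonempty_interior (by
      rw [hO.interior_eq]; exact ⟨p0, hp0⟩), hO.interior_eq]
  have hopen : ∀ s0 s1 t0 t1 : ℝ,
      {z : E | s0 < z 0 ∧ z 0 < s1 ∧ t0 < z 1 ∧ z 1 < t1} ⊆ closure Om →
      {z : E | s0 < z 0 ∧ z 0 < s1 ∧ t0 < z 1 ∧ z 1 < t1} ⊆ Om := by
    intro s0 s1 t0 t1 hsub
    rw [← hint]
    apply interior_maximal hsub
    have e : {z : E | s0 < z 0 ∧ z 0 < s1 ∧ t0 < z 1 ∧ z 1 < t1} =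
        {z : E | s0 < z 0} ∩ ({z : E | z 0 < s1} ∩ ({z : E | t0 < z 1} ∩ {z : E | z 1 < t1})) := by
      ext z
      simp
    rw [e]
    exact (isOpen_lt continuous_const (by fun_prop)).inter
      ((isOpen_lt (by fun_prop) continuous_const).inter
        ((isOpen_lt continuous_const (by fun_prop)).inter
          (isOpen_lt (by fun_prop) continuous_const)))
  have hrect : ∀ tau : ℝ, 0 < tau → tau < 1 / 3 → ∃ s0 t0 : ℝ,
      {z : E | s0 < z 0 ∧ z 0 < s0 + tau * (D / 2) ∧ t0 < z 1 ∧ z 1 < t0 + (1 - 3 * tau) * h} ⊆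
        Om := by
    intro tau ht ht3
    have hth : 0 < tau * h := mul_pos ht hpos
    rcases le_total (D / 2) (y 0 - z 0) with hT | hT
    · refine ⟨z 0, z 1 + tau * h, hopen _ _ _ _ ?_⟩
      rintro w ⟨w1, w2, w3, w4⟩
      have hTp : 0 < y 0 - z 0 := by linarith
      refine Geo_tri hKconv hz hz' hy hzz (s := (w 0 - z 0) / (y 0 - z 0)) (tau := tau) hh hyz.1
        hyz.2 (div_nonneg (by linarith) hTp.le) ?_ ht3 ?_ w3.le ?_
      · rw [div_le_iff₀ hTp]
        have : tau * (D / 2) ≤ tau * (y 0 - z 0) := mul_le_mul_of_nonneg_left hT ht.le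
        linarith
      · field_simp
        ring
      · nlinarith
    · have hT' : D / 2 ≤ z 0 - x 0 := by linarith
      refine ⟨z 0 - tau * (D / 2), z 1 + tau * h, hopen _ _ _ _ ?_⟩
      rintro w ⟨w1, w2, w3, w4⟩
      have hTp : 0 < z 0 - x 0 := by linarith
      refine Geo_tri hKconv hz hz' hx hzz (s := (z 0 - w 0) / (z 0 - x 0)) (tau := tau) hh
        (by rw [← hy1]; exact hyz.1) (by rw [← hy1]; exact hyz.2)
        (div_nonneg (by linarith) hTp.le) ?_ ht3 ?_ w3.le ?_
      · rw [div_le_iff₀ hTp]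
        have : tau * (D / 2) ≤ tau * (z 0 - x 0) := mul_le_mul_of_nonneg_left hT' ht.le
        linarith
      · field_simp
        ring
      · nlinarith
  refine ⟨h, hpos, ?_, ?_, hrect⟩
  · intro a ha b hb hab
    rw [abs_le]
    have h1 := hmax a (subset_closure ha) b (subset_closure hb) hab
    have h2 := hmax b (subset_closure hb) a (subset_closure ha) hab.symm
    constructor <;> linarith
  · obtain ⟨s0, t0, hsub⟩ := hrect (1 / 6) (by norm_num) (by norm_num)
    have h1 : (volume {z : E | s0 < z 0 ∧ z 0 < s0 + 1 / 6 * (D / 2) ∧ t0 < z 1 ∧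
        z 1 < t0 + (1 - 3 * (1 / 6)) * h}).toReal ≤ (volume Om).toReal :=
      ENNReal.toReal_mono hB.measure_lt_top.ne (measure_mono hsub)
    rw [Geo_vol _ _ _ _ (by linarith) (by nlinarith)] at h1
    nlinarith

private theorem Geo_refl {v w : E} (hn : ‖v‖ = ‖w‖) : ∃ f : E ≃ₗᵢ[ℝ] E, f v = w :=
  ⟨_, Submodule.reflection_sub hn⟩

/-- a set of diameter D can be rotated so that the diameter is attained in the direction of `bb 0` -/
theorem geo_rotate {Om : Set E} (hOm : Om ∈ KK) : ∃ f : E ≃ₗᵢ[ℝ] E, f '' Om ∈ KK ∧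
    Metric.diam (f '' Om) = Metric.diam Om ∧ volume (f '' Om) = volume Om ∧ 0 < Metric.diam Om ∧
    ∃ x ∈ closure (f '' Om), ∃ y ∈ closure (f '' Om), y = x + Metric.diam Om • bb 0 := by
  obtain ⟨hO, hC, hB, p0, hp0⟩ := hOm
  have hKc : IsCompact (closure Om) :=
    Metric.isCompact_of_isClosed_isBounded isClosed_closure hB.closure
  obtain ⟨⟨x, y⟩, ⟨hx, hy⟩, hmax⟩ := (hKc.prod hKc).exists_isMaxOn
    (f := fun u : E × E => dist u.1 u.2) ⟨(p0, p0), subset_closure hp0, subset_closure hp0⟩
    (by fun_prop)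
  have hxy : dist x y = Metric.diam Om := by
    apply le_antisymm
    · rw [← Metric.diam_closure]
      exact Metric.dist_le_diam_of_mem hB.closure hx hy
    · apply Metric.diam_le_of_forall_dist_le dist_nonneg
      intro a ha b hb
      have hab : ((a, b) : E × E) ∈ closure Om ×ˢ closure Om :=
        ⟨subset_closure ha, subset_closure hb⟩
      have h1 := isMaxOn_iff.1 hmax (a, b) hab
      dsimp only at h1
      exact h1
  have hDpos : 0 < Metric.diam Om := by
    obtain ⟨e, he, hball⟩ := Metric.isOpen_iff.1 hO p0 hp0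
    have hq : p0 + (e / 2) • bb 1 ∈ Om := by
      apply hball
      rw [Metric.mem_ball, dist_eq_norm, add_sub_cancel_left, norm_smul]
      simp only [bb, EuclideanSpace.single, PiLp.norm_single, norm_one, mul_one, Real.norm_eq_abs,
        abs_of_pos (half_pos he)]
      exact half_lt_self he
    have h1 := Metric.dist_le_diam_of_mem hB hq hp0
    rw [dist_eq_norm, add_sub_cancel_left, norm_smul] at h1
    simp only [bb, EuclideanSpace.single, PiLp.norm_single, norm_one, mul_one, Real.norm_eq_abs,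
      abs_of_pos (half_pos he)] at h1
    linarith
  have hn : ‖y - x‖ = ‖Metric.diam Om • bb 0‖ := by
    rw [← dist_eq_norm, dist_comm, hxy, norm_smul]
    simp [bb, abs_of_pos hDpos]
  obtain ⟨f, hf⟩ := Geo_refl hn
  have hcl : closure (f '' Om) = f '' closure Om := (f.toHomeomorph.image_closure Om).symm
  refine ⟨f, ⟨f.toHomeomorph.isOpenMap _ hO, ?_, ?_, ⟨f p0, p0, hp0, rfl⟩⟩,
    f.isometry.diam_image _, ?_, hDpos, f x, ?_, f y, ?_, ?_⟩
  · exact hC.linear_image f.toLinearEquiv.toLinearMap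
  · exact f.lipschitz.isBounded_image hB
  · have h1 : f '' Om = f.symm ⁻¹' Om := by
      ext w
      constructor
      · rintro ⟨v, hv, rfl⟩
        simpa using hv
      · intro hw
        exact ⟨f.symm w, hw, by simp⟩
    rw [h1]
    exact f.symm.measurePreserving.measure_preimage hO.measurableSet.nullMeasurableSet
  · rw [hcl]
    exact mem_image_of_mem _ hx
  · rw [hcl]
    exact mem_image_of_mem _ hy
  · rw [← hf, map_sub]
    abel

end Pool.Agent.PLap
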