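import Pool.Agent.PLap.Sub
import Pool.Agent.PLap.Rad
import Pool.Agent.PLap.OM2
import Pool.Agent.PLap.SecD

/-!
ShLim: second difference quotients converge to the divergence.

For w with gradient differentiable at x with derivative M (symmetric by hess_symm): w(x+hv)+w(x-hv)-2w(x) = h^2 <Mv,v> + o(h^2)
(derivative in h of the left side is <grad w(x+hv) - grad w(x-hv), v> = 2h<Mv,v> + o(h)).
Then sh - ch w = al sum_i (second difference in direction bb i)/h^2 + be (second difference in direction ze)/h^2 -> al tr M + be <M ze, ze>,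
and dv(VV o grad w)(x) = sum_i (AA(y)(M bb_i))_i = al tr M + be <ze, M ze> by the chain rule (VV_hasFDerivAt) and AA_apply (sum_i <ze, M bb_i> (ze)_i = <ze, M ze> with symmetry).
sh_unif: for f in C^2(P) the same with uniform o on the compact K (the second derivative is uniformly continuous on a compact neighbourhood of K;
|f(x+hv)+f(x-hv)-2f(x) - h^2 D^2f(x)(v,v)| <= h^2 |v|^2 modulus(h|v|)); |ze p (grad f x)| = |grad f x| is bounded on K.
sh_bound: from second_diff. trace formula: dv_VV.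
-/

set_option autoImplicit false

open MeasureTheory Set Filter Topology
open scoped ENNReal NNReal ContDiff RealInnerProductSpace

namespace Pool.Agent.PLap

/-- second difference quotient -/
noncomputable def ShLimD (w : E → ℝ) (x v : E) (h : ℝ) : ℝ :=
  (w (x + h • v) + w (x - h • v) - 2 * w x) / h ^ 2

theorem ShLim_decomp (p del h : ℝ) (w : E → ℝ) (x y : E) :
    sh p del h w x y - ch p del h y * w x =
      al p del y * (ShLimD w x (bb 0) h + ShLimD w x (bb 1) h) +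
        be p del y * ShLimD w x (ze p y) h := by
  unfold sh ch ShLimD
  rw [Fin.sum_univ_two]
  ring

theorem ShLim_mv {w : E → ℝ} {x v : E} {h A c : ℝ} (hh : 0 < h) (hc : 0 ≤ c)
    (hd : ∀ s ∈ Icc 0 h, DifferentiableAt ℝ w (x + s • v) ∧ DifferentiableAt ℝ w (x - s • v))
    (hb : ∀ s ∈ Icc 0 h,
      |⟪gradient w (x + s • v) - gradient w (x - s • v), v⟫ - 2 * s * A| ≤ c * s) :
    |ShLimD w x v h - A| ≤ c := by
  have h1 : ∀ s ∈ Icc 0 h, HasDerivWithinAt
      (fun s : ℝ => w (x + s • v) + w (x - s • v) - s ^ 2 * A)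
      (⟪gradient w (x + s • v) - gradient w (x - s • v), v⟫ - 2 * s * A) (Icc 0 h) s := by
    intro s hs
    obtain ⟨d1, d2⟩ := hd s hs
    have e1 : HasDerivAt (fun t : ℝ => x + t • v) v s := by
      have := ((hasDerivAt_id s).smul_const v).const_add x
      simpa using this
    have e2 : HasDerivAt (fun t : ℝ => x - t • v) (-v) s := by
      have := ((hasDerivAt_id s).smul_const v).const_sub x
      simpa using this
    have g1 := d1.hasFDerivAt.comp_hasDerivAt s e1
    have g2 := d2.hasFDerivAt.comp_hasDerivAt s e2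
    have g3 : HasDerivAt (fun t : ℝ => t ^ 2 * A) (2 * s * A) s := by
      have := (hasDerivAt_pow 2 s).mul_const A
      simpa using this
    have g4 := (g1.add g2).sub g3
    refine (g4.congr_deriv ?_).hasDerivWithinAt
    rw [inner_sub_left, sub_grad_apply, sub_grad_apply, map_neg]
    ring
  have h2 := Convex.norm_image_sub_le_of_norm_hasDerivWithin_le (C := c * h) h1
    (fun s hs => by
      rw [Real.norm_eq_abs]
      exact (hb s hs).trans (mul_le_mul_of_nonneg_left hs.2 hc))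
    (convex_Icc 0 h) (left_mem_Icc.2 hh.le) (right_mem_Icc.2 hh.le)
  rw [Real.norm_eq_abs, Real.norm_eq_abs, sub_zero, abs_of_pos hh] at h2
  have h3 : ShLimD w x v h - A = ((w (x + h • v) + w (x - h • v) - h ^ 2 * A) -
      (w (x + (0 : ℝ) • v) + w (x - (0 : ℝ) • v) - (0 : ℝ) ^ 2 * A)) / h ^ 2 := by
    unfold ShLimD
    rw [zero_smul, add_zero, sub_zero]
    field_simp
    ring
  rw [h3, abs_div, abs_of_pos (by positivity : (0 : ℝ) < h ^ 2), div_le_iff₀ (by positivity)]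
  refine h2.trans (le_of_eq ?_)
  ring

theorem ShLim_est {w : E → ℝ} {x v : E} {M : E →L[ℝ] E} {δ ρ h : ℝ} (hh : 0 < h) (hδ : 0 ≤ δ)
    (hw : ∀ z, ‖z - x‖ ≤ ρ → DifferentiableAt ℝ w z ∧
      ‖gradient w z - gradient w x - M (z - x)‖ ≤ δ * ‖z - x‖) (hv : h * ‖v‖ ≤ ρ) :
    |ShLimD w x v h - ⟪M v, v⟫| ≤ 2 * δ * ‖v‖ ^ 2 := by
  have key : ∀ s ∈ Icc 0 h, ‖(x + s • v) - x‖ ≤ ρ ∧ ‖(x - s • v) - x‖ ≤ ρ ∧
      ‖(x + s • v) - x‖ = s * ‖v‖ ∧ ‖(x - s • v) - x‖ = s * ‖v‖ := by
    intro s hs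
    have e1 : (x + s • v) - x = s • v := by abel
    have e2 : (x - s • v) - x = -(s • v) := by abel
    have e3 : ‖s • v‖ = s * ‖v‖ := by
      rw [norm_smul, Real.norm_eq_abs, abs_of_nonneg hs.1]
    have e4 : s * ‖v‖ ≤ ρ := (mul_le_mul_of_nonneg_right hs.2 (norm_nonneg v)).trans hv
    rw [e1, e2, norm_neg, e3]
    exact ⟨e4, e4, rfl, rfl⟩
  refine ShLim_mv hh (by positivity) (fun s hs => ?_) (fun s hs => ?_)
  · obtain ⟨k1, k2, -, -⟩ := key s hs
    exact ⟨(hw _ k1).1, (hw _ k2).1⟩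
  · obtain ⟨k1, k2, k3, k4⟩ := key s hs
    have a1 := (hw _ k1).2
    have a2 := (hw _ k2).2
    rw [k3] at a1
    rw [k4] at a2
    have e1 : (x + s • v) - x = s • v := by abel
    have e2 : (x - s • v) - x = -(s • v) := by abel
    rw [e1, map_smul] at a1
    rw [e2, map_neg, map_smul] at a2
    have e5 : ⟪gradient w (x + s • v) - gradient w (x - s • v), v⟫ - 2 * s * ⟪M v, v⟫ =
        ⟪(gradient w (x + s • v) - gradient w x - s • M v) -
          (gradient w (x - s • v) - gradient w x - -(s • M v)), v⟫ := by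
      rw [inner_sub_left, inner_sub_left, inner_sub_left, inner_sub_left, inner_sub_left,
        inner_sub_left, inner_neg_left, real_inner_smul_left]
      ring
    rw [e5]
    refine (abs_real_inner_le_norm _ _).trans ?_
    have e6 := norm_sub_le (gradient w (x + s • v) - gradient w x - s • M v)
      (gradient w (x - s • v) - gradient w x - -(s • M v))
    calc ‖(gradient w (x + s • v) - gradient w x - s • M v) -
          (gradient w (x - s • v) - gradient w x - -(s • M v))‖ * ‖v‖ ≤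
          (δ * (s * ‖v‖) + δ * (s * ‖v‖)) * ‖v‖ :=
          mul_le_mul_of_nonneg_right (e6.trans (add_le_add a1 a2)) (norm_nonneg v)
      _ = 2 * δ * ‖v‖ ^ 2 * s := by ring

theorem ShLim_coord (y : E) (i : Fin 2) : ⟪y, bb i⟫ = y i := by
  unfold bb
  rw [EuclideanSpace.inner_single_right]
  simp

theorem ShLim_expand (y : E) : y 0 • bb 0 + y 1 • bb 1 = y := by
  ext i
  fin_cases i <;> simp [bb]

theorem dv_VV {p del : ℝ} (hdel : 0 < del) {w : E → ℝ} {x : E} {M : E →L[ℝ] E}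
    (hM : HasFDerivAt (gradient w) M x) :
    dv (fun z => VV p del (gradient w z)) x =
      al p del (gradient w x) * (∑ i, (M (bb i)) i) +
        be p del (gradient w x) * (∑ i, ⟪ze p (gradient w x), M (bb i)⟫ * (ze p (gradient w x)) i) := by
  have h1 : HasFDerivAt (fun z => VV p del (gradient w z))
      ((AA p del (gradient w x)).comp M) x := (VV_hasFDerivAt hdel (gradient w x)).comp x hM
  unfold dv
  rw [h1.fderiv, Fin.sum_univ_two, Fin.sum_univ_two, Fin.sum_univ_two]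
  simp only [ContinuousLinearMap.comp_apply, AA_apply, PiLp.add_apply, PiLp.smul_apply, smul_eq_mul]
  ring

theorem ShLim_dv {p del : ℝ} (hdel : 0 < del) {w : E → ℝ} {x : E} {M : E →L[ℝ] E}
    (hM : HasFDerivAt (gradient w) M x) :
    dv (fun z => VV p del (gradient w z)) x =
      al p del (gradient w x) * (⟪M (bb 0), bb 0⟫ + ⟪M (bb 1), bb 1⟫) +
        be p del (gradient w x) * ⟪M (ze p (gradient w x)), ze p (gradient w x)⟫ := by
  rw [dv_VV hdel hM, Fin.sum_univ_two, Fin.sum_univ_two, ShLim_coord, ShLim_coord]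
  congr 2
  set u := ze p (gradient w x) with hu
  have h1 : M u = u 0 • M (bb 0) + u 1 • M (bb 1) := by
    conv_lhs => rw [← ShLim_expand u]
    rw [map_add, map_smul, map_smul]
  rw [h1, inner_add_left, real_inner_smul_left, real_inner_smul_left,
    real_inner_comm, real_inner_comm (M (bb 1))]
  ring

theorem ShLim_ptw {P : Set E} (ho : IsOpen P) {w : E → ℝ}
    (hd : ∀ x ∈ P, DifferentiableAt ℝ w x) {x : E} (hx : x ∈ P) {M : E →L[ℝ] E}
    (hM : HasFDerivAt (gradient w) M x) (v : E) :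
    Tendsto (fun h : ℝ => ShLimD w x v h) (𝓝[>] 0) (𝓝 ⟪M v, v⟫) := by
  rw [Metric.tendsto_nhds]
  intro ε hε
  set δ : ℝ := ε / (2 * (‖v‖ ^ 2 + 1)) / 2 with hδ
  have hδ0 : 0 < δ := by positivity
  have h1 := (hasFDerivAt_iff_isLittleO.1 hM).def hδ0
  have h2 : ∀ᶠ z in 𝓝 x, z ∈ P := ho.mem_nhds hx
  obtain ⟨r, hr, hr'⟩ := Metric.eventually_nhds_iff.1 (h1.and h2)
  have h3 : ∀ᶠ h : ℝ in 𝓝[>] 0, h < r / (2 * (‖v‖ + 1)) :=
    mem_nhdsWithin_of_mem_nhds (Iio_mem_nhds (by positivity))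
  filter_upwards [h3, self_mem_nhdsWithin] with h hh1 hh0
  have hh0' : 0 < h := hh0
  have h4 : h * ‖v‖ ≤ r / 2 := by
    have h5 : h * (‖v‖ + 1) ≤ r / 2 := by
      have h6 := mul_le_mul_of_nonneg_right hh1.le (by positivity : 0 ≤ ‖v‖ + 1)
      refine h6.trans (le_of_eq ?_)
      field_simp
    nlinarith [norm_nonneg v]
  have h7 := ShLim_est (w := w) (x := x) (v := v) (M := M) hh0' hδ0.le (ρ := r / 2)
    (fun z hz => by
      have hz' : dist z x < r := by
        rw [dist_eq_norm]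
        linarith
      obtain ⟨k1, k2⟩ := hr' hz'
      exact ⟨hd z k2, k1⟩) h4
  rw [Real.dist_eq]
  refine lt_of_le_of_lt h7 ?_
  have h8 : 2 * δ * ‖v‖ ^ 2 = ε / 2 * (‖v‖ ^ 2 / (‖v‖ ^ 2 + 1)) := by
    rw [hδ]
    field_simp
  have h9 : ‖v‖ ^ 2 / (‖v‖ ^ 2 + 1) ≤ 1 := by
    rw [div_le_one (by positivity)]
    linarith
  rw [h8]
  nlinarith

theorem sh_tendsto {p del : ℝ} (hdel : 0 < del) {P : Set E} (ho : IsOpen P) {w : E → ℝ}
    (hd : ∀ x ∈ P, DifferentiableAt ℝ w x) {x : E} (hx : x ∈ P)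
    (hd2 : DifferentiableAt ℝ (gradient w) x) :
    Tendsto (fun h : ℝ => sh p del h w x (gradient w x) - ch p del h (gradient w x) * w x)
      (𝓝[>] 0) (𝓝 (dv (fun z => VV p del (gradient w z)) x)) := by
  rw [ShLim_dv hdel hd2.hasFDerivAt]
  have h1 : (fun h : ℝ => sh p del h w x (gradient w x) - ch p del h (gradient w x) * w x) =
      fun h : ℝ => al p del (gradient w x) * (ShLimD w x (bb 0) h + ShLimD w x (bb 1) h) +
        be p del (gradient w x) * ShLimD w x (ze p (gradient w x)) h := by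
    funext h
    exact ShLim_decomp p del h w x _
  rw [h1]
  exact (((ShLim_ptw ho hd hx hd2.hasFDerivAt _).add
    (ShLim_ptw ho hd hx hd2.hasFDerivAt _)).const_mul _).add
      ((ShLim_ptw ho hd hx hd2.hasFDerivAt _).const_mul _)

theorem ShLim_grad_eq (f : E → ℝ) :
    gradient f = fun z => (fderiv ℝ f z (bb 0)) • bb 0 + (fderiv ℝ f z (bb 1)) • bb 1 := by
  funext z
  conv_lhs => rw [← ShLim_expand (gradient f z)]
  rw [← ShLim_coord, ← ShLim_coord, sub_grad_apply, sub_grad_apply]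

theorem ShLim_grad_contDiffOn {P : Set E} (ho : IsOpen P) {f : E → ℝ} (hf : ContDiffOn ℝ 2 f P) :
    ContDiffOn ℝ 1 (gradient f) P := by
  have h1 : ContDiffOn ℝ 1 (fderiv ℝ f) P := hf.fderiv_of_isOpen ho (by norm_num)
  rw [ShLim_grad_eq]
  exact ((h1.clm_apply contDiffOn_const).smul contDiffOn_const).add
    ((h1.clm_apply contDiffOn_const).smul contDiffOn_const)

theorem ShLim_unifcont {P : Set E} (ho : IsOpen P) {g : E → E →L[ℝ] E} (hg : ContinuousOn g P)
    {K : Set E} (hK : IsCompact K) (hKP : K ⊆ P) {δ : ℝ} (hδ : 0 < δ) :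
    ∃ ρ : ℝ, 0 < ρ ∧ ∀ x ∈ K, ∀ z, ‖z - x‖ ≤ ρ → z ∈ P ∧ ‖g z - g x‖ ≤ δ := by
  refine hK.induction_on (p := fun s => ∃ ρ : ℝ, 0 < ρ ∧ ∀ x ∈ s, ∀ z, ‖z - x‖ ≤ ρ →
    z ∈ P ∧ ‖g z - g x‖ ≤ δ) ?_ ?_ ?_ ?_
  · exact ⟨1, one_pos, fun x hx => absurd hx (notMem_empty x)⟩
  · rintro s t hst ⟨ρ, h0, h⟩
    exact ⟨ρ, h0, fun x hx => h x (hst hx)⟩
  · rintro s t ⟨ρ, h0, h⟩ ⟨ρ', h0', h'⟩
    refine ⟨min ρ ρ', lt_min h0 h0', fun x hx z hz => ?_⟩
    rcases hx with hx | hx
    · exact h x hx z (hz.trans (min_le_left _ _))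
    · exact h' x hx z (hz.trans (min_le_right _ _))
  · intro x hx
    have hc : ContinuousAt g x := hg.continuousAt (ho.mem_nhds (hKP hx))
    obtain ⟨r1, hr1, h1⟩ := Metric.eventually_nhds_iff.1
      (Metric.tendsto_nhds.1 hc (δ / 2) (by positivity))
    obtain ⟨r2, hr2, h2⟩ := Metric.isOpen_iff.1 ho x (hKP hx)
    have hr : 0 < min r1 r2 := lt_min hr1 hr2
    refine ⟨Metric.ball x (min r1 r2 / 2),
      mem_nhdsWithin_of_mem_nhds (Metric.ball_mem_nhds x (by positivity)), min r1 r2 / 4,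
      by positivity, fun y hy z hz => ?_⟩
    rw [Metric.mem_ball] at hy
    have hzx : dist z x < min r1 r2 := by
      have h3 := dist_triangle z y x
      rw [dist_eq_norm z y] at h3
      linarith
    have hyx : dist y x < min r1 r2 := by linarith
    refine ⟨h2 (Metric.mem_ball.2 (lt_of_lt_of_le hzx (min_le_right _ _))), ?_⟩
    have h4 := h1 (lt_of_lt_of_le hzx (min_le_left _ _))
    have h5 := h1 (lt_of_lt_of_le hyx (min_le_left _ _))
    have h6 := dist_triangle (g z) (g x) (g y)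
    rw [dist_comm (g x) (g y)] at h6
    rw [← dist_eq_norm]
    linarith

theorem ShLim_bd {K : Set E} (hK : IsCompact K) {P : Set E} (hKP : K ⊆ P) {f : E → ℝ}
    (hg : ContinuousOn (gradient f) P) {p del : ℝ} (hdel : 0 < del) :
    ∃ R A B : ℝ, 0 ≤ R ∧ 0 ≤ A ∧ 0 ≤ B ∧ ∀ x ∈ K, ‖gradient f x‖ ≤ R ∧
      |al p del (gradient f x)| ≤ A ∧ |be p del (gradient f x)| ≤ B := by
  have hgK := hg.mono hKP
  obtain ⟨R, hR⟩ := hK.exists_bound_of_continuousOn hgK
  obtain ⟨A, hA⟩ := hK.exists_bound_of_continuousOn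
    ((al_continuous (p := p) hdel).comp_continuousOn hgK)
  obtain ⟨B, hB⟩ := hK.exists_bound_of_continuousOn
    ((be_continuous (p := p) hdel).comp_continuousOn hgK)
  refine ⟨|R|, |A|, |B|, abs_nonneg _, abs_nonneg _, abs_nonneg _, fun x hx => ⟨?_, ?_, ?_⟩⟩
  · exact (hR x hx).trans (le_abs_self R)
  · exact (hA x hx).trans (le_abs_self A)
  · exact (hB x hx).trans (le_abs_self B)

theorem ShLim_norm_bb (i : Fin 2) : ‖bb i‖ = 1 := by
  unfold bb
  simp

theorem sh_unif {p del : ℝ} (hdel : 0 < del) {P : Set E} (ho : IsOpen P) {f : E → ℝ}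
    (hf : ContDiffOn ℝ 2 f P) {K : Set E} (hK : IsCompact K) (hKP : K ⊆ P) {ep : ℝ} (hep : 0 < ep) :
    ∃ h0 : ℝ, 0 < h0 ∧ ∀ h, 0 < h → h < h0 → ∀ x ∈ K,
      |sh p del h f x (gradient f x) - ch p del h (gradient f x) * f x -
        dv (fun z => VV p del (gradient f z)) x| ≤ ep := by
  have hg1 := ShLim_grad_contDiffOn ho hf
  have hgd : ∀ z ∈ P, HasFDerivAt (gradient f) (fderiv ℝ (gradient f) z) z := fun z hz =>
    ((hg1.differentiableOn (by norm_num)).differentiableAt (ho.mem_nhds hz)).hasFDerivAt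
  have hfd : ∀ z ∈ P, DifferentiableAt ℝ f z := fun z hz =>
    (hf.differentiableOn (by norm_num)).differentiableAt (ho.mem_nhds hz)
  have hgc : ContinuousOn (fderiv ℝ (gradient f)) P := hg1.continuousOn_fderiv_of_isOpen ho le_rfl
  obtain ⟨R, A, B, hR0, hA0, hB0, hb⟩ := ShLim_bd hK hKP (p := p) hg1.continuousOn hdel
  set S : ℝ := (2 * A + B) * (2 * (R ^ 2 + 1)) + 1 with hS
  have hS0 : 0 < S := by positivity
  set δ : ℝ := ep / S with hδ
  have hδ0 : 0 < δ := by positivity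
  obtain ⟨ρ, hρ, hu⟩ := ShLim_unifcont ho hgc hK hKP hδ0
  refine ⟨ρ / (R + 1), by positivity, fun h hh0 hh1 x hx => ?_⟩
  obtain ⟨b1, b2, b3⟩ := hb x hx
  have hhR : h * (R + 1) ≤ ρ := by
    rw [lt_div_iff₀ (by positivity)] at hh1
    exact hh1.le
  have hest : ∀ v : E, ‖v‖ ≤ R + 1 →
      |ShLimD f x v h - ⟪fderiv ℝ (gradient f) x v, v⟫| ≤ 2 * δ * ‖v‖ ^ 2 := by
    intro v hv
    refine ShLim_est hh0 hδ0.le (ρ := ρ) (fun z hz => ?_)
      ((mul_le_mul_of_nonneg_left hv hh0.le).trans hhR)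
    have hzP := (hu x hx z hz).1
    refine ⟨hfd z hzP, ?_⟩
    refine Convex.norm_image_sub_le_of_norm_hasFDerivWithin_le' (s := Metric.closedBall x ρ)
      (f' := fderiv ℝ (gradient f)) (fun y hy => ?_) (fun y hy => ?_)
      (convex_closedBall x ρ) (Metric.mem_closedBall_self hρ.le) ?_
    · rw [mem_closedBall_iff_norm] at hy
      exact (hgd y (hu x hx y hy).1).hasFDerivWithinAt
    · rw [mem_closedBall_iff_norm] at hy
      exact (hu x hx y hy).2
    · rw [mem_closedBall_iff_norm]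
      exact hz
  rw [ShLim_decomp, ShLim_dv hdel (hgd x (hKP hx))]
  have e0 := hest (bb 0) (by rw [ShLim_norm_bb]; linarith)
  have e1 := hest (bb 1) (by rw [ShLim_norm_bb]; linarith)
  have e2 := hest (ze p (gradient f x)) (by rw [norm_ze]; linarith)
  rw [ShLim_norm_bb] at e0 e1
  rw [norm_ze] at e2
  have e3 : 2 * δ * ‖gradient f x‖ ^ 2 ≤ 2 * δ * (R ^ 2 + 1) := by
    have : ‖gradient f x‖ ^ 2 ≤ R ^ 2 := by gcongr
    nlinarith
  have e4 : 2 * δ * 1 ^ 2 ≤ 2 * δ * (R ^ 2 + 1) := by nlinarith [sq_nonneg R]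
  set q0 := ShLimD f x (bb 0) h - ⟪fderiv ℝ (gradient f) x (bb 0), bb 0⟫ with hq0
  set q1 := ShLimD f x (bb 1) h - ⟪fderiv ℝ (gradient f) x (bb 1), bb 1⟫ with hq1
  set q2 := ShLimD f x (ze p (gradient f x)) h -
    ⟪fderiv ℝ (gradient f) x (ze p (gradient f x)), ze p (gradient f x)⟫ with hq2
  have e5 : al p del (gradient f x) * (ShLimD f x (bb 0) h + ShLimD f x (bb 1) h) +
      be p del (gradient f x) * ShLimD f x (ze p (gradient f x)) h -
      (al p del (gradient f x) * (⟪fderiv ℝ (gradient f) x (bb 0), bb 0⟫ +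
        ⟪fderiv ℝ (gradient f) x (bb 1), bb 1⟫) +
        be p del (gradient f x) *
          ⟪fderiv ℝ (gradient f) x (ze p (gradient f x)), ze p (gradient f x)⟫) =
      al p del (gradient f x) * (q0 + q1) + be p del (gradient f x) * q2 := by
    rw [hq0, hq1, hq2]
    ring
  rw [e5]
  have hD : 0 ≤ 2 * δ * (R ^ 2 + 1) := by positivity
  calc |al p del (gradient f x) * (q0 + q1) + be p del (gradient f x) * q2| ≤
        |al p del (gradient f x)| * |q0 + q1| + |be p del (gradient f x)| * |q2| := by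
        rw [← abs_mul, ← abs_mul]
        exact abs_add_le _ _
    _ ≤ A * (2 * δ * (R ^ 2 + 1) + 2 * δ * (R ^ 2 + 1)) + B * (2 * δ * (R ^ 2 + 1)) := by
        refine add_le_add (mul_le_mul b2 ?_ (abs_nonneg _) hA0)
          (mul_le_mul b3 (e2.trans e3) (abs_nonneg _) hB0)
        exact (abs_add_le _ _).trans (add_le_add (e0.trans e4) (e1.trans e4))
    _ = δ * ((2 * A + B) * (2 * (R ^ 2 + 1))) := by ring
    _ ≤ δ * S := by
        refine mul_le_mul_of_nonneg_left ?_ hδ0.le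
        rw [hS]
        linarith
    _ = ep := by
        rw [hδ]
        field_simp

theorem sh_bound {p del : ℝ} (hdel : 0 < del) {P : Set E} (ho : IsOpen P) {w : E → ℝ}
    (hC : C11 P w) {K : Set E} (hK : IsCompact K) (hKP : K ⊆ P) :
    ∃ C h0 : ℝ, 0 < h0 ∧ ∀ h, 0 < h → h < h0 → ∀ x ∈ K,
      |sh p del h w x (gradient w x) - ch p del h (gradient w x) * w x| ≤ C := by
  obtain ⟨R, A, B, hR0, hA0, hB0, hb⟩ := ShLim_bd hK hKP (p := p) hC.lip.continuousOn hdel
  obtain ⟨C, d0, hC0, hd0, hsd⟩ := second_diff ho hC hK hKP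
  refine ⟨A * (2 * C) + B * (C * R ^ 2), d0 / (R + 1), by positivity, fun h hh0 hh1 x hx => ?_⟩
  obtain ⟨b1, b2, b3⟩ := hb x hx
  have hhR : h * (R + 1) ≤ d0 := by
    rw [lt_div_iff₀ (by positivity)] at hh1
    exact hh1.le
  have hest : ∀ v : E, ‖v‖ ≤ R + 1 → |ShLimD w x v h| ≤ C * ‖v‖ ^ 2 := by
    intro v hv
    have h1 : ‖h • v‖ = h * ‖v‖ := by
      rw [norm_smul, Real.norm_eq_abs, abs_of_pos hh0]
    have h2 := (hsd x hx (h • v)
      (by rw [h1]; exact (mul_le_mul_of_nonneg_left hv hh0.le).trans hhR)).2.2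
    unfold ShLimD
    rw [abs_div, abs_of_pos (by positivity : (0 : ℝ) < h ^ 2), div_le_iff₀ (by positivity)]
    refine h2.trans (le_of_eq ?_)
    rw [h1]
    ring
  rw [ShLim_decomp]
  have e0 := hest (bb 0) (by rw [ShLim_norm_bb]; linarith)
  have e1 := hest (bb 1) (by rw [ShLim_norm_bb]; linarith)
  have e2 := hest (ze p (gradient w x)) (by rw [norm_ze]; linarith)
  rw [ShLim_norm_bb] at e0 e1
  rw [norm_ze] at e2
  have e3 : C * ‖gradient w x‖ ^ 2 ≤ C * R ^ 2 := by
    have : ‖gradient w x‖ ^ 2 ≤ R ^ 2 := by gcongr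
    exact mul_le_mul_of_nonneg_left this hC0.le
  calc |al p del (gradient w x) * (ShLimD w x (bb 0) h + ShLimD w x (bb 1) h) +
        be p del (gradient w x) * ShLimD w x (ze p (gradient w x)) h| ≤
        |al p del (gradient w x)| * |ShLimD w x (bb 0) h + ShLimD w x (bb 1) h| +
          |be p del (gradient w x)| * |ShLimD w x (ze p (gradient w x)) h| := by
        rw [← abs_mul, ← abs_mul]
        exact abs_add_le _ _
    _ ≤ A * (2 * C) + B * (C * R ^ 2) := by
        refine add_le_add (mul_le_mul b2 ?_ (abs_nonneg _) hA0)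
          (mul_le_mul b3 (e2.trans e3) (abs_nonneg _) hB0)
        refine (abs_add_le _ _).trans ?_
        linarith

end Pool.Agent.PLap
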