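import Pool.Agent.PLap.Brk
import Pool.Agent.PLap.ShLim
import Pool.Agent.PLap.El

/-!
Key: the quadratic inequality.

Lam is given by S.cc for w and l. Let chi >= 0 be continuous with compact support, chi y = 0 for |y| > R (R >= 0). K1 = {x in P : |grad w x| <= R} is compact (grad_proper).
Let r0 > 0 be such that the closed r0-neighbourhood Kt of K1 is a compact subset of P, and W = ext_convex on Kt: W convex on the plane (hence continuous), W = w on Kt.
For 0 < h with h(1+R) <= r0 apply `bracket` with gg = exp(-pw)(sd w - l), n0 x y = sh p del h W x y - GG y - l + Lam, cc = ch p del h: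
n0 is continuous (W, al, be, ze, GG continuous), convex in x (al, be >= 0, translates of W convex), gg integrable on compacts (sd_bound, continuity of w), hEL is the hypothesis ELI.
For x in K1 the points x +- h bb_i and x +- h ze (|ze| = |grad w x| <= R) lie in Kt, so sh W x y = sh w x y for y = grad w x.
Contact with a: w x = a x, w >= a near x, so grad w x = grad a x (touch), and w(x+-v) >= a(x+-v), so sh w - ch w x >= sh a - ch a x >= dv(VV(grad a))(x) - 1/4 for h < h0 (sh_unif for a on K1),
bracket >= sd a x - l + Lam - 1/4 >= 1/4 > 0. Contact with B: <= sd B x - l + Lam + 1/4 <= -1/4 < 0.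
So int_P chi(grad w)(sh w x - ch w x - GG - l + Lam) gg <= 0. Let h -> 0+: the integrand vanishes off K1 and is bounded on K1 (sh_bound), and converges a.e. on P (sh_tendsto at the points where grad w is
differentiable, rademacher) to chi (sd w - l + Lam) gg.
-/

set_option autoImplicit false

open MeasureTheory Set Filter Topology
open scoped ENNReal NNReal ContDiff RealInnerProductSpace

namespace Pool.Agent.PLap

/-- a convex function on the whole plane which equals `w` on a given compact subset of `P` -/
theorem ext_convex {P : Set E} (ho : IsOpen P) {w : E → ℝ} (hw : ConvexOn ℝ P w)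
    (hd : ∀ x ∈ P, DifferentiableAt ℝ w x) {K : Set E} (hK : IsCompact K) (hKP : K ⊆ P) :
    ∃ W : E → ℝ, ConvexOn ℝ univ W ∧ ∀ x ∈ K, W x = w x := by
  rcases K.eq_empty_or_nonempty with rfl | hne
  · exact ⟨fun _ => 0, convexOn_const 0 convex_univ, fun x hx => absurd hx (notMem_empty x)⟩
  have : Nonempty K := hne.to_subtype
  have hgc : ContinuousOn (gradient w) P := grad_continuousOn ho hw hd
  have hwc : ContinuousOn w P := hw.continuousOn ho
  have hbdd : ∀ x : E, BddAbove (range fun z : K => w z + ⟪gradient w z, x - z⟫) := by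
    intro x
    have hc : ContinuousOn (fun z : E => w z + ⟪gradient w z, x - z⟫) K := by
      have h1 := hwc.mono hKP
      have h2 := hgc.mono hKP
      exact h1.add (h2.inner (continuousOn_const.sub continuousOn_id))
    obtain ⟨M, hM⟩ := (hK.image_of_continuousOn hc).bddAbove
    refine ⟨M, ?_⟩
    rintro _ ⟨z, rfl⟩
    exact hM ⟨z.1, z.2, rfl⟩
  refine ⟨fun x => ⨆ z : K, (w z + ⟪gradient w z, x - z⟫), ⟨convex_univ, ?_⟩, ?_⟩
  · intro x _ y _ s t hs ht hst
    refine ciSup_le fun z => ?_
    have h1 := le_ciSup (hbdd x) z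
    have h2 := le_ciSup (hbdd y) z
    have h3 : w z + ⟪gradient w z, s • x + t • y - (z : E)⟫ =
        s • (w z + ⟪gradient w z, x - z⟫) + t • (w z + ⟪gradient w z, y - z⟫) := by
      have h4 : s • x + t • y - (z : E) = s • (x - z) + t • (y - z) := by
        have h5 : (z : E) = s • (z : E) + t • (z : E) := by rw [← add_smul, hst, one_smul]
        calc s • x + t • y - (z : E) = s • x + t • y - (s • (z : E) + t • (z : E)) := by
              rw [← h5]
          _ = s • (x - z) + t • (y - z) := by
              rw [smul_sub, smul_sub]; abel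
      rw [h4, inner_add_right, inner_smul_right, inner_smul_right, smul_eq_mul, smul_eq_mul]
      have h6 : w z = s * w z + t * w z := by rw [← add_mul, hst, one_mul]
      linear_combination h6
    rw [h3]
    exact add_le_add (smul_le_smul_of_nonneg_left h1 hs) (smul_le_smul_of_nonneg_left h2 ht)
  · intro x hx
    apply le_antisymm
    · refine ciSup_le fun z => ?_
      exact grad_le ho hw (hKP z.2) (hd _ (hKP z.2)) (hKP hx)
    · have := le_ciSup (hbdd x) ⟨x, hx⟩
      simpa using this

private theorem key_norm_bb (i : Fin 2) : ‖bb i‖ = 1 := by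
  unfold bb
  simp

/-- values of `sh` for functions which agree near a compact set -/
private theorem key_mem {K : Set E} {r R h : ℝ} (hh : 0 < h) (hhr : h * (1 + R) ≤ r)
    {x v : E} (hx : x ∈ K) (hv : ‖v‖ ≤ 1 + R) :
    x + h • v ∈ Metric.cthickening r K ∧ x - h • v ∈ Metric.cthickening r K := by
  have h1 : ‖h • v‖ ≤ r := by
    rw [norm_smul, Real.norm_eq_abs, abs_of_pos hh]
    exact (mul_le_mul_of_nonneg_left hv hh.le).trans hhr
  constructor
  · refine Metric.mem_cthickening_of_dist_le _ x r K hx ?_
    rw [dist_eq_norm, add_sub_cancel_left]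
    exact h1
  · refine Metric.mem_cthickening_of_dist_le _ x r K hx ?_
    rw [dist_eq_norm, sub_sub_cancel_left, norm_neg]
    exact h1

private theorem key_sh_congr {p del : ℝ} {K : Set E} {r R h : ℝ} (hR : 0 ≤ R) (hh : 0 < h)
    (hhr : h * (1 + R) ≤ r) {f g : E → ℝ} (hfg : ∀ z ∈ Metric.cthickening r K, f z = g z)
    {x y : E} (hx : x ∈ K) (hy : ‖y‖ ≤ R) : sh p del h f x y = sh p del h g x y := by
  have hb : ∀ i : Fin 2, ‖bb i‖ ≤ 1 + R := fun i => by rw [key_norm_bb]; linarith
  have hz : ‖ze p y‖ ≤ 1 + R := by rw [norm_ze]; linarith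
  unfold sh
  have h1 : ∀ i : Fin 2, f (x + h • bb i) + f (x - h • bb i) =
      g (x + h • bb i) + g (x - h • bb i) := by
    intro i
    obtain ⟨m1, m2⟩ := key_mem hh hhr hx (hb i)
    rw [hfg _ m1, hfg _ m2]
  obtain ⟨m1, m2⟩ := key_mem hh hhr hx hz
  rw [hfg _ m1, hfg _ m2, Finset.sum_congr rfl (fun i _ => h1 i)]

private theorem key_sh_mono {p del : ℝ} (hp : 1 < p) (hdel : 0 < del) {K : Set E} {r R h : ℝ}
    (hR : 0 ≤ R) (hh : 0 < h)
    (hhr : h * (1 + R) ≤ r) {f g : E → ℝ} (hfg : ∀ z ∈ Metric.cthickening r K, f z ≤ g z)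
    {x y : E} (hx : x ∈ K) (hy : ‖y‖ ≤ R) : sh p del h f x y ≤ sh p del h g x y := by
  have hb : ∀ i : Fin 2, ‖bb i‖ ≤ 1 + R := fun i => by rw [key_norm_bb]; linarith
  have hz : ‖ze p y‖ ≤ 1 + R := by rw [norm_ze]; linarith
  unfold sh
  have h1 : ∀ i : Fin 2, f (x + h • bb i) + f (x - h • bb i) ≤
      g (x + h • bb i) + g (x - h • bb i) := by
    intro i
    obtain ⟨m1, m2⟩ := key_mem hh hhr hx (hb i)
    exact add_le_add (hfg _ m1) (hfg _ m2)
  obtain ⟨m1, m2⟩ := key_mem hh hhr hx hz
  have ha := al_nonneg hp hdel y
  have hbe := be_nonneg (p := p) hdel y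
  gcongr ?_ / h ^ 2
  refine add_le_add (mul_le_mul_of_nonneg_left (Finset.sum_le_sum fun i _ => h1 i) ha)
    (mul_le_mul_of_nonneg_left (add_le_add (hfg _ m1) (hfg _ m2)) hbe)

private theorem key_conv_shift {W : E → ℝ} (hW : ConvexOn ℝ univ W) (v : E) :
    ConvexOn ℝ univ (fun x => W (x + v)) := by
  have := hW.translate_left v
  simpa [Function.comp_def, add_comm] using this

theorem key_ineq {p del : ℝ} {P : Set E} {a B : E → ℝ} {lmax : ℝ}
    (S : Setup p del P a B lmax) {w : E → ℝ} {l : ℝ} (hl : l ∈ Icc 0 lmax) (hw : Adm P a B w)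
    (hC : C11 P w) (hEL : ELI p del l P a B w) :
    ∃ Lam : ℝ, ∀ chi : E → ℝ, Continuous chi → (∀ y, 0 ≤ chi y) → HasCompactSupport chi →
      ∫ x in P, chi (gradient w x) * (sd p del w x - l + Lam) *
        (Real.exp (-p * w x) * (sd p del w x - l)) ≤ 0 := by
  obtain ⟨Lam, hLa, hLB⟩ := S.cc w hw l hl
  refine ⟨Lam, fun chi hchi hchi0 hcs => ?_⟩
  have hp := S.hp
  have hdel := S.hdel
  have ho := S.isOpen
  have hgc : ContinuousOn (gradient w) P := grad_continuousOn ho hw.conv hC.diff
  have hwc : ContinuousOn w P := hw.conv.continuousOn ho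
  have hac : ContinuousOn a P := S.a2.continuousOn
  have hBc : ContinuousOn B P := S.B2.continuousOn
  -- the radius
  obtain ⟨R, hR0, hR⟩ : ∃ R : ℝ, 0 ≤ R ∧ ∀ y, R < ‖y‖ → chi y = 0 := by
    obtain ⟨R, hR⟩ := hcs.isCompact.isBounded.subset_closedBall (0 : E)
    refine ⟨max R 0, le_max_right _ _, fun y hy => ?_⟩
    by_contra h
    have h1 : y ∈ Metric.closedBall (0 : E) R := hR (subset_tsupport _ h)
    rw [mem_closedBall_zero_iff] at h1
    exact absurd hy (not_lt.2 (h1.trans (le_max_left _ _)))
  set K1 : Set E := {x | x ∈ P ∧ ‖gradient w x‖ ≤ R} with hK1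
  have hK1c : IsCompact K1 :=
    grad_proper ho S.convex S.bounded S.proper hw.conv hw.lb hC.diff R
  have hK1P : K1 ⊆ P := fun x hx => hx.1
  obtain ⟨r0, hr0, hr0P⟩ := hK1c.exists_cthickening_subset_open ho hK1P
  have hKtc : IsCompact (Metric.cthickening r0 K1) := hK1c.cthickening
  obtain ⟨W, hWc, hWw⟩ := ext_convex ho hw.conv hC.diff hKtc hr0P
  have hWcont : Continuous W := continuousOn_univ.1 (hWc.continuousOn isOpen_univ)
  obtain ⟨ha0, hha0, hua⟩ := sh_unif (p := p) hdel ho S.a2 hK1c hK1P (ep := 1 / 4) (by norm_num)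
  obtain ⟨hb0, hhb0, hub⟩ := sh_unif (p := p) hdel ho S.B2 hK1c hK1P (ep := 1 / 4) (by norm_num)
  obtain ⟨Cs, hs0, hhs0, hus⟩ := sh_bound (p := p) hdel ho hC hK1c hK1P
  obtain ⟨Cd, hCd0, hCd⟩ := sd_bound (p := p) hdel ho hC hK1c hK1P
  set gg : E → ℝ := fun x => Real.exp (-p * w x) * (sd p del w x - l) with hgg
  have hmeas : ∀ K : Set E, MeasurableSet K → K ⊆ P →
      AEStronglyMeasurable gg (volume.restrict K) := by
    intro K hKm hKP
    have h1 : AEStronglyMeasurable (fun x => Real.exp (-p * w x)) (volume.restrict K) := by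
      have h2 : ContinuousOn (fun x => Real.exp (-p * w x)) K :=
        Real.continuous_exp.comp_continuousOn (continuousOn_const.mul (hwc.mono hKP))
      exact h2.aestronglyMeasurable hKm
    exact h1.mul (((sd_measurable p hdel w).sub_const l).aestronglyMeasurable)
  have hggb : ∀ K : Set E, IsCompact K → K ⊆ P → ∃ C : ℝ, 0 ≤ C ∧ ∀ x ∈ K, ‖gg x‖ ≤ C := by
    intro K hK hKP
    obtain ⟨C1, hC1⟩ := hK.exists_bound_of_continuousOn
      (Real.continuous_exp.comp_continuousOn (continuousOn_const.mul (hwc.mono hKP)) :
        ContinuousOn (fun x => Real.exp (-p * w x)) K)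
    obtain ⟨C2, hC20, hC2⟩ := sd_bound (p := p) hdel ho hC hK hKP
    refine ⟨|C1| * (C2 + |l|), by positivity, fun x hx => ?_⟩
    rw [hgg, norm_mul]
    have h1 : ‖sd p del w x - l‖ ≤ C2 + |l| := by
      rw [Real.norm_eq_abs]
      exact (abs_sub _ _).trans (add_le_add (hC2 x hx) le_rfl)
    exact mul_le_mul ((hC1 x hx).trans (le_abs_self _)) h1 (norm_nonneg _) (abs_nonneg _)
  have hggint : ∀ K : Set E, IsCompact K → K ⊆ P → IntegrableOn gg K := by
    intro K hK hKP
    obtain ⟨C, hC0, hCb⟩ := hggb K hK hKP
    have h1 : IntegrableOn (fun _ : E => C) K := integrableOn_const hK.measure_lt_top.ne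
    exact Integrable.mono' h1 (hmeas K hK.measurableSet hKP)
      ((ae_restrict_iff' hK.measurableSet).2 (Eventually.of_forall hCb))
  -- the bracket for small h
  have hmain : ∀ h : ℝ, 0 < h → h * (1 + R) ≤ r0 → h < ha0 → h < hb0 →
      ∫ x in P, (chi (gradient w x) * ((sh p del h W x (gradient w x) -
        GG p del (gradient w x) - l + Lam) - ch p del h (gradient w x) * w x)) * gg x ≤ 0 := by
    intro h hh hhr hha hhb
    have hconv : ∀ v : E, ConvexOn ℝ univ (fun x => W (x + v)) := key_conv_shift hWc
    refine bracket ho S.convex S.bounded hac hBc S.proper hw hC.diff hggint hEL hchi hchi0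
      (R := R) hR (n0 := fun x y => sh p del h W x y - GG p del y - l + Lam)
      (cc := ch p del h) ?_ ?_ ?_ ?_ ?_
    · have e1 : Continuous (fun z : E × E => al p del z.2) := (al_continuous hdel).comp continuous_snd
      have e2 : Continuous (fun z : E × E => be p del z.2) := (be_continuous hdel).comp continuous_snd
      have e3 : Continuous (fun z : E × E => ze p z.2) := (ze_continuous p).comp continuous_snd
      have e4 : Continuous (fun z : E × E => GG p del z.2) := (GG_continuous hdel).comp continuous_snd
      unfold sh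
      refine ((Continuous.div_const ?_ _).sub e4 |>.sub continuous_const).add continuous_const
      refine (e1.mul (continuous_finsetSum _ fun i _ => ?_)).add (e2.mul ?_)
      · exact (hWcont.comp (continuous_fst.add continuous_const)).add
          (hWcont.comp (continuous_fst.sub continuous_const))
      · exact (hWcont.comp (continuous_fst.add (e3.const_smul h))).add
          (hWcont.comp (continuous_fst.sub (e3.const_smul h)))
    · intro y
      have c1 : ∀ v : E, ConvexOn ℝ univ (fun x => W (x + v) + W (x - v)) := by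
        intro v
        refine ((hconv v).add (hconv (-v))).congr fun x _ => ?_
        simp [sub_eq_add_neg]
      have c2 : ConvexOn ℝ univ (fun x => ∑ i : Fin 2, (W (x + h • bb i) + W (x - h • bb i))) := by
        refine ((c1 (h • bb 0)).add (c1 (h • bb 1))).congr fun x _ => ?_
        simp [Fin.sum_univ_two]
      have c3 := (c2.smul (al_nonneg hp hdel y)).add ((c1 (h • ze p y)).smul (be_nonneg (p := p) hdel y))
      have c4 := c3.smul (show (0 : ℝ) ≤ 1 / h ^ 2 by positivity)
      have c5 := c4.add_const (-GG p del y - l + Lam)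
      refine c5.congr fun x _ => ?_
      simp only [sh, Pi.add_apply, smul_eq_mul]
      ring
    · unfold ch
      exact (((al_continuous hdel).const_mul 4).add ((be_continuous hdel).const_mul 2)).div_const _
    · intro x hx hxR hxa
      have hxK : x ∈ K1 := ⟨hx, hxR⟩
      have hda : DifferentiableAt ℝ a x :=
        (S.a2.contDiffAt (ho.mem_nhds hx)).differentiableAt (by norm_num)
      have hgr : gradient a x = gradient w x :=
        touch hda (hC.diff x hx) (by filter_upwards [ho.mem_nhds hx] with z hz using hw.lb z hz)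
          hxa.symm
      have h1 : sh p del h W x (gradient w x) = sh p del h w x (gradient w x) :=
        key_sh_congr hR0 hh hhr hWw hxK hxR
      have h2 : sh p del h a x (gradient w x) ≤ sh p del h w x (gradient w x) :=
        key_sh_mono hp hdel hR0 hh hhr (fun z hz => hw.lb z (hr0P hz)) hxK hxR
      have h3 := hua h hh hha x hxK
      rw [hgr] at h3
      have h4 := hLa x hx hxa
      unfold sd at h4
      rw [hgr] at h4
      have h5 := (abs_le.1 h3).1
      show 0 < sh p del h W x (gradient w x) - GG p del (gradient w x) - l + Lam -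
        ch p del h (gradient w x) * w x
      rw [h1, hxa]
      linarith
    · intro x hx hxR hxB
      have hxK : x ∈ K1 := ⟨hx, hxR⟩
      have hdB : DifferentiableAt ℝ B x :=
        (S.B2.contDiffAt (ho.mem_nhds hx)).differentiableAt (by norm_num)
      have hgr : gradient B x = gradient w x :=
        (touch (hC.diff x hx) hdB (by filter_upwards [ho.mem_nhds hx] with z hz using hw.ub z hz)
          hxB).symm
      have h1 : sh p del h W x (gradient w x) = sh p del h w x (gradient w x) :=
        key_sh_congr hR0 hh hhr hWw hxK hxR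
      have h2 : sh p del h w x (gradient w x) ≤ sh p del h B x (gradient w x) :=
        key_sh_mono hp hdel hR0 hh hhr (fun z hz => hw.ub z (hr0P hz)) hxK hxR
      have h3 := hub h hh hhb x hxK
      rw [hgr] at h3
      have h4 := hLB x hx hxB
      unfold sd at h4
      rw [hgr] at h4
      have h5 := (abs_le.1 h3).2
      show sh p del h W x (gradient w x) - GG p del (gradient w x) - l + Lam -
        ch p del h (gradient w x) * w x < 0
      rw [h1, hxB]
      linarith
  -- the limit
  obtain ⟨Cg, hCg0, hCg⟩ := hggb K1 hK1c hK1P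
  obtain ⟨Cc, hCc⟩ := (isCompact_closedBall (0 : E) R).exists_bound_of_continuousOn hchi.continuousOn
  obtain ⟨CG, hCG⟩ := (isCompact_closedBall (0 : E) R).exists_bound_of_continuousOn
    (GG_continuous (p := p) hdel).continuousOn
  have hev : ∀ᶠ h : ℝ in 𝓝[>] 0, 0 < h ∧ h * (1 + R) ≤ r0 ∧ h < ha0 ∧ h < hb0 ∧ h < hs0 := by
    have h1 : ∀ᶠ h : ℝ in 𝓝[>] 0, h < r0 / (1 + R) :=
      nhdsWithin_le_nhds (Iio_mem_nhds (by positivity))
    have h2 : ∀ᶠ h : ℝ in 𝓝[>] 0, h < ha0 := nhdsWithin_le_nhds (Iio_mem_nhds hha0)
    have h3 : ∀ᶠ h : ℝ in 𝓝[>] 0, h < hb0 := nhdsWithin_le_nhds (Iio_mem_nhds hhb0)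
    have h4 : ∀ᶠ h : ℝ in 𝓝[>] 0, h < hs0 := nhdsWithin_le_nhds (Iio_mem_nhds hhs0)
    filter_upwards [h1, h2, h3, h4, self_mem_nhdsWithin] with h g1 g2 g3 g4 g5
    refine ⟨g5, ?_, g2, g3, g4⟩
    rw [lt_div_iff₀ (by positivity)] at g1
    exact g1.le
  set bd : E → ℝ := K1.indicator (fun _ => |Cc| * (|Cs| + |CG| + |l| + |Lam|) * Cg) with hbd
  have hlim : Tendsto (fun h : ℝ => ∫ x in P, (chi (gradient w x) * ((sh p del h W x (gradient w x) -
        GG p del (gradient w x) - l + Lam) - ch p del h (gradient w x) * w x)) * gg x) (𝓝[>] 0)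
      (𝓝 (∫ x in P, chi (gradient w x) * (sd p del w x - l + Lam) * gg x)) := by
    refine tendsto_integral_filter_of_dominated_convergence bd ?_ ?_ ?_ ?_
    · refine Eventually.of_forall fun h => ?_
      refine AEStronglyMeasurable.mul ?_ (hmeas P ho.measurableSet Subset.rfl)
      refine ContinuousOn.aestronglyMeasurable ?_ ho.measurableSet
      refine (hchi.comp_continuousOn hgc).mul ?_
      have e1 : ContinuousOn (fun x => al p del (gradient w x)) P :=
        (al_continuous hdel).comp_continuousOn hgc
      have e2 : ContinuousOn (fun x => be p del (gradient w x)) P :=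
        (be_continuous hdel).comp_continuousOn hgc
      have e3 : ContinuousOn (fun x => ze p (gradient w x)) P :=
        (ze_continuous p).comp_continuousOn hgc
      have e4 : ContinuousOn (fun x => GG p del (gradient w x)) P :=
        (GG_continuous hdel).comp_continuousOn hgc
      unfold sh ch
      refine ContinuousOn.sub ?_ ((((e1.const_mul 4).add (e2.const_mul 2)).div_const _).mul hwc)
      refine ((ContinuousOn.div_const ?_ _).sub e4 |>.sub continuousOn_const).add continuousOn_const
      refine (e1.mul (continuousOn_finsetSum _ fun i _ => ?_)).add (e2.mul ?_)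
      · exact ((hWcont.comp (continuous_id.add continuous_const)).add
          (hWcont.comp (continuous_id.sub continuous_const))).continuousOn
      · exact (hWcont.comp_continuousOn (continuousOn_id.add (e3.const_smul h))).add
          (hWcont.comp_continuousOn (continuousOn_id.sub (e3.const_smul h)))
    · filter_upwards [hev] with h hh
      obtain ⟨hh0, hhr, hha, hhb, hhs⟩ := hh
      rw [ae_restrict_iff' ho.measurableSet]
      refine Eventually.of_forall fun x hx => ?_
      by_cases hxK : x ∈ K1
      · rw [hbd, indicator_of_mem hxK]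
        have h1 : sh p del h W x (gradient w x) = sh p del h w x (gradient w x) :=
          key_sh_congr hR0 hh0 hhr hWw hxK hxK.2
        have hmem : gradient w x ∈ Metric.closedBall (0 : E) R := by
          rw [mem_closedBall_zero_iff]; exact hxK.2
        rw [norm_mul, norm_mul]
        refine mul_le_mul (mul_le_mul ((hCc _ hmem).trans (le_abs_self _)) ?_ (norm_nonneg _)
          (abs_nonneg _)) (hCg x hxK) (norm_nonneg _) (by positivity)
        rw [h1]
        have h2 := hus h hh0 hhs x hxK
        have h3 := hCG _ hmem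
        rw [Real.norm_eq_abs] at h3
        have h4 : sh p del h w x (gradient w x) - GG p del (gradient w x) - l + Lam -
            ch p del h (gradient w x) * w x =
            (sh p del h w x (gradient w x) - ch p del h (gradient w x) * w x) +
              (-GG p del (gradient w x)) + (-l) + Lam := by ring
        rw [h4, Real.norm_eq_abs]
        have h5 := abs_add_le (sh p del h w x (gradient w x) - ch p del h (gradient w x) * w x)
          (-GG p del (gradient w x))
        have h6 := abs_add_le ((sh p del h w x (gradient w x) - ch p del h (gradient w x) * w x) +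
          (-GG p del (gradient w x))) (-l)
        have h7 := abs_add_le ((sh p del h w x (gradient w x) - ch p del h (gradient w x) * w x) +
          (-GG p del (gradient w x)) + (-l)) Lam
        rw [abs_neg] at h5 h6
        have h8 := le_abs_self Cs
        have h9 := le_abs_self CG
        linarith
      · have : chi (gradient w x) = 0 := hR _ (not_le.1 fun hle => hxK ⟨hx, hle⟩)
        rw [hbd, indicator_of_notMem hxK, this]
        simp
    · rw [hbd]
      refine Integrable.mono_measure ?_ Measure.restrict_le_self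
      exact (integrable_indicator_iff hK1c.measurableSet).2
        (integrableOn_const hK1c.measure_lt_top.ne)
    · have hrad := rademacher ho hC.lip
      filter_upwards [hrad, ae_restrict_mem ho.measurableSet] with x hxd hx
      by_cases hxK : x ∈ K1
      · refine Tendsto.mul_const _ (Tendsto.const_mul _ ?_)
        have h1 := sh_tendsto (p := p) hdel ho hC.diff hx hxd
        have h2 : Tendsto (fun h : ℝ => (sh p del h w x (gradient w x) -
            ch p del h (gradient w x) * w x) + (-GG p del (gradient w x) - l + Lam)) (𝓝[>] 0)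
            (𝓝 (dv (fun z => VV p del (gradient w z)) x + (-GG p del (gradient w x) - l + Lam))) :=
          h1.add_const _
        have h3 : dv (fun z => VV p del (gradient w z)) x + (-GG p del (gradient w x) - l + Lam) =
            sd p del w x - l + Lam := by
          unfold sd; ring
        rw [h3] at h2
        refine h2.congr' ?_
        filter_upwards [hev] with h hh
        obtain ⟨hh0, hhr, hha, hhb, hhs⟩ := hh
        rw [key_sh_congr hR0 hh0 hhr hWw hxK hxK.2]
        ring
      · have : chi (gradient w x) = 0 := hR _ (not_le.1 fun hle => hxK ⟨hx, hle⟩)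
        simp only [this, zero_mul]
        exact tendsto_const_nhds
  refine le_of_tendsto hlim ?_
  filter_upwards [hev] with h hh
  obtain ⟨hh0, hhr, hha, hhb, hhs⟩ := hh
  exact hmain h hh0 hhr hha hhb

end Pool.Agent.PLap
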