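import Pool.Agent.PLap.Defs

/-!
Lam: elementary properties of `lam` on general spaces.

The set in the definition is bounded below by 0, so lam >= 0 (also if it is empty, sInf = 0) and
lam <= quotient of every nonzero test function. lam_mul_le: if int|u|^p = 0 the left side is 0.
le_lam: a nonempty open set carries a nonzero test function (`exists_contDiff_tsupport_subset` or ContDiffBump), and
int |u|^p > 0 for nonzero continuous compactly supported u; then le_csInf.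
lam_anti: test functions of Om are test functions of Om'.
-/

set_option autoImplicit false

open MeasureTheory Set Filter Topology
open scoped ENNReal NNReal ContDiff RealInnerProductSpace

namespace Pool.Agent.PLap

private theorem quot_nonneg {F : Type*} [NormedAddCommGroup F] [NormedSpace ℝ F] [MeasureSpace F]
    (p : ℝ) (Om : Set F) : ∀ t ∈ {t : ℝ | ∃ u : F → ℝ, IsTest Om u ∧ u ≠ 0 ∧
    t = (∫ x, ‖fderiv ℝ u x‖ ^ p) / ∫ x, |u x| ^ p}, 0 ≤ t := by
  rintro t ⟨u, -, -, rfl⟩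
  apply div_nonneg
  · exact integral_nonneg fun x => Real.rpow_nonneg (norm_nonneg _) _
  · exact integral_nonneg fun x => Real.rpow_nonneg (abs_nonneg _) _

private theorem quot_bdd {F : Type*} [NormedAddCommGroup F] [NormedSpace ℝ F] [MeasureSpace F]
    (p : ℝ) (Om : Set F) : BddBelow {t : ℝ | ∃ u : F → ℝ, IsTest Om u ∧ u ≠ 0 ∧
    t = (∫ x, ‖fderiv ℝ u x‖ ^ p) / ∫ x, |u x| ^ p} :=
  ⟨0, fun t ht => quot_nonneg p Om t ht⟩

theorem lam_nonneg {F : Type*} [NormedAddCommGroup F] [NormedSpace ℝ F] [MeasureSpace F]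
    (p : ℝ) (Om : Set F) : 0 ≤ lam p Om :=
  Real.sInf_nonneg (quot_nonneg p Om)

theorem lam_mul_le {F : Type*} [NormedAddCommGroup F] [NormedSpace ℝ F] [MeasureSpace F]
    {p : ℝ} (hp : 1 < p) {Om : Set F} {u : F → ℝ} (hu : IsTest Om u) :
    lam p Om * ∫ x, |u x| ^ p ≤ ∫ x, ‖fderiv ℝ u x‖ ^ p := by
  have hN : 0 ≤ ∫ x, ‖fderiv ℝ u x‖ ^ p :=
    integral_nonneg fun x => Real.rpow_nonneg (norm_nonneg _) _
  have hD : 0 ≤ ∫ x, |u x| ^ p := integral_nonneg fun x => Real.rpow_nonneg (abs_nonneg _) _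
  rcases eq_or_lt_of_le hD with h | h
  · rw [← h, mul_zero]
    exact hN
  · have h0 : u ≠ 0 := by
      rintro rfl
      have : ∫ x : F, |(0 : F → ℝ) x| ^ p = 0 := by
        have h1 : ∀ x : F, |(0 : F → ℝ) x| ^ p = 0 := by
          intro x
          rw [Pi.zero_apply, abs_zero, Real.zero_rpow (by linarith)]
        simp only [h1, integral_zero]
      rw [this] at h
      exact lt_irrefl 0 h
    have h1 : lam p Om ≤ (∫ x, ‖fderiv ℝ u x‖ ^ p) / ∫ x, |u x| ^ p :=
      csInf_le (quot_bdd p Om) ⟨u, hu, h0, rfl⟩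
    rwa [le_div_iff₀ h] at h1

theorem exists_test {F : Type*} [NormedAddCommGroup F] [InnerProductSpace ℝ F]
    [FiniteDimensional ℝ F] [MeasureSpace F] {Om : Set F}
    (ho : IsOpen Om) (hne : Om.Nonempty) : ∃ u : F → ℝ, IsTest Om u ∧ u ≠ 0 := by
  obtain ⟨x, hx⟩ := hne
  obtain ⟨f, h1, h2, h3, -, h5⟩ := exists_contDiff_tsupport_subset (n := (⊤ : ℕ∞)) (ho.mem_nhds hx)
  refine ⟨f, ⟨h3, h2, h1⟩, ?_⟩
  rintro rfl
  simp at h5

theorem test_pos {F : Type*} [NormedAddCommGroup F] [InnerProductSpace ℝ F]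
    [FiniteDimensional ℝ F] [MeasureSpace F] [BorelSpace F] [(volume : Measure F).IsAddHaarMeasure]
    {p : ℝ} (hp : 1 < p) {Om : Set F} {u : F → ℝ} (hu : IsTest Om u) (h0 : u ≠ 0) :
    0 < ∫ x, |u x| ^ p := by
  obtain ⟨x, hx⟩ := Function.ne_iff.1 h0
  have hc : Continuous fun x => |u x| ^ p :=
    (hu.1.continuous.abs).rpow_const fun x => Or.inr (by linarith)
  have hs : HasCompactSupport fun x => |u x| ^ p :=
    hu.2.1.comp_left (g := fun t : ℝ => |t| ^ p) (by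
      show |(0 : ℝ)| ^ p = 0
      rw [abs_zero, Real.zero_rpow (by linarith)])
  refine hc.integral_pos_of_hasCompactSupport_nonneg_nonzero hs
    (fun x => Real.rpow_nonneg (abs_nonneg _) _) (x := x) ?_
  have h1 : 0 < |u x| := abs_pos.2 hx
  exact (Real.rpow_pos_of_pos h1 p).ne'

theorem le_lam {F : Type*} [NormedAddCommGroup F] [InnerProductSpace ℝ F]
    [FiniteDimensional ℝ F] [MeasureSpace F] [BorelSpace F] [(volume : Measure F).IsAddHaarMeasure]
    {p s : ℝ} (hp : 1 < p) {Om : Set F} (ho : IsOpen Om) (hne : Om.Nonempty)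
    (h : ∀ u, IsTest Om u → s * ∫ x, |u x| ^ p ≤ ∫ x, ‖fderiv ℝ u x‖ ^ p) : s ≤ lam p Om := by
  obtain ⟨u, hu, hu0⟩ := exists_test ho hne
  refine le_csInf ⟨_, u, hu, hu0, rfl⟩ ?_
  rintro t ⟨v, hv, hv0, rfl⟩
  rw [le_div_iff₀ (test_pos hp hv hv0)]
  exact h v hv

theorem lam_anti {F : Type*} [NormedAddCommGroup F] [InnerProductSpace ℝ F]
    [FiniteDimensional ℝ F] [MeasureSpace F] [BorelSpace F] [(volume : Measure F).IsAddHaarMeasure]
    {p : ℝ} (hp : 1 < p) {Om Om' : Set F} (ho : IsOpen Om) (hne : Om.Nonempty) (h : Om ⊆ Om') :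
    lam p Om' ≤ lam p Om := by
  obtain ⟨u, hu, hu0⟩ := exists_test ho hne
  refine csInf_le_csInf (quot_bdd p Om') ⟨_, u, hu, hu0, rfl⟩ ?_
  rintro t ⟨v, hv, hv0, rfl⟩
  exact ⟨v, ⟨hv.1, hv.2.1, hv.2.2.trans h⟩, hv0, rfl⟩

end Pool.Agent.PLap
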