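import Pool.Agent.PLap.Lam

/-!
LamE: behaviour of `lam` in the plane under dilations, translations and linear isometries.

If u is a test function of Om then x -> u(t^{-1} x) is one of t Om, the integral of |u|^p is multiplied by t^2 and
that of |fderiv|^p by t^2 t^{-p}; this is a bijection between the test functions, so the sets of quotients correspond.
Translations and linear isometries preserve everything.
-/

set_option autoImplicit false

open MeasureTheory Set Filter Topology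
open scoped ENNReal NNReal ContDiff RealInnerProductSpace

namespace Pool.Agent.PLap

open scoped Pointwise

/-- change of variables by a smooth homeomorphism -/
private theorem lam_preimage {p c : ℝ} (hc : 0 ≤ c) (psi : E ≃ₜ E) (h1 : ContDiff ℝ ∞ psi)
    (h2 : ContDiff ℝ ∞ psi.symm) (Om : Set E)
    (hQ : ∀ u : E → ℝ, (∫ x, ‖fderiv ℝ (u ∘ psi) x‖ ^ p) / (∫ x, |(u ∘ psi) x| ^ p) =
      c * ((∫ x, ‖fderiv ℝ u x‖ ^ p) / ∫ x, |u x| ^ p)) :
    lam p (psi ⁻¹' Om) = c * lam p Om := by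
  have key : {t : ℝ | ∃ u : E → ℝ, IsTest (psi ⁻¹' Om) u ∧ u ≠ 0 ∧
      t = (∫ x, ‖fderiv ℝ u x‖ ^ p) / ∫ x, |u x| ^ p} =
      c • {t : ℝ | ∃ u : E → ℝ, IsTest Om u ∧ u ≠ 0 ∧
      t = (∫ x, ‖fderiv ℝ u x‖ ^ p) / ∫ x, |u x| ^ p} := by
    ext t
    rw [Set.mem_smul_set]
    constructor
    · rintro ⟨v, ⟨hv1, hv2, hv3⟩, hv0, rfl⟩
      have hvv : (v ∘ psi.symm) ∘ psi = v := by
        funext x
        simp only [Function.comp_apply, Homeomorph.symm_apply_apply]
      refine ⟨(∫ x, ‖fderiv ℝ (v ∘ psi.symm) x‖ ^ p) / ∫ x, |(v ∘ psi.symm) x| ^ p,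
        ⟨v ∘ psi.symm, ⟨hv1.comp h2, hv2.comp_homeomorph psi.symm, ?_⟩, ?_, rfl⟩, ?_⟩
      · rw [tsupport_comp_eq_preimage]
        intro x hx
        have := hv3 hx
        rw [mem_preimage, Homeomorph.apply_symm_apply] at this
        exact this
      · intro h0
        apply hv0
        rw [← hvv, h0]
        rfl
      · rw [smul_eq_mul, ← hQ, hvv]
    · rintro ⟨s, ⟨u, ⟨hu1, hu2, hu3⟩, hu0, rfl⟩, rfl⟩
      refine ⟨u ∘ psi, ⟨hu1.comp h1, hu2.comp_homeomorph psi, ?_⟩, ?_, ?_⟩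
      · rw [tsupport_comp_eq_preimage]
        exact preimage_mono hu3
      · intro h0
        apply hu0
        have huu : (u ∘ psi) ∘ psi.symm = u := by
          funext x
          simp only [Function.comp_apply, Homeomorph.apply_symm_apply]
        rw [← huu, h0]
        rfl
      · rw [smul_eq_mul, ← hQ]
  unfold lam
  rw [key, Real.sInf_smul_of_nonneg hc, smul_eq_mul]

theorem lam_smul {p t : ℝ} (hp : 1 < p) (ht : 0 < t) (Om : Set E) :
    lam p (t • Om) = t ^ (-p) * lam p Om := by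
  have ht0 : t ≠ 0 := ht.ne'
  have hti : t⁻¹ ≠ 0 := inv_ne_zero ht0
  have hset : t • Om = (Homeomorph.smulOfNeZero t⁻¹ hti : E ≃ₜ E) ⁻¹' Om := by
    ext x
    rw [Set.mem_smul_set_iff_inv_smul_mem₀ ht0, mem_preimage]
    rfl
  rw [hset]
  refine lam_preimage (Real.rpow_nonneg ht.le _) _ ?_ ?_ Om ?_
  · change ContDiff ℝ ∞ fun x : E => t⁻¹ • x
    exact contDiff_const_smul _
  · change ContDiff ℝ ∞ fun x : E => t⁻¹⁻¹ • x
    exact contDiff_const_smul _
  · intro u
    have e1 : ∀ x, ‖fderiv ℝ (u ∘ (Homeomorph.smulOfNeZero t⁻¹ hti : E ≃ₜ E)) x‖ ^ p =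
        t ^ (-p) * ‖fderiv ℝ u (t⁻¹ • x)‖ ^ p := by
      intro x
      have h3 : fderiv ℝ (u ∘ (Homeomorph.smulOfNeZero t⁻¹ hti : E ≃ₜ E)) x =
          t⁻¹ • fderiv ℝ u (t⁻¹ • x) := fderiv_comp_smul (f := u) (x := x) t⁻¹
      rw [h3, norm_smul, Real.norm_of_nonneg (inv_nonneg.mpr ht.le),
        Real.mul_rpow (inv_nonneg.mpr ht.le) (norm_nonneg _), Real.rpow_neg ht.le,
        Real.inv_rpow ht.le]
    have e2 : ∀ x, |(u ∘ (Homeomorph.smulOfNeZero t⁻¹ hti : E ≃ₜ E)) x| ^ p =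
        |u (t⁻¹ • x)| ^ p := fun x => rfl
    have i1 := Measure.integral_comp_inv_smul (volume : Measure E) (fun y => ‖fderiv ℝ u y‖ ^ p) t
    have i2 := Measure.integral_comp_inv_smul (volume : Measure E) (fun y => |u y| ^ p) t
    rw [integral_congr_ae (Eventually.of_forall e1), integral_congr_ae (Eventually.of_forall e2),
      integral_const_mul, i1, i2]
    simp only [smul_eq_mul]
    have hpos : |t ^ Module.finrank ℝ E| ≠ 0 := abs_ne_zero.mpr (pow_ne_zero _ ht0)
    rw [mul_left_comm, mul_div_mul_left _ _ hpos, mul_div_assoc]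

theorem lam_vadd {p : ℝ} (c : E) (Om : Set E) : lam p (c +ᵥ Om) = lam p Om := by
  have hset : c +ᵥ Om = (Homeomorph.addRight (-c) : E ≃ₜ E) ⁻¹' Om := by
    ext x
    rw [Set.mem_vadd_set_iff_neg_vadd_mem, mem_preimage]
    change -c + x ∈ Om ↔ x + -c ∈ Om
    rw [add_comm]
  rw [hset]
  have h := lam_preimage (p := p) zero_le_one (Homeomorph.addRight (-c) : E ≃ₜ E) ?_ ?_ Om ?_
  · rw [h, one_mul]
  · change ContDiff ℝ ∞ fun x : E => x + -c
    exact contDiff_id.add contDiff_const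
  · change ContDiff ℝ ∞ fun x : E => x + -(-c)
    exact contDiff_id.add contDiff_const
  · intro u
    have e1 : ∀ x, ‖fderiv ℝ (u ∘ (Homeomorph.addRight (-c) : E ≃ₜ E)) x‖ ^ p =
        ‖fderiv ℝ u (x + -c)‖ ^ p := by
      intro x
      have h3 : fderiv ℝ (u ∘ (Homeomorph.addRight (-c) : E ≃ₜ E)) x =
          fderiv ℝ u (x + -c) := fderiv_comp_add_right (f := u) (x := x) (-c)
      rw [h3]
    have e2 : ∀ x, |(u ∘ (Homeomorph.addRight (-c) : E ≃ₜ E)) x| ^ p =
        |u (x + -c)| ^ p := fun x => rfl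
    have i1 := integral_add_right_eq_self (μ := (volume : Measure E))
      (fun y => ‖fderiv ℝ u y‖ ^ p) (-c)
    have i2 := integral_add_right_eq_self (μ := (volume : Measure E)) (fun y => |u y| ^ p) (-c)
    rw [integral_congr_ae (Eventually.of_forall e1), integral_congr_ae (Eventually.of_forall e2),
      i1, i2, one_mul]

theorem lam_isometry {p : ℝ} (f : E ≃ₗᵢ[ℝ] E) (Om : Set E) : lam p (f '' Om) = lam p Om := by
  have hset : f '' Om = (f.symm.toHomeomorph : E ≃ₜ E) ⁻¹' Om := by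
    ext x
    rw [mem_preimage, mem_image]
    constructor
    · rintro ⟨y, hy, rfl⟩
      change f.symm (f y) ∈ Om
      rw [f.symm_apply_apply]
      exact hy
    · intro hx
      exact ⟨f.symm x, hx, f.apply_symm_apply x⟩
  rw [hset]
  have h := lam_preimage (p := p) zero_le_one (f.symm.toHomeomorph : E ≃ₜ E) ?_ ?_ Om ?_
  · rw [h, one_mul]
  · exact f.symm.contDiff
  · exact f.contDiff
  · intro u
    have e1 : ∀ x, ‖fderiv ℝ (u ∘ (f.symm.toHomeomorph : E ≃ₜ E)) x‖ ^ p =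
        ‖fderiv ℝ u (f.symm x)‖ ^ p := by
      intro x
      have h3 : fderiv ℝ (u ∘ (f.symm.toHomeomorph : E ≃ₜ E)) x =
          (fderiv ℝ u (f.symm x)).comp (f.symm.toContinuousLinearEquiv : E →L[ℝ] E) :=
        f.symm.toContinuousLinearEquiv.comp_right_fderiv (f := u) (x := x)
      rw [h3]
      congr 1
      exact ContinuousLinearMap.opNorm_comp_linearIsometryEquiv (fderiv ℝ u (f.symm x)) f.symm
    have e2 : ∀ x, |(u ∘ (f.symm.toHomeomorph : E ≃ₜ E)) x| ^ p =
        |u (f.symm x)| ^ p := fun x => rfl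
    have hm := f.symm.measurePreserving
    have hme := f.symm.toHomeomorph.measurableEmbedding
    have i1 := hm.integral_comp hme (fun y => ‖fderiv ℝ u y‖ ^ p)
    have i2 := hm.integral_comp hme (fun y => |u y| ^ p)
    rw [integral_congr_ae (Eventually.of_forall e1), integral_congr_ae (Eventually.of_forall e2),
      i1, i2, one_mul]

theorem RR_smul {p q t : ℝ} (hq : 1 < q) (hp : 1 < p) (ht : 0 < t) (Om : Set E) :
    RR p q (t • Om) = RR p q Om := by
  unfold RR
  rw [lam_smul hp ht, lam_smul hq ht]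
  have e : ∀ r : ℝ, 1 < r → (t ^ (-r) * lam r Om) ^ (1 / r) = t⁻¹ * lam r Om ^ (1 / r) := by
    intro r hr
    have hr0 : r ≠ 0 := by linarith
    rw [Real.mul_rpow (Real.rpow_nonneg ht.le _) (lam_nonneg _ _), ← Real.rpow_mul ht.le]
    have h3 : -r * (1 / r) = -1 := by field_simp
    rw [h3, Real.rpow_neg_one]
  rw [e p hp, e q hq, mul_div_mul_left _ _ (inv_ne_zero ht.ne')]

theorem RR_vadd {p q : ℝ} (c : E) (Om : Set E) : RR p q (c +ᵥ Om) = RR p q Om := by
  unfold RR
  rw [lam_vadd, lam_vadd]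

theorem RR_isometry {p q : ℝ} (f : E ≃ₗᵢ[ℝ] E) (Om : Set E) : RR p q (f '' Om) = RR p q Om := by
  unfold RR
  rw [lam_isometry, lam_isometry]

end Pool.Agent.PLap
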