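import Pool.Agent.PLap.DivF
import Pool.Agent.PLap.El

/-!
LocLip: the modified field is locally Lipschitz on P for a C^{1,1} function w.

X1(v) = kk(|v|) v is C^1 on the plane: for v != 0 the derivative is kk(|v|) id + kd(|v|) |v| (v/|v|)(x)(v/|v|), at v = 0 it is kk(0) id (|kk(|v|) v - kk(0) v| = o(|v|)),
and it is continuous at 0 because kk is continuous at 0 and r kd(r) -> 0. So X1 is locally Lipschitz, and so is X1 o VV o grad w (VV_grad_locLip).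
The second part is Y(z, grad w z) with Y(z,y) = et(|y|)(|y| z - (<z,y>/|y|) y), C^1 on E x E because et vanishes for |y| <= d0 (d0 > 0) and everything is smooth for y != 0.
z -> (z, grad w z) is locally Lipschitz on P.
-/

set_option autoImplicit false

open MeasureTheory Set Filter Topology
open scoped ENNReal NNReal ContDiff RealInnerProductSpace

namespace Pool.Agent.PLap

private theorem ll_comp {F G : Type*} [PseudoEMetricSpace F] [PseudoEMetricSpace G]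
    {P : Set E} {f : E → F} {g : F → G} (hf : LocallyLipschitzOn P f) (hg : LocallyLipschitz g) :
    LocallyLipschitzOn P (fun x => g (f x)) := by
  intro x hx
  obtain ⟨C, t, ht, hC⟩ := hf hx
  obtain ⟨C', t', ht', hC'⟩ := hg (f x)
  refine ⟨C' * C, t ∩ f ⁻¹' t', inter_mem ht
    ((hf.continuousOn x hx).preimage_mem_nhdsWithin ht'), ?_⟩
  exact hC'.comp (hC.mono inter_subset_left) (fun y hy => hy.2)

private theorem ll_pair {F : Type*} [PseudoEMetricSpace F]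
    {P : Set E} {f : E → F} (hf : LocallyLipschitzOn P f) :
    LocallyLipschitzOn P (fun x => (x, f x)) := by
  intro x hx
  obtain ⟨C, t, ht, hC⟩ := hf hx
  refine ⟨max 1 C, t, ht, ?_⟩
  intro y hy z hz
  have h1 := hC hy hz
  rw [Prod.edist_eq]
  refine max_le ?_ ?_
  · calc edist y z = (1 : ℝ≥0) * edist y z := by simp
      _ ≤ _ := by gcongr; exact_mod_cast le_max_left _ _
  · refine h1.trans ?_
    gcongr
    exact le_max_right _ _

private theorem ll_kd_bound {kd : ℝ → ℝ}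
    (hkdc : ContinuousOn kd (Ioi 0)) (hkd0 : Tendsto (fun r => r * kd r) (𝓝[>] 0) (𝓝 0)) (R : ℝ) :
    ∃ C : ℝ, 0 ≤ C ∧ ∀ r, 0 < r → r ≤ R → |kd r| * r ≤ C := by
  have h1 : ∀ᶠ r : ℝ in 𝓝[>] 0, |r * kd r| < 1 := by
    have := hkd0.eventually (Metric.ball_mem_nhds (0 : ℝ) one_pos)
    filter_upwards [this] with r hr
    simpa using hr
  obtain ⟨e, he, he1⟩ := mem_nhdsGT_iff_exists_Ioo_subset.1 h1
  have he' : (0 : ℝ) < e := he
  obtain ⟨C2, hC2⟩ := (isCompact_Icc (a := e / 2) (b := R)).exists_bound_of_continuousOn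
    (f := fun r => r * kd r)
    (continuousOn_id.mul (hkdc.mono fun r hr => lt_of_lt_of_le (by positivity) hr.1))
  refine ⟨max 1 C2, zero_le_one.trans (le_max_left _ _), fun r hr hrR => ?_⟩
  have h2 : |kd r| * r = |r * kd r| := by rw [abs_mul, abs_of_pos hr, mul_comm]
  rw [h2]
  by_cases hre : r < e
  · exact (he1 ⟨hr, hre⟩).le.trans (le_max_left _ _)
  · exact (hC2 r ⟨by linarith, hrR⟩).trans (le_max_right _ _)

private theorem ll_X1_aux {kk kd : ℝ → ℝ} (hkd : ∀ r, 0 < r → HasDerivAt kk (kd r) r)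
    {R C1 C2 : ℝ} (hC20 : 0 ≤ C2) (hC1 : ∀ r, 0 ≤ r → r ≤ R → |kk r| ≤ C1)
    (hC2 : ∀ r, 0 < r → r ≤ R → |kd r| * r ≤ C2) {u v : E} (huv : ‖u‖ ≤ ‖v‖) (hv : ‖v‖ ≤ R) :
    ‖kk ‖v‖ • v - kk ‖u‖ • u‖ ≤ (C1 + C2) * ‖v - u‖ := by
  have h1 : kk ‖v‖ • v - kk ‖u‖ • u = kk ‖v‖ • (v - u) + (kk ‖v‖ - kk ‖u‖) • u := by
    rw [smul_sub, sub_smul]; abel
  have h2 : ‖kk ‖v‖ • (v - u)‖ ≤ C1 * ‖v - u‖ := by
    rw [norm_smul, Real.norm_eq_abs]
    exact mul_le_mul_of_nonneg_right (hC1 _ (norm_nonneg _) hv) (norm_nonneg _)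
  have h3 : ‖(kk ‖v‖ - kk ‖u‖) • u‖ ≤ C2 * ‖v - u‖ := by
    rw [norm_smul, Real.norm_eq_abs]
    rcases eq_or_lt_of_le huv with heq | hlt
    · rw [heq, sub_self, abs_zero, zero_mul]
      positivity
    rcases eq_or_lt_of_le (norm_nonneg u) with h0 | h0
    · rw [← h0, mul_zero]
      positivity
    · obtain ⟨xi, hxi, hsl⟩ := exists_hasDerivAt_eq_slope kk kd hlt
        (fun r hr => (hkd r (h0.trans_le hr.1)).continuousAt.continuousWithinAt)
        (fun r hr => hkd r (h0.trans hr.1))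
      have hd : 0 < ‖v‖ - ‖u‖ := sub_pos.2 hlt
      have h4 : kk ‖v‖ - kk ‖u‖ = kd xi * (‖v‖ - ‖u‖) := by
        rw [hsl]; field_simp
      rw [h4, abs_mul, abs_of_pos hd]
      have h5 : ‖v‖ - ‖u‖ ≤ ‖v - u‖ := norm_sub_norm_le v u
      have h6 := hC2 xi (h0.trans hxi.1) (hxi.2.le.trans hv)
      calc |kd xi| * (‖v‖ - ‖u‖) * ‖u‖ ≤ |kd xi| * (‖v‖ - ‖u‖) * xi := by
            gcongr
            exact hxi.1.le
        _ = (|kd xi| * xi) * (‖v‖ - ‖u‖) := by ring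
        _ ≤ C2 * ‖v - u‖ := mul_le_mul h6 h5 hd.le hC20
  rw [h1]
  calc _ ≤ ‖kk ‖v‖ • (v - u)‖ + ‖(kk ‖v‖ - kk ‖u‖) • u‖ := norm_add_le _ _
    _ ≤ _ := by linarith

private theorem ll_X1 {kk kd : ℝ → ℝ} (hkk : ContinuousOn kk (Ici 0))
    (hkd : ∀ r, 0 < r → HasDerivAt kk (kd r) r)
    (hkdc : ContinuousOn kd (Ioi 0)) (hkd0 : Tendsto (fun r => r * kd r) (𝓝[>] 0) (𝓝 0)) :
    LocallyLipschitz (fun v : E => kk ‖v‖ • v) := by
  intro x
  obtain ⟨C1, hC1⟩ := (isCompact_Icc (a := (0 : ℝ)) (b := ‖x‖ + 1)).exists_bound_of_continuousOn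
    (hkk.mono Icc_subset_Ici_self)
  obtain ⟨C2, hC20, hC2⟩ := ll_kd_bound hkdc hkd0 (‖x‖ + 1)
  have hC10 : 0 ≤ C1 := (norm_nonneg _).trans (hC1 0 ⟨le_rfl, by positivity⟩)
  have hC1' : ∀ r, 0 ≤ r → r ≤ ‖x‖ + 1 → |kk r| ≤ C1 := fun r h1 h2 => hC1 r ⟨h1, h2⟩
  refine ⟨Real.toNNReal (C1 + C2), Metric.ball x 1, Metric.ball_mem_nhds _ one_pos, ?_⟩
  refine LipschitzOnWith.of_dist_le_mul fun u hu v hv => ?_
  have hb : ∀ z ∈ Metric.ball x 1, ‖z‖ ≤ ‖x‖ + 1 := by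
    intro z hz
    rw [Metric.mem_ball, dist_eq_norm] at hz
    have := norm_le_norm_add_norm_sub x z
    rw [norm_sub_rev] at this
    linarith
  rw [Real.coe_toNNReal _ (by positivity)]
  rcases le_total ‖u‖ ‖v‖ with h | h
  · rw [dist_comm, dist_comm u v, dist_eq_norm, dist_eq_norm]
    exact ll_X1_aux hkd hC20 hC1' hC2 h (hb v hv)
  · rw [dist_eq_norm, dist_eq_norm]
    exact ll_X1_aux hkd hC20 hC1' hC2 h (hb u hu)

private theorem ll_Y {et : ℝ → ℝ} {d0 : ℝ} (hd0 : 0 < d0)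
    (het : ContDiff ℝ 1 et) (het0 : ∀ g, g ≤ d0 → et g = 0) :
    ContDiff ℝ 1 (fun q : E × E => et ‖q.2‖ • (‖q.2‖ • q.1 - (⟪q.1, q.2⟫ / ‖q.2‖) • q.2)) := by
  rw [contDiff_iff_contDiffAt]
  intro q
  by_cases hq : q.2 = 0
  · have h1 : (fun q : E × E => et ‖q.2‖ • (‖q.2‖ • q.1 - (⟪q.1, q.2⟫ / ‖q.2‖) • q.2)) =ᶠ[𝓝 q]
        fun _ => (0 : E) := by
      have h2 : ∀ᶠ z : E × E in 𝓝 q, ‖z.2‖ < d0 := by
        have hc : ContinuousAt (fun z : E × E => ‖z.2‖) q := by fun_prop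
        refine hc.eventually_lt continuousAt_const ?_
        simpa [hq] using hd0
      filter_upwards [h2] with z hz
      rw [het0 _ hz.le, zero_smul]
    exact contDiffAt_const.congr_of_eventuallyEq h1
  · have hn : ContDiffAt ℝ 1 (fun q : E × E => ‖q.2‖) q := contDiffAt_snd.norm ℝ hq
    have hi : ContDiffAt ℝ 1 (fun q : E × E => ⟪q.1, q.2⟫) q := contDiffAt_fst.inner ℝ contDiffAt_snd
    have he : ContDiffAt ℝ 1 (fun q : E × E => et ‖q.2‖) q := het.contDiffAt.comp q hn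
    exact he.smul ((hn.smul contDiffAt_fst).sub
      ((hi.div hn (norm_ne_zero_iff.2 hq)).smul contDiffAt_snd))

theorem Fld_locLip {p del : ℝ} (hdel : 0 < del) {P : Set E} (ho : IsOpen P) {w : E → ℝ}
    (hC : C11 P w) {kk kd et : ℝ → ℝ} {d0 : ℝ} (hd0 : 0 < d0)
    (hkk : ContinuousOn kk (Ici 0)) (hkd : ∀ r, 0 < r → HasDerivAt kk (kd r) r)
    (hkdc : ContinuousOn kd (Ioi 0)) (hkd0 : Tendsto (fun r => r * kd r) (𝓝[>] 0) (𝓝 0))
    (het : ContDiff ℝ 1 et) (het0 : ∀ g, g ≤ d0 → et g = 0) :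
    LocallyLipschitzOn P (Fld p del kk et w) := by
  have h1 : LocallyLipschitzOn P (fun z => kk ‖VV p del (gradient w z)‖ • VV p del (gradient w z)) :=
    ll_comp (f := fun z => VV p del (gradient w z)) (g := fun v : E => kk ‖v‖ • v)
      (VV_grad_locLip hdel ho hC) (ll_X1 hkk hkd hkdc hkd0)
  have h2 : LocallyLipschitzOn P (fun z => et ‖gradient w z‖ • (‖gradient w z‖ • z -
      (⟪z, gradient w z⟫ / ‖gradient w z‖) • gradient w z)) :=
    ll_comp (f := fun z => (z, gradient w z))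
      (g := fun q : E × E => et ‖q.2‖ • (‖q.2‖ • q.1 - (⟪q.1, q.2⟫ / ‖q.2‖) • q.2))
      (ll_pair hC.lip) (ll_Y hd0 het het0).locallyLipschitz
  exact h1.add h2

end Pool.Agent.PLap
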