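import Pool.Agent.PLap.Coord
import Pool.Agent.PLap.Interval
import Pool.Agent.PLap.Chord

/-!
Rect: upper bound of `lam` for a rectangle by product test functions.
-/

set_option autoImplicit false

open MeasureTheory Set Filter Topology
open scoped ENNReal NNReal ContDiff RealInnerProductSpace

namespace Pool.Agent.PLap

/-- weighted convexity inequality replacing Minkowski -/
theorem add_rpow_le_weighted {p θ α β : ℝ} (hp : 1 < p) (h0 : 0 < θ) (h1 : θ < 1) (hα : 0 ≤ α)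
    (hβ : 0 ≤ β) : (α + β) ^ p ≤ θ ^ (1 - p) * α ^ p + (1 - θ) ^ (1 - p) * β ^ p := by
  have h1' : 0 < 1 - θ := by linarith
  have hc := (convexOn_rpow hp.le).2 (x := α / θ) (y := β / (1 - θ))
    (show α / θ ∈ Ici 0 from div_nonneg hα h0.le) (show β / (1 - θ) ∈ Ici 0 from div_nonneg hβ h1'.le)
    h0.le h1'.le (by ring)
  simp only [smul_eq_mul] at hc
  rw [mul_div_cancel₀ _ h0.ne', mul_div_cancel₀ _ h1'.ne', Real.div_rpow hα h0.le,
    Real.div_rpow hβ h1'.le] at hc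
  rw [Real.rpow_sub h0, Real.rpow_sub h1', Real.rpow_one, Real.rpow_one]
  calc (α + β) ^ p ≤ θ * (α ^ p / θ ^ p) + (1 - θ) * (β ^ p / (1 - θ) ^ p) := hc
    _ = θ / θ ^ p * α ^ p + (1 - θ) / (1 - θ) ^ p * β ^ p := by ring

theorem norm_proj_le (i : Fin 2) : ‖(EuclideanSpace.proj i : E →L[ℝ] ℝ)‖ ≤ 1 := by
  apply ContinuousLinearMap.opNorm_le_bound _ zero_le_one
  intro x
  rw [one_mul]
  exact PiLp.norm_apply_le x i

theorem fderiv_prod_bound {f g : ℝ → ℝ} (hf : ContDiff ℝ ∞ f) (hg : ContDiff ℝ ∞ g) (x : E) :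
    ‖fderiv ℝ (fun x : E => f (x 0) * g (x 1)) x‖
      ≤ |deriv f (x 0)| * |g (x 1)| + |f (x 0)| * |deriv g (x 1)| := by
  have h0 : HasFDerivAt (fun x : E => x 0) (EuclideanSpace.proj 0 : E →L[ℝ] ℝ) x :=
    (EuclideanSpace.proj 0 : E →L[ℝ] ℝ).hasFDerivAt
  have h1 : HasFDerivAt (fun x : E => x 1) (EuclideanSpace.proj 1 : E →L[ℝ] ℝ) x :=
    (EuclideanSpace.proj 1 : E →L[ℝ] ℝ).hasFDerivAt
  have hf1 : HasDerivAt f (deriv f (x 0)) (x 0) :=
    (hf.differentiable (by simp)).differentiableAt.hasDerivAt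
  have hg1 : HasDerivAt g (deriv g (x 1)) (x 1) :=
    (hg.differentiable (by simp)).differentiableAt.hasDerivAt
  have h2 : HasFDerivAt (fun x : E => f (x 0))
      (deriv f (x 0) • (EuclideanSpace.proj 0 : E →L[ℝ] ℝ)) x := hf1.comp_hasFDerivAt x h0
  have h3 : HasFDerivAt (fun x : E => g (x 1))
      (deriv g (x 1) • (EuclideanSpace.proj 1 : E →L[ℝ] ℝ)) x := hg1.comp_hasFDerivAt x h1
  have h4 := h2.mul h3
  have h5 : fderiv ℝ (fun x : E => f (x 0) * g (x 1)) x = _ := h4.fderiv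
  rw [h5]
  refine (norm_add_le _ _).trans ?_
  rw [norm_smul, norm_smul, norm_smul, norm_smul]
  have e0 := norm_proj_le 0
  have e1 := norm_proj_le 1
  simp only [Real.norm_eq_abs]
  have a1 : |f (x 0)| * (|deriv g (x 1)| * ‖(EuclideanSpace.proj 1 : E →L[ℝ] ℝ)‖)
      ≤ |f (x 0)| * |deriv g (x 1)| :=
    mul_le_mul_of_nonneg_left (mul_le_of_le_one_right (abs_nonneg _) e1) (abs_nonneg _)
  have a2 : |g (x 1)| * (|deriv f (x 0)| * ‖(EuclideanSpace.proj 0 : E →L[ℝ] ℝ)‖)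
      ≤ |g (x 1)| * |deriv f (x 0)| :=
    mul_le_mul_of_nonneg_left (mul_le_of_le_one_right (abs_nonneg _) e0) (abs_nonneg _)
  have a3 : |g (x 1)| * |deriv f (x 0)| = |deriv f (x 0)| * |g (x 1)| := mul_comm _ _
  linarith

theorem isTest_prod {f g : ℝ → ℝ} {I J : Set ℝ} (hf : IsTest I f) (hg : IsTest J g) :
    IsTest {x : E | x 0 ∈ I ∧ x 1 ∈ J} (fun x : E => f (x 0) * g (x 1)) := by
  have hK : IsCompact ((fun z : ℝ × ℝ => pl z.1 z.2) '' (tsupport f ×ˢ tsupport g)) :=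
    (hf.2.1.isCompact.prod hg.2.1.isCompact).image continuous_pl
  have hsub : tsupport (fun x : E => f (x 0) * g (x 1))
      ⊆ (fun z : ℝ × ℝ => pl z.1 z.2) '' (tsupport f ×ˢ tsupport g) := by
    apply closure_minimal _ hK.isClosed
    intro x hx
    have hx' : f (x 0) * g (x 1) ≠ 0 := hx
    exact ⟨(x 0, x 1), ⟨subset_tsupport f (left_ne_zero_of_mul hx'),
      subset_tsupport g (right_ne_zero_of_mul hx')⟩, pl_eta x⟩
  refine ⟨?_, hK.of_isClosed_subset (isClosed_tsupport _) hsub, ?_⟩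
  · exact (hf.1.comp (EuclideanSpace.proj 0 : E →L[ℝ] ℝ).contDiff).mul
      (hg.1.comp (EuclideanSpace.proj 1 : E →L[ℝ] ℝ).contDiff)
  · refine hsub.trans ?_
    rintro _ ⟨z, ⟨h1, h2⟩, rfl⟩
    exact ⟨hf.2.2 h1, hg.2.2 h2⟩

theorem integrable_comp_rpow {f : ℝ → ℝ} (hf : Continuous f) (hc : HasCompactSupport f) {p : ℝ}
    (hp : 0 < p) : Integrable (fun t => |f t| ^ p) := by
  apply ((hf.abs).rpow_const (fun _ => Or.inr hp.le)).integrable_of_hasCompactSupport
  apply HasCompactSupport.intro hc.isCompact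
  intro x hx
  have : f x = 0 := by
    by_contra h; exact hx (subset_tsupport f h)
  rw [this, abs_zero, Real.zero_rpow hp.ne']

theorem integral_prod_rpow {f g : ℝ → ℝ} (hf : Continuous f) (hfc : HasCompactSupport f)
    (hg : Continuous g) (hgc : HasCompactSupport g) {p : ℝ} (hp : 0 < p) :
    Integrable (fun x : E => (|f (x 0)| * |g (x 1)|) ^ p) ∧
    ∫ x : E, (|f (x 0)| * |g (x 1)|) ^ p = (∫ s, |f s| ^ p) * ∫ t, |g t| ^ p := by
  have h1 := integrable_comp_rpow hf hfc hp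
  have h2 := integrable_comp_rpow hg hgc hp
  have hint : Integrable (fun x : E => (|f (x 0)| * |g (x 1)|) ^ p) := by
    rw [← integrable_pl_iff]
    have h3 := h1.mul_prod h2
    refine h3.congr (Eventually.of_forall fun z => ?_)
    simp only [pl_zero', pl_one']
    rw [Real.mul_rpow (abs_nonneg _) (abs_nonneg _)]
  refine ⟨hint, ?_⟩
  rw [integral_pl hint]
  simp only [pl_zero', pl_one']
  simp_rw [Real.mul_rpow (abs_nonneg _) (abs_nonneg _), integral_const_mul, integral_mul_const]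

theorem rect_bound {p : ℝ} (hp : 1 < p) (s0 t0 : ℝ) {a b : ℝ} (ha : 0 < a) (hb : 0 < b) :
    lam p {x : E | s0 < x 0 ∧ x 0 < s0 + a ∧ t0 < x 1 ∧ x 1 < t0 + b} ^ (1 / p)
      ≤ 2 * Tp p 1 * (1 / a + 1 / b) := by
  have hp0 : 0 < p := by linarith
  have hT := Tp_pos hp one_pos
  set R : Set E := {x : E | s0 < x 0 ∧ x 0 < s0 + a ∧ t0 < x 1 ∧ x 1 < t0 + b} with hR
  have hR' : {x : E | x 0 ∈ Ioo s0 (s0 + a) ∧ x 1 ∈ Ioo t0 (t0 + b)} = R := by
    ext x
    simp only [hR, Set.mem_ofPred_eq, mem_Ioo, and_assoc]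
  set X : ℝ := 2 * Tp p 1 / a with hX
  set Y : ℝ := 2 * Tp p 1 / b with hY
  have hX0 : 0 < X := by positivity
  have hY0 : 0 < Y := by positivity
  set θ : ℝ := X / (X + Y) with hθ
  have hθ0 : 0 < θ := by positivity
  have hθ1' : 1 - θ = Y / (X + Y) := by rw [hθ]; field_simp; ring
  have hθ1 : θ < 1 := by
    have : 0 < Y / (X + Y) := by positivity
    linarith
  have hmain : lam p R ≤ (X + Y) ^ p := by
    have hc : 0 < θ ^ (1 - p) + (1 - θ) ^ (1 - p) :=
      add_pos (Real.rpow_pos_of_pos hθ0 _) (Real.rpow_pos_of_pos (by linarith) _)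
    have key : ∀ ε : ℝ, 0 < ε → lam p R ≤ (X + Y) ^ p + ε * (θ ^ (1 - p) + (1 - θ) ^ (1 - p)) := by
      intro ε hε
      obtain ⟨f, f1, f2, f3, f4, f5⟩ := interval_upper hp (show s0 < s0 + a by linarith) hε
      obtain ⟨g, g1, g2, g3, g4, g5⟩ := interval_upper hp (show t0 < t0 + b by linarith) hε
      rw [add_sub_cancel_left] at f5 g5
      have hu := isTest_prod (I := Ioo s0 (s0 + a)) (J := Ioo t0 (t0 + b)) ⟨f1, f2, f3⟩ ⟨g1, g2, g3⟩
      rw [hR'] at hu
      have hf1c : Continuous (deriv f) := f1.continuous_deriv (by simp)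
      have hg1c : Continuous (deriv g) := g1.continuous_deriv (by simp)
      have hf1s : HasCompactSupport (deriv f) := f2.deriv
      have hg1s : HasCompactSupport (deriv g) := g2.deriv
      obtain ⟨i0, e0⟩ := integral_prod_rpow f1.continuous f2 g1.continuous g2 hp0
      obtain ⟨i1, e1⟩ := integral_prod_rpow hf1c hf1s g1.continuous g2 hp0
      obtain ⟨i2, e2⟩ := integral_prod_rpow f1.continuous f2 hg1c hg1s hp0
      have h1 := lam_mul_le hp hu
      have e0' : ∫ x : E, |f (x 0) * g (x 1)| ^ p = (∫ s, |f s| ^ p) * ∫ t, |g t| ^ p := by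
        simp_rw [abs_mul]; exact e0
      rw [e0'] at h1
      have h2 : ∫ x : E, ‖fderiv ℝ (fun x : E => f (x 0) * g (x 1)) x‖ ^ p ≤
          ∫ x : E, (θ ^ (1 - p) * (|deriv f (x 0)| * |g (x 1)|) ^ p
            + (1 - θ) ^ (1 - p) * (|f (x 0)| * |deriv g (x 1)|) ^ p) := by
        apply integral_mono_of_nonneg
        · exact Eventually.of_forall fun x => Real.rpow_nonneg (norm_nonneg _) _
        · exact (i1.const_mul _).add (i2.const_mul _)
        · refine Eventually.of_forall fun x => ?_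
          refine (Real.rpow_le_rpow (norm_nonneg _) (fderiv_prod_bound f1 g1 x) hp0.le).trans ?_
          exact add_rpow_le_weighted hp hθ0 hθ1 (by positivity) (by positivity)
      rw [integral_add (i1.const_mul _) (i2.const_mul _), integral_const_mul, integral_const_mul,
        e1, e2] at h2
      set N1 := ∫ s, |f s| ^ p with hN1
      set N2 := ∫ t, |g t| ^ p with hN2
      have hN : 0 < N1 * N2 := mul_pos f4 g4
      have h3 : (∫ s, |deriv f s| ^ p) * N2 ≤ (X ^ p + ε) * (N1 * N2) := by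
        calc (∫ s, |deriv f s| ^ p) * N2 ≤ ((X ^ p + ε) * N1) * N2 :=
              mul_le_mul_of_nonneg_right f5 g4.le
          _ = _ := by ring
      have h4 : N1 * (∫ t, |deriv g t| ^ p) ≤ (Y ^ p + ε) * (N1 * N2) := by
        calc N1 * (∫ t, |deriv g t| ^ p) ≤ N1 * ((Y ^ p + ε) * N2) :=
              mul_le_mul_of_nonneg_left g5 f4.le
          _ = _ := by ring
      have hθp : 0 < θ ^ (1 - p) := Real.rpow_pos_of_pos hθ0 _
      have hθp' : 0 < (1 - θ) ^ (1 - p) := Real.rpow_pos_of_pos (by linarith) _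
      have h5 : lam p R * (N1 * N2) ≤ (θ ^ (1 - p) * (X ^ p + ε)
          + (1 - θ) ^ (1 - p) * (Y ^ p + ε)) * (N1 * N2) := by
        have h6 := mul_le_mul_of_nonneg_left h3 hθp.le
        have h7 := mul_le_mul_of_nonneg_left h4 hθp'.le
        calc lam p R * (N1 * N2) ≤ _ := h1
          _ ≤ _ := h2
          _ ≤ θ ^ (1 - p) * ((X ^ p + ε) * (N1 * N2))
              + (1 - θ) ^ (1 - p) * ((Y ^ p + ε) * (N1 * N2)) := add_le_add h6 h7
          _ = _ := by ring
      have h6 := le_of_mul_le_mul_right h5 hN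
      have h7 : θ ^ (1 - p) * X ^ p + (1 - θ) ^ (1 - p) * Y ^ p = (X + Y) ^ p := by
        have hXY : 0 < X + Y := by linarith
        rw [hθ1', hθ, Real.div_rpow hX0.le hXY.le, Real.div_rpow hY0.le hXY.le]
        have x1 : X ^ (1 - p) * X ^ p = X := by
          rw [← Real.rpow_add hX0]; simp
        have y1 : Y ^ (1 - p) * Y ^ p = Y := by
          rw [← Real.rpow_add hY0]; simp
        have z1 : (X + Y) ^ (1 - p) * (X + Y) ^ p = X + Y := by
          rw [← Real.rpow_add hXY]; simp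
        have z0 : (X + Y) ^ (1 - p) ≠ 0 := (Real.rpow_pos_of_pos hXY _).ne'
        have : X ^ (1 - p) / (X + Y) ^ (1 - p) * X ^ p + Y ^ (1 - p) / (X + Y) ^ (1 - p) * Y ^ p
            = (X ^ (1 - p) * X ^ p + Y ^ (1 - p) * Y ^ p) / (X + Y) ^ (1 - p) := by ring
        rw [this, x1, y1, div_eq_iff z0, mul_comm, z1]
      calc lam p R ≤ _ := h6
        _ = (θ ^ (1 - p) * X ^ p + (1 - θ) ^ (1 - p) * Y ^ p)
            + ε * (θ ^ (1 - p) + (1 - θ) ^ (1 - p)) := by ring
        _ = _ := by rw [h7]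
    apply le_of_forall_pos_le_add
    intro δ hδ
    have h1 := key (δ / (θ ^ (1 - p) + (1 - θ) ^ (1 - p))) (div_pos hδ hc)
    rwa [div_mul_cancel₀ _ hc.ne'] at h1
  have hXY : 0 < X + Y := by linarith
  calc lam p R ^ (1 / p) ≤ ((X + Y) ^ p) ^ (1 / p) :=
        Real.rpow_le_rpow (lam_nonneg _ _) hmain (by positivity)
    _ = X + Y := by
        rw [← Real.rpow_mul hXY.le, show p * (1 / p) = 1 by field_simp, Real.rpow_one]
    _ = _ := by rw [hX, hY]; ring

end Pool.Agent.PLap
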