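import Pool.Agent.PLap.LamE
import Pool.Agent.PLap.Rect
import Pool.Agent.PLap.Geo

/-!
PartC: lower bound of the ratio by chords and rectangles, part (c), and the supremum.
-/

set_option autoImplicit false

open MeasureTheory Set Filter Topology
open scoped ENNReal NNReal ContDiff RealInnerProductSpace

namespace Pool.Agent.PLap

/-- the open rectangle -/
def Rc (s0 t0 a b : ℝ) : Set E := {x : E | s0 < x 0 ∧ x 0 < s0 + a ∧ t0 < x 1 ∧ x 1 < t0 + b}

theorem Rc_mem_KK (s0 t0 : ℝ) {a b : ℝ} (ha : 0 < a) (hb : 0 < b) : Rc s0 t0 a b ∈ KK := by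
  have e : Rc s0 t0 a b
      = (EuclideanSpace.proj 0 : E →L[ℝ] ℝ) ⁻¹' Ioo s0 (s0 + a)
        ∩ (EuclideanSpace.proj 1 : E →L[ℝ] ℝ) ⁻¹' Ioo t0 (t0 + b) := by
    ext x
    constructor
    · rintro ⟨h1, h2, h3, h4⟩
      exact ⟨⟨h1, h2⟩, ⟨h3, h4⟩⟩
    · rintro ⟨⟨h1, h2⟩, ⟨h3, h4⟩⟩
      exact ⟨h1, h2, h3, h4⟩
  refine ⟨?_, ?_, ?_, ?_⟩
  · rw [e]
    exact (isOpen_Ioo.preimage (EuclideanSpace.proj 0 : E →L[ℝ] ℝ).continuous).inter
      (isOpen_Ioo.preimage (EuclideanSpace.proj 1 : E →L[ℝ] ℝ).continuous)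
  · rw [e]
    exact ((convex_Ioo _ _).linear_preimage (EuclideanSpace.proj 0 : E →L[ℝ] ℝ).toLinearMap).inter
      ((convex_Ioo _ _).linear_preimage (EuclideanSpace.proj 1 : E →L[ℝ] ℝ).toLinearMap)
  · rw [isBounded_iff_forall_norm_le]
    refine ⟨|s0| + a + (|t0| + b), ?_⟩
    rintro x ⟨h1, h2, h3, h4⟩
    have hx0 : |x 0| ≤ |s0| + a := by
      rw [abs_le]
      have := neg_abs_le s0
      have := le_abs_self s0
      constructor <;> linarith
    have hx1 : |x 1| ≤ |t0| + b := by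
      rw [abs_le]
      have := neg_abs_le t0
      have := le_abs_self t0
      constructor <;> linarith
    have h5 : ‖x‖ ^ 2 ≤ (|s0| + a + (|t0| + b)) ^ 2 := by
      rw [norm_sq_E, ← sq_abs (x 0), ← sq_abs (x 1)]
      have e0 := abs_nonneg (x 0)
      have e1 := abs_nonneg (x 1)
      nlinarith
    have h6 : 0 ≤ |s0| + a + (|t0| + b) := by positivity
    exact le_of_sq_le_sq h5 h6
  · refine ⟨pl (s0 + a / 2) (t0 + b / 2), ?_⟩
    refine ⟨?_, ?_, ?_, ?_⟩ <;> simp <;> linarith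

theorem RR_lower {p q : ℝ} (hq : 1 < q) (hp : 1 < p) {Om : Set E} (hOm : Om ∈ KK) {h : ℝ}
    (hh : 0 < h) (hch : ∀ x ∈ Om, ∀ x' ∈ Om, x 0 = x' 0 → |x 1 - x' 1| ≤ h)
    {s0 t0 a b : ℝ} (ha : 0 < a) (hb : 0 < b)
    (hR : {x : E | s0 < x 0 ∧ x 0 < s0 + a ∧ t0 < x 1 ∧ x 1 < t0 + b} ⊆ Om) :
    CC p q / (h / a + h / b) ≤ RR p q Om := by
  have hTp := Tp_pos hp one_pos
  have hTq := Tp_pos hq one_pos
  have hp0 : 0 < p := by linarith
  have hq0 : 0 < q := by linarith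
  have h1 : 2 * Tp p 1 / h ≤ lam p Om ^ (1 / p) := by
    have h2 := chord_bound hp hOm.1 hOm.2.2.2 hh hch
    have h3 := Real.rpow_le_rpow (Real.rpow_nonneg (by positivity) _) h2
      (show 0 ≤ 1 / p by positivity)
    rwa [← Real.rpow_mul (by positivity), show p * (1 / p) = 1 by field_simp, Real.rpow_one] at h3
  have hRK := Rc_mem_KK s0 t0 ha hb
  have h4 : lam q Om ^ (1 / q) ≤ 2 * Tp q 1 * (1 / a + 1 / b) := by
    refine le_trans ?_ (rect_bound hq s0 t0 ha hb)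
    apply Real.rpow_le_rpow (lam_nonneg _ _) _ (by positivity)
    exact lam_anti hq hRK.1 hRK.2.2.2 hR
  have h5 : 0 < lam q Om ^ (1 / q) := Real.rpow_pos_of_pos (lam_pos hq hOm) _
  unfold RR
  rw [CC_eq hq hp]
  calc Tp p 1 / Tp q 1 / (h / a + h / b) = (2 * Tp p 1 / h) / (2 * Tp q 1 * (1 / a + 1 / b)) := by
        field_simp
    _ ≤ lam p Om ^ (1 / p) / (2 * Tp q 1 * (1 / a + 1 / b)) :=
        div_le_div_of_nonneg_right h1 (by positivity)
    _ ≤ lam p Om ^ (1 / p) / lam q Om ^ (1 / q) :=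
        div_le_div_of_nonneg_left (Real.rpow_nonneg (lam_nonneg _ _) _) h5 h4

/-- quantitative form: a lower bound depending only on the diameter -/
theorem RR_lower_diam {p q : ℝ} (hq : 1 < q) (hp : 1 < p) {Om : Set E} (hOm : Om ∈ KK)
    (hv : volume Om = 1) {τ : ℝ} (h0 : 0 < τ) (h1 : τ < 1 / 3) :
    CC p q / (48 / (τ * Metric.diam Om ^ 2) + 1 / (1 - 3 * τ)) ≤ RR p q Om := by
  obtain ⟨f, hf, hfd, hfv, hD, x, hx, y, hy, hxy⟩ := geo_rotate hOm
  obtain ⟨h, hh, hch, hhD, hrect⟩ := geo hf hx hy hD hfd hxy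
  obtain ⟨s0, t0, hR⟩ := hrect τ h0 h1
  set D := Metric.diam Om with hDdef
  have hb : 0 < (1 - 3 * τ) * h := mul_pos (by linarith) hh
  have ha : 0 < τ * (D / 2) := by positivity
  have h2 := RR_lower hq hp hf hh hch ha hb hR
  rw [RR_isometry] at h2
  refine le_trans ?_ h2
  rw [hfv, hv] at hhD
  simp only [ENNReal.toReal_one, mul_one] at hhD
  have h13 : 0 < 1 - 3 * τ := by linarith
  apply div_le_div_of_nonneg_left (CC_pos hq hp).le (by positivity)
  have e1 : h / ((1 - 3 * τ) * h) = 1 / (1 - 3 * τ) := by field_simp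
  rw [e1]
  have e2 : h / (τ * (D / 2)) ≤ 48 / (τ * D ^ 2) := by
    rw [div_le_div_iff₀ ha (by positivity)]
    have : h * (τ * D ^ 2) = (h * D) * (τ * D) := by ring
    rw [this]
    have h3 : (h * D) * (τ * D) ≤ 24 * (τ * D) := mul_le_mul_of_nonneg_right hhD (by positivity)
    linarith
  linarith

theorem part_c_lower {p q : ℝ} (hq : 1 < q) (hp : 1 < p) {Om : ℕ → Set E} (hOm : ∀ k, Om k ∈ KK)
    (hv : ∀ k, volume (Om k) = 1) (hd : Tendsto (fun k => Metric.diam (Om k)) atTop atTop)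
    {ε : ℝ} (hε : 0 < ε) : ∀ᶠ k in atTop, CC p q - ε < RR p q (Om k) := by
  have hC := CC_pos (p := p) (q := q) hq hp
  set τ : ℝ := min (1 / 6) (ε / (6 * CC p q)) with hτ
  have h0 : 0 < τ := lt_min (by norm_num) (by positivity)
  have h1 : τ < 1 / 3 := lt_of_le_of_lt (min_le_left _ _) (by norm_num)
  have h13 : 0 < 1 - 3 * τ := by linarith
  have h2 : CC p q - ε < CC p q * (1 - 3 * τ) := by
    have h3 : τ ≤ ε / (6 * CC p q) := min_le_right _ _
    rw [le_div_iff₀ (by positivity)] at h3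
    nlinarith
  have hlim : Tendsto (fun D : ℝ => CC p q / (48 / (τ * D ^ 2) + 1 / (1 - 3 * τ))) atTop
      (𝓝 (CC p q * (1 - 3 * τ))) := by
    have h3 : Tendsto (fun D : ℝ => τ * D ^ 2) atTop atTop :=
      (tendsto_pow_atTop (by norm_num)).const_mul_atTop h0
    have h4 : Tendsto (fun D : ℝ => 48 / (τ * D ^ 2) + 1 / (1 - 3 * τ)) atTop
        (𝓝 (0 + 1 / (1 - 3 * τ))) := (h3.const_div_atTop 48).add tendsto_const_nhds
    have h5 : Tendsto (fun D : ℝ => CC p q / (48 / (τ * D ^ 2) + 1 / (1 - 3 * τ))) atTop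
        (𝓝 (CC p q / (0 + 1 / (1 - 3 * τ)))) :=
      tendsto_const_nhds.div h4 (by rw [zero_add]; positivity)
    have e : CC p q / (0 + 1 / (1 - 3 * τ)) = CC p q * (1 - 3 * τ) := by
      rw [zero_add, one_div, div_inv_eq_mul]
    rwa [e] at h5
  filter_upwards [(hlim.comp hd).eventually (lt_mem_nhds h2)] with k hk
  exact lt_of_lt_of_le hk (RR_lower_diam hq hp (hOm k) (hv k) h0 h1)

theorem sup_rect {p q : ℝ} (hq : 1 < q) (hp : 1 < p) {ε : ℝ} (hε : 0 < ε) :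
    ∃ Om ∈ KK, CC p q - ε < RR p q Om := by
  have hC := CC_pos (p := p) (q := q) hq hp
  have hlim : Tendsto (fun n : ℕ => CC p q / (1 / ((n : ℝ) + 1) + 1 / 1)) atTop
      (𝓝 (CC p q / (0 + 1 / 1))) := by
    apply tendsto_const_nhds.div _ (by norm_num)
    exact tendsto_one_div_add_atTop_nhds_zero_nat.add tendsto_const_nhds
  have e : CC p q / (0 + 1 / 1) = CC p q := by norm_num
  rw [e] at hlim
  have h1 : CC p q - ε < CC p q := by linarith
  obtain ⟨n, hn⟩ := (hlim.eventually (lt_mem_nhds h1)).exists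
  have hn0 : (0:ℝ) < (n : ℝ) + 1 := by positivity
  refine ⟨Rc 0 0 ((n : ℝ) + 1) 1, Rc_mem_KK 0 0 hn0 one_pos, lt_of_lt_of_le hn ?_⟩
  apply RR_lower hq hp (Rc_mem_KK 0 0 hn0 one_pos) one_pos _ hn0 one_pos (s0 := 0) (t0 := 0)
    (Subset.refl _)
  rintro x ⟨-, -, h3, h4⟩ x' ⟨-, -, h5, h6⟩ _
  rw [abs_le]
  constructor <;> linarith

end Pool.Agent.PLap
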