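import Pool.Agent.PLap.Strict
import Pool.Agent.PLap.Blaschke
import Pool.Agent.PLap.PartC
import Pool.Agent.PLap.Chord
import Pool.Agent.PLap.Interval

/-!
Main: assembly of parts (a), (b), (c) from the strict comparison, the one-dimensional value and the geometric estimates.
-/

set_option autoImplicit false

open MeasureTheory Set Filter Topology
open scoped ENNReal NNReal ContDiff RealInnerProductSpace Pointwise

namespace Pool.Agent.PLap

theorem RR_lt {p q : ℝ} (hq : 1 < q) (hqp : q < p) {Om : Set E} (hOm : Om ∈ KK)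
    (hL : 0 < lam p Om) : RR p q Om < Tp p 1 / Tp q 1 := by
  have hp : 1 < p := hq.trans hqp
  have hq0 : 0 < q := by linarith
  have hp0 : 0 < p := by linarith
  have hTpL : 0 < Tp p (lam p Om) := Tp_pos hp hL
  have hTq1 : 0 < Tp q 1 := Tp_pos hq one_pos
  have hTp1 : 0 < Tp p 1 := Tp_pos hp one_pos
  set m := (Tp q 1 / Tp p (lam p Om)) ^ q with hmdef
  have hm : 0 < m := Real.rpow_pos_of_pos (div_pos hTq1 hTpL) _
  have hT : Tp q m = Tp p (lam p Om) := exists_Tp_eq hq hTpL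
  have hlt := strict hq hqp hOm hL hm hT
  have h1 : m ^ (1 / q) = Tp q 1 / Tp p (lam p Om) := by
    rw [hmdef, ← Real.rpow_mul (div_pos hTq1 hTpL).le, mul_one_div_cancel hq0.ne', Real.rpow_one]
  have h2 : Tp p (lam p Om) = lam p Om ^ (-(1 / p)) * Tp p 1 := Tp_scale hp hL
  have hLp : 0 < lam p Om ^ (1 / p) := Real.rpow_pos_of_pos hL _
  have h3 : m ^ (1 / q) < lam q Om ^ (1 / q) :=
    Real.rpow_lt_rpow hm.le hlt (by positivity)
  have h4 : 0 < m ^ (1 / q) := Real.rpow_pos_of_pos hm _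
  have h5 : RR p q Om < lam p Om ^ (1 / p) / m ^ (1 / q) := by
    unfold RR
    exact div_lt_div_of_pos_left hLp h4 h3
  refine h5.trans_eq ?_
  rw [h1, h2, Real.rpow_neg hL.le]
  field_simp

theorem RR_nonneg (p q : ℝ) (Om : Set E) : 0 ≤ RR p q Om :=
  div_nonneg (Real.rpow_nonneg (lam_nonneg _ _) _) (Real.rpow_nonneg (lam_nonneg _ _) _)

theorem smul_mem_KK {t : ℝ} (ht : 0 < t) {Om : Set E} (hOm : Om ∈ KK) : t • Om ∈ KK := by
  obtain ⟨h1, h2, h3, h4⟩ := hOm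
  exact ⟨h1.smul₀ ht.ne', h2.smul t, h3.smul₀ t, h4.smul_set⟩

theorem normalise {Om : Set E} (hOm : Om ∈ KK) : ∃ t : ℝ, 0 < t ∧ volume (t • Om) = 1 := by
  obtain ⟨h1, h2, h3, h4⟩ := hOm
  have hpos : 0 < volume Om := h1.measure_pos _ h4
  have hfin : volume Om ≠ ⊤ := h3.measure_lt_top.ne
  set v := (volume Om).toReal with hv
  have hvpos : 0 < v := ENNReal.toReal_pos hpos.ne' hfin
  refine ⟨(Real.sqrt v)⁻¹, by positivity, ?_⟩
  rw [Measure.addHaar_smul]
  have hd : Module.finrank ℝ E = 2 := by simp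
  rw [hd, abs_of_nonneg (by positivity), inv_pow, Real.sq_sqrt hvpos.le,
    ← ENNReal.ofReal_toReal hfin, ← hv, ← ENNReal.ofReal_mul (by positivity),
    inv_mul_cancel₀ hvpos.ne', ENNReal.ofReal_one]

theorem part_a {p q : ℝ} (hq : 1 < q) (hqp : q < p)
    (hpos : ∀ r : ℝ, 1 < r → ∀ Om ∈ KK, 0 < lam r Om)
    (hlt : ∀ Om ∈ KK, RR p q Om < CC p q)
    (hc : ∀ Om : ℕ → Set E, (∀ k, Om k ∈ KK) → (∀ k, volume (Om k) = 1) →
      Tendsto (fun k => Metric.diam (Om k)) atTop atTop →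
      Tendsto (fun k => RR p q (Om k)) atTop (𝓝 (CC p q))) :
    ∃ Om ∈ KK, ∀ Om' ∈ KK, RR p q Om ≤ RR p q Om' := by
  have hne : (RR p q '' KK).Nonempty := by
    refine ⟨_, Metric.ball (0 : E) 1, ⟨Metric.isOpen_ball, convex_ball _ _, Metric.isBounded_ball,
      Metric.nonempty_ball.mpr one_pos⟩, rfl⟩
  have hbdd : BddBelow (RR p q '' KK) := ⟨0, by rintro _ ⟨Om, _, rfl⟩; exact RR_nonneg p q Om⟩
  set I := sInf (RR p q '' KK) with hI
  have hIlt : I < CC p q := by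
    obtain ⟨_, Om, hOm, rfl⟩ := id hne
    exact (csInf_le hbdd ⟨Om, hOm, rfl⟩).trans_lt (hlt Om hOm)
  obtain ⟨u, hu_anti, hu_lim, hu_mem⟩ := exists_seq_tendsto_sInf hne hbdd
  choose Om hOm hOmu using hu_mem
  choose t ht hvol using fun k => normalise (hOm k)
  set O := fun k => t k • Om k with hO
  have hOK : ∀ k, O k ∈ KK := fun k => smul_mem_KK (ht k) (hOm k)
  have hRR : ∀ k, RR p q (O k) = u k := fun k => by
    rw [hO]; simp only; rw [RR_smul hq (hq.trans hqp) (ht k), hOmu]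
  have hlimO : Tendsto (fun k => RR p q (O k)) atTop (𝓝 I) := by
    simp_rw [hRR]; exact hu_lim
  have hbound : ∃ D0 : ℝ, ∀ k, Metric.diam (O k) ≤ D0 := by
    by_contra hcon
    push Not at hcon
    have hfreq : ∀ n : ℕ, ∃ᶠ k in atTop, (n : ℝ) < Metric.diam (O k) := by
      intro n
      rw [frequently_atTop]
      intro N
      by_contra hN
      push Not at hN
      obtain ⟨C, hC⟩ := (Set.finite_Iio N).image (fun k => Metric.diam (O k)) |>.bddAbove
      obtain ⟨k, hk⟩ := hcon (max C n)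
      rcases lt_or_ge k N with h | h
      · exact absurd (hC ⟨k, h, rfl⟩) (not_le.mpr ((le_max_left _ _).trans_lt hk))
      · exact absurd (hN k h) (not_le.mpr ((le_max_right _ _).trans_lt hk))
    obtain ⟨ph, hph, hphd⟩ := extraction_forall_of_frequently hfreq
    have hdiam : Tendsto (fun n => Metric.diam (O (ph n))) atTop atTop :=
      tendsto_atTop_mono (fun n => (hphd n).le) tendsto_natCast_atTop_atTop
    have h1 := hc (fun n => O (ph n)) (fun n => hOK _) (fun n => hvol _) hdiam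
    have h2 := hlimO.comp hph.tendsto_atTop
    exact hIlt.ne (tendsto_nhds_unique h2 h1)
  obtain ⟨D0, hD0⟩ := hbound
  obtain ⟨Om0, hOm0, hRR0⟩ := blaschke hq (hq.trans hqp) hpos hOK hvol hD0 hlimO
  refine ⟨Om0, hOm0, fun Om' hOm' => ?_⟩
  rw [hRR0]
  exact csInf_le hbdd ⟨Om', hOm', rfl⟩

theorem RR_lt_CC {p q : ℝ} (hq : 1 < q) (hqp : q < p) {Om : Set E} (hOm : Om ∈ KK) :
    RR p q Om < CC p q := by
  rw [CC_eq hq (hq.trans hqp)]
  exact RR_lt hq hqp hOm (lam_pos (hq.trans hqp) hOm)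

theorem part_c {p q : ℝ} (hq : 1 < q) (hqp : q < p) {Om : ℕ → Set E} (hOm : ∀ k, Om k ∈ KK)
    (hv : ∀ k, volume (Om k) = 1) (hd : Tendsto (fun k => Metric.diam (Om k)) atTop atTop) :
    Tendsto (fun k => RR p q (Om k)) atTop (𝓝 (CC p q)) := by
  rw [Metric.tendsto_nhds]
  intro e he
  filter_upwards [part_c_lower hq (hq.trans hqp) hOm hv hd he] with k hk
  rw [Real.dist_eq, abs_lt]
  exact ⟨by linarith, by linarith [RR_lt_CC hq hqp (hOm k)]⟩

/-- The complete answer in terms of `RR` and `CC`. -/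
theorem all_parts {p q : ℝ} (hq : 1 < q) (hqp : q < p) :
    (∃ Om ∈ KK, ∀ Om' ∈ KK, RR p q Om ≤ RR p q Om') ∧
    (IsLUB (RR p q '' KK) (CC p q) ∧ ∀ Om ∈ KK, RR p q Om < CC p q) ∧
    (∀ Om : ℕ → Set E, (∀ k, Om k ∈ KK) → (∀ k, volume (Om k) = 1) →
      Tendsto (fun k => Metric.diam (Om k)) atTop atTop →
      Tendsto (fun k => RR p q (Om k)) atTop (𝓝 (CC p q))) := by
  refine ⟨part_a hq hqp (fun r hr Om hOm => lam_pos hr hOm) (fun Om hOm => RR_lt_CC hq hqp hOm)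
    (fun Om h1 h2 h3 => part_c hq hqp h1 h2 h3), ⟨⟨?_, ?_⟩, fun Om hOm => RR_lt_CC hq hqp hOm⟩,
    fun Om h1 h2 h3 => part_c hq hqp h1 h2 h3⟩
  · rintro _ ⟨Om, hOm, rfl⟩
    exact (RR_lt_CC hq hqp hOm).le
  · intro c hc
    by_contra hlt
    push Not at hlt
    obtain ⟨Om, hOm, h⟩ := sup_rect hq (hq.trans hqp) (sub_pos.mpr hlt)
    have := hc ⟨Om, hOm, rfl⟩
    linarith

end Pool.Agent.PLap
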