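import Pool.Agent.PLap.Defs

/-!
OM1: algebra and regularity of the weight `om` and of the matrix `AA`.

om p del s = s^((p-2)/2) for s >= del^2 and del^(p-2) exp((p-2)/2 (s/del^2-1)) for s < del^2.
It is positive for every real s, C^1 with derivative (p-2)/2 om / max(s, del^2)
(both one-sided derivatives agree at s = del^2).
AA y = al(y) id + be(y) ze(y) (x) ze(y) equals om (id + (p-2) y y^T / max(|y|^2, del^2)):
for 2 <= p this is the definition (|p-2| = p-2, ze y = y);
for p < 2 use |y|^2 v = <y,v> y + <rot y, v> rot y in the plane and |p-2| = 2-p.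
Eigenvalues: om in the direction rot y, om (1+(p-2)|y|^2/max(|y|^2, del^2)) in the direction y,
the latter between min(1,p-1) om and max(1,p-1) om.
-/

set_option autoImplicit false

open MeasureTheory Set Filter Topology
open scoped ENNReal NNReal ContDiff RealInnerProductSpace

namespace Pool.Agent.PLap

theorem om_pos {p del : ℝ} (hdel : 0 < del) (s : ℝ) : 0 < om p del s := by
  unfold om
  split_ifs with h
  · positivity
  · have : 0 < s := lt_of_lt_of_le (by positivity) (not_lt.mp h)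
    positivity

theorem om_eq {p del s : ℝ} (hs : del ^ 2 ≤ s) : om p del s = s ^ ((p - 2) / 2) := by
  unfold om
  rw [if_neg (not_lt.mpr hs)]

theorem om_sq {p del g : ℝ} (hdel : 0 < del) (hg : del ≤ g) : om p del (g ^ 2) = g ^ (p - 2) := by
  rw [om_eq (pow_le_pow_left₀ hdel.le hg 2), ← Real.rpow_natCast g 2,
    ← Real.rpow_mul (hdel.le.trans hg)]
  congr 1
  push_cast
  ring

theorem del_sq_rpow {p del : ℝ} (hdel : 0 < del) : (del ^ 2) ^ ((p - 2) / 2) = del ^ (p - 2) := by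
  rw [← Real.rpow_natCast del 2, ← Real.rpow_mul hdel.le]
  congr 1
  push_cast
  ring

theorem om_hasDerivAt {p del : ℝ} (hdel : 0 < del) (s : ℝ) :
    HasDerivAt (om p del) ((p - 2) / 2 * om p del s / max s (del ^ 2)) s := by
  have hd2 : 0 < del ^ 2 := by positivity
  have hexp : ∀ t : ℝ, HasDerivAt
      (fun t => del ^ (p - 2) * Real.exp ((p - 2) / 2 * (t / del ^ 2 - 1)))
      (del ^ (p - 2) * (Real.exp ((p - 2) / 2 * (t / del ^ 2 - 1)) * ((p - 2) / 2 * (1 / del ^ 2)))) t := by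
    intro t
    have h1 : HasDerivAt (fun t : ℝ => (p - 2) / 2 * (t / del ^ 2 - 1)) ((p - 2) / 2 * (1 / del ^ 2)) t :=
      (((hasDerivAt_id t).div_const _).sub_const _).const_mul _
    exact (h1.exp).const_mul _
  have hpow : ∀ t : ℝ, 0 < t → HasDerivAt (fun t : ℝ => t ^ ((p - 2) / 2))
      ((p - 2) / 2 * t ^ ((p - 2) / 2 - 1)) t := fun t ht =>
    Real.hasDerivAt_rpow_const (Or.inl ht.ne')
  rcases lt_trichotomy s (del ^ 2) with h | h | h
  · have he : om p del =ᶠ[𝓝 s] fun t => del ^ (p - 2) * Real.exp ((p - 2) / 2 * (t / del ^ 2 - 1)) := by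
      filter_upwards [gt_mem_nhds h] with t ht
      unfold om; rw [if_pos ht]
    have h1 := (hexp s).congr_of_eventuallyEq he
    refine h1.congr_deriv ?_
    rw [max_eq_right h.le]
    unfold om
    rw [if_pos h]
    ring
  · subst h
    have hval : om p del (del ^ 2) = del ^ (p - 2) := by
      rw [om_eq le_rfl, del_sq_rpow hdel]
    have hL : HasDerivWithinAt (om p del) ((p - 2) / 2 * om p del (del ^ 2) / max (del ^ 2) (del ^ 2))
        (Iic (del ^ 2)) (del ^ 2) := by
      have h1 := (hexp (del ^ 2)).hasDerivWithinAt (s := Iic (del ^ 2))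
      have h2 : HasDerivWithinAt (om p del)
          (del ^ (p - 2) * (Real.exp ((p - 2) / 2 * (del ^ 2 / del ^ 2 - 1)) * ((p - 2) / 2 * (1 / del ^ 2))))
          (Iic (del ^ 2)) (del ^ 2) := by
        refine h1.congr ?_ ?_
        · intro t ht
          rcases (mem_Iic.mp ht).lt_or_eq with h | h
          · unfold om; rw [if_pos h]
          · rw [h, hval, div_self hd2.ne']; simp
        · rw [hval, div_self hd2.ne']; simp
      refine h2.congr_deriv ?_
      rw [max_self, hval, div_self hd2.ne']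
      simp
      ring
    have hR : HasDerivWithinAt (om p del) ((p - 2) / 2 * om p del (del ^ 2) / max (del ^ 2) (del ^ 2))
        (Ici (del ^ 2)) (del ^ 2) := by
      have h1 := (hpow (del ^ 2) hd2).hasDerivWithinAt (s := Ici (del ^ 2))
      have h2 : HasDerivWithinAt (om p del) ((p - 2) / 2 * (del ^ 2) ^ ((p - 2) / 2 - 1))
          (Ici (del ^ 2)) (del ^ 2) := by
        refine h1.congr ?_ ?_
        · intro t ht; exact om_eq ht
        · exact om_eq le_rfl
      refine h2.congr_deriv ?_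
      rw [max_self, om_eq le_rfl, Real.rpow_sub_one hd2.ne']
      ring
    have := hL.union hR
    rwa [Iic_union_Ici, hasDerivWithinAt_univ] at this
  · have hs : 0 < s := hd2.trans h
    have he : om p del =ᶠ[𝓝 s] fun t => t ^ ((p - 2) / 2) := by
      filter_upwards [lt_mem_nhds h] with t ht
      exact om_eq ht.le
    have h1 := (hpow s hs).congr_of_eventuallyEq he
    refine h1.congr_deriv ?_
    rw [max_eq_left h.le, om_eq h.le, Real.rpow_sub_one hs.ne']
    ring

theorem om_continuous {p del : ℝ} (hdel : 0 < del) : Continuous (om p del) :=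
  continuous_iff_continuousAt.mpr fun s => (om_hasDerivAt hdel s).continuousAt

theorem max_pos' {del : ℝ} (hdel : 0 < del) (y : E) : 0 < max (‖y‖ ^ 2) (del ^ 2) :=
  lt_max_of_lt_right (by positivity)

theorem frac_mem {del : ℝ} (hdel : 0 < del) (y : E) :
    0 ≤ ‖y‖ ^ 2 / max (‖y‖ ^ 2) (del ^ 2) ∧ ‖y‖ ^ 2 / max (‖y‖ ^ 2) (del ^ 2) ≤ 1 :=
  ⟨by have := max_pos' hdel y; positivity, (div_le_one (max_pos' hdel y)).mpr (le_max_left _ _)⟩

theorem al_nonneg {p del : ℝ} (hp : 1 < p) (hdel : 0 < del) (y : E) : 0 ≤ al p del y := by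
  unfold al
  split_ifs with h
  · exact (om_pos hdel _).le
  · have h1 := frac_mem hdel y
    refine mul_nonneg (om_pos hdel _).le ?_
    rw [mul_div_assoc]
    nlinarith [h1.1, h1.2]

theorem be_nonneg {p del : ℝ} (hdel : 0 < del) (y : E) : 0 ≤ be p del y := by
  unfold be
  have h1 := max_pos' hdel y
  have h2 := om_pos (p := p) hdel (‖y‖ ^ 2)
  positivity

theorem al_continuous {p del : ℝ} (hdel : 0 < del) : Continuous (al p del) := by
  unfold al
  have h1 : Continuous fun y : E => om p del (‖y‖ ^ 2) :=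
    (om_continuous hdel).comp (by fun_prop)
  split_ifs with h
  · exact h1
  · refine h1.mul (continuous_const.add ?_)
    exact (by fun_prop : Continuous fun y : E => (p - 2) * ‖y‖ ^ 2).div
      ((by fun_prop : Continuous fun y : E => ‖y‖ ^ 2).max continuous_const)
      (fun y => (max_pos' hdel y).ne')

theorem be_continuous {p del : ℝ} (hdel : 0 < del) : Continuous (be p del) := by
  unfold be
  have h1 : Continuous fun y : E => om p del (‖y‖ ^ 2) :=
    (om_continuous hdel).comp (by fun_prop)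
  exact (continuous_const.mul h1).div
    ((by fun_prop : Continuous fun y : E => ‖y‖ ^ 2).max continuous_const)
      (fun y => (max_pos' hdel y).ne')

theorem rot_continuous : Continuous rot := by
  unfold rot
  refine (EuclideanSpace.equiv (Fin 2) ℝ).symm.continuous.comp ?_
  refine continuous_pi fun i => ?_
  fin_cases i
  · show Continuous fun y : E => -(y 1)
    fun_prop
  · show Continuous fun y : E => y 0
    fun_prop

theorem rot_zero_coord (y : E) : rot y 0 = -(y 1) := rfl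
theorem rot_one_coord (y : E) : rot y 1 = y 0 := rfl

theorem norm_sq_eq (y : E) : ‖y‖ ^ 2 = y 0 ^ 2 + y 1 ^ 2 := by
  rw [EuclideanSpace.norm_sq_eq, Fin.sum_univ_two]
  simp

theorem inner_eq (x y : E) : ⟪x, y⟫ = x 0 * y 0 + x 1 * y 1 := by
  rw [PiLp.inner_apply, Fin.sum_univ_two]
  simp [mul_comm]

theorem norm_rot (y : E) : ‖rot y‖ = ‖y‖ := by
  have h : ‖rot y‖ ^ 2 = ‖y‖ ^ 2 := by
    rw [norm_sq_eq, norm_sq_eq, rot_zero_coord, rot_one_coord]; ring
  exact (pow_left_inj₀ (norm_nonneg _) (norm_nonneg _) two_ne_zero).mp h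

theorem inner_rot_self (y : E) : ⟪y, rot y⟫ = 0 := by
  rw [inner_eq, rot_zero_coord, rot_one_coord]; ring

theorem plane_decomp (y v : E) : ‖y‖ ^ 2 • v = ⟪y, v⟫ • y + ⟪rot y, v⟫ • rot y := by
  ext i
  fin_cases i
  · show ‖y‖ ^ 2 * v 0 = ⟪y, v⟫ * y 0 + ⟪rot y, v⟫ * rot y 0
    rw [norm_sq_eq, inner_eq, inner_eq, rot_zero_coord, rot_one_coord]; ring
  · show ‖y‖ ^ 2 * v 1 = ⟪y, v⟫ * y 1 + ⟪rot y, v⟫ * rot y 1
    rw [norm_sq_eq, inner_eq, inner_eq, rot_zero_coord, rot_one_coord]; ring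

theorem ze_continuous (p : ℝ) : Continuous (ze p) := by
  unfold ze
  split_ifs with h
  · exact continuous_id
  · exact rot_continuous

theorem norm_ze (p : ℝ) (y : E) : ‖ze p y‖ = ‖y‖ := by
  unfold ze
  split_ifs with h
  · rfl
  · exact norm_rot y

theorem AA_apply {p del : ℝ} (y v : E) :
    AA p del y v = al p del y • v + (be p del y * ⟪ze p y, v⟫) • ze p y := by
  unfold AA
  simp [smul_smul]

theorem AA_eq {p del : ℝ} (hdel : 0 < del) (y v : E) :
    AA p del y v = om p del (‖y‖ ^ 2) •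
      (v + ((p - 2) * ⟪y, v⟫ / max (‖y‖ ^ 2) (del ^ 2)) • y) := by
  rw [AA_apply]
  have hm := (max_pos' hdel y).ne'
  by_cases h : 2 ≤ p
  · unfold al be ze
    rw [if_pos h, if_pos h, abs_of_nonneg (by linarith), smul_add, smul_smul]
    congr 2
    field_simp
  · unfold al be ze
    rw [if_neg h, if_neg h, abs_of_nonpos (by linarith)]
    have hd := plane_decomp y v
    have h2 : ⟪rot y, v⟫ • rot y = ‖y‖ ^ 2 • v - ⟪y, v⟫ • y := by
      rw [hd]; abel
    rw [mul_smul (_ * _ / _) ⟪rot y, v⟫, h2]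
    simp only [smul_sub, smul_add, smul_smul]
    have e1 : om p del (‖y‖ ^ 2) * (1 + (p - 2) * ‖y‖ ^ 2 / max (‖y‖ ^ 2) (del ^ 2)) =
        om p del (‖y‖ ^ 2) - (-(p - 2)) * om p del (‖y‖ ^ 2) / max (‖y‖ ^ 2) (del ^ 2) * ‖y‖ ^ 2 := by
      field_simp
      ring
    rw [e1, sub_smul]
    have e2 : om p del (‖y‖ ^ 2) * ((p - 2) * ⟪y, v⟫ / max (‖y‖ ^ 2) (del ^ 2)) =
        -((-(p - 2)) * om p del (‖y‖ ^ 2) / max (‖y‖ ^ 2) (del ^ 2) * ⟪y, v⟫) := by
      field_simp
    rw [e2, neg_smul]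
    abel

theorem AA_inner {p del : ℝ} (hdel : 0 < del) (y v : E) :
    ⟪AA p del y v, v⟫ = om p del (‖y‖ ^ 2) *
      (‖v‖ ^ 2 + (p - 2) * (⟪y, v⟫ ^ 2 / max (‖y‖ ^ 2) (del ^ 2))) := by
  rw [AA_eq hdel, real_inner_smul_left, inner_add_left, real_inner_smul_left,
    real_inner_self_eq_norm_sq]
  ring

theorem inner_frac {del : ℝ} (hdel : 0 < del) (y v : E) :
    0 ≤ ⟪y, v⟫ ^ 2 / max (‖y‖ ^ 2) (del ^ 2) ∧
      ⟪y, v⟫ ^ 2 / max (‖y‖ ^ 2) (del ^ 2) ≤ ‖v‖ ^ 2 := by
  have h1 := max_pos' hdel y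
  refine ⟨by positivity, ?_⟩
  rw [div_le_iff₀ h1]
  have h2 : ⟪y, v⟫ ^ 2 ≤ ‖y‖ ^ 2 * ‖v‖ ^ 2 := by
    have := abs_real_inner_le_norm y v
    rw [← sq_abs]
    calc |⟪y, v⟫| ^ 2 ≤ (‖y‖ * ‖v‖) ^ 2 := pow_le_pow_left₀ (abs_nonneg _) this 2
      _ = _ := by ring
  calc ⟪y, v⟫ ^ 2 ≤ ‖y‖ ^ 2 * ‖v‖ ^ 2 := h2
    _ ≤ max (‖y‖ ^ 2) (del ^ 2) * ‖v‖ ^ 2 :=
      mul_le_mul_of_nonneg_right (le_max_left _ _) (by positivity)
    _ = _ := mul_comm _ _

theorem AA_lower {p del : ℝ} (hp : 1 < p) (hdel : 0 < del) (y v : E) :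
    min 1 (p - 1) * om p del (‖y‖ ^ 2) * ‖v‖ ^ 2 ≤ ⟪AA p del y v, v⟫ := by
  rw [AA_inner hdel]
  have ho := om_pos (p := p) hdel (‖y‖ ^ 2)
  have hf := inner_frac hdel y v
  set t := ⟪y, v⟫ ^ 2 / max (‖y‖ ^ 2) (del ^ 2)
  have : min 1 (p - 1) * ‖v‖ ^ 2 ≤ ‖v‖ ^ 2 + (p - 2) * t := by
    rcases le_total 2 p with h | h
    · rw [min_eq_left (by linarith)]
      nlinarith [hf.1]
    · rw [min_eq_right (by linarith)]
      nlinarith [hf.1, hf.2]
  nlinarith

theorem AA_upper {p del : ℝ} (hp : 1 < p) (hdel : 0 < del) (y v : E) :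
    ⟪AA p del y v, v⟫ ≤ max 1 (p - 1) * om p del (‖y‖ ^ 2) * ‖v‖ ^ 2 := by
  rw [AA_inner hdel]
  have ho := om_pos (p := p) hdel (‖y‖ ^ 2)
  have hf := inner_frac hdel y v
  set t := ⟪y, v⟫ ^ 2 / max (‖y‖ ^ 2) (del ^ 2)
  have : ‖v‖ ^ 2 + (p - 2) * t ≤ max 1 (p - 1) * ‖v‖ ^ 2 := by
    rcases le_total 2 p with h | h
    · rw [max_eq_right (by linarith)]
      nlinarith [hf.1, hf.2]
    · rw [max_eq_left (by linarith)]
      nlinarith [hf.1, hf.2]
  nlinarith

theorem AA_symm {p del : ℝ} (y v u : E) : ⟪AA p del y v, u⟫ = ⟪v, AA p del y u⟫ := by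
  rw [AA_apply, AA_apply, inner_add_left, inner_add_right, real_inner_smul_left,
    real_inner_smul_left, real_inner_smul_right, real_inner_smul_right, real_inner_comm v (ze p y)]
  ring

theorem AA_continuous {p del : ℝ} (hdel : 0 < del) : Continuous (AA p del) := by
  unfold AA
  refine (((al_continuous hdel).smul continuous_const).add ((be_continuous hdel).smul ?_))
  have h1 : Continuous fun z : E => (innerSL ℝ z : E →L[ℝ] ℝ) := (innerSL ℝ).continuous
  have h2 : Continuous fun q : (E →L[ℝ] ℝ) × E => q.1.smulRight q.2 :=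
    (ContinuousLinearMap.smulRightL ℝ E E).continuous₂
  exact h2.comp ((h1.comp (ze_continuous p)).prodMk (ze_continuous p))

end Pool.Agent.PLap
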