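import Pool.Agent.PLap.Div

/-!
Picone: the vector field criterion. q' = q/(q-1).

|f|^q is Lipschitz (q > 1) with compact support in U; by `ibp` (with f replaced by |f|^q):
int |f|^q dv X = - int <grad |f|^q, X> <= int q |f|^(q-1) |grad f| |X|, and by Young
q s t <= s^q + (q-1) t^(q') with s = |grad f| and t = |f|^(q-1)|X|, t^(q') = |f|^q |X|^(q').
So int |f|^q (s + (q-1)|X|^(q')) <= int |f|^q dv X <= int |grad f|^q + (q-1) int |f|^q |X|^(q'),
all integrals finite (X bounded on the support of f). The hypothesis is only needed a.e. on U.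
-/

set_option autoImplicit false

open MeasureTheory Set Filter Topology
open scoped ENNReal NNReal ContDiff RealInnerProductSpace

namespace Pool.Agent.PLap

private theorem picone_young {q a b : ℝ} (hq : 1 < q) (ha : 0 ≤ a) (hb : 0 ≤ b) :
    q * (b * a) ≤ b ^ q + (q - 1) * a ^ (q / (q - 1)) := by
  have hc : q.HolderConjugate (q / (q - 1)) := by
    have := Real.HolderConjugate.conjExponent hq
    simpa [Real.conjExponent] using this
  have h := Real.young_inequality_of_nonneg hb ha hc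
  have hq0 : 0 < q := by linarith
  have hq1 : 0 < q - 1 := by linarith
  have h2 := mul_le_mul_of_nonneg_left h hq0.le
  have h3 : q * (b ^ q / q + a ^ (q / (q - 1)) / (q / (q - 1))) =
      b ^ q + (q - 1) * a ^ (q / (q - 1)) := by
    field_simp
  rwa [h3] at h2

private theorem picone_grad_norm (g : E → ℝ) (x : E) : ‖gradient g x‖ = ‖fderiv ℝ g x‖ := by
  rw [gradient, LinearIsometryEquiv.norm_map]

theorem picone {q s : ℝ} (hq : 1 < q) {U : Set E} (ho : IsOpen U) {X : E → E}
    (hX : LocallyLipschitzOn U X)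
    (h : ∀ᵐ x ∂(volume.restrict U), s + (q - 1) * ‖X x‖ ^ (q / (q - 1)) ≤ dv X x)
    {f : E → ℝ} (hf : IsTest U f) :
    s * ∫ x, |f x| ^ q ≤ ∫ x, ‖fderiv ℝ f x‖ ^ q := by
  obtain ⟨hfd, hfc, hfs⟩ := hf
  have hq0 : 0 < q := by linarith
  have hq1 : 0 < q - 1 := by linarith
  have hf1 : ContDiff ℝ 1 f := hfd.of_le (by exact_mod_cast le_top)
  have hfdiff : Differentiable ℝ f := hf1.differentiable one_ne_zero
  set g : E → ℝ := fun x => ‖f x‖ ^ q with hg
  have hg1 : ContDiff ℝ 1 g := hf1.norm_rpow hq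
  have hgL : LocallyLipschitzOn U g := hg1.locallyLipschitz.locallyLipschitzOn
  have hf0 : ∀ x, x ∉ tsupport f → f x = 0 := fun x hx => image_eq_zero_of_notMem_tsupport hx
  have hg0 : EqOff U g (fun _ => 0) := by
    refine ⟨tsupport f, hfc, hfs, fun x hx => ?_⟩
    rw [hg]
    simp only [hf0 x hx.2, norm_zero, Real.zero_rpow hq0.ne']
  obtain ⟨i1, i2, i3⟩ := ibp ho hX hgL hg0
  -- the two integrals over the plane are integrals over `U`
  have e1 : ∫ x, |f x| ^ q = ∫ x in U, g x := by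
    rw [setIntegral_eq_integral_of_forall_compl_eq_zero]
    · rfl
    · intro x hx
      rw [hg]
      simp only [hf0 x (fun h' => hx (hfs h')), norm_zero, Real.zero_rpow hq0.ne']
  have hfd0 : ∀ x, x ∉ tsupport f → fderiv ℝ f x = 0 := by
    intro x hx
    have := support_fderiv_subset ℝ (f := f)
    by_contra hne
    exact hx (this hne)
  have e2 : ∫ x, ‖fderiv ℝ f x‖ ^ q = ∫ x in U, ‖fderiv ℝ f x‖ ^ q := by
    rw [setIntegral_eq_integral_of_forall_compl_eq_zero]
    intro x hx
    rw [hfd0 x (fun h' => hx (hfs h')), norm_zero, Real.zero_rpow hq0.ne']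
  have j1 : Integrable g := by
    refine hg1.continuous.integrable_of_hasCompactSupport ?_
    refine hfc.comp_left (g := fun t : ℝ => ‖t‖ ^ q) ?_
    simp [Real.zero_rpow hq0.ne']
  have hfdc : Continuous (fderiv ℝ f) := hf1.continuous_fderiv one_ne_zero
  have j2 : Integrable (fun x => ‖fderiv ℝ f x‖ ^ q) := by
    refine Continuous.integrable_of_hasCompactSupport ?_ ?_
    · exact hfdc.norm.rpow_const (fun x => Or.inr hq0.le)
    · refine (hfc.fderiv ℝ).comp_left (g := fun t : E →L[ℝ] ℝ => ‖t‖ ^ q) ?_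
      simp [Real.zero_rpow hq0.ne']
  have key : ∀ᵐ x ∂(volume.restrict U), s * g x ≤
      g x * dv X x + ⟪gradient g x, X x⟫ + ‖fderiv ℝ f x‖ ^ q := by
    filter_upwards [h] with x hx
    have hgx : 0 ≤ g x := Real.rpow_nonneg (norm_nonneg _) _
    have a1 : g x * (s + (q - 1) * ‖X x‖ ^ (q / (q - 1))) ≤ g x * dv X x :=
      mul_le_mul_of_nonneg_left hx hgx
    have a2 : -⟪gradient g x, X x⟫ ≤ ‖gradient g x‖ * ‖X x‖ :=
      (neg_le_abs _).trans (abs_real_inner_le_norm _ _)
    have a3 : ‖gradient g x‖ ≤ q * ‖f x‖ ^ (q - 1) * ‖fderiv ℝ f x‖ := by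
      rw [picone_grad_norm]
      exact norm_fderiv_norm_rpow_le hfdiff hq
    have a4 : ‖gradient g x‖ * ‖X x‖ ≤ q * ‖f x‖ ^ (q - 1) * ‖fderiv ℝ f x‖ * ‖X x‖ :=
      mul_le_mul_of_nonneg_right a3 (norm_nonneg _)
    have a5 := picone_young hq (a := ‖f x‖ ^ (q - 1) * ‖X x‖) (b := ‖fderiv ℝ f x‖)
      (by positivity) (norm_nonneg _)
    have a6 : (‖f x‖ ^ (q - 1) * ‖X x‖) ^ (q / (q - 1)) = g x * ‖X x‖ ^ (q / (q - 1)) := by
      rw [Real.mul_rpow (by positivity) (norm_nonneg _), ← Real.rpow_mul (norm_nonneg _)]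
      congr 2
      field_simp
    rw [a6] at a5
    linarith
  have k1 : s * ∫ x in U, g x ≤ ∫ x in U, (g x * dv X x + ⟪gradient g x, X x⟫ +
      ‖fderiv ℝ f x‖ ^ q) := by
    rw [← integral_const_mul]
    exact integral_mono_ae (j1.integrableOn.const_mul s) ((i1.add i2).add j2.integrableOn) key
  have k2 : ∫ x in U, (g x * dv X x + ⟪gradient g x, X x⟫ + ‖fderiv ℝ f x‖ ^ q) =
      ∫ x in U, ‖fderiv ℝ f x‖ ^ q := by
    have k3 : Integrable (fun x => g x * dv X x + ⟪gradient g x, X x⟫)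
        (volume.restrict U) := i1.add i2
    rw [integral_add k3 j2.integrableOn, integral_add i1 i2, i3]
    ring
  rw [e1, e2, ← k2]
  exact k1

end Pool.Agent.PLap
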