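import Pool.Agent.PLap.Defs

/-!
PolyB: a polygon between a compact set and an open convex set.

Let K0 = closed convex hull of (K union {a point of Om}) : compact (convex hull of a compact set in finite dimension), convex, nonempty, inside Om.
For each z in the frontier of Om (compact, disjoint from Om because Om is open): geometric Hahn-Banach (compact K0, closed {z}) gives a unit vector nu_z and c_z with <nu_z,x> < c_z on K0 and c_z < <nu_z,z>.
The open half planes {c_z < <nu_z, .>} cover the compact frontier: finitely many suffice. P = {x : <nu_i,x> < c_i for all i} is convex, contains K0 and does not meet the frontier of Om; it meets Om, is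
connected (convex), so P is contained in Om; in particular it is bounded.
(The frontier of a bounded nonempty open set is nonempty, but if n = 0 the argument still works: P = univ would not meet the frontier.)
-/

set_option autoImplicit false

open MeasureTheory Set Filter Topology
open scoped ENNReal NNReal ContDiff RealInnerProductSpace

namespace Pool.Agent.PLap

/-- The points whose ball of radius `d` lies in a convex set form a closed convex set. -/
private theorem PolyB_inner {Om : Set E} (hc : Convex ℝ Om) (d : ℝ) :
    Convex ℝ {x : E | Metric.ball x d ⊆ Om} ∧ IsClosed {x : E | Metric.ball x d ⊆ Om} := by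
  constructor
  · intro x hx y hy s t hs ht hst z hz
    have hz' : dist z (s • x + t • y) < d := hz
    have h1 : x + (z - (s • x + t • y)) ∈ Om := by
      apply hx
      rw [Metric.mem_ball, dist_eq_norm]
      rw [dist_eq_norm] at hz'
      simpa using hz'
    have h2 : y + (z - (s • x + t • y)) ∈ Om := by
      apply hy
      rw [Metric.mem_ball, dist_eq_norm]
      rw [dist_eq_norm] at hz'
      simpa using hz'
    have h3 := hc h1 h2 hs ht hst
    have h4 : s • (x + (z - (s • x + t • y))) + t • (y + (z - (s • x + t • y))) = z := by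
      rw [smul_add, smul_add]
      have : s • x + s • (z - (s • x + t • y)) + (t • y + t • (z - (s • x + t • y))) =
          (s • x + t • y) + (s + t) • (z - (s • x + t • y)) := by
        rw [add_smul]
        abel
      rw [this, hst, one_smul]
      abel
    rwa [h4] at h3
  · rw [← isSeqClosed_iff_isClosed]
    intro u x hu hx z hz
    have h1 : Tendsto (fun n => dist z (u n)) atTop (𝓝 (dist z x)) :=
      tendsto_const_nhds.dist hx
    have h2 : dist z x < d := hz
    obtain ⟨n, hn⟩ := (h1.eventually (gt_mem_nhds h2)).exists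
    exact hu n hn

theorem poly_between {Om : Set E} (hOm : Om ∈ KK) {K : Set E} (hK : IsCompact K) (hKO : K ⊆ Om) :
    ∃ P : Set E, IsPoly P ∧ K ⊆ P ∧ P ⊆ Om := by
  obtain ⟨hO, hC, hB, p0, hp0⟩ := hOm
  have hK' : IsCompact (insert p0 K) := hK.insert p0
  have hKO' : insert p0 K ⊆ Om := insert_subset hp0 hKO
  obtain ⟨d, hd, hdO⟩ := hK'.exists_thickening_subset_open hO hKO'
  obtain ⟨hconv, hclosed⟩ := PolyB_inner hC d
  have hsub : insert p0 K ⊆ {x : E | Metric.ball x d ⊆ Om} := by
    intro x hx
    exact (Metric.ball_subset_thickening hx d).trans hdO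
  have hsep : ∀ z ∈ frontier Om, ∃ (nu : E) (c : ℝ), ‖nu‖ = 1 ∧
      (∀ x ∈ insert p0 K, ⟪nu, x⟫ < c) ∧ c < ⟪nu, z⟫ := by
    intro z hz
    have hzO : z ∉ Om := by
      rw [hO.frontier_eq] at hz
      exact hz.2
    have hzn : z ∉ {x : E | Metric.ball x d ⊆ Om} := by
      intro h
      exact hzO (h (Metric.mem_ball_self hd))
    obtain ⟨f, u, hf1, hf2⟩ := geometric_hahn_banach_closed_point hconv hclosed hzn
    obtain ⟨v, hv⟩ : ∃ v : E, ∀ x, f x = ⟪v, x⟫ :=
      ⟨(InnerProductSpace.toDual ℝ E).symm f, fun x => by
        rw [InnerProductSpace.toDual_symm_apply]⟩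
    have hp : f p0 < f z := (hf1 p0 (hsub (mem_insert _ _))).trans hf2
    have hv0 : v ≠ 0 := by
      rintro rfl
      rw [hv, hv, inner_zero_left, inner_zero_left] at hp
      exact lt_irrefl _ hp
    have hn : 0 < ‖v‖ := norm_pos_iff.2 hv0
    refine ⟨‖v‖⁻¹ • v, ‖v‖⁻¹ * u, ?_, ?_, ?_⟩
    · rw [norm_smul, norm_inv, norm_norm, inv_mul_cancel₀ hn.ne']
    · intro x hx
      rw [real_inner_smul_left, ← hv]
      exact mul_lt_mul_of_pos_left (hf1 x (hsub hx)) (inv_pos.2 hn)
    · rw [real_inner_smul_left, ← hv]
      exact mul_lt_mul_of_pos_left hf2 (inv_pos.2 hn)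
  choose! nu c h1 h2 h3 using hsep
  have hfc : IsCompact (frontier Om) :=
    Metric.isCompact_of_isClosed_isBounded isClosed_frontier
      (hB.closure.subset frontier_subset_closure)
  obtain ⟨t, ht, hcov⟩ := hfc.elim_nhds_subcover (fun z => {x : E | c z < ⟪nu z, x⟫})
    (fun z hz => (isOpen_lt continuous_const (by fun_prop)).mem_nhds (h3 z hz))
  let P : Set E := {x | ∀ i : Fin t.card, ⟪nu (t.equivFin.symm i : E), x⟫ < c (t.equivFin.symm i : E)}
  have hPmem : ∀ x, x ∈ P ↔ ∀ z ∈ t, ⟪nu z, x⟫ < c z := by
    intro x
    constructor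
    · intro hx z hz
      have := hx (t.equivFin ⟨z, hz⟩)
      rwa [Equiv.symm_apply_apply] at this
    · intro hx i
      exact hx _ (t.equivFin.symm i).2
  have hKP : insert p0 K ⊆ P := by
    intro x hx
    rw [hPmem]
    intro z hz
    exact h2 z (ht z hz) x hx
  have hPconv : Convex ℝ P := by
    intro x hx y hy a b ha hb hab
    rw [hPmem] at hx hy ⊢
    intro z hz
    rw [inner_add_right, real_inner_smul_right, real_inner_smul_right]
    have e1 := hx z hz
    have e2 := hy z hz
    rcases eq_or_lt_of_le ha with h | h
    · have hb1 : b = 1 := by linarith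
      rw [← h, hb1]
      linarith
    · have e3 : a * ⟪nu z, x⟫ < a * c z := mul_lt_mul_of_pos_left e1 h
      have e4 : b * ⟪nu z, y⟫ ≤ b * c z := mul_le_mul_of_nonneg_left e2.le hb
      have e5 : c z = a * c z + b * c z := by rw [← add_mul, hab, one_mul]
      linarith
  have hPO : P ⊆ Om := by
    have hpre : IsPreconnected P := hPconv.isPreconnected
    refine hpre.subset_left_of_subset_union hO (isOpen_compl_iff.2 (isClosed_closure (s := Om)))
      ?_ ?_ ?_
    · rw [disjoint_compl_right_iff_subset]
      exact subset_closure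
    · intro x hx
      by_cases hxO : x ∈ Om
      · exact Or.inl hxO
      · right
        intro hxc
        have hxf : x ∈ frontier Om := by
          rw [hO.frontier_eq]
          exact ⟨hxc, hxO⟩
        have := hcov hxf
        simp only [mem_iUnion] at this
        obtain ⟨z, hz, hzx⟩ := this
        exact lt_asymm hzx ((hPmem x).1 hx z hz)
    · exact ⟨p0, hKP (mem_insert _ _), hp0⟩
  refine ⟨P, ⟨t.card, fun i => nu (t.equivFin.symm i : E), fun i => c (t.equivFin.symm i : E),
    fun i => h1 _ (ht _ (t.equivFin.symm i).2), rfl, hB.subset hPO, ⟨p0, hKP (mem_insert _ _)⟩⟩,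
    (subset_insert _ _).trans hKP, hPO⟩

end Pool.Agent.PLap
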