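import Pool.Agent.PLap.Defs

/-!
Scal: the scalar inequality behind the strictness. All constants depend on p, q, L, m, Theta, R0 only.

H(r) = L + (p-1) r^(p'), p' = p/(p-1), k(r) = Theta(r)/r (r > 0), k(0) = m/L: continuous on [0,oo), C^1 on (0,oo), k' < 0 there (hk), r k' = Theta' - k -> 0 as r -> 0+, k + r k' = Theta' = N/H with N = m + (q-1)Theta^(q').
Theta' <= m/L (k + r k' <= k <= k(0)); k <= m/L.
tau : C^1 function with values in [-1,1], tau = 1 on [0,r1], tau = -1 on [r2,oo). kk = (1 + be tau) k, 0 < be <= 1/2. With r1 small, r2 large to be chosen. C denotes constants independent of ep, be = ep^(3/2).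
(A) kk + r kk' = (1 + be tau) Theta' + be r tau' k, kk' = (1+be tau)k' + be tau' k <= 0 for be small (tau' = 0 outside [r1,r2], where k' <= -c).
    Z(r) := (kk + r kk') H - (q-1)(kk r)^(q') = (1+be tau) m + (q-1)Theta^(q') [(1+be tau) - (1+be tau)^(q')] + be r tau' k H.
    r <= r1: Z >= m + be m - C be Theta(r1)^(q') >= m + be m/2 if r1 is small ((1+be)^(q') - (1+be) <= C be).
    r >= r2: s = 1-be in [1/2,1]: s - s^(q') = s(1 - s^(1/(q-1))) >= (1/2) min(1,1/(q-1)) be, so Z >= m - be m + (q-1) c be Theta(r2)^(q') >= m + be if r2 is large (Theta -> oo).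
    r1 <= r <= r2: Z >= m - C be.   Everywhere 0 < kk + r kk' <= C, and >= c on compact subsets of (0,oo) (be small).
(B) et = ep * eta, eta C^1 with values in [0,1], eta(g) = 1 for g^(p-1) in [r1,r2], eta = 0 outside [g1,g2], g1 = r1^(1/(p-1))/2, g2 = 2 r2^(1/(p-1)).
    d0 < g1 small (also d0^(p-1) < r1, d0 <= ep^2 and so on).
(C) the inequality. Let D = a1 a + o b >= H(r) - e2.
    g outside [g1,g2]: et and et' vanish at g (et is C^1 and zero outside), left side is m + c + (q-1)(kk r)^(q') (note ((kk r)^2)^(q'/2) = (kk r)^(q')), right side >= (kk + r kk') D >= (kk + r kk')(H - e2) >= Z + (q-1)(kk r)^(q') - C e2, r is either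
    <= r1 (if g <= d0 then r <= d0^(p-1) < r1; if d0 < g < g1 then r = g^(p-1) < r1) or >= r2: gain be min(m/2,1), e2 <= d0 small.
    g in [g1,g2] (so g >= d0, r = g^(p-1), o = g^(p-2), a1 = (p-1) g^(p-2)): -kk' r o >= c3 > 0, |et g s b| <= ep R0 b, |g et' t c| <= ep C sqrt(a b) <= (c3/2) b + ep^2 C a, a <= D/a1 <= C D. So right side
    >= (kk + r kk' - C ep^2) D + (c3/2 - ep R0) b + et g g >= (kk + r kk' - C ep^2)(H - e2) + et g g (coefficient positive) >= (kk + r kk') H - C(ep^2 + e2) + et g g;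
    left side: ((kk r)^2 + (et g t)^2)^(q'/2) <= (kk r)^(q') + C ep^2 (kk r is between positive constants there, mean value theorem). So right - left >= Z - m - c - C(ep^2+e2) + et(g) g.
    If r in [r1,r2]: et = ep: >= -C be - C(ep^2+e2) + ep g1 - c > 0 for ep small, be = ep^(3/2), e2 <= d0 <= ep^2. If r outside: >= be min(m/2,1) - C(ep^2+e2) - c > 0 (be = ep^(3/2) >> ep^2).
    c = be min(m/2,1)/4 or similar.
(D) at zero: kk 0 * D = (1+be)(m/L) D >= (1+be)(m/L)(L - e2) >= m + be m/2.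
-/

set_option autoImplicit false

open MeasureTheory Set Filter Topology
open scoped ENNReal NNReal ContDiff RealInnerProductSpace

namespace Pool.Agent.PLap

/-! ### cutoff functions -/

private theorem Scal_tau {r1 r2 : ℝ} (h : r1 < r2) : ∃ τ : ℝ → ℝ, ContDiff ℝ 1 τ ∧
    (∀ x, -1 ≤ τ x ∧ τ x ≤ 1) ∧ (∀ x, x ≤ r1 → τ x = 1) ∧ (∀ x, r2 ≤ x → τ x = -1) ∧
    (∀ x, deriv τ x ≤ 0) ∧ (∀ x, x < r1 → deriv τ x = 0) ∧ (∀ x, r2 < x → deriv τ x = 0) := by
  set τ : ℝ → ℝ := fun x => 1 - 2 * Real.smoothTransition ((x - r1) / (r2 - r1)) with hτ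
  have hd : 0 < r2 - r1 := by linarith
  have h1 : ∀ x, x ≤ r1 → τ x = 1 := by
    intro x hx
    have : (x - r1) / (r2 - r1) ≤ 0 := div_nonpos_of_nonpos_of_nonneg (by linarith) hd.le
    simp only [hτ, Real.smoothTransition.zero_of_nonpos this]
    norm_num
  have h2 : ∀ x, r2 ≤ x → τ x = -1 := by
    intro x hx
    have : 1 ≤ (x - r1) / (r2 - r1) := by
      rw [le_div_iff₀ hd]
      linarith
    simp only [hτ, Real.smoothTransition.one_of_one_le this]
    norm_num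
  have hc : ContDiff ℝ 1 τ := by
    apply contDiff_const.sub
    apply contDiff_const.mul
    exact (Real.smoothTransition.contDiff (n := 1)).comp
      ((contDiff_id.sub contDiff_const).div_const _)
  have hanti : Antitone τ := by
    intro x y hxy
    have : Real.smoothTransition ((x - r1) / (r2 - r1)) ≤
        Real.smoothTransition ((y - r1) / (r2 - r1)) := by
      apply Real.smoothTransition.monotone
      apply div_le_div_of_nonneg_right _ hd.le
      linarith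
    simp only [hτ]
    linarith
  refine ⟨τ, hc, fun x => ?_, h1, h2, fun x => hanti.deriv_nonpos, fun x hx => ?_, fun x hx => ?_⟩
  · have a1 := Real.smoothTransition.nonneg ((x - r1) / (r2 - r1))
    have a2 := Real.smoothTransition.le_one ((x - r1) / (r2 - r1))
    simp only [hτ]
    constructor <;> linarith
  · have he : τ =ᶠ[𝓝 x] fun _ => 1 := by
      filter_upwards [Iio_mem_nhds hx] with y hy
      exact h1 y hy.le
    rw [he.deriv_eq]
    simp
  · have he : τ =ᶠ[𝓝 x] fun _ => -1 := by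
      filter_upwards [Ioi_mem_nhds hx] with y hy
      exact h2 y (le_of_lt hy)
    rw [he.deriv_eq]
    simp

private theorem Scal_eta {g1 g2 : ℝ} (h1 : 0 < g1) (h2 : 0 < g2) : ∃ η : ℝ → ℝ, ContDiff ℝ 1 η ∧
    (∀ x, 0 ≤ η x ∧ η x ≤ 1) ∧ (∀ x, x ≤ g1 → η x = 0) ∧ (∀ x, g2 ≤ x → η x = 0) ∧
    (∀ x, 2 * g1 ≤ x → x ≤ g2 / 2 → η x = 1) ∧ (∀ x, x < g1 → deriv η x = 0) ∧
    (∀ x, g2 < x → deriv η x = 0) := by
  set η : ℝ → ℝ := fun x => Real.smoothTransition ((x - g1) / g1) *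
    Real.smoothTransition ((g2 - x) / (g2 / 2)) with hη
  have a1 : ∀ x, x ≤ g1 → η x = 0 := by
    intro x hx
    have : (x - g1) / g1 ≤ 0 := div_nonpos_of_nonpos_of_nonneg (by linarith) h1.le
    simp only [hη, Real.smoothTransition.zero_of_nonpos this, zero_mul]
  have a2 : ∀ x, g2 ≤ x → η x = 0 := by
    intro x hx
    have : (g2 - x) / (g2 / 2) ≤ 0 := div_nonpos_of_nonpos_of_nonneg (by linarith) (by linarith)
    simp only [hη, Real.smoothTransition.zero_of_nonpos this, mul_zero]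
  have hc : ContDiff ℝ 1 η := by
    apply ContDiff.mul
    · exact (Real.smoothTransition.contDiff (n := 1)).comp
        ((contDiff_id.sub contDiff_const).div_const _)
    · exact (Real.smoothTransition.contDiff (n := 1)).comp
        ((contDiff_const.sub contDiff_id).div_const _)
  refine ⟨η, hc, fun x => ?_, a1, a2, fun x hx hx2 => ?_, fun x hx => ?_, fun x hx => ?_⟩
  · have b1 := Real.smoothTransition.nonneg ((x - g1) / g1)
    have b2 := Real.smoothTransition.le_one ((x - g1) / g1)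
    have b3 := Real.smoothTransition.nonneg ((g2 - x) / (g2 / 2))
    have b4 := Real.smoothTransition.le_one ((g2 - x) / (g2 / 2))
    simp only [hη]
    exact ⟨mul_nonneg b1 b3, mul_le_one₀ b2 b3 b4⟩
  · have b1 : 1 ≤ (x - g1) / g1 := by
      rw [le_div_iff₀ h1]
      linarith
    have b2 : 1 ≤ (g2 - x) / (g2 / 2) := by
      rw [le_div_iff₀ (by linarith)]
      linarith
    simp only [hη, Real.smoothTransition.one_of_one_le b1, Real.smoothTransition.one_of_one_le b2]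
    norm_num
  · have he : η =ᶠ[𝓝 x] fun _ => 0 := by
      filter_upwards [Iio_mem_nhds hx] with y hy
      exact a1 y hy.le
    rw [he.deriv_eq]
    simp
  · have he : η =ᶠ[𝓝 x] fun _ => 0 := by
      filter_upwards [Ioi_mem_nhds hx] with y hy
      exact a2 y (le_of_lt hy)
    rw [he.deriv_eq]
    simp

/-! ### elementary inequalities -/

private theorem Scal_exp_le {x : ℝ} : Real.exp x ≤ 1 + x * Real.exp x := by
  have h := Real.add_one_le_exp (-x)
  have h2 : Real.exp (-x) * Real.exp x = 1 := by rw [← Real.exp_add]; simp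
  have h3 := Real.exp_pos x
  nlinarith [mul_le_mul_of_nonneg_right h h3.le]

private theorem Scal_pw {u1 u2 u v V s : ℝ} (hu1 : 0 < u1) (hu : u1 ≤ u) (hu2 : u ≤ u2)
    (hv : 0 ≤ v) (hV : v ≤ V) (hs : 0 < s) :
    (u + v) ^ s ≤ u ^ s + (u2 ^ s * (s / u1) * Real.exp (s * (V / u1))) * v := by
  have hu0 : 0 < u := lt_of_lt_of_le hu1 hu
  have e1 : u + v = u * (1 + v / u) := by field_simp
  have e2 : (u + v) ^ s = u ^ s * (1 + v / u) ^ s := by
    rw [e1, Real.mul_rpow hu0.le (by positivity)]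
  have hvu : v / u ≤ v / u1 := div_le_div_of_nonneg_left hv hu1 hu
  have hvV : v / u1 ≤ V / u1 := div_le_div_of_nonneg_right hV hu1.le
  have e3 : (1 + v / u) ^ s ≤ Real.exp (s * (v / u)) := by
    have : 1 + v / u ≤ Real.exp (v / u) := by
      have := Real.add_one_le_exp (v / u)
      linarith
    calc (1 + v / u) ^ s ≤ (Real.exp (v / u)) ^ s :=
          Real.rpow_le_rpow (by positivity) this hs.le
      _ = Real.exp (s * (v / u)) := by
          rw [← Real.exp_mul, mul_comm]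
  have e4 : Real.exp (s * (v / u)) ≤ 1 + (s / u1) * v * Real.exp (s * (V / u1)) := by
    refine Scal_exp_le.trans ?_
    have h1 : s * (v / u) ≤ s / u1 * v := by
      calc s * (v / u) ≤ s * (v / u1) := mul_le_mul_of_nonneg_left hvu hs.le
        _ = s / u1 * v := by ring
    have h2 : Real.exp (s * (v / u)) ≤ Real.exp (s * (V / u1)) :=
      Real.exp_le_exp.2 (mul_le_mul_of_nonneg_left (hvu.trans hvV) hs.le)
    have h3 : s * (v / u) * Real.exp (s * (v / u)) ≤ s / u1 * v * Real.exp (s * (V / u1)) :=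
      mul_le_mul h1 h2 (Real.exp_pos _).le (by positivity)
    linarith
  have e5 : u ^ s ≤ u2 ^ s := Real.rpow_le_rpow hu0.le hu2 hs.le
  have e6 : 0 ≤ u ^ s := by positivity
  rw [e2]
  calc u ^ s * (1 + v / u) ^ s ≤ u ^ s * (1 + (s / u1) * v * Real.exp (s * (V / u1))) :=
        mul_le_mul_of_nonneg_left (e3.trans e4) e6
    _ = u ^ s + u ^ s * ((s / u1) * v * Real.exp (s * (V / u1))) := by ring
    _ ≤ u ^ s + u2 ^ s * ((s / u1) * v * Real.exp (s * (V / u1))) := by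
        have : 0 ≤ (s / u1) * v * Real.exp (s * (V / u1)) := by positivity
        have := mul_le_mul_of_nonneg_right e5 this
        linarith
    _ = _ := by ring

/-- upper bound, `q' ≥ 1` -/
private theorem Scal_W1 {q' u β : ℝ} (hq : 1 ≤ q') (hβ : 0 ≤ β) (hβ1 : β ≤ 1 / 2)
    (hu : -β ≤ u) (hu1 : u ≤ β) :
    (1 + u) ^ q' - (1 + u) ≤ q' * Real.exp (q' / 2) * β := by
  rcases le_or_gt 0 u with h | h
  · have h1 : (1 + u) ^ q' ≤ Real.exp (q' * u) := by
      have : 1 + u ≤ Real.exp u := by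
        have := Real.add_one_le_exp u
        linarith
      calc (1 + u) ^ q' ≤ (Real.exp u) ^ q' :=
            Real.rpow_le_rpow (by positivity) this (by linarith)
        _ = Real.exp (q' * u) := by
            rw [← Real.exp_mul, mul_comm]
    have h2 : Real.exp (q' * u) ≤ 1 + q' * u * Real.exp (q' * u) := Scal_exp_le
    have h3 : Real.exp (q' * u) ≤ Real.exp (q' / 2) := by
      apply Real.exp_le_exp.2
      nlinarith
    have h4 : q' * u * Real.exp (q' * u) ≤ q' * β * Real.exp (q' / 2) :=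
      mul_le_mul (by nlinarith) h3 (Real.exp_pos _).le (by positivity)
    nlinarith
  · have h1 : (1 + u) ^ q' ≤ 1 + u := by
      calc (1 + u) ^ q' ≤ (1 + u) ^ (1 : ℝ) :=
            Real.rpow_le_rpow_of_exponent_ge (by linarith) (by linarith) hq
        _ = 1 + u := Real.rpow_one _
    have h2 : 0 ≤ q' * Real.exp (q' / 2) * β := by positivity
    linarith

/-- lower bound -/
private theorem Scal_W2 {σ β : ℝ} (hσ : 0 < σ) (hβ : 0 ≤ β) (hβ1 : β ≤ 1 / 2) :
    σ / (2 * (1 + σ)) * β ≤ (1 - β) - (1 - β) ^ (1 + σ) := by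
  have h1 : (1 - β) ^ (1 + σ) = (1 - β) * (1 - β) ^ σ := by
    rw [Real.rpow_add (by linarith), Real.rpow_one]
  have h2 : (1 - β) ^ σ ≤ Real.exp (-(σ * β)) := by
    have : 1 - β ≤ Real.exp (-β) := by
      have := Real.add_one_le_exp (-β)
      linarith
    calc (1 - β) ^ σ ≤ (Real.exp (-β)) ^ σ :=
          Real.rpow_le_rpow (by linarith) this hσ.le
      _ = Real.exp (-(σ * β)) := by
          rw [← Real.exp_mul]
          congr 1
          ring
  have h3 : Real.exp (-(σ * β)) ≤ 1 / (1 + σ * β) := by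
    rw [Real.exp_neg, ← one_div]
    apply one_div_le_one_div_of_le (by positivity)
    have := Real.add_one_le_exp (σ * β)
    linarith
  have h4 : 1 / (1 + σ * β) ≤ 1 - σ / (1 + σ) * β := by
    rw [div_le_iff₀ (by positivity)]
    have e1 : σ / (1 + σ) * (1 + σ) = σ := by field_simp
    set w := σ / (1 + σ) with hw
    have hw0 : 0 < w := by positivity
    have hw1 : w < 1 := by
      rw [hw, div_lt_one (by positivity)]
      linarith
    have e2 : w + w * σ = σ := by linarith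
    nlinarith [mul_nonneg hβ (by linarith : (0 : ℝ) ≤ 1 - β), mul_pos hw0 hσ,
      mul_nonneg (mul_pos hw0 hσ).le (mul_nonneg hβ (by linarith : (0 : ℝ) ≤ 1 - β))]
  have h5 : (1 - β) ^ σ ≤ 1 - σ / (1 + σ) * β := h2.trans (h3.trans h4)
  have e3 : σ / (2 * (1 + σ)) = (1 / 2) * (σ / (1 + σ)) := by field_simp
  rw [h1, e3]
  have h6 : 0 ≤ σ / (1 + σ) * β := by positivity
  nlinarith

private theorem Scal_small (C : ℝ) {c : ℝ} (hc : 0 < c) : ∀ᶠ δ : ℝ in 𝓝[>] 0, C * δ ≤ c := by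
  have h : Tendsto (fun δ : ℝ => C * δ) (𝓝 0) (𝓝 0) := by
    have : Continuous (fun δ : ℝ => C * δ) := by fun_prop
    simpa using this.tendsto 0
  have h2 := h.eventually (gt_mem_nhds hc)
  exact (h2.filter_mono nhdsWithin_le_nhds).mono fun _ hx => le_of_lt hx

/-! ### the comparison function -/

/-- the derivative of `Th` -/
private noncomputable def Scal_D (p q L m : ℝ) (Th : ℝ → ℝ) (r : ℝ) : ℝ :=
  (m + (q - 1) * Th r ^ (q / (q - 1))) / (L + (p - 1) * r ^ (p / (p - 1)))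

/-- the derivative of `Th r / r` -/
private noncomputable def Scal_kp (p q L m : ℝ) (Th : ℝ → ℝ) (r : ℝ) : ℝ :=
  (Scal_D p q L m Th r * r - Th r) / r ^ 2

private theorem Scal_H_pos {p L r : ℝ} (hp : 1 < p) (hL : 0 < L) (hr : 0 ≤ r) :
    0 < L + (p - 1) * r ^ (p / (p - 1)) := by
  have h1 : 0 ≤ r ^ (p / (p - 1)) := Real.rpow_nonneg hr _
  have h2 : 0 < p - 1 := by linarith
  positivity

private theorem Scal_H_cont {p L : ℝ} (hp : 1 < p) :
    Continuous (fun r : ℝ => L + (p - 1) * r ^ (p / (p - 1))) := by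
  have h2 : 0 < p - 1 := by linarith
  have h3 : 0 ≤ p / (p - 1) := by positivity
  exact continuous_const.add (continuous_const.mul (Real.continuous_rpow_const h3))

section CF
variable {p q L m : ℝ} {Th : ℝ → ℝ}

private theorem Scal_Th_zero (hTh : CompFn p q L m Th) : Tendsto Th (𝓝[>] 0) (𝓝 0) := by
  have h := hTh.deriv0.continuousWithinAt
  have h2 : Tendsto Th (𝓝[Ici 0] 0) (𝓝 (Th 0)) := h
  rw [hTh.zero] at h2
  exact h2.mono_left (nhdsWithin_mono _ Ioi_subset_Ici_self)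

private theorem Scal_k_zero (hTh : CompFn p q L m Th) :
    Tendsto (fun r => Th r / r) (𝓝[>] 0) (𝓝 (m / L)) := by
  have h := hasDerivWithinAt_iff_tendsto_slope.1 hTh.deriv0
  have h2 : (Ici (0 : ℝ)) \ {0} = Ioi 0 := by
    ext x
    simp only [Set.mem_sdiff, mem_Ici, mem_singleton_iff, mem_Ioi]
    constructor
    · rintro ⟨a, b⟩
      exact lt_of_le_of_ne a (Ne.symm b)
    · intro a
      exact ⟨a.le, a.ne'⟩
  rw [h2] at h
  refine h.congr fun x => ?_
  rw [slope_def_field, hTh.zero, sub_zero, sub_zero]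

private theorem Scal_Th_cont (hTh : CompFn p q L m Th) : ContinuousOn Th (Ioi 0) :=
  fun r hr => (hTh.deriv r hr).continuousAt.continuousWithinAt

private theorem Scal_D_cont (hp : 1 < p) (hL : 0 < L) (hTh : CompFn p q L m Th) :
    ContinuousOn (Scal_D p q L m Th) (Ioi 0) := by
  apply ContinuousOn.div
  · apply continuousOn_const.add
    apply continuousOn_const.mul
    exact (Scal_Th_cont hTh).rpow_const fun x hx => Or.inl (hTh.pos x hx).ne'
  · exact (Scal_H_cont hp).continuousOn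
  · intro x hx
    exact (Scal_H_pos hp hL (le_of_lt hx)).ne'

private theorem Scal_D_pos (hp : 1 < p) (hq : 1 < q) (hL : 0 < L) (hm : 0 < m)
    (hTh : CompFn p q L m Th) {r : ℝ} (hr : 0 < r) : 0 < Scal_D p q L m Th r := by
  have h1 := hTh.pos r hr
  have h2 : 0 < q - 1 := by linarith
  exact div_pos (by positivity) (Scal_H_pos hp hL hr.le)

private theorem Scal_D_zero (hp : 1 < p) (hq : 1 < q) (hL : 0 < L) (hTh : CompFn p q L m Th) :
    Tendsto (Scal_D p q L m Th) (𝓝[>] 0) (𝓝 (m / L)) := by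
  have h2 : 0 < q - 1 := by linarith
  have h3 : 0 < q / (q - 1) := by positivity
  have h4 : 0 < p - 1 := by linarith
  have h5 : 0 < p / (p - 1) := by positivity
  have e1 : Tendsto (fun r => m + (q - 1) * Th r ^ (q / (q - 1))) (𝓝[>] 0) (𝓝 m) := by
    have : Tendsto (fun r => Th r ^ (q / (q - 1))) (𝓝[>] 0) (𝓝 (0 ^ (q / (q - 1)))) :=
      (Scal_Th_zero hTh).rpow_const (Or.inr h3.le)
    rw [Real.zero_rpow h3.ne'] at this
    have := (this.const_mul (q - 1)).const_add m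
    simpa using this
  have e2 : Tendsto (fun r : ℝ => L + (p - 1) * r ^ (p / (p - 1))) (𝓝[>] 0) (𝓝 L) := by
    have := ((Scal_H_cont (L := L) hp).tendsto 0).mono_left (nhdsWithin_le_nhds (s := Ioi 0))
    rw [Real.zero_rpow h5.ne'] at this
    simpa using this
  exact e1.div e2 hL.ne'

private theorem Scal_kp_deriv (hTh : CompFn p q L m Th) {r : ℝ} (hr : 0 < r) :
    HasDerivAt (fun r => Th r / r) (Scal_kp p q L m Th r) r := by
  have h := (hTh.deriv r hr).div (hasDerivAt_id r) hr.ne'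
  have e : Scal_kp p q L m Th r = (((m + (q - 1) * Th r ^ (q / (q - 1))) /
      (L + (p - 1) * r ^ (p / (p - 1)))) * id r - Th r * 1) / id r ^ 2 := by
    simp [Scal_kp, Scal_D]
  rw [e]
  exact h

private theorem Scal_kp_neg (hTh : CompFn p q L m Th)
    (hk : ∀ r, 0 < r →
      r * ((m + (q - 1) * Th r ^ (q / (q - 1))) / (L + (p - 1) * r ^ (p / (p - 1)))) < Th r)
    {r : ℝ} (hr : 0 < r) : Scal_kp p q L m Th r < 0 := by
  have h := hk r hr
  unfold Scal_kp Scal_D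
  apply div_neg_of_neg_of_pos _ (by positivity)
  linarith

private theorem Scal_kp_cont (hp : 1 < p) (hL : 0 < L) (hTh : CompFn p q L m Th) :
    ContinuousOn (Scal_kp p q L m Th) (Ioi 0) := by
  apply ContinuousOn.div
  · exact ((Scal_D_cont hp hL hTh).mul continuousOn_id).sub (Scal_Th_cont hTh)
  · exact continuousOn_id.pow 2
  · intro x hx
    have : (0 : ℝ) < x := hx
    positivity

private theorem Scal_kp_eq {r : ℝ} (hr : 0 < r) :
    r * Scal_kp p q L m Th r = Scal_D p q L m Th r - Th r / r := by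
  unfold Scal_kp
  field_simp

private theorem Scal_k_le (hTh : CompFn p q L m Th)
    (hk : ∀ r, 0 < r →
      r * ((m + (q - 1) * Th r ^ (q / (q - 1))) / (L + (p - 1) * r ^ (p / (p - 1)))) < Th r)
    {r : ℝ} (hr : 0 < r) : Th r / r ≤ m / L := by
  have hanti : AntitoneOn (fun r => Th r / r) (Ioi 0) := by
    apply antitoneOn_of_deriv_nonpos (convex_Ioi 0)
    · intro x hx
      exact (Scal_kp_deriv hTh hx).continuousAt.continuousWithinAt
    · rw [interior_Ioi]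
      intro x hx
      exact (Scal_kp_deriv hTh hx).differentiableAt.differentiableWithinAt
    · rw [interior_Ioi]
      intro x hx
      rw [(Scal_kp_deriv hTh hx).deriv]
      exact (Scal_kp_neg hTh hk hx).le
  refine ge_of_tendsto (Scal_k_zero hTh) ?_
  filter_upwards [Ioo_mem_nhdsGT hr] with x hx
  exact hanti hx.1 (mem_Ioi.2 hr) hx.2.le

private theorem Scal_D_le (hTh : CompFn p q L m Th)
    (hk : ∀ r, 0 < r →
      r * ((m + (q - 1) * Th r ^ (q / (q - 1))) / (L + (p - 1) * r ^ (p / (p - 1)))) < Th r)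
    {r : ℝ} (hr : 0 < r) : Scal_D p q L m Th r ≤ m / L := by
  refine le_trans ?_ (Scal_k_le hTh hk hr)
  rw [le_div_iff₀ hr]
  have := hk r hr
  unfold Scal_D
  linarith

/-- choice of `r1` -/
private theorem Scal_r1 (hq : 1 < q) (hTh : CompFn p q L m Th) (C : ℝ) {c : ℝ} (hc : 0 < c) :
    ∃ r1, 0 < r1 ∧ ∀ r, 0 < r → r ≤ r1 → C * Th r ^ (q / (q - 1)) ≤ c := by
  have h2 : 0 < q - 1 := by linarith
  have h3 : 0 < q / (q - 1) := by positivity
  have : Tendsto (fun r => C * Th r ^ (q / (q - 1))) (𝓝[>] 0) (𝓝 0) := by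
    have : Tendsto (fun r => Th r ^ (q / (q - 1))) (𝓝[>] 0) (𝓝 (0 ^ (q / (q - 1)))) :=
      (Scal_Th_zero hTh).rpow_const (Or.inr h3.le)
    rw [Real.zero_rpow h3.ne'] at this
    simpa using this.const_mul C
  have h4 := this.eventually (gt_mem_nhds hc)
  obtain ⟨e, he, he2⟩ := mem_nhdsGT_iff_exists_Ioo_subset.1 h4
  have he0 : (0 : ℝ) < e := he
  refine ⟨e / 2, by linarith, fun r hr hr2 => ?_⟩
  have : r ∈ Ioo 0 e := ⟨hr, by linarith⟩
  exact le_of_lt (he2 this)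

/-- choice of `r2` -/
private theorem Scal_r2 (hq : 1 < q) (hTh : CompFn p q L m Th) {C : ℝ} (hC : 0 < C) (c r1 : ℝ) :
    ∃ r2, r1 < r2 ∧ ∀ r, r2 ≤ r → c ≤ C * Th r ^ (q / (q - 1)) := by
  have h2 : 0 < q - 1 := by linarith
  have h3 : 0 < q / (q - 1) := by positivity
  have h4 : Tendsto (fun r => C * Th r ^ (q / (q - 1))) atTop atTop :=
    ((tendsto_rpow_atTop h3).comp hTh.top).const_mul_atTop hC
  obtain ⟨N, hN⟩ := eventually_atTop.1 (h4.eventually_ge_atTop c)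
  refine ⟨max N (r1 + 1), ?_, fun r hr => hN r (le_trans (le_max_left _ _) hr)⟩
  have := le_max_right N (r1 + 1)
  linarith

private theorem Scal_Zid (hp : 1 < p) (hL : 0 < L) (hTh : CompFn p q L m Th) {r u w : ℝ}
    (hr : 0 < r) (hu : 0 ≤ 1 + u) :
    ((1 + u) * Scal_D p q L m Th r + w) * (L + (p - 1) * r ^ (p / (p - 1))) -
      (q - 1) * ((1 + u) * Th r) ^ (q / (q - 1)) =
    (1 + u) * m + (q - 1) * Th r ^ (q / (q - 1)) * ((1 + u) - (1 + u) ^ (q / (q - 1))) +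
      w * (L + (p - 1) * r ^ (p / (p - 1))) := by
  have hH := Scal_H_pos hp hL hr.le
  have e1 : Scal_D p q L m Th r * (L + (p - 1) * r ^ (p / (p - 1))) =
      m + (q - 1) * Th r ^ (q / (q - 1)) := by
    unfold Scal_D
    exact div_mul_cancel₀ _ hH.ne'
  rw [Real.mul_rpow hu (hTh.pos r hr).le, add_mul, mul_assoc, e1]
  ring

end CF

/-- outside the support of `eta` -/
private theorem Scal_I {m c q P X X2 H D Y e2 d0 w : ℝ} (hX : 0 ≤ X) (hX2 : X ≤ X2) (hY : 0 ≤ Y)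
    (hD : H - e2 ≤ D) (he : 0 ≤ e2) (he2 : e2 ≤ d0) (hd : X2 * d0 ≤ w)
    (hZ : m + c + w ≤ X * H - (q - 1) * P) : m + c + (q - 1) * P ≤ X * D + Y := by
  have h1 : X * (H - e2) ≤ X * D := mul_le_mul_of_nonneg_left hD hX
  have h2 : X * e2 ≤ X2 * d0 := mul_le_mul hX2 he2 he (hX.trans hX2)
  nlinarith

/-- on the support of `eta` -/
private theorem Scal_II {m c q P Q X X2 H H2 Yc c3 a b a1 o A1 E1 ep ηg g s t cc R et1 e2 C4 C5 : ℝ}
    (hq : 1 < q) (hD : H - e2 ≤ a1 * a + o * b) (hA1 : 0 < A1) (ha1 : A1 ≤ a1) (ha : 0 ≤ a)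
    (hb : 0 ≤ b) (ho : 0 < o) (hcc : cc ^ 2 ≤ a * b) (hs : |s| ≤ R) (ht : |t| ≤ R)
    (hη : 0 ≤ ηg) (hη1 : ηg ≤ 1) (hE : |g * et1| * R ≤ E1) (hep : 0 < ep)
    (hc3 : 0 < c3) (hY : c3 ≤ Yc) (hepR : ep * R ≤ c3 / 2)
    (hC4 : C4 = E1 ^ 2 / (2 * c3 * A1)) (hX : C4 * ep ^ 2 ≤ X) (hX2 : X ≤ X2)
    (he : 0 ≤ e2) (hH : H ≤ H2) (hQ : Q ≤ P + C5 * ep ^ 2)
    (hfin : m + c + (q - 1) * (P + C5 * ep ^ 2) ≤
      X * H - C4 * ep ^ 2 * H2 - X2 * e2 + ep * ηg * g) :
    m + c + (q - 1) * Q ≤ X * (a1 * a + o * b) + Yc * b +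
      (ep * ηg * g - ep * ηg * (s * b) + g * (ep * et1 * (t * cc))) := by
  have hR : 0 ≤ R := le_trans (abs_nonneg _) hs
  have hE0 : 0 ≤ E1 := le_trans (by positivity) hE
  have hC40 : 0 ≤ C4 := by rw [hC4]; positivity
  -- the cross term
  have h1 : |g * (ep * et1 * (t * cc))| ≤ ep * E1 * |cc| := by
    have e1 : g * (ep * et1 * (t * cc)) = ep * ((g * et1) * t) * cc := by ring
    rw [e1, abs_mul, abs_mul, abs_of_pos hep, abs_mul (g * et1) t]
    have e2 : |g * et1| * |t| ≤ E1 := (mul_le_mul_of_nonneg_left ht (abs_nonneg _)).trans hE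
    exact mul_le_mul_of_nonneg_right (mul_le_mul_of_nonneg_left e2 hep.le) (abs_nonneg _)
  have h2 : ep * E1 * |cc| ≤ c3 / 2 * b + ep ^ 2 * E1 ^ 2 / (2 * c3) * a := by
    apply abs_le_of_sq_le_sq' _ (by positivity) |>.2
    have e1 : (ep * E1 * |cc|) ^ 2 = ep ^ 2 * E1 ^ 2 * cc ^ 2 := by
      rw [mul_pow, mul_pow, sq_abs]
    have e2 : ep ^ 2 * E1 ^ 2 * cc ^ 2 ≤ ep ^ 2 * E1 ^ 2 * (a * b) :=
      mul_le_mul_of_nonneg_left hcc (by positivity)
    have e3 : 4 * (c3 / 2 * b) * (ep ^ 2 * E1 ^ 2 / (2 * c3) * a) = ep ^ 2 * E1 ^ 2 * (a * b) := by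
      field_simp
      ring
    nlinarith [sq_nonneg (c3 / 2 * b - ep ^ 2 * E1 ^ 2 / (2 * c3) * a)]
  have h3 : ep ^ 2 * E1 ^ 2 / (2 * c3) * a ≤ C4 * ep ^ 2 * (a1 * a + o * b) := by
    have e1 : ep ^ 2 * E1 ^ 2 / (2 * c3) * a = C4 * ep ^ 2 * (A1 * a) := by
      rw [hC4]
      field_simp
    rw [e1]
    apply mul_le_mul_of_nonneg_left _ (by positivity)
    have e2 := mul_le_mul_of_nonneg_right ha1 ha
    have e3 : 0 ≤ o * b := by positivity
    linarith
  have h4 : ep * ηg * (s * b) ≤ c3 / 2 * b := by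
    have e1 : ηg * s ≤ R := by
      have e2 : s ≤ R := (le_abs_self s).trans hs
      nlinarith
    calc ep * ηg * (s * b) = ep * (ηg * s) * b := by ring
      _ ≤ ep * R * b := mul_le_mul_of_nonneg_right (mul_le_mul_of_nonneg_left e1 hep.le) hb
      _ ≤ c3 / 2 * b := mul_le_mul_of_nonneg_right hepR hb
  have h5 := (abs_le.1 h1).1
  have h6 : c3 * b ≤ Yc * b := mul_le_mul_of_nonneg_right hY hb
  have h7 : (X - C4 * ep ^ 2) * (H - e2) ≤ (X - C4 * ep ^ 2) * (a1 * a + o * b) :=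
    mul_le_mul_of_nonneg_left hD (by linarith)
  have h8 : C4 * ep ^ 2 * H ≤ C4 * ep ^ 2 * H2 := mul_le_mul_of_nonneg_left hH (by positivity)
  have h9 : X * e2 ≤ X2 * e2 := mul_le_mul_of_nonneg_right hX2 he
  have h10 : 0 ≤ C4 * ep ^ 2 * e2 := by positivity
  have h11 : (q - 1) * Q ≤ (q - 1) * (P + C5 * ep ^ 2) :=
    mul_le_mul_of_nonneg_left hQ (by linarith)
  nlinarith

private theorem Scal_bdd {g1 g2 : ℝ} {f : ℝ → ℝ} (hf : ContinuousOn f (Icc g1 g2)) :
    ∃ M, 0 < M ∧ ∀ g ∈ Icc g1 g2, |f g| ≤ M := by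
  obtain ⟨C, hC⟩ := isCompact_Icc.exists_bound_of_continuousOn hf
  refine ⟨max C 1, lt_of_lt_of_le one_pos (le_max_right _ _), fun g hg => ?_⟩
  exact (hC g hg).trans (le_max_left _ _)

private theorem Scal_low {g1 g2 : ℝ} {f : ℝ → ℝ} (hg : g1 ≤ g2) (hf : ContinuousOn f (Icc g1 g2))
    (hpos : ∀ g ∈ Icc g1 g2, 0 < f g) : ∃ c, 0 < c ∧ ∀ g ∈ Icc g1 g2, c ≤ f g := by
  obtain ⟨x, hx, hx2⟩ := isCompact_Icc.exists_isMinOn (nonempty_Icc.2 hg) hf
  exact ⟨f x, hpos x hx, fun g hg => hx2 hg⟩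

private theorem Scal_delta {K1 N1 C4 R c3 C7 G1 C6 m1 : ℝ} (hK1 : 0 ≤ K1) (hN1 : 0 < N1)
    (hC4 : 0 ≤ C4) (hR : 0 ≤ R) (hc3 : 0 < c3) (hG : 0 < G1) (hm1 : 0 < m1) :
    ∃ β ε : ℝ, 0 < β ∧ 0 < ε ∧ β ≤ 1 / 2 ∧ ε ≤ 1 ∧ β * K1 ≤ N1 / 4 ∧ C4 * ε ^ 2 ≤ N1 / 4 ∧
      ε * R ≤ c3 / 2 ∧ β * C7 ≤ ε * (G1 / 2) ∧ C6 * ε ^ 2 ≤ β * m1 / 4 := by
  have hev : ∀ᶠ δ : ℝ in 𝓝[>] 0, 0 < δ := self_mem_nhdsWithin
  obtain ⟨δ, hδ, hδ1, hδ2, hδ3, hδ4, hδ5, hδ6⟩ := (hev.and
    ((Scal_small 1 (show (0 : ℝ) < 1 / 2 by norm_num)).and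
    ((Scal_small K1 (show 0 < N1 / 4 by linarith)).and
    ((Scal_small C4 (show 0 < N1 / 4 by linarith)).and
    ((Scal_small R (show 0 < c3 / 2 by linarith)).and
    ((Scal_small C7 (show 0 < G1 / 2 by linarith)).and
    (Scal_small C6 (show 0 < m1 / 4 by linarith)))))))).exists
  rw [one_mul] at hδ1
  have hδ2' : δ ^ 2 ≤ δ := by nlinarith
  have hδ3' : δ ^ 3 ≤ δ := by nlinarith [mul_pos hδ hδ]
  have hδ4' : (δ ^ 2) ^ 2 ≤ δ := by nlinarith [mul_pos hδ hδ]
  refine ⟨δ ^ 3, δ ^ 2, by positivity, by positivity, by linarith, by linarith, ?_, ?_, ?_, ?_, ?_⟩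
  · have := mul_le_mul_of_nonneg_right hδ3' hK1
    linarith
  · have := mul_le_mul_of_nonneg_left hδ4' hC4
    linarith
  · have := mul_le_mul_of_nonneg_right hδ2' hR
    linarith
  · have := mul_le_mul_of_nonneg_left hδ5 (sq_nonneg δ)
    linarith
  · have := mul_le_mul_of_nonneg_left hδ6 (show 0 ≤ δ ^ 3 by positivity)
    linarith

private theorem Scal_bt {β t : ℝ} (hβ0 : 0 < β) (hβ1 : β ≤ 1 / 2) (h1 : -1 ≤ t) (h2 : t ≤ 1) :
    1 / 2 ≤ 1 + β * t ∧ 1 + β * t ≤ 3 / 2 := by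
  constructor <;> nlinarith

private theorem Scal_kdle {x k w : ℝ} (hk : k < 0) (hx : 1 / 2 ≤ x) (hw : w ≤ 0) :
    x * k + w ≤ k / 2 := by nlinarith

private theorem Scal_sq_rpow {x y : ℝ} (hx : 0 ≤ x) : (x ^ 2) ^ (y / 2) = x ^ y := by
  rw [← Real.rpow_natCast, ← Real.rpow_mul hx]
  congr 1
  push_cast
  ring

private theorem Scal_at0 {β m L X2 m1 c e2 d0 D : ℝ} (hβ0 : 0 < β) (hβ1 : β ≤ 1 / 2) (hm : 0 < m)
    (hL : 0 < L) (hX2 : X2 = 3 / 2 * (m / L)) (hd : X2 * d0 ≤ β * m1 / 4) (hc : c = β * m1 / 4)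
    (hm1 : m1 ≤ m / 2) (he : 0 ≤ e2) (he2 : e2 ≤ d0) (hD : L - e2 ≤ D) :
    m + c ≤ (1 + β) * (m / L) * D := by
  have hmL : 0 < m / L := by positivity
  have h0 : 0 ≤ (1 + β) * (m / L) := by positivity
  have h1 := mul_le_mul_of_nonneg_left hD h0
  have h2 : (1 + β) * (m / L) * (L - e2) = (1 + β) * m - (1 + β) * (m / L) * e2 := by
    field_simp
  have h3 : (1 + β) * (m / L) ≤ X2 := by
    rw [hX2]
    exact mul_le_mul_of_nonneg_right (by linarith) hmL.le
  have h4 : (1 + β) * (m / L) * e2 ≤ X2 * d0 := mul_le_mul h3 he2 he (h0.trans h3)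
  have h5 : β * m1 ≤ β * (m / 2) := mul_le_mul_of_nonneg_left hm1 hβ0.le
  have h6 : 0 < β * m := by positivity
  linarith

private theorem Scal_vV {ε η g t G R : ℝ} (hη : 0 ≤ η) (hη1 : η ≤ 1) (hg : 0 ≤ g) (hgG : g ≤ G)
    (ht : |t| ≤ R) : (ε * η * (g * t)) ^ 2 ≤ ε ^ 2 * (G * R) ^ 2 := by
  have h1 : |g * t| ≤ G * R := by
    rw [abs_mul, abs_of_nonneg hg]
    exact mul_le_mul hgG ht (abs_nonneg _) (hg.trans hgG)
  have h2 : |η * (g * t)| ≤ G * R := by
    rw [abs_mul, abs_of_nonneg hη]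
    exact (mul_le_of_le_one_left (abs_nonneg _) hη1).trans h1
  have h3 : (η * (g * t)) ^ 2 ≤ (G * R) ^ 2 := by
    rw [← sq_abs (η * (g * t))]
    exact pow_le_pow_left₀ (abs_nonneg _) h2 2
  have h4 : (ε * η * (g * t)) ^ 2 = ε ^ 2 * (η * (g * t)) ^ 2 := by ring
  rw [h4]
  exact mul_le_mul_of_nonneg_left h3 (sq_nonneg _)

private theorem Scal_Z_small {p q L m : ℝ} {Th : ℝ → ℝ} (hp : 1 < p) (hq : 1 < q) (hL : 0 < L)
    (hTh : CompFn p q L m Th) {r β : ℝ} (hr : 0 < r) (hβ : 0 ≤ β)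
    (hβ1 : β ≤ 1 / 2)
    (h : (q - 1) * (q / (q - 1) * Real.exp (q / (q - 1) / 2)) * Th r ^ (q / (q - 1)) ≤ m / 2) :
    m + β * (m / 2) ≤ ((1 + β) * Scal_D p q L m Th r) * (L + (p - 1) * r ^ (p / (p - 1))) -
      (q - 1) * ((1 + β) * Th r) ^ (q / (q - 1)) := by
  have hid := Scal_Zid (w := 0) hp hL hTh hr (show 0 ≤ 1 + β by linarith)
  rw [add_zero, zero_mul, add_zero] at hid
  rw [hid]
  have hq1 : 0 < q - 1 := by linarith
  have hq' : 1 ≤ q / (q - 1) := by
    rw [le_div_iff₀ hq1]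
    linarith
  have hW := Scal_W1 hq' hβ hβ1 (show -β ≤ β by linarith) le_rfl
  have hT : 0 ≤ (q - 1) * Th r ^ (q / (q - 1)) := by
    have := (hTh.pos r hr).le
    positivity
  have h1 := mul_le_mul_of_nonneg_left hW hT
  have h2 := mul_le_mul_of_nonneg_right h hβ
  nlinarith

private theorem Scal_Z_large {p q L m : ℝ} {Th : ℝ → ℝ} (hp : 1 < p) (hq : 1 < q) (hL : 0 < L)
    (hTh : CompFn p q L m Th) {r β σ : ℝ} (hr : 0 < r) (hβ : 0 ≤ β)
    (hβ1 : β ≤ 1 / 2) (hσ : 0 < σ) (hσq : q / (q - 1) = 1 + σ)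
    (h : m + 1 ≤ (q - 1) * (σ / (2 * (1 + σ))) * Th r ^ (q / (q - 1))) :
    m + β * 1 ≤ ((1 + -β) * Scal_D p q L m Th r) * (L + (p - 1) * r ^ (p / (p - 1))) -
      (q - 1) * ((1 + -β) * Th r) ^ (q / (q - 1)) := by
  have hid := Scal_Zid (w := 0) hp hL hTh hr (show 0 ≤ 1 + -β by linarith)
  rw [add_zero, zero_mul, add_zero] at hid
  rw [hid]
  have hq1 : 0 < q - 1 := by linarith
  have hW : σ / (2 * (1 + σ)) * β ≤ (1 + -β) - (1 + -β) ^ (q / (q - 1)) := by
    rw [hσq, ← sub_eq_add_neg]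
    exact Scal_W2 hσ hβ hβ1
  have hT : 0 ≤ (q - 1) * Th r ^ (q / (q - 1)) := by
    have := (hTh.pos r hr).le
    positivity
  have h1 := mul_le_mul_of_nonneg_left hW hT
  have h2 := mul_le_mul_of_nonneg_right h hβ
  nlinarith

private theorem Scal_Z_mid {p q L m : ℝ} {Th : ℝ → ℝ} (hp : 1 < p) (hq : 1 < q) (hL : 0 < L)
    (hm : 0 < m) (hTh : CompFn p q L m Th) {r β t d T2 K1 H2 : ℝ} (hr : 0 < r) (hβ : 0 ≤ β)
    (hβ1 : β ≤ 1 / 2) (ht : -1 ≤ t) (ht1 : t ≤ 1) (hT2 : Th r ≤ T2) (hK1 : |d * Th r| ≤ K1)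
    (hH2 : L + (p - 1) * r ^ (p / (p - 1)) ≤ H2) :
    m - β * (m + (q - 1) * T2 ^ (q / (q - 1)) * (q / (q - 1) * Real.exp (q / (q - 1) / 2)) +
        K1 * H2) ≤
      ((1 + β * t) * Scal_D p q L m Th r + β * d * Th r) * (L + (p - 1) * r ^ (p / (p - 1))) -
      (q - 1) * ((1 + β * t) * Th r) ^ (q / (q - 1)) := by
  have hu0 : -β ≤ β * t := by nlinarith
  have hu1 : β * t ≤ β := by nlinarith
  rw [Scal_Zid hp hL hTh hr (show 0 ≤ 1 + β * t by linarith)]
  have hq1 : 0 < q - 1 := by linarith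
  have hq' : 1 ≤ q / (q - 1) := by
    rw [le_div_iff₀ hq1]
    linarith
  have hW := Scal_W1 hq' hβ hβ1 hu0 hu1
  have hT0 : 0 ≤ Th r := (hTh.pos r hr).le
  have hT : 0 ≤ (q - 1) * Th r ^ (q / (q - 1)) := by positivity
  have hTT : (q - 1) * Th r ^ (q / (q - 1)) ≤ (q - 1) * T2 ^ (q / (q - 1)) :=
    mul_le_mul_of_nonneg_left (Real.rpow_le_rpow hT0 hT2 (by linarith)) hq1.le
  have hCb : 0 ≤ q / (q - 1) * Real.exp (q / (q - 1) / 2) * β := by positivity
  have h1 := mul_le_mul_of_nonneg_left hW hT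
  have h2 := mul_le_mul_of_nonneg_right hTT hCb
  have hH0 := Scal_H_pos hp hL hr.le
  have h3 : -(K1 * H2) ≤ d * Th r * (L + (p - 1) * r ^ (p / (p - 1))) := by
    have e1 := (abs_le.1 hK1).1
    have hK0 : 0 ≤ K1 := (abs_nonneg _).trans hK1
    have e2 := mul_le_mul_of_nonneg_right e1 hH0.le
    have e3 := mul_le_mul_of_nonneg_left hH2 hK0
    linarith
  have h4 := mul_le_mul_of_nonneg_left h3 hβ
  nlinarith

theorem scalar_field {p q L m R0 : ℝ} (hq : 1 < q) (hqp : q < p) (hL : 0 < L) (hm : 0 < m)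
    {Th : ℝ → ℝ} (hTh : CompFn p q L m Th)
    (hk : ∀ r, 0 < r →
      r * ((m + (q - 1) * Th r ^ (q / (q - 1))) / (L + (p - 1) * r ^ (p / (p - 1)))) < Th r) :
    ∃ (kk kd et : ℝ → ℝ) (c d0 : ℝ), 0 < c ∧ 0 < d0 ∧ ContinuousOn kk (Ici 0) ∧
      (∀ r, 0 < r → HasDerivAt kk (kd r) r) ∧ ContinuousOn kd (Ioi 0) ∧
      Tendsto (fun r => r * kd r) (𝓝[>] 0) (𝓝 0) ∧
      ContDiff ℝ 1 et ∧ (∀ g, g ≤ d0 → et g = 0) ∧
      (∀ D e2 : ℝ, 0 ≤ e2 → e2 ≤ d0 → L - e2 ≤ D → m + c ≤ kk 0 * D) ∧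
      ∀ g r o a1 a b cc s t e2 : ℝ, 0 < g → 0 < r → 0 < o → 0 < a1 →
        (g ≤ d0 → r ≤ d0 ^ (p - 1)) →
        (d0 ≤ g → r = g ^ (p - 1) ∧ o = g ^ (p - 2) ∧ a1 = (p - 1) * g ^ (p - 2)) →
        0 ≤ a → 0 ≤ b → cc ^ 2 ≤ a * b → |s| ≤ R0 → |t| ≤ R0 → 0 ≤ e2 → e2 ≤ d0 →
        L - e2 + (p - 1) * r ^ (p / (p - 1)) ≤ a1 * a + o * b →
        m + c + (q - 1) * ((kk r * r) ^ 2 + (et g * (g * t)) ^ 2) ^ (q / (q - 1) / 2) ≤
          (kk r + r * kd r) * (a1 * a + o * b) - kd r * r * (o * b) +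
            (et g * g - et g * (s * b) + g * (deriv et g * (t * cc))) := by
  have hp : 1 < p := hq.trans hqp
  have hp1 : 0 < p - 1 := by linarith
  have hq1 : 0 < q - 1 := by linarith
  obtain ⟨σ, hσ⟩ : ∃ x : ℝ, x = 1 / (q - 1) := ⟨_, rfl⟩
  have hσ0 : 0 < σ := by rw [hσ]; positivity
  have hσq : q / (q - 1) = 1 + σ := by
    rw [hσ]
    field_simp
    ring
  have hqq : 0 < q / (q - 1) := by positivity
  obtain ⟨r1, hr1, hr1'⟩ := Scal_r1 hq hTh
    ((q - 1) * (q / (q - 1) * Real.exp (q / (q - 1) / 2))) (show 0 < m / 2 by linarith)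
  obtain ⟨r2, hr12, hr2'⟩ := Scal_r2 hq hTh
    (show 0 < (q - 1) * (σ / (2 * (1 + σ))) by positivity) (m + 1) r1
  obtain ⟨τ, hτc, hτb, hτ1, hτ2, hτd, hτd1, hτd2⟩ := Scal_tau hr12
  have hr2 : 0 < r2 := hr1.trans hr12
  obtain ⟨G1, hG1⟩ : ∃ x : ℝ, x = r1 ^ (1 / (p - 1)) := ⟨_, rfl⟩
  obtain ⟨G2, hG2⟩ : ∃ x : ℝ, x = r2 ^ (1 / (p - 1)) := ⟨_, rfl⟩
  have hG1p : 0 < G1 := by rw [hG1]; positivity
  have hG2p : 0 < G2 := by rw [hG2]; positivity
  have hG1r : G1 ^ (p - 1) = r1 := by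
    rw [hG1, one_div, Real.rpow_inv_rpow hr1.le hp1.ne']
  have hG2r : G2 ^ (p - 1) = r2 := by
    rw [hG2, one_div, Real.rpow_inv_rpow hr2.le hp1.ne']
  have hG12 : G1 < G2 := by
    rw [hG1, hG2]
    exact Real.rpow_lt_rpow hr1.le hr12 (by positivity)
  obtain ⟨η, hηc, hηb, hη1, hη2, hη3, hηd1, hηd2⟩ :=
    Scal_eta (show 0 < G1 / 2 by linarith) (show 0 < 2 * G2 by linarith)
  have hJ : G1 / 2 ≤ 2 * G2 := by linarith
  have hJ0 : ∀ g ∈ Icc (G1 / 2) (2 * G2), 0 < g := fun g hg => by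
    have := hg.1
    linarith
  have hc1 : ContinuousOn (fun g : ℝ => g ^ (p - 1)) (Icc (G1 / 2) (2 * G2)) :=
    continuousOn_id.rpow_const fun x hx => Or.inl (hJ0 x hx).ne'
  have hc2 : ContinuousOn (fun g : ℝ => g ^ (p - 2)) (Icc (G1 / 2) (2 * G2)) :=
    continuousOn_id.rpow_const fun x hx => Or.inl (hJ0 x hx).ne'
  have hmaps : MapsTo (fun g : ℝ => g ^ (p - 1)) (Icc (G1 / 2) (2 * G2)) (Ioi 0) :=
    fun g hg => Real.rpow_pos_of_pos (hJ0 g hg) _
  have hTc := (Scal_Th_cont hTh).comp hc1 hmaps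
  have hDc := (Scal_D_cont hp hL hTh).comp hc1 hmaps
  have hkc := (Scal_kp_cont hp hL hTh).comp hc1 hmaps
  have hdτ : Continuous (deriv τ) := hτc.continuous_deriv le_rfl
  have hdη : Continuous (deriv η) := hηc.continuous_deriv le_rfl
  obtain ⟨T1, hT1, hT1'⟩ := Scal_low hJ hTc fun g hg => hTh.pos _ (hmaps hg)
  obtain ⟨T2, hT2, hT2'⟩ := Scal_bdd hTc
  obtain ⟨N1, hN1, hN1'⟩ := Scal_low hJ hDc fun g hg => Scal_D_pos hp hq hL hm hTh (hmaps hg)
  obtain ⟨K1, hK1, hK1'⟩ := Scal_bdd ((hdτ.comp_continuousOn hc1).mul hTc)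
  obtain ⟨H2, hH2, hH2'⟩ := Scal_bdd ((Scal_H_cont (L := L) hp).comp_continuousOn hc1)
  obtain ⟨c3', hc3', hc3''⟩ := Scal_low hJ ((hkc.neg.mul hc1).mul hc2) fun g hg => by
    have e1 := Scal_kp_neg hTh hk (hmaps hg)
    have e2 : (0 : ℝ) < g ^ (p - 1) := hmaps hg
    have e3 : (0 : ℝ) < g ^ (p - 2) := Real.rpow_pos_of_pos (hJ0 g hg) _
    exact mul_pos (mul_pos (neg_pos.2 e1) e2) e3
  obtain ⟨A1, hA1, hA1'⟩ := Scal_low hJ (continuousOn_const.mul hc2) fun g hg =>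
    mul_pos hp1 (Real.rpow_pos_of_pos (hJ0 g hg) _)
  obtain ⟨E0, hE0, hE0'⟩ := Scal_bdd (g1 := G1 / 2) (g2 := 2 * G2)
    (continuous_id.mul hdη).continuousOn
  obtain ⟨R, hR⟩ : ∃ x : ℝ, x = |R0| := ⟨_, rfl⟩
  have hR0 : 0 ≤ R := by rw [hR]; exact abs_nonneg _
  obtain ⟨c3, hc3⟩ : ∃ x : ℝ, x = c3' / 2 := ⟨_, rfl⟩
  have hc3p : 0 < c3 := by rw [hc3]; linarith
  obtain ⟨E1, hE1⟩ : ∃ x : ℝ, x = E0 * R := ⟨_, rfl⟩
  obtain ⟨C4, hC4⟩ : ∃ x : ℝ, x = E1 ^ 2 / (2 * c3 * A1) := ⟨_, rfl⟩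
  have hC40 : 0 ≤ C4 := by rw [hC4]; positivity
  obtain ⟨X2, hX2⟩ : ∃ x : ℝ, x = 3 / 2 * (m / L) := ⟨_, rfl⟩
  have hX20 : 0 < X2 := by rw [hX2]; positivity
  obtain ⟨V, hV⟩ : ∃ x : ℝ, x = (2 * G2 * R) ^ 2 := ⟨_, rfl⟩
  have hV0 : 0 ≤ V := by rw [hV]; positivity
  obtain ⟨C5', hC5'⟩ : ∃ x : ℝ, x = (((3 / 2 * T2) ^ 2) ^ (q / (q - 1) / 2) *
    (q / (q - 1) / 2 / ((T1 / 2) ^ 2)) *
      Real.exp (q / (q - 1) / 2 * (V / ((T1 / 2) ^ 2)))) := ⟨_, rfl⟩
  have hC5'0 : 0 ≤ C5' := by rw [hC5']; positivity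
  obtain ⟨C7, hC7⟩ : ∃ x : ℝ, x = m + (q - 1) * T2 ^ (q / (q - 1)) *
    (q / (q - 1) * Real.exp (q / (q - 1) / 2)) + K1 * H2 := ⟨_, rfl⟩
  obtain ⟨m1, hm1⟩ : ∃ x : ℝ, x = min (m / 2) 1 := ⟨_, rfl⟩
  have hm10 : 0 < m1 := by
    rw [hm1]
    exact lt_min (by linarith) one_pos
  have hm1a : m1 ≤ m / 2 := by rw [hm1]; exact min_le_left _ _
  have hm1b : m1 ≤ 1 := by rw [hm1]; exact min_le_right _ _
  obtain ⟨β, ε, hβ0, hε0, hβ1, hε1, hβK, hC4ε, hεR, hεG, hC6⟩ := Scal_delta (C7 := C7 + m1)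
    (C6 := C4 * H2 + (q - 1) * (C5' * V)) hK1.le hN1 hC40 hR0 hc3p hG1p hm10
  obtain ⟨c, hc⟩ : ∃ x : ℝ, x = β * m1 / 4 := ⟨_, rfl⟩
  have hc0 : 0 < c := by rw [hc]; positivity
  obtain ⟨d0, hd0⟩ : ∃ x : ℝ, x = min (G1 / 4) (β * m1 / (4 * X2)) := ⟨_, rfl⟩
  have hd00 : 0 < d0 := by
    rw [hd0]
    exact lt_min (by linarith) (by positivity)
  have hd0a : d0 < G1 / 2 := by
    have : d0 ≤ G1 / 4 := by rw [hd0]; exact min_le_left _ _
    linarith
  have hd0b : X2 * d0 ≤ β * m1 / 4 := by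
    have : d0 ≤ β * m1 / (4 * X2) := by rw [hd0]; exact min_le_right _ _
    have e1 := mul_le_mul_of_nonneg_left this hX20.le
    have e2 : X2 * (β * m1 / (4 * X2)) = β * m1 / 4 := by field_simp
    linarith
  -- the functions
  obtain ⟨kk, hkk⟩ : ∃ f : ℝ → ℝ, f = fun r => if r = 0 then (1 + β) * (m / L) else
    (1 + β * τ r) * (Th r / r) := ⟨_, rfl⟩
  obtain ⟨kd, hkd⟩ : ∃ f : ℝ → ℝ, f = fun r => (1 + β * τ r) * Scal_kp p q L m Th r +
    β * deriv τ r * (Th r / r) := ⟨_, rfl⟩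
  have hkk0 : kk 0 = (1 + β) * (m / L) := by rw [hkk]; simp
  have hkkr : ∀ r, 0 < r → kk r = (1 + β * τ r) * (Th r / r) := by
    intro r hr
    rw [hkk]
    simp only [if_neg hr.ne']
  have hτdiff : ∀ r, HasDerivAt τ (deriv τ r) r := fun r =>
    (hτc.differentiable one_ne_zero r).hasDerivAt
  have hkkd : ∀ r, 0 < r → HasDerivAt kk (kd r) r := by
    intro r hr
    have h1 := (((hτdiff r).const_mul β).const_add 1).mul (Scal_kp_deriv hTh hr)
    have h2 : (fun r => (1 + β * τ r) * (Th r / r)) =ᶠ[𝓝 r] kk := by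
      filter_upwards [Ioi_mem_nhds hr] with x hx
      exact (hkkr x hx).symm
    have h3 := h1.congr_of_eventuallyEq h2.symm
    have h4 : kd r = β * deriv τ r * (Th r / r) + (1 + β * τ r) * Scal_kp p q L m Th r := by
      rw [hkd]
      ring
    rw [h4]
    exact h3
  have hx1 : ∀ r, 0 < r → kk r * r = (1 + β * τ r) * Th r := by
    intro r hr
    rw [hkkr r hr]
    field_simp
  have hx2 : ∀ r, 0 < r → kk r + r * kd r =
      (1 + β * τ r) * Scal_D p q L m Th r + β * deriv τ r * Th r := by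
    intro r hr
    have e1 := Scal_kp_eq (p := p) (q := q) (L := L) (m := m) (Th := Th) hr
    have e2 : r * (Th r / r) = Th r := by field_simp
    have e3 : r * kd r = (1 + β * τ r) * (r * Scal_kp p q L m Th r) +
        β * deriv τ r * (r * (Th r / r)) := by
      rw [hkd]
      ring
    rw [e3, e1, e2, hkkr r hr]
    ring
  have hβτ : ∀ r, 1 / 2 ≤ 1 + β * τ r ∧ 1 + β * τ r ≤ 3 / 2 := by
    intro r
    exact Scal_bt hβ0 hβ1 (hτb r).1 (hτb r).2
  have hkdle : ∀ r, 0 < r → kd r ≤ Scal_kp p q L m Th r / 2 := by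
    intro r hr
    have e1 := Scal_kp_neg hTh hk hr
    have e2 := (hβτ r).1
    have e3 : 0 < Th r / r := div_pos (hTh.pos r hr) hr
    have e4 : β * deriv τ r * (Th r / r) ≤ 0 :=
      mul_nonpos_of_nonpos_of_nonneg (mul_nonpos_of_nonneg_of_nonpos hβ0.le (hτd r)) e3.le
    rw [hkd]
    exact Scal_kdle e1 e2 e4
  have hXle : ∀ r, 0 < r → kk r + r * kd r ≤ X2 := by
    intro r hr
    rw [hx2 r hr, hX2]
    have e1 := Scal_D_le hTh hk hr
    have e2 := Scal_D_pos hp hq hL hm hTh hr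
    have e3 : β * deriv τ r * Th r ≤ 0 :=
      mul_nonpos_of_nonpos_of_nonneg (mul_nonpos_of_nonneg_of_nonpos hβ0.le (hτd r))
        (hTh.pos r hr).le
    have e4 := mul_le_mul (hβτ r).2 e1 e2.le (by norm_num)
    linarith
  refine ⟨kk, kd, fun g => ε * η g, c, d0, hc0, hd00, ?_, hkkd, ?_, ?_, contDiff_const.mul hηc,
    ?_, ?_, ?_⟩
  · -- continuity of kk
    intro r hr
    rcases eq_or_lt_of_le (show (0 : ℝ) ≤ r from hr) with h | h
    · subst h
      rw [← continuousWithinAt_Ioi_iff_Ici]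
      have h1 : Tendsto (fun r => (1 + β) * (Th r / r)) (𝓝[>] 0) (𝓝 ((1 + β) * (m / L))) :=
        (Scal_k_zero hTh).const_mul _
      have h2 : Tendsto kk (𝓝[>] 0) (𝓝 (kk 0)) := by
        rw [hkk0]
        refine h1.congr' ?_
        filter_upwards [Ioo_mem_nhdsGT hr1] with x hx
        rw [hkkr x hx.1, hτ1 x hx.2.le, mul_one]
      exact h2
    · exact (hkkd r h).continuousAt.continuousWithinAt
  · -- continuity of kd
    rw [hkd]
    apply ContinuousOn.add
    · exact (continuousOn_const.add (continuousOn_const.mul hτc.continuous.continuousOn)).mul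
        (Scal_kp_cont hp hL hTh)
    · exact (continuousOn_const.mul hdτ.continuousOn).mul
        ((Scal_Th_cont hTh).div continuousOn_id fun x hx => (ne_of_gt hx))
  · -- r kd r -> 0
    have h1 : Tendsto (fun r => (1 + β) * (Scal_D p q L m Th r - Th r / r)) (𝓝[>] 0)
        (𝓝 ((1 + β) * (m / L - m / L))) :=
      ((Scal_D_zero hp hq hL hTh).sub (Scal_k_zero hTh)).const_mul _
    rw [sub_self, mul_zero] at h1
    refine h1.congr' ?_
    filter_upwards [Ioo_mem_nhdsGT hr1] with x hx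
    rw [← Scal_kp_eq hx.1, hkd]
    simp only
    rw [hτ1 x hx.2.le, hτd1 x hx.2]
    ring
  · intro g hg
    simp only [hη1 g (by linarith), mul_zero]
  · -- at zero
    intro D e2 he1 he2 hD
    rw [hkk0]
    exact Scal_at0 hβ0 hβ1 hm hL hX2 hd0b hc hm1a he1 he2 hD
  · -- the inequality
    have hZout : ∀ r, 0 < r → (r < r1 ∨ r2 < r) → m + β * m1 ≤
        (kk r + r * kd r) * (L + (p - 1) * r ^ (p / (p - 1))) -
          (q - 1) * (kk r * r) ^ (q / (q - 1)) := by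
      intro r hr hrr
      rw [hx1 r hr, hx2 r hr]
      rcases hrr with h | h
      · rw [hτ1 r h.le, hτd1 r h, mul_zero, zero_mul, add_zero, mul_one]
        have e1 := Scal_Z_small hp hq hL hTh hr hβ0.le hβ1 (hr1' r hr h.le)
        have e2 : β * m1 ≤ β * (m / 2) := mul_le_mul_of_nonneg_left hm1a hβ0.le
        linarith
      · rw [hτ2 r h.le, hτd2 r h, mul_zero, zero_mul, add_zero, mul_neg, mul_one]
        have e1 := Scal_Z_large hp hq hL hTh hr hβ0.le hβ1 hσ0 hσq (hr2' r h.le)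
        have e2 : β * m1 ≤ β * 1 := mul_le_mul_of_nonneg_left hm1b hβ0.le
        linarith
    have hXout : ∀ r, 0 < r → (r < r1 ∨ r2 < r) → 0 ≤ kk r + r * kd r := by
      intro r hr hrr
      rw [hx2 r hr]
      have e0 : deriv τ r = 0 := by
        rcases hrr with h | h
        · exact hτd1 r h
        · exact hτd2 r h
      rw [e0, mul_zero, zero_mul, add_zero]
      have e1 := (hβτ r).1
      have e2 := Scal_D_pos hp hq hL hm hTh hr
      exact mul_nonneg (by linarith) e2.le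
    have hxpos : ∀ r, 0 < r → 0 ≤ kk r * r := by
      intro r hr
      rw [hx1 r hr]
      have e1 := (hβτ r).1
      exact mul_nonneg (by linarith) (hTh.pos r hr).le
    intro g r o a1 a b cc s t e2 hg hr ho ha1 hgr hgr' ha hb hcc hs ht he he2 hD
    have hs' : |s| ≤ R := hs.trans (by rw [hR]; exact le_abs_self _)
    have ht' : |t| ≤ R := ht.trans (by rw [hR]; exact le_abs_self _)
    have hder : deriv (fun g => ε * η g) g = ε * deriv η g := by
      have := ((hηc.differentiable one_ne_zero g).hasDerivAt.const_mul ε).deriv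
      exact this
    have hD' : L + (p - 1) * r ^ (p / (p - 1)) - e2 ≤ a1 * a + o * b := by linarith
    rw [hder]
    by_cases hreg : g ∈ Icc (G1 / 2) (2 * G2)
    · have hdg : d0 ≤ g := by
        have := hreg.1
        linarith
      obtain ⟨hrg, hog, hag⟩ := hgr' hdg
      have i1 : T1 ≤ Th r := by rw [hrg]; exact hT1' g hreg
      have i2 : |Th r| ≤ T2 := by rw [hrg]; exact hT2' g hreg
      have i2' : Th r ≤ T2 := (le_abs_self _).trans i2
      have i3 : N1 ≤ Scal_D p q L m Th r := by rw [hrg]; exact hN1' g hreg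
      have i4 : |deriv τ r * Th r| ≤ K1 := by rw [hrg]; exact hK1' g hreg
      have i5 : L + (p - 1) * r ^ (p / (p - 1)) ≤ H2 := by
        rw [hrg]
        exact (le_abs_self _).trans (hH2' g hreg)
      have i6 : c3' ≤ -Scal_kp p q L m Th r * r * o := by
        rw [hrg, hog]
        exact hc3'' g hreg
      have i7 : A1 ≤ a1 := by rw [hag]; exact hA1' g hreg
      have i8 : |g * deriv η g| ≤ E0 := hE0' g hreg
      have hYc : c3 ≤ -(kd r * r * o) := by
        have e1 := hkdle r hr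
        have e2 : 0 < r * o := mul_pos hr ho
        have e3 := mul_le_mul_of_nonneg_right e1 e2.le
        have e4 : kd r * (r * o) = kd r * r * o := by ring
        have e5 : Scal_kp p q L m Th r / 2 * (r * o) = -(-Scal_kp p q L m Th r * r * o) / 2 := by
          ring
        rw [hc3]
        linarith
      have hXlow : C4 * ε ^ 2 ≤ kk r + r * kd r := by
        rw [hx2 r hr]
        have e1 := (hβτ r).1
        have e2 : 1 / 2 * N1 ≤ (1 + β * τ r) * Scal_D p q L m Th r :=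
          mul_le_mul e1 i3 hN1.le (by linarith)
        have e3 : -(β * K1) ≤ β * deriv τ r * Th r := by
          have e4 := mul_le_mul_of_nonneg_left (abs_le.1 i4).1 hβ0.le
          have e5 : β * (deriv τ r * Th r) = β * deriv τ r * Th r := by ring
          linarith
        linarith
      have hQ : ((kk r * r) ^ 2 + (ε * η g * (g * t)) ^ 2) ^ (q / (q - 1) / 2) ≤
          (kk r * r) ^ (q / (q - 1)) + C5' * V * ε ^ 2 := by
        have hv := Scal_vV (ε := ε) (hηb g).1 (hηb g).2 hg.le hreg.2 ht'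
        rw [← hV] at hv
        have hvV : (ε * η g * (g * t)) ^ 2 ≤ V := by
          refine hv.trans ?_
          have : ε ^ 2 ≤ 1 := pow_le_one₀ hε0.le hε1
          exact mul_le_of_le_one_left hV0 this
        have e1 : T1 / 2 ≤ kk r * r := by
          rw [hx1 r hr]
          have := mul_le_mul (hβτ r).1 i1 hT1.le (by linarith [(hβτ r).1])
          linarith
        have e2 : kk r * r ≤ 3 / 2 * T2 := by
          rw [hx1 r hr]
          exact mul_le_mul (hβτ r).2 i2' (hTh.pos r hr).le (by norm_num)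
        have e3 := Scal_pw (u1 := (T1 / 2) ^ 2) (u2 := (3 / 2 * T2) ^ 2) (u := (kk r * r) ^ 2)
          (v := (ε * η g * (g * t)) ^ 2) (V := V) (s := q / (q - 1) / 2) (by positivity)
          (pow_le_pow_left₀ (by positivity) e1 2) (pow_le_pow_left₀ (hxpos r hr) e2 2)
          (sq_nonneg _) hvV (by positivity)
        rw [← hC5', Scal_sq_rpow (hxpos r hr)] at e3
        have e4 := mul_le_mul_of_nonneg_left hv hC5'0
        have e5 : C5' * (ε ^ 2 * V) = C5' * V * ε ^ 2 := by ring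
        linarith
      have hX2e : X2 * e2 ≤ β * m1 / 4 :=
        (mul_le_mul_of_nonneg_left he2 hX20.le).trans hd0b
      have hC6' : (q - 1) * (C5' * V * ε ^ 2) + C4 * ε ^ 2 * H2 =
        (C4 * H2 + (q - 1) * (C5' * V)) * ε ^ 2 := by ring
      have hfin : m + c + (q - 1) * ((kk r * r) ^ (q / (q - 1)) + C5' * V * ε ^ 2) ≤
          (kk r + r * kd r) * (L + (p - 1) * r ^ (p / (p - 1))) - C4 * ε ^ 2 * H2 - X2 * e2 +
            ε * η g * g := by
        rw [mul_add (q - 1)]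
        by_cases hmid : r1 ≤ r ∧ r ≤ r2
        · have e1 : G1 ≤ g := by
            have : G1 ^ (p - 1) ≤ g ^ (p - 1) := by rw [hG1r, ← hrg]; exact hmid.1
            exact (Real.rpow_le_rpow_iff hG1p.le hg.le hp1).1 this
          have e2' : g ≤ G2 := by
            have : g ^ (p - 1) ≤ G2 ^ (p - 1) := by rw [hG2r, ← hrg]; exact hmid.2
            exact (Real.rpow_le_rpow_iff hg.le hG2p.le hp1).1 this
          have e3 : η g = 1 := hη3 g (by linarith) (by linarith)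
          have e4 := Scal_Z_mid hp hq hL hm hTh hr hβ0.le hβ1 (hτb r).1 (hτb r).2 i2' i4 i5
          rw [← hC7, ← hx1 r hr, ← hx2 r hr] at e4
          have e5 : ε * (G1 / 2) ≤ ε * g := mul_le_mul_of_nonneg_left (by linarith) hε0.le
          have e6 : 0 < β * m1 := mul_pos hβ0 hm10
          have e7 : β * (C7 + m1) = β * C7 + β * m1 := by ring
          rw [e3, mul_one]
          linarith
        · have hrr : r < r1 ∨ r2 < r := by
            rcases not_and_or.1 hmid with h | h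
            · exact Or.inl (not_le.1 h)
            · exact Or.inr (not_le.1 h)
          have e4 := hZout r hr hrr
          have e5 : 0 ≤ ε * η g * g := mul_nonneg (mul_nonneg hε0.le (hηb g).1) hg.le
          have e6 : 0 < β * m1 := mul_pos hβ0 hm10
          linarith
      have hEE : |g * deriv η g| * R ≤ E1 := by
        rw [hE1]
        exact mul_le_mul_of_nonneg_right i8 hR0
      have key := Scal_II (m := m) (c := c) hq hD' hA1 i7 ha hb ho hcc hs' ht' (hηb g).1 (hηb g).2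
        hEE hε0 hc3p hYc hεR hC4 hXlow (hXle r hr) he i5 hQ hfin
      have e1 : -(kd r * r * o) * b = -(kd r * r * (o * b)) := by ring
      rw [e1, ← sub_eq_add_neg] at key
      exact key
    · have hor : g < G1 / 2 ∨ 2 * G2 < g := by
        by_contra hcon
        rw [not_or, not_lt, not_lt] at hcon
        exact hreg hcon
      have hrr : r < r1 ∨ r2 < r := by
        rcases hor with h | h
        · left
          rcases le_total g d0 with h2 | h2
          · refine (hgr h2).trans_lt ?_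
            rw [← hG1r]
            exact Real.rpow_lt_rpow hd00.le (by linarith) hp1
          · rw [(hgr' h2).1, ← hG1r]
            exact Real.rpow_lt_rpow hg.le (by linarith) hp1
        · right
          rw [(hgr' (by linarith)).1, ← hG2r]
          exact Real.rpow_lt_rpow hG2p.le (by linarith) hp1
      have hη0 : η g = 0 := by
        rcases hor with h | h
        · exact hη1 g h.le
        · exact hη2 g h.le
      have hηd0 : deriv η g = 0 := by
        rcases hor with h | h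
        · exact hηd1 g h
        · exact hηd2 g h
      beta_reduce
      rw [hη0, hηd0]
      have e0 : (kk r * r) ^ 2 + (ε * 0 * (g * t)) ^ 2 = (kk r * r) ^ 2 := by ring
      rw [e0, Scal_sq_rpow (hxpos r hr)]
      have hY : 0 ≤ -(kd r * r * (o * b)) := by
        have e1 := hkdle r hr
        have e2 := Scal_kp_neg hTh hk hr
        have e3 : kd r ≤ 0 := by linarith
        have e4 : 0 ≤ r * (o * b) := by positivity
        have e5 := mul_nonpos_of_nonpos_of_nonneg e3 e4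
        have e6 : kd r * r * (o * b) = kd r * (r * (o * b)) := by ring
        linarith
      have key := Scal_I (m := m) (c := c) (q := q) (hXout r hr hrr) (hXle r hr) hY hD' he he2 hd0b
        (P := (kk r * r) ^ (q / (q - 1))) (by
          have e1 := hZout r hr hrr
          have e2 : 0 < β * m1 := mul_pos hβ0 hm10
          linarith)
      have e1 : ε * 0 * g - ε * 0 * (s * b) + g * (ε * 0 * (t * cc)) = 0 := by ring
      rw [e1, add_zero]
      rw [← sub_eq_add_neg] at key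
      exact key

end Pool.Agent.PLap
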