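import Pool.Agent.PLap.Cpt
import Pool.Agent.PLap.Div
import Pool.Agent.PLap.OM2

/-!
SecB: bound for the sections of the minimiser.

Let ell(x) = c + <e, x>, psi = max (ell - w) 0, v = max(w, ell) = w + psi: v is convex, a <= w <= v <= B, and v = w off K (psi vanishes off K),
so FOC applies (EqOff P v w with the compact K). psi is locally Lipschitz on P and vanishes on P minus K. At a.e. point
grad v - grad w = grad psi, equal to e - grad w where psi > 0 and to 0 where psi = 0 (a differentiable function has gradient 0 at a minimum).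
With R' = max(R, sup_K |grad w|) and c0 the constant of VV_mono at R': where psi > 0
<VV(grad w), grad psi> = <VV e, grad psi> - <VV e - VV(grad w), e - grad w> <= <VV e, grad psi> - c0 |grad psi|^2.
FOC: c0 int exp(-pw)|grad psi|^2 <= int exp(-pw) <VV e, grad psi> - int exp(-pw)(FF(grad w) - l) psi.
`ibp` with f = exp(-pw) psi and the constant field X = VV e (dv X = 0): int exp(-pw) <VV e, grad psi> = p int exp(-pw) psi <VV e, grad w>.
So c0 int exp(-pw)|grad psi|^2 <= int_K exp(-pw) psi (p |VV e||grad w| + |FF(grad w)| + |l|) <= C int psi, and exp(-pw) is bounded above and below by positive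
constants on K. All constants depend only on K, R, w, l.
-/

set_option autoImplicit false

open MeasureTheory Set Filter Topology
open scoped ENNReal NNReal ContDiff RealInnerProductSpace

namespace Pool.Agent.PLap

private theorem SecB_comp {G : ℝ → ℝ} (hG : LocallyLipschitz G) {P : Set E} {w : E → ℝ}
    (hw : LocallyLipschitzOn P w) : LocallyLipschitzOn P (fun x => G (w x)) := by
  intro x hx
  obtain ⟨K1, t, ht, h1⟩ := hw hx
  obtain ⟨K2, s, hs, h2⟩ := hG (w x)
  have hc := hw.continuousOn x hx
  refine ⟨K2 * K1, t ∩ w ⁻¹' s, inter_mem ht (hc hs), ?_⟩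
  exact h2.comp (h1.mono inter_subset_left) fun y hy => hy.2

private theorem SecB_mul {P : Set E} {f g : E → ℝ} (hf : LocallyLipschitzOn P f)
    (hg : LocallyLipschitzOn P g) : LocallyLipschitzOn P (fun x => f x * g x) := by
  intro x hx
  obtain ⟨K1, t1, ht1, h1⟩ := hf hx
  obtain ⟨K2, t2, ht2, h2⟩ := hg hx
  have hfc : ∀ᶠ y in 𝓝[P] x, |f y| < |f x| + 1 :=
    (hf.continuousOn x hx).abs.eventually_lt_const (by linarith)
  have hgc : ∀ᶠ y in 𝓝[P] x, |g y| < |g x| + 1 :=
    (hg.continuousOn x hx).abs.eventually_lt_const (by linarith)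
  have hF0 : 0 ≤ |f x| + 1 := by positivity
  have hG0 : 0 ≤ |g x| + 1 := by positivity
  refine ⟨Real.toNNReal ((|f x| + 1) * K2 + K1 * (|g x| + 1)),
    (t1 ∩ t2) ∩ ({y | |f y| < |f x| + 1} ∩ {y | |g y| < |g x| + 1}),
    inter_mem (inter_mem ht1 ht2) (inter_mem hfc hgc), ?_⟩
  refine LipschitzOnWith.of_dist_le_mul fun y hy z hz => ?_
  rw [Real.coe_toNNReal _ (by positivity), Real.dist_eq]
  have e : f y * g y - f z * g z = f y * (g y - g z) + (f y - f z) * g z := by ring
  rw [e]
  have h3 := h1.dist_le_mul y hy.1.1 z hz.1.1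
  have h4 := h2.dist_le_mul y hy.1.2 z hz.1.2
  rw [Real.dist_eq] at h3 h4
  have hfy : |f y| < |f x| + 1 := hy.2.1
  have hgz : |g z| < |g x| + 1 := hz.2.2
  have h5 : |f y| * |g y - g z| ≤ (|f x| + 1) * (K2 * dist y z) :=
    mul_le_mul hfy.le h4 (abs_nonneg _) hF0
  have h6 : |f y - f z| * |g z| ≤ (K1 * dist y z) * (|g x| + 1) :=
    mul_le_mul h3 hgz.le (abs_nonneg _) (by positivity)
  calc |f y * (g y - g z) + (f y - f z) * g z|
      ≤ |f y * (g y - g z)| + |(f y - f z) * g z| := abs_add_le _ _
    _ = |f y| * |g y - g z| + |f y - f z| * |g z| := by rw [abs_mul, abs_mul]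
    _ ≤ (|f x| + 1) * (K2 * dist y z) + (K1 * dist y z) * (|g x| + 1) := add_le_add h5 h6
    _ = _ := by ring

private theorem SecB_int {P : Set E} (ho : IsOpen P) {g : E → ℝ} {K : Set E}
    (hm : AEStronglyMeasurable g (volume.restrict P)) (hK : IsCompact K) (hKP : K ⊆ P) {C : ℝ}
    (hC : ∀ x ∈ K, |g x| ≤ C) (h0 : ∀ x ∈ P \ K, g x = 0) : IntegrableOn g P := by
  have h1 : IntegrableOn g K :=
    IntegrableOn.of_bound hK.measure_lt_top (hm.mono_measure (Measure.restrict_mono hKP le_rfl)) C
      ((ae_restrict_iff' hK.isClosed.measurableSet).2 (ae_of_all _ fun x hx => by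
        rw [Real.norm_eq_abs]; exact hC x hx))
  have h2 : IntegrableOn g (P \ K) := by
    have h4 : IntegrableOn (fun _ : E => (0 : ℝ)) (P \ K) := integrableOn_zero
    exact h4.congr_fun (fun x hx => (h0 x hx).symm)
      (ho.measurableSet.diff hK.isClosed.measurableSet)
  have h3 := h1.union h2
  rwa [Set.union_sdiff_cancel hKP] at h3

private theorem SecB_grad_eq {f g : E → ℝ} {x : E} (h : f =ᶠ[𝓝 x] g) :
    gradient f x = gradient g x := by
  unfold gradient
  rw [h.fderiv_eq]

theorem section_bound {p del : ℝ} {P : Set E} {a B : E → ℝ} {lmax : ℝ}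
    (S : Setup p del P a B lmax) {w : E → ℝ} {l : ℝ} (hw : Adm P a B w)
    (hF : FOC p del l P a B w) {K : Set E} (hK : IsCompact K) (hKP : K ⊆ P) (R : ℝ) :
    ∃ C : ℝ, 0 < C ∧ ∀ (e : E) (c : ℝ), ‖e‖ ≤ R → (∀ x ∈ P, c + ⟪e, x⟫ ≤ B x) →
      (∀ x ∈ P, w x < c + ⟪e, x⟫ → x ∈ K) →
      ∫ x in P, ‖gradient (fun z => max (c + ⟪e, z⟫ - w z) 0) x‖ ^ 2 ≤
        C * ∫ x in P, max (c + ⟪e, x⟫ - w x) 0 := by
  have ho := S.isOpen
  have hp := S.hp
  have hdel := S.hdel
  have hwl : LocallyLipschitzOn P w := convex_locLip ho hw.conv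
  have hwc : ContinuousOn w P := hwl.continuousOn
  obtain ⟨D, hD0, hD⟩ := gradient_bound ho hwl hK hKP
  obtain ⟨M, hM⟩ := hK.exists_bound_of_continuousOn (hwc.mono hKP)
  obtain ⟨CF, hCF⟩ := FF_le hp hdel
  obtain ⟨MV, hMV⟩ := (isCompact_closedBall (0 : E) R).exists_bound_of_continuousOn
    (VV_continuous (p := p) hdel).continuousOn
  obtain ⟨MW, hMW⟩ := (isCompact_closedBall (0 : E) D).exists_bound_of_continuousOn
    (VV_continuous (p := p) hdel).continuousOn
  obtain ⟨c0, hc0, hmono⟩ := VV_mono hp hdel (max R D)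
  have hFD : ∀ x ∈ K, |FF p del (gradient w x)| ≤ |CF + D ^ p| := by
    intro x hx
    have h1 := hCF (gradient w x)
    have h2 : ‖gradient w x‖ ^ p ≤ D ^ p :=
      Real.rpow_le_rpow (norm_nonneg _) (hD x hx) (by linarith)
    have h3 : 0 ≤ FF p del (gradient w x) :=
      (Real.rpow_nonneg hdel.le p).trans (FF_ge' hp hdel _)
    rw [abs_of_nonneg h3]
    exact (by linarith : FF p del (gradient w x) ≤ CF + D ^ p).trans (le_abs_self _)
  have hexp1 : ∀ x ∈ K, Real.exp (-(p * |M|)) ≤ Real.exp (-p * w x) := by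
    intro x hx
    have h1 := hM x hx
    rw [Real.norm_eq_abs] at h1
    have h2 : w x ≤ |M| := (le_abs_self _).trans (h1.trans (le_abs_self _))
    refine Real.exp_le_exp.2 ?_
    nlinarith
  have hexp2 : ∀ x ∈ K, Real.exp (-p * w x) ≤ Real.exp (p * |M|) := by
    intro x hx
    have h1 := hM x hx
    rw [Real.norm_eq_abs] at h1
    have h2 : -w x ≤ |M| := (neg_le_abs _).trans (h1.trans (le_abs_self _))
    refine Real.exp_le_exp.2 ?_
    nlinarith
  set m1 : ℝ := Real.exp (-(p * |M|)) with hm1
  set m2 : ℝ := Real.exp (p * |M|) with hm2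
  have hm10 : 0 < m1 := Real.exp_pos _
  have hm20 : 0 < m2 := Real.exp_pos _
  set CT : ℝ := p * (D * |MV|) + |CF + D ^ p| + |l| with hCT
  have hCT0 : 0 ≤ CT := by positivity
  refine ⟨m2 * CT / (c0 * m1) + 1, by positivity, fun e c he hB hKc => ?_⟩
  set psi : E → ℝ := fun z => max (c + ⟪e, z⟫ - w z) 0 with hpsi
  set v : E → ℝ := fun z => max (w z) (c + ⟪e, z⟫) with hv
  set k : E := VV p del e with hk
  have hkn : ‖k‖ ≤ |MV| := (hMV e (mem_closedBall_zero_iff.2 he)).trans (le_abs_self _)
  have hvw : ∀ z, v z = w z + psi z := by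
    intro z
    simp only [hv, hpsi]
    rcases le_total (w z) (c + ⟪e, z⟫) with h | h
    · rw [max_eq_right h, max_eq_left (by linarith)]
      ring
    · rw [max_eq_left h, max_eq_right (by linarith)]
      ring
  have hpsi_nn : ∀ z, 0 ≤ psi z := fun z => le_max_right _ _
  have haff : ConvexOn ℝ P (fun z : E => c + ⟪e, z⟫) := by
    have h1 : ConvexOn ℝ P (fun z : E => ⟪e, z⟫) := by
      have := (innerSL ℝ e : E →L[ℝ] ℝ).toLinearMap.convexOn S.convex
      exact this
    have h2 := h1.add_const c
    refine h2.congr fun z _ => ?_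
    simp only [Pi.add_apply]
    ring
  have hvconv : ConvexOn ℝ P v := hw.conv.sup haff
  have hvadm : Adm P a B v := by
    refine ⟨hvconv, fun x hx => (hw.lb x hx).trans (le_max_left _ _), fun x hx => ?_⟩
    exact max_le (hw.ub x hx) (hB x hx)
  have hpsi0 : ∀ x ∈ P \ K, psi x = 0 := by
    intro x hx
    have h1 : c + ⟪e, x⟫ ≤ w x := by
      by_contra h
      exact hx.2 (hKc x hx.1 (not_le.1 h))
    exact max_eq_right (by linarith)
  have hveq : EqOff P v w := ⟨K, hK, hKP, fun x hx => by rw [hvw, hpsi0 x hx, add_zero]⟩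
  have hvl : LocallyLipschitzOn P v := convex_locLip ho hvconv
  have hpsil : LocallyLipschitzOn P psi := by
    have h := hvl.sub hwl
    have e1 : psi = v - w := by
      funext z
      simp only [Pi.sub_apply]
      rw [hvw]
      ring
    rw [e1]
    exact h
  have hpsic : ContinuousOn psi P := hpsil.continuousOn
  obtain ⟨Dv, hDv0, hDv⟩ := gradient_bound ho hvl hK hKP
  obtain ⟨Dp, hDp0, hDp⟩ := gradient_bound ho hpsil hK hKP
  obtain ⟨Mp, hMp⟩ := hK.exists_bound_of_continuousOn (hpsic.mono hKP)
  have hnear : ∀ x ∈ P \ K, P \ K ∈ 𝓝 x := fun x hx => (ho.sdiff hK.isClosed).mem_nhds hx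
  have hgp0 : ∀ x ∈ P \ K, gradient psi x = 0 := by
    intro x hx
    have h1 : psi =ᶠ[𝓝 x] fun _ => (0 : ℝ) := by
      filter_upwards [hnear x hx] with y hy using hpsi0 y hy
    rw [SecB_grad_eq h1]
    unfold gradient
    simp
  have hgv0 : ∀ x ∈ P \ K, gradient v x = gradient w x := by
    intro x hx
    refine SecB_grad_eq ?_
    filter_upwards [hnear x hx] with y hy
    rw [hvw, hpsi0 y hy, add_zero]
  -- the gradients
  have hgpsi : ∀ x ∈ P, DifferentiableAt ℝ w x → 0 < psi x → gradient psi x = e - gradient w x := by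
    intro x hx hdx hpos
    have hcx : ContinuousAt psi x := (hpsic x hx).continuousAt (ho.mem_nhds hx)
    have h1 : psi =ᶠ[𝓝 x] fun z => c + ⟪e, z⟫ - w z := by
      filter_upwards [hcx.eventually (lt_mem_nhds hpos)] with y hy
      simp only [hpsi] at hy ⊢
      rcases max_cases (c + ⟪e, y⟫ - w y) 0 with h | h
      · exact h.1
      · rw [h.1] at hy
        exact absurd hy (lt_irrefl _)
    rw [SecB_grad_eq h1]
    refine ext_inner_right ℝ fun u => ?_
    rw [sub_grad_apply, inner_sub_left, sub_grad_apply]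
    have h2 : HasFDerivAt (fun z : E => c + ⟪e, z⟫ - w z) (innerSL ℝ e - fderiv ℝ w x) x :=
      (((innerSL ℝ e).hasFDerivAt).const_add c).sub hdx.hasFDerivAt
    rw [h2.fderiv]
    rfl
  have hgpsi' : ∀ x, psi x = 0 → gradient psi x = 0 := by
    intro x hx
    have h1 : IsLocalMin psi x := Eventually.of_forall fun y => by
      rw [hx]
      exact hpsi_nn y
    unfold gradient
    rw [h1.fderiv_eq_zero]
    simp
  have hgv : ∀ x, DifferentiableAt ℝ w x → DifferentiableAt ℝ psi x →
      gradient v x - gradient w x = gradient psi x := by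
    intro x h1 h2
    have e1 : v = fun z => w z + psi z := funext hvw
    refine ext_inner_right ℝ fun u => ?_
    rw [inner_sub_left, sub_grad_apply, sub_grad_apply, sub_grad_apply, e1]
    rw [fderiv_fun_add h1 h2, add_apply]
    ring
  have hae : ∀ᵐ x ∂(volume.restrict P), DifferentiableAt ℝ w x ∧ DifferentiableAt ℝ psi x ∧
      x ∈ P := by
    filter_upwards [rademacher ho hwl, rademacher ho hpsil, ae_restrict_mem ho.measurableSet]
      with x h1 h2 h3 using ⟨h1, h2, h3⟩
  -- measurability
  have mexp : AEStronglyMeasurable (fun x => Real.exp (-p * w x)) (volume.restrict P) :=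
    (Real.continuous_exp.comp_continuousOn
      (continuousOn_const.mul hwc)).aestronglyMeasurable ho.measurableSet
  have mgw := measurable_gradient w
  have mgv := measurable_gradient v
  have mgp := measurable_gradient psi
  have mFF : AEStronglyMeasurable (fun x => FF p del (gradient w x)) (volume.restrict P) :=
    ((FF_continuous hdel).measurable.comp mgw).aestronglyMeasurable
  have mVV : AEStronglyMeasurable (fun x => VV p del (gradient w x)) (volume.restrict P) :=
    ((VV_continuous hdel).measurable.comp mgw).aestronglyMeasurable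
  have mpsi : AEStronglyMeasurable psi (volume.restrict P) :=
    hpsic.aestronglyMeasurable ho.measurableSet
  have mv : AEStronglyMeasurable v (volume.restrict P) :=
    hvl.continuousOn.aestronglyMeasurable ho.measurableSet
  have mw : AEStronglyMeasurable w (volume.restrict P) :=
    hwc.aestronglyMeasurable ho.measurableSet
  have hexpK : ∀ x ∈ K, |Real.exp (-p * w x)| ≤ m2 := fun x hx => by
    rw [abs_of_pos (Real.exp_pos _)]
    exact hexp2 x hx
  have hpsiK : ∀ x ∈ K, |psi x| ≤ |Mp| := fun x hx => by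
    have := hMp x hx
    rw [Real.norm_eq_abs] at this
    exact this.trans (le_abs_self _)
  -- integrable functions
  have I1 : IntegrableOn (fun x => Real.exp (-p * w x) * (⟪VV p del (gradient w x),
      gradient v x - gradient w x⟫ - (FF p del (gradient w x) - l) * (v x - w x))) P := by
    refine SecB_int ho (mexp.mul ((mVV.inner (mgv.sub mgw).aestronglyMeasurable).sub
      ((mFF.sub aestronglyMeasurable_const).mul (mv.sub mw)))) hK hKP
      (C := m2 * (|MW| * (Dv + D) + (|CF + D ^ p| + |l|) * |Mp|)) (fun x hx => ?_) (fun x hx => ?_)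
    · rw [abs_mul]
      refine mul_le_mul (hexpK x hx) ?_ (abs_nonneg _) hm20.le
      refine (abs_sub _ _).trans (add_le_add ?_ ?_)
      · refine (abs_real_inner_le_norm _ _).trans (mul_le_mul ?_ ?_ (norm_nonneg _)
          (abs_nonneg _))
        · exact (hMW _ (mem_closedBall_zero_iff.2 (hD x hx))).trans (le_abs_self _)
        · exact (norm_sub_le _ _).trans (add_le_add (hDv x hx) (hD x hx))
      · rw [abs_mul]
        refine mul_le_mul ((abs_sub _ _).trans (add_le_add (hFD x hx) le_rfl)) ?_
          (abs_nonneg _) (by positivity)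
        have : v x - w x = psi x := by rw [hvw]; ring
        rw [this]
        exact hpsiK x hx
    · have : v x - w x = psi x := by rw [hvw]; ring
      rw [hgv0 x hx, sub_self, inner_zero_right, this, hpsi0 x hx]
      ring
  have I2 : IntegrableOn (fun x => Real.exp (-p * w x) * ⟪gradient psi x, k⟫) P := by
    refine SecB_int ho (mexp.mul (mgp.aestronglyMeasurable.inner aestronglyMeasurable_const)) hK hKP
      (C := m2 * (Dp * |MV|)) (fun x hx => ?_) (fun x hx => ?_)
    · rw [abs_mul]
      refine mul_le_mul (hexpK x hx) ?_ (abs_nonneg _) hm20.le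
      exact (abs_real_inner_le_norm _ _).trans (mul_le_mul (hDp x hx) hkn (norm_nonneg _) hDp0)
    · rw [hgp0 x hx, inner_zero_left, mul_zero]
  have I3 : IntegrableOn (fun x => Real.exp (-p * w x) * ‖gradient psi x‖ ^ 2) P := by
    refine SecB_int ho (mexp.mul (mgp.norm.pow_const 2).aestronglyMeasurable) hK hKP
      (C := m2 * Dp ^ 2) (fun x hx => ?_) (fun x hx => ?_)
    · rw [abs_mul, abs_of_nonneg (sq_nonneg ‖gradient psi x‖)]
      refine mul_le_mul (hexpK x hx) ?_ (sq_nonneg _) hm20.le
      have := hDp x hx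
      have := norm_nonneg (gradient psi x)
      gcongr
    · rw [hgp0 x hx]
      simp
  have I3' : IntegrableOn (fun x => ‖gradient psi x‖ ^ 2) P := by
    refine SecB_int ho (mgp.norm.pow_const 2).aestronglyMeasurable hK hKP
      (C := Dp ^ 2) (fun x hx => ?_) (fun x hx => ?_)
    · rw [abs_of_nonneg (sq_nonneg _)]
      have := hDp x hx
      have := norm_nonneg (gradient psi x)
      gcongr
    · rw [hgp0 x hx]
      simp
  have I4 : IntegrableOn (fun x => Real.exp (-p * w x) * ((FF p del (gradient w x) - l) * psi x))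
      P := by
    refine SecB_int ho (mexp.mul ((mFF.sub aestronglyMeasurable_const).mul mpsi)) hK hKP
      (C := m2 * ((|CF + D ^ p| + |l|) * |Mp|)) (fun x hx => ?_) (fun x hx => ?_)
    · rw [abs_mul]
      refine mul_le_mul (hexpK x hx) ?_ (abs_nonneg _) hm20.le
      rw [abs_mul]
      exact mul_le_mul ((abs_sub _ _).trans (add_le_add (hFD x hx) le_rfl)) (hpsiK x hx)
        (abs_nonneg _) (by positivity)
    · rw [hpsi0 x hx]
      ring
  have I5 : IntegrableOn (fun x => Real.exp (-p * w x) * (psi x * (p * ⟪gradient w x, k⟫))) P := by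
    refine SecB_int ho (mexp.mul (mpsi.mul ((mgw.aestronglyMeasurable.inner
      aestronglyMeasurable_const).const_mul p))) hK hKP
      (C := m2 * (|Mp| * (p * (D * |MV|)))) (fun x hx => ?_) (fun x hx => ?_)
    · rw [abs_mul]
      refine mul_le_mul (hexpK x hx) ?_ (abs_nonneg _) hm20.le
      rw [abs_mul, abs_mul, abs_of_pos (by linarith : 0 < p)]
      refine mul_le_mul (hpsiK x hx) ?_ (by positivity) (abs_nonneg _)
      refine mul_le_mul_of_nonneg_left ?_ (by linarith)
      exact (abs_real_inner_le_norm _ _).trans (mul_le_mul (hD x hx) hkn (norm_nonneg _) hD0)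
    · rw [hpsi0 x hx]
      ring
  have I6 : IntegrableOn psi P := SecB_int ho mpsi hK hKP hpsiK hpsi0
  -- integration by parts
  have hibp : ∫ x in P, Real.exp (-p * w x) * ⟪gradient psi x, k⟫ =
      ∫ x in P, Real.exp (-p * w x) * (psi x * (p * ⟪gradient w x, k⟫)) := by
    have hGl : LocallyLipschitz (fun s : ℝ => Real.exp (-p * s)) :=
      (Real.contDiff_exp.comp (contDiff_const.mul contDiff_id)).locallyLipschitz
    have hfl : LocallyLipschitzOn P (fun x => Real.exp (-p * w x) * psi x) :=
      SecB_mul (SecB_comp hGl hwl) hpsil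
    have hXl : LocallyLipschitzOn P (fun _ : E => k) := fun x _ =>
      ⟨0, univ, univ_mem, (LipschitzWith.const k).lipschitzOnWith⟩
    obtain ⟨-, -, h3⟩ := ibp ho hXl hfl ⟨K, hK, hKP, fun x hx => by
      show Real.exp (-p * w x) * psi x = 0
      rw [hpsi0 x hx, mul_zero]⟩
    have hdv : ∀ x : E, dv (fun _ : E => k) x = 0 := by
      intro x
      unfold dv
      simp
    simp only [hdv, mul_zero, integral_zero] at h3
    have h4 : ∫ x in P, ⟪gradient (fun x => Real.exp (-p * w x) * psi x) x, k⟫ =
        ∫ x in P, (Real.exp (-p * w x) * ⟪gradient psi x, k⟫ -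
          Real.exp (-p * w x) * (psi x * (p * ⟪gradient w x, k⟫))) := by
      refine integral_congr_ae ?_
      filter_upwards [hae] with x hx
      rw [sub_grad_apply, sub_grad_apply, sub_grad_apply]
      have h5 : HasFDerivAt (fun x => Real.exp (-p * w x))
          (Real.exp (-p * w x) • (-p • fderiv ℝ w x)) x :=
        (hx.1.hasFDerivAt.const_mul (-p)).exp
      rw [fderiv_fun_mul h5.differentiableAt hx.2.1, h5.fderiv]
      simp only [add_apply, smul_apply, smul_eq_mul]
      ring
    rw [h4, integral_sub I2 I5] at h3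
    linarith
  -- the main inequality
  have hmain := hF v hvadm hveq
  have hle : ∫ x in P, Real.exp (-p * w x) * (⟪VV p del (gradient w x),
      gradient v x - gradient w x⟫ - (FF p del (gradient w x) - l) * (v x - w x)) ≤
      ∫ x in P, (Real.exp (-p * w x) * ⟪gradient psi x, k⟫ -
        c0 * (Real.exp (-p * w x) * ‖gradient psi x‖ ^ 2) -
        Real.exp (-p * w x) * ((FF p del (gradient w x) - l) * psi x)) := by
    refine integral_mono_ae I1 ((I2.sub (I3.const_mul c0)).sub I4) ?_
    filter_upwards [hae] with x hx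
    obtain ⟨h1, h2, h3⟩ := hx
    have e1 : v x - w x = psi x := by rw [hvw]; ring
    rw [hgv x h1 h2, e1]
    have e2 : Real.exp (-p * w x) * ⟪gradient psi x, k⟫ -
        c0 * (Real.exp (-p * w x) * ‖gradient psi x‖ ^ 2) -
        Real.exp (-p * w x) * ((FF p del (gradient w x) - l) * psi x) =
        Real.exp (-p * w x) * (⟪k, gradient psi x⟫ - c0 * ‖gradient psi x‖ ^ 2 -
          (FF p del (gradient w x) - l) * psi x) := by
      rw [real_inner_comm k]
      ring
    rw [e2]
    refine mul_le_mul_of_nonneg_left ?_ (Real.exp_pos _).le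
    rcases (hpsi_nn x).eq_or_lt with h | h
    · rw [hgpsi' x h.symm]
      simp
    · have hxK : x ∈ K := by
        by_contra hx
        rw [hpsi0 x ⟨h3, hx⟩] at h
        exact lt_irrefl _ h
      have h4 := hmono e (gradient w x) (he.trans (le_max_left _ _))
        ((hD x hxK).trans (le_max_right _ _))
      rw [hgpsi x h3 h1 h]
      rw [inner_sub_left] at h4
      linarith
  have I23 : IntegrableOn (fun x => Real.exp (-p * w x) * ⟪gradient psi x, k⟫ -
      c0 * (Real.exp (-p * w x) * ‖gradient psi x‖ ^ 2)) P := I2.sub (I3.const_mul c0)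
  have I3c : IntegrableOn (fun x => c0 * (Real.exp (-p * w x) * ‖gradient psi x‖ ^ 2)) P :=
    I3.const_mul c0
  rw [integral_sub I23 I4, integral_sub I2 I3c, hibp, integral_const_mul] at hle
  have hlow : m1 * ∫ x in P, ‖gradient psi x‖ ^ 2 ≤
      ∫ x in P, Real.exp (-p * w x) * ‖gradient psi x‖ ^ 2 := by
    rw [← integral_const_mul]
    refine setIntegral_mono_on (I3'.const_mul m1) I3 ho.measurableSet fun x hx => ?_
    by_cases hxK : x ∈ K
    · exact mul_le_mul_of_nonneg_right (hexp1 x hxK) (sq_nonneg _)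
    · rw [hgp0 x ⟨hx, hxK⟩]
      simp
  have hupp : (∫ x in P, Real.exp (-p * w x) * (psi x * (p * ⟪gradient w x, k⟫))) -
      ∫ x in P, Real.exp (-p * w x) * ((FF p del (gradient w x) - l) * psi x) ≤
      m2 * CT * ∫ x in P, psi x := by
    rw [← integral_sub I5 I4, ← integral_const_mul]
    refine setIntegral_mono_on (I5.sub I4) (I6.const_mul _) ho.measurableSet fun x hx => ?_
    by_cases hxK : x ∈ K
    · have h1 : p * ⟪gradient w x, k⟫ - (FF p del (gradient w x) - l) ≤ CT := by
        have h2 : ⟪gradient w x, k⟫ ≤ D * |MV| := (le_abs_self _).trans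
          ((abs_real_inner_le_norm _ _).trans (mul_le_mul (hD x hxK) hkn (norm_nonneg _) hD0))
        have h3 : p * ⟪gradient w x, k⟫ ≤ p * (D * |MV|) :=
          mul_le_mul_of_nonneg_left h2 (by linarith)
        have h4 := (neg_le_abs _).trans (hFD x hxK)
        have h5 := le_abs_self l
        rw [hCT]
        linarith
      have e1 : Real.exp (-p * w x) * (psi x * (p * ⟪gradient w x, k⟫)) -
          Real.exp (-p * w x) * ((FF p del (gradient w x) - l) * psi x) =
          (Real.exp (-p * w x) * psi x) *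
            (p * ⟪gradient w x, k⟫ - (FF p del (gradient w x) - l)) := by ring
      rw [e1]
      have h6 : 0 ≤ Real.exp (-p * w x) * psi x := mul_nonneg (Real.exp_pos _).le (hpsi_nn x)
      calc _ ≤ (Real.exp (-p * w x) * psi x) * CT := mul_le_mul_of_nonneg_left h1 h6
        _ ≤ (m2 * psi x) * CT := mul_le_mul_of_nonneg_right
            (mul_le_mul_of_nonneg_right (hexp2 x hxK) (hpsi_nn x)) hCT0
        _ = _ := by ring
    · rw [hpsi0 x ⟨hx, hxK⟩]
      simp
  have hpsiI : 0 ≤ ∫ x in P, psi x := integral_nonneg hpsi_nn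
  have hfin : c0 * m1 * ∫ x in P, ‖gradient psi x‖ ^ 2 ≤ m2 * CT * ∫ x in P, psi x := by
    have h1 := mul_le_mul_of_nonneg_left hlow hc0.le
    have h2 := hmain.trans hle
    linarith
  have hcm : 0 < c0 * m1 := by positivity
  have h7 : ∫ x in P, ‖gradient psi x‖ ^ 2 ≤ m2 * CT / (c0 * m1) * ∫ x in P, psi x := by
    rw [div_mul_eq_mul_div, le_div_iff₀ hcm]
    linarith
  calc ∫ x in P, ‖gradient psi x‖ ^ 2 ≤ m2 * CT / (c0 * m1) * ∫ x in P, psi x := h7
    _ ≤ (m2 * CT / (c0 * m1) + 1) * ∫ x in P, psi x :=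
        mul_le_mul_of_nonneg_right (by linarith) hpsiI

end Pool.Agent.PLap
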