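import Pool.Agent.PLap.Tp

/-!
# The comparison function `Theta` (MP_d18ab3_an, module F2)

`Ainv p L` is the inverse of `Ap p L : R -> (-Tp, Tp)`; it solves `V' = L + (p-1) |V|^{p'}`.
`Theta p q L m = Ainv q m o Ap p L`, for `Tp q m = Tp p L`.
-/

namespace Pool.Agent.PLap

open MeasureTheory Set Filter Topology

/-- the inverse of `Ap p L` -/
noncomputable def Ainv (p L : ℝ) (t : ℝ) : ℝ := Function.invFun (Ap p L) t

/-- comparison function -/
noncomputable def Theta (p q L m : ℝ) (r : ℝ) : ℝ := Ainv q m (Ap p L r)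

section inv

variable {p L : ℝ}

theorem Ainv_Ap (hp : 1 < p) (hL : 0 < L) (r : ℝ) : Ainv p L (Ap p L r) = r :=
  Function.leftInverse_invFun (strictMono_Ap hp hL).injective r

theorem Ap_Ainv (hp : 1 < p) (hL : 0 < L) {t : ℝ} (ht : t ∈ Ioo (-Tp p L) (Tp p L)) :
    Ap p L (Ainv p L t) = t := by
  rw [← range_Ap hp hL] at ht
  obtain ⟨r, rfl⟩ := ht
  rw [Ainv_Ap hp hL]

theorem strictMonoOn_Ainv (hp : 1 < p) (hL : 0 < L) :
    StrictMonoOn (Ainv p L) (Ioo (-Tp p L) (Tp p L)) := by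
  intro s hs t ht hst
  rw [← (strictMono_Ap hp hL).lt_iff_lt, Ap_Ainv hp hL hs, Ap_Ainv hp hL ht]
  exact hst

theorem continuousAt_Ainv (hp : 1 < p) (hL : 0 < L) {t : ℝ} (ht : t ∈ Ioo (-Tp p L) (Tp p L)) :
    ContinuousAt (Ainv p L) t := by
  apply continuousAt_of_monotoneOn_of_image_mem_nhds (strictMonoOn_Ainv hp hL).monotoneOn
    (isOpen_Ioo.mem_nhds ht)
  have : Ainv p L '' Ioo (-Tp p L) (Tp p L) = univ := by
    apply eq_univ_of_forall
    intro r
    exact ⟨Ap p L r, ⟨neg_Tp_lt_Ap hp hL r, Ap_lt_Tp hp hL r⟩, Ainv_Ap hp hL r⟩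
  rw [this]; exact univ_mem

/-- the field `V = Ainv p L` solves `V' = L + (p-1) |V|^{p'}` on `(-T, T)` -/
theorem hasDerivAt_Ainv (hp : 1 < p) (hL : 0 < L) {t : ℝ} (ht : t ∈ Ioo (-Tp p L) (Tp p L)) :
    HasDerivAt (Ainv p L) (Dn p L (Ainv p L t)) t := by
  have h := HasDerivAt.of_local_left_inverse (f := Ap p L) (g := Ainv p L) (a := t)
    (continuousAt_Ainv hp hL ht) (hasDerivAt_Ap hp hL _)
    (inv_ne_zero (Dn_pos hp hL _).ne')
    (Filter.eventually_of_mem (isOpen_Ioo.mem_nhds ht) (fun s hs => Ap_Ainv hp hL hs))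
  rwa [inv_inv] at h

theorem Ainv_zero (hp : 1 < p) (hL : 0 < L) : Ainv p L 0 = 0 := by
  have := Ainv_Ap hp hL 0; rwa [Ap_zero] at this

theorem Ainv_neg (hp : 1 < p) (hL : 0 < L) {t : ℝ} (ht : t ∈ Ioo (-Tp p L) (Tp p L)) :
    Ainv p L (-t) = -Ainv p L t := by
  apply (strictMono_Ap hp hL).injective
  rw [Ap_Ainv hp hL ⟨by linarith [ht.2], by linarith [ht.1]⟩, Ap_neg, Ap_Ainv hp hL ht]

end inv

section theta

variable {p q L m : ℝ}

theorem Ap_mem (hp : 1 < p) (hL : 0 < L) (hT : Tp q m = Tp p L) (r : ℝ) :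
    Ap p L r ∈ Ioo (-Tp q m) (Tp q m) := by
  rw [hT]; exact ⟨neg_Tp_lt_Ap hp hL r, Ap_lt_Tp hp hL r⟩

theorem Ap_Theta (hp : 1 < p) (hq : 1 < q) (hL : 0 < L) (hm : 0 < m) (hT : Tp q m = Tp p L)
    (r : ℝ) : Ap q m (Theta p q L m r) = Ap p L r :=
  Ap_Ainv hq hm (Ap_mem hp hL hT r)

theorem Theta_zero (hq : 1 < q) (hm : 0 < m) : Theta p q L m 0 = 0 := by
  unfold Theta; rw [Ap_zero, Ainv_zero hq hm]

theorem Theta_neg (hp : 1 < p) (hq : 1 < q) (hL : 0 < L) (hm : 0 < m) (hT : Tp q m = Tp p L)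
    (r : ℝ) : Theta p q L m (-r) = -Theta p q L m r := by
  unfold Theta; rw [Ap_neg, Ainv_neg hq hm (Ap_mem hp hL hT r)]

theorem strictMono_Theta (hp : 1 < p) (hq : 1 < q) (hL : 0 < L) (hm : 0 < m)
    (hT : Tp q m = Tp p L) : StrictMono (Theta p q L m) := by
  intro r s hrs
  exact strictMonoOn_Ainv hq hm (Ap_mem hp hL hT r) (Ap_mem hp hL hT s) (strictMono_Ap hp hL hrs)

theorem Theta_pos (hp : 1 < p) (hq : 1 < q) (hL : 0 < L) (hm : 0 < m)
    (hT : Tp q m = Tp p L) {r : ℝ} (hr : 0 < r) : 0 < Theta p q L m r := by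
  have := strictMono_Theta hp hq hL hm hT hr
  rwa [Theta_zero hq hm] at this

theorem Theta_nonneg (hp : 1 < p) (hq : 1 < q) (hL : 0 < L) (hm : 0 < m)
    (hT : Tp q m = Tp p L) {r : ℝ} (hr : 0 ≤ r) : 0 ≤ Theta p q L m r := by
  have := (strictMono_Theta hp hq hL hm hT).monotone hr
  rwa [Theta_zero hq hm] at this

theorem surjective_Theta (hp : 1 < p) (hq : 1 < q) (hL : 0 < L) (hm : 0 < m)
    (hT : Tp q m = Tp p L) : Function.Surjective (Theta p q L m) := by
  intro θ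
  have h : Ap q m θ ∈ range (Ap p L) := by
    rw [range_Ap hp hL, ← hT]
    exact ⟨neg_Tp_lt_Ap hq hm θ, Ap_lt_Tp hq hm θ⟩
  obtain ⟨r, hr⟩ := h
  exact ⟨r, by unfold Theta; rw [hr, Ainv_Ap hq hm]⟩

theorem tendsto_Theta (hp : 1 < p) (hq : 1 < q) (hL : 0 < L) (hm : 0 < m)
    (hT : Tp q m = Tp p L) : Tendsto (Theta p q L m) atTop atTop := by
  apply tendsto_atTop_atTop_of_monotone (strictMono_Theta hp hq hL hm hT).monotone
  intro b
  obtain ⟨r, hr⟩ := surjective_Theta hp hq hL hm hT b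
  exact ⟨r, hr.ge⟩

/-- `Theta' = (m + (q-1) |Theta|^{q'}) / (L + (p-1) |r|^{p'})` on the whole line -/
theorem hasDerivAt_Theta (hp : 1 < p) (hq : 1 < q) (hL : 0 < L) (hm : 0 < m)
    (hT : Tp q m = Tp p L) (r : ℝ) :
    HasDerivAt (Theta p q L m) (Dn q m (Theta p q L m r) / Dn p L r) r := by
  have h := (hasDerivAt_Ainv hq hm (Ap_mem hp hL hT r)).comp r (hasDerivAt_Ap hp hL r)
  rw [div_eq_mul_inv]; exact h

theorem continuous_Theta (hp : 1 < p) (hq : 1 < q) (hL : 0 < L) (hm : 0 < m)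
    (hT : Tp q m = Tp p L) : Continuous (Theta p q L m) :=
  continuous_iff_continuousAt.2 fun r => (hasDerivAt_Theta hp hq hL hm hT r).continuousAt

/-- `g -> Ap p L (g^{p-1})` in the slope variable `g` -/
theorem hasDerivAt_slope (hp : 1 < p) (hL : 0 < L) {g : ℝ} (hg : 0 < g) :
    HasDerivAt (fun g => Ap p L (g ^ (p - 1)))
      ((p - 1) * g ^ (p - 2) / (L + (p - 1) * g ^ p)) g := by
  have h1 : HasDerivAt (fun g : ℝ => g ^ (p - 1)) ((p - 1) * g ^ (p - 1 - 1)) g :=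
    Real.hasDerivAt_rpow_const (Or.inl hg.ne')
  have h2 := (hasDerivAt_Ap hp hL (g ^ (p - 1))).comp g h1
  have h3 : (0:ℝ) ≤ g ^ (p - 1) := Real.rpow_nonneg hg.le _
  rw [Dn_of_nonneg h3, ← Real.rpow_mul hg.le] at h2
  have h4 : (p - 1) * (p / (p - 1)) = p := by
    have : p - 1 ≠ 0 := by linarith
    field_simp
  have h5 : p - 1 - 1 = p - 2 := by ring
  rw [h4, h5] at h2
  have h6 : (p - 1) * g ^ (p - 2) / (L + (p - 1) * g ^ p)
      = (L + (p - 1) * g ^ p)⁻¹ * ((p - 1) * g ^ (p - 2)) := by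
    rw [div_eq_mul_inv, mul_comm]
  rw [h6]
  exact h2

theorem slope_compare (hp : 1 < p) (hq : 1 < q) (hqp : q < p) (hL : 0 < L) (hm : 0 < m)
    (hT : Tp q m = Tp p L) {g : ℝ} (hg : 0 < g) :
    Ap p L (g ^ (p - 1)) < Ap q m (g ^ (q - 1)) := by
  set φ : ℝ → ℝ := fun g => Ap q m (g ^ (q - 1)) - Ap p L (g ^ (p - 1)) with hφ
  have hcont : Continuous φ := by
    have h1 : Continuous fun g : ℝ => g ^ (q - 1) :=
      Real.continuous_rpow_const (by linarith)
    have h2 : Continuous fun g : ℝ => g ^ (p - 1) :=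
      Real.continuous_rpow_const (by linarith)
    exact ((continuous_Ap hq hm).comp h1).sub ((continuous_Ap hp hL).comp h2)
  have hφ0 : φ 0 = 0 := by
    simp only [hφ]
    rw [Real.zero_rpow (by linarith), Real.zero_rpow (by linarith), Ap_zero, Ap_zero]; ring
  have hlim : Tendsto φ atTop (𝓝 0) := by
    have h1 : Tendsto (fun g : ℝ => Ap q m (g ^ (q - 1))) atTop (𝓝 (Tp q m)) :=
      (tendsto_Ap_atTop hq hm).comp (tendsto_rpow_atTop (by linarith))
    have h2 : Tendsto (fun g : ℝ => Ap p L (g ^ (p - 1))) atTop (𝓝 (Tp p L)) :=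
      (tendsto_Ap_atTop hp hL).comp (tendsto_rpow_atTop (by linarith))
    have h3 := h1.sub h2
    rwa [hT, sub_self] at h3
  have hder : ∀ g : ℝ, 0 < g → HasDerivAt φ
      (g ^ (q - 2) * ((q - 1) * L - (p - 1) * m * g ^ (p - q)) /
        ((m + (q - 1) * g ^ q) * (L + (p - 1) * g ^ p))) g := by
    intro g hg
    have h := (hasDerivAt_slope hq hm hg).sub (hasDerivAt_slope hp hL hg)
    have e1 : 0 < m + (q - 1) * g ^ q := by
      have : 0 < (q - 1) * g ^ q := mul_pos (by linarith) (Real.rpow_pos_of_pos hg _)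
      linarith
    have e2 : 0 < L + (p - 1) * g ^ p := by
      have : 0 < (p - 1) * g ^ p := mul_pos (by linarith) (Real.rpow_pos_of_pos hg _)
      linarith
    have e3 : g ^ (p - 2) = g ^ (q - 2) * g ^ (p - q) := by
      rw [← Real.rpow_add hg]; congr 1; ring
    have e4 : g ^ p = g ^ q * g ^ (p - q) := by
      rw [← Real.rpow_add hg]; congr 1; ring
    have e5 : g ^ (q - 2) * ((q - 1) * L - (p - 1) * m * g ^ (p - q)) /
        ((m + (q - 1) * g ^ q) * (L + (p - 1) * g ^ p))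
        = (q - 1) * g ^ (q - 2) / (m + (q - 1) * g ^ q)
          - (p - 1) * g ^ (p - 2) / (L + (p - 1) * g ^ p) := by
      rw [div_sub_div _ _ e1.ne' e2.ne']
      congr 1
      rw [e3, e4]; ring
    rw [e5]
    exact h
  set c : ℝ := (((q - 1) * L) / ((p - 1) * m)) ^ (1 / (p - q)) with hc
  have hA : 0 < ((q - 1) * L) / ((p - 1) * m) :=
    div_pos (mul_pos (by linarith) hL) (mul_pos (by linarith) hm)
  have hc0 : 0 < c := Real.rpow_pos_of_pos hA _
  have hcp : c ^ (p - q) = ((q - 1) * L) / ((p - 1) * m) := by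
    rw [hc, ← Real.rpow_mul hA.le]
    have : 1 / (p - q) * (p - q) = 1 := by
      have : p - q ≠ 0 := by linarith
      field_simp
    rw [this, Real.rpow_one]
  have hsign1 : ∀ g : ℝ, 0 < g → g < c → 0 < (q - 1) * L - (p - 1) * m * g ^ (p - q) := by
    intro g hg hgc
    have h1 : g ^ (p - q) < c ^ (p - q) := Real.rpow_lt_rpow hg.le hgc (by linarith)
    rw [hcp, lt_div_iff₀ (mul_pos (by linarith) hm)] at h1
    linarith
  have hsign2 : ∀ g : ℝ, c < g → (q - 1) * L - (p - 1) * m * g ^ (p - q) < 0 := by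
    intro g hgc
    have h1 : c ^ (p - q) < g ^ (p - q) := Real.rpow_lt_rpow hc0.le hgc (by linarith)
    rw [hcp, div_lt_iff₀ (mul_pos (by linarith) hm)] at h1
    linarith
  have hden : ∀ g : ℝ, 0 < g → 0 < (m + (q - 1) * g ^ q) * (L + (p - 1) * g ^ p) := by
    intro g hg
    have h1 : 0 < (q - 1) * g ^ q := mul_pos (by linarith) (Real.rpow_pos_of_pos hg _)
    have h2 : 0 < (p - 1) * g ^ p := mul_pos (by linarith) (Real.rpow_pos_of_pos hg _)
    exact mul_pos (by linarith) (by linarith)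
  have hinc : StrictMonoOn φ (Icc 0 c) := by
    apply strictMonoOn_of_deriv_pos (convex_Icc 0 c) hcont.continuousOn
    intro g hg
    rw [interior_Icc] at hg
    rw [(hder g hg.1).deriv]
    exact div_pos (mul_pos (Real.rpow_pos_of_pos hg.1 _) (hsign1 g hg.1 hg.2)) (hden g hg.1)
  have hdec : StrictAntiOn φ (Ici c) := by
    apply strictAntiOn_of_deriv_neg (convex_Ici c) hcont.continuousOn
    intro g hg
    rw [interior_Ici] at hg
    have hg0 : 0 < g := hc0.trans hg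
    rw [(hder g hg0).deriv]
    exact div_neg_of_neg_of_pos
      (mul_neg_of_pos_of_neg (Real.rpow_pos_of_pos hg0 _) (hsign2 g hg)) (hden g hg0)
  have hpos : 0 < φ g := by
    rcases le_or_gt g c with h | h
    · have := hinc ⟨le_refl 0, hc0.le⟩ ⟨hg.le, h⟩ hg
      rwa [hφ0] at this
    · have h1 : φ (g + 1) < φ g := hdec (show c ≤ g from h.le) (show c ≤ g + 1 by linarith)
        (by linarith)
      have h2 : 0 ≤ φ (g + 1) := by
        refine le_of_tendsto hlim ?_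
        filter_upwards [eventually_ge_atTop (g + 1)] with s hs
        exact hdec.antitoneOn (show c ≤ g + 1 by linarith) (show c ≤ s by linarith) hs
      linarith
  simp only [hφ] at hpos
  linarith

/-- (1.1): `g_q < g_p`, power form -/
theorem Theta_lt_rpow (hp : 1 < p) (hq : 1 < q) (hqp : q < p) (hL : 0 < L) (hm : 0 < m)
    (hT : Tp q m = Tp p L) {r : ℝ} (hr : 0 < r) :
    Theta p q L m r < (r ^ (1 / (p - 1))) ^ (q - 1) := by
  have hg : 0 < r ^ (1 / (p - 1)) := Real.rpow_pos_of_pos hr _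
  have h := slope_compare hp hq hqp hL hm hT hg
  have h1 : (r ^ (1 / (p - 1))) ^ (p - 1) = r := by
    rw [← Real.rpow_mul hr.le]
    have : p - 1 ≠ 0 := by linarith
    rw [show 1 / (p - 1) * (p - 1) = 1 by field_simp, Real.rpow_one]
  rw [h1, ← Ap_Theta hp hq hL hm hT] at h
  exact (strictMono_Ap hq hm).lt_iff_lt.1 h

/-- (1.1): `Theta(r)^{1/(q-1)} < r^{1/(p-1)}` -/
theorem Theta_rpow_lt (hp : 1 < p) (hq : 1 < q) (hqp : q < p) (hL : 0 < L) (hm : 0 < m)
    (hT : Tp q m = Tp p L) {r : ℝ} (hr : 0 < r) :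
    (Theta p q L m r) ^ (1 / (q - 1)) < r ^ (1 / (p - 1)) := by
  have h := Theta_lt_rpow hp hq hqp hL hm hT hr
  have hg : 0 < r ^ (1 / (p - 1)) := Real.rpow_pos_of_pos hr _
  have h2 := Real.rpow_lt_rpow (Theta_pos hp hq hL hm hT hr).le h
    (show 0 < 1 / (q - 1) by apply div_pos one_pos; linarith)
  rw [← Real.rpow_mul hg.le] at h2
  have : q - 1 ≠ 0 := by linarith
  rwa [show (q - 1) * (1 / (q - 1)) = 1 by field_simp, Real.rpow_one] at h2

/-- derivative of `Dn` at positive arguments -/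
theorem hasDerivAt_Dn (hp : 1 < p) {r : ℝ} (hr : 0 < r) :
    HasDerivAt (Dn p L) (p * r ^ (1 / (p - 1))) r := by
  have h1 : HasDerivAt (fun r : ℝ => L + (p - 1) * r ^ (p / (p - 1)))
      ((p - 1) * ((p / (p - 1)) * r ^ (p / (p - 1) - 1))) r :=
    ((Real.hasDerivAt_rpow_const (Or.inl hr.ne')).const_mul _).const_add _
  have hp1 : p - 1 ≠ 0 := by linarith
  have e1 : p / (p - 1) - 1 = 1 / (p - 1) := by field_simp; ring
  have e2 : (p - 1) * ((p / (p - 1)) * r ^ (p / (p - 1) - 1)) = p * r ^ (1 / (p - 1)) := by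
    rw [e1]; field_simp
  rw [e2] at h1
  refine h1.congr_of_eventuallyEq ?_
  filter_upwards [lt_mem_nhds hr] with s hs
  exact Dn_of_nonneg hs.le

/-- the slope `Theta'` is strictly decreasing on `[0, oo)` -/
theorem strictAntiOn_slope (hp : 1 < p) (hq : 1 < q) (hqp : q < p) (hL : 0 < L) (hm : 0 < m)
    (hT : Tp q m = Tp p L) :
    StrictAntiOn (fun r => Dn q m (Theta p q L m r) / Dn p L r) (Ici 0) := by
  have hcont : Continuous (fun r => Dn q m (Theta p q L m r) / Dn p L r) :=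
    ((continuous_Dn hq m).comp (continuous_Theta hp hq hL hm hT)).div (continuous_Dn hp L)
      (fun r => (Dn_pos hp hL r).ne')
  apply strictAntiOn_of_deriv_neg (convex_Ici 0) hcont.continuousOn
  intro r hr
  rw [interior_Ici] at hr
  have hr' : 0 < r := hr
  have hθ := Theta_pos hp hq hL hm hT hr'
  have h1 : HasDerivAt (fun r => Dn q m (Theta p q L m r))
      (q * (Theta p q L m r) ^ (1 / (q - 1)) * (Dn q m (Theta p q L m r) / Dn p L r)) r :=
    (hasDerivAt_Dn hq hθ).comp r (hasDerivAt_Theta hp hq hL hm hT r)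
  have h2 : HasDerivAt (fun r => Dn q m (Theta p q L m r) / Dn p L r) _ r :=
    h1.div (hasDerivAt_Dn (L := L) hp hr') (Dn_pos hp hL r).ne'
  rw [h2.deriv]
  have hD := Dn_pos hp hL r
  have hD2 := Dn_pos hq hm (Theta p q L m r)
  apply div_neg_of_neg_of_pos _ (by positivity)
  have e1 : q * (Theta p q L m r) ^ (1 / (q - 1)) * (Dn q m (Theta p q L m r) / Dn p L r) * Dn p L r
      - Dn q m (Theta p q L m r) * (p * r ^ (1 / (p - 1)))
      = Dn q m (Theta p q L m r) * (q * (Theta p q L m r) ^ (1 / (q - 1)) - p * r ^ (1 / (p - 1))) := by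
    field_simp
  rw [e1]
  apply mul_neg_of_pos_of_neg hD2
  have h3 := Theta_rpow_lt hp hq hqp hL hm hT hr'
  have h4 : 0 < r ^ (1 / (p - 1)) := Real.rpow_pos_of_pos hr' _
  nlinarith

theorem slope_le (hp : 1 < p) (hq : 1 < q) (hqp : q < p) (hL : 0 < L) (hm : 0 < m)
    (hT : Tp q m = Tp p L) {r : ℝ} (hr : 0 ≤ r) :
    Dn q m (Theta p q L m r) / Dn p L r ≤ m / L := by
  have h := (strictAntiOn_slope hp hq hqp hL hm hT).antitoneOn (show (0:ℝ) ∈ Ici 0 by simp)
    (show r ∈ Ici 0 from hr) hr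
  simpa [Theta_zero hq hm, Dn_zero hp, Dn_zero hq] using h

/-- strict concavity: `r Theta'(r) < Theta(r)` for `r > 0` -/
theorem mul_slope_lt (hp : 1 < p) (hq : 1 < q) (hqp : q < p) (hL : 0 < L) (hm : 0 < m)
    (hT : Tp q m = Tp p L) {r : ℝ} (hr : 0 < r) :
    r * (Dn q m (Theta p q L m r) / Dn p L r) < Theta p q L m r := by
  obtain ⟨c, hc, hc'⟩ := exists_hasDerivAt_eq_slope (Theta p q L m)
    (fun r => Dn q m (Theta p q L m r) / Dn p L r) hr
    (continuous_Theta hp hq hL hm hT).continuousOn (fun x _ => hasDerivAt_Theta hp hq hL hm hT x)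
  rw [Theta_zero hq hm, sub_zero, sub_zero] at hc'
  have h := strictAntiOn_slope hp hq hqp hL hm hT (show c ∈ Ici 0 from hc.1.le)
    (show r ∈ Ici 0 from hr.le) hc.2
  simp only at h
  rw [hc', lt_div_iff₀ hr] at h
  linarith

theorem Theta_le (hp : 1 < p) (hq : 1 < q) (hqp : q < p) (hL : 0 < L) (hm : 0 < m)
    (hT : Tp q m = Tp p L) {r : ℝ} (hr : 0 ≤ r) : Theta p q L m r ≤ m / L * r := by
  rcases hr.eq_or_lt with h | hr
  · rw [← h, Theta_zero hq hm, mul_zero]
  obtain ⟨c, hc, hc'⟩ := exists_hasDerivAt_eq_slope (Theta p q L m)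
    (fun r => Dn q m (Theta p q L m r) / Dn p L r) hr
    (continuous_Theta hp hq hL hm hT).continuousOn (fun x _ => hasDerivAt_Theta hp hq hL hm hT x)
  rw [Theta_zero hq hm, sub_zero, sub_zero] at hc'
  have h := slope_le hp hq hqp hL hm hT hc.1.le
  rw [hc', div_le_iff₀ hr] at h
  exact h

/-- `k(r) = Theta(r)/r` -/
theorem hasDerivAt_k (hp : 1 < p) (hq : 1 < q) (hL : 0 < L) (hm : 0 < m)
    (hT : Tp q m = Tp p L) {r : ℝ} (hr : 0 < r) :
    HasDerivAt (fun r => Theta p q L m r / r)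
      ((r * (Dn q m (Theta p q L m r) / Dn p L r) - Theta p q L m r) / r ^ 2) r := by
  have h : HasDerivAt (fun r => Theta p q L m r / r) _ r :=
    (hasDerivAt_Theta hp hq hL hm hT r).div (hasDerivAt_id' r) hr.ne'
  have e : (r * (Dn q m (Theta p q L m r) / Dn p L r) - Theta p q L m r) / r ^ 2
      = (Dn q m (Theta p q L m r) / Dn p L r * r - Theta p q L m r * 1) / r ^ 2 := by ring
  rw [e]; exact h

theorem strictAntiOn_k (hp : 1 < p) (hq : 1 < q) (hqp : q < p) (hL : 0 < L) (hm : 0 < m)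
    (hT : Tp q m = Tp p L) : StrictAntiOn (fun r => Theta p q L m r / r) (Ioi 0) := by
  apply strictAntiOn_of_deriv_neg (convex_Ioi 0)
  · intro r hr
    exact (hasDerivAt_k hp hq hL hm hT hr).continuousAt.continuousWithinAt
  · intro r hr
    rw [interior_Ioi] at hr
    have hr' : 0 < r := hr
    rw [(hasDerivAt_k hp hq hL hm hT hr').deriv]
    apply div_neg_of_neg_of_pos _ (by positivity)
    have := mul_slope_lt hp hq hqp hL hm hT hr'
    linarith

end theta

end Pool.Agent.PLap
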