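import Pool.Agent.PLap.Fin
import Pool.Agent.PLap.LocLip
import Pool.Agent.PLap.Picone
import Pool.Agent.PLap.PolyB
import Pool.Agent.PLap.Scal
import Pool.Agent.PLap.Theta

/-!
Strict: the strict comparison. For Om in KK, 1 < q < p and m with Tp q m = Tp p (lam p Om): m < lam q Om.
-/

set_option autoImplicit false

open MeasureTheory Set Filter Topology
open scoped ENNReal NNReal ContDiff RealInnerProductSpace

namespace Pool.Agent.PLap

theorem Theta_compFn {p q L m : ℝ} (hp : 1 < p) (hq : 1 < q) (hL : 0 < L) (hm : 0 < m)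
    (hT : Tp q m = Tp p L) : CompFn p q L m (Theta p q L m) := by
  have hq' : (0 : ℝ) < q / (q - 1) := div_pos (by linarith) (by linarith)
  refine ⟨Theta_zero hq hm, fun r hr => Theta_pos hp hq hL hm hT hr, ?_, ?_,
    tendsto_Theta hp hq hL hm hT⟩
  · intro r hr
    have h := hasDerivAt_Theta hp hq hL hm hT r
    have h1 := Theta_pos hp hq hL hm hT hr
    rw [Dn_of_nonneg h1.le, Dn_of_nonneg hr.le] at h
    exact h
  · have h := hasDerivAt_Theta hp hq hL hm hT 0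
    rw [Theta_zero hq hm, Dn_zero hq, Dn_zero hp] at h
    exact h.hasDerivWithinAt

theorem field_test {p q L m R0 c d0 : ℝ} (hq : 1 < q) (hqp : q < p) {kk kd et : ℝ → ℝ}
    (hd0 : 0 < d0) (hkc : ContinuousOn kk (Ici 0))
    (hkd : ∀ r, 0 < r → HasDerivAt kk (kd r) r) (hkdc : ContinuousOn kd (Ioi 0))
    (hkd0 : Tendsto (fun r => r * kd r) (𝓝[>] 0) (𝓝 0)) (het : ContDiff ℝ 1 et)
    (het0 : ∀ g, g ≤ d0 → et g = 0)
    (hz : ∀ D e2 : ℝ, 0 ≤ e2 → e2 ≤ d0 → L - e2 ≤ D → m + c ≤ kk 0 * D)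
    (hmain : ∀ g r o a1 a b cc s t e2 : ℝ, 0 < g → 0 < r → 0 < o → 0 < a1 →
        (g ≤ d0 → r ≤ d0 ^ (p - 1)) →
        (d0 ≤ g → r = g ^ (p - 1) ∧ o = g ^ (p - 2) ∧ a1 = (p - 1) * g ^ (p - 2)) →
        0 ≤ a → 0 ≤ b → cc ^ 2 ≤ a * b → |s| ≤ R0 → |t| ≤ R0 → 0 ≤ e2 → e2 ≤ d0 →
        L - e2 + (p - 1) * r ^ (p / (p - 1)) ≤ a1 * a + o * b →
        m + c + (q - 1) * ((kk r * r) ^ 2 + (et g * (g * t)) ^ 2) ^ (q / (q - 1) / 2) ≤
          (kk r + r * kd r) * (a1 * a + o * b) - kd r * r * (o * b) +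
            (et g * g - et g * (s * b) + g * (deriv et g * (t * cc))))
    {del : ℝ} (hdel : 0 < del) (hdd : del ≤ d0) {Cg : ℝ} (hCg : 0 ≤ Cg)
    (hGG : ∀ y : E, (p - 1) * ‖VV p del y‖ ^ (p / (p - 1)) - Cg * del ^ p ≤ GG p del y)
    (hCd : Cg * del ^ p ≤ d0)
    {P : Set E} (hP : IsPoly P) (hPR : ∀ x ∈ P, ‖x‖ ≤ R0) (hLP : L ≤ lam p P)
    {f : E → ℝ} (hf : IsTest P f) :
    (m + c) * ∫ x, |f x| ^ q ≤ ∫ x, ‖fderiv ℝ f x‖ ^ q := by
  have hp : 1 < p := hq.trans hqp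
  obtain ⟨w, l, hl, hw, hC, hE⟩ := thmA hp hdel hP
  obtain ⟨n, nu, c', hnu, hPeq, hPb, hPne⟩ := hP
  have hPo : IsOpen P := (PolyData.isOpen (⟨hnu, hPeq, hPb, hPne⟩ : PolyData n nu c' P))
  have hPc : Convex ℝ P := (PolyData.convex (⟨hnu, hPeq, hPb, hPne⟩ : PolyData n nu c' P))
  have hlip : LocallyLipschitzOn P (Fld p del kk et w) :=
    Fld_locLip hdel hPo hC hd0 hkc hkd hkdc hkd0 het het0
  refine picone hq hPo hlip ?_ hf
  filter_upwards [hE, rademacher hPo hC.lip, ae_restrict_mem hPo.measurableSet] with x hEx hdx hxP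
  set y := gradient w x with hydef
  set D := dv (fun z => VV p del (gradient w z)) x with hDdef
  have hDeq : D = GG p del y + l := by
    have : D - GG p del y = l := hEx
    linarith
  have hDge : L - Cg * del ^ p + (p - 1) * ‖VV p del y‖ ^ (p / (p - 1)) ≤ D := by
    have := hGG y
    rw [hDeq]; linarith
  have hdelp : 0 ≤ Cg * del ^ p := mul_nonneg hCg (Real.rpow_nonneg hdel.le _)
  by_cases hy0 : y = 0
  · obtain ⟨h1, h2⟩ := dv_Fld_zero (p := p) hdel hd0 hdx hy0 hkc het0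
    rw [h1, h2, norm_zero, Real.zero_rpow (by
      have : 0 < q / (q - 1) := div_pos (by linarith) (by linarith)
      exact this.ne'), mul_zero, add_zero]
    refine hz D (Cg * del ^ p) hdelp hCd ?_
    have h3 : VV p del y = 0 := by rw [hy0]; simp [VV]
    rw [h3, norm_zero, Real.zero_rpow (by
      have : 0 < p / (p - 1) := div_pos (by linarith) (by linarith)
      exact this.ne'), mul_zero, add_zero] at hDge
    exact hDge
  · have hgpos : 0 < ‖y‖ := norm_pos_iff.mpr hy0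
    set e : E := ‖y‖⁻¹ • y with hedef
    have he : ‖e‖ = 1 := by
      rw [hedef, norm_smul, norm_inv, norm_norm, inv_mul_cancel₀ hgpos.ne']
    have hye : y = ‖y‖ • e := by
      rw [hedef, smul_smul, mul_inv_cancel₀ hgpos.ne', one_smul]
    have hM := hdx.hasFDerivAt
    set M := fderiv ℝ (gradient w) x with hMdef
    have hs : ∀ u v, ⟪M u, v⟫ = ⟪u, M v⟫ := fun u v => hess_symm hPo hC.diff hxP hM u v
    have hn : ∀ v, 0 ≤ ⟪M v, v⟫ := fun v => hess_nonneg hPo hw hC.diff hxP hM v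
    have hfr := dv_V_frame (p := p) hdel hM hs he hye hy0
    have hdvF := dv_Fld (p := p) (kk := kk) (kd := kd) (et := et) hdel hM hs he hye hy0 hkd het
      (r := ‖VV p del y‖) (o := om p del (‖y‖ ^ 2)) (g := ‖y‖) (D := D) rfl rfl rfl rfl
    have hnF := norm_Fld (p := p) (kk := kk) (et := et) hdel he hye hy0
    set o := om p del (‖y‖ ^ 2) with hodef
    set a1 := o * (1 + (p - 2) * ‖y‖ ^ 2 / max (‖y‖ ^ 2) (del ^ 2)) with ha1def
    have hopos : 0 < o := om_pos hdel _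
    have hr : ‖VV p del y‖ = o * ‖y‖ := norm_VV hdel y
    have hrpos : 0 < ‖VV p del y‖ := by rw [hr]; positivity
    have hDfr : D = a1 * ⟪M e, e⟫ + o * ⟪M (rot e), rot e⟫ := hfr
    have ha1pos : 0 < a1 := by
      refine mul_pos hopos ?_
      have hmx : 0 < max (‖y‖ ^ 2) (del ^ 2) := lt_max_of_lt_left (by positivity)
      have h1 : 0 ≤ ‖y‖ ^ 2 / max (‖y‖ ^ 2) (del ^ 2) := by positivity
      have h2 : ‖y‖ ^ 2 / max (‖y‖ ^ 2) (del ^ 2) ≤ 1 := by
        rw [div_le_one hmx]; exact le_max_left _ _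
      rw [mul_div_assoc]
      rcases h1.eq_or_lt with h3 | h3
      · rw [← h3]; norm_num
      · nlinarith [mul_pos h3 (show 0 < p - 1 by linarith)]
    have hnormpow : ‖Fld p del kk et w x‖ ^ (q / (q - 1)) =
        ((kk ‖VV p del y‖ * ‖VV p del y‖) ^ 2 + (et ‖y‖ * (‖y‖ * ⟪x, rot e⟫)) ^ 2) ^
          (q / (q - 1) / 2) := by
      rw [← hnF, ← Real.rpow_natCast, ← Real.rpow_mul (norm_nonneg _)]
      congr 1
      push_cast
      ring
    rw [hnormpow, hdvF]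
    have hx1 : |⟪x, e⟫| ≤ R0 := by
      refine (abs_real_inner_le_norm x e).trans ?_
      rw [he, mul_one]; exact hPR x hxP
    have hrot1 : ‖rot e‖ = 1 := by rw [norm_rot, he]
    have hx2 : |⟪x, rot e⟫| ≤ R0 := by
      refine (abs_real_inner_le_norm x _).trans ?_
      rw [hrot1, mul_one]; exact hPR x hxP
    have hfin := hmain ‖y‖ ‖VV p del y‖ o a1 ⟪M e, e⟫ ⟪M (rot e), rot e⟫ ⟪M e, rot e⟫
      ⟪x, e⟫ ⟪x, rot e⟫ (Cg * del ^ p) hgpos hrpos hopos ha1pos ?_ ?_ (hn e) (hn _)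
      (cs_psd hs hn e (rot e)) hx1 hx2 hdelp hCd (by rw [← hDfr]; exact hDge)
    · rw [← hDfr] at hfin
      exact hfin
    · intro hg
      have h1 := rad_mono hp hdel hgpos.le hg
      have h2 : om p del (d0 ^ 2) = d0 ^ (p - 2) := om_sq hdel hdd
      rw [hr]
      refine h1.trans ?_
      rw [h2]
      have : d0 ^ (p - 2) * d0 = d0 ^ (p - 1) := by
        rw [← Real.rpow_add_one hd0.ne']
        congr 1
        ring
      rw [this]
    · intro hg
      have hdg : del ≤ ‖y‖ := hdd.trans hg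
      have h2 : o = ‖y‖ ^ (p - 2) := om_sq hdel hdg
      refine ⟨?_, h2, ?_⟩
      · rw [hr, h2, ← Real.rpow_add_one hgpos.ne']
        congr 1
        ring
      · rw [ha1def, h2]
        have hmx : max (‖y‖ ^ 2) (del ^ 2) = ‖y‖ ^ 2 :=
          max_eq_left (pow_le_pow_left₀ hdel.le hdg 2)
        rw [hmx, mul_div_assoc, div_self (by positivity)]
        ring

/-- The strict comparison theorem. -/
theorem strict {p q m : ℝ} (hq : 1 < q) (hqp : q < p) {Om : Set E} (hOm : Om ∈ KK)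
    (hL : 0 < lam p Om) (hm : 0 < m) (hT : Tp q m = Tp p (lam p Om)) : m < lam q Om := by
  have hp : 1 < p := hq.trans hqp
  set L := lam p Om with hLdef
  obtain ⟨hOo, hOc, hOb, hOne⟩ := id hOm
  obtain ⟨R0, hR0⟩ := hOb.subset_closedBall (0 : E)
  have hTh := Theta_compFn hp hq hL hm hT
  have hk : ∀ r, 0 < r → r * ((m + (q - 1) * Theta p q L m r ^ (q / (q - 1))) /
      (L + (p - 1) * r ^ (p / (p - 1)))) < Theta p q L m r := by
    intro r hr
    have h := mul_slope_lt hp hq hqp hL hm hT hr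
    have h1 := Theta_pos hp hq hL hm hT hr
    rw [Dn_of_nonneg h1.le, Dn_of_nonneg hr.le] at h
    exact h
  obtain ⟨kk, kd, et, c, d0, hc, hd0, hkc, hkd, hkdc, hkd0, het, het0, hz, hmain⟩ :=
    scalar_field (R0 := R0) hq hqp hL hm hTh hk
  obtain ⟨Cg, hCg, hGG⟩ := GG_ge hp
  -- choose del
  have hlim : Tendsto (fun d : ℝ => Cg * d ^ p) (𝓝[>] 0) (𝓝 0) := by
    have h1 : Tendsto (fun d : ℝ => Cg * d ^ p) (𝓝 0) (𝓝 (Cg * (0 : ℝ) ^ p)) :=
      (Real.continuousAt_rpow_const 0 p (Or.inr (by linarith))).tendsto.const_mul Cg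
    rw [Real.zero_rpow (by linarith), mul_zero] at h1
    exact h1.mono_left nhdsWithin_le_nhds
  obtain ⟨del, hdel⟩ := ((hlim.eventually (gt_mem_nhds hd0)).and
    ((Ioc_mem_nhdsGT hd0 : Ioc 0 d0 ∈ 𝓝[>] (0 : ℝ)))).exists
  have hmc : m + c ≤ lam q Om := by
    refine le_lam hq hOo hOne ?_
    intro f hf
    obtain ⟨P, hP, hKP, hPO⟩ := poly_between hOm hf.2.1.isCompact hf.2.2
    have hPdata := id hP
    obtain ⟨n, nu, c', hnu, hPeq, hPb, hPne⟩ := hPdata
    have hPo : IsOpen P := (PolyData.isOpen (⟨hnu, hPeq, hPb, hPne⟩ : PolyData n nu c' P))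
    have hLP : L ≤ lam p P := lam_anti hp hPo hPne hPO
    exact field_test (L := L) (R0 := R0) hq hqp hd0 hkc hkd hkdc hkd0 het het0 hz hmain hdel.2.1
      hdel.2.2 hCg (hGG del hdel.2.1) hdel.1.le hP
      (fun x hx => mem_closedBall_zero_iff.mp (hR0 (hPO hx))) hLP ⟨hf.1, hf.2.1, hKP⟩
  linarith

end Pool.Agent.PLap
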