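import Pool.Agent.PLap.Defs

/-!
Sub: elementary convex analysis on an open convex set P of the plane.

subgradient: separate (x, w x) from the open strict epigraph (Hahn-Banach), or: use `ConvexOn` continuity and
`geometric_hahn_banach_open_point` in E x ℝ.
grad_le: at a point of differentiability the tangent plane lies below (one-variable convexity).
mono: add the two tangent inequalities.
grad_cont: a convex differentiable function on an open convex set has a continuous gradient (limit of tangent planes is a supporting plane; or local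
boundedness of gradients + closedness of the graph + uniqueness of the subgradient at a point of differentiability).
loc_lip: Mathlib `ConvexOn.locallyLipschitzOn`. ae_diff: from Rademacher.
sub_unique: if y is a subgradient at a point of differentiability then y = gradient.
touch: if f <= g near x with equality at x and both differentiable then the gradients agree (local extremum of g - f).
psd: at a point x of P where the gradient map of the convex function w is differentiable, with derivative M: <M v, v> >= 0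
(monotonicity of the gradient) and M is symmetric (`second_derivative_symmetric`).
-/

set_option autoImplicit false

open MeasureTheory Set Filter Topology
open scoped ENNReal NNReal ContDiff RealInnerProductSpace

namespace Pool.Agent.PLap

theorem sub_grad_apply (w : E → ℝ) (x v : E) : ⟪gradient w x, v⟫ = fderiv ℝ w x v := by
  unfold gradient
  exact InnerProductSpace.toDual_symm_apply

theorem subgradient {P : Set E} (ho : IsOpen P) {w : E → ℝ} (hw : ConvexOn ℝ P w)
    {x : E} (hx : x ∈ P) : ∃ y : E, ∀ z ∈ P, w x + ⟪y, z - x⟫ ≤ w z := by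
  have hcont : ContinuousOn w P := hw.continuousOn ho
  have hconv : Convex ℝ {q : E × ℝ | q.1 ∈ P ∧ w q.1 < q.2} := hw.convex_strict_epigraph
  have hopen : IsOpen {q : E × ℝ | q.1 ∈ P ∧ w q.1 < q.2} := by
    have h1 : ContinuousOn (fun q : E × ℝ => q.2 - w q.1) (Prod.fst ⁻¹' P) :=
      continuous_snd.continuousOn.sub (hcont.comp continuous_fst.continuousOn (fun q hq => hq))
    have h2 := h1.isOpen_inter_preimage (ho.preimage continuous_fst) (isOpen_Ioi (a := (0 : ℝ)))
    have h3 : {q : E × ℝ | q.1 ∈ P ∧ w q.1 < q.2}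
        = Prod.fst ⁻¹' P ∩ (fun q : E × ℝ => q.2 - w q.1) ⁻¹' Ioi 0 := by
      ext q
      simp [sub_pos]
    rw [h3]
    exact h2
  have hnot : ((x, w x) : E × ℝ) ∉ {q : E × ℝ | q.1 ∈ P ∧ w q.1 < q.2} := fun h => lt_irrefl _ h.2
  obtain ⟨f, hf⟩ := geometric_hahn_banach_open_point hconv hopen hnot
  set c : ℝ := f (0, 1) with hc
  set φ : E →L[ℝ] ℝ := f.comp (ContinuousLinearMap.inl ℝ E ℝ) with hφ
  have hsplit : ∀ (z : E) (r : ℝ), f (z, r) = φ z + r * c := by
    intro z r
    have h1 : ((z, r) : E × ℝ) = (z, 0) + r • ((0, 1) : E × ℝ) := by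
      simp
    rw [h1, map_add, map_smul, smul_eq_mul]
    rfl
  have hcneg : c < 0 := by
    have h1 := hf (x, w x + 1) ⟨hx, by simp⟩
    rw [hsplit, hsplit] at h1
    linarith
  have hmain : ∀ z ∈ P, φ z + w z * c ≤ φ x + w x * c := by
    intro z hz
    refine le_of_forall_pos_lt_add (fun ε hε => ?_)
    have h1 := hf (z, w z + ε / (-c)) ⟨hz, by
      have : 0 < ε / (-c) := div_pos hε (by linarith)
      simp only
      linarith⟩
    rw [hsplit, hsplit] at h1
    have h2 : ε / (-c) * c = -ε := by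
      rw [div_neg, neg_mul, div_mul_cancel₀ _ hcneg.ne]
    have h3 : (w z + ε / (-c)) * c = w z * c - ε := by rw [add_mul, h2]; ring
    linarith
  refine ⟨(InnerProductSpace.toDual ℝ E).symm ((-c)⁻¹ • φ), fun z hz => ?_⟩
  rw [InnerProductSpace.toDual_symm_apply]
  have h1 := hmain z hz
  have h2 : ((-c)⁻¹ • φ) (z - x) = (-c)⁻¹ * (φ z - φ x) := by
    rw [smul_apply, smul_eq_mul, map_sub]
  rw [h2]
  have hcp : 0 < -c := by linarith
  have h3 : φ z - φ x ≤ (-c) * (w z - w x) := by linarith
  have h4 : (-c)⁻¹ * (φ z - φ x) ≤ (-c)⁻¹ * ((-c) * (w z - w x)) :=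
    mul_le_mul_of_nonneg_left h3 (by positivity)
  rw [inv_mul_cancel_left₀ hcp.ne'] at h4
  linarith

theorem convex_locLip {P : Set E} (ho : IsOpen P) {w : E → ℝ} (hw : ConvexOn ℝ P w) :
    LocallyLipschitzOn P w := hw.locallyLipschitzOn ho

theorem grad_le {P : Set E} (ho : IsOpen P) {w : E → ℝ} (hw : ConvexOn ℝ P w) {x : E}
    (hx : x ∈ P) (hd : DifferentiableAt ℝ w x) {z : E} (hz : z ∈ P) :
    w x + ⟪gradient w x, z - x⟫ ≤ w z := by
  rw [sub_grad_apply]
  have h1 : HasDerivAt (fun t : ℝ => w (x + t • (z - x))) (fderiv ℝ w x (z - x)) 0 := by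
    have h2 : HasDerivAt (fun t : ℝ => x + t • (z - x)) (z - x) 0 := by
      have := ((hasDerivAt_id (0 : ℝ)).smul_const (z - x)).const_add x
      simpa using this
    have h3 : HasFDerivAt w (fderiv ℝ w x) (x + (0 : ℝ) • (z - x)) := by
      rw [zero_smul, add_zero]
      exact hd.hasFDerivAt
    exact h3.comp_hasDerivAt 0 h2
  have h4 := h1.tendsto_slope_zero_right
  have h5 : fderiv ℝ w x (z - x) ≤ w z - w x := by
    refine le_of_tendsto h4 ?_
    have h6 : Ioo (0 : ℝ) 1 ∈ 𝓝[>] (0 : ℝ) := Ioo_mem_nhdsGT one_pos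
    filter_upwards [h6] with t ht
    have hc := hw.2 hx hz (sub_nonneg.mpr ht.2.le) ht.1.le (by ring)
    have e1 : (1 - t) • x + t • z = x + t • (z - x) := by
      rw [sub_smul, one_smul, smul_sub]; abel
    rw [e1] at hc
    simp only [smul_eq_mul, zero_add, zero_smul, add_zero] at hc ⊢
    rw [inv_mul_le_iff₀ ht.1]
    nlinarith
  linarith

theorem sub_unique {P : Set E} (ho : IsOpen P) {w : E → ℝ} {x : E} (hx : x ∈ P)
    (hd : DifferentiableAt ℝ w x) {y : E} (hy : ∀ z ∈ P, w x + ⟪y, z - x⟫ ≤ w z) :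
    y = gradient w x := by
  have hmin : IsLocalMin (fun z => w z - ⟪y, z⟫) x := by
    filter_upwards [ho.mem_nhds hx] with z hz
    have h1 := hy z hz
    rw [inner_sub_right] at h1
    linarith
  have hder : HasFDerivAt (fun z => w z - ⟪y, z⟫) (fderiv ℝ w x - innerSL ℝ y) x := by
    refine hd.hasFDerivAt.sub ?_
    have := (innerSL ℝ y).hasFDerivAt (x := x)
    exact this
  have h0 := hmin.hasFDerivAt_eq_zero hder
  refine ext_inner_right ℝ (fun v => ?_)
  rw [sub_grad_apply]
  have h1 := congrArg (fun L : E →L[ℝ] ℝ => L v) h0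
  simp only [sub_apply, innerSL_apply_apply, zero_apply] at h1
  linarith

theorem grad_mono {P : Set E} (ho : IsOpen P) {w : E → ℝ} (hw : ConvexOn ℝ P w) {x z : E}
    (hx : x ∈ P) (hz : z ∈ P) (hdx : DifferentiableAt ℝ w x) (hdz : DifferentiableAt ℝ w z) :
    0 ≤ ⟪gradient w x - gradient w z, x - z⟫ := by
  have h1 := grad_le ho hw hx hdx hz
  have h2 := grad_le ho hw hz hdz hx
  have h3 : ⟪gradient w x, z - x⟫ = -⟪gradient w x, x - z⟫ := by
    rw [← inner_neg_right, neg_sub]
  rw [inner_sub_left]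
  linarith

theorem grad_continuousOn {P : Set E} (ho : IsOpen P) {w : E → ℝ} (hw : ConvexOn ℝ P w)
    (hd : ∀ x ∈ P, DifferentiableAt ℝ w x) : ContinuousOn (gradient w) P := by
  intro x hx
  obtain ⟨K, t, ht, hK⟩ := (convex_locLip ho hw) hx
  have htn : t ∈ 𝓝 x := by
    rwa [ho.nhdsWithin_eq hx] at ht
  have hbd : ∀ᶠ z in 𝓝 x, gradient w z ∈ Metric.closedBall (0 : E) K := by
    have h1 : ∀ᶠ z in 𝓝 x, t ∈ 𝓝 z := eventually_mem_nhds_iff.mpr htn
    filter_upwards [h1] with z hz
    rw [mem_closedBall_zero_iff]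
    have h2 : ‖fderiv ℝ w z‖ ≤ K := by
      exact norm_fderiv_le_of_lipschitzOn ℝ hz hK
    have h3 : ‖gradient w z‖ = ‖fderiv ℝ w z‖ := by
      unfold gradient
      exact LinearIsometryEquiv.norm_map _ _
    rw [h3]
    exact h2
  have hcomp : IsCompact (Metric.closedBall (0 : E) K) := isCompact_closedBall _ _
  refine hcomp.tendsto_nhds_of_unique_mapClusterPt
    (hbd.filter_mono nhdsWithin_le_nhds) (fun y _ hy => ?_)
  obtain ⟨U, hU, hty⟩ := mapClusterPt_iff_ultrafilter.mp hy
  refine sub_unique ho hx (hd x hx) (fun u hu => ?_)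
  have hU' : (U : Filter E) ≤ 𝓝 x := hU.trans nhdsWithin_le_nhds
  have hUP : ∀ᶠ z in (U : Filter E), z ∈ P := hU self_mem_nhdsWithin
  have hwt : Tendsto w U (𝓝 (w x)) :=
    ((hw.continuousOn ho).continuousAt (ho.mem_nhds hx)).tendsto.mono_left hU'
  have hid : Tendsto (fun z : E => u - z) U (𝓝 (u - x)) :=
    (tendsto_const_nhds.sub tendsto_id).mono_left hU'
  have hlim : Tendsto (fun z => w z + ⟪gradient w z, u - z⟫) U (𝓝 (w x + ⟪y, u - x⟫)) :=
    hwt.add (hty.inner hid)
  refine le_of_tendsto hlim ?_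
  filter_upwards [hUP] with z hz
  exact grad_le ho hw hz (hd z hz) hu

theorem touch {f g : E → ℝ} {x : E} (hf : DifferentiableAt ℝ f x) (hg : DifferentiableAt ℝ g x)
    (hle : ∀ᶠ z in 𝓝 x, f z ≤ g z) (heq : f x = g x) : gradient f x = gradient g x := by
  have hmin : IsLocalMin (fun z => g z - f z) x := by
    filter_upwards [hle] with z hz
    rw [heq]
    linarith
  have h0 := hmin.hasFDerivAt_eq_zero (hg.hasFDerivAt.sub hf.hasFDerivAt)
  have h1 : fderiv ℝ g x = fderiv ℝ f x := sub_eq_zero.mp h0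
  unfold gradient
  rw [h1]

theorem hess_symm {P : Set E} (ho : IsOpen P) {w : E → ℝ} (hd : ∀ x ∈ P, DifferentiableAt ℝ w x)
    {x : E} (hx : x ∈ P) {M : E →L[ℝ] E} (hM : HasFDerivAt (gradient w) M x) (u v : E) :
    ⟪M u, v⟫ = ⟪u, M v⟫ := by
  let J : E →L[ℝ] E →L[ℝ] ℝ :=
    (isBoundedBilinearMap_inner (𝕜 := ℝ) (E := E)).toContinuousLinearMap
  have hJ : ∀ a b : E, J a b = ⟪a, b⟫ := fun a b => rfl
  have hfd : ∀ z, fderiv ℝ w z = J (gradient w z) := by
    intro z
    ext b
    rw [hJ, sub_grad_apply]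
  have h1 : HasFDerivAt (fderiv ℝ w) (J ∘L M) x := by
    have h2 : HasFDerivAt (fun z => J (gradient w z)) (J ∘L M) x := J.hasFDerivAt.comp x hM
    have h3 : fderiv ℝ w = fun z => J (gradient w z) := funext hfd
    rw [h3]
    exact h2
  have h4 := second_derivative_symmetric_of_eventually_of_real (f := w) (f' := fderiv ℝ w)
    (f'' := J ∘L M) (x := x) (by
      filter_upwards [ho.mem_nhds hx] with z hz
      exact (hd z hz).hasFDerivAt) h1 u v
  have h5 : ⟪M u, v⟫ = ⟪M v, u⟫ := h4
  rw [h5, real_inner_comm]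

theorem hess_nonneg {P : Set E} (ho : IsOpen P) {w : E → ℝ} (hw : ConvexOn ℝ P w)
    (hd : ∀ x ∈ P, DifferentiableAt ℝ w x) {x : E} (hx : x ∈ P) {M : E →L[ℝ] E}
    (hM : HasFDerivAt (gradient w) M x) (v : E) : 0 ≤ ⟪M v, v⟫ := by
  have h2 : HasDerivAt (fun t : ℝ => x + t • v) v 0 := by
    have := ((hasDerivAt_id (0 : ℝ)).smul_const v).const_add x
    simpa using this
  have h1 : HasDerivAt (fun t : ℝ => gradient w (x + t • v)) (M v) 0 := by
    have h3 : HasFDerivAt (gradient w) M (x + (0 : ℝ) • v) := by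
      rw [zero_smul, add_zero]
      exact hM
    exact h3.comp_hasDerivAt 0 h2
  have h4 := h1.tendsto_slope_zero_right
  have h5 : Tendsto (fun t : ℝ => ⟪t⁻¹ • (gradient w (x + (0 + t) • v) - gradient w (x + (0 : ℝ) • v)), v⟫)
      (𝓝[>] 0) (𝓝 ⟪M v, v⟫) := h4.inner tendsto_const_nhds
  refine ge_of_tendsto h5 ?_
  have h6 : ∀ᶠ t in 𝓝[>] (0 : ℝ), x + t • v ∈ P := by
    have hc : Tendsto (fun t : ℝ => x + t • v) (𝓝 0) (𝓝 x) := by
      have := h2.continuousAt.tendsto
      simpa using this
    exact (hc.eventually (ho.mem_nhds hx)).filter_mono nhdsWithin_le_nhds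
  filter_upwards [h6, self_mem_nhdsWithin] with t ht htpos
  have htp : (0 : ℝ) < t := htpos
  have h7 := grad_mono ho hw ht hx (hd _ ht) (hd x hx)
  rw [add_sub_cancel_left, inner_smul_right] at h7
  rw [zero_add, zero_smul, add_zero, inner_smul_left]
  have h8 : 0 ≤ ⟪gradient w (x + t • v) - gradient w x, v⟫ := by
    by_contra hcon
    push Not at hcon
    have := mul_neg_of_pos_of_neg htp hcon
    linarith
  have h9 : (0 : ℝ) ≤ t⁻¹ := by positivity
  simpa using mul_nonneg h9 h8

end Pool.Agent.PLap
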