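import Mathlib

/-!
# The half period `T_p(L)` and the one dimensional time function (MP_d18ab3_an, module F1)

`Dn p L r = L + (p-1) |r|^(p/(p-1))`, `Tp p L = int_0^oo dr / (L + (p-1) r^(p/(p-1)))`,
`Ap p L r = int_0^r ds / Dn p L s` (odd, strictly increasing, with limits `-Tp, Tp`).
-/

namespace Pool.Agent.PLap

open MeasureTheory Set Filter Topology

/-- `L + (p-1) |r|^{p'}` -/
noncomputable def Dn (p L r : ℝ) : ℝ := L + (p - 1) * |r| ^ (p / (p - 1))

/-- half length of the interval with first `p`-eigenvalue `L` -/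
noncomputable def Tp (p L : ℝ) : ℝ := ∫ r in Ioi (0:ℝ), (L + (p - 1) * r ^ (p / (p - 1)))⁻¹

/-- time needed from `0` to `r` -/
noncomputable def Ap (p L r : ℝ) : ℝ := ∫ s in (0:ℝ)..r, (Dn p L s)⁻¹

section basic

variable {p L : ℝ}

theorem pp_pos (hp : 1 < p) : 0 < p / (p - 1) := div_pos (by linarith) (by linarith)

theorem one_lt_pp (hp : 1 < p) : 1 < p / (p - 1) := by
  rw [lt_div_iff₀ (by linarith)]; linarith

theorem Dn_pos (hp : 1 < p) (hL : 0 < L) (r : ℝ) : 0 < Dn p L r := by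
  have h1 : 0 ≤ |r| ^ (p / (p - 1)) := Real.rpow_nonneg (abs_nonneg _) _
  have h2 : 0 ≤ (p - 1) * |r| ^ (p / (p - 1)) := mul_nonneg (by linarith) h1
  unfold Dn; linarith

theorem Dn_neg (p L r : ℝ) : Dn p L (-r) = Dn p L r := by simp [Dn]

theorem Dn_of_nonneg {r : ℝ} (hr : 0 ≤ r) : Dn p L r = L + (p - 1) * r ^ (p / (p - 1)) := by
  unfold Dn; rw [abs_of_nonneg hr]

theorem Dn_zero (hp : 1 < p) : Dn p L 0 = L := by
  unfold Dn
  rw [abs_zero, Real.zero_rpow (pp_pos hp).ne']; ring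

theorem le_Dn (hp : 1 < p) (r : ℝ) : L ≤ Dn p L r := by
  have h1 : 0 ≤ |r| ^ (p / (p - 1)) := Real.rpow_nonneg (abs_nonneg _) _
  have h2 : 0 ≤ (p - 1) * |r| ^ (p / (p - 1)) := mul_nonneg (by linarith) h1
  unfold Dn; linarith

theorem continuous_Dn (hp : 1 < p) (L : ℝ) : Continuous (Dn p L) := by
  unfold Dn
  exact continuous_const.add (continuous_const.mul
    (continuous_abs.rpow_const (fun _ => Or.inr (pp_pos hp).le)))

theorem continuous_Dn_inv (hp : 1 < p) (hL : 0 < L) : Continuous (fun r => (Dn p L r)⁻¹) :=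
  (continuous_Dn hp L).inv₀ (fun r => (Dn_pos hp hL r).ne')

theorem hasDerivAt_Ap (hp : 1 < p) (hL : 0 < L) (r : ℝ) :
    HasDerivAt (Ap p L) ((Dn p L r)⁻¹) r := by
  have hc := continuous_Dn_inv hp hL
  exact intervalIntegral.integral_hasDerivAt_right (hc.intervalIntegrable _ _)
    hc.stronglyMeasurable.stronglyMeasurableAtFilter hc.continuousAt

theorem Ap_zero (p L : ℝ) : Ap p L 0 = 0 := by simp [Ap]

theorem Ap_neg (p L r : ℝ) : Ap p L (-r) = -Ap p L r := by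
  unfold Ap
  have h := intervalIntegral.integral_comp_neg (a := 0) (b := r) (fun s => (Dn p L s)⁻¹)
  simp only [Dn_neg, neg_zero] at h
  rw [intervalIntegral.integral_symm, ← h]

theorem strictMono_Ap (hp : 1 < p) (hL : 0 < L) : StrictMono (Ap p L) := by
  apply strictMono_of_deriv_pos
  intro r
  rw [(hasDerivAt_Ap hp hL r).deriv]
  exact inv_pos.2 (Dn_pos hp hL r)

theorem continuous_Ap (hp : 1 < p) (hL : 0 < L) : Continuous (Ap p L) :=
  continuous_iff_continuousAt.2 fun r => (hasDerivAt_Ap hp hL r).continuousAt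

theorem integrableOn_Dn_inv (hp : 1 < p) (hL : 0 < L) :
    IntegrableOn (fun r => (Dn p L r)⁻¹) (Ioi 0) := by
  have hc := continuous_Dn_inv hp hL
  have h1 : IntegrableOn (fun r => (Dn p L r)⁻¹) (Ioc 0 1) :=
    (hc.integrableOn_Icc (a := 0) (b := 1)).mono_set Ioc_subset_Icc_self
  have h2 : IntegrableOn (fun r => (Dn p L r)⁻¹) (Ioi 1) := by
    have h3 : IntegrableOn (fun r : ℝ => (p - 1)⁻¹ * r ^ (-(p / (p - 1)))) (Ioi 1) :=
      (integrableOn_Ioi_rpow_of_lt (by have := one_lt_pp hp; linarith) one_pos).const_mul _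
    refine Integrable.mono' h3 hc.aestronglyMeasurable ?_
    refine (ae_restrict_mem measurableSet_Ioi).mono ?_
    intro r hr
    have hr' : (0:ℝ) < r := lt_trans one_pos hr
    rw [Real.norm_of_nonneg (inv_nonneg.2 (Dn_pos hp hL r).le), Real.rpow_neg hr'.le, ← mul_inv]
    apply inv_anti₀ (mul_pos (by linarith) (Real.rpow_pos_of_pos hr' _))
    rw [Dn_of_nonneg hr'.le]; linarith
  rw [← Ioc_union_Ioi_eq_Ioi (zero_le_one' ℝ)]
  exact h1.union h2

theorem Tp_eq (p L : ℝ) : Tp p L = ∫ r in Ioi (0:ℝ), (Dn p L r)⁻¹ := by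
  unfold Tp
  apply setIntegral_congr_fun measurableSet_Ioi
  intro r hr
  simp only [Dn_of_nonneg (le_of_lt (show (0:ℝ) < r from hr))]

theorem integrableOn_Tp (hp : 1 < p) (hL : 0 < L) :
    IntegrableOn (fun r => (L + (p - 1) * r ^ (p / (p - 1)))⁻¹) (Ioi 0) := by
  refine (integrableOn_Dn_inv hp hL).congr_fun ?_ measurableSet_Ioi
  intro r hr
  simp only [Dn_of_nonneg (le_of_lt (show (0:ℝ) < r from hr))]

theorem tendsto_Ap_atTop (hp : 1 < p) (hL : 0 < L) : Tendsto (Ap p L) atTop (𝓝 (Tp p L)) := by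
  rw [Tp_eq]
  exact intervalIntegral_tendsto_integral_Ioi 0 (integrableOn_Dn_inv hp hL) tendsto_id

theorem Ap_lt_Tp (hp : 1 < p) (hL : 0 < L) (r : ℝ) : Ap p L r < Tp p L := by
  have h1 : Ap p L (r + 1) ≤ Tp p L := by
    refine ge_of_tendsto (tendsto_Ap_atTop hp hL) ?_
    filter_upwards [eventually_ge_atTop (r + 1)] with s hs
    exact (strictMono_Ap hp hL).monotone hs
  exact lt_of_lt_of_le (strictMono_Ap hp hL (by linarith)) h1

theorem neg_Tp_lt_Ap (hp : 1 < p) (hL : 0 < L) (r : ℝ) : -Tp p L < Ap p L r := by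
  have h := Ap_lt_Tp hp hL (-r)
  rw [Ap_neg] at h; linarith

theorem Tp_pos (hp : 1 < p) (hL : 0 < L) : 0 < Tp p L := by
  have h := Ap_lt_Tp hp hL 0
  rwa [Ap_zero] at h

theorem range_Ap (hp : 1 < p) (hL : 0 < L) : range (Ap p L) = Ioo (-Tp p L) (Tp p L) := by
  apply Subset.antisymm
  · rintro _ ⟨r, rfl⟩
    exact ⟨neg_Tp_lt_Ap hp hL r, Ap_lt_Tp hp hL r⟩
  · intro t ht
    have key : ∀ t : ℝ, 0 ≤ t → t < Tp p L → ∃ r, Ap p L r = t := by
      intro t h0 h1
      obtain ⟨R, hR0, hR⟩ := ((eventually_ge_atTop (0:ℝ)).and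
        ((tendsto_Ap_atTop hp hL).eventually (lt_mem_nhds h1))).exists
      have h2 : t ∈ Icc (Ap p L 0) (Ap p L R) := ⟨by rw [Ap_zero]; exact h0, hR.le⟩
      obtain ⟨r, -, hr⟩ := intermediate_value_Icc hR0 (continuous_Ap hp hL).continuousOn h2
      exact ⟨r, hr⟩
    rcases le_total 0 t with h0 | h0
    · exact key t h0 ht.2
    · obtain ⟨r, hr⟩ := key (-t) (by linarith) (by linarith [ht.1])
      exact ⟨-r, by rw [Ap_neg, hr]; ring⟩

/-- scaling -/
theorem Tp_scale (hp : 1 < p) (hL : 0 < L) : Tp p L = L ^ (-(1 / p)) * Tp p 1 := by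
  have hp0 : p ≠ 0 := by linarith
  have hp1 : p - 1 ≠ 0 := by linarith
  set b : ℝ := L ^ (-((p - 1) / p)) with hb
  have hb0 : 0 < b := Real.rpow_pos_of_pos hL _
  have h := integral_comp_mul_left_Ioi (fun r : ℝ => (1 + (p - 1) * r ^ (p / (p - 1)))⁻¹) 0 hb0
  rw [mul_zero] at h
  have h2 : ∀ r ∈ Ioi (0:ℝ), (1 + (p - 1) * (b * r) ^ (p / (p - 1)))⁻¹
      = L * (L + (p - 1) * r ^ (p / (p - 1)))⁻¹ := by
    intro r hr
    have hr' : (0:ℝ) < r := hr
    have hbp : b ^ (p / (p - 1)) = L⁻¹ := by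
      rw [hb, ← Real.rpow_mul hL.le]
      have : -((p - 1) / p) * (p / (p - 1)) = -1 := by field_simp
      rw [this, Real.rpow_neg_one]
    rw [Real.mul_rpow hb0.le hr'.le, hbp]
    have hD : 0 < L + (p - 1) * r ^ (p / (p - 1)) := by
      have := Dn_pos hp hL r; rwa [Dn_of_nonneg hr'.le] at this
    have h3 : 1 + (p - 1) * (L⁻¹ * r ^ (p / (p - 1))) = L⁻¹ * (L + (p - 1) * r ^ (p / (p - 1))) := by
      field_simp
    rw [h3, mul_inv, inv_inv]
  have h4 : (∫ r in Ioi (0:ℝ), (1 + (p - 1) * (b * r) ^ (p / (p - 1)))⁻¹) = L * Tp p L := by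
    rw [setIntegral_congr_fun measurableSet_Ioi h2, integral_const_mul]; rfl
  rw [h4] at h
  have h5 : L * Tp p L = b⁻¹ * Tp p 1 := by
    rw [h]; simp [Tp]
  have h6 : b⁻¹ = L * L ^ (-(1 / p)) := by
    rw [hb, ← Real.rpow_neg hL.le, neg_neg]
    nth_rewrite 2 [← Real.rpow_one L]
    rw [← Real.rpow_add hL]
    congr 1; field_simp; ring
  rw [h6, mul_assoc] at h5
  exact mul_left_cancel₀ hL.ne' h5

/-- for every half length `T` there is exactly one eigenvalue -/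
theorem exists_Tp_eq (hp : 1 < p) {T : ℝ} (hT : 0 < T) :
    Tp p ((Tp p 1 / T) ^ p) = T := by
  have h1 : 0 < Tp p 1 := Tp_pos hp one_pos
  have h2 : 0 < Tp p 1 / T := div_pos h1 hT
  rw [Tp_scale hp (Real.rpow_pos_of_pos h2 _), ← Real.rpow_mul h2.le]
  have hp0 : p ≠ 0 := by linarith
  have h3 : p * -(1 / p) = -1 := by field_simp
  rw [h3, Real.rpow_neg_one]
  field_simp

theorem Tp_strictAnti (hp : 1 < p) {L L' : ℝ} (hL : 0 < L) (h : L < L') : Tp p L' < Tp p L := by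
  rw [Tp_scale hp hL, Tp_scale hp (hL.trans h)]
  apply mul_lt_mul_of_pos_right _ (Tp_pos hp one_pos)
  apply Real.rpow_lt_rpow_of_neg hL h
  have : 0 < 1 / p := by positivity
  linarith

end basic

end Pool.Agent.PLap
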