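import Pool.Agent.PLap.Lam

/-!
W0: the eigenvalue defined with the Sobolev space W_0^{1,p} (closure of the test functions) equals `lam`.

InW0 p Om u G: u in L^p, G in L^p, and there are test functions ph_n with ph_n -> u and fderiv ph_n -> G in L^p.
lam1 <= lam: every nonzero test function u (with G = fderiv u, constant sequence) is admissible in the first infimum (not a.e. zero because continuous; `test_pos`), the set is bounded below by 0.
lam <= lam1: for (u,G) in W0 with ph_n: lam * int|ph_n|^p <= int |fderiv ph_n|^p (lam_mul_le), and int|ph_n|^p -> int|u|^p, int|fderiv ph_n|^p -> int|G|^p (L^p convergence implies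
convergence of the norms: eLpNorm triangle inequality, int |f|^p = (eLpNorm f p)^p), so lam * int|u|^p <= int|G|^p, and int |u|^p > 0.
If Om has no nonzero test function both sets are empty (u = 0 a.e. for every W0 pair) and both values are sInf of the empty set = 0 (so the statement needs no assumption on Om;
if this case is awkward treat it separately: all ph_n = 0, so u = 0 a.e.).
-/

set_option autoImplicit false

open MeasureTheory Set Filter Topology
open scoped ENNReal NNReal ContDiff RealInnerProductSpace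

namespace Pool.Agent.PLap

/-- `u` belongs to the closure of the test functions in the Sobolev space `W^{1,p}`, with gradient `G`. -/
def InW0 {F : Type*} [NormedAddCommGroup F] [NormedSpace ℝ F] [MeasureSpace F]
    (p : ℝ) (Om : Set F) (u : F → ℝ) (G : F → F →L[ℝ] ℝ) : Prop :=
  MemLp u (ENNReal.ofReal p) volume ∧ MemLp G (ENNReal.ofReal p) volume ∧
    ∃ ph : ℕ → F → ℝ, (∀ n, IsTest Om (ph n)) ∧
      Tendsto (fun n => eLpNorm (fun x => ph n x - u x) (ENNReal.ofReal p) volume) atTop (𝓝 0) ∧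
      Tendsto (fun n => eLpNorm (fun x => fderiv ℝ (ph n) x - G x) (ENNReal.ofReal p) volume)
        atTop (𝓝 0)

/-- First Dirichlet eigenvalue of the p-Laplacian, with the Sobolev space. -/
noncomputable def lam1 {F : Type*} [NormedAddCommGroup F] [NormedSpace ℝ F] [MeasureSpace F]
    (p : ℝ) (Om : Set F) : ℝ :=
  sInf {t : ℝ | ∃ (u : F → ℝ) (G : F → F →L[ℝ] ℝ), InW0 p Om u G ∧ ¬ u =ᵐ[volume] (fun _ => 0) ∧
    t = (∫ x, ‖G x‖ ^ p) / ∫ x, |u x| ^ p}

section Conv

variable {F : Type*} [NormedAddCommGroup F] [NormedSpace ℝ F] [MeasureSpace F]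

private theorem w0_norm {E' : Type*} [NormedAddCommGroup E'] {p : ℝ} (hp : 1 < p) {v : F → E'}
    (hv : MemLp v (ENNReal.ofReal p) volume) :
    ∫ x, ‖v x‖ ^ p = (eLpNorm v (ENNReal.ofReal p) volume).toReal ^ p := by
  have hp0 : 0 < p := by linarith
  have hi : 0 ≤ ∫ x, ‖v x‖ ^ p :=
    integral_nonneg fun x => Real.rpow_nonneg (norm_nonneg _) _
  have hne : ENNReal.ofReal p ≠ 0 := by
    rw [Ne, ENNReal.ofReal_eq_zero, not_le]
    exact hp0
  rw [hv.eLpNorm_eq_integral_rpow_norm hne ENNReal.ofReal_ne_top,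
    ENNReal.toReal_ofReal hp0.le, ENNReal.toReal_ofReal (Real.rpow_nonneg hi _),
    ← Real.rpow_mul hi, inv_mul_cancel₀ hp0.ne', Real.rpow_one]

private theorem w0_conv {E' : Type*} [NormedAddCommGroup E'] {p : ℝ} (hp : 1 < p)
    {f : ℕ → F → E'} {g : F → E'} (hf : ∀ n, MemLp (f n) (ENNReal.ofReal p) volume)
    (hg : MemLp g (ENNReal.ofReal p) volume)
    (h : Tendsto (fun n => eLpNorm (fun x => f n x - g x) (ENNReal.ofReal p) volume) atTop (𝓝 0)) :
    Tendsto (fun n => ∫ x, ‖f n x‖ ^ p) atTop (𝓝 (∫ x, ‖g x‖ ^ p)) := by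
  have hp0 : 0 < p := by linarith
  haveI : Fact (1 ≤ ENNReal.ofReal p) := ⟨by
    rw [← ENNReal.ofReal_one]
    exact ENNReal.ofReal_le_ofReal hp.le⟩
  have h1 := (Lp.tendsto_Lp_iff_tendsto_eLpNorm'' f hf g hg).2 h
  have h2 := (continuous_norm.tendsto _).comp h1
  have h3 : Tendsto (fun n => (eLpNorm (f n) (ENNReal.ofReal p) volume).toReal) atTop
      (𝓝 (eLpNorm g (ENNReal.ofReal p) volume).toReal) := by
    have h4 : ∀ n, ‖(hf n).toLp (f n)‖ = (eLpNorm (f n) (ENNReal.ofReal p) volume).toReal :=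
      fun n => Lp.norm_toLp _ _
    have h5 : ‖hg.toLp g‖ = (eLpNorm g (ENNReal.ofReal p) volume).toReal := Lp.norm_toLp _ _
    rw [← h5]
    refine h2.congr fun n => ?_
    rw [Function.comp_apply, h4]
  have h6 := (Real.continuous_rpow_const hp0.le).tendsto
    ((eLpNorm g (ENNReal.ofReal p) volume).toReal)
  have h7 := h6.comp h3
  rw [w0_norm hp hg]
  refine h7.congr fun n => ?_
  rw [Function.comp_apply, w0_norm hp (hf n)]

private theorem w0_self {E' : Type*} [NormedAddCommGroup E'] (v : F → E') (q : ℝ≥0∞) :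
    Tendsto (fun _ : ℕ => eLpNorm (fun x => v x - v x) q volume) atTop (𝓝 0) := by
  have h : (fun x => v x - v x) = (0 : F → E') := by
    funext x
    exact sub_self _
  rw [h, eLpNorm_zero]
  exact tendsto_const_nhds

end Conv

theorem lam1_eq {F : Type*} [NormedAddCommGroup F] [InnerProductSpace ℝ F]
    [FiniteDimensional ℝ F] [MeasureSpace F] [BorelSpace F] [(volume : Measure F).IsAddHaarMeasure]
    {p : ℝ} (hp : 1 < p) (Om : Set F) : lam1 p Om = lam p Om := by
  have hp0 : 0 < p := by linarith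
  have hne : ENNReal.ofReal p ≠ 0 := by
    rw [Ne, ENNReal.ofReal_eq_zero, not_le]
    exact hp0
  have hmem : ∀ u : F → ℝ, IsTest Om u → MemLp u (ENNReal.ofReal p) volume := fun u hu =>
    hu.1.continuous.memLp_of_hasCompactSupport hu.2.1
  have hmem' : ∀ u : F → ℝ, IsTest Om u → MemLp (fderiv ℝ u) (ENNReal.ofReal p) volume :=
    fun u hu => (hu.1.continuous_fderiv (by simp)).memLp_of_hasCompactSupport (hu.2.1.fderiv ℝ)
  set S : Set ℝ := {t : ℝ | ∃ u : F → ℝ, IsTest Om u ∧ u ≠ 0 ∧
    t = (∫ x, ‖fderiv ℝ u x‖ ^ p) / ∫ x, |u x| ^ p} with hS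
  set S1 : Set ℝ := {t : ℝ | ∃ (u : F → ℝ) (G : F → F →L[ℝ] ℝ), InW0 p Om u G ∧
    ¬ u =ᵐ[volume] (fun _ => 0) ∧ t = (∫ x, ‖G x‖ ^ p) / ∫ x, |u x| ^ p} with hS1
  have hsub : S ⊆ S1 := by
    rintro t ⟨u, hu, hu0, rfl⟩
    refine ⟨u, fderiv ℝ u, ⟨hmem u hu, hmem' u hu, fun _ => u, fun _ => hu, ?_, ?_⟩, ?_, rfl⟩
    · simp
    · exact w0_self (fderiv ℝ u) _
    · intro h
      have h1 := test_pos hp hu hu0
      have h2 : ∫ x, |u x| ^ p = 0 := by
        rw [integral_congr_ae (g := fun _ => (0 : ℝ)) ?_, integral_zero]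
        filter_upwards [h] with x hx
        rw [hx, abs_zero, Real.zero_rpow hp0.ne']
      rw [h2] at h1
      exact lt_irrefl 0 h1
  have hbdd : BddBelow S1 := by
    refine ⟨0, ?_⟩
    rintro t ⟨u, G, -, -, rfl⟩
    exact div_nonneg (integral_nonneg fun x => Real.rpow_nonneg (norm_nonneg _) _)
      (integral_nonneg fun x => Real.rpow_nonneg (abs_nonneg _) _)
  have hle : ∀ t ∈ S1, lam p Om ≤ t := by
    rintro t ⟨u, G, ⟨hu, hG, ph, hph, hc1, hc2⟩, hu0, rfl⟩
    have h1 := w0_conv hp (fun n => hmem _ (hph n)) hu hc1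
    have h2 := w0_conv hp (fun n => hmem' _ (hph n)) hG hc2
    have hpos : 0 < ∫ x, |u x| ^ p := by
      have h3 : 0 ≤ ∫ x, |u x| ^ p := integral_nonneg fun x => Real.rpow_nonneg (abs_nonneg _) _
      rcases eq_or_lt_of_le h3 with h | h
      · exfalso
        apply hu0
        have h4 : ∫ x, ‖u x‖ ^ p = 0 := by
          simp only [Real.norm_eq_abs]
          exact h.symm
        rw [w0_norm hp hu, Real.rpow_eq_zero ENNReal.toReal_nonneg hp0.ne',
          ENNReal.toReal_eq_zero_iff] at h4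
        rcases h4 with h4 | h4
        · exact (eLpNorm_eq_zero_iff hu.1 hne).1 h4
        · exact absurd h4 hu.2.ne
      · exact h
    rw [le_div_iff₀ hpos]
    simp only [Real.norm_eq_abs] at h1
    exact le_of_tendsto_of_tendsto' (h1.const_mul (lam p Om)) h2 fun n => lam_mul_le hp (hph n)
  rcases S1.eq_empty_or_nonempty with h | h
  · have h0 : S = ∅ := by
      rw [← subset_empty_iff, ← h]
      exact hsub
    show sInf S1 = sInf S
    rw [h, h0]
  · have hSne : S.Nonempty := by
      obtain ⟨t, u, G, ⟨hu, hG, ph, hph, hc1, hc2⟩, hu0, rfl⟩ := h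
      by_contra hcon
      rw [not_nonempty_iff_eq_empty] at hcon
      apply hu0
      have h8 : ∀ n, ph n = 0 := by
        intro n
        by_contra hn
        have : (∫ x, ‖fderiv ℝ (ph n) x‖ ^ p) / ∫ x, |ph n x| ^ p ∈ S := ⟨ph n, hph n, hn, rfl⟩
        rw [hcon] at this
        exact this
      have h9 : ∀ n, eLpNorm (fun x => ph n x - u x) (ENNReal.ofReal p) volume =
          eLpNorm u (ENNReal.ofReal p) volume := by
        intro n
        have : (fun x => ph n x - u x) = -u := by
          funext x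
          rw [h8 n]
          simp
        rw [this, eLpNorm_neg]
      have h10 : eLpNorm u (ENNReal.ofReal p) volume = 0 := by
        simp only [h9] at hc1
        exact tendsto_nhds_unique tendsto_const_nhds hc1
      exact (eLpNorm_eq_zero_iff hu.1 hne).1 h10
    apply le_antisymm
    · exact csInf_le_csInf hbdd hSne hsub
    · exact le_csInf h hle

end Pool.Agent.PLap
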